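import Pool.Agent.Strip051.FourB.Box

/-! # The new point far from h0 -/

namespace Pool.Agent.Strip051.FourC

set_option linter.unusedVariables false

open Pool.Agent.StripNear Pool.Agent.StripSquare Pool.Agent.Strip051
open Pool.Agent.Strip051.Four.Low (ph)
open Pool.Agent.Strip051.FourB (lo up)

/-- The function of the boxes `bf`. -/
noncomputable def fF (s : ℝ) : ℝ :=
  2 * ph (8 / 25 * s) + ph s - 2 * ph (17 / 25 * s)

/-- The region of the boxes `bf`. -/
structure RegF (s : ℝ) : Prop where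
  s1 : 433 / 1000 ≤ s
  s2 : s ≤ 53 / 100

theorem RegF.lo1 {s : ℝ} (R : RegF s) (w0 : ℝ) (hw0 : w0 ^ 2 < 1) :
    2 * w0 * (17 / 25 * s) - 2 * w0 ^ 2 ≤ (1 - w0 ^ 2) * ph (17 / 25 * s) :=
  lo hw0 (by linear_combination (17 / 25) * R.s1) (by linear_combination (17 / 25) * R.s2)

theorem RegF.lo2 {s : ℝ} (R : RegF s) (w0 : ℝ) (hw0 : w0 ^ 2 < 1) :
    2 * w0 * (8 / 25 * s) - 2 * w0 ^ 2 ≤ (1 - w0 ^ 2) * ph (8 / 25 * s) :=
  lo hw0 (by linear_combination (8 / 25) * R.s1) (by linear_combination (8 / 25) * R.s2)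

theorem RegF.lo3 {s : ℝ} (R : RegF s) (w0 : ℝ) (hw0 : w0 ^ 2 < 1) :
    2 * w0 * (s) - 2 * w0 ^ 2 ≤ (1 - w0 ^ 2) * ph (s) :=
  lo hw0 (by linear_combination R.s1) (by linear_combination R.s2)

theorem bf0 {s : ℝ} (R : RegF s)
    (s1 : 433 / 1000 ≤ s) (s2 : s ≤ 53 / 100) :
    0 ≤ fF s := by
  have e1 := up (t1 := (150 / 1000)) (t2 := (187 / 1000)) (x := 17 / 25 * s) (by norm_num)
    (by linear_combination (6953 / 10000) * s1) (by linear_combination (17594473 / 25000000) * s2)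
  have e2 := R.lo2 (70 / 1000) (by norm_num)
  have e3 := R.lo3 (228 / 1000) (by norm_num)
  unfold fF
  linear_combination (5701963108988 / 57306823303695) * s1 + (40000 / 19439) * e1 + (20000 / 9951) * e2 +
    (62500 / 59251) * e3

end Pool.Agent.Strip051.FourC
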