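import Pool.Agent.Strip051.FourB.Box

/-! # The new point far from h0 -/

namespace Pool.Agent.Strip051.FourC

set_option linter.unusedVariables false

open Pool.Agent.StripNear Pool.Agent.StripSquare Pool.Agent.Strip051
open Pool.Agent.Strip051.Four.Low (ph)
open Pool.Agent.Strip051.FourB (lo up)

/-- The function of the boxes `bg`. -/
noncomputable def fG (s : ℝ) : ℝ :=
  2 * ph (8 / 25 * s) + ph s - 2 * ph (9 / 100 * s) - 2 * ph (77 / 100 * s)

/-- The region of the boxes `bg`. -/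
structure RegG (s : ℝ) : Prop where
  s1 : 433 / 1000 ≤ s
  s2 : s ≤ 53 / 100

theorem RegG.lo1 {s : ℝ} (R : RegG s) (w0 : ℝ) (hw0 : w0 ^ 2 < 1) :
    2 * w0 * (77 / 100 * s) - 2 * w0 ^ 2 ≤ (1 - w0 ^ 2) * ph (77 / 100 * s) :=
  lo hw0 (by linear_combination (77 / 100) * R.s1) (by linear_combination (77 / 100) * R.s2)

theorem RegG.lo2 {s : ℝ} (R : RegG s) (w0 : ℝ) (hw0 : w0 ^ 2 < 1) :
    2 * w0 * (8 / 25 * s) - 2 * w0 ^ 2 ≤ (1 - w0 ^ 2) * ph (8 / 25 * s) :=
  lo hw0 (by linear_combination (8 / 25) * R.s1) (by linear_combination (8 / 25) * R.s2)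

theorem RegG.lo3 {s : ℝ} (R : RegG s) (w0 : ℝ) (hw0 : w0 ^ 2 < 1) :
    2 * w0 * (9 / 100 * s) - 2 * w0 ^ 2 ≤ (1 - w0 ^ 2) * ph (9 / 100 * s) :=
  lo hw0 (by linear_combination (9 / 100) * R.s1) (by linear_combination (9 / 100) * R.s2)

theorem RegG.lo4 {s : ℝ} (R : RegG s) (w0 : ℝ) (hw0 : w0 ^ 2 < 1) :
    2 * w0 * (s) - 2 * w0 ^ 2 ≤ (1 - w0 ^ 2) * ph (s) :=
  lo hw0 (by linear_combination R.s1) (by linear_combination R.s2)

theorem bg0 {s : ℝ} (R : RegG s)
    (s1 : 433 / 1000 ≤ s) (s2 : s ≤ 53 / 100) :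
    0 ≤ fG s := by
  have e1 := up (t1 := (171 / 1000)) (t2 := (214 / 1000)) (x := 77 / 100 * s) (by norm_num)
    (by linear_combination (79251557 / 100000000) * s1) (by linear_combination (20131573 / 25000000) * s2)
  have e2 := R.lo2 (70 / 1000) (by norm_num)
  have e3 := up (t1 := (19 / 1000)) (t2 := (24 / 1000)) (x := 9 / 100 * s) (by norm_num)
    (by linear_combination (9003249 / 100000000) * s1) (by linear_combination (70353 / 781250) * s2)
  have e4 := R.lo4 (257 / 1000) (by norm_num)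
  have e5 := R.lo4 (228 / 1000) (by norm_num)
  unfold fG
  linear_combination (1000000 / 481703) * e1 + (20000 / 9951) * e2 + (250000 / 124943) * e3 +
    (3698925196766097737000 / 4596489390991309070259) * e4 + (802992428078861765125 / 3064326260660872713506) * e5

end Pool.Agent.Strip051.FourC
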