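import Pool.Agent.Strip051.FourB.Box

/-! # The new point close to h0 -/

namespace Pool.Agent.Strip051.FourC

set_option linter.unusedVariables false

open Pool.Agent.StripNear Pool.Agent.StripSquare Pool.Agent.Strip051
open Pool.Agent.Strip051.Four.Low (ph)
open Pool.Agent.Strip051.FourB (lo up)

/-- The function of the boxes `bh`. -/
noncomputable def fH (s t u b k : ℝ) : ℝ :=
  2 * ph (8 / 25 * s) + ph s - 2 * ph (8 / 25 * s - u) - 2 * ph (s - u) + ph (t - u - k + b / 2) + ph (t - u - k - b / 2) - ph b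

/-- The region of the boxes `bh`. -/
structure RegH (s t u b k : ℝ) : Prop where
  k1 : 86602 / 100000 * ph b ≤ k
  k2 : k ≤ 86603 / 100000 * ph b
  ht1 : 2 * ph t ≤ ph s
  ht2 : ph s ≤ 2 * ph t
  ta : 71 / 100 * s ≤ t
  tb : t ≤ 73 / 100 * s
  k3 : 0 ≤ k
  k4 : k ≤ 1161 / 10000
  hb : b / 2 ≤ u + k
  hu : u ≤ 23 / 100 * s
  s1 : 433 / 1000 ≤ s
  s2 : s ≤ 53 / 100
  u1 : 3 / 100 ≤ u
  u2 : u ≤ 1219 / 10000
  b1 : 0 ≤ b
  b2 : b ≤ 1 / 2

theorem RegH.lo1 {s t u b k : ℝ} (R : RegH s t u b k) (w0 : ℝ) (hw0 : w0 ^ 2 < 1) :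
    2 * w0 * (8 / 25 * s - u) - 2 * w0 ^ 2 ≤ (1 - w0 ^ 2) * ph (8 / 25 * s - u) :=
  lo hw0 (by linarith only [R.hu, R.s1]) (by linarith only [R.s2, R.u1])

theorem RegH.lo2 {s t u b k : ℝ} (R : RegH s t u b k) (w0 : ℝ) (hw0 : w0 ^ 2 < 1) :
    2 * w0 * (8 / 25 * s) - 2 * w0 ^ 2 ≤ (1 - w0 ^ 2) * ph (8 / 25 * s) :=
  lo hw0 (by linarith only [R.s1]) (by linarith only [R.s2])

theorem RegH.lo3 {s t u b k : ℝ} (R : RegH s t u b k) (w0 : ℝ) (hw0 : w0 ^ 2 < 1) :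
    2 * w0 * (b) - 2 * w0 ^ 2 ≤ (1 - w0 ^ 2) * ph (b) :=
  lo hw0 (by linarith only [R.b1]) (by linarith only [R.k4, R.hb, R.hu, R.s2])

theorem RegH.lo4 {s t u b k : ℝ} (R : RegH s t u b k) (w0 : ℝ) (hw0 : w0 ^ 2 < 1) :
    2 * w0 * (s - u) - 2 * w0 ^ 2 ≤ (1 - w0 ^ 2) * ph (s - u) :=
  lo hw0 (by linarith only [R.hu, R.s1]) (by linarith only [R.s2, R.u1])

theorem RegH.lo5 {s t u b k : ℝ} (R : RegH s t u b k) (w0 : ℝ) (hw0 : w0 ^ 2 < 1) :
    2 * w0 * (s) - 2 * w0 ^ 2 ≤ (1 - w0 ^ 2) * ph (s) :=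
  lo hw0 (by linarith only [R.s1]) (by linarith only [R.s2])

theorem RegH.lo6 {s t u b k : ℝ} (R : RegH s t u b k) (w0 : ℝ) (hw0 : w0 ^ 2 < 1) :
    2 * w0 * (t - u - k + b / 2) - 2 * w0 ^ 2 ≤ (1 - w0 ^ 2) * ph (t - u - k + b / 2) :=
  lo hw0 (by linarith only [R.ta, R.k4, R.hu, R.s1, R.b1]) (by linarith only [R.tb, R.hb, R.s2])

theorem RegH.lo7 {s t u b k : ℝ} (R : RegH s t u b k) (w0 : ℝ) (hw0 : w0 ^ 2 < 1) :
    2 * w0 * (t - u - k - b / 2) - 2 * w0 ^ 2 ≤ (1 - w0 ^ 2) * ph (t - u - k - b / 2) :=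
  lo hw0 (by linarith only [R.ta, R.k4, R.hb, R.hu, R.s1]) (by linarith only [R.tb, R.k3, R.s2, R.u1, R.b1])

theorem RegH.lo8 {s t u b k : ℝ} (R : RegH s t u b k) (w0 : ℝ) (hw0 : w0 ^ 2 < 1) :
    2 * w0 * (t) - 2 * w0 ^ 2 ≤ (1 - w0 ^ 2) * ph (t) :=
  lo hw0 (by linarith only [R.ta, R.s1]) (by linarith only [R.tb, R.s2])

theorem bh3 {s t u b k : ℝ} (R : RegH s t u b k)
    (s1 : 433 / 1000 ≤ s) (s2 : s ≤ 241 / 500) (u1 : 3 / 100 ≤ u) (u2 : u ≤ 1219 / 10000)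
    (b1 : 0 ≤ b) (b2 : b ≤ 1 / 8) :
    0 ≤ fH s t u b k := by
  have e1 := up (t1 := (19 / 1000)) (t2 := (63 / 1000)) (x := 8 / 25 * s - u) (by norm_num)
    (by linarith only [R.hu, s1]) (by linarith only [s2, u1])
  have e2 := R.lo2 (70 / 1000) (by norm_num)
  have e3 := up (t1 := (0 / 1000)) (t2 := (63 / 1000)) (x := b) (by norm_num)
    (by linarith only [b1]) (by linarith only [b2])
  have e4 := up (t1 := (171 / 1000)) (t2 := (239 / 1000)) (x := s - u) (by norm_num)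
    (by linarith only [R.hu, s1]) (by linarith only [s2, u1])
  have e5 := R.lo5 (228 / 1000) (by norm_num)
  have e6 := R.lo6 (143 / 1000) (by norm_num)
  have e7 := R.lo7 (117 / 1000) (by norm_num)
  have e8 := up (t1 := (157 / 1000)) (t2 := (182 / 1000)) (x := t) (by norm_num)
    (by linarith only [R.ta, s1]) (by linarith only [R.tb, s2])
  unfold fH
  linarith only [R.k2, R.ht2, R.hb, s1, u1, e1, e2, e3, e4, e5, e6, e7, e8]

theorem bh4 {s t u b k : ℝ} (R : RegH s t u b k)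
    (s1 : 241 / 500 ≤ s) (s2 : s ≤ 53 / 100) (u1 : 3 / 100 ≤ u) (u2 : u ≤ 1219 / 10000)
    (b1 : 0 ≤ b) (b2 : b ≤ 1 / 8) :
    0 ≤ fH s t u b k := by
  have e1 := up (t1 := (21 / 1000)) (t2 := (71 / 1000)) (x := 8 / 25 * s - u) (by norm_num)
    (by linarith only [R.hu, s1]) (by linarith only [s2, u1])
  have e2 := R.lo2 (78 / 1000) (by norm_num)
  have e3 := up (t1 := (0 / 1000)) (t2 := (63 / 1000)) (x := b) (by norm_num)
    (by linarith only [b1]) (by linarith only [b2])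
  have e4 := up (t1 := (192 / 1000)) (t2 := (268 / 1000)) (x := s - u) (by norm_num)
    (by linarith only [R.hu, s1]) (by linarith only [s2, u1])
  have e5 := R.lo5 (257 / 1000) (by norm_num)
  have e6 := R.lo6 (158 / 1000) (by norm_num)
  have e7 := R.lo7 (132 / 1000) (by norm_num)
  have e8 := up (t1 := (176 / 1000)) (t2 := (202 / 1000)) (x := t) (by norm_num)
    (by linarith only [R.ta, s1]) (by linarith only [R.tb, s2])
  unfold fH
  linarith only [R.k2, R.ht2, R.hb, s1, u1, e1, e2, e3, e4, e5, e6, e7, e8]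

theorem bh5 {s t u b k : ℝ} (R : RegH s t u b k)
    (s1 : 433 / 1000 ≤ s) (s2 : s ≤ 53 / 100) (u1 : 3 / 100 ≤ u) (u2 : u ≤ 1219 / 10000)
    (b1 : 1 / 8 ≤ b) (b2 : b ≤ 1 / 4) :
    0 ≤ fH s t u b k := by
  have e1 := up (t1 := (19 / 1000)) (t2 := (71 / 1000)) (x := 8 / 25 * s - u) (by norm_num)
    (by linarith only [R.hu, s1]) (by linarith only [s2, u1])
  have e2 := R.lo2 (70 / 1000) (by norm_num)
  have e3 := up (t1 := (62 / 1000)) (t2 := (128 / 1000)) (x := b) (by norm_num)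
    (by linarith only [b1]) (by linarith only [b2])
  have e4 := up (t1 := (171 / 1000)) (t2 := (253 / 1000)) (x := s - u) (by norm_num)
    (by linarith only [R.hu, s1]) (by linarith only [R.k2, R.hb, s2, b1, e3])
  have e5 := R.lo5 (257 / 1000) (by norm_num)
  have e6 := R.lo5 (228 / 1000) (by norm_num)
  have e7 := R.lo6 (167 / 1000) (by norm_num)
  have e8 := R.lo7 (80 / 1000) (by norm_num)
  have e9 := up (t1 := (157 / 1000)) (t2 := (202 / 1000)) (x := t) (by norm_num)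
    (by linarith only [R.ta, s1]) (by linarith only [R.tb, s2])
  unfold fH
  linarith only [R.k2, R.ht2, R.hb, b1, e1, e2, e3, e4, e5, e6, e7, e8, e9]

theorem bh7 {s t u b k : ℝ} (R : RegH s t u b k)
    (s1 : 433 / 1000 ≤ s) (s2 : s ≤ 53 / 100) (u1 : 3 / 100 ≤ u) (u2 : u ≤ 1219 / 10000)
    (b1 : 1 / 4 ≤ b) (b2 : b ≤ 3 / 8) :
    0 ≤ fH s t u b k := by
  have e1 := up (t1 := (19 / 1000)) (t2 := (71 / 1000)) (x := 8 / 25 * s - u) (by norm_num)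
    (by linarith only [R.hu, s1]) (by linarith only [s2, u1])
  have e2 := R.lo2 (85 / 1000) (by norm_num)
  have e3 := up (t1 := (127 / 1000)) (t2 := (195 / 1000)) (x := b) (by norm_num)
    (by linarith only [b1]) (by linarith only [b2])
  have e4 := up (t1 := (171 / 1000)) (t2 := (228 / 1000)) (x := s - u) (by norm_num)
    (by linarith only [R.hu, s1]) (by linarith only [R.k2, R.hb, s2, b1, e3])
  have e5 := R.lo5 (257 / 1000) (by norm_num)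
  have e6 := R.lo5 (287 / 1000) (by norm_num)
  have e7 := R.lo6 (179 / 1000) (by norm_num)
  have e8 := R.lo7 (6 / 1000) (by norm_num)
  have e9 := up (t1 := (157 / 1000)) (t2 := (202 / 1000)) (x := t) (by norm_num)
    (by linarith only [R.ta, s1]) (by linarith only [R.tb, s2])
  unfold fH
  linarith only [R.k2, R.ht2, R.hb, R.hu, e1, e2, e3, e4, e5, e6, e7, e8, e9]

theorem bh8 {s t u b k : ℝ} (R : RegH s t u b k)
    (s1 : 433 / 1000 ≤ s) (s2 : s ≤ 53 / 100) (u1 : 3 / 100 ≤ u) (u2 : u ≤ 1219 / 10000)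
    (b1 : 3 / 8 ≤ b) (b2 : b ≤ 1 / 2) :
    0 ≤ fH s t u b k := by
  have e1 := up (t1 := (194 / 1000)) (t2 := (254 / 1000)) (x := b) (by norm_num)
    (by linarith only [b1]) (by linarith only [R.k4, R.hb, R.hu, s2])
  exfalso
  linarith only [R.k2, R.hb, R.hu, s2, b1, e1]

theorem bh6 {s t u b k : ℝ} (R : RegH s t u b k)
    (s1 : 433 / 1000 ≤ s) (s2 : s ≤ 53 / 100) (u1 : 3 / 100 ≤ u) (u2 : u ≤ 1219 / 10000)
    (b1 : 1 / 4 ≤ b) (b2 : b ≤ 1 / 2) :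
    0 ≤ fH s t u b k := by
  rcases le_total b (3 / 8) with h | h
  · exact bh7 R s1 s2 u1 u2 b1 h
  · exact bh8 R s1 s2 u1 u2 h b2

theorem bh2 {s t u b k : ℝ} (R : RegH s t u b k)
    (s1 : 433 / 1000 ≤ s) (s2 : s ≤ 53 / 100) (u1 : 3 / 100 ≤ u) (u2 : u ≤ 1219 / 10000)
    (b1 : 0 ≤ b) (b2 : b ≤ 1 / 8) :
    0 ≤ fH s t u b k := by
  rcases le_total s (241 / 500) with h | h
  · exact bh3 R s1 h u1 u2 b1 b2
  · exact bh4 R h s2 u1 u2 b1 b2

theorem bh1 {s t u b k : ℝ} (R : RegH s t u b k)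
    (s1 : 433 / 1000 ≤ s) (s2 : s ≤ 53 / 100) (u1 : 3 / 100 ≤ u) (u2 : u ≤ 1219 / 10000)
    (b1 : 0 ≤ b) (b2 : b ≤ 1 / 4) :
    0 ≤ fH s t u b k := by
  rcases le_total b (1 / 8) with h | h
  · exact bh2 R s1 s2 u1 u2 b1 h
  · exact bh5 R s1 s2 u1 u2 h b2

theorem bh0 {s t u b k : ℝ} (R : RegH s t u b k)
    (s1 : 433 / 1000 ≤ s) (s2 : s ≤ 53 / 100) (u1 : 3 / 100 ≤ u) (u2 : u ≤ 1219 / 10000)
    (b1 : 0 ≤ b) (b2 : b ≤ 1 / 2) :
    0 ≤ fH s t u b k := by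
  rcases le_total b (1 / 4) with h | h
  · exact bh1 R s1 s2 u1 u2 b1 h
  · exact bh6 R s1 s2 u1 u2 h b2

end Pool.Agent.Strip051.FourC
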