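import Pool.Agent.Strip051.FourB.Box

/-! # The virtual disc is not above the end of the wall probe -/

namespace Pool.Agent.Strip051.FourC

set_option linter.unusedVariables false

open Pool.Agent.StripNear Pool.Agent.StripSquare Pool.Agent.Strip051
open Pool.Agent.Strip051.Four.Low (ph)
open Pool.Agent.Strip051.FourB (lo up)

/-- The function of the boxes `bt`. -/
noncomputable def fT (s t u b k : ℝ) : ℝ :=
  t - u - k - b / 2

/-- The region of the boxes `bt`. -/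
structure RegT (s t u b k : ℝ) : Prop where
  k1 : 86602 / 100000 * ph b ≤ k
  k2 : k ≤ 86603 / 100000 * ph b
  ta : 71 / 100 * s ≤ t
  hb : b / 2 ≤ u + k
  hu : u ≤ 23 / 100 * s
  s1 : 433 / 1000 ≤ s
  s2 : s ≤ 53 / 100
  u1 : 0 ≤ u
  u2 : u ≤ 1219 / 10000
  b1 : 0 ≤ b
  b2 : b ≤ 1 / 2

theorem RegT.lo1 {s t u b k : ℝ} (R : RegT s t u b k) (w0 : ℝ) (hw0 : w0 ^ 2 < 1) :
    2 * w0 * (b) - 2 * w0 ^ 2 ≤ (1 - w0 ^ 2) * ph (b) :=
  lo hw0 (by linear_combination R.b1) (by linear_combination R.b2)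

theorem bt1 {s t u b k : ℝ} (R : RegT s t u b k)
    (s1 : 433 / 1000 ≤ s) (s2 : s ≤ 53 / 100) (u1 : 0 ≤ u) (u2 : u ≤ 1219 / 10000)
    (b1 : 0 ≤ b) (b2 : b ≤ 1 / 4) :
    0 ≤ fT s t u b k := by
  have e1 := up (t1 := (0 / 1000)) (t2 := (128 / 1000)) (x := b) (by norm_num)
    (by linear_combination b1) (by linear_combination (15881 / 15625) * b2)
  unfold fT
  linear_combination R.k2 + R.ta + R.hu + (12 / 25) * s1 + (238614 / 390625) * b2 + (86603 / 100000) * e1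

theorem bt3 {s t u b k : ℝ} (R : RegT s t u b k)
    (s1 : 433 / 1000 ≤ s) (s2 : s ≤ 53 / 100) (u1 : 0 ≤ u) (u2 : u ≤ 1219 / 10000)
    (b1 : 1 / 4 ≤ b) (b2 : b ≤ 3 / 8) :
    0 ≤ fT s t u b k := by
  have e1 := up (t1 := (127 / 1000)) (t2 := (195 / 1000)) (x := b) (by norm_num)
    (by linear_combination (1016129 / 1000000) * b1) (by linear_combination (41521 / 40000) * b2)
  unfold fT
  linear_combination (24380875 / 5218896) * R.k2 + R.ta + (19161979 / 5218896) * R.hb +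
    (24380875 / 5218896) * R.hu + (190218509 / 521889600) * s2 + (10825375 / 2609448) * e1

theorem bt4 {s t u b k : ℝ} (R : RegT s t u b k)
    (s1 : 433 / 1000 ≤ s) (s2 : s ≤ 53 / 100) (u1 : 0 ≤ u) (u2 : u ≤ 1219 / 10000)
    (b1 : 3 / 8 ≤ b) (b2 : b ≤ 1 / 2) :
    0 ≤ fT s t u b k := by
  have e1 := up (t1 := (194 / 1000)) (t2 := (268 / 1000)) (x := b) (by norm_num)
    (by linear_combination (259409 / 250000) * b1) (by linear_combination (66989 / 62500) * b2)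
  exfalso
  exact absurd b1 (not_le.mpr (by linear_combination (47400400 / 3694907) * R.k2 + (47400400 / 3694907) * R.hb + (47400400 / 3694907) * R.hu + (10902092 / 3694907) * s2 + (43301500 / 3694907) * e1))

theorem bt2 {s t u b k : ℝ} (R : RegT s t u b k)
    (s1 : 433 / 1000 ≤ s) (s2 : s ≤ 53 / 100) (u1 : 0 ≤ u) (u2 : u ≤ 1219 / 10000)
    (b1 : 1 / 4 ≤ b) (b2 : b ≤ 1 / 2) :
    0 ≤ fT s t u b k := by
  rcases le_total b (3 / 8) with h | h
  · exact bt3 R s1 s2 u1 u2 b1 h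
  · exact bt4 R s1 s2 u1 u2 h b2

theorem bt0 {s t u b k : ℝ} (R : RegT s t u b k)
    (s1 : 433 / 1000 ≤ s) (s2 : s ≤ 53 / 100) (u1 : 0 ≤ u) (u2 : u ≤ 1219 / 10000)
    (b1 : 0 ≤ b) (b2 : b ≤ 1 / 2) :
    0 ≤ fT s t u b k := by
  rcases le_total b (1 / 4) with h | h
  · exact bt1 R s1 s2 u1 u2 b1 h
  · exact bt2 R s1 s2 u1 u2 h b2

end Pool.Agent.Strip051.FourC
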