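import Pool.Agent.Strip051.FourC.Defs
import Pool.Agent.Strip051.FourC.BoxH
import Pool.Agent.Strip051.FourC.BoxG
import Pool.Agent.Strip051.FourC.BoxF
import Pool.Agent.Strip051.FourC.BoxT
import Pool.Agent.Strip051.Four.MidGainLow
import Pool.Agent.Strip051.FourB.Corner

/-! # The new point is between `h0` and `h0 + s / 2` -/

namespace Pool.Agent.Strip051.FourC

open Pool.Agent.StripNear Pool.Agent.StripSquare Pool.Agent.Strip051
open Pool.Agent.Strip051.Four (mirP j1 gn arc_sub le_gn gn_nonneg g_le_of_abs ext_facts corner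
  g_para)
open Pool.Agent.Strip051.Four.Low (ph ph_nonneg ph_hi2' ph_neg)
open Pool.Agent.Strip051.FourB (up tan_at)

section

variable {s t y r q u b k : ℝ}

theorem gam_self (r q : ℝ) : gam r q 0 = 0 := by
  unfold gam
  rw [if_pos le_rfl, vir_zero]

/-- The gain of the middle probe below its top. -/
theorem high_j2a (P : Par s t) (h1 : h0 ≤ y) (h2 : y ≤ h0 + 8 / 25 * s) :
    2 * g (h0 + 8 / 25 * s - y) - 1 ≤ gn (j2 s) r q y := by
  have hh := h0_lt
  have hg := h0_gt
  have hs0 := P.s0
  have hs1 := P.s1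
  have h3 := le_gn (r := r) (q := q) (y := y) (z0 := y) (v := g (h0 + 8 / 25 * s - y) - 1)
    (j2_ok P) (by simp only [j2]; linear_combination h1 + hg + hs1) (by simp only [j2]; linear_combination (17 / 8) * h1 + (25 / 8) * h2 + hh)
    (by
      intro z k1 k2
      simp only [j2] at k1 k2 ⊢
      right
      rcases le_total z (h0 + 8 / 25 * s) with h | h
      · have e1 := a2_le2 (s := s) (z := z)
        have e2 := arc_sub (a := y) (b := h0 + 8 / 25 * s) (x := z) (y := h0 + 8 / 25 * s) h2 h
          (by linear_combination hh + (17 / 25) * hs0 + k1) (by linear_combination h1 + (8 / 25) * hs1)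
        rw [sub_self, g_zero] at e2
        linear_combination e1 + e2
      · have e1 := a2_le3 (s := s) (z := z)
        have e2 := arc_sub (a := h0) (b := y) (x := h0 + 8 / 25 * s) (y := z) h1 h (by linear_combination h2)
          (by linear_combination hg + hs1 + k2)
        rw [add_sub_cancel_left] at e2
        linear_combination e1 + e2)
  rw [sub_self, gam_self] at h3
  simp only [j2] at h3 ⊢
  rw [a2_eq2 P h1 h2, show y - (h0 + 8 / 25 * s) = -(h0 + 8 / 25 * s - y) by ring, g_neg] at h3
  linear_combination h3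

/-- The gain of the middle probe above its top. -/
theorem high_j2b (P : Par s t) (h1 : h0 + 8 / 25 * s ≤ y) (h2 : y ≤ h0 + s) :
    2 * g (y - h0) + 1 - 2 * g (8 / 25 * s) ≤ gn (j2 s) r q y := by
  have hh := h0_lt
  have hg := h0_gt
  have hs0 := P.s0
  have hs1 := P.s1
  have h3 := le_gn (r := r) (q := q) (y := y) (z0 := y) (v := g (y - h0) - g (8 / 25 * s))
    (j2_ok P) (by simp only [j2]; linear_combination h1 + hg + (17 / 25) * hs1) (by simp only [j2]; linear_combination h2 + hh)
    (by
      intro z k1 k2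
      simp only [j2] at k1 k2 ⊢
      right
      rcases le_total z h0 with h | h
      · have e1 := a2_le1 (s := s) (z := z)
        have e2 := arc_sub (a := y) (b := h0 + s) (x := z) (y := h0) h2 h (by linear_combination hh + k1)
          (by linear_combination (25 / 17) * h1 + (8 / 17) * h2)
        rw [show h0 - (h0 + s) = -s by ring, show h0 - y = -(y - h0) by ring, g_neg, g_neg] at e2
        linear_combination e1 + e2
      · have e1 := a2_le2 (s := s) (z := z)
        have e2 := arc_sub (a := h0 + 8 / 25 * s) (b := y) (x := h0) (y := z) h1 h (by linear_combination h2 + hs1)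
          (by linear_combination hg + (17 / 25) * hs1 + k2)
        rw [show h0 - (h0 + 8 / 25 * s) = -(8 / 25 * s) by ring, show h0 - y = -(y - h0) by ring,
          g_neg, g_neg] at e2
        linear_combination e1 + e2)
  rw [sub_self, gam_self] at h3
  simp only [j2] at h3 ⊢
  rw [a2_eq3 P h1 h2] at h3
  linear_combination h3

/-- The gain of the mirror image. -/
theorem high_j3 (P : Par s t) (h1 : h0 ≤ y) (h2 : y ≤ h0 + s / 2) :
    2 * g (h0 + s - y) + 1 - 2 * g (8 / 25 * s) ≤ gn (j3 s) r q y := by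
  have hs0 := P.s0
  rw [j2_gn]
  have := high_j2b (r := q) (q := r) (y := 2 * h0 + s - y) P (by linear_combination (9 / 25) * h1 + (34 / 25) * h2) (by linear_combination h1)
  rw [show 2 * h0 + s - y - h0 = h0 + s - y by ring] at this
  exact this

/-- The gain of the wall probe. -/
theorem high_j1 (P : Par s t) (h1 : h0 ≤ y) (q1 : 1 / 2 ≤ q) (q2 : q ≤ 1) (hq : y - q ≤ t) :
    1 + g (ext q) + g q - g (y - ext q - t) - g (y - q - t) ≤ gn (j1 t) r q y := by
  have hh := h0_lt
  have hg := h0_gt
  have hs0 := P.s0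
  have hs1 := P.s1
  have ht0 := P.t0
  have hts := P.ts
  obtain ⟨b1, b2, b3, b4, b5, b6⟩ := ext_spec q1 q2
  have hm := ext_meet q1 q2
  have hee : q / 2 + h0 * g q = ext q := rfl
  rw [hee] at b2 b3 b5 b6 hm
  have hm2 : g (ext q - q) = g (ext q) + g q := by
    rw [show ext q - q = -(q - ext q) by ring, g_neg]
    linear_combination hm
  have h3 := le_gn (r := r) (q := q) (y := y) (z0 := t) (v := g (ext q) - g (y - ext q - t))
    (j1_ok P) P.t0 le_rfl
    (by
      intro z k1 k2
      simp only [j1] at k1 k2 ⊢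
      rcases le_total (y - ext q) z with h | h
      · right
        have e2 := arc_sub (a := t) (b := y) (x := y - ext q) (y := z) (by linear_combination h1 + hg + hs1 + hts) h
          (by linear_combination b6) (by linear_combination k2)
        rw [show y - ext q - y = -(ext q) by ring, g_neg] at e2
        linear_combination e2
      · left
        have e2 := arc_sub (a := y - q) (b := t) (x := z) (y := y - ext q) hq h (by linear_combination hs1 + hts + k1)
          (by linear_combination q2 + b5)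
        rw [show y - ext q - (y - q) = q - ext q by ring,
          show y - ext q - t = -(t - (y - ext q)) by ring, g_neg] at e2
        have e3 : g (z - (y - q)) - g q ≤ gam r q (z - y) := by
          unfold gam
          split
          · next h' =>
            exfalso
            exact absurd h' (not_le.mpr (by linear_combination h1 + hg + hs1 + hts + k2))
          · unfold vir
            refine le_trans ?_ (le_max_right _ _)
            rw [show z - (y - q) = -(-(z - y) - q) by ring, g_neg]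
        rw [show y - ext q - t = -(t - (y - ext q)) by ring, g_neg]
        linear_combination -hm + e2 + e3)
  simp only [j1, sub_self, g_zero] at h3
  have h4 : gam r q (t - y) ≤ g (y - q - t) - g q := by
    unfold gam
    split
    · next h =>
      exfalso
      exact absurd h (not_le.mpr (by linear_combination h1 + hg + hs1 + hts))
    · unfold vir
      have e1 : g (-(t - y) - q) = g (y - q - t) := by
        congr 1
        ring
      rw [e1]
      apply max_le
      · have : g q ≤ g (t - (y - q)) := g_anti (by linear_combination hq) (by linear_combination h1 + hg + hs1 + hts)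
        rw [show y - q - t = -(t - (y - q)) by ring, g_neg]
        linear_combination this
      · exact le_rfl
  simp only [j1]
  linear_combination h3 + h4

/-- Bounds of the parameters. -/
theorem par_t (P : Par s t) : 71 / 100 * s ≤ t ∧ t ≤ 73 / 100 * s ∧ t ≤ 3825 / 10000 ∧
    2 * ph t = ph s ∧ 923 / 1000 ≤ g t := by
  have hs0 := P.s0
  have hs1 := P.s1
  have ht0 := P.t0
  have hgt := P.gt
  have a2 := g_sq (r := s) (by linear_combination (963 / 1000) * hs1 + (mul_nonneg (sub_nonneg.mpr hs0) (sub_nonneg.mpr hs1)))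
  have a3 := g_nonneg s
  have a4 : 847 / 1000 ≤ g s := by exact not_lt.mp (fun hg__ => absurd hs1 (not_le.mpr (by linear_combination (847 / 963) * hg__ - (1000 / 963) * a2 + (1000 / 963) * (mul_nonneg (sub_nonneg.mpr hs0) (sub_nonneg.mpr hs1)) + (1000 / 963) * (mul_nonneg (sub_nonneg.mpr (le_of_lt hg__)) (sub_nonneg.mpr a3)))))
  have a5 : g s ≤ 902 / 1000 := by exact not_lt.mp (fun hg__ => absurd hs0 (not_le.mpr (by linear_combination (902 / 433) * hg__ + (500 / 433) * a2 + (500 / 433) * (mul_nonneg (sub_nonneg.mpr hs0) (sub_nonneg.mpr hs0)) + (500 / 433) * (mul_pos (sub_pos.mpr hg__) (sub_pos.mpr hg__)))))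
  have a6 := g_sq (r := t) (by linear_combination (sq_nonneg (g s)) + (433 / 1000) * P.ts + a2 + (mul_nonneg (sub_nonneg.mpr P.ts) (sub_nonneg.mpr hs0)) +
    (mul_nonneg (sub_nonneg.mpr P.ts) (sub_nonneg.mpr ht0)))
  obtain ⟨c, hc⟩ : ∃ c, c = g s := ⟨_, rfl⟩
  have e1 : g t = (1 + c) / 2 := by rw [hc]; linear_combination (1 / 2) * hgt
  rw [← hc] at a2 a4 a5
  rw [e1] at a6
  have a7 : 4 * (1 + c) * t ^ 2 = (3 + c) * s ^ 2 := by
    have h1 : t ^ 2 = 1 - ((1 + c) / 2) ^ 2 := by linear_combination a6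
    have h2 : s ^ 2 = 1 - c ^ 2 := by linear_combination a2
    rw [h1, h2]
    ring
  have hs2 : 0 ≤ s ^ 2 := sq_nonneg s
  have hc1 : 0 < 4 * (1 + c) := by linear_combination 4 * a4
  refine ⟨?_, ?_, ?_, ?_, ?_⟩
  · apply abs_le_of_sq_le_sq' _ ht0 |>.2
    have : (4 * (1 + c)) * ((71 / 100 * s) ^ 2) ≤ (4 * (1 + c)) * t ^ 2 := by
      rw [a7]
      linear_combination (2541 / 2500) * (mul_nonneg hs2 (sub_nonneg.2 a5)) + (83509 / 1250000) * hs2
    exact le_of_mul_le_mul_left this hc1
  · apply abs_le_of_sq_le_sq' _ (by linear_combination (73 / 100) * hs0) |>.2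
    have : (4 * (1 + c)) * t ^ 2 ≤ (4 * (1 + c)) * ((73 / 100 * s) ^ 2) := by
      rw [a7]
      linear_combination (2829 / 2500) * (mul_nonneg hs2 (sub_nonneg.2 a4)) + (225163 / 2500000) * hs2
    exact le_of_mul_le_mul_left this hc1
  · apply abs_le_of_sq_le_sq' _ (by norm_num) |>.2
    have h1 : t ^ 2 = 1 - ((1 + c) / 2) ^ 2 := by linear_combination a6
    rw [h1]
    have : 8479 / 10000 ≤ c := by linear_combination (321 / 583) * hs1 - (1000 / 1749) * a2 + (1000 / 1749) * (mul_nonneg (sub_nonneg.mpr hs0) (sub_nonneg.mpr hs1)) +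
      (1000 / 1749) * (mul_nonneg (sub_nonneg.mpr a5) (sub_nonneg.mpr a4))
    linear_combination (963 / 4000) * hs1 - (1 / 4) * a2 + (1 / 2) * this + (1 / 4) * (mul_nonneg (sub_nonneg.mpr hs0) (sub_nonneg.mpr hs1))
  · unfold Four.Low.ph
    linear_combination -hgt
  · rw [e1]
    linear_combination (1 / 2) * a4

/-- The corner. -/
theorem near_corner (hs0 : 433 / 1000 ≤ s) (hs1 : s ≤ 53 / 100) (ht0 : 0 ≤ t)
    (ht1 : t ≤ 3825 / 10000) (ht : 2 * ph t = ph s) (hgt : 924 / 1000 - 1 / 1000 ≤ g t)
    (hu0 : 0 ≤ u) (hu1 : u ≤ 3 / 100) (hb0 : 0 ≤ b) (hb1 : b ≤ 1 / 2)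
    (k1 : 0 ≤ k) (k2 : k ≤ 86603 / 100000 * ph b) (hb : b / 2 ≤ u + k) :
    0 ≤ fH s t u b k ∧ b ≤ 7 / 100 := by
  have f0 := ph_nonneg b
  have c1 := up (t1 := 0) (t2 := 268 / 1000) (x := b) (by norm_num) (by linear_combination hb0)
    (by linear_combination (66989 / 62500) * hb1)
  have b1 : b ≤ 1127 / 10000 := by linear_combination (25000000 / 6697599) * hu1 + (25000000 / 6697599) * k2 + (25000000 / 6697599) * hb +
    (21650750 / 6697599) * c1
  have fb : ph b ≤ 5061 / 10000 * b ^ 2 := ph_hi2' (by linear_combination (6250000000000 / 14952610788267) * hu1 + (625000000000000 / 44857832364801) * (mul_nonneg (sub_nonneg.mpr hu0) (sub_nonneg.mpr hu1)) +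
    (625000000000000 / 44857832364801) * (mul_nonneg (sub_nonneg.mpr hu0) (sub_nonneg.mpr k2)) +
    (625000000000000 / 44857832364801) * (mul_nonneg (sub_nonneg.mpr hu0) (sub_nonneg.mpr hb)) +
    (541268750000000 / 44857832364801) * (mul_nonneg (sub_nonneg.mpr hu0) (sub_nonneg.mpr c1)) +
    (25000000 / 6697599) * (mul_nonneg (sub_nonneg.mpr hb0) (sub_nonneg.mpr k2)) + (25000000 / 6697599) * (mul_nonneg (sub_nonneg.mpr hb0) (sub_nonneg.mpr hb)) +
    (21650750 / 6697599) * (mul_nonneg (sub_nonneg.mpr hb0) (sub_nonneg.mpr c1)))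
  have bb : b ^ 2 ≤ 1127 / 10000 * b := by linear_combination (6455000 / 1732533) * (mul_nonneg (sub_nonneg.mpr hu1) (sub_nonneg.mpr hb0)) +
    (5354897 / 2887555000) * (mul_nonneg (sub_nonneg.mpr hb0) (sub_nonneg.mpr hb1)) + (6455000 / 1732533) * (mul_nonneg (sub_nonneg.mpr hb0) (sub_nonneg.mpr k2)) +
    (6455000 / 1732533) * (mul_nonneg (sub_nonneg.mpr hb0) (sub_nonneg.mpr hb)) + (10164043 / 3150060) * (mul_nonneg (sub_nonneg.mpr hb0) (sub_nonneg.mpr c1))
  have b2 : b ≤ 2222 / 1000 * u := by linear_combination (1111 / 500) * k2 + (1111 / 500) * hb + (6208660799049 / 1054812650000000) * c1 +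
    (5058967511 / 2637031625) * fb + (25603434573171 / 26370316250000) * bb
  have b3 : b ≤ 7 / 100 := by linear_combination (10000000000000 / 4506038398559) * hu1 + (10000000000000 / 4506038398559) * k2 +
    (10000000000000 / 4506038398559) * hb + (8660300000000 / 4506038398559) * fb + (4382977830000 / 4506038398559) * bb
  refine ⟨?_, b3⟩
  have bb2 : b ^ 2 ≤ 7 / 100 * b := by linear_combination (2068084481 / 623711880) * (mul_nonneg (sub_nonneg.mpr (sq_nonneg (b))) (sub_nonneg.mpr hu1)) +
    (1396981519 / 10395198000) * (mul_nonneg (sub_nonneg.mpr (sq_nonneg (b))) (sub_nonneg.mpr hb1)) +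
    (2068084481 / 623711880) * (mul_nonneg (sub_nonneg.mpr (sq_nonneg (b))) (sub_nonneg.mpr k2)) +
    (2068084481 / 623711880) * (mul_nonneg (sub_nonneg.mpr (sq_nonneg (b))) (sub_nonneg.mpr hb)) +
    (16282029118913 / 5670108000000) * (mul_nonneg (sub_nonneg.mpr (sq_nonneg (b))) (sub_nonneg.mpr c1)) +
    (7 / 3) * (mul_nonneg (sub_nonneg.mpr hu1) (sub_nonneg.mpr hb0)) + (7 / 3) * (mul_nonneg (sub_nonneg.mpr hb0) (sub_nonneg.mpr k2)) +
    (7 / 3) * (mul_nonneg (sub_nonneg.mpr hb0) (sub_nonneg.mpr hb)) + (606221 / 300000) * (mul_nonneg (sub_nonneg.mpr hb0) (sub_nonneg.mpr fb))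
  have k3 : k ≤ 69 / 1000 * u := by linear_combination (1069 / 1000) * k2 + (69 / 1000) * hb + (92578607 / 100000000) * fb +
    (170217689811 / 4270000000000) * bb + (183044951940429 / 427000000000000) * bb2
  have f3 : ph b ≤ 79 / 1000 * u := by linear_combination (79 / 1000) * k2 + (79 / 1000) * hb + (106841637 / 100000000) * fb +
    (164921326001 / 4270000000000) * bb + (214397666513839 / 427000000000000) * bb2
  -- the tangent at `t`
  have gt0 : 0 < g t := by linear_combination hgt
  obtain ⟨K, hK⟩ : ∃ K, K = t / g t := ⟨_, rfl⟩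
  have hK1 : K * g t = t := by
    rw [hK]
    field_simp
  have hK0 : 0 ≤ K := by
    rw [hK]
    positivity
  have hK2 : K ≤ 415 / 1000 := by
    rw [hK, div_le_iff₀ gt0]
    linear_combination ht1 + (83 / 200) * hgt
  have e1 := tan_at (s := t) (z := t - u - k + b / 2) (K := K) (by linear_combination (153 / 400) * ht1 + (mul_nonneg (sub_nonneg.mpr ht0) (sub_nonneg.mpr ht1))) (by linear_combination (353 / 400) * ht1 + (3 / 100) * hu1 + (1127 / 40000) * hb1 + (1 / 4) * bb +
    (mul_nonneg (sub_nonneg.mpr ht0) (sub_nonneg.mpr ht1)) + 2 * (mul_nonneg (sub_nonneg.mpr ht0) (sub_nonneg.mpr hu0)) +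
    (mul_nonneg (sub_nonneg.mpr ht0) (sub_nonneg.mpr hb1)) + 2 * (mul_nonneg (sub_nonneg.mpr ht0) (sub_nonneg.mpr k1)) +
    (mul_nonneg (sub_nonneg.mpr hu0) (sub_nonneg.mpr hu1)) + (6697599 / 12500000) * (mul_nonneg (sub_nonneg.mpr hu0) (sub_nonneg.mpr hb0)) +
    2 * (mul_nonneg (sub_nonneg.mpr hu0) (sub_nonneg.mpr k2)) + (86603 / 50000) * (mul_nonneg (sub_nonneg.mpr hu0) (sub_nonneg.mpr c1)) +
    (19197599 / 25000000) * (mul_nonneg (sub_nonneg.mpr hb0) (sub_nonneg.mpr k1)) + (mul_nonneg (sub_nonneg.mpr k1) (sub_nonneg.mpr k2)) +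
    (86603 / 100000) * (mul_nonneg (sub_nonneg.mpr k1) (sub_nonneg.mpr c1))) hK1
  have e2 := tan_at (s := t) (z := t - u - k - b / 2) (K := K) (by linear_combination (153 / 400) * ht1 + (mul_nonneg (sub_nonneg.mpr ht0) (sub_nonneg.mpr ht1))) (by linear_combination (153 / 400) * ht1 + (19052401 / 25000000) * hu1 + (377520073425130727 / 6250000000000000000) * hb1 +
    (334977882364801 / 625000000000000) * bb + (mul_nonneg (sub_nonneg.mpr ht0) (sub_nonneg.mpr ht1)) +
    2 * (mul_nonneg (sub_nonneg.mpr ht0) (sub_nonneg.mpr hu0)) + (mul_nonneg (sub_nonneg.mpr ht0) (sub_nonneg.mpr hb0)) +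
    2 * (mul_nonneg (sub_nonneg.mpr ht0) (sub_nonneg.mpr k1)) + (mul_nonneg (sub_nonneg.mpr hu0) (sub_nonneg.mpr hu1)) +
    (18302401 / 12500000) * (mul_nonneg (sub_nonneg.mpr hu0) (sub_nonneg.mpr hb1)) + 2 * (mul_nonneg (sub_nonneg.mpr hu0) (sub_nonneg.mpr k2)) +
    (86603 / 50000) * (mul_nonneg (sub_nonneg.mpr hu0) (sub_nonneg.mpr c1)) + (30802401 / 25000000) * (mul_nonneg (sub_nonneg.mpr hb0) (sub_nonneg.mpr k2)) +
    (2667580333803 / 2500000000000) * (mul_nonneg (sub_nonneg.mpr hb0) (sub_nonneg.mpr c1)) +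
    (mul_nonneg (sub_nonneg.mpr k1) (sub_nonneg.mpr k2)) + (86603 / 100000) * (mul_nonneg (sub_nonneg.mpr k1) (sub_nonneg.mpr c1))) hK1
  have e3 : K * (2 * (u + k)) ≤ 415 / 1000 * (2 * (u + k)) :=
    mul_le_mul_of_nonneg_right hK2 (by linear_combination 2 * hu0 + 2 * k1)
  have e4 := g_para (b := 8 / 25 * s - u) (c := 8 / 25 * s) (by linear_combination (8 / 25) * hs0 + hu1) (by linear_combination hu0)
    (by linear_combination (8 / 25) * hs1)
  have e5 := g_para (b := s - u) (c := s) (by linear_combination hs0 + hu1) (by linear_combination hu0) (by linear_combination hs1)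
  have e6 : (1235 / 10000) * u ≤ ((8 / 25 * s) ^ 2 - (8 / 25 * s - u) ^ 2) / 2 := by
    have : ((8 / 25 * s) ^ 2 - (8 / 25 * s - u) ^ 2) / 2 = u * (16 / 25 * s - u) / 2 := by ring
    rw [this]
    linear_combination (3 / 50000) * hu0 + (8 / 25) * (mul_nonneg (sub_nonneg.mpr hs0) (sub_nonneg.mpr hu0)) +
      (1 / 2) * (mul_nonneg (sub_nonneg.mpr hu0) (sub_nonneg.mpr hu1))
  have e7 : (418 / 1000) * u ≤ (s ^ 2 - (s - u) ^ 2) / 2 := by
    have : (s ^ 2 - (s - u) ^ 2) / 2 = u * (2 * s - u) / 2 := by ring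
    rw [this]
    linear_combination (mul_nonneg (sub_nonneg.mpr hs0) (sub_nonneg.mpr hu0)) + (1 / 2) * (mul_nonneg (sub_nonneg.mpr hu0) (sub_nonneg.mpr hu1))
  unfold fH
  have d1 : g (8 / 25 * s - u) - g (8 / 25 * s) = ph (8 / 25 * s) - ph (8 / 25 * s - u) := by
    unfold Four.Low.ph
    ring
  have d2 : g (s - u) - g s = ph s - ph (s - u) := by
    unfold Four.Low.ph
    ring
  rw [d1] at e4
  rw [d2] at e5
  linear_combination -ht + (1083 / 1000) * k2 + (253 / 1000) * hb + (159664885639397 / 2109625300000000) * c1 +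
    (9821500283 / 5274063250) * fb + (49706612932263 / 52740632500000) * bb + e1 + e2 +
    e3 + 2 * e4 + 2 * e5 + 2 * e6 + 2 * e7

/-- The new point is close to `h0`. -/
theorem near (P : Par s t) (hu0 : 0 ≤ u) (hu1 : u ≤ 23 / 100 * s) (hb0 : 0 ≤ b)
    (hb1 : b ≤ 1 / 2) (hk : k = h0 * ph b) (hb : b / 2 ≤ u + k) :
    0 ≤ fH s t u b k ∧ u + k + b / 2 ≤ t := by
  have hs0 := P.s0
  have hs1 := P.s1
  have f0 := ph_nonneg b
  obtain ⟨p1, p2, p3, p4, p5⟩ := par_t P
  have hh : h0 ≤ 86603 / 100000 := Four.Low.h0_hi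
  have hl : 86602 / 100000 ≤ h0 := Four.Low.h0_lo
  have k1 : 86602 / 100000 * ph b ≤ k := by
    rw [hk]
    exact mul_le_mul_of_nonneg_right hl f0
  have k2 : k ≤ 86603 / 100000 * ph b := by
    rw [hk]
    exact mul_le_mul_of_nonneg_right hh f0
  have k3 : 0 ≤ k := by linear_combination (43301 / 50000) * f0 + k1
  have c1 := up (t1 := 0) (t2 := 268 / 1000) (x := b) (by norm_num) (by linear_combination hb0)
    (by linear_combination (66989 / 62500) * hb1)
  have k4 : k ≤ 1161 / 10000 := by linear_combination (5802401 / 25000000) * hb1 + k2 + (86603 / 100000) * c1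
  rcases le_total u (3 / 100) with h | h
  · obtain ⟨a1, a2⟩ := near_corner hs0 hs1 P.t0 p3 p4 (by linear_combination p5) hu0 h hb0 hb1 k3 k2 hb
    refine ⟨a1, ?_⟩
    linear_combination (18302401 / 6697599) * hb + (71 / 100) * hs0 + p1 + (25000000 / 6697599) * k2 +
      (21650750 / 6697599) * c1 + (25000000 / 6697599) * h
  · have R : RegH s t u b k := ⟨k1, k2, p4.le, p4.ge, p1, p2, k3, k4, hb, hu1, hs0, hs1, h,
      by linear_combination hu1 + (23 / 100) * hs1, hb0, hb1⟩
    have R' : RegT s t u b k := ⟨k1, k2, p1, hb, hu1, hs0, hs1, hu0, by linear_combination hu1 + (23 / 100) * hs1, hb0, hb1⟩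
    have a1 := bh0 R hs0 hs1 h (by linear_combination hu1 + (23 / 100) * hs1) hb0 hb1
    have a2 := bt0 R' hs0 hs1 hu0 (by linear_combination hu1 + (23 / 100) * hs1) hb0 hb1
    unfold fT at a2
    exact ⟨a1, by linear_combination a2⟩

theorem highC (P : Par s t) : HighC s t := by
  intro y r q h1 h2 r1 r2 r3 r4 q1 q2 q3 q4
  have hs0 := P.s0
  have hs1 := P.s1
  have k1 := gn_nonneg (r := r) (q := q) (y := y) (j1_ok P)
  have k3 := high_j3 (r := r) (q := q) P h1 h2
  obtain ⟨u, hu⟩ : ∃ u, u = y - h0 := ⟨_, rfl⟩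
  have hy : y = h0 + u := by rw [hu]; ring
  have hu0 : 0 ≤ u := by linear_combination h1 - hu
  rw [show h0 + s - y = s - u by rw [hu]; ring] at k3
  rcases le_total u (23 / 100 * s) with h | h
  · have k2 := high_j2a (r := r) (q := q) (y := y) P h1 (by linear_combination (1 / 3) * h2 - (2 / 3) * hu + (2 / 3) * h)
    rw [show h0 + 8 / 25 * s - y = 8 / 25 * s - u by rw [hu]; ring] at k2
    obtain ⟨p, b, hp, hpb, hb0, hb1, hpe, hgb, hp1⟩ := corner q1 q2
    obtain ⟨e1, e2, e3, e4, e5⟩ := ext_facts q1 q2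
    obtain ⟨k, hk⟩ : ∃ k, k = h0 * ph b := ⟨_, rfl⟩
    have hpk : p = h0 - k - b / 2 := by
      rw [hk, hpe]
      unfold Four.Low.ph
      ring
    have hb : b / 2 ≤ u + k := by
      have : max q (ext q) ≤ y := max_le q3 q4
      linear_combination -hu + hpb - hpk + this
    obtain ⟨a1, a2⟩ := near P hu0 h hb0 hb1 hk hb
    have hq : y - q ≤ t := by
      have : min q (ext q) ≤ q := min_le_left _ _
      linear_combination -hu + hp - hpk + a2 + this
    have k4 := high_j1 (r := r) P h1 q1 q2 hq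
    have k5 : g (y - ext q - t) + g (y - q - t) = g (t - u - k + b / 2) + g (t - u - k - b / 2) := by
      have f1 : g (y - p - t) = g (t - u - k - b / 2) := by
        rw [← g_neg]
        congr 1
        rw [hpk, hy]
        ring
      have f2 : g (y - (p + b) - t) = g (t - u - k + b / 2) := by
        rw [← g_neg]
        congr 1
        rw [hpk, hy]
        ring
      rw [← f1, ← f2]
      rcases le_total q (ext q) with h5 | h5
      · rw [min_eq_left h5] at hp
        rw [max_eq_right h5] at hpb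
        rw [hpb, hp]
      · rw [min_eq_right h5] at hp
        rw [max_eq_left h5] at hpb
        rw [hpb, hp]
        ring
    have k6 : g (ext q) + g q = g b := by rw [← e3, hgb]
    unfold fH Four.Low.ph at a1
    linear_combination k3 + k2 - hgb + e3 + a1 + k4 + k5
  · rcases le_total u (8 / 25 * s) with h' | h'
    · have k2 := high_j2a (r := r) (q := q) (y := y) P h1 (by linear_combination -hu + h')
      rw [show h0 + 8 / 25 * s - y = 8 / 25 * s - u by rw [hu]; ring] at k2
      have a1 : g (9 / 100 * s) ≤ g (8 / 25 * s - u) := g_anti (by linear_combination h') (by linear_combination h)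
      have a2 : g (77 / 100 * s) ≤ g (s - u) := g_anti (by linear_combination h1 + 2 * h2 + hu) (by linear_combination h)
      have a3 := bg0 ⟨hs0, hs1⟩ hs0 hs1
      unfold fG Four.Low.ph at a3
      linear_combination k1 + k3 + k2 + 2 * a1 + 2 * a2 + a3
    · have k2 := high_j2b (r := r) (q := q) (y := y) P (by linear_combination hu + h') (by linear_combination h1 + 2 * h2)
      rw [show y - h0 = u by rw [hu]] at k2
      have a2 := four (x := 8 / 25 * s) (y := u) (z := s - u) (w := 17 / 25 * s) (by linear_combination (16 / 25) * h1 + (16 / 25) * h2)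
        (by linear_combination (17 / 25) * hs1) h' (by linear_combination (9 / 25) * h1 + (34 / 25) * h2 + hu) (by ring)
      have a3 := bf0 ⟨hs0, hs1⟩ hs0 hs1
      unfold fF Four.Low.ph at a3
      linear_combination k1 + k3 + k2 + 2 * a2 + a3

end

end Pool.Agent.Strip051.FourC
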