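import Pool.Agent.Strip051.FourC.MidBase

/-! # The real inequality for `s ≤ y ≤ h0`: the boxes -/

namespace Pool.Agent.Strip051.FourC.MB

open Pool.Agent.StripNear Pool.Agent.StripSquare Pool.Agent.Strip051
open Pool.Agent.Strip051.Four.Low (ph)
open Pool.Agent.Strip051.FourB (lo up)

theorem m5 {s b t k : ℝ} (R : Reg s b t k) (hE : t ≤ b / 2 + k) (hF : s + t + b / 2 - k ≤ h0)
    (s1 : 433 / 1000 ≤ s) (s2 : s ≤ 53 / 100)
    (b1 : 3 / 100 ≤ b) (b2 : b ≤ 59 / 400) (t1 : 0 ≤ t) (t2 : t ≤ 229 / 5000) :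
    0 ≤ U3 s b t k := by
  have e1 := R.lo2 (296 / 1000) (by norm_num)
  have e2 := up (t1 := 227 / 1000) (t2 := (317 / 1000)) (x := s + t) (by norm_num)
    (by linear_combination (1051529 / 1000000) * s1 + (1051529 / 1000000) * t1) (by linear_combination (1100489 / 1000000) * s2 + (1100489 / 1000000) * t2)
  have e3 := R.lo8 (257 / 1000) (by norm_num)
  have e4 := up (t1 := 521 / 1000) (t2 := (578 / 1000)) (x := h0 - t) (by norm_num)
    (by linear_combination (1271441 / 1000000) * R.h1 + (1271441 / 1000000) * t2) (by linear_combination (333521 / 250000) * R.h2 + (333521 / 250000) * t1)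
  have e5 := R.lo5 (64 / 1000) (by norm_num)
  have e6 := R.lo1 (241 / 1000) (by norm_num)
  have e7 := up (t1 := 69 / 1000) (t2 := (86 / 1000)) (x := 8 / 25 * s) (by norm_num)
    (by linear_combination (1004761 / 3125000) * s1) (by linear_combination (251849 / 781250) * s2)
  have e8 := up (t1 := 15 / 1000) (t2 := (75 / 1000)) (x := b) (by norm_num)
    (by linear_combination (40009 / 40000) * b1) (by linear_combination (1609 / 1600) * b2)
  unfold U3
  linear_combination (334682685204935 / 127773488354148) * e8 + (500000 / 497033) * e7 + (1000000 / 941919) * e6 + (15625 / 15561) * e5 + (500000 / 349431) * e4 + (2000000 / 933951) * e3 + (4000000 / 928041) * e2 + (15625 / 14256) * e1 + (453469427375 / 351772837416) * R.k2 + (549500 / 349431) * R.h2 + R.h3 + (1552830746340906222243924295 / 16838223564265422143606053272) * s2 + (11148843854182154507 / 17568854648695350000) * b1 + (6552092409856535521625 / 12675012223504305578904) * t1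

theorem m6 {s b t k : ℝ} (R : Reg s b t k) (hE : t ≤ b / 2 + k) (hF : s + t + b / 2 - k ≤ h0)
    (s1 : 433 / 1000 ≤ s) (s2 : s ≤ 53 / 100)
    (b1 : 3 / 100 ≤ b) (b2 : b ≤ 59 / 400) (t1 : 229 / 5000 ≤ t) (t2 : t ≤ 229 / 2500) :
    0 ≤ U3 s b t k := by
  have e1 := R.lo2 (326 / 1000) (by norm_num)
  have e2 := up (t1 := 254 / 1000) (t2 := (349 / 1000)) (x := s + t) (by norm_num)
    (by linear_combination (266129 / 250000) * s1 + (266129 / 250000) * t1) (by linear_combination (1121801 / 1000000) * s2 + (1121801 / 1000000) * t2)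
  have e3 := R.lo8 (257 / 1000) (by norm_num)
  have e4 := up (t1 := 474 / 1000) (t2 := (522 / 1000)) (x := h0 - t) (by norm_num)
    (by linear_combination (306169 / 250000) * R.h1 + (306169 / 250000) * t2) (by linear_combination (318121 / 250000) * R.h2 + (318121 / 250000) * t1)
  have e5 := R.lo5 (87 / 1000) (by norm_num)
  have e6 := R.lo1 (269 / 1000) (by norm_num)
  have e7 := up (t1 := 69 / 1000) (t2 := (86 / 1000)) (x := 8 / 25 * s) (by norm_num)
    (by linear_combination (1004761 / 3125000) * s1) (by linear_combination (251849 / 781250) * s2)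
  have e8 := up (t1 := 15 / 1000) (t2 := (75 / 1000)) (x := b) (by norm_num)
    (by linear_combination (40009 / 40000) * b1) (by linear_combination (1609 / 1600) * b2)
  unfold U3
  linear_combination (172045092786766687529 / 18149517654713230500) * e8 + (500000 / 497033) * e7 + (1000000 / 927639) * e6 + (1000000 / 992431) * e5 + (250000 / 188143) * e4 + (2000000 / 933951) * e3 + (2000000 / 455677) * e2 + (250000 / 223431) * e1 + (970309876926802000964239 / 1451961412377058440) * R.k1 + (970312032836501153324239 / 1451961412377058440) * R.k2 + (249000 / 188143) * R.h2 + R.h3 + (65465246403917347259959819587160 / 284379144383193750713957354776413) * s2 + (55903929023492967270346000 / 345778309696077467751146319) * t1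

theorem m7 {s b t k : ℝ} (R : Reg s b t k) (hE : t ≤ b / 2 + k) (hF : s + t + b / 2 - k ≤ h0)
    (s1 : 433 / 1000 ≤ s) (s2 : s ≤ 53 / 100)
    (b1 : 3 / 100 ≤ b) (b2 : b ≤ 59 / 400) (t1 : 229 / 2500 ≤ t) (t2 : t ≤ 1831 / 10000) :
    0 ≤ U3 s b t k := by
  have e1 := up (t1 := 15 / 1000) (t2 := (75 / 1000)) (x := b) (by norm_num)
    (by linear_combination (40009 / 40000) * b1) (by linear_combination (1609 / 1600) * b2)
  exfalso
  exact absurd b2 (not_le.mpr (by linear_combination (4330150 / 2886901) * e1 + (4994375 / 2886901) * R.k2 + (4994375 / 2886901) * t1 + (4994375 / 2886901) * hE))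

theorem m8 {s b t k : ℝ} (R : Reg s b t k) (hE : t ≤ b / 2 + k) (hF : s + t + b / 2 - k ≤ h0)
    (s1 : 433 / 1000 ≤ s) (s2 : s ≤ 53 / 100)
    (b1 : 59 / 400 ≤ b) (b2 : b ≤ 53 / 200) (t1 : 0 ≤ t) (t2 : t ≤ 1831 / 10000) :
    0 ≤ U3 s b t k := by
  have e1 := R.lo2 (374 / 1000) (by norm_num)
  have e2 := up (t1 := 227 / 1000) (t2 := (420 / 1000)) (x := s + t) (by norm_num)
    (by linear_combination (1051529 / 1000000) * s1 + (1051529 / 1000000) * t1) (by linear_combination (2941 / 2500) * s2 + (2941 / 2500) * t2)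
  have e3 := R.lo8 (257 / 1000) (by norm_num)
  have e4 := up (t1 := 394 / 1000) (t2 := (578 / 1000)) (x := h0 - t) (by norm_num)
    (by linear_combination (288809 / 250000) * R.h1 + (288809 / 250000) * t2) (by linear_combination (333521 / 250000) * R.h2 + (333521 / 250000) * t1)
  have e5 := R.lo5 (61 / 1000) (by norm_num)
  have e6 := R.lo1 (238 / 1000) (by norm_num)
  have e7 := up (t1 := 69 / 1000) (t2 := (86 / 1000)) (x := 8 / 25 * s) (by norm_num)
    (by linear_combination (1004761 / 3125000) * s1) (by linear_combination (251849 / 781250) * s2)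
  have e8 := up (t1 := 74 / 1000) (t2 := (135 / 1000)) (x := b) (by norm_num)
    (by linear_combination (251369 / 250000) * b1) (by linear_combination (40729 / 40000) * b2)
  unfold U3
  linear_combination (5015038390559734000 / 1775621560753272183) * e8 + (500000 / 497033) * e7 + (250000 / 235839) * e6 + (1000000 / 996279) * e5 + (250000 / 193067) * e4 + (2000000 / 933951) * e3 + (200000 / 45233) * e2 + (250000 / 215031) * e1 + (26843525828000 / 17935390155183) * R.k2 + (243000 / 193067) * R.h2 + R.h3 + (49777162927370520024366833560 / 125531951967258818515785264579) * s2 + (35248399357307068496083 / 88781078037663609150000) * b1 + (16514041243223819988400 / 156629755248346368633813) * t2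

theorem m9 {s b t k : ℝ} (R : Reg s b t k) (hE : t ≤ b / 2 + k) (hF : s + t + b / 2 - k ≤ h0)
    (s1 : 433 / 1000 ≤ s) (s2 : s ≤ 53 / 100)
    (b1 : 53 / 200 ≤ b) (b2 : b ≤ 1 / 2) (t1 : 0 ≤ t) (t2 : t ≤ 1831 / 10000) :
    0 ≤ U3 s b t k := by
  have e1 := R.lo2 (401 / 1000) (by norm_num)
  have e2 := up (t1 := 227 / 1000) (t2 := (420 / 1000)) (x := s + t) (by norm_num)
    (by linear_combination (1051529 / 1000000) * s1 + (1051529 / 1000000) * t1) (by linear_combination (2941 / 2500) * s2 + (2941 / 2500) * t2)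
  have e3 := R.lo8 (257 / 1000) (by norm_num)
  have e4 := up (t1 := 394 / 1000) (t2 := (578 / 1000)) (x := h0 - t) (by norm_num)
    (by linear_combination (288809 / 250000) * R.h1 + (288809 / 250000) * t2) (by linear_combination (333521 / 250000) * R.h2 + (333521 / 250000) * t1)
  have e5 := R.lo5 (-10 / 1000) (by norm_num)
  have e6 := R.lo1 (158 / 1000) (by norm_num)
  have e7 := up (t1 := 69 / 1000) (t2 := (86 / 1000)) (x := 8 / 25 * s) (by norm_num)
    (by linear_combination (1004761 / 3125000) * s1) (by linear_combination (251849 / 781250) * s2)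
  have e8 := up (t1 := 134 / 1000) (t2 := (268 / 1000)) (x := b) (by norm_num)
    (by linear_combination (254489 / 250000) * b1) (by linear_combination (66989 / 62500) * b2)
  unfold U3
  linear_combination (13543083170064402851 / 4568101379425475100) * e8 + (500000 / 497033) * e7 + (250000 / 243759) * e6 + (10000 / 9999) * e5 + (250000 / 193067) * e4 + (2000000 / 933951) * e3 + (200000 / 45233) * e2 + (1000000 / 839199) * e1 + (152601506172247026026861 / 5710126724281843875) * R.k1 + (152608699571795460926861 / 5710126724281843875) * R.k2 + (243000 / 193067) * R.h2 + R.h3 + (853521378185394623981003491168 / 1590681131927749712463231577563) * s2 + (679477000635230654039600 / 1984737690026429723969661) * t2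

theorem m11 {s b t k : ℝ} (R : Reg s b t k) (hE : t ≤ b / 2 + k) (hF : s + t + b / 2 - k ≤ h0)
    (s1 : 433 / 1000 ≤ s) (s2 : s ≤ 53 / 100)
    (b1 : 3 / 100 ≤ b) (b2 : b ≤ 53 / 200) (t1 : 1831 / 10000 ≤ t) (t2 : t ≤ 1831 / 5000) :
    0 ≤ U3 s b t k := by
  have e1 := up (t1 := 15 / 1000) (t2 := (135 / 1000)) (x := b) (by norm_num)
    (by linear_combination (40009 / 40000) * b1) (by linear_combination (40729 / 40000) * b2)
  exfalso
  exact absurd b2 (not_le.mpr (by linear_combination (39365 / 28586) * e1 + (90725 / 57172) * R.k2 + (90725 / 57172) * t1 + (90725 / 57172) * hE))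

theorem m15 {s b t k : ℝ} (R : Reg s b t k) (hE : t ≤ b / 2 + k) (hF : s + t + b / 2 - k ≤ h0)
    (s1 : 433 / 1000 ≤ s) (s2 : s ≤ 963 / 2000)
    (b1 : 53 / 200 ≤ b) (b2 : b ≤ 1 / 2) (t1 : 1831 / 10000 ≤ t) (t2 : t ≤ 2289 / 10000) :
    0 ≤ U3 s b t k := by
  have e1 := R.lo2 (481 / 1000) (by norm_num)
  have e2 := up (t1 := 344 / 1000) (t2 := (417 / 1000)) (x := s + t) (by norm_num)
    (by linear_combination (17474 / 15625) * s1 + (17474 / 15625) * t1) (by linear_combination (1173889 / 1000000) * s2 + (1173889 / 1000000) * t2)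
  have e3 := R.lo8 (242 / 1000) (by norm_num)
  have e4 := up (t1 := 359 / 1000) (t2 := (395 / 1000)) (x := h0 - t) (by norm_num)
    (by linear_combination (1128881 / 1000000) * R.h1 + (1128881 / 1000000) * t2) (by linear_combination (46241 / 40000) * R.h2 + (46241 / 40000) * t1)
  have e5 := R.lo5 (44 / 1000) (by norm_num)
  have e6 := R.lo1 (208 / 1000) (by norm_num)
  have e7 := up (t1 := 69 / 1000) (t2 := (78 / 1000)) (x := 8 / 25 * s) (by norm_num)
    (by linear_combination (1004761 / 3125000) * s1) (by linear_combination (251521 / 781250) * s2)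
  have e8 := up (t1 := 134 / 1000) (t2 := (268 / 1000)) (x := b) (by norm_num)
    (by linear_combination (254489 / 250000) * b1) (by linear_combination (66989 / 62500) * b2)
  unfold U3
  linear_combination (916102492364888750 / 290832681451246047) * e8 + (500000 / 497309) * e7 + (15625 / 14949) * e6 + (62500 / 62379) * e5 + (200000 / 171639) * e4 + (500000 / 235359) * e3 + (500000 / 107069) * e2 + (1000000 / 768639) * e1 + (47108174257000 / 26546618117547) * R.k2 + (11600 / 13203) * R.h2 + R.h3 + (31725794965851941773658724080 / 36964732564945853362976951637) * s2 + (5752330239401321732383 / 159957974798185325850000) * b2 + (3755423764455941920300 / 4169683227618947502981) * t2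

theorem m16 {s b t k : ℝ} (R : Reg s b t k) (hE : t ≤ b / 2 + k) (hF : s + t + b / 2 - k ≤ h0)
    (s1 : 963 / 2000 ≤ s) (s2 : s ≤ 53 / 100)
    (b1 : 53 / 200 ≤ b) (b2 : b ≤ 1 / 2) (t1 : 1831 / 10000 ≤ t) (t2 : t ≤ 2289 / 10000) :
    0 ≤ U3 s b t k := by
  have e1 := R.lo2 (532 / 1000) (by norm_num)
  have e2 := up (t1 := 380 / 1000) (t2 := (460 / 1000)) (x := s + t) (by norm_num)
    (by linear_combination (2861 / 2500) * s1 + (2861 / 2500) * t1) (by linear_combination (3029 / 2500) * s2 + (3029 / 2500) * t2)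
  have e3 := R.lo8 (272 / 1000) (by norm_num)
  have e4 := up (t1 := 359 / 1000) (t2 := (395 / 1000)) (x := h0 - t) (by norm_num)
    (by linear_combination (1128881 / 1000000) * R.h1 + (1128881 / 1000000) * t2) (by linear_combination (46241 / 40000) * R.h2 + (46241 / 40000) * t1)
  have e5 := R.lo5 (52 / 1000) (by norm_num)
  have e6 := R.lo1 (236 / 1000) (by norm_num)
  have e7 := up (t1 := 77 / 1000) (t2 := (86 / 1000)) (x := 8 / 25 * s) (by norm_num)
    (by linear_combination (1005929 / 3125000) * s1) (by linear_combination (251849 / 781250) * s2)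
  have e8 := up (t1 := 134 / 1000) (t2 := (268 / 1000)) (x := b) (by norm_num)
    (by linear_combination (254489 / 250000) * b1) (by linear_combination (66989 / 62500) * b2)
  unfold U3
  linear_combination (7574676267675681875 / 2207317252092810741) * e8 + (500000 / 496689) * e7 + (62500 / 59019) * e6 + (62500 / 62331) * e5 + (200000 / 171639) * e4 + (31250 / 14469) * e3 + (10000 / 2063) * e2 + (62500 / 44811) * e1 + (38246873598500 / 18316313465931) * R.k2 + (11600 / 13203) * R.h2 + R.h3 + (2163406201429821560573960 / 2320996535785121882484069) * s2 + (8117060798408170291459 / 110365862604640537050000) * b2 + (61254455658406161100 / 55432875715876362951) * t2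

theorem m19 {s b t k : ℝ} (R : Reg s b t k) (hE : t ≤ b / 2 + k) (hF : s + t + b / 2 - k ≤ h0)
    (s1 : 433 / 1000 ≤ s) (s2 : s ≤ 963 / 2000)
    (b1 : 53 / 200 ≤ b) (b2 : b ≤ 153 / 400) (t1 : 2289 / 10000 ≤ t) (t2 : t ≤ 2747 / 10000) :
    0 ≤ U3 s b t k := by
  have e1 := R.lo2 (524 / 1000) (by norm_num)
  have e2 := up (t1 := 378 / 1000) (t2 := (458 / 1000)) (x := s + t) (by norm_num)
    (by linear_combination (285721 / 250000) * s1 + (285721 / 250000) * t1) (by linear_combination (302441 / 250000) * s2 + (302441 / 250000) * t2)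
  have e3 := R.lo8 (242 / 1000) (by norm_num)
  have e4 := up (t1 := 327 / 1000) (t2 := (360 / 1000)) (x := h0 - t) (by norm_num)
    (by linear_combination (1106929 / 1000000) * R.h1 + (1106929 / 1000000) * t2) (by linear_combination (706 / 625) * R.h2 + (706 / 625) * t1)
  have e5 := R.lo5 (95 / 1000) (by norm_num)
  have e6 := R.lo1 (267 / 1000) (by norm_num)
  have e7 := up (t1 := 69 / 1000) (t2 := (78 / 1000)) (x := 8 / 25 * s) (by norm_num)
    (by linear_combination (1004761 / 3125000) * s1) (by linear_combination (251521 / 781250) * s2)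
  have e8 := up (t1 := 134 / 1000) (t2 := (199 / 1000)) (x := b) (by norm_num)
    (by linear_combination (254489 / 250000) * b1) (by linear_combination (1039601 / 1000000) * b2)
  unfold U3
  linear_combination (26456528951116031 / 7311249161121150) * e8 + (500000 / 497309) * e7 + (1000000 / 928711) * e6 + (40000 / 39639) * e5 + (25000 / 22057) * e4 + (500000 / 235359) * e3 + (1000000 / 206719) * e2 + (62500 / 45339) * e1 + (391075904415558933677 / 36556245805605750) * R.k1 + (55879534949961229811 / 5222320829372250) * R.k2 + (17175 / 22057) * R.h2 + R.h3 + (3478507748556943732921158076 / 3541551947833570813095189453) * s2 + (14356886498024189675 / 13620305555353688759) * t2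

theorem m20 {s b t k : ℝ} (R : Reg s b t k) (hE : t ≤ b / 2 + k) (hF : s + t + b / 2 - k ≤ h0)
    (s1 : 433 / 1000 ≤ s) (s2 : s ≤ 963 / 2000)
    (b1 : 153 / 400 ≤ b) (b2 : b ≤ 1 / 2) (t1 : 2289 / 10000 ≤ t) (t2 : t ≤ 2747 / 10000) :
    0 ≤ U3 s b t k := by
  have e1 := R.lo2 (543 / 1000) (by norm_num)
  have e2 := up (t1 := 378 / 1000) (t2 := (458 / 1000)) (x := s + t) (by norm_num)
    (by linear_combination (285721 / 250000) * s1 + (285721 / 250000) * t1) (by linear_combination (302441 / 250000) * s2 + (302441 / 250000) * t2)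
  have e3 := R.lo8 (242 / 1000) (by norm_num)
  have e4 := up (t1 := 327 / 1000) (t2 := (360 / 1000)) (x := h0 - t) (by norm_num)
    (by linear_combination (1106929 / 1000000) * R.h1 + (1106929 / 1000000) * t2) (by linear_combination (706 / 625) * R.h2 + (706 / 625) * t1)
  have e5 := R.lo5 (43 / 1000) (by norm_num)
  have e6 := R.lo1 (207 / 1000) (by norm_num)
  have e7 := up (t1 := 69 / 1000) (t2 := (78 / 1000)) (x := 8 / 25 * s) (by norm_num)
    (by linear_combination (1004761 / 3125000) * s1) (by linear_combination (251521 / 781250) * s2)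
  have e8 := up (t1 := 198 / 1000) (t2 := (268 / 1000)) (x := b) (by norm_num)
    (by linear_combination (259801 / 250000) * b1) (by linear_combination (66989 / 62500) * b2)
  unfold U3
  linear_combination (25132947778898985160000 / 7249311893619885545547) * e8 + (500000 / 497309) * e7 + (1000000 / 957151) * e6 + (1000000 / 998151) * e5 + (25000 / 22057) * e4 + (500000 / 235359) * e3 + (1000000 / 206719) * e2 + (1000000 / 705151) * e1 + (1386981238866386000 / 673688028165102951) * R.k2 + (17175 / 22057) * R.h2 + R.h3 + (5775831201541769243124850983264880 / 5433442800961788334883066781188313) * s2 + (10466144112465910723878713 / 43814522433966341209350000) * b2 + (529518656025573875160168775 / 438821227922419300239400119) * t2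

theorem m23 {s b t k : ℝ} (R : Reg s b t k) (hE : t ≤ b / 2 + k) (hF : s + t + b / 2 - k ≤ h0)
    (s1 : 963 / 2000 ≤ s) (s2 : s ≤ 53 / 100)
    (b1 : 53 / 200 ≤ b) (b2 : b ≤ 1619 / 5000) (t1 : 2289 / 10000 ≤ t) (t2 : t ≤ 2747 / 10000) :
    0 ≤ U3 s b t k := by
  have e1 := up (t1 := 134 / 1000) (t2 := (167 / 1000)) (x := b) (by norm_num)
    (by linear_combination (254489 / 250000) * b1) (by linear_combination (1027889 / 1000000) * b2)
  exfalso
  exact absurd b2 (not_le.mpr (by linear_combination (86603000 / 74948603) * e1 + (97762200 / 74948603) * R.k2 + (97762200 / 74948603) * t1 + (97762200 / 74948603) * hE))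

theorem m25 {s b t k : ℝ} (R : Reg s b t k) (hE : t ≤ b / 2 + k) (hF : s + t + b / 2 - k ≤ h0)
    (s1 : 963 / 2000 ≤ s) (s2 : s ≤ 53 / 100)
    (b1 : 1619 / 5000 ≤ b) (b2 : b ≤ 153 / 400) (t1 : 2289 / 10000 ≤ t) (t2 : t ≤ 1259 / 5000) :
    0 ≤ U3 s b t k := by
  have e1 := R.lo2 (578 / 1000) (by norm_num)
  have e2 := up (t1 := 416 / 1000) (t2 := (482 / 1000)) (x := s + t) (by norm_num)
    (by linear_combination (18329 / 15625) * s1 + (18329 / 15625) * t1) (by linear_combination (308081 / 250000) * s2 + (308081 / 250000) * t2)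
  have e3 := R.lo8 (272 / 1000) (by norm_num)
  have e4 := up (t1 := 343 / 1000) (t2 := (360 / 1000)) (x := h0 - t) (by norm_num)
    (by linear_combination (1117649 / 1000000) * R.h1 + (1117649 / 1000000) * t2) (by linear_combination (706 / 625) * R.h2 + (706 / 625) * t1)
  have e5 := R.lo5 (85 / 1000) (by norm_num)
  have e6 := R.lo1 (276 / 1000) (by norm_num)
  have e7 := up (t1 := 77 / 1000) (t2 := (86 / 1000)) (x := 8 / 25 * s) (by norm_num)
    (by linear_combination (1005929 / 3125000) * s1) (by linear_combination (251849 / 781250) * s2)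
  have e8 := up (t1 := 166 / 1000) (t2 := (199 / 1000)) (x := b) (by norm_num)
    (by linear_combination (256889 / 250000) * b1) (by linear_combination (1039601 / 1000000) * b2)
  unfold U3
  linear_combination (21220781263811996500 / 5592510502617679641) * e8 + (500000 / 496689) * e7 + (62500 / 57739) * e6 + (40000 / 39711) * e5 + (25000 / 21913) * e4 + (31250 / 14469) * e3 + (15625 / 3123) * e2 + (250000 / 166479) * e1 + (318695137594100 / 127238425195497) * R.k2 + (17575 / 21913) * R.h2 + R.h3 + (59361821862034804367165549 / 60438199131850535719479756) * s2 + (9890904967926172490059 / 279625525130883982050000) * b2 + (13770947009439025961075 / 11609963245490366868804) * t2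

theorem m27 {s b t k : ℝ} (R : Reg s b t k) (hE : t ≤ b / 2 + k) (hF : s + t + b / 2 - k ≤ h0)
    (s1 : 963 / 2000 ≤ s) (s2 : s ≤ 2529 / 5000)
    (b1 : 1619 / 5000 ≤ b) (b2 : b ≤ 153 / 400) (t1 : 1259 / 5000 ≤ t) (t2 : t ≤ 2747 / 10000) :
    0 ≤ U3 s b t k := by
  have e1 := R.lo2 (593 / 1000) (by norm_num)
  have e2 := up (t1 := 436 / 1000) (t2 := (481 / 1000)) (x := s + t) (by norm_num)
    (by linear_combination (74381 / 62500) * s1 + (74381 / 62500) * t1) (by linear_combination (1231361 / 1000000) * s2 + (1231361 / 1000000) * t2)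
  have e3 := R.lo8 (264 / 1000) (by norm_num)
  have e4 := up (t1 := 327 / 1000) (t2 := (344 / 1000)) (x := h0 - t) (by norm_num)
    (by linear_combination (1106929 / 1000000) * R.h1 + (1106929 / 1000000) * t2) (by linear_combination (17474 / 15625) * R.h2 + (17474 / 15625) * t1)
  have e5 := R.lo5 (95 / 1000) (by norm_num)
  have e6 := R.lo1 (283 / 1000) (by norm_num)
  have e7 := up (t1 := 77 / 1000) (t2 := (82 / 1000)) (x := 8 / 25 * s) (by norm_num)
    (by linear_combination (1005929 / 3125000) * s1) (by linear_combination (251681 / 781250) * s2)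
  have e8 := up (t1 := 166 / 1000) (t2 := (199 / 1000)) (x := b) (by norm_num)
    (by linear_combination (256889 / 250000) * b1) (by linear_combination (1039601 / 1000000) * b2)
  unfold U3
  linear_combination (451709664880436276000 / 115458178166163375543) * e8 + (500000 / 496843) * e7 + (1000000 / 919911) * e6 + (40000 / 39639) * e5 + (125000 / 110939) * e4 + (15625 / 7268) * e3 + (1000000 / 197571) * e2 + (1000000 / 648351) * e1 + (6925082771772400 / 2626855463021031) * R.k2 + (83875 / 110939) * R.h2 + R.h3 + (29859948004414741433239901413 / 28395500887331722163917238814) * s2 + (293572245857944242612557 / 5772908908308168777150000) * b2 + (2179279696857379228254425 / 1744735839935783776598583) * t2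

theorem m28 {s b t k : ℝ} (R : Reg s b t k) (hE : t ≤ b / 2 + k) (hF : s + t + b / 2 - k ≤ h0)
    (s1 : 2529 / 5000 ≤ s) (s2 : s ≤ 53 / 100)
    (b1 : 1619 / 5000 ≤ b) (b2 : b ≤ 153 / 400) (t1 : 1259 / 5000 ≤ t) (t2 : t ≤ 2747 / 10000) :
    0 ≤ U3 s b t k := by
  have e1 := up (t1 := 166 / 1000) (t2 := (199 / 1000)) (x := b) (by norm_num)
    (by linear_combination (256889 / 250000) * b1) (by linear_combination (1039601 / 1000000) * b2)
  exfalso
  exact absurd b1 (not_le.mpr (by linear_combination (1574600 / 304331) * e1 + (1758120 / 304331) * R.k2 + (1758120 / 304331) * R.h2 + (1758120 / 304331) * s1 + (1758120 / 304331) * t1 + (1758120 / 304331) * hF))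

theorem m31 {s b t k : ℝ} (R : Reg s b t k) (hE : t ≤ b / 2 + k) (hF : s + t + b / 2 - k ≤ h0)
    (s1 : 963 / 2000 ≤ s) (s2 : s ≤ 2529 / 5000)
    (b1 : 153 / 400 ≤ b) (b2 : b ≤ 1 / 2) (t1 : 2289 / 10000 ≤ t) (t2 : t ≤ 1259 / 5000) :
    0 ≤ U3 s b t k := by
  have e1 := R.lo2 (574 / 1000) (by norm_num)
  have e2 := up (t1 := 416 / 1000) (t2 := (459 / 1000)) (x := s + t) (by norm_num)
    (by linear_combination (18329 / 15625) * s1 + (18329 / 15625) * t1) (by linear_combination (1210681 / 1000000) * s2 + (1210681 / 1000000) * t2)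
  have e3 := R.lo8 (264 / 1000) (by norm_num)
  have e4 := up (t1 := 343 / 1000) (t2 := (360 / 1000)) (x := h0 - t) (by norm_num)
    (by linear_combination (1117649 / 1000000) * R.h1 + (1117649 / 1000000) * t2) (by linear_combination (706 / 625) * R.h2 + (706 / 625) * t1)
  have e5 := R.lo5 (43 / 1000) (by norm_num)
  have e6 := R.lo1 (222 / 1000) (by norm_num)
  have e7 := up (t1 := 77 / 1000) (t2 := (82 / 1000)) (x := 8 / 25 * s) (by norm_num)
    (by linear_combination (1005929 / 3125000) * s1) (by linear_combination (251681 / 781250) * s2)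
  have e8 := up (t1 := 198 / 1000) (t2 := (268 / 1000)) (x := b) (by norm_num)
    (by linear_combination (259801 / 250000) * b1) (by linear_combination (66989 / 62500) * b2)
  unfold U3
  linear_combination (521480847070382747500 / 142645506127755577401) * e8 + (500000 / 496843) * e7 + (250000 / 237679) * e6 + (1000000 / 998151) * e5 + (25000 / 21913) * e4 + (15625 / 7268) * e3 + (125000 / 25283) * e2 + (250000 / 167631) * e1 + (30028941938876000 / 13256233303245933) * R.k2 + (17575 / 21913) * R.h2 + R.h3 + (208860315550659675960197041235 / 201711931129375258138694153006) * s2 + (222532330482815728646179 / 862143168904017226050000) * b2 + (9244453706712748400057450 / 7344302936176553206466607) * t2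

theorem m33 {s b t k : ℝ} (R : Reg s b t k) (hE : t ≤ b / 2 + k) (hF : s + t + b / 2 - k ≤ h0)
    (s1 : 2529 / 5000 ≤ s) (s2 : s ≤ 53 / 100)
    (b1 : 153 / 400 ≤ b) (b2 : b ≤ 4413 / 10000) (t1 : 2289 / 10000 ≤ t) (t2 : t ≤ 1259 / 5000) :
    0 ≤ U3 s b t k := by
  have e1 := R.lo2 (607 / 1000) (by norm_num)
  have e2 := up (t1 := 437 / 1000) (t2 := (482 / 1000)) (x := s + t) (by norm_num)
    (by linear_combination (1190969 / 1000000) * s1 + (1190969 / 1000000) * t1) (by linear_combination (308081 / 250000) * s2 + (308081 / 250000) * t2)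
  have e3 := R.lo8 (279 / 1000) (by norm_num)
  have e4 := up (t1 := 343 / 1000) (t2 := (360 / 1000)) (x := h0 - t) (by norm_num)
    (by linear_combination (1117649 / 1000000) * R.h1 + (1117649 / 1000000) * t2) (by linear_combination (706 / 625) * R.h2 + (706 / 625) * t1)
  have e5 := R.lo5 (62 / 1000) (by norm_num)
  have e6 := R.lo1 (253 / 1000) (by norm_num)
  have e7 := up (t1 := 81 / 1000) (t2 := (86 / 1000)) (x := 8 / 25 * s) (by norm_num)
    (by linear_combination (1006561 / 3125000) * s1) (by linear_combination (251849 / 781250) * s2)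
  have e8 := up (t1 := 198 / 1000) (t2 := (233 / 1000)) (x := b) (by norm_num)
    (by linear_combination (259801 / 250000) * b1) (by linear_combination (1054289 / 1000000) * b2)
  unfold U3
  linear_combination (1456832238765490535000 / 371486497335837236703) * e8 + (500000 / 496517) * e7 + (1000000 / 935991) * e6 + (250000 / 249039) * e5 + (25000 / 21913) * e4 + (2000000 / 922159) * e3 + (2000000 / 394683) * e2 + (1000000 / 631551) * e1 + (2015292583019000 / 778907094572691) * R.k2 + (17575 / 21913) * R.h2 + R.h3 + (318485589823259592633357019120 / 319179817897208930758711660899) * s2 + (173021824834827805608257 / 884491660323421992150000) * b2 + (2846255501296543623209675 / 2245508297644301845665363) * t2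

theorem m34 {s b t k : ℝ} (R : Reg s b t k) (hE : t ≤ b / 2 + k) (hF : s + t + b / 2 - k ≤ h0)
    (s1 : 2529 / 5000 ≤ s) (s2 : s ≤ 53 / 100)
    (b1 : 4413 / 10000 ≤ b) (b2 : b ≤ 1 / 2) (t1 : 2289 / 10000 ≤ t) (t2 : t ≤ 1259 / 5000) :
    0 ≤ U3 s b t k := by
  have e1 := up (t1 := 232 / 1000) (t2 := (268 / 1000)) (x := b) (by norm_num)
    (by linear_combination (16466 / 15625) * b1) (by linear_combination (66989 / 62500) * b2)
  exfalso
  exact absurd b1 (not_le.mpr (by linear_combination (866030 / 35897) * e1 + (937824 / 35897) * R.k2 + (937824 / 35897) * R.h2 + (937824 / 35897) * s1 + (937824 / 35897) * t1 + (937824 / 35897) * hF))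

theorem m37 {s b t k : ℝ} (R : Reg s b t k) (hE : t ≤ b / 2 + k) (hF : s + t + b / 2 - k ≤ h0)
    (s1 : 963 / 2000 ≤ s) (s2 : s ≤ 2529 / 5000)
    (b1 : 153 / 400 ≤ b) (b2 : b ≤ 1 / 2) (t1 : 1259 / 5000 ≤ t) (t2 : t ≤ 2633 / 10000) :
    0 ≤ U3 s b t k := by
  have e1 := R.lo2 (598 / 1000) (by norm_num)
  have e2 := up (t1 := 436 / 1000) (t2 := (470 / 1000)) (x := s + t) (by norm_num)
    (by linear_combination (74381 / 62500) * s1 + (74381 / 62500) * t1) (by linear_combination (12209 / 10000) * s2 + (12209 / 10000) * t2)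
  have e3 := R.lo8 (264 / 1000) (by norm_num)
  have e4 := up (t1 := 335 / 1000) (t2 := (344 / 1000)) (x := h0 - t) (by norm_num)
    (by linear_combination (44489 / 40000) * R.h1 + (44489 / 40000) * t2) (by linear_combination (17474 / 15625) * R.h2 + (17474 / 15625) * t1)
  have e5 := R.lo5 (52 / 1000) (by norm_num)
  have e6 := R.lo1 (232 / 1000) (by norm_num)
  have e7 := up (t1 := 77 / 1000) (t2 := (82 / 1000)) (x := 8 / 25 * s) (by norm_num)
    (by linear_combination (1005929 / 3125000) * s1) (by linear_combination (251681 / 781250) * s2)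
  have e8 := up (t1 := 198 / 1000) (t2 := (268 / 1000)) (x := b) (by norm_num)
    (by linear_combination (259801 / 250000) * b1) (by linear_combination (66989 / 62500) * b2)
  unfold U3
  linear_combination (1355610761972310625 / 353886769890519936) * e8 + (500000 / 496843) * e7 + (15625 / 14784) * e6 + (62500 / 62331) * e5 + (25000 / 22119) * e4 + (15625 / 7268) * e3 + (100000 / 19877) * e2 + (250000 / 160599) * e1 + (20196473286125 / 8221790002272) * R.k2 + (16975 / 22119) * R.h2 + R.h3 + (184812252269271693628825 / 169774141886517361249056) * s2 + (1984637827808955694693 / 6951347265706641600000) * b2 + (48713277116706679475 / 36512999546653293664) * t2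

theorem m38 {s b t k : ℝ} (R : Reg s b t k) (hE : t ≤ b / 2 + k) (hF : s + t + b / 2 - k ≤ h0)
    (s1 : 963 / 2000 ≤ s) (s2 : s ≤ 2529 / 5000)
    (b1 : 153 / 400 ≤ b) (b2 : b ≤ 1 / 2) (t1 : 2633 / 10000 ≤ t) (t2 : t ≤ 2747 / 10000) :
    0 ≤ U3 s b t k := by
  have e1 := up (t1 := 198 / 1000) (t2 := (268 / 1000)) (x := b) (by norm_num)
    (by linear_combination (259801 / 250000) * b1) (by linear_combination (66989 / 62500) * b2)
  exfalso
  exact absurd b1 (not_le.mpr (by linear_combination (43301500 / 3494901) * e1 + (47346800 / 3494901) * R.k2 + (47346800 / 3494901) * R.h2 + (47346800 / 3494901) * s1 + (47346800 / 3494901) * t1 + (47346800 / 3494901) * hF))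

theorem m39 {s b t k : ℝ} (R : Reg s b t k) (hE : t ≤ b / 2 + k) (hF : s + t + b / 2 - k ≤ h0)
    (s1 : 2529 / 5000 ≤ s) (s2 : s ≤ 53 / 100)
    (b1 : 153 / 400 ≤ b) (b2 : b ≤ 1 / 2) (t1 : 1259 / 5000 ≤ t) (t2 : t ≤ 2747 / 10000) :
    0 ≤ U3 s b t k := by
  have e1 := up (t1 := 198 / 1000) (t2 := (268 / 1000)) (x := b) (by norm_num)
    (by linear_combination (259801 / 250000) * b1) (by linear_combination (66989 / 62500) * b2)
  exfalso
  exact absurd b1 (not_le.mpr (by linear_combination (43301500 / 3494901) * e1 + (47346800 / 3494901) * R.k2 + (47346800 / 3494901) * R.h2 + (47346800 / 3494901) * s1 + (47346800 / 3494901) * t1 + (47346800 / 3494901) * hF))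

theorem m41 {s b t k : ℝ} (R : Reg s b t k) (hE : t ≤ b / 2 + k) (hF : s + t + b / 2 - k ≤ h0)
    (s1 : 433 / 1000 ≤ s) (s2 : s ≤ 53 / 100)
    (b1 : 53 / 200 ≤ b) (b2 : b ≤ 153 / 400) (t1 : 2747 / 10000 ≤ t) (t2 : t ≤ 1831 / 5000) :
    0 ≤ U3 s b t k := by
  have e1 := up (t1 := 134 / 1000) (t2 := (199 / 1000)) (x := b) (by norm_num)
    (by linear_combination (254489 / 250000) * b1) (by linear_combination (1039601 / 1000000) * b2)
  exfalso
  exact absurd b2 (not_le.mpr (by linear_combination (86603000 / 77505499) * e1 + (97333400 / 77505499) * R.k2 + (97333400 / 77505499) * t1 + (97333400 / 77505499) * hE))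

theorem m46 {s b t k : ℝ} (R : Reg s b t k) (hE : t ≤ b / 2 + k) (hF : s + t + b / 2 - k ≤ h0)
    (s1 : 433 / 1000 ≤ s) (s2 : s ≤ 4573 / 10000)
    (b1 : 153 / 400 ≤ b) (b2 : b ≤ 1 / 2) (t1 : 2747 / 10000 ≤ t) (t2 : t ≤ 186 / 625) :
    0 ≤ U3 s b t k := by
  have e1 := R.lo2 (571 / 1000) (by norm_num)
  have e2 := up (t1 := 414 / 1000) (t2 := (456 / 1000)) (x := s + t) (by norm_num)
    (by linear_combination (292849 / 250000) * s1 + (292849 / 250000) * t1) (by linear_combination (18874 / 15625) * s2 + (18874 / 15625) * t2)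
  have e3 := R.lo8 (235 / 1000) (by norm_num)
  have e4 := up (t1 := 311 / 1000) (t2 := (328 / 1000)) (x := h0 - t) (by norm_num)
    (by linear_combination (1096721 / 1000000) * R.h1 + (1096721 / 1000000) * t2) (by linear_combination (17306 / 15625) * R.h2 + (17306 / 15625) * t1)
  have e5 := R.lo5 (59 / 1000) (by norm_num)
  have e6 := R.lo1 (220 / 1000) (by norm_num)
  have e7 := up (t1 := 69 / 1000) (t2 := (74 / 1000)) (x := 8 / 25 * s) (by norm_num)
    (by linear_combination (1004761 / 3125000) * s1) (by linear_combination (251369 / 781250) * s2)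
  have e8 := up (t1 := 198 / 1000) (t2 := (268 / 1000)) (x := b) (by norm_num)
    (by linear_combination (259801 / 250000) * b1) (by linear_combination (66989 / 62500) * b2)
  unfold U3
  linear_combination (538554365779342375 / 146948648605356819) * e8 + (500000 / 497447) * e7 + (2500 / 2379) * e6 + (1000000 / 996519) * e5 + (125000 / 112249) * e4 + (80000 / 37791) * e3 + (250000 / 50701) * e2 + (1000000 / 673959) * e1 + (31071197594300 / 13656129957327) * R.k2 + (79875 / 112249) * R.h2 + R.h3 + (29425244324877978790639000 / 25672691796127078381252497) * s2 + (7677897246396647132597 / 26940585577648750150000) * b2 + (101268671201833959300175 / 77718900318037500044523) * t2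

theorem m49 {s b t k : ℝ} (R : Reg s b t k) (hE : t ≤ b / 2 + k) (hF : s + t + b / 2 - k ≤ h0)
    (s1 : 4573 / 10000 ≤ s) (s2 : s ≤ 2347 / 5000)
    (b1 : 153 / 400 ≤ b) (b2 : b ≤ 1 / 2) (t1 : 2747 / 10000 ≤ t) (t2 : t ≤ 1431 / 5000) :
    0 ≤ U3 s b t k := by
  have e1 := R.lo2 (587 / 1000) (by norm_num)
  have e2 := up (t1 := 435 / 1000) (t2 := (457 / 1000)) (x := s + t) (by norm_num)
    (by linear_combination (47569 / 40000) * s1 + (47569 / 40000) * t1) (by linear_combination (1208849 / 1000000) * s2 + (1208849 / 1000000) * t2)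
  have e3 := R.lo8 (246 / 1000) (by norm_num)
  have e4 := up (t1 := 319 / 1000) (t2 := (328 / 1000)) (x := h0 - t) (by norm_num)
    (by linear_combination (1101761 / 1000000) * R.h1 + (1101761 / 1000000) * t2) (by linear_combination (17306 / 15625) * R.h2 + (17306 / 15625) * t1)
  have e5 := R.lo5 (59 / 1000) (by norm_num)
  have e6 := R.lo1 (227 / 1000) (by norm_num)
  have e7 := up (t1 := 73 / 1000) (t2 := (76 / 1000)) (x := 8 / 25 * s) (by norm_num)
    (by linear_combination (1005329 / 3125000) * s1) (by linear_combination (125722 / 390625) * s2)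
  have e8 := up (t1 := 198 / 1000) (t2 := (268 / 1000)) (x := b) (by norm_num)
    (by linear_combination (259801 / 250000) * b1) (by linear_combination (66989 / 62500) * b2)
  unfold U3
  linear_combination (30701995668783170000000 / 8147507140464355552497) * e8 + (250000 / 248613) * e7 + (1000000 / 948471) * e6 + (1000000 / 996519) * e5 + (125000 / 111921) * e4 + (500000 / 234871) * e3 + (800000 / 160241) * e2 + (1000000 / 655431) * e1 + (164390472452450000 / 68832589661513391) * R.k2 + (80875 / 111921) * R.h2 + R.h3 + (1528270185790984705569935346400 / 1333441158275301645612261439311) * s2 + (39778568664331141023775801 / 135791785674405925874950000) * b2 + (24016980404248034224671775 / 17890820022571991903683779) * t2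

theorem m50 {s b t k : ℝ} (R : Reg s b t k) (hE : t ≤ b / 2 + k) (hF : s + t + b / 2 - k ≤ h0)
    (s1 : 2347 / 5000 ≤ s) (s2 : s ≤ 963 / 2000)
    (b1 : 153 / 400 ≤ b) (b2 : b ≤ 1 / 2) (t1 : 2747 / 10000 ≤ t) (t2 : t ≤ 1431 / 5000) :
    0 ≤ U3 s b t k := by
  have e1 := up (t1 := 198 / 1000) (t2 := (268 / 1000)) (x := b) (by norm_num)
    (by linear_combination (259801 / 250000) * b1) (by linear_combination (66989 / 62500) * b2)
  exfalso
  exact absurd b1 (not_le.mpr (by linear_combination (43301500 / 3494901) * e1 + (47346800 / 3494901) * R.k2 + (47346800 / 3494901) * R.h2 + (47346800 / 3494901) * s1 + (47346800 / 3494901) * t1 + (47346800 / 3494901) * hF))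

theorem m51 {s b t k : ℝ} (R : Reg s b t k) (hE : t ≤ b / 2 + k) (hF : s + t + b / 2 - k ≤ h0)
    (s1 : 4573 / 10000 ≤ s) (s2 : s ≤ 963 / 2000)
    (b1 : 153 / 400 ≤ b) (b2 : b ≤ 1 / 2) (t1 : 1431 / 5000 ≤ t) (t2 : t ≤ 186 / 625) :
    0 ≤ U3 s b t k := by
  have e1 := up (t1 := 198 / 1000) (t2 := (268 / 1000)) (x := b) (by norm_num)
    (by linear_combination (259801 / 250000) * b1) (by linear_combination (66989 / 62500) * b2)
  exfalso
  exact absurd b1 (not_le.mpr (by linear_combination (43301500 / 3494901) * e1 + (47346800 / 3494901) * R.k2 + (47346800 / 3494901) * R.h2 + (47346800 / 3494901) * s1 + (47346800 / 3494901) * t1 + (47346800 / 3494901) * hF))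

theorem m55 {s b t k : ℝ} (R : Reg s b t k) (hE : t ≤ b / 2 + k) (hF : s + t + b / 2 - k ≤ h0)
    (s1 : 433 / 1000 ≤ s) (s2 : s ≤ 1113 / 2500)
    (b1 : 153 / 400 ≤ b) (b2 : b ≤ 1 / 2) (t1 : 186 / 625 ≤ t) (t2 : t ≤ 3091 / 10000) :
    0 ≤ U3 s b t k := by
  have e1 := R.lo2 (586 / 1000) (by norm_num)
  have e2 := up (t1 := 434 / 1000) (t2 := (456 / 1000)) (x := s + t) (by norm_num)
    (by linear_combination (297089 / 250000) * s1 + (297089 / 250000) * t1) (by linear_combination (18874 / 15625) * s2 + (18874 / 15625) * t2)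
  have e3 := R.lo8 (231 / 1000) (by norm_num)
  have e4 := up (t1 := 304 / 1000) (t2 := (312 / 1000)) (x := h0 - t) (by norm_num)
    (by linear_combination (17069 / 15625) * R.h1 + (17069 / 15625) * t2) (by linear_combination (17146 / 15625) * R.h2 + (17146 / 15625) * t1)
  have e5 := R.lo5 (66 / 1000) (by norm_num)
  have e6 := R.lo1 (226 / 1000) (by norm_num)
  have e7 := up (t1 := 69 / 1000) (t2 := (72 / 1000)) (x := 8 / 25 * s) (by norm_num)
    (by linear_combination (1004761 / 3125000) * s1) (by linear_combination (125648 / 390625) * s2)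
  have e8 := up (t1 := 198 / 1000) (t2 := (268 / 1000)) (x := b) (by norm_num)
    (by linear_combination (259801 / 250000) * b1) (by linear_combination (66989 / 62500) * b2)
  unfold U3
  linear_combination (12334244176022671250 / 3268756622096763447) * e8 + (125000 / 124379) * e7 + (250000 / 237231) * e6 + (250000 / 248911) * e5 + (15625 / 14143) * e4 + (2000000 / 946639) * e3 + (250000 / 50131) * e2 + (250000 / 164151) * e1 + (66107173529000 / 27615438611241) * R.k2 + (9625 / 14143) * R.h2 + R.h3 + (3217091392886147556673156700 / 2672144452704006837586803891) * s2 + (149229357263361433319359 / 490313493314514517050000) * b2 + (26705829341243941014625 / 19579421448363593521653) * t2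

theorem m56 {s b t k : ℝ} (R : Reg s b t k) (hE : t ≤ b / 2 + k) (hF : s + t + b / 2 - k ≤ h0)
    (s1 : 1113 / 2500 ≤ s) (s2 : s ≤ 4573 / 10000)
    (b1 : 153 / 400 ≤ b) (b2 : b ≤ 1 / 2) (t1 : 186 / 625 ≤ t) (t2 : t ≤ 3091 / 10000) :
    0 ≤ U3 s b t k := by
  have e1 := up (t1 := 198 / 1000) (t2 := (268 / 1000)) (x := b) (by norm_num)
    (by linear_combination (259801 / 250000) * b1) (by linear_combination (66989 / 62500) * b2)
  exfalso
  exact absurd b1 (not_le.mpr (by linear_combination (43301500 / 3494901) * e1 + (47346800 / 3494901) * R.k2 + (47346800 / 3494901) * R.h2 + (47346800 / 3494901) * s1 + (47346800 / 3494901) * t1 + (47346800 / 3494901) * hF))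

theorem m57 {s b t k : ℝ} (R : Reg s b t k) (hE : t ≤ b / 2 + k) (hF : s + t + b / 2 - k ≤ h0)
    (s1 : 433 / 1000 ≤ s) (s2 : s ≤ 4573 / 10000)
    (b1 : 153 / 400 ≤ b) (b2 : b ≤ 1 / 2) (t1 : 3091 / 10000 ≤ t) (t2 : t ≤ 641 / 2000) :
    0 ≤ U3 s b t k := by
  have e1 := up (t1 := 198 / 1000) (t2 := (268 / 1000)) (x := b) (by norm_num)
    (by linear_combination (259801 / 250000) * b1) (by linear_combination (66989 / 62500) * b2)
  exfalso
  exact absurd b1 (not_le.mpr (by linear_combination (43301500 / 3494901) * e1 + (47346800 / 3494901) * R.k2 + (47346800 / 3494901) * R.h2 + (47346800 / 3494901) * s1 + (47346800 / 3494901) * t1 + (47346800 / 3494901) * hF))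

theorem m58 {s b t k : ℝ} (R : Reg s b t k) (hE : t ≤ b / 2 + k) (hF : s + t + b / 2 - k ≤ h0)
    (s1 : 4573 / 10000 ≤ s) (s2 : s ≤ 963 / 2000)
    (b1 : 153 / 400 ≤ b) (b2 : b ≤ 1 / 2) (t1 : 186 / 625 ≤ t) (t2 : t ≤ 641 / 2000) :
    0 ≤ U3 s b t k := by
  have e1 := up (t1 := 198 / 1000) (t2 := (268 / 1000)) (x := b) (by norm_num)
    (by linear_combination (259801 / 250000) * b1) (by linear_combination (66989 / 62500) * b2)
  exfalso
  exact absurd b1 (not_le.mpr (by linear_combination (43301500 / 3494901) * e1 + (47346800 / 3494901) * R.k2 + (47346800 / 3494901) * R.h2 + (47346800 / 3494901) * s1 + (47346800 / 3494901) * t1 + (47346800 / 3494901) * hF))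

theorem m59 {s b t k : ℝ} (R : Reg s b t k) (hE : t ≤ b / 2 + k) (hF : s + t + b / 2 - k ≤ h0)
    (s1 : 963 / 2000 ≤ s) (s2 : s ≤ 53 / 100)
    (b1 : 153 / 400 ≤ b) (b2 : b ≤ 1 / 2) (t1 : 2747 / 10000 ≤ t) (t2 : t ≤ 641 / 2000) :
    0 ≤ U3 s b t k := by
  have e1 := up (t1 := 198 / 1000) (t2 := (268 / 1000)) (x := b) (by norm_num)
    (by linear_combination (259801 / 250000) * b1) (by linear_combination (66989 / 62500) * b2)
  exfalso
  exact absurd b1 (not_le.mpr (by linear_combination (43301500 / 3494901) * e1 + (47346800 / 3494901) * R.k2 + (47346800 / 3494901) * R.h2 + (47346800 / 3494901) * s1 + (47346800 / 3494901) * t1 + (47346800 / 3494901) * hF))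

theorem m60 {s b t k : ℝ} (R : Reg s b t k) (hE : t ≤ b / 2 + k) (hF : s + t + b / 2 - k ≤ h0)
    (s1 : 433 / 1000 ≤ s) (s2 : s ≤ 53 / 100)
    (b1 : 153 / 400 ≤ b) (b2 : b ≤ 1 / 2) (t1 : 641 / 2000 ≤ t) (t2 : t ≤ 1831 / 5000) :
    0 ≤ U3 s b t k := by
  have e1 := up (t1 := 198 / 1000) (t2 := (268 / 1000)) (x := b) (by norm_num)
    (by linear_combination (259801 / 250000) * b1) (by linear_combination (66989 / 62500) * b2)
  exfalso
  exact absurd b1 (not_le.mpr (by linear_combination (43301500 / 3494901) * e1 + (47346800 / 3494901) * R.k2 + (47346800 / 3494901) * R.h2 + (47346800 / 3494901) * s1 + (47346800 / 3494901) * t1 + (47346800 / 3494901) * hF))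

theorem m54 {s b t k : ℝ} (R : Reg s b t k) (hE : t ≤ b / 2 + k) (hF : s + t + b / 2 - k ≤ h0)
    (s1 : 433 / 1000 ≤ s) (s2 : s ≤ 4573 / 10000)
    (b1 : 153 / 400 ≤ b) (b2 : b ≤ 1 / 2) (t1 : 186 / 625 ≤ t) (t2 : t ≤ 3091 / 10000) :
    0 ≤ U3 s b t k := by
  rcases le_total s (1113 / 2500) with h | h
  · exact m55 R hE hF s1 h b1 b2 t1 t2
  · exact m56 R hE hF h s2 b1 b2 t1 t2

theorem m53 {s b t k : ℝ} (R : Reg s b t k) (hE : t ≤ b / 2 + k) (hF : s + t + b / 2 - k ≤ h0)
    (s1 : 433 / 1000 ≤ s) (s2 : s ≤ 4573 / 10000)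
    (b1 : 153 / 400 ≤ b) (b2 : b ≤ 1 / 2) (t1 : 186 / 625 ≤ t) (t2 : t ≤ 641 / 2000) :
    0 ≤ U3 s b t k := by
  rcases le_total t (3091 / 10000) with h | h
  · exact m54 R hE hF s1 s2 b1 b2 t1 h
  · exact m57 R hE hF s1 s2 b1 b2 h t2

theorem m52 {s b t k : ℝ} (R : Reg s b t k) (hE : t ≤ b / 2 + k) (hF : s + t + b / 2 - k ≤ h0)
    (s1 : 433 / 1000 ≤ s) (s2 : s ≤ 963 / 2000)
    (b1 : 153 / 400 ≤ b) (b2 : b ≤ 1 / 2) (t1 : 186 / 625 ≤ t) (t2 : t ≤ 641 / 2000) :
    0 ≤ U3 s b t k := by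
  rcases le_total s (4573 / 10000) with h | h
  · exact m53 R hE hF s1 h b1 b2 t1 t2
  · exact m58 R hE hF h s2 b1 b2 t1 t2

theorem m48 {s b t k : ℝ} (R : Reg s b t k) (hE : t ≤ b / 2 + k) (hF : s + t + b / 2 - k ≤ h0)
    (s1 : 4573 / 10000 ≤ s) (s2 : s ≤ 963 / 2000)
    (b1 : 153 / 400 ≤ b) (b2 : b ≤ 1 / 2) (t1 : 2747 / 10000 ≤ t) (t2 : t ≤ 1431 / 5000) :
    0 ≤ U3 s b t k := by
  rcases le_total s (2347 / 5000) with h | h
  · exact m49 R hE hF s1 h b1 b2 t1 t2
  · exact m50 R hE hF h s2 b1 b2 t1 t2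

theorem m47 {s b t k : ℝ} (R : Reg s b t k) (hE : t ≤ b / 2 + k) (hF : s + t + b / 2 - k ≤ h0)
    (s1 : 4573 / 10000 ≤ s) (s2 : s ≤ 963 / 2000)
    (b1 : 153 / 400 ≤ b) (b2 : b ≤ 1 / 2) (t1 : 2747 / 10000 ≤ t) (t2 : t ≤ 186 / 625) :
    0 ≤ U3 s b t k := by
  rcases le_total t (1431 / 5000) with h | h
  · exact m48 R hE hF s1 s2 b1 b2 t1 h
  · exact m51 R hE hF s1 s2 b1 b2 h t2

theorem m45 {s b t k : ℝ} (R : Reg s b t k) (hE : t ≤ b / 2 + k) (hF : s + t + b / 2 - k ≤ h0)
    (s1 : 433 / 1000 ≤ s) (s2 : s ≤ 963 / 2000)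
    (b1 : 153 / 400 ≤ b) (b2 : b ≤ 1 / 2) (t1 : 2747 / 10000 ≤ t) (t2 : t ≤ 186 / 625) :
    0 ≤ U3 s b t k := by
  rcases le_total s (4573 / 10000) with h | h
  · exact m46 R hE hF s1 h b1 b2 t1 t2
  · exact m47 R hE hF h s2 b1 b2 t1 t2

theorem m44 {s b t k : ℝ} (R : Reg s b t k) (hE : t ≤ b / 2 + k) (hF : s + t + b / 2 - k ≤ h0)
    (s1 : 433 / 1000 ≤ s) (s2 : s ≤ 963 / 2000)
    (b1 : 153 / 400 ≤ b) (b2 : b ≤ 1 / 2) (t1 : 2747 / 10000 ≤ t) (t2 : t ≤ 641 / 2000) :
    0 ≤ U3 s b t k := by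
  rcases le_total t (186 / 625) with h | h
  · exact m45 R hE hF s1 s2 b1 b2 t1 h
  · exact m52 R hE hF s1 s2 b1 b2 h t2

theorem m43 {s b t k : ℝ} (R : Reg s b t k) (hE : t ≤ b / 2 + k) (hF : s + t + b / 2 - k ≤ h0)
    (s1 : 433 / 1000 ≤ s) (s2 : s ≤ 53 / 100)
    (b1 : 153 / 400 ≤ b) (b2 : b ≤ 1 / 2) (t1 : 2747 / 10000 ≤ t) (t2 : t ≤ 641 / 2000) :
    0 ≤ U3 s b t k := by
  rcases le_total s (963 / 2000) with h | h
  · exact m44 R hE hF s1 h b1 b2 t1 t2
  · exact m59 R hE hF h s2 b1 b2 t1 t2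

theorem m42 {s b t k : ℝ} (R : Reg s b t k) (hE : t ≤ b / 2 + k) (hF : s + t + b / 2 - k ≤ h0)
    (s1 : 433 / 1000 ≤ s) (s2 : s ≤ 53 / 100)
    (b1 : 153 / 400 ≤ b) (b2 : b ≤ 1 / 2) (t1 : 2747 / 10000 ≤ t) (t2 : t ≤ 1831 / 5000) :
    0 ≤ U3 s b t k := by
  rcases le_total t (641 / 2000) with h | h
  · exact m43 R hE hF s1 s2 b1 b2 t1 h
  · exact m60 R hE hF s1 s2 b1 b2 h t2

theorem m40 {s b t k : ℝ} (R : Reg s b t k) (hE : t ≤ b / 2 + k) (hF : s + t + b / 2 - k ≤ h0)
    (s1 : 433 / 1000 ≤ s) (s2 : s ≤ 53 / 100)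
    (b1 : 53 / 200 ≤ b) (b2 : b ≤ 1 / 2) (t1 : 2747 / 10000 ≤ t) (t2 : t ≤ 1831 / 5000) :
    0 ≤ U3 s b t k := by
  rcases le_total b (153 / 400) with h | h
  · exact m41 R hE hF s1 s2 b1 h t1 t2
  · exact m42 R hE hF s1 s2 h b2 t1 t2

theorem m36 {s b t k : ℝ} (R : Reg s b t k) (hE : t ≤ b / 2 + k) (hF : s + t + b / 2 - k ≤ h0)
    (s1 : 963 / 2000 ≤ s) (s2 : s ≤ 2529 / 5000)
    (b1 : 153 / 400 ≤ b) (b2 : b ≤ 1 / 2) (t1 : 1259 / 5000 ≤ t) (t2 : t ≤ 2747 / 10000) :
    0 ≤ U3 s b t k := by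
  rcases le_total t (2633 / 10000) with h | h
  · exact m37 R hE hF s1 s2 b1 b2 t1 h
  · exact m38 R hE hF s1 s2 b1 b2 h t2

theorem m35 {s b t k : ℝ} (R : Reg s b t k) (hE : t ≤ b / 2 + k) (hF : s + t + b / 2 - k ≤ h0)
    (s1 : 963 / 2000 ≤ s) (s2 : s ≤ 53 / 100)
    (b1 : 153 / 400 ≤ b) (b2 : b ≤ 1 / 2) (t1 : 1259 / 5000 ≤ t) (t2 : t ≤ 2747 / 10000) :
    0 ≤ U3 s b t k := by
  rcases le_total s (2529 / 5000) with h | h
  · exact m36 R hE hF s1 h b1 b2 t1 t2
  · exact m39 R hE hF h s2 b1 b2 t1 t2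

theorem m32 {s b t k : ℝ} (R : Reg s b t k) (hE : t ≤ b / 2 + k) (hF : s + t + b / 2 - k ≤ h0)
    (s1 : 2529 / 5000 ≤ s) (s2 : s ≤ 53 / 100)
    (b1 : 153 / 400 ≤ b) (b2 : b ≤ 1 / 2) (t1 : 2289 / 10000 ≤ t) (t2 : t ≤ 1259 / 5000) :
    0 ≤ U3 s b t k := by
  rcases le_total b (4413 / 10000) with h | h
  · exact m33 R hE hF s1 s2 b1 h t1 t2
  · exact m34 R hE hF s1 s2 h b2 t1 t2

theorem m30 {s b t k : ℝ} (R : Reg s b t k) (hE : t ≤ b / 2 + k) (hF : s + t + b / 2 - k ≤ h0)
    (s1 : 963 / 2000 ≤ s) (s2 : s ≤ 53 / 100)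
    (b1 : 153 / 400 ≤ b) (b2 : b ≤ 1 / 2) (t1 : 2289 / 10000 ≤ t) (t2 : t ≤ 1259 / 5000) :
    0 ≤ U3 s b t k := by
  rcases le_total s (2529 / 5000) with h | h
  · exact m31 R hE hF s1 h b1 b2 t1 t2
  · exact m32 R hE hF h s2 b1 b2 t1 t2

theorem m29 {s b t k : ℝ} (R : Reg s b t k) (hE : t ≤ b / 2 + k) (hF : s + t + b / 2 - k ≤ h0)
    (s1 : 963 / 2000 ≤ s) (s2 : s ≤ 53 / 100)
    (b1 : 153 / 400 ≤ b) (b2 : b ≤ 1 / 2) (t1 : 2289 / 10000 ≤ t) (t2 : t ≤ 2747 / 10000) :
    0 ≤ U3 s b t k := by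
  rcases le_total t (1259 / 5000) with h | h
  · exact m30 R hE hF s1 s2 b1 b2 t1 h
  · exact m35 R hE hF s1 s2 b1 b2 h t2

theorem m26 {s b t k : ℝ} (R : Reg s b t k) (hE : t ≤ b / 2 + k) (hF : s + t + b / 2 - k ≤ h0)
    (s1 : 963 / 2000 ≤ s) (s2 : s ≤ 53 / 100)
    (b1 : 1619 / 5000 ≤ b) (b2 : b ≤ 153 / 400) (t1 : 1259 / 5000 ≤ t) (t2 : t ≤ 2747 / 10000) :
    0 ≤ U3 s b t k := by
  rcases le_total s (2529 / 5000) with h | h
  · exact m27 R hE hF s1 h b1 b2 t1 t2
  · exact m28 R hE hF h s2 b1 b2 t1 t2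

theorem m24 {s b t k : ℝ} (R : Reg s b t k) (hE : t ≤ b / 2 + k) (hF : s + t + b / 2 - k ≤ h0)
    (s1 : 963 / 2000 ≤ s) (s2 : s ≤ 53 / 100)
    (b1 : 1619 / 5000 ≤ b) (b2 : b ≤ 153 / 400) (t1 : 2289 / 10000 ≤ t) (t2 : t ≤ 2747 / 10000) :
    0 ≤ U3 s b t k := by
  rcases le_total t (1259 / 5000) with h | h
  · exact m25 R hE hF s1 s2 b1 b2 t1 h
  · exact m26 R hE hF s1 s2 b1 b2 h t2

theorem m22 {s b t k : ℝ} (R : Reg s b t k) (hE : t ≤ b / 2 + k) (hF : s + t + b / 2 - k ≤ h0)
    (s1 : 963 / 2000 ≤ s) (s2 : s ≤ 53 / 100)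
    (b1 : 53 / 200 ≤ b) (b2 : b ≤ 153 / 400) (t1 : 2289 / 10000 ≤ t) (t2 : t ≤ 2747 / 10000) :
    0 ≤ U3 s b t k := by
  rcases le_total b (1619 / 5000) with h | h
  · exact m23 R hE hF s1 s2 b1 h t1 t2
  · exact m24 R hE hF s1 s2 h b2 t1 t2

theorem m21 {s b t k : ℝ} (R : Reg s b t k) (hE : t ≤ b / 2 + k) (hF : s + t + b / 2 - k ≤ h0)
    (s1 : 963 / 2000 ≤ s) (s2 : s ≤ 53 / 100)
    (b1 : 53 / 200 ≤ b) (b2 : b ≤ 1 / 2) (t1 : 2289 / 10000 ≤ t) (t2 : t ≤ 2747 / 10000) :
    0 ≤ U3 s b t k := by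
  rcases le_total b (153 / 400) with h | h
  · exact m22 R hE hF s1 s2 b1 h t1 t2
  · exact m29 R hE hF s1 s2 h b2 t1 t2

theorem m18 {s b t k : ℝ} (R : Reg s b t k) (hE : t ≤ b / 2 + k) (hF : s + t + b / 2 - k ≤ h0)
    (s1 : 433 / 1000 ≤ s) (s2 : s ≤ 963 / 2000)
    (b1 : 53 / 200 ≤ b) (b2 : b ≤ 1 / 2) (t1 : 2289 / 10000 ≤ t) (t2 : t ≤ 2747 / 10000) :
    0 ≤ U3 s b t k := by
  rcases le_total b (153 / 400) with h | h
  · exact m19 R hE hF s1 s2 b1 h t1 t2
  · exact m20 R hE hF s1 s2 h b2 t1 t2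

theorem m17 {s b t k : ℝ} (R : Reg s b t k) (hE : t ≤ b / 2 + k) (hF : s + t + b / 2 - k ≤ h0)
    (s1 : 433 / 1000 ≤ s) (s2 : s ≤ 53 / 100)
    (b1 : 53 / 200 ≤ b) (b2 : b ≤ 1 / 2) (t1 : 2289 / 10000 ≤ t) (t2 : t ≤ 2747 / 10000) :
    0 ≤ U3 s b t k := by
  rcases le_total s (963 / 2000) with h | h
  · exact m18 R hE hF s1 h b1 b2 t1 t2
  · exact m21 R hE hF h s2 b1 b2 t1 t2

theorem m14 {s b t k : ℝ} (R : Reg s b t k) (hE : t ≤ b / 2 + k) (hF : s + t + b / 2 - k ≤ h0)
    (s1 : 433 / 1000 ≤ s) (s2 : s ≤ 53 / 100)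
    (b1 : 53 / 200 ≤ b) (b2 : b ≤ 1 / 2) (t1 : 1831 / 10000 ≤ t) (t2 : t ≤ 2289 / 10000) :
    0 ≤ U3 s b t k := by
  rcases le_total s (963 / 2000) with h | h
  · exact m15 R hE hF s1 h b1 b2 t1 t2
  · exact m16 R hE hF h s2 b1 b2 t1 t2

theorem m13 {s b t k : ℝ} (R : Reg s b t k) (hE : t ≤ b / 2 + k) (hF : s + t + b / 2 - k ≤ h0)
    (s1 : 433 / 1000 ≤ s) (s2 : s ≤ 53 / 100)
    (b1 : 53 / 200 ≤ b) (b2 : b ≤ 1 / 2) (t1 : 1831 / 10000 ≤ t) (t2 : t ≤ 2747 / 10000) :
    0 ≤ U3 s b t k := by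
  rcases le_total t (2289 / 10000) with h | h
  · exact m14 R hE hF s1 s2 b1 b2 t1 h
  · exact m17 R hE hF s1 s2 b1 b2 h t2

theorem m12 {s b t k : ℝ} (R : Reg s b t k) (hE : t ≤ b / 2 + k) (hF : s + t + b / 2 - k ≤ h0)
    (s1 : 433 / 1000 ≤ s) (s2 : s ≤ 53 / 100)
    (b1 : 53 / 200 ≤ b) (b2 : b ≤ 1 / 2) (t1 : 1831 / 10000 ≤ t) (t2 : t ≤ 1831 / 5000) :
    0 ≤ U3 s b t k := by
  rcases le_total t (2747 / 10000) with h | h
  · exact m13 R hE hF s1 s2 b1 b2 t1 h
  · exact m40 R hE hF s1 s2 b1 b2 h t2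

theorem m10 {s b t k : ℝ} (R : Reg s b t k) (hE : t ≤ b / 2 + k) (hF : s + t + b / 2 - k ≤ h0)
    (s1 : 433 / 1000 ≤ s) (s2 : s ≤ 53 / 100)
    (b1 : 3 / 100 ≤ b) (b2 : b ≤ 1 / 2) (t1 : 1831 / 10000 ≤ t) (t2 : t ≤ 1831 / 5000) :
    0 ≤ U3 s b t k := by
  rcases le_total b (53 / 200) with h | h
  · exact m11 R hE hF s1 s2 b1 h t1 t2
  · exact m12 R hE hF s1 s2 h b2 t1 t2

theorem m4 {s b t k : ℝ} (R : Reg s b t k) (hE : t ≤ b / 2 + k) (hF : s + t + b / 2 - k ≤ h0)
    (s1 : 433 / 1000 ≤ s) (s2 : s ≤ 53 / 100)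
    (b1 : 3 / 100 ≤ b) (b2 : b ≤ 59 / 400) (t1 : 0 ≤ t) (t2 : t ≤ 229 / 2500) :
    0 ≤ U3 s b t k := by
  rcases le_total t (229 / 5000) with h | h
  · exact m5 R hE hF s1 s2 b1 b2 t1 h
  · exact m6 R hE hF s1 s2 b1 b2 h t2

theorem m3 {s b t k : ℝ} (R : Reg s b t k) (hE : t ≤ b / 2 + k) (hF : s + t + b / 2 - k ≤ h0)
    (s1 : 433 / 1000 ≤ s) (s2 : s ≤ 53 / 100)
    (b1 : 3 / 100 ≤ b) (b2 : b ≤ 59 / 400) (t1 : 0 ≤ t) (t2 : t ≤ 1831 / 10000) :
    0 ≤ U3 s b t k := by
  rcases le_total t (229 / 2500) with h | h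
  · exact m4 R hE hF s1 s2 b1 b2 t1 h
  · exact m7 R hE hF s1 s2 b1 b2 h t2

theorem m2 {s b t k : ℝ} (R : Reg s b t k) (hE : t ≤ b / 2 + k) (hF : s + t + b / 2 - k ≤ h0)
    (s1 : 433 / 1000 ≤ s) (s2 : s ≤ 53 / 100)
    (b1 : 3 / 100 ≤ b) (b2 : b ≤ 53 / 200) (t1 : 0 ≤ t) (t2 : t ≤ 1831 / 10000) :
    0 ≤ U3 s b t k := by
  rcases le_total b (59 / 400) with h | h
  · exact m3 R hE hF s1 s2 b1 h t1 t2
  · exact m8 R hE hF s1 s2 h b2 t1 t2

theorem m1 {s b t k : ℝ} (R : Reg s b t k) (hE : t ≤ b / 2 + k) (hF : s + t + b / 2 - k ≤ h0)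
    (s1 : 433 / 1000 ≤ s) (s2 : s ≤ 53 / 100)
    (b1 : 3 / 100 ≤ b) (b2 : b ≤ 1 / 2) (t1 : 0 ≤ t) (t2 : t ≤ 1831 / 10000) :
    0 ≤ U3 s b t k := by
  rcases le_total b (53 / 200) with h | h
  · exact m2 R hE hF s1 s2 b1 h t1 t2
  · exact m9 R hE hF s1 s2 h b2 t1 t2

theorem m0 {s b t k : ℝ} (R : Reg s b t k) (hE : t ≤ b / 2 + k) (hF : s + t + b / 2 - k ≤ h0)
    (s1 : 433 / 1000 ≤ s) (s2 : s ≤ 53 / 100)
    (b1 : 3 / 100 ≤ b) (b2 : b ≤ 1 / 2) (t1 : 0 ≤ t) (t2 : t ≤ 1831 / 5000) :
    0 ≤ U3 s b t k := by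
  rcases le_total t (1831 / 10000) with h | h
  · exact m1 R hE hF s1 s2 b1 b2 t1 h
  · exact m10 R hE hF s1 s2 b1 b2 h t2

end Pool.Agent.Strip051.FourC.MB
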