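import Pool.Agent.Strip051.FourC.MidBase

/-! # The real inequality for `s ≤ y ≤ h0`: the corner `b ≤ 3 / 100` -/

namespace Pool.Agent.Strip051.FourC.MB

open Pool.Agent.StripNear Pool.Agent.StripSquare Pool.Agent.Strip051
open Pool.Agent.Strip051.Four.Low (ph ph_nonneg)

/-- A difference of values of the unit arc. -/
theorem ph_dif {x y : ℝ} (hx : x ^ 2 ≤ 1) (hy : y ^ 2 ≤ 1) :
    (ph y - ph x) * (g y + g x) = (y - x) * (y + x) := by
  have gx := g_sq hx
  have gy := g_sq hy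
  unfold Four.Low.ph
  linear_combination gx - gy

/-- The tangent of the unit arc at `s`. -/
theorem tang {s x : ℝ} (hs : s ^ 2 ≤ 1) (hx : x ^ 2 ≤ 1) :
    s * (x - s) ≤ g s * (ph x - ph s) := by
  have gs := g_sq hs
  have gx := g_sq hx
  have ns := g_nonneg s
  have nx := g_nonneg x
  have key : g s * g x ≤ 1 - s * x := by
    linear_combination (1 / 2) * (sq_nonneg (g s - g x)) + (1 / 2) * (sq_nonneg (s - x)) +
      (1 / 2) * gs + (1 / 2) * gx
  unfold Four.Low.ph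
  linear_combination -gs + key

theorem ph_small {b : ℝ} (h1 : 0 ≤ b) (h2 : b ≤ 3 / 100) : ph b ≤ 1 / 60 * b := by
  have key : 1 - 1 / 60 * b ≤ g b := by
    unfold g
    apply Real.le_sqrt_of_sq_le
    linear_combination (13300 / 3996001) * (mul_nonneg (sub_nonneg.mpr (sq_nonneg (1 - 1 / 60 * b))) (sub_nonneg.mpr h1)) +
      (133 / 143856036) * (mul_nonneg (sub_nonneg.mpr (sq_nonneg (b))) (sub_nonneg.mpr h2)) +
      (35970010 / 35964009) * (mul_nonneg (sub_nonneg.mpr h1) (sub_nonneg.mpr h2))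
  unfold Four.Low.ph
  linear_combination key

theorem g_low {t : ℝ} (h1 : 0 ≤ t) (h2 : t ≤ 16 / 1000) : 1 / 2 + 8 / 5 * t ≤ g (h0 - t) := by
  have hs := h0_sq
  have hh := h0_lt
  have hg := h0_gt
  unfold g
  apply Real.le_sqrt_of_sq_le
  linear_combination (469 / 6250) * h1 + hs + (89 / 25) * (mul_nonneg (sub_nonneg.mpr h1) (sub_nonneg.mpr h2)) +
    2 * (mul_nonneg (sub_nonneg.mpr h1) (sub_nonneg.mpr (le_of_lt hg)))

theorem corner_ineq {s b t k : ℝ} (s1 : 433 / 1000 ≤ s) (s2 : s ≤ 53 / 100) (hb0 : 0 ≤ b)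
    (hb1 : b ≤ 3 / 100) (ht : 0 ≤ t) (hk : k = h0 * ph b) (hE : t ≤ b / 2 + k) :
    0 ≤ U3 s b t k := by
  have hh := h0_lt
  have hg := h0_gt
  have hp := ph_small hb0 hb1
  have hp0 := ph_nonneg b
  have hk0 : 0 ≤ k := by rw [hk]; exact mul_nonneg h0_pos.le hp0
  have hk1 : k ≤ 87 / 100 * ph b := by
    rw [hk]
    exact mul_le_mul_of_nonneg_right (by linear_combination hh) hp0
  have ht1 : t ≤ 16 / 1000 := by linear_combination (1029 / 2000) * hb1 + hE + (87 / 100) * hp + hk1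
  have hG1 : 8479 / 10000 ≤ g s := by
    unfold g
    apply Real.le_sqrt_of_sq_le
    linear_combination (963 / 1000) * s2 + (mul_nonneg (sub_nonneg.mpr s1) (sub_nonneg.mpr s2))
  have hG2 : g s ≤ 9015 / 10000 := by
    unfold g
    apply Real.sqrt_le_iff.2
    constructor
    · norm_num
    · linear_combination (433 / 500) * s1 + (mul_nonneg (sub_nonneg.mpr s1) (sub_nonneg.mpr s1))
  have a1 := tang (s := s) (x := s + t - b / 2 - k) (by linear_combination (963 / 1000) * s2 + (mul_nonneg (sub_nonneg.mpr s1) (sub_nonneg.mpr s2))) (by linear_combination (963 / 1000) * s2 + (3176523 / 400000000) * hb1 + (433 / 500) * hE +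
    (mul_nonneg (sub_nonneg.mpr s1) (sub_nonneg.mpr s2)) + 2 * (mul_nonneg (sub_nonneg.mpr s1) (sub_nonneg.mpr hE)) +
    (1058841 / 4000000) * (mul_nonneg (sub_nonneg.mpr hb0) (sub_nonneg.mpr hb1)) + (1029 / 2000) * (mul_nonneg (sub_nonneg.mpr hb0) (sub_nonneg.mpr ht)) +
    (89523 / 200000) * (mul_nonneg (sub_nonneg.mpr hb0) (sub_nonneg.mpr hp)) + (1029 / 2000) * (mul_nonneg (sub_nonneg.mpr hb0) (sub_nonneg.mpr hk1)) +
    (mul_nonneg (sub_nonneg.mpr ht) (sub_nonneg.mpr hE)) + (87 / 100) * (mul_nonneg (sub_nonneg.mpr hE) (sub_nonneg.mpr hp)) +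
    (mul_nonneg (sub_nonneg.mpr hE) (sub_nonneg.mpr hk1)))
  have a2 := tang (s := s) (x := s + t + b / 2 - k) (by linear_combination (963 / 1000) * s2 + (mul_nonneg (sub_nonneg.mpr s1) (sub_nonneg.mpr s2))) (by linear_combination (1023 / 1000) * s2 + (112 / 125) * hb1 + (433 / 500) * hE + (mul_nonneg (sub_nonneg.mpr s1) (sub_nonneg.mpr s2)) +
    2 * (mul_nonneg (sub_nonneg.mpr s1) (sub_nonneg.mpr hb1)) + 2 * (mul_nonneg (sub_nonneg.mpr s1) (sub_nonneg.mpr hE)) +
    (mul_nonneg (sub_nonneg.mpr hb0) (sub_nonneg.mpr hb1)) + (2971 / 2000) * (mul_nonneg (sub_nonneg.mpr hb0) (sub_nonneg.mpr hE)) +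
    (mul_nonneg (sub_nonneg.mpr ht) (sub_nonneg.mpr hE)) + (87 / 100) * (mul_nonneg (sub_nonneg.mpr hE) (sub_nonneg.mpr hp)) +
    (mul_nonneg (sub_nonneg.mpr hE) (sub_nonneg.mpr hk1)))
  have a3 := g_low ht ht1
  -- the term of the new point
  have a4 : (ph (s + t) - ph s) * (g (s + t) + g s) = t * (2 * s + t) := by
    have := ph_dif (x := s) (y := s + t) (by linear_combination (963 / 1000) * s2 + (mul_nonneg (sub_nonneg.mpr s1) (sub_nonneg.mpr s2))) (by linear_combination (99387 / 100000) * s2 + (181399323 / 400000000) * hb1 + (433 / 500) * hE +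
      (37671 / 50000) * hp + (433 / 500) * hk1 + (mul_nonneg (sub_nonneg.mpr s1) (sub_nonneg.mpr s2)) +
      (1029 / 1000) * (mul_nonneg (sub_nonneg.mpr s1) (sub_nonneg.mpr hb1)) + 2 * (mul_nonneg (sub_nonneg.mpr s1) (sub_nonneg.mpr hE)) +
      (87 / 50) * (mul_nonneg (sub_nonneg.mpr s1) (sub_nonneg.mpr hp)) + 2 * (mul_nonneg (sub_nonneg.mpr s1) (sub_nonneg.mpr hk1)) +
      (1058841 / 4000000) * (mul_nonneg (sub_nonneg.mpr hb0) (sub_nonneg.mpr hb1)) + (1029 / 2000) * (mul_nonneg (sub_nonneg.mpr hb0) (sub_nonneg.mpr hE)) +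
      (89523 / 200000) * (mul_nonneg (sub_nonneg.mpr hb0) (sub_nonneg.mpr hp)) + (1029 / 2000) * (mul_nonneg (sub_nonneg.mpr hb0) (sub_nonneg.mpr hk1)) +
      (mul_nonneg (sub_nonneg.mpr ht) (sub_nonneg.mpr hE)) + (87 / 100) * (mul_nonneg (sub_nonneg.mpr ht) (sub_nonneg.mpr hp)) +
      (mul_nonneg (sub_nonneg.mpr ht) (sub_nonneg.mpr hk1)))
    rw [this]
    ring
  have a5 : g s - 12 / 1000 ≤ g (s + t) := by
    have b1 := g_sq (r := s) (by linear_combination (963 / 1000) * s2 + (mul_nonneg (sub_nonneg.mpr s1) (sub_nonneg.mpr s2)))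
    have b2 := g_sq (r := s + t) (by linear_combination (99387 / 100000) * s2 + (181399323 / 400000000) * hb1 + (433 / 500) * hE +
      (37671 / 50000) * hp + (433 / 500) * hk1 + (mul_nonneg (sub_nonneg.mpr s1) (sub_nonneg.mpr s2)) +
      (1029 / 1000) * (mul_nonneg (sub_nonneg.mpr s1) (sub_nonneg.mpr hb1)) + 2 * (mul_nonneg (sub_nonneg.mpr s1) (sub_nonneg.mpr hE)) +
      (87 / 50) * (mul_nonneg (sub_nonneg.mpr s1) (sub_nonneg.mpr hp)) + 2 * (mul_nonneg (sub_nonneg.mpr s1) (sub_nonneg.mpr hk1)) +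
      (1058841 / 4000000) * (mul_nonneg (sub_nonneg.mpr hb0) (sub_nonneg.mpr hb1)) + (1029 / 2000) * (mul_nonneg (sub_nonneg.mpr hb0) (sub_nonneg.mpr hE)) +
      (89523 / 200000) * (mul_nonneg (sub_nonneg.mpr hb0) (sub_nonneg.mpr hp)) + (1029 / 2000) * (mul_nonneg (sub_nonneg.mpr hb0) (sub_nonneg.mpr hk1)) +
      (mul_nonneg (sub_nonneg.mpr ht) (sub_nonneg.mpr hE)) + (87 / 100) * (mul_nonneg (sub_nonneg.mpr ht) (sub_nonneg.mpr hp)) +
      (mul_nonneg (sub_nonneg.mpr ht) (sub_nonneg.mpr hk1)))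
    have b3 := g_nonneg (s + t)
    by_contra hcon
    push Not at hcon
    have b4 : g (s + t) ^ 2 < (g s - 12 / 1000) ^ 2 := by
      apply pow_lt_pow_left₀ hcon b3
      norm_num
    exact absurd b4 (not_lt.mpr (by linear_combination (3087 / 100000) * s2 + (181399323 / 400000000) * hb1 + (433 / 500) * hE + (37671 / 50000) * hp + (433 / 500) * hk1 + (3 / 125) * hG1 + b1 - b2 + (1029 / 1000) * (mul_nonneg (sub_nonneg.mpr s1) (sub_nonneg.mpr hb1)) + 2 * (mul_nonneg (sub_nonneg.mpr s1) (sub_nonneg.mpr hE)) + (87 / 50) * (mul_nonneg (sub_nonneg.mpr s1) (sub_nonneg.mpr hp)) + 2 * (mul_nonneg (sub_nonneg.mpr s1) (sub_nonneg.mpr hk1)) + (1058841 / 4000000) * (mul_nonneg (sub_nonneg.mpr hb0) (sub_nonneg.mpr hb1)) + (1029 / 2000) * (mul_nonneg (sub_nonneg.mpr hb0) (sub_nonneg.mpr hE)) + (89523 / 200000) * (mul_nonneg (sub_nonneg.mpr hb0) (sub_nonneg.mpr hp)) + (1029 / 2000) * (mul_nonneg (sub_nonneg.mpr hb0) (sub_nonneg.mpr hk1)) + (mul_nonneg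 (sub_nonneg.mpr ht) (sub_nonneg.mpr hE)) + (87 / 100) * (mul_nonneg (sub_nonneg.mpr ht) (sub_nonneg.mpr hp)) + (mul_nonneg (sub_nonneg.mpr ht) (sub_nonneg.mpr hk1))))
  have a6 : 0 ≤ ph (s + t) - ph s := by
    have := Four.Low.ph_mono (a := s) (b := s + t) (by linear_combination s1) (by linear_combination ht)
    linear_combination this
  have a7 : 4 * g s * (ph (s + t) - ph s) ≤ 203 / 100 * (t * (2 * s + t)) := by
    rw [← a4]
    have : 4 * g s ≤ 203 / 100 * (g (s + t) + g s) := by linear_combination (3 / 50) * hG1 + (203 / 100) * a5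
    linear_combination (mul_le_mul_of_nonneg_left this a6)
  -- the term `8 / 25 * s`
  have a8 : ph (8 / 25 * s) - ph (8 / 25 * s + t - b / 2 - k) ≤ 9 / 50 * (b / 2 + k - t) := by
    have c1 := g_sq (r := 8 / 25 * s) (by linear_combination (7704 / 78125) * s2 + (64 / 625) * (mul_nonneg (sub_nonneg.mpr s1) (sub_nonneg.mpr s2)))
    have c2 : (985 / 1000 : ℝ) ≤ g (8 / 25 * s) := by
      unfold g
      apply Real.le_sqrt_of_sq_le
      linear_combination (7704 / 78125) * s2 + (64 / 625) * (mul_nonneg (sub_nonneg.mpr s1) (sub_nonneg.mpr s2))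
    have c3 := tang (s := 8 / 25 * s) (x := 8 / 25 * s + t - b / 2 - k) (by linear_combination (sq_nonneg (g (8 / 25 * s))) + c1)
      (by linear_combination (7704 / 78125) * s2 + (3176523 / 400000000) * hb1 + (866 / 3125) * hE +
        (64 / 625) * (mul_nonneg (sub_nonneg.mpr s1) (sub_nonneg.mpr s2)) + (16 / 25) * (mul_nonneg (sub_nonneg.mpr s1) (sub_nonneg.mpr hE)) +
        (1058841 / 4000000) * (mul_nonneg (sub_nonneg.mpr hb0) (sub_nonneg.mpr hb1)) + (1029 / 2000) * (mul_nonneg (sub_nonneg.mpr hb0) (sub_nonneg.mpr ht)) +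
        (89523 / 200000) * (mul_nonneg (sub_nonneg.mpr hb0) (sub_nonneg.mpr hp)) + (1029 / 2000) * (mul_nonneg (sub_nonneg.mpr hb0) (sub_nonneg.mpr hk1)) +
        (mul_nonneg (sub_nonneg.mpr ht) (sub_nonneg.mpr hE)) + (87 / 100) * (mul_nonneg (sub_nonneg.mpr hE) (sub_nonneg.mpr hp)) +
        (mul_nonneg (sub_nonneg.mpr hE) (sub_nonneg.mpr hk1)))
    have c4 : g (8 / 25 * s) * (ph (8 / 25 * s) - ph (8 / 25 * s + t - b / 2 - k)) ≤
        17 / 100 * (b / 2 + k - t) := by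
      linear_combination (1 / 2500) * hE + c3 + (8 / 25) * (mul_nonneg (sub_nonneg.mpr s2) (sub_nonneg.mpr hE))
    rcases le_total (ph (8 / 25 * s) - ph (8 / 25 * s + t - b / 2 - k)) 0 with h | h
    · linear_combination (9 / 50) * hE + h
    · linear_combination (200 / 197) * (mul_le_mul_of_nonneg_right c2 h) + (73 / 9850) * hE +
      (200 / 197) * c4
  have hG : 0 < g s := by linear_combination hG1
  have key : 0 ≤ g s * U3 s b t k := by
    have e0 : 1 / 2 - ph (h0 - t) = g (h0 - t) - 1 / 2 := by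
      unfold Four.Low.ph
      ring
    have e1 : g s * U3 s b t k = g s * (h0 * b - 3 / 2 * ph b) + g s * (g (h0 - t) - 1 / 2)
        - g s * (ph (8 / 25 * s) - ph (8 / 25 * s + t - b / 2 - k))
        + g s * (ph (s + t - b / 2 - k) - ph s) + g s * (ph (s + t + b / 2 - k) - ph s)
        - 4 * g s * (ph (s + t) - ph s) := by
      rw [← e0]
      unfold U3
      ring
    rw [e1]
    have f1 : g s * (8 / 5 * t) ≤ g s * (g (h0 - t) - 1 / 2) :=
      mul_le_mul_of_nonneg_left (by linear_combination a3) hG.le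
    have f2 : 8479 / 10000 * (8 / 5 * t) ≤ g s * (8 / 5 * t) :=
      mul_le_mul_of_nonneg_right hG1 (by linear_combination (8 / 5) * ht)
    have f3 : g s * (ph (8 / 25 * s) - ph (8 / 25 * s + t - b / 2 - k)) ≤
        g s * (9 / 50 * (b / 2 + k - t)) := mul_le_mul_of_nonneg_left a8 hG.le
    have f4 : g s * (9 / 50 * (b / 2 + k - t)) ≤ 9015 / 10000 * (9 / 50 * (b / 2 + k - t)) :=
      mul_le_mul_of_nonneg_right hG2 (by linear_combination (9 / 50) * hE)
    have f5 : 8479 / 10000 * (h0 * b - 3 / 2 * ph b) ≤ g s * (h0 * b - 3 / 2 * ph b) := by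
      apply mul_le_mul_of_nonneg_right hG1
      linear_combination (841 / 1000) * hb0 + (3 / 2) * hp + (mul_nonneg (sub_nonneg.mpr hb0) (sub_nonneg.mpr (le_of_lt hg)))
    have f6 : 866 / 1000 * b ≤ h0 * b := mul_le_mul_of_nonneg_right (by linear_combination hg) hb0
    have f7 : t * t ≤ 16 / 1000 * t := mul_le_mul_of_nonneg_right ht1 ht
    have f8 : s * t ≤ 53 / 100 * t := mul_le_mul_of_nonneg_right s2 ht
    have f9 : s * k ≤ 53 / 100 * k := mul_le_mul_of_nonneg_right s2 hk0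
    linear_combination (122845197 / 200000000) * hb0 + (39463 / 100000) * ht + (23352249 / 10000000) * hp +
      (122227 / 100000) * hk1 + a1 + a2 + a7 + f1 + f2 + f3 + f4 + f5 + (8479 / 10000) * f6 +
      (203 / 100) * f7 + (103 / 50) * f8 + 2 * f9
  exact nonneg_of_mul_nonneg_right key hG

end Pool.Agent.Strip051.FourC.MB
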