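import Pool.Agent.Strip051.Four.MidReal1
import Pool.Agent.Strip051.Four.Gain

/-! # The real inequality for `s ≤ y ≤ h0`: the far corner above `2 h0` -/

namespace Pool.Agent.Strip051.FourC.MB

open Pool.Agent.StripNear Pool.Agent.StripSquare Pool.Agent.Strip051 Pool.Agent.Strip051.N2
open Pool.Agent.Strip051.Four (ang_of_b mid_high2)

theorem dif_mul {x y : ℝ} (hx : x ^ 2 ≤ 1) (hy : y ^ 2 ≤ 1) :
    (g x - g y) * (g x + g y) = (y - x) * (y + x) := by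
  have gx := g_sq hx
  have gy := g_sq hy
  linear_combination gx - gy

theorem far_real {s y p b : ℝ} (s1 : 433 / 1000 ≤ s) (s2 : s ≤ 53 / 100) (hy : y ≤ h0)
    (hb0 : 0 ≤ b) (hb1 : b ≤ 1 / 2) (hp : p = h0 * g b - b / 2) (hp1 : 1 / 2 ≤ p)
    (h3 : y + p ≤ h0 + s) (h5 : 2 * h0 ≤ y + p + b) :
    2 * (1 + g s) - 4 * g y ≤ 2 * g p + g (h0 + s - y) + g (2 * h0 - y) + g (8 / 25 * s) - 1 / 2
      - g (y + p - h0) - g (y + p - (h0 + s - 8 / 25 * s)) := by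
  have hh := h0_lt
  have hg := h0_gt
  have hA := ang_of_b hb0 hb1 hp
  have hq1 := hA.q_le
  have e1 := hA.gp
  have e2 := hA.gq
  obtain ⟨a, ha⟩ : ∃ a, a = y + p - h0 := ⟨_, rfl⟩
  have ha1 : 366 / 1000 ≤ a := by linear_combination hb1 + h5 + hg - ha
  have k := mid_high2 (s := a) (by linear_combination hb1 + h5 + hg - ha) hy hb0 hb1 hp (by linear_combination ha) h5
  have hgb : g b = g p + g (p + b) := by
    rw [e1, e2]
    ring
  rw [hgb, show h0 + a - y = p by linear_combination ha, ← ha] at k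
  obtain ⟨σ, hσ⟩ : ∃ σ, σ = s - a := ⟨_, rfl⟩
  have hσ0 : 0 ≤ σ := by linear_combination h3 + ha - hσ
  have hσ1 : σ ≤ 164 / 1000 := by linear_combination s2 + hb1 + h5 + hg - ha + hσ
  have hsa : s = a + σ := by linear_combination -hσ
  have hpa : p ≤ a + 134 / 1000 := by linear_combination h5 + hg + hq1 - ha
  have hps : p + σ ≤ 664 / 1000 := by linear_combination s2 + h5 + hg + hq1 - ha + hσ
  -- the three differences
  have m1 := dif_mul (x := a) (y := s) (by linear_combination (847 / 500) * s2 + (713 / 500) * h3 + (14 / 25) * h5 + (97 / 500) * hq1 +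
    ha + 2 * (mul_nonneg (sub_nonneg.mpr s1) (sub_nonneg.mpr hy)) + 2 * (mul_nonneg (sub_nonneg.mpr s1) (sub_nonneg.mpr hb1)) +
    2 * (mul_nonneg (sub_nonneg.mpr s2) (sub_nonneg.mpr hp1)) + 2 * (mul_nonneg (sub_nonneg.mpr hy) (sub_nonneg.mpr (ge_of_eq ha))) +
    (mul_nonneg (sub_nonneg.mpr hb0) (sub_nonneg.mpr hb1)) + 2 * (mul_nonneg (sub_nonneg.mpr hp1) (sub_nonneg.mpr (le_of_eq ha))) +
    2 * (mul_nonneg (sub_nonneg.mpr h3) (sub_nonneg.mpr h5)) + 2 * (mul_nonneg (sub_nonneg.mpr h3) (sub_nonneg.mpr (le_of_lt hg))) +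
    (mul_nonneg (sub_nonneg.mpr h5) (sub_nonneg.mpr h5)) + 2 * (mul_nonneg (sub_nonneg.mpr h5) (sub_nonneg.mpr (le_of_lt hg))) +
    5600 * (mul_pos (sub_pos.mpr hh) (sub_pos.mpr hg)) + 5601 * (mul_pos (sub_pos.mpr hg) (sub_pos.mpr hg)) +
    (mul_nonneg (sub_nonneg.mpr (ge_of_eq ha)) (sub_nonneg.mpr (le_of_eq ha)))) (by linear_combination (963 / 1000) * s2 + (mul_nonneg (sub_nonneg.mpr s1) (sub_nonneg.mpr s2)))
  have m2 := dif_mul (x := p) (y := p + σ) (by linear_combination (1261 / 1000) * s2 + (1127 / 1000) * h3 + (597 / 500) * h5 + (597 / 500) * hg +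
    (597 / 500) * hq1 + (mul_nonneg (sub_nonneg.mpr s1) (sub_nonneg.mpr hb1)) + (mul_nonneg (sub_nonneg.mpr s1) (sub_nonneg.mpr h5)) +
    (mul_nonneg (sub_nonneg.mpr s1) (sub_nonneg.mpr (le_of_lt hg))) + 2 * (mul_nonneg (sub_nonneg.mpr s2) (sub_nonneg.mpr hp1)) +
    (mul_nonneg (sub_nonneg.mpr hy) (sub_nonneg.mpr h3)) + (mul_nonneg (sub_nonneg.mpr hy) (sub_nonneg.mpr h5)) +
    (mul_nonneg (sub_nonneg.mpr hy) (sub_nonneg.mpr (le_of_lt hg))) + (mul_nonneg (sub_nonneg.mpr hy) (sub_nonneg.mpr hq1)) +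
    (mul_nonneg (sub_nonneg.mpr hp1) (sub_nonneg.mpr h3))) (by linear_combination (1231 / 1000) * s2 + (67 / 500) * hb1 + (1567 / 1000) * h5 + (3 / 2) * hq1 - (433 / 500) * ha +
    (433 / 500) * hσ + (mul_nonneg (sub_nonneg.mpr s1) (sub_nonneg.mpr s2)) + (mul_nonneg (sub_nonneg.mpr s1) (sub_nonneg.mpr h5)) +
    (mul_nonneg (sub_nonneg.mpr s1) (sub_nonneg.mpr (le_of_lt hg))) + 2 * (mul_nonneg (sub_nonneg.mpr s1) (sub_nonneg.mpr (ge_of_eq ha))) +
    2 * (mul_nonneg (sub_nonneg.mpr s1) (sub_nonneg.mpr (le_of_eq hσ))) + (mul_nonneg (sub_nonneg.mpr hy) (sub_nonneg.mpr hb0)) +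
    2 * (mul_nonneg (sub_nonneg.mpr hy) (sub_nonneg.mpr (ge_of_eq ha))) + 2 * (mul_nonneg (sub_nonneg.mpr hy) (sub_nonneg.mpr (le_of_eq hσ))) +
    (mul_nonneg (sub_nonneg.mpr hp1) (sub_nonneg.mpr hq1)) + (mul_nonneg (sub_nonneg.mpr h3) (sub_nonneg.mpr h5)) +
    (mul_nonneg (sub_nonneg.mpr h3) (sub_nonneg.mpr (le_of_lt hg))) + 2 * (mul_nonneg (sub_nonneg.mpr h3) (sub_nonneg.mpr hq1)) +
    15670 * (mul_pos (sub_pos.mpr hh) (sub_pos.mpr hg)) + 15670 * (mul_pos (sub_pos.mpr hg) (sub_pos.mpr hg)) +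
    (mul_nonneg (sub_nonneg.mpr (ge_of_eq ha)) (sub_nonneg.mpr (le_of_eq ha))) + 2 * (mul_nonneg (sub_nonneg.mpr (le_of_eq ha)) (sub_nonneg.mpr (le_of_eq hσ))) +
    (mul_nonneg (sub_nonneg.mpr (ge_of_eq hσ)) (sub_nonneg.mpr (le_of_eq hσ))))
  have m3 := dif_mul (x := 8 / 25 * s - σ) (y := 8 / 25 * s) (by linear_combination (197019 / 1250000) * s2 + (9 / 250000) * hb0 + (52521 / 250000) * h3 +
    (9 / 250000) * hq1 + (5139 / 12500) * ha - (5139 / 12500) * hσ + (289 / 625) * (mul_nonneg (sub_nonneg.mpr s1) (sub_nonneg.mpr s2)) +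
    (9 / 25) * (mul_nonneg (sub_nonneg.mpr s1) (sub_nonneg.mpr hb1)) + (9 / 25) * (mul_nonneg (sub_nonneg.mpr s1) (sub_nonneg.mpr h5)) +
    (34 / 25) * (mul_nonneg (sub_nonneg.mpr s1) (sub_nonneg.mpr (ge_of_eq ha))) + (34 / 25) * (mul_nonneg (sub_nonneg.mpr s1) (sub_nonneg.mpr (le_of_eq hσ))) +
    (9 / 25) * (mul_nonneg (sub_nonneg.mpr hy) (sub_nonneg.mpr (le_of_lt hh))) + 2 * (mul_nonneg (sub_nonneg.mpr hy) (sub_nonneg.mpr (ge_of_eq ha))) +
    2 * (mul_nonneg (sub_nonneg.mpr hy) (sub_nonneg.mpr (le_of_eq hσ))) + (mul_nonneg (sub_nonneg.mpr hb1) (sub_nonneg.mpr h3)) +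
    (9 / 25) * (mul_nonneg (sub_nonneg.mpr hp1) (sub_nonneg.mpr (le_of_lt hg))) + 2 * (mul_nonneg (sub_nonneg.mpr hp1) (sub_nonneg.mpr (le_of_eq ha))) +
    2 * (mul_nonneg (sub_nonneg.mpr hp1) (sub_nonneg.mpr (ge_of_eq hσ))) + (mul_nonneg (sub_nonneg.mpr h3) (sub_nonneg.mpr h5)) +
    (34 / 25) * (mul_nonneg (sub_nonneg.mpr h3) (sub_nonneg.mpr (le_of_lt hg))) + (1206 / 5) * (mul_pos (sub_pos.mpr hh) (sub_pos.mpr hg)) +
    (1206 / 5) * (mul_pos (sub_pos.mpr hg) (sub_pos.mpr hg)) + (mul_nonneg (sub_nonneg.mpr (ge_of_eq ha)) (sub_nonneg.mpr (le_of_eq ha))) +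
    2 * (mul_nonneg (sub_nonneg.mpr (le_of_eq ha)) (sub_nonneg.mpr (le_of_eq hσ))) + (mul_nonneg (sub_nonneg.mpr (ge_of_eq hσ)) (sub_nonneg.mpr (le_of_eq hσ)))) (by linear_combination (7704 / 78125) * s2 + (64 / 625) * (mul_nonneg (sub_nonneg.mpr s1) (sub_nonneg.mpr s2)))
  have n1 : g a ≤ 9307 / 10000 := by
    unfold g
    apply Real.sqrt_le_iff.2
    constructor
    · norm_num
    · linear_combination (3661 / 5000) * hb1 + (183 / 250) * h5 + (433 / 250) * hg - ha +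
      2 * (mul_nonneg (sub_nonneg.mpr hy) (sub_nonneg.mpr (le_of_eq ha))) + 2 * (mul_nonneg (sub_nonneg.mpr hb0) (sub_nonneg.mpr (le_of_lt hh))) +
      (mul_nonneg (sub_nonneg.mpr hb1) (sub_nonneg.mpr hb1)) + 2 * (mul_nonneg (sub_nonneg.mpr hb1) (sub_nonneg.mpr h5)) +
      2 * (mul_nonneg (sub_nonneg.mpr hp1) (sub_nonneg.mpr (ge_of_eq ha))) + (mul_nonneg (sub_nonneg.mpr h5) (sub_nonneg.mpr h5)) +
      2 * (mul_nonneg (sub_nonneg.mpr h5) (sub_nonneg.mpr (le_of_lt hg))) + (mul_pos (sub_pos.mpr hg) (sub_pos.mpr hg)) +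
      (mul_nonneg (sub_nonneg.mpr (le_of_eq ha)) (sub_nonneg.mpr (le_of_eq ha)))
  have n2 : g s ≤ 9015 / 10000 := by
    unfold g
    apply Real.sqrt_le_iff.2
    constructor
    · norm_num
    · linear_combination (433 / 500) * s1 + (mul_nonneg (sub_nonneg.mpr s1) (sub_nonneg.mpr s1))
  have n3 : (7477 / 10000 : ℝ) ≤ g (p + σ) := by
    unfold g
    apply Real.le_sqrt_of_sq_le
    linear_combination (3077 / 2500) * s2 + (10669 / 10000) * h5 + (9999 / 10000) * hq1 - (433 / 500) * ha +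
      (433 / 500) * hσ + (mul_nonneg (sub_nonneg.mpr s1) (sub_nonneg.mpr s2)) + (mul_nonneg (sub_nonneg.mpr s1) (sub_nonneg.mpr h5)) +
      2 * (mul_nonneg (sub_nonneg.mpr s1) (sub_nonneg.mpr hq1)) + 2 * (mul_nonneg (sub_nonneg.mpr s1) (sub_nonneg.mpr (ge_of_eq ha))) +
      2 * (mul_nonneg (sub_nonneg.mpr s1) (sub_nonneg.mpr (le_of_eq hσ))) + 2 * (mul_nonneg (sub_nonneg.mpr s2) (sub_nonneg.mpr (le_of_lt hh))) +
      (mul_nonneg (sub_nonneg.mpr hy) (sub_nonneg.mpr hq1)) + 2 * (mul_nonneg (sub_nonneg.mpr hy) (sub_nonneg.mpr (ge_of_eq ha))) +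
      2 * (mul_nonneg (sub_nonneg.mpr hy) (sub_nonneg.mpr (le_of_eq hσ))) + (mul_nonneg (sub_nonneg.mpr hp1) (sub_nonneg.mpr h5)) +
      (mul_nonneg (sub_nonneg.mpr h3) (sub_nonneg.mpr h5)) + (mul_nonneg (sub_nonneg.mpr h5) (sub_nonneg.mpr (le_of_lt hh))) +
      13280 * (mul_pos (sub_pos.mpr hh) (sub_pos.mpr hg)) + (mul_nonneg (sub_nonneg.mpr (le_of_lt hh)) (sub_nonneg.mpr hq1)) +
      13279 * (mul_pos (sub_pos.mpr hg) (sub_pos.mpr hg)) + (mul_nonneg (sub_nonneg.mpr (ge_of_eq ha)) (sub_nonneg.mpr (le_of_eq ha))) +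
      2 * (mul_nonneg (sub_nonneg.mpr (le_of_eq ha)) (sub_nonneg.mpr (le_of_eq hσ))) + (mul_nonneg (sub_nonneg.mpr (ge_of_eq hσ)) (sub_nonneg.mpr (le_of_eq hσ)))
  have n4 : (985 / 1000 : ℝ) ≤ g (8 / 25 * s) := by
    unfold g
    apply Real.le_sqrt_of_sq_le
    linear_combination (7704 / 78125) * s2 + (64 / 625) * (mul_nonneg (sub_nonneg.mpr s1) (sub_nonneg.mpr s2))
  have n5 : g (p + σ) ≤ g p := g_anti (by linear_combination hp1) (by linear_combination h3 + ha - hσ)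
  have n6 : g s ≤ g a := g_anti (by linear_combination hb1 + h5 + hg - ha) (by linear_combination h3 + ha)
  have n7 : g (8 / 25 * s) ≤ g (8 / 25 * s - σ) := Four.g_le_of_abs (by linear_combination h3 + ha - hσ) (by linear_combination (9 / 25) * s2 + hb1 + h5 + hg - ha + hσ)
  have q1 : σ * (2 * a + σ) ≤ 18322 / 10000 * (g a - g s) := by
    have : σ * (2 * a + σ) = (g a - g s) * (g a + g s) := by
      rw [m1, hsa]
      ring
    rw [this]
    nlinarith [mul_nonneg (sub_nonneg.2 n6) (by linear_combination n1 + n2 : 0 ≤ 18322 / 10000 - (g a + g s))]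
  have q2 : 14954 / 10000 * (g p - g (p + σ)) ≤ σ * (2 * p + σ) := by
    have : σ * (2 * p + σ) = (g p - g (p + σ)) * (g p + g (p + σ)) := by
      rw [m2]
      ring
    rw [this]
    nlinarith [mul_nonneg (sub_nonneg.2 n5) (by linear_combination 2 * n3 + n5 : 0 ≤ g p + g (p + σ) - 14954 / 10000)]
  have q3 : 197 / 100 * (g (8 / 25 * s - σ) - g (8 / 25 * s)) ≤ σ * (16 / 25 * s - σ) := by
    have : σ * (16 / 25 * s - σ) = (g (8 / 25 * s - σ) - g (8 / 25 * s)) *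
        (g (8 / 25 * s - σ) + g (8 / 25 * s)) := by
      rw [m3]
      ring
    rw [this]
    nlinarith [mul_nonneg (sub_nonneg.2 n7)
      (by linear_combination 2 * n4 + n7 : 0 ≤ g (8 / 25 * s - σ) + g (8 / 25 * s) - 197 / 100)]
  have q4 : σ * (2 * p + σ) ≤ σ * (2 * a + 268 / 1000 + σ) :=
    mul_le_mul_of_nonneg_left (by linear_combination 2 * h5 + 2 * hg + 2 * hq1 - 2 * ha) hσ0
  have q5 : 0 ≤ σ * (2 * (2 * a + σ) / (18322 / 10000) - (2 * a + 268 / 1000 + σ) / (14954 / 10000)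
      - (16 / 25 * s - σ) / (197 / 100)) := by
    apply mul_nonneg hσ0
    rw [hsa]
    linear_combination (7028414992 / 13493869009) * s1 + (1143574700 / 13493869009) * h3 +
      (1143574700 / 13493869009) * ha - (8171989692 / 13493869009) * hσ
  rw [show h0 + s - y = p + σ by linear_combination ha - hσ,
    show y + p - (h0 + s - 8 / 25 * s) = 8 / 25 * s - σ by linear_combination -ha + hσ, ← ha]
  have q6 : g (8 / 25 * s - σ) - g (8 / 25 * s) + (g p - g (p + σ)) ≤ 2 * (g a - g s) := by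
    have r1 : 2 * (σ * (2 * a + σ) / (18322 / 10000)) ≤ 2 * (g a - g s) := by
      rw [mul_le_mul_iff_right₀ (by norm_num), div_le_iff₀ (by norm_num)]
      linear_combination q1
    have r2 : g p - g (p + σ) ≤ σ * (2 * a + 268 / 1000 + σ) / (14954 / 10000) := by
      rw [le_div_iff₀ (by norm_num)]
      linear_combination q2 + q4
    have r3 : g (8 / 25 * s - σ) - g (8 / 25 * s) ≤ σ * (16 / 25 * s - σ) / (197 / 100) := by
      rw [le_div_iff₀ (by norm_num)]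
      linear_combination q3
    have r4 : σ * (2 * (2 * a + σ) / (18322 / 10000) - (2 * a + 268 / 1000 + σ) / (14954 / 10000)
      - (16 / 25 * s - σ) / (197 / 100)) = 2 * (σ * (2 * a + σ) / (18322 / 10000)) -
        σ * (2 * a + 268 / 1000 + σ) / (14954 / 10000) -
        σ * (16 / 25 * s - σ) / (197 / 100) := by ring
    rw [r4] at q5
    linear_combination (10000 / 9161) * q1 + (5000 / 7477) * q2 + (100 / 197) * q3 + (5000 / 7477) * q4 +
      q5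
  linear_combination k + (10000 / 9161) * q1 + (5000 / 7477) * q2 + (100 / 197) * q3 +
    (5000 / 7477) * q4 + q5

end Pool.Agent.Strip051.FourC.MB
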