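import Pool.Agent.Strip051.FourC.MidGain
import Pool.Agent.Strip051.FourC.MidHigh
import Pool.Agent.Strip051.FourC.MidFar
import Pool.Agent.Strip051.FourC.MidBox
import Pool.Agent.Strip051.FourC.MidCorner

/-! # The case `s ≤ y ≤ h0` -/

namespace Pool.Agent.Strip051.FourC

open Pool.Agent.StripNear Pool.Agent.StripSquare Pool.Agent.Strip051
open Pool.Agent.Strip051.Four (gn ext_facts corner ang_of_b)
open Pool.Agent.Strip051.Four.Low (ph ph_nonneg)

section

variable {s t y r : ℝ}

theorem ph_half {b : ℝ} (h1 : 0 ≤ b) (h2 : b ≤ 1 / 2) : ph b ≤ 134 / 1000 := by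
  have : (866 / 1000 : ℝ) ≤ g b := by
    unfold g
    apply Real.le_sqrt_of_sq_le
    linear_combination (1 / 2) * h2 + (mul_nonneg (sub_nonneg.mpr h1) (sub_nonneg.mpr h2))
  unfold Four.Low.ph
  linear_combination this

/-- The far corner is below `2 h0`. -/
theorem near_real {p b : ℝ} (s1 : 433 / 1000 ≤ s) (s2 : s ≤ 53 / 100) (h1 : s ≤ y)
    (hb0 : 0 ≤ b) (hb1 : b ≤ 1 / 2) (hp : p = h0 * g b - b / 2)
    (h3 : y + p ≤ h0 + s) (h5 : y + p + b ≤ 2 * h0) :
    2 * (1 + g s) - 4 * g y ≤ g p + g (h0 + s - y) - g s - 1 + 2 * g (8 / 25 * s)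
      - g (y + p - h0) + (g b - g (y + p + b - h0) - g (8 / 25 * s) + g s + 1
      - g (y + p - (h0 + s - 8 / 25 * s))) := by
  have hh : h0 ≤ 86603 / 100000 := Four.Low.h0_hi
  have hg : 86602 / 100000 ≤ h0 := Four.Low.h0_lo
  have hA := ang_of_b hb0 hb1 hp
  have e1 := hA.gp
  obtain ⟨k, hk⟩ : ∃ k, k = h0 * ph b := ⟨_, rfl⟩
  obtain ⟨τ, hτ⟩ : ∃ τ, τ = y - s := ⟨_, rfl⟩
  have hpk : p = h0 - b / 2 - k := by
    rw [hp, hk]
    unfold Four.Low.ph
    ring
  have hph := ph_nonneg b
  have hph2 := ph_half hb0 hb1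
  have hk0 : 0 ≤ k := by rw [hk]; exact mul_nonneg h0_pos.le hph
  have hE : τ ≤ b / 2 + k := by linear_combination h3 + hτ - hpk
  have hk5 : k ≤ 1161 / 10000 := by
    rw [hk]
    linear_combination (86603 / 100000) * hph2 + (mul_nonneg (sub_nonneg.mpr hh) (sub_nonneg.mpr hph))
  have key : 0 ≤ MB.U3 s b τ k := by
    rcases le_total b (3 / 100) with h | h
    · exact MB.corner_ineq s1 s2 hb0 h (by linear_combination h1 - hτ) hk hE
    · have R : MB.Reg s b τ k := {
        k1 := by rw [hk]; exact mul_le_mul_of_nonneg_right hg hph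
        k2 := by rw [hk]; exact mul_le_mul_of_nonneg_right hh hph
        h1 := hg
        h2 := hh
        h3 := mul_le_mul_of_nonneg_right hg hb0
        h4 := hk0
        h5 := hk5
        s1 := s1
        s2 := s2
        b1 := hb0
        b2 := hb1
        t1 := by linear_combination h1 - hτ
        t2 := by linear_combination (1 / 2) * hb1 + h3 + hτ - hpk + hk5
        hz := by linear_combination h5 + hτ - hpk }
      exact MB.m0 R hE (by linear_combination h5 + hτ - hpk) s1 s2 h hb1 (by linear_combination h1 - hτ) (by linear_combination (1 / 2) * hb1 + h3 + hτ - hpk + hk5)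
  unfold MB.U3 at key
  rw [show h0 - τ = h0 + s - y by linear_combination -hτ, show s + τ - b / 2 - k = y + p - h0 by linear_combination hτ - hpk,
    show s + τ + b / 2 - k = y + p + b - h0 by linear_combination hτ - hpk,
    show 8 / 25 * s + τ - b / 2 - k = y + p - (h0 + s - 8 / 25 * s) by linear_combination hτ - hpk,
    show s + τ = y by linear_combination hτ] at key
  unfold Four.Low.ph at key
  rw [e1]
  linear_combination key

/-- The near corner is below `h0 + s`. -/
theorem mid_near (P : Par s t) (h1 : s ≤ y) (h2 : y ≤ h0) (r1 : 1 / 2 ≤ r) (r2 : r ≤ 1)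
    (hc : y + min r (ext r) ≤ h0 + s) :
    2 * (1 + g s - 2 * g y) ≤ gn (j2 s) r y y + gn (j3 s) r y y := by
  obtain ⟨p, b, hp, hpb, hb0, hb1, hpe, hgb, hp1⟩ := corner r1 r2
  have k1 := mc2 P h1 h2 r1 r2
  rw [← hp] at hc k1
  rcases le_total (y + max r (ext r)) (2 * h0) with h | h
  · have k2 := mc3 P h1 h2 r1 r2
    rw [← hp, ← hpb, hgb] at k2
    rw [← hpb] at h
    have k3 := near_real P.s0 P.s1 h1 hb0 hb1 hpe hc (by linear_combination h)
    rw [← add_assoc] at k2
    linear_combination k1 + k2 + k3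
  · have k2 := mc3' P h1 h2 r1 r2 h
    rw [← hp] at k2
    rw [← hpb] at h
    have k3 := MB.far_real P.s0 P.s1 h2 hb0 hb1 hpe hp1 hc (by linear_combination h)
    linear_combination k1 + k2 + k3

theorem midB (P : Par s t) : MidB s := by
  intro y r h1 h2 r1 r2 _ _
  rcases le_total (y + min r (ext r)) (h0 + s) with h | h
  · exact mid_near P h1 h2 r1 r2 h
  · have := mh_mid P h1 h2 r1 r2 h
    linear_combination 2 * this

end

end Pool.Agent.Strip051.FourC
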