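import Pool.Agent.Strip051.FourC.Low
import Pool.Agent.Strip051.FourC.Mid
import Pool.Agent.Strip051.FourC.High

/-! # The count bound with two rows, `433 / 1000 ≤ s ≤ 53 / 100` -/

namespace Pool.Agent.Strip051.FourC

open Pool.Agent.StripNear Pool.Agent.StripSquare Pool.Agent.Strip051 Pool.Agent.Strip051.FourC.LA

theorem countBound {s : ℝ} (h1 : 433 / 1000 ≤ s) (h2 : s ≤ 53 / 100) : CountBound 2 s := by
  obtain ⟨t, P⟩ := par_exists h1 h2
  exact count P (win P) (out P) (rim P) (high P) (midB P) (highC P)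

end Pool.Agent.Strip051.FourC
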