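import Pool.Agent.Strip051.FourC.Defs
import Pool.Agent.Strip051.Four.LowReal

/-! # Linear bounds for the unit arc and the regions of the boxes -/

namespace Pool.Agent.Strip051.FourC.LA

open Pool.Agent.StripNear Pool.Agent.StripSquare Pool.Agent.Strip051
open Pool.Agent.Strip051.Four.Low (ph)

/-- Lower bound by a tangent. -/
theorem lo {t x : ℝ} (ht : t ^ 2 < 1) (h1 : -1 ≤ x) (h2 : x ≤ 1) :
    2 * t * x - 2 * t ^ 2 ≤ (1 - t ^ 2) * ph x := by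
  have hx : x ^ 2 ≤ 1 := by linear_combination (mul_nonneg (sub_nonneg.mpr h1) (sub_nonneg.mpr h2))
  have gs := g_sq hx
  have gn := g_nonneg x
  have hp : 0 < 1 - t ^ 2 := by linear_combination ht
  have hr : 0 ≤ 1 + t ^ 2 - 2 * t * x := by
    have h3 : t * x ≤ (t ^ 2 + x ^ 2) / 2 := by linear_combination (1 / 2) * (sq_nonneg (t - x))
    linear_combination hx + 2 * h3
  have key : (1 - t ^ 2) * g x ≤ 1 + t ^ 2 - 2 * t * x := by
    apply abs_le_of_sq_le_sq' _ hr |>.2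
    have e : (1 + t ^ 2 - 2 * t * x) ^ 2 - ((1 - t ^ 2) * g x) ^ 2 =
        ((1 + t ^ 2) * x - 2 * t) ^ 2 := by
      rw [mul_pow, gs]
      ring
    linear_combination (sq_nonneg ((1 + t ^ 2) * x - 2 * t)) - e
  unfold Four.Low.ph
  linear_combination key

/-- Upper bound by a chord. -/
theorem up {t1 t2 x : ℝ} (h1 : t1 * t2 < 1) (h2 : 2 * t1 ≤ (1 + t1 ^ 2) * x)
    (h3 : (1 + t2 ^ 2) * x ≤ 2 * t2) :
    (1 - t1 * t2) * ph x ≤ (t1 + t2) * x - 2 * (t1 * t2) := by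
  have hx1 : -1 ≤ x := by exact not_lt.mp (fun hg__ => absurd h2 (not_le.mpr (by linear_combination hg__ + (sq_nonneg (t1 + 1)) + (mul_nonneg (sub_nonneg.mpr (le_of_lt hg__)) (sub_nonneg.mpr (sq_nonneg (t1)))))))
  have hx2 : x ≤ 1 := by exact not_lt.mp (fun hg__ => absurd h3 (not_le.mpr (by linear_combination hg__ + (sq_nonneg (t2 - 1)) + (mul_nonneg (sub_nonneg.mpr (le_of_lt hg__)) (sub_nonneg.mpr (sq_nonneg (t2)))))))
  have hx : x ^ 2 ≤ 1 := by linear_combination (mul_nonneg (sub_nonneg.mpr hx1) (sub_nonneg.mpr hx2))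
  have gs := g_sq hx
  have gn := g_nonneg x
  have hp : 0 < 1 - t1 * t2 := by linear_combination h1
  have key : 1 + t1 * t2 - (t1 + t2) * x ≤ (1 - t1 * t2) * g x := by
    apply abs_le_of_sq_le_sq' _ (mul_nonneg hp.le gn) |>.2
    have e : ((1 - t1 * t2) * g x) ^ 2 - (1 + t1 * t2 - (t1 + t2) * x) ^ 2 =
        ((1 + t1 ^ 2) * x - 2 * t1) * (2 * t2 - (1 + t2 ^ 2) * x) := by
      rw [mul_pow, gs]
      ring
    have := mul_nonneg (sub_nonneg.2 h2) (sub_nonneg.2 h3)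
    linear_combination -e + this
  unfold Four.Low.ph
  linear_combination key

/-- The numbers `s`, `b = |ext r - r|`, `t = s - y`, `k = h0 ph b`: the common constraints. -/
structure Num (s b t k : ℝ) : Prop where
  k1 : 86602 / 100000 * ph b ≤ k
  k2 : k ≤ 86603 / 100000 * ph b
  h1 : 86602 / 100000 ≤ h0
  h2 : h0 ≤ 86603 / 100000
  h3 : 86602 / 100000 * b ≤ h0 * b
  h4 : h0 * b ≤ 86603 / 100000 * b
  s1 : 433 / 1000 ≤ s
  s2 : s ≤ 53 / 100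
  b1 : 0 ≤ b
  b2 : b ≤ 1 / 2
  t1 : 0 ≤ t
  t2 : t ≤ 1506 / 10000
  k3 : 0 ≤ k
  k4 : k ≤ 1161 / 10000
  hz : h0 - t + b / 2 - k ≤ 1

section

variable {s b t k : ℝ}

theorem Num.lo0 (R : Num s b t k) (u : ℝ) (hu : u ^ 2 < 1) :
    2 * u * s - 2 * u ^ 2 ≤ (1 - u ^ 2) * ph s :=
  lo hu (by linear_combination R.s1) (by linear_combination R.s2)

theorem Num.lo2 (R : Num s b t k) (u : ℝ) (hu : u ^ 2 < 1) :
    2 * u * (s - t + b / 2 - k) - 2 * u ^ 2 ≤ (1 - u ^ 2) * ph (s - t + b / 2 - k) :=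
  lo hu (by linear_combination R.s1 + R.t2 + (1 / 2) * R.b1 + R.k4) (by linear_combination R.s2 + R.t1 + (1 / 2) * R.b2 + R.k3)

theorem Num.lo3 (R : Num s b t k) (u : ℝ) (hu : u ^ 2 < 1) :
    2 * u * (s - t - b / 2 - k) - 2 * u ^ 2 ≤ (1 - u ^ 2) * ph (s - t - b / 2 - k) :=
  lo hu (by linear_combination R.s1 + R.t2 + (1 / 2) * R.b2 + R.k4) (by linear_combination R.s2 + R.t1 + (1 / 2) * R.b1 + R.k3)

theorem Num.lo4 (R : Num s b t k) (u : ℝ) (hu : u ^ 2 < 1) :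
    2 * u * (8 / 25 * s) - 2 * u ^ 2 ≤ (1 - u ^ 2) * ph (8 / 25 * s) :=
  lo hu (by linear_combination (8 / 25) * R.s1) (by linear_combination (8 / 25) * R.s2)

theorem Num.lo5 (R : Num s b t k) (u : ℝ) (hu : u ^ 2 < 1) :
    2 * u * (8 / 25 * s - t - b / 2 - k) - 2 * u ^ 2 ≤
      (1 - u ^ 2) * ph (8 / 25 * s - t - b / 2 - k) :=
  lo hu (by linear_combination (8 / 25) * R.s1 + R.t2 + (1 / 2) * R.b2 + R.k4) (by linear_combination (8 / 25) * R.s2 + R.t1 + (1 / 2) * R.b1 + R.k3)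

theorem Num.lo6 (R : Num s b t k) (u : ℝ) (hu : u ^ 2 < 1) :
    2 * u * (17 / 25 * s - t - b / 2 - k) - 2 * u ^ 2 ≤
      (1 - u ^ 2) * ph (17 / 25 * s - t - b / 2 - k) :=
  lo hu (by linear_combination (17 / 25) * R.s1 + R.t2 + (1 / 2) * R.b2 + R.k4) (by linear_combination (17 / 25) * R.s2 + R.t1 + (1 / 2) * R.b1 + R.k3)

theorem Num.lo7 (R : Num s b t k) (u : ℝ) (hu : u ^ 2 < 1) :
    2 * u * (h0 - t + b / 2 - k) - 2 * u ^ 2 ≤ (1 - u ^ 2) * ph (h0 - t + b / 2 - k) :=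
  lo hu (by linear_combination R.h1 + R.t2 + (1 / 2) * R.b1 + R.k4) R.hz

theorem Num.lo8 (R : Num s b t k) (u : ℝ) (hu : u ^ 2 < 1) :
    2 * u * (t + b / 2 + k) - 2 * u ^ 2 ≤ (1 - u ^ 2) * ph (t + b / 2 + k) :=
  lo hu (by linear_combination R.t1 + (1 / 2) * R.b1 + R.k3) (by linear_combination R.t2 + (1 / 2) * R.b2 + R.k4)

theorem Num.lo9 (R : Num s b t k) (u : ℝ) (hu : u ^ 2 < 1) :
    2 * u * (17 / 25 * s - t + b / 2 - k) - 2 * u ^ 2 ≤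
      (1 - u ^ 2) * ph (17 / 25 * s - t + b / 2 - k) :=
  lo hu (by linear_combination (17 / 25) * R.s1 + R.t2 + (1 / 2) * R.b1 + R.k4) (by linear_combination (17 / 25) * R.s2 + R.t1 + (1 / 2) * R.b2 + R.k3)

theorem Num.lo10 (R : Num s b t k) (u : ℝ) (hu : u ^ 2 < 1) :
    2 * u * b - 2 * u ^ 2 ≤ (1 - u ^ 2) * ph b :=
  lo hu (by linear_combination R.b1) (by linear_combination R.b2)

theorem Num.lo11 (R : Num s b t k) (u : ℝ) (hu : u ^ 2 < 1) :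
    2 * u * (8 / 25 * s - t + b / 2 - k) - 2 * u ^ 2 ≤
      (1 - u ^ 2) * ph (8 / 25 * s - t + b / 2 - k) :=
  lo hu (by linear_combination (8 / 25) * R.s1 + R.t2 + (1 / 2) * R.b1 + R.k4) (by linear_combination (8 / 25) * R.s2 + R.t1 + (1 / 2) * R.b2 + R.k3)

theorem Num.lo13 (R : Num s b t k) (u : ℝ) (hu : u ^ 2 < 1) :
    2 * u * (s - h0 + k - b / 2 + 3 / 200) - 2 * u ^ 2 ≤
      (1 - u ^ 2) * ph (s - h0 + k - b / 2 + 3 / 200) :=
  lo hu (by linear_combination R.s1 + R.h2 + R.k3 + (1 / 2) * R.b2) (by linear_combination R.s2 + R.h1 + R.k4 + (1 / 2) * R.b1)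

theorem Num.lo14 (R : Num s b t k) (u : ℝ) (hu : u ^ 2 < 1) :
    2 * u * (b / 2 - k - 3 / 200) - 2 * u ^ 2 ≤ (1 - u ^ 2) * ph (b / 2 - k - 3 / 200) :=
  lo hu (by linear_combination R.k4 + (1 / 2) * R.b1) (by linear_combination R.k3 + (1 / 2) * R.b2)

theorem Num.lo15 (R : Num s b t k) (u : ℝ) (hu : u ^ 2 < 1) :
    2 * u * (8 / 25 * s + k - b / 2 + 3 / 200) - 2 * u ^ 2 ≤
      (1 - u ^ 2) * ph (8 / 25 * s + k - b / 2 + 3 / 200) :=
  lo hu (by linear_combination (8 / 25) * R.s1 + R.k3 + (1 / 2) * R.b2) (by linear_combination (8 / 25) * R.s2 + R.k4 + (1 / 2) * R.b1)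

theorem Num.lo16 (R : Num s b t k) (u : ℝ) (hu : u ^ 2 < 1) :
    2 * u * (s + k - b / 2 + 3 / 200) - 2 * u ^ 2 ≤
      (1 - u ^ 2) * ph (s + k - b / 2 + 3 / 200) :=
  lo hu (by linear_combination R.s1 + R.k3 + (1 / 2) * R.b2) (by linear_combination R.s2 + R.k4 + (1 / 2) * R.b1)

theorem Num.lo17 (R : Num s b t k) (u : ℝ) (hu : u ^ 2 < 1) :
    2 * u * (17 / 25 * s + k - b / 2 + 3 / 200) - 2 * u ^ 2 ≤
      (1 - u ^ 2) * ph (17 / 25 * s + k - b / 2 + 3 / 200) :=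
  lo hu (by linear_combination (17 / 25) * R.s1 + R.k3 + (1 / 2) * R.b2) (by linear_combination (17 / 25) * R.s2 + R.k4 + (1 / 2) * R.b1)

end

/-- Lower bounds for the gains `G2` and `G3` of the two bodies, real disc. -/
structure Reg (s b t k G2 G3 : ℝ) : Prop extends Num s b t k where
  g2 : 0 ≤ G2
  g3 : 0 ≤ G3
  k22 : 0 ≤ s - t - b / 2 - k → -ph b + ph (s - t - b / 2 - k) + ph (s - t + b / 2 - k) -
    2 * ph (8 / 25 * s) ≤ G2
  k12 : 0 ≤ s - t - b / 2 - k → 0 ≤ 17 / 25 * s - t + b / 2 - k →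
    -ph b + ph (17 / 25 * s - t - b / 2 - k) + ph (s - t + b / 2 - k) - ph (8 / 25 * s) ≤ G2
  k13 : 0 ≤ 17 / 25 * s - t + b / 2 - k →
    -ph b + ph (17 / 25 * s - t - b / 2 - k) + ph (h0 - t + b / 2 - k) - ph (8 / 25 * s) +
      ph s - 1 / 2 ≤ G2
  k23 : 0 ≤ s - t + b / 2 - k →
    -ph b + ph (s - t - b / 2 - k) + ph (h0 - t + b / 2 - k) - 2 * ph (8 / 25 * s) +
      ph s - 1 / 2 ≤ G2
  k03 : 0 ≤ -t + b / 2 - k → -ph b + ph (t + b / 2 + k) + ph (h0 - t + b / 2 - k) - 1 / 2 ≤ G2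
  l11 : 0 ≤ 8 / 25 * s - t - b / 2 - k →
    -ph b + ph (8 / 25 * s - t - b / 2 - k) + ph (8 / 25 * s - t + b / 2 - k) ≤ G3
  l10 : 0 ≤ 8 / 25 * s - t + b / 2 - k → 0 ≤ s - t - b / 2 - k →
    -ph b + ph (8 / 25 * s - t - b / 2 - k) + ph (s - t + b / 2 - k) - ph s +
      ph (8 / 25 * s) ≤ G3
  l20 : 0 ≤ -t + b / 2 - k → 0 ≤ s - t - b / 2 - k →
    -ph b + ph (t + b / 2 + k) + ph (s - t + b / 2 - k) - ph s ≤ G3

/-- Lower bounds for the gains `G2` and `G3` of the two bodies, higher upper disc. -/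
structure RegH (s b t k G2 G3 : ℝ) : Prop extends Num s b t k where
  g2 : 0 ≤ G2
  g3 : 0 ≤ G3
  k12 : (1 - ph b) / 2 - h0 * b - ph (8 / 25 * s) + ph (s - t + b / 2 - k) ≤ G2 ∨
    -ph (8 / 25 * s) + ph (s - t + b / 2 - k) + ph (8 / 25 * s + k - b / 2 + 3 / 200) -
      ph (s - t + 3 / 200) ≤ G2
  k13 : (1 - ph b) / 2 - h0 * b - 1 / 2 + ph s - ph (8 / 25 * s) + ph (h0 - t + b / 2 - k) ≤ G2 ∨
    -(1 / 2) + ph s - ph (8 / 25 * s) + ph (h0 - t + b / 2 - k) +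
      ph (8 / 25 * s + k - b / 2 + 3 / 200) - ph (s - t + 3 / 200) ≤ G2
  l20 : (1 - ph b) / 2 - h0 * b - ph s + ph (s - t + b / 2 - k) ≤ G3 ∨
    -ph s + ph (s - t + b / 2 - k) + ph (s + k - b / 2 + 3 / 200) - ph (s - t + 3 / 200) ≤ G3

end Pool.Agent.Strip051.FourC.LA
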