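import Pool.Agent.Strip051.FourC.BoxHigh1
import Pool.Agent.Strip051.FourC.BoxHigh2

set_option linter.unusedVariables false

/-! # A higher upper disc, the subdivision -/

namespace Pool.Agent.Strip051.FourC.LA

open Pool.Agent.StripNear Pool.Agent.StripSquare Pool.Agent.Strip051
open Pool.Agent.Strip051.Four.Low (ph)

theorem g223 {s b t k G2 G3 : ℝ} (R : RegH s b t k G2 G3) (hT : t ≤ 284 / 1000 * s) (hb : s - t + 3 / 200 ≤ b) (hy : s - t ≤ 1 / 2)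
    (s1 : 527 / 1000 ≤ s) (s2 : s ≤ 53 / 100)
    (b1 : 4157 / 10000 ≤ b) (b2 : b ≤ 4213 / 10000) (t1 : 113 / 1000 ≤ t) (t2 : t ≤ 153 / 1250) :
    4 * ph (s - t) - 2 * ph s + 13 / 1000 ≤ G2 + G3 := by
  rcases le_total t (1177 / 10000) with h | h
  · exact g224 R hT hb hy s1 s2 b1 b2 t1 h
  · exact g225 R hT hb hy s1 s2 b1 b2 h t2

theorem g221 {s b t k G2 G3 : ℝ} (R : RegH s b t k G2 G3) (hT : t ≤ 284 / 1000 * s) (hb : s - t + 3 / 200 ≤ b) (hy : s - t ≤ 1 / 2)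
    (s1 : 131 / 250 ≤ s) (s2 : s ≤ 53 / 100)
    (b1 : 4157 / 10000 ≤ b) (b2 : b ≤ 4213 / 10000) (t1 : 113 / 1000 ≤ t) (t2 : t ≤ 153 / 1250) :
    4 * ph (s - t) - 2 * ph s + 13 / 1000 ≤ G2 + G3 := by
  rcases le_total s (527 / 1000) with h | h
  · exact g222 R hT hb hy s1 h b1 b2 t1 t2
  · exact g223 R hT hb hy h s2 b1 b2 t1 t2

theorem g219 {s b t k G2 G3 : ℝ} (R : RegH s b t k G2 G3) (hT : t ≤ 284 / 1000 * s) (hb : s - t + 3 / 200 ≤ b) (hy : s - t ≤ 1 / 2)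
    (s1 : 131 / 250 ≤ s) (s2 : s ≤ 53 / 100)
    (b1 : 41 / 100 ≤ b) (b2 : b ≤ 4213 / 10000) (t1 : 113 / 1000 ≤ t) (t2 : t ≤ 153 / 1250) :
    4 * ph (s - t) - 2 * ph s + 13 / 1000 ≤ G2 + G3 := by
  rcases le_total b (4157 / 10000) with h | h
  · exact g220 R hT hb hy s1 s2 b1 h t1 t2
  · exact g221 R hT hb hy s1 s2 h b2 t1 t2

theorem g218 {s b t k G2 G3 : ℝ} (R : RegH s b t k G2 G3) (hT : t ≤ 284 / 1000 * s) (hb : s - t + 3 / 200 ≤ b) (hy : s - t ≤ 1 / 2)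
    (s1 : 131 / 250 ≤ s) (s2 : s ≤ 53 / 100)
    (b1 : 41 / 100 ≤ b) (b2 : b ≤ 173 / 400) (t1 : 113 / 1000 ≤ t) (t2 : t ≤ 153 / 1250) :
    4 * ph (s - t) - 2 * ph s + 13 / 1000 ≤ G2 + G3 := by
  rcases le_total b (4213 / 10000) with h | h
  · exact g219 R hT hb hy s1 s2 b1 h t1 t2
  · exact g226 R hT hb hy s1 s2 h b2 t1 t2

theorem g216 {s b t k G2 G3 : ℝ} (R : RegH s b t k G2 G3) (hT : t ≤ 284 / 1000 * s) (hb : s - t + 3 / 200 ≤ b) (hy : s - t ≤ 1 / 2)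
    (s1 : 5179 / 10000 ≤ s) (s2 : s ≤ 53 / 100)
    (b1 : 41 / 100 ≤ b) (b2 : b ≤ 173 / 400) (t1 : 113 / 1000 ≤ t) (t2 : t ≤ 153 / 1250) :
    4 * ph (s - t) - 2 * ph s + 13 / 1000 ≤ G2 + G3 := by
  rcases le_total s (131 / 250) with h | h
  · exact g217 R hT hb hy s1 h b1 b2 t1 t2
  · exact g218 R hT hb hy h s2 b1 b2 t1 t2

theorem g215 {s b t k G2 G3 : ℝ} (R : RegH s b t k G2 G3) (hT : t ≤ 284 / 1000 * s) (hb : s - t + 3 / 200 ≤ b) (hy : s - t ≤ 1 / 2)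
    (s1 : 5179 / 10000 ≤ s) (s2 : s ≤ 53 / 100)
    (b1 : 41 / 100 ≤ b) (b2 : b ≤ 173 / 400) (t1 : 113 / 1000 ≤ t) (t2 : t ≤ 659 / 5000) :
    4 * ph (s - t) - 2 * ph s + 13 / 1000 ≤ G2 + G3 := by
  rcases le_total t (153 / 1250) with h | h
  · exact g216 R hT hb hy s1 s2 b1 b2 t1 h
  · exact g227 R hT hb hy s1 s2 b1 b2 h t2

theorem g214 {s b t k G2 G3 : ℝ} (R : RegH s b t k G2 G3) (hT : t ≤ 284 / 1000 * s) (hb : s - t + 3 / 200 ≤ b) (hy : s - t ≤ 1 / 2)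
    (s1 : 5179 / 10000 ≤ s) (s2 : s ≤ 53 / 100)
    (b1 : 41 / 100 ≤ b) (b2 : b ≤ 91 / 200) (t1 : 113 / 1000 ≤ t) (t2 : t ≤ 659 / 5000) :
    4 * ph (s - t) - 2 * ph s + 13 / 1000 ≤ G2 + G3 := by
  rcases le_total b (173 / 400) with h | h
  · exact g215 R hT hb hy s1 s2 b1 h t1 t2
  · exact g228 R hT hb hy s1 s2 h b2 t1 t2

theorem g212 {s b t k G2 G3 : ℝ} (R : RegH s b t k G2 G3) (hT : t ≤ 284 / 1000 * s) (hb : s - t + 3 / 200 ≤ b) (hy : s - t ≤ 1 / 2)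
    (s1 : 2529 / 5000 ≤ s) (s2 : s ≤ 53 / 100)
    (b1 : 41 / 100 ≤ b) (b2 : b ≤ 91 / 200) (t1 : 113 / 1000 ≤ t) (t2 : t ≤ 659 / 5000) :
    4 * ph (s - t) - 2 * ph s + 13 / 1000 ≤ G2 + G3 := by
  rcases le_total s (5179 / 10000) with h | h
  · exact g213 R hT hb hy s1 h b1 b2 t1 t2
  · exact g214 R hT hb hy h s2 b1 b2 t1 t2

theorem g211 {s b t k G2 G3 : ℝ} (R : RegH s b t k G2 G3) (hT : t ≤ 284 / 1000 * s) (hb : s - t + 3 / 200 ≤ b) (hy : s - t ≤ 1 / 2)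
    (s1 : 2529 / 5000 ≤ s) (s2 : s ≤ 53 / 100)
    (b1 : 41 / 100 ≤ b) (b2 : b ≤ 1 / 2) (t1 : 113 / 1000 ≤ t) (t2 : t ≤ 659 / 5000) :
    4 * ph (s - t) - 2 * ph s + 13 / 1000 ≤ G2 + G3 := by
  rcases le_total b (91 / 200) with h | h
  · exact g212 R hT hb hy s1 s2 b1 h t1 t2
  · exact g229 R hT hb hy s1 s2 h b2 t1 t2

theorem g210 {s b t k G2 G3 : ℝ} (R : RegH s b t k G2 G3) (hT : t ≤ 284 / 1000 * s) (hb : s - t + 3 / 200 ≤ b) (hy : s - t ≤ 1 / 2)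
    (s1 : 2529 / 5000 ≤ s) (s2 : s ≤ 53 / 100)
    (b1 : 41 / 100 ≤ b) (b2 : b ≤ 1 / 2) (t1 : 113 / 1000 ≤ t) (t2 : t ≤ 753 / 5000) :
    4 * ph (s - t) - 2 * ph s + 13 / 1000 ≤ G2 + G3 := by
  rcases le_total t (659 / 5000) with h | h
  · exact g211 R hT hb hy s1 s2 b1 b2 t1 h
  · exact g230 R hT hb hy s1 s2 b1 b2 h t2

theorem g208 {s b t k G2 G3 : ℝ} (R : RegH s b t k G2 G3) (hT : t ≤ 284 / 1000 * s) (hb : s - t + 3 / 200 ≤ b) (hy : s - t ≤ 1 / 2)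
    (s1 : 963 / 2000 ≤ s) (s2 : s ≤ 53 / 100)
    (b1 : 41 / 100 ≤ b) (b2 : b ≤ 1 / 2) (t1 : 113 / 1000 ≤ t) (t2 : t ≤ 753 / 5000) :
    4 * ph (s - t) - 2 * ph s + 13 / 1000 ≤ G2 + G3 := by
  rcases le_total s (2529 / 5000) with h | h
  · exact g209 R hT hb hy s1 h b1 b2 t1 t2
  · exact g210 R hT hb hy h s2 b1 b2 t1 t2

theorem g205 {s b t k G2 G3 : ℝ} (R : RegH s b t k G2 G3) (hT : t ≤ 284 / 1000 * s) (hb : s - t + 3 / 200 ≤ b) (hy : s - t ≤ 1 / 2)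
    (s1 : 5179 / 10000 ≤ s) (s2 : s ≤ 53 / 100)
    (b1 : 91 / 200 ≤ b) (b2 : b ≤ 1 / 2) (t1 : 753 / 10000 ≤ t) (t2 : t ≤ 113 / 1000) :
    4 * ph (s - t) - 2 * ph s + 13 / 1000 ≤ G2 + G3 := by
  rcases le_total t (471 / 5000) with h | h
  · exact g206 R hT hb hy s1 s2 b1 b2 t1 h
  · exact g207 R hT hb hy s1 s2 b1 b2 h t2

theorem g200 {s b t k G2 G3 : ℝ} (R : RegH s b t k G2 G3) (hT : t ≤ 284 / 1000 * s) (hb : s - t + 3 / 200 ≤ b) (hy : s - t ≤ 1 / 2)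
    (s1 : 527 / 1000 ≤ s) (s2 : s ≤ 53 / 100)
    (b1 : 173 / 400 ≤ b) (b2 : b ≤ 2219 / 5000) (t1 : 471 / 5000 ≤ t) (t2 : t ≤ 259 / 2500) :
    4 * ph (s - t) - 2 * ph s + 13 / 1000 ≤ G2 + G3 := by
  rcases le_total b (2191 / 5000) with h | h
  · exact g201 R hT hb hy s1 s2 b1 h t1 t2
  · exact g202 R hT hb hy s1 s2 h b2 t1 t2

theorem g198 {s b t k G2 G3 : ℝ} (R : RegH s b t k G2 G3) (hT : t ≤ 284 / 1000 * s) (hb : s - t + 3 / 200 ≤ b) (hy : s - t ≤ 1 / 2)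
    (s1 : 131 / 250 ≤ s) (s2 : s ≤ 53 / 100)
    (b1 : 173 / 400 ≤ b) (b2 : b ≤ 2219 / 5000) (t1 : 471 / 5000 ≤ t) (t2 : t ≤ 259 / 2500) :
    4 * ph (s - t) - 2 * ph s + 13 / 1000 ≤ G2 + G3 := by
  rcases le_total s (527 / 1000) with h | h
  · exact g199 R hT hb hy s1 h b1 b2 t1 t2
  · exact g200 R hT hb hy h s2 b1 b2 t1 t2

theorem g197 {s b t k G2 G3 : ℝ} (R : RegH s b t k G2 G3) (hT : t ≤ 284 / 1000 * s) (hb : s - t + 3 / 200 ≤ b) (hy : s - t ≤ 1 / 2)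
    (s1 : 131 / 250 ≤ s) (s2 : s ≤ 53 / 100)
    (b1 : 173 / 400 ≤ b) (b2 : b ≤ 91 / 200) (t1 : 471 / 5000 ≤ t) (t2 : t ≤ 259 / 2500) :
    4 * ph (s - t) - 2 * ph s + 13 / 1000 ≤ G2 + G3 := by
  rcases le_total b (2219 / 5000) with h | h
  · exact g198 R hT hb hy s1 s2 b1 h t1 t2
  · exact g203 R hT hb hy s1 s2 h b2 t1 t2

theorem g196 {s b t k G2 G3 : ℝ} (R : RegH s b t k G2 G3) (hT : t ≤ 284 / 1000 * s) (hb : s - t + 3 / 200 ≤ b) (hy : s - t ≤ 1 / 2)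
    (s1 : 131 / 250 ≤ s) (s2 : s ≤ 53 / 100)
    (b1 : 173 / 400 ≤ b) (b2 : b ≤ 91 / 200) (t1 : 471 / 5000 ≤ t) (t2 : t ≤ 113 / 1000) :
    4 * ph (s - t) - 2 * ph s + 13 / 1000 ≤ G2 + G3 := by
  rcases le_total t (259 / 2500) with h | h
  · exact g197 R hT hb hy s1 s2 b1 b2 t1 h
  · exact g204 R hT hb hy s1 s2 b1 b2 h t2

theorem g194 {s b t k G2 G3 : ℝ} (R : RegH s b t k G2 G3) (hT : t ≤ 284 / 1000 * s) (hb : s - t + 3 / 200 ≤ b) (hy : s - t ≤ 1 / 2)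
    (s1 : 5179 / 10000 ≤ s) (s2 : s ≤ 53 / 100)
    (b1 : 173 / 400 ≤ b) (b2 : b ≤ 91 / 200) (t1 : 471 / 5000 ≤ t) (t2 : t ≤ 113 / 1000) :
    4 * ph (s - t) - 2 * ph s + 13 / 1000 ≤ G2 + G3 := by
  rcases le_total s (131 / 250) with h | h
  · exact g195 R hT hb hy s1 h b1 b2 t1 t2
  · exact g196 R hT hb hy h s2 b1 b2 t1 t2

theorem g191 {s b t k G2 G3 : ℝ} (R : RegH s b t k G2 G3) (hT : t ≤ 284 / 1000 * s) (hb : s - t + 3 / 200 ≤ b) (hy : s - t ≤ 1 / 2)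
    (s1 : 527 / 1000 ≤ s) (s2 : s ≤ 53 / 100)
    (b1 : 4213 / 10000 ≤ b) (b2 : b ≤ 173 / 400) (t1 : 1083 / 10000 ≤ t) (t2 : t ≤ 113 / 1000) :
    4 * ph (s - t) - 2 * ph s + 13 / 1000 ≤ G2 + G3 := by
  rcases le_total b (4269 / 10000) with h | h
  · exact g192 R hT hb hy s1 s2 b1 h t1 t2
  · exact g193 R hT hb hy s1 s2 h b2 t1 t2

theorem g189 {s b t k G2 G3 : ℝ} (R : RegH s b t k G2 G3) (hT : t ≤ 284 / 1000 * s) (hb : s - t + 3 / 200 ≤ b) (hy : s - t ≤ 1 / 2)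
    (s1 : 527 / 1000 ≤ s) (s2 : s ≤ 53 / 100)
    (b1 : 4213 / 10000 ≤ b) (b2 : b ≤ 173 / 400) (t1 : 259 / 2500 ≤ t) (t2 : t ≤ 113 / 1000) :
    4 * ph (s - t) - 2 * ph s + 13 / 1000 ≤ G2 + G3 := by
  rcases le_total t (1083 / 10000) with h | h
  · exact g190 R hT hb hy s1 s2 b1 b2 t1 h
  · exact g191 R hT hb hy s1 s2 b1 b2 h t2

theorem g187 {s b t k G2 G3 : ℝ} (R : RegH s b t k G2 G3) (hT : t ≤ 284 / 1000 * s) (hb : s - t + 3 / 200 ≤ b) (hy : s - t ≤ 1 / 2)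
    (s1 : 131 / 250 ≤ s) (s2 : s ≤ 53 / 100)
    (b1 : 4213 / 10000 ≤ b) (b2 : b ≤ 173 / 400) (t1 : 259 / 2500 ≤ t) (t2 : t ≤ 113 / 1000) :
    4 * ph (s - t) - 2 * ph s + 13 / 1000 ≤ G2 + G3 := by
  rcases le_total s (527 / 1000) with h | h
  · exact g188 R hT hb hy s1 h b1 b2 t1 t2
  · exact g189 R hT hb hy h s2 b1 b2 t1 t2

theorem g185 {s b t k G2 G3 : ℝ} (R : RegH s b t k G2 G3) (hT : t ≤ 284 / 1000 * s) (hb : s - t + 3 / 200 ≤ b) (hy : s - t ≤ 1 / 2)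
    (s1 : 131 / 250 ≤ s) (s2 : s ≤ 53 / 100)
    (b1 : 4213 / 10000 ≤ b) (b2 : b ≤ 173 / 400) (t1 : 471 / 5000 ≤ t) (t2 : t ≤ 113 / 1000) :
    4 * ph (s - t) - 2 * ph s + 13 / 1000 ≤ G2 + G3 := by
  rcases le_total t (259 / 2500) with h | h
  · exact g186 R hT hb hy s1 s2 b1 b2 t1 h
  · exact g187 R hT hb hy s1 s2 b1 b2 h t2

theorem g183 {s b t k G2 G3 : ℝ} (R : RegH s b t k G2 G3) (hT : t ≤ 284 / 1000 * s) (hb : s - t + 3 / 200 ≤ b) (hy : s - t ≤ 1 / 2)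
    (s1 : 131 / 250 ≤ s) (s2 : s ≤ 53 / 100)
    (b1 : 41 / 100 ≤ b) (b2 : b ≤ 173 / 400) (t1 : 471 / 5000 ≤ t) (t2 : t ≤ 113 / 1000) :
    4 * ph (s - t) - 2 * ph s + 13 / 1000 ≤ G2 + G3 := by
  rcases le_total b (4213 / 10000) with h | h
  · exact g184 R hT hb hy s1 s2 b1 h t1 t2
  · exact g185 R hT hb hy s1 s2 h b2 t1 t2

theorem g180 {s b t k G2 G3 : ℝ} (R : RegH s b t k G2 G3) (hT : t ≤ 284 / 1000 * s) (hb : s - t + 3 / 200 ≤ b) (hy : s - t ≤ 1 / 2)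
    (s1 : 5179 / 10000 ≤ s) (s2 : s ≤ 131 / 250)
    (b1 : 4213 / 10000 ≤ b) (b2 : b ≤ 173 / 400) (t1 : 471 / 5000 ≤ t) (t2 : t ≤ 113 / 1000) :
    4 * ph (s - t) - 2 * ph s + 13 / 1000 ≤ G2 + G3 := by
  rcases le_total t (259 / 2500) with h | h
  · exact g181 R hT hb hy s1 s2 b1 b2 t1 h
  · exact g182 R hT hb hy s1 s2 b1 b2 h t2

theorem g177 {s b t k G2 G3 : ℝ} (R : RegH s b t k G2 G3) (hT : t ≤ 284 / 1000 * s) (hb : s - t + 3 / 200 ≤ b) (hy : s - t ≤ 1 / 2)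
    (s1 : 5179 / 10000 ≤ s) (s2 : s ≤ 131 / 250)
    (b1 : 41 / 100 ≤ b) (b2 : b ≤ 4213 / 10000) (t1 : 259 / 2500 ≤ t) (t2 : t ≤ 113 / 1000) :
    4 * ph (s - t) - 2 * ph s + 13 / 1000 ≤ G2 + G3 := by
  rcases le_total s (521 / 1000) with h | h
  · exact g178 R hT hb hy s1 h b1 b2 t1 t2
  · exact g179 R hT hb hy h s2 b1 b2 t1 t2

theorem g175 {s b t k G2 G3 : ℝ} (R : RegH s b t k G2 G3) (hT : t ≤ 284 / 1000 * s) (hb : s - t + 3 / 200 ≤ b) (hy : s - t ≤ 1 / 2)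
    (s1 : 5179 / 10000 ≤ s) (s2 : s ≤ 131 / 250)
    (b1 : 41 / 100 ≤ b) (b2 : b ≤ 4213 / 10000) (t1 : 471 / 5000 ≤ t) (t2 : t ≤ 113 / 1000) :
    4 * ph (s - t) - 2 * ph s + 13 / 1000 ≤ G2 + G3 := by
  rcases le_total t (259 / 2500) with h | h
  · exact g176 R hT hb hy s1 s2 b1 b2 t1 h
  · exact g177 R hT hb hy s1 s2 b1 b2 h t2

theorem g174 {s b t k G2 G3 : ℝ} (R : RegH s b t k G2 G3) (hT : t ≤ 284 / 1000 * s) (hb : s - t + 3 / 200 ≤ b) (hy : s - t ≤ 1 / 2)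
    (s1 : 5179 / 10000 ≤ s) (s2 : s ≤ 131 / 250)
    (b1 : 41 / 100 ≤ b) (b2 : b ≤ 173 / 400) (t1 : 471 / 5000 ≤ t) (t2 : t ≤ 113 / 1000) :
    4 * ph (s - t) - 2 * ph s + 13 / 1000 ≤ G2 + G3 := by
  rcases le_total b (4213 / 10000) with h | h
  · exact g175 R hT hb hy s1 s2 b1 h t1 t2
  · exact g180 R hT hb hy s1 s2 h b2 t1 t2

theorem g173 {s b t k G2 G3 : ℝ} (R : RegH s b t k G2 G3) (hT : t ≤ 284 / 1000 * s) (hb : s - t + 3 / 200 ≤ b) (hy : s - t ≤ 1 / 2)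
    (s1 : 5179 / 10000 ≤ s) (s2 : s ≤ 53 / 100)
    (b1 : 41 / 100 ≤ b) (b2 : b ≤ 173 / 400) (t1 : 471 / 5000 ≤ t) (t2 : t ≤ 113 / 1000) :
    4 * ph (s - t) - 2 * ph s + 13 / 1000 ≤ G2 + G3 := by
  rcases le_total s (131 / 250) with h | h
  · exact g174 R hT hb hy s1 h b1 b2 t1 t2
  · exact g183 R hT hb hy h s2 b1 b2 t1 t2

theorem g172 {s b t k G2 G3 : ℝ} (R : RegH s b t k G2 G3) (hT : t ≤ 284 / 1000 * s) (hb : s - t + 3 / 200 ≤ b) (hy : s - t ≤ 1 / 2)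
    (s1 : 5179 / 10000 ≤ s) (s2 : s ≤ 53 / 100)
    (b1 : 41 / 100 ≤ b) (b2 : b ≤ 91 / 200) (t1 : 471 / 5000 ≤ t) (t2 : t ≤ 113 / 1000) :
    4 * ph (s - t) - 2 * ph s + 13 / 1000 ≤ G2 + G3 := by
  rcases le_total b (173 / 400) with h | h
  · exact g173 R hT hb hy s1 s2 b1 h t1 t2
  · exact g194 R hT hb hy s1 s2 h b2 t1 t2

theorem g169 {s b t k G2 G3 : ℝ} (R : RegH s b t k G2 G3) (hT : t ≤ 284 / 1000 * s) (hb : s - t + 3 / 200 ≤ b) (hy : s - t ≤ 1 / 2)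
    (s1 : 527 / 1000 ≤ s) (s2 : s ≤ 53 / 100)
    (b1 : 2219 / 5000 ≤ b) (b2 : b ≤ 91 / 200) (t1 : 753 / 10000 ≤ t) (t2 : t ≤ 471 / 5000) :
    4 * ph (s - t) - 2 * ph s + 13 / 1000 ≤ G2 + G3 := by
  rcases le_total t (53 / 625) with h | h
  · exact g170 R hT hb hy s1 s2 b1 b2 t1 h
  · exact g171 R hT hb hy s1 s2 b1 b2 h t2

theorem g167 {s b t k G2 G3 : ℝ} (R : RegH s b t k G2 G3) (hT : t ≤ 284 / 1000 * s) (hb : s - t + 3 / 200 ≤ b) (hy : s - t ≤ 1 / 2)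
    (s1 : 131 / 250 ≤ s) (s2 : s ≤ 53 / 100)
    (b1 : 2219 / 5000 ≤ b) (b2 : b ≤ 91 / 200) (t1 : 753 / 10000 ≤ t) (t2 : t ≤ 471 / 5000) :
    4 * ph (s - t) - 2 * ph s + 13 / 1000 ≤ G2 + G3 := by
  rcases le_total s (527 / 1000) with h | h
  · exact g168 R hT hb hy s1 h b1 b2 t1 t2
  · exact g169 R hT hb hy h s2 b1 b2 t1 t2

theorem g165 {s b t k G2 G3 : ℝ} (R : RegH s b t k G2 G3) (hT : t ≤ 284 / 1000 * s) (hb : s - t + 3 / 200 ≤ b) (hy : s - t ≤ 1 / 2)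
    (s1 : 131 / 250 ≤ s) (s2 : s ≤ 53 / 100)
    (b1 : 173 / 400 ≤ b) (b2 : b ≤ 91 / 200) (t1 : 753 / 10000 ≤ t) (t2 : t ≤ 471 / 5000) :
    4 * ph (s - t) - 2 * ph s + 13 / 1000 ≤ G2 + G3 := by
  rcases le_total b (2219 / 5000) with h | h
  · exact g166 R hT hb hy s1 s2 b1 h t1 t2
  · exact g167 R hT hb hy s1 s2 h b2 t1 t2

theorem g163 {s b t k G2 G3 : ℝ} (R : RegH s b t k G2 G3) (hT : t ≤ 284 / 1000 * s) (hb : s - t + 3 / 200 ≤ b) (hy : s - t ≤ 1 / 2)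
    (s1 : 5179 / 10000 ≤ s) (s2 : s ≤ 53 / 100)
    (b1 : 173 / 400 ≤ b) (b2 : b ≤ 91 / 200) (t1 : 753 / 10000 ≤ t) (t2 : t ≤ 471 / 5000) :
    4 * ph (s - t) - 2 * ph s + 13 / 1000 ≤ G2 + G3 := by
  rcases le_total s (131 / 250) with h | h
  · exact g164 R hT hb hy s1 h b1 b2 t1 t2
  · exact g165 R hT hb hy h s2 b1 b2 t1 t2

theorem g161 {s b t k G2 G3 : ℝ} (R : RegH s b t k G2 G3) (hT : t ≤ 284 / 1000 * s) (hb : s - t + 3 / 200 ≤ b) (hy : s - t ≤ 1 / 2)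
    (s1 : 5179 / 10000 ≤ s) (s2 : s ≤ 53 / 100)
    (b1 : 41 / 100 ≤ b) (b2 : b ≤ 91 / 200) (t1 : 753 / 10000 ≤ t) (t2 : t ≤ 471 / 5000) :
    4 * ph (s - t) - 2 * ph s + 13 / 1000 ≤ G2 + G3 := by
  rcases le_total b (173 / 400) with h | h
  · exact g162 R hT hb hy s1 s2 b1 h t1 t2
  · exact g163 R hT hb hy s1 s2 h b2 t1 t2

theorem g160 {s b t k G2 G3 : ℝ} (R : RegH s b t k G2 G3) (hT : t ≤ 284 / 1000 * s) (hb : s - t + 3 / 200 ≤ b) (hy : s - t ≤ 1 / 2)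
    (s1 : 5179 / 10000 ≤ s) (s2 : s ≤ 53 / 100)
    (b1 : 41 / 100 ≤ b) (b2 : b ≤ 91 / 200) (t1 : 753 / 10000 ≤ t) (t2 : t ≤ 113 / 1000) :
    4 * ph (s - t) - 2 * ph s + 13 / 1000 ≤ G2 + G3 := by
  rcases le_total t (471 / 5000) with h | h
  · exact g161 R hT hb hy s1 s2 b1 b2 t1 h
  · exact g172 R hT hb hy s1 s2 b1 b2 h t2

theorem g159 {s b t k G2 G3 : ℝ} (R : RegH s b t k G2 G3) (hT : t ≤ 284 / 1000 * s) (hb : s - t + 3 / 200 ≤ b) (hy : s - t ≤ 1 / 2)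
    (s1 : 5179 / 10000 ≤ s) (s2 : s ≤ 53 / 100)
    (b1 : 41 / 100 ≤ b) (b2 : b ≤ 1 / 2) (t1 : 753 / 10000 ≤ t) (t2 : t ≤ 113 / 1000) :
    4 * ph (s - t) - 2 * ph s + 13 / 1000 ≤ G2 + G3 := by
  rcases le_total b (91 / 200) with h | h
  · exact g160 R hT hb hy s1 s2 b1 h t1 t2
  · exact g205 R hT hb hy s1 s2 h b2 t1 t2

theorem g153 {s b t k G2 G3 : ℝ} (R : RegH s b t k G2 G3) (hT : t ≤ 284 / 1000 * s) (hb : s - t + 3 / 200 ≤ b) (hy : s - t ≤ 1 / 2)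
    (s1 : 2529 / 5000 ≤ s) (s2 : s ≤ 5179 / 10000)
    (b1 : 41 / 100 ≤ b) (b2 : b ≤ 173 / 400) (t1 : 753 / 10000 ≤ t) (t2 : t ≤ 471 / 5000) :
    4 * ph (s - t) - 2 * ph s + 13 / 1000 ≤ G2 + G3 := by
  rcases le_total s (5119 / 10000) with h | h
  · exact g154 R hT hb hy s1 h b1 b2 t1 t2
  · exact g155 R hT hb hy h s2 b1 b2 t1 t2

theorem g152 {s b t k G2 G3 : ℝ} (R : RegH s b t k G2 G3) (hT : t ≤ 284 / 1000 * s) (hb : s - t + 3 / 200 ≤ b) (hy : s - t ≤ 1 / 2)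
    (s1 : 2529 / 5000 ≤ s) (s2 : s ≤ 5179 / 10000)
    (b1 : 41 / 100 ≤ b) (b2 : b ≤ 173 / 400) (t1 : 753 / 10000 ≤ t) (t2 : t ≤ 113 / 1000) :
    4 * ph (s - t) - 2 * ph s + 13 / 1000 ≤ G2 + G3 := by
  rcases le_total t (471 / 5000) with h | h
  · exact g153 R hT hb hy s1 s2 b1 b2 t1 h
  · exact g156 R hT hb hy s1 s2 b1 b2 h t2

theorem g151 {s b t k G2 G3 : ℝ} (R : RegH s b t k G2 G3) (hT : t ≤ 284 / 1000 * s) (hb : s - t + 3 / 200 ≤ b) (hy : s - t ≤ 1 / 2)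
    (s1 : 2529 / 5000 ≤ s) (s2 : s ≤ 5179 / 10000)
    (b1 : 41 / 100 ≤ b) (b2 : b ≤ 91 / 200) (t1 : 753 / 10000 ≤ t) (t2 : t ≤ 113 / 1000) :
    4 * ph (s - t) - 2 * ph s + 13 / 1000 ≤ G2 + G3 := by
  rcases le_total b (173 / 400) with h | h
  · exact g152 R hT hb hy s1 s2 b1 h t1 t2
  · exact g157 R hT hb hy s1 s2 h b2 t1 t2

theorem g150 {s b t k G2 G3 : ℝ} (R : RegH s b t k G2 G3) (hT : t ≤ 284 / 1000 * s) (hb : s - t + 3 / 200 ≤ b) (hy : s - t ≤ 1 / 2)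
    (s1 : 2529 / 5000 ≤ s) (s2 : s ≤ 5179 / 10000)
    (b1 : 41 / 100 ≤ b) (b2 : b ≤ 1 / 2) (t1 : 753 / 10000 ≤ t) (t2 : t ≤ 113 / 1000) :
    4 * ph (s - t) - 2 * ph s + 13 / 1000 ≤ G2 + G3 := by
  rcases le_total b (91 / 200) with h | h
  · exact g151 R hT hb hy s1 s2 b1 h t1 t2
  · exact g158 R hT hb hy s1 s2 h b2 t1 t2

theorem g149 {s b t k G2 G3 : ℝ} (R : RegH s b t k G2 G3) (hT : t ≤ 284 / 1000 * s) (hb : s - t + 3 / 200 ≤ b) (hy : s - t ≤ 1 / 2)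
    (s1 : 2529 / 5000 ≤ s) (s2 : s ≤ 53 / 100)
    (b1 : 41 / 100 ≤ b) (b2 : b ≤ 1 / 2) (t1 : 753 / 10000 ≤ t) (t2 : t ≤ 113 / 1000) :
    4 * ph (s - t) - 2 * ph s + 13 / 1000 ≤ G2 + G3 := by
  rcases le_total s (5179 / 10000) with h | h
  · exact g150 R hT hb hy s1 h b1 b2 t1 t2
  · exact g159 R hT hb hy h s2 b1 b2 t1 t2

theorem g147 {s b t k G2 G3 : ℝ} (R : RegH s b t k G2 G3) (hT : t ≤ 284 / 1000 * s) (hb : s - t + 3 / 200 ≤ b) (hy : s - t ≤ 1 / 2)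
    (s1 : 963 / 2000 ≤ s) (s2 : s ≤ 53 / 100)
    (b1 : 41 / 100 ≤ b) (b2 : b ≤ 1 / 2) (t1 : 753 / 10000 ≤ t) (t2 : t ≤ 113 / 1000) :
    4 * ph (s - t) - 2 * ph s + 13 / 1000 ≤ G2 + G3 := by
  rcases le_total s (2529 / 5000) with h | h
  · exact g148 R hT hb hy s1 h b1 b2 t1 t2
  · exact g149 R hT hb hy h s2 b1 b2 t1 t2

theorem g146 {s b t k G2 G3 : ℝ} (R : RegH s b t k G2 G3) (hT : t ≤ 284 / 1000 * s) (hb : s - t + 3 / 200 ≤ b) (hy : s - t ≤ 1 / 2)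
    (s1 : 963 / 2000 ≤ s) (s2 : s ≤ 53 / 100)
    (b1 : 41 / 100 ≤ b) (b2 : b ≤ 1 / 2) (t1 : 753 / 10000 ≤ t) (t2 : t ≤ 753 / 5000) :
    4 * ph (s - t) - 2 * ph s + 13 / 1000 ≤ G2 + G3 := by
  rcases le_total t (113 / 1000) with h | h
  · exact g147 R hT hb hy s1 s2 b1 b2 t1 h
  · exact g208 R hT hb hy s1 s2 b1 b2 h t2

theorem g142 {s b t k G2 G3 : ℝ} (R : RegH s b t k G2 G3) (hT : t ≤ 284 / 1000 * s) (hb : s - t + 3 / 200 ≤ b) (hy : s - t ≤ 1 / 2)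
    (s1 : 2529 / 5000 ≤ s) (s2 : s ≤ 53 / 100)
    (b1 : 8 / 25 ≤ b) (b2 : b ≤ 41 / 100) (t1 : 659 / 5000 ≤ t) (t2 : t ≤ 353 / 2500) :
    4 * ph (s - t) - 2 * ph s + 13 / 1000 ≤ G2 + G3 := by
  rcases le_total b (73 / 200) with h | h
  · exact g143 R hT hb hy s1 s2 b1 h t1 t2
  · exact g144 R hT hb hy s1 s2 h b2 t1 t2

theorem g140 {s b t k G2 G3 : ℝ} (R : RegH s b t k G2 G3) (hT : t ≤ 284 / 1000 * s) (hb : s - t + 3 / 200 ≤ b) (hy : s - t ≤ 1 / 2)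
    (s1 : 963 / 2000 ≤ s) (s2 : s ≤ 53 / 100)
    (b1 : 8 / 25 ≤ b) (b2 : b ≤ 41 / 100) (t1 : 659 / 5000 ≤ t) (t2 : t ≤ 353 / 2500) :
    4 * ph (s - t) - 2 * ph s + 13 / 1000 ≤ G2 + G3 := by
  rcases le_total s (2529 / 5000) with h | h
  · exact g141 R hT hb hy s1 h b1 b2 t1 t2
  · exact g142 R hT hb hy h s2 b1 b2 t1 t2

theorem g139 {s b t k G2 G3 : ℝ} (R : RegH s b t k G2 G3) (hT : t ≤ 284 / 1000 * s) (hb : s - t + 3 / 200 ≤ b) (hy : s - t ≤ 1 / 2)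
    (s1 : 963 / 2000 ≤ s) (s2 : s ≤ 53 / 100)
    (b1 : 8 / 25 ≤ b) (b2 : b ≤ 41 / 100) (t1 : 659 / 5000 ≤ t) (t2 : t ≤ 753 / 5000) :
    4 * ph (s - t) - 2 * ph s + 13 / 1000 ≤ G2 + G3 := by
  rcases le_total t (353 / 2500) with h | h
  · exact g140 R hT hb hy s1 s2 b1 b2 t1 h
  · exact g145 R hT hb hy s1 s2 b1 b2 h t2

theorem g136 {s b t k G2 G3 : ℝ} (R : RegH s b t k G2 G3) (hT : t ≤ 284 / 1000 * s) (hb : s - t + 3 / 200 ≤ b) (hy : s - t ≤ 1 / 2)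
    (s1 : 131 / 250 ≤ s) (s2 : s ≤ 53 / 100)
    (b1 : 997 / 2500 ≤ b) (b2 : b ≤ 41 / 100) (t1 : 153 / 1250 ≤ t) (t2 : t ≤ 659 / 5000) :
    4 * ph (s - t) - 2 * ph s + 13 / 1000 ≤ G2 + G3 := by
  rcases le_total t (1271 / 10000) with h | h
  · exact g137 R hT hb hy s1 s2 b1 b2 t1 h
  · exact g138 R hT hb hy s1 s2 b1 b2 h t2

theorem g134 {s b t k G2 G3 : ℝ} (R : RegH s b t k G2 G3) (hT : t ≤ 284 / 1000 * s) (hb : s - t + 3 / 200 ≤ b) (hy : s - t ≤ 1 / 2)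
    (s1 : 5179 / 10000 ≤ s) (s2 : s ≤ 53 / 100)
    (b1 : 997 / 2500 ≤ b) (b2 : b ≤ 41 / 100) (t1 : 153 / 1250 ≤ t) (t2 : t ≤ 659 / 5000) :
    4 * ph (s - t) - 2 * ph s + 13 / 1000 ≤ G2 + G3 := by
  rcases le_total s (131 / 250) with h | h
  · exact g135 R hT hb hy s1 h b1 b2 t1 t2
  · exact g136 R hT hb hy h s2 b1 b2 t1 t2

theorem g132 {s b t k G2 G3 : ℝ} (R : RegH s b t k G2 G3) (hT : t ≤ 284 / 1000 * s) (hb : s - t + 3 / 200 ≤ b) (hy : s - t ≤ 1 / 2)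
    (s1 : 5179 / 10000 ≤ s) (s2 : s ≤ 53 / 100)
    (b1 : 31 / 80 ≤ b) (b2 : b ≤ 41 / 100) (t1 : 153 / 1250 ≤ t) (t2 : t ≤ 659 / 5000) :
    4 * ph (s - t) - 2 * ph s + 13 / 1000 ≤ G2 + G3 := by
  rcases le_total b (997 / 2500) with h | h
  · exact g133 R hT hb hy s1 s2 b1 h t1 t2
  · exact g134 R hT hb hy s1 s2 h b2 t1 t2

theorem g130 {s b t k G2 G3 : ℝ} (R : RegH s b t k G2 G3) (hT : t ≤ 284 / 1000 * s) (hb : s - t + 3 / 200 ≤ b) (hy : s - t ≤ 1 / 2)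
    (s1 : 5179 / 10000 ≤ s) (s2 : s ≤ 53 / 100)
    (b1 : 31 / 80 ≤ b) (b2 : b ≤ 41 / 100) (t1 : 113 / 1000 ≤ t) (t2 : t ≤ 659 / 5000) :
    4 * ph (s - t) - 2 * ph s + 13 / 1000 ≤ G2 + G3 := by
  rcases le_total t (153 / 1250) with h | h
  · exact g131 R hT hb hy s1 s2 b1 b2 t1 h
  · exact g132 R hT hb hy s1 s2 b1 b2 h t2

theorem g126 {s b t k G2 G3 : ℝ} (R : RegH s b t k G2 G3) (hT : t ≤ 284 / 1000 * s) (hb : s - t + 3 / 200 ≤ b) (hy : s - t ≤ 1 / 2)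
    (s1 : 5119 / 10000 ≤ s) (s2 : s ≤ 5179 / 10000)
    (b1 : 31 / 80 ≤ b) (b2 : b ≤ 41 / 100) (t1 : 113 / 1000 ≤ t) (t2 : t ≤ 153 / 1250) :
    4 * ph (s - t) - 2 * ph s + 13 / 1000 ≤ G2 + G3 := by
  rcases le_total b (997 / 2500) with h | h
  · exact g127 R hT hb hy s1 s2 b1 h t1 t2
  · exact g128 R hT hb hy s1 s2 h b2 t1 t2

theorem g125 {s b t k G2 G3 : ℝ} (R : RegH s b t k G2 G3) (hT : t ≤ 284 / 1000 * s) (hb : s - t + 3 / 200 ≤ b) (hy : s - t ≤ 1 / 2)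
    (s1 : 5119 / 10000 ≤ s) (s2 : s ≤ 5179 / 10000)
    (b1 : 31 / 80 ≤ b) (b2 : b ≤ 41 / 100) (t1 : 113 / 1000 ≤ t) (t2 : t ≤ 659 / 5000) :
    4 * ph (s - t) - 2 * ph s + 13 / 1000 ≤ G2 + G3 := by
  rcases le_total t (153 / 1250) with h | h
  · exact g126 R hT hb hy s1 s2 b1 b2 t1 h
  · exact g129 R hT hb hy s1 s2 b1 b2 h t2

theorem g123 {s b t k G2 G3 : ℝ} (R : RegH s b t k G2 G3) (hT : t ≤ 284 / 1000 * s) (hb : s - t + 3 / 200 ≤ b) (hy : s - t ≤ 1 / 2)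
    (s1 : 2529 / 5000 ≤ s) (s2 : s ≤ 5179 / 10000)
    (b1 : 31 / 80 ≤ b) (b2 : b ≤ 41 / 100) (t1 : 113 / 1000 ≤ t) (t2 : t ≤ 659 / 5000) :
    4 * ph (s - t) - 2 * ph s + 13 / 1000 ≤ G2 + G3 := by
  rcases le_total s (5119 / 10000) with h | h
  · exact g124 R hT hb hy s1 h b1 b2 t1 t2
  · exact g125 R hT hb hy h s2 b1 b2 t1 t2

theorem g122 {s b t k G2 G3 : ℝ} (R : RegH s b t k G2 G3) (hT : t ≤ 284 / 1000 * s) (hb : s - t + 3 / 200 ≤ b) (hy : s - t ≤ 1 / 2)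
    (s1 : 2529 / 5000 ≤ s) (s2 : s ≤ 53 / 100)
    (b1 : 31 / 80 ≤ b) (b2 : b ≤ 41 / 100) (t1 : 113 / 1000 ≤ t) (t2 : t ≤ 659 / 5000) :
    4 * ph (s - t) - 2 * ph s + 13 / 1000 ≤ G2 + G3 := by
  rcases le_total s (5179 / 10000) with h | h
  · exact g123 R hT hb hy s1 h b1 b2 t1 t2
  · exact g130 R hT hb hy h s2 b1 b2 t1 t2

theorem g120 {s b t k G2 G3 : ℝ} (R : RegH s b t k G2 G3) (hT : t ≤ 284 / 1000 * s) (hb : s - t + 3 / 200 ≤ b) (hy : s - t ≤ 1 / 2)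
    (s1 : 2529 / 5000 ≤ s) (s2 : s ≤ 53 / 100)
    (b1 : 73 / 200 ≤ b) (b2 : b ≤ 41 / 100) (t1 : 113 / 1000 ≤ t) (t2 : t ≤ 659 / 5000) :
    4 * ph (s - t) - 2 * ph s + 13 / 1000 ≤ G2 + G3 := by
  rcases le_total b (31 / 80) with h | h
  · exact g121 R hT hb hy s1 s2 b1 h t1 t2
  · exact g122 R hT hb hy s1 s2 h b2 t1 t2

theorem g116 {s b t k G2 G3 : ℝ} (R : RegH s b t k G2 G3) (hT : t ≤ 284 / 1000 * s) (hb : s - t + 3 / 200 ≤ b) (hy : s - t ≤ 1 / 2)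
    (s1 : 4937 / 10000 ≤ s) (s2 : s ≤ 2529 / 5000)
    (b1 : 73 / 200 ≤ b) (b2 : b ≤ 31 / 80) (t1 : 113 / 1000 ≤ t) (t2 : t ≤ 659 / 5000) :
    4 * ph (s - t) - 2 * ph s + 13 / 1000 ≤ G2 + G3 := by
  rcases le_total b (1881 / 5000) with h | h
  · exact g117 R hT hb hy s1 s2 b1 h t1 t2
  · exact g118 R hT hb hy s1 s2 h b2 t1 t2

theorem g114 {s b t k G2 G3 : ℝ} (R : RegH s b t k G2 G3) (hT : t ≤ 284 / 1000 * s) (hb : s - t + 3 / 200 ≤ b) (hy : s - t ≤ 1 / 2)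
    (s1 : 963 / 2000 ≤ s) (s2 : s ≤ 2529 / 5000)
    (b1 : 73 / 200 ≤ b) (b2 : b ≤ 31 / 80) (t1 : 113 / 1000 ≤ t) (t2 : t ≤ 659 / 5000) :
    4 * ph (s - t) - 2 * ph s + 13 / 1000 ≤ G2 + G3 := by
  rcases le_total s (4937 / 10000) with h | h
  · exact g115 R hT hb hy s1 h b1 b2 t1 t2
  · exact g116 R hT hb hy h s2 b1 b2 t1 t2

theorem g113 {s b t k G2 G3 : ℝ} (R : RegH s b t k G2 G3) (hT : t ≤ 284 / 1000 * s) (hb : s - t + 3 / 200 ≤ b) (hy : s - t ≤ 1 / 2)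
    (s1 : 963 / 2000 ≤ s) (s2 : s ≤ 2529 / 5000)
    (b1 : 73 / 200 ≤ b) (b2 : b ≤ 41 / 100) (t1 : 113 / 1000 ≤ t) (t2 : t ≤ 659 / 5000) :
    4 * ph (s - t) - 2 * ph s + 13 / 1000 ≤ G2 + G3 := by
  rcases le_total b (31 / 80) with h | h
  · exact g114 R hT hb hy s1 s2 b1 h t1 t2
  · exact g119 R hT hb hy s1 s2 h b2 t1 t2

theorem g112 {s b t k G2 G3 : ℝ} (R : RegH s b t k G2 G3) (hT : t ≤ 284 / 1000 * s) (hb : s - t + 3 / 200 ≤ b) (hy : s - t ≤ 1 / 2)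
    (s1 : 963 / 2000 ≤ s) (s2 : s ≤ 53 / 100)
    (b1 : 73 / 200 ≤ b) (b2 : b ≤ 41 / 100) (t1 : 113 / 1000 ≤ t) (t2 : t ≤ 659 / 5000) :
    4 * ph (s - t) - 2 * ph s + 13 / 1000 ≤ G2 + G3 := by
  rcases le_total s (2529 / 5000) with h | h
  · exact g113 R hT hb hy s1 h b1 b2 t1 t2
  · exact g120 R hT hb hy h s2 b1 b2 t1 t2

theorem g108 {s b t k G2 G3 : ℝ} (R : RegH s b t k G2 G3) (hT : t ≤ 284 / 1000 * s) (hb : s - t + 3 / 200 ≤ b) (hy : s - t ≤ 1 / 2)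
    (s1 : 963 / 2000 ≤ s) (s2 : s ≤ 2529 / 5000)
    (b1 : 8 / 25 ≤ b) (b2 : b ≤ 73 / 200) (t1 : 153 / 1250 ≤ t) (t2 : t ≤ 659 / 5000) :
    4 * ph (s - t) - 2 * ph s + 13 / 1000 ≤ G2 + G3 := by
  rcases le_total t (1271 / 10000) with h | h
  · exact g109 R hT hb hy s1 s2 b1 b2 t1 h
  · exact g110 R hT hb hy s1 s2 b1 b2 h t2

theorem g107 {s b t k G2 G3 : ℝ} (R : RegH s b t k G2 G3) (hT : t ≤ 284 / 1000 * s) (hb : s - t + 3 / 200 ≤ b) (hy : s - t ≤ 1 / 2)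
    (s1 : 963 / 2000 ≤ s) (s2 : s ≤ 53 / 100)
    (b1 : 8 / 25 ≤ b) (b2 : b ≤ 73 / 200) (t1 : 153 / 1250 ≤ t) (t2 : t ≤ 659 / 5000) :
    4 * ph (s - t) - 2 * ph s + 13 / 1000 ≤ G2 + G3 := by
  rcases le_total s (2529 / 5000) with h | h
  · exact g108 R hT hb hy s1 h b1 b2 t1 t2
  · exact g111 R hT hb hy h s2 b1 b2 t1 t2

theorem g105 {s b t k G2 G3 : ℝ} (R : RegH s b t k G2 G3) (hT : t ≤ 284 / 1000 * s) (hb : s - t + 3 / 200 ≤ b) (hy : s - t ≤ 1 / 2)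
    (s1 : 963 / 2000 ≤ s) (s2 : s ≤ 53 / 100)
    (b1 : 8 / 25 ≤ b) (b2 : b ≤ 73 / 200) (t1 : 113 / 1000 ≤ t) (t2 : t ≤ 659 / 5000) :
    4 * ph (s - t) - 2 * ph s + 13 / 1000 ≤ G2 + G3 := by
  rcases le_total t (153 / 1250) with h | h
  · exact g106 R hT hb hy s1 s2 b1 b2 t1 h
  · exact g107 R hT hb hy s1 s2 b1 b2 h t2

theorem g104 {s b t k G2 G3 : ℝ} (R : RegH s b t k G2 G3) (hT : t ≤ 284 / 1000 * s) (hb : s - t + 3 / 200 ≤ b) (hy : s - t ≤ 1 / 2)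
    (s1 : 963 / 2000 ≤ s) (s2 : s ≤ 53 / 100)
    (b1 : 8 / 25 ≤ b) (b2 : b ≤ 41 / 100) (t1 : 113 / 1000 ≤ t) (t2 : t ≤ 659 / 5000) :
    4 * ph (s - t) - 2 * ph s + 13 / 1000 ≤ G2 + G3 := by
  rcases le_total b (73 / 200) with h | h
  · exact g105 R hT hb hy s1 s2 b1 h t1 t2
  · exact g112 R hT hb hy s1 s2 h b2 t1 t2

theorem g103 {s b t k G2 G3 : ℝ} (R : RegH s b t k G2 G3) (hT : t ≤ 284 / 1000 * s) (hb : s - t + 3 / 200 ≤ b) (hy : s - t ≤ 1 / 2)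
    (s1 : 963 / 2000 ≤ s) (s2 : s ≤ 53 / 100)
    (b1 : 8 / 25 ≤ b) (b2 : b ≤ 41 / 100) (t1 : 113 / 1000 ≤ t) (t2 : t ≤ 753 / 5000) :
    4 * ph (s - t) - 2 * ph s + 13 / 1000 ≤ G2 + G3 := by
  rcases le_total t (659 / 5000) with h | h
  · exact g104 R hT hb hy s1 s2 b1 b2 t1 h
  · exact g139 R hT hb hy s1 s2 b1 b2 h t2

theorem g98 {s b t k G2 G3 : ℝ} (R : RegH s b t k G2 G3) (hT : t ≤ 284 / 1000 * s) (hb : s - t + 3 / 200 ≤ b) (hy : s - t ≤ 1 / 2)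
    (s1 : 2529 / 5000 ≤ s) (s2 : s ≤ 5119 / 10000)
    (b1 : 997 / 2500 ≤ b) (b2 : b ≤ 41 / 100) (t1 : 753 / 10000 ≤ t) (t2 : t ≤ 113 / 1000) :
    4 * ph (s - t) - 2 * ph s + 13 / 1000 ≤ G2 + G3 := by
  rcases le_total t (471 / 5000) with h | h
  · exact g99 R hT hb hy s1 s2 b1 b2 t1 h
  · exact g100 R hT hb hy s1 s2 b1 b2 h t2

theorem g96 {s b t k G2 G3 : ℝ} (R : RegH s b t k G2 G3) (hT : t ≤ 284 / 1000 * s) (hb : s - t + 3 / 200 ≤ b) (hy : s - t ≤ 1 / 2)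
    (s1 : 2529 / 5000 ≤ s) (s2 : s ≤ 5119 / 10000)
    (b1 : 31 / 80 ≤ b) (b2 : b ≤ 41 / 100) (t1 : 753 / 10000 ≤ t) (t2 : t ≤ 113 / 1000) :
    4 * ph (s - t) - 2 * ph s + 13 / 1000 ≤ G2 + G3 := by
  rcases le_total b (997 / 2500) with h | h
  · exact g97 R hT hb hy s1 s2 b1 h t1 t2
  · exact g98 R hT hb hy s1 s2 h b2 t1 t2

theorem g95 {s b t k G2 G3 : ℝ} (R : RegH s b t k G2 G3) (hT : t ≤ 284 / 1000 * s) (hb : s - t + 3 / 200 ≤ b) (hy : s - t ≤ 1 / 2)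
    (s1 : 2529 / 5000 ≤ s) (s2 : s ≤ 5179 / 10000)
    (b1 : 31 / 80 ≤ b) (b2 : b ≤ 41 / 100) (t1 : 753 / 10000 ≤ t) (t2 : t ≤ 113 / 1000) :
    4 * ph (s - t) - 2 * ph s + 13 / 1000 ≤ G2 + G3 := by
  rcases le_total s (5119 / 10000) with h | h
  · exact g96 R hT hb hy s1 h b1 b2 t1 t2
  · exact g101 R hT hb hy h s2 b1 b2 t1 t2

theorem g93 {s b t k G2 G3 : ℝ} (R : RegH s b t k G2 G3) (hT : t ≤ 284 / 1000 * s) (hb : s - t + 3 / 200 ≤ b) (hy : s - t ≤ 1 / 2)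
    (s1 : 2529 / 5000 ≤ s) (s2 : s ≤ 5179 / 10000)
    (b1 : 73 / 200 ≤ b) (b2 : b ≤ 41 / 100) (t1 : 753 / 10000 ≤ t) (t2 : t ≤ 113 / 1000) :
    4 * ph (s - t) - 2 * ph s + 13 / 1000 ≤ G2 + G3 := by
  rcases le_total b (31 / 80) with h | h
  · exact g94 R hT hb hy s1 s2 b1 h t1 t2
  · exact g95 R hT hb hy s1 s2 h b2 t1 t2

theorem g92 {s b t k G2 G3 : ℝ} (R : RegH s b t k G2 G3) (hT : t ≤ 284 / 1000 * s) (hb : s - t + 3 / 200 ≤ b) (hy : s - t ≤ 1 / 2)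
    (s1 : 2529 / 5000 ≤ s) (s2 : s ≤ 53 / 100)
    (b1 : 73 / 200 ≤ b) (b2 : b ≤ 41 / 100) (t1 : 753 / 10000 ≤ t) (t2 : t ≤ 113 / 1000) :
    4 * ph (s - t) - 2 * ph s + 13 / 1000 ≤ G2 + G3 := by
  rcases le_total s (5179 / 10000) with h | h
  · exact g93 R hT hb hy s1 h b1 b2 t1 t2
  · exact g102 R hT hb hy h s2 b1 b2 t1 t2

theorem g89 {s b t k G2 G3 : ℝ} (R : RegH s b t k G2 G3) (hT : t ≤ 284 / 1000 * s) (hb : s - t + 3 / 200 ≤ b) (hy : s - t ≤ 1 / 2)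
    (s1 : 4937 / 10000 ≤ s) (s2 : s ≤ 2529 / 5000)
    (b1 : 31 / 80 ≤ b) (b2 : b ≤ 41 / 100) (t1 : 753 / 10000 ≤ t) (t2 : t ≤ 113 / 1000) :
    4 * ph (s - t) - 2 * ph s + 13 / 1000 ≤ G2 + G3 := by
  rcases le_total t (471 / 5000) with h | h
  · exact g90 R hT hb hy s1 s2 b1 b2 t1 h
  · exact g91 R hT hb hy s1 s2 b1 b2 h t2

theorem g87 {s b t k G2 G3 : ℝ} (R : RegH s b t k G2 G3) (hT : t ≤ 284 / 1000 * s) (hb : s - t + 3 / 200 ≤ b) (hy : s - t ≤ 1 / 2)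
    (s1 : 4937 / 10000 ≤ s) (s2 : s ≤ 2529 / 5000)
    (b1 : 73 / 200 ≤ b) (b2 : b ≤ 41 / 100) (t1 : 753 / 10000 ≤ t) (t2 : t ≤ 113 / 1000) :
    4 * ph (s - t) - 2 * ph s + 13 / 1000 ≤ G2 + G3 := by
  rcases le_total b (31 / 80) with h | h
  · exact g88 R hT hb hy s1 s2 b1 h t1 t2
  · exact g89 R hT hb hy s1 s2 h b2 t1 t2

theorem g83 {s b t k G2 G3 : ℝ} (R : RegH s b t k G2 G3) (hT : t ≤ 284 / 1000 * s) (hb : s - t + 3 / 200 ≤ b) (hy : s - t ≤ 1 / 2)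
    (s1 : 963 / 2000 ≤ s) (s2 : s ≤ 4937 / 10000)
    (b1 : 73 / 200 ≤ b) (b2 : b ≤ 31 / 80) (t1 : 753 / 10000 ≤ t) (t2 : t ≤ 113 / 1000) :
    4 * ph (s - t) - 2 * ph s + 13 / 1000 ≤ G2 + G3 := by
  rcases le_total b (1881 / 5000) with h | h
  · exact g84 R hT hb hy s1 s2 b1 h t1 t2
  · exact g85 R hT hb hy s1 s2 h b2 t1 t2

theorem g82 {s b t k G2 G3 : ℝ} (R : RegH s b t k G2 G3) (hT : t ≤ 284 / 1000 * s) (hb : s - t + 3 / 200 ≤ b) (hy : s - t ≤ 1 / 2)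
    (s1 : 963 / 2000 ≤ s) (s2 : s ≤ 4937 / 10000)
    (b1 : 73 / 200 ≤ b) (b2 : b ≤ 41 / 100) (t1 : 753 / 10000 ≤ t) (t2 : t ≤ 113 / 1000) :
    4 * ph (s - t) - 2 * ph s + 13 / 1000 ≤ G2 + G3 := by
  rcases le_total b (31 / 80) with h | h
  · exact g83 R hT hb hy s1 s2 b1 h t1 t2
  · exact g86 R hT hb hy s1 s2 h b2 t1 t2

theorem g81 {s b t k G2 G3 : ℝ} (R : RegH s b t k G2 G3) (hT : t ≤ 284 / 1000 * s) (hb : s - t + 3 / 200 ≤ b) (hy : s - t ≤ 1 / 2)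
    (s1 : 963 / 2000 ≤ s) (s2 : s ≤ 2529 / 5000)
    (b1 : 73 / 200 ≤ b) (b2 : b ≤ 41 / 100) (t1 : 753 / 10000 ≤ t) (t2 : t ≤ 113 / 1000) :
    4 * ph (s - t) - 2 * ph s + 13 / 1000 ≤ G2 + G3 := by
  rcases le_total s (4937 / 10000) with h | h
  · exact g82 R hT hb hy s1 h b1 b2 t1 t2
  · exact g87 R hT hb hy h s2 b1 b2 t1 t2

theorem g80 {s b t k G2 G3 : ℝ} (R : RegH s b t k G2 G3) (hT : t ≤ 284 / 1000 * s) (hb : s - t + 3 / 200 ≤ b) (hy : s - t ≤ 1 / 2)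
    (s1 : 963 / 2000 ≤ s) (s2 : s ≤ 53 / 100)
    (b1 : 73 / 200 ≤ b) (b2 : b ≤ 41 / 100) (t1 : 753 / 10000 ≤ t) (t2 : t ≤ 113 / 1000) :
    4 * ph (s - t) - 2 * ph s + 13 / 1000 ≤ G2 + G3 := by
  rcases le_total s (2529 / 5000) with h | h
  · exact g81 R hT hb hy s1 h b1 b2 t1 t2
  · exact g92 R hT hb hy h s2 b1 b2 t1 t2

theorem g78 {s b t k G2 G3 : ℝ} (R : RegH s b t k G2 G3) (hT : t ≤ 284 / 1000 * s) (hb : s - t + 3 / 200 ≤ b) (hy : s - t ≤ 1 / 2)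
    (s1 : 963 / 2000 ≤ s) (s2 : s ≤ 53 / 100)
    (b1 : 8 / 25 ≤ b) (b2 : b ≤ 41 / 100) (t1 : 753 / 10000 ≤ t) (t2 : t ≤ 113 / 1000) :
    4 * ph (s - t) - 2 * ph s + 13 / 1000 ≤ G2 + G3 := by
  rcases le_total b (73 / 200) with h | h
  · exact g79 R hT hb hy s1 s2 b1 h t1 t2
  · exact g80 R hT hb hy s1 s2 h b2 t1 t2

theorem g77 {s b t k G2 G3 : ℝ} (R : RegH s b t k G2 G3) (hT : t ≤ 284 / 1000 * s) (hb : s - t + 3 / 200 ≤ b) (hy : s - t ≤ 1 / 2)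
    (s1 : 963 / 2000 ≤ s) (s2 : s ≤ 53 / 100)
    (b1 : 8 / 25 ≤ b) (b2 : b ≤ 41 / 100) (t1 : 753 / 10000 ≤ t) (t2 : t ≤ 753 / 5000) :
    4 * ph (s - t) - 2 * ph s + 13 / 1000 ≤ G2 + G3 := by
  rcases le_total t (113 / 1000) with h | h
  · exact g78 R hT hb hy s1 s2 b1 b2 t1 h
  · exact g103 R hT hb hy s1 s2 b1 b2 h t2

theorem g76 {s b t k G2 G3 : ℝ} (R : RegH s b t k G2 G3) (hT : t ≤ 284 / 1000 * s) (hb : s - t + 3 / 200 ≤ b) (hy : s - t ≤ 1 / 2)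
    (s1 : 963 / 2000 ≤ s) (s2 : s ≤ 53 / 100)
    (b1 : 8 / 25 ≤ b) (b2 : b ≤ 1 / 2) (t1 : 753 / 10000 ≤ t) (t2 : t ≤ 753 / 5000) :
    4 * ph (s - t) - 2 * ph s + 13 / 1000 ≤ G2 + G3 := by
  rcases le_total b (41 / 100) with h | h
  · exact g77 R hT hb hy s1 s2 b1 h t1 t2
  · exact g146 R hT hb hy s1 s2 h b2 t1 t2

theorem g73 {s b t k G2 G3 : ℝ} (R : RegH s b t k G2 G3) (hT : t ≤ 284 / 1000 * s) (hb : s - t + 3 / 200 ≤ b) (hy : s - t ≤ 1 / 2)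
    (s1 : 5179 / 10000 ≤ s) (s2 : s ≤ 53 / 100)
    (b1 : 91 / 200 ≤ b) (b2 : b ≤ 1 / 2) (t1 : 113 / 2000 ≤ t) (t2 : t ≤ 753 / 10000) :
    4 * ph (s - t) - 2 * ph s + 13 / 1000 ≤ G2 + G3 := by
  rcases le_total s (131 / 250) with h | h
  · exact g74 R hT hb hy s1 h b1 b2 t1 t2
  · exact g75 R hT hb hy h s2 b1 b2 t1 t2

theorem g71 {s b t k G2 G3 : ℝ} (R : RegH s b t k G2 G3) (hT : t ≤ 284 / 1000 * s) (hb : s - t + 3 / 200 ≤ b) (hy : s - t ≤ 1 / 2)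
    (s1 : 5179 / 10000 ≤ s) (s2 : s ≤ 53 / 100)
    (b1 : 91 / 200 ≤ b) (b2 : b ≤ 1 / 2) (t1 : 377 / 10000 ≤ t) (t2 : t ≤ 753 / 10000) :
    4 * ph (s - t) - 2 * ph s + 13 / 1000 ≤ G2 + G3 := by
  rcases le_total t (113 / 2000) with h | h
  · exact g72 R hT hb hy s1 s2 b1 b2 t1 h
  · exact g73 R hT hb hy s1 s2 b1 b2 h t2

theorem g69 {s b t k G2 G3 : ℝ} (R : RegH s b t k G2 G3) (hT : t ≤ 284 / 1000 * s) (hb : s - t + 3 / 200 ≤ b) (hy : s - t ≤ 1 / 2)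
    (s1 : 5179 / 10000 ≤ s) (s2 : s ≤ 53 / 100)
    (b1 : 41 / 100 ≤ b) (b2 : b ≤ 1 / 2) (t1 : 377 / 10000 ≤ t) (t2 : t ≤ 753 / 10000) :
    4 * ph (s - t) - 2 * ph s + 13 / 1000 ≤ G2 + G3 := by
  rcases le_total b (91 / 200) with h | h
  · exact g70 R hT hb hy s1 s2 b1 h t1 t2
  · exact g71 R hT hb hy s1 s2 h b2 t1 t2

theorem g65 {s b t k G2 G3 : ℝ} (R : RegH s b t k G2 G3) (hT : t ≤ 284 / 1000 * s) (hb : s - t + 3 / 200 ≤ b) (hy : s - t ≤ 1 / 2)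
    (s1 : 2529 / 5000 ≤ s) (s2 : s ≤ 5179 / 10000)
    (b1 : 41 / 100 ≤ b) (b2 : b ≤ 91 / 200) (t1 : 113 / 2000 ≤ t) (t2 : t ≤ 753 / 10000) :
    4 * ph (s - t) - 2 * ph s + 13 / 1000 ≤ G2 + G3 := by
  rcases le_total b (173 / 400) with h | h
  · exact g66 R hT hb hy s1 s2 b1 h t1 t2
  · exact g67 R hT hb hy s1 s2 h b2 t1 t2

theorem g64 {s b t k G2 G3 : ℝ} (R : RegH s b t k G2 G3) (hT : t ≤ 284 / 1000 * s) (hb : s - t + 3 / 200 ≤ b) (hy : s - t ≤ 1 / 2)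
    (s1 : 2529 / 5000 ≤ s) (s2 : s ≤ 5179 / 10000)
    (b1 : 41 / 100 ≤ b) (b2 : b ≤ 1 / 2) (t1 : 113 / 2000 ≤ t) (t2 : t ≤ 753 / 10000) :
    4 * ph (s - t) - 2 * ph s + 13 / 1000 ≤ G2 + G3 := by
  rcases le_total b (91 / 200) with h | h
  · exact g65 R hT hb hy s1 s2 b1 h t1 t2
  · exact g68 R hT hb hy s1 s2 h b2 t1 t2

theorem g61 {s b t k G2 G3 : ℝ} (R : RegH s b t k G2 G3) (hT : t ≤ 284 / 1000 * s) (hb : s - t + 3 / 200 ≤ b) (hy : s - t ≤ 1 / 2)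
    (s1 : 2529 / 5000 ≤ s) (s2 : s ≤ 5179 / 10000)
    (b1 : 41 / 100 ≤ b) (b2 : b ≤ 1 / 2) (t1 : 377 / 10000 ≤ t) (t2 : t ≤ 113 / 2000) :
    4 * ph (s - t) - 2 * ph s + 13 / 1000 ≤ G2 + G3 := by
  rcases le_total b (91 / 200) with h | h
  · exact g62 R hT hb hy s1 s2 b1 h t1 t2
  · exact g63 R hT hb hy s1 s2 h b2 t1 t2

theorem g60 {s b t k G2 G3 : ℝ} (R : RegH s b t k G2 G3) (hT : t ≤ 284 / 1000 * s) (hb : s - t + 3 / 200 ≤ b) (hy : s - t ≤ 1 / 2)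
    (s1 : 2529 / 5000 ≤ s) (s2 : s ≤ 5179 / 10000)
    (b1 : 41 / 100 ≤ b) (b2 : b ≤ 1 / 2) (t1 : 377 / 10000 ≤ t) (t2 : t ≤ 753 / 10000) :
    4 * ph (s - t) - 2 * ph s + 13 / 1000 ≤ G2 + G3 := by
  rcases le_total t (113 / 2000) with h | h
  · exact g61 R hT hb hy s1 s2 b1 b2 t1 h
  · exact g64 R hT hb hy s1 s2 b1 b2 h t2

theorem g59 {s b t k G2 G3 : ℝ} (R : RegH s b t k G2 G3) (hT : t ≤ 284 / 1000 * s) (hb : s - t + 3 / 200 ≤ b) (hy : s - t ≤ 1 / 2)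
    (s1 : 2529 / 5000 ≤ s) (s2 : s ≤ 53 / 100)
    (b1 : 41 / 100 ≤ b) (b2 : b ≤ 1 / 2) (t1 : 377 / 10000 ≤ t) (t2 : t ≤ 753 / 10000) :
    4 * ph (s - t) - 2 * ph s + 13 / 1000 ≤ G2 + G3 := by
  rcases le_total s (5179 / 10000) with h | h
  · exact g60 R hT hb hy s1 h b1 b2 t1 t2
  · exact g69 R hT hb hy h s2 b1 b2 t1 t2

theorem g56 {s b t k G2 G3 : ℝ} (R : RegH s b t k G2 G3) (hT : t ≤ 284 / 1000 * s) (hb : s - t + 3 / 200 ≤ b) (hy : s - t ≤ 1 / 2)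
    (s1 : 963 / 2000 ≤ s) (s2 : s ≤ 2529 / 5000)
    (b1 : 41 / 100 ≤ b) (b2 : b ≤ 1 / 2) (t1 : 377 / 10000 ≤ t) (t2 : t ≤ 753 / 10000) :
    4 * ph (s - t) - 2 * ph s + 13 / 1000 ≤ G2 + G3 := by
  rcases le_total t (113 / 2000) with h | h
  · exact g57 R hT hb hy s1 s2 b1 b2 t1 h
  · exact g58 R hT hb hy s1 s2 b1 b2 h t2

theorem g55 {s b t k G2 G3 : ℝ} (R : RegH s b t k G2 G3) (hT : t ≤ 284 / 1000 * s) (hb : s - t + 3 / 200 ≤ b) (hy : s - t ≤ 1 / 2)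
    (s1 : 963 / 2000 ≤ s) (s2 : s ≤ 53 / 100)
    (b1 : 41 / 100 ≤ b) (b2 : b ≤ 1 / 2) (t1 : 377 / 10000 ≤ t) (t2 : t ≤ 753 / 10000) :
    4 * ph (s - t) - 2 * ph s + 13 / 1000 ≤ G2 + G3 := by
  rcases le_total s (2529 / 5000) with h | h
  · exact g56 R hT hb hy s1 h b1 b2 t1 t2
  · exact g59 R hT hb hy h s2 b1 b2 t1 t2

theorem g52 {s b t k G2 G3 : ℝ} (R : RegH s b t k G2 G3) (hT : t ≤ 284 / 1000 * s) (hb : s - t + 3 / 200 ≤ b) (hy : s - t ≤ 1 / 2)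
    (s1 : 963 / 2000 ≤ s) (s2 : s ≤ 53 / 100)
    (b1 : 41 / 100 ≤ b) (b2 : b ≤ 1 / 2) (t1 : 0 ≤ t) (t2 : t ≤ 377 / 10000) :
    4 * ph (s - t) - 2 * ph s + 13 / 1000 ≤ G2 + G3 := by
  rcases le_total b (91 / 200) with h | h
  · exact g53 R hT hb hy s1 s2 b1 h t1 t2
  · exact g54 R hT hb hy s1 s2 h b2 t1 t2

theorem g51 {s b t k G2 G3 : ℝ} (R : RegH s b t k G2 G3) (hT : t ≤ 284 / 1000 * s) (hb : s - t + 3 / 200 ≤ b) (hy : s - t ≤ 1 / 2)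
    (s1 : 963 / 2000 ≤ s) (s2 : s ≤ 53 / 100)
    (b1 : 41 / 100 ≤ b) (b2 : b ≤ 1 / 2) (t1 : 0 ≤ t) (t2 : t ≤ 753 / 10000) :
    4 * ph (s - t) - 2 * ph s + 13 / 1000 ≤ G2 + G3 := by
  rcases le_total t (377 / 10000) with h | h
  · exact g52 R hT hb hy s1 s2 b1 b2 t1 h
  · exact g55 R hT hb hy s1 s2 b1 b2 h t2

theorem g49 {s b t k G2 G3 : ℝ} (R : RegH s b t k G2 G3) (hT : t ≤ 284 / 1000 * s) (hb : s - t + 3 / 200 ≤ b) (hy : s - t ≤ 1 / 2)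
    (s1 : 963 / 2000 ≤ s) (s2 : s ≤ 53 / 100)
    (b1 : 8 / 25 ≤ b) (b2 : b ≤ 1 / 2) (t1 : 0 ≤ t) (t2 : t ≤ 753 / 10000) :
    4 * ph (s - t) - 2 * ph s + 13 / 1000 ≤ G2 + G3 := by
  rcases le_total b (41 / 100) with h | h
  · exact g50 R hT hb hy s1 s2 b1 h t1 t2
  · exact g51 R hT hb hy s1 s2 h b2 t1 t2

theorem g48 {s b t k G2 G3 : ℝ} (R : RegH s b t k G2 G3) (hT : t ≤ 284 / 1000 * s) (hb : s - t + 3 / 200 ≤ b) (hy : s - t ≤ 1 / 2)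
    (s1 : 963 / 2000 ≤ s) (s2 : s ≤ 53 / 100)
    (b1 : 8 / 25 ≤ b) (b2 : b ≤ 1 / 2) (t1 : 0 ≤ t) (t2 : t ≤ 753 / 5000) :
    4 * ph (s - t) - 2 * ph s + 13 / 1000 ≤ G2 + G3 := by
  rcases le_total t (753 / 10000) with h | h
  · exact g49 R hT hb hy s1 s2 b1 b2 t1 h
  · exact g76 R hT hb hy s1 s2 b1 b2 h t2

theorem g44 {s b t k G2 G3 : ℝ} (R : RegH s b t k G2 G3) (hT : t ≤ 284 / 1000 * s) (hb : s - t + 3 / 200 ≤ b) (hy : s - t ≤ 1 / 2)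
    (s1 : 4573 / 10000 ≤ s) (s2 : s ≤ 963 / 2000)
    (b1 : 73 / 200 ≤ b) (b2 : b ≤ 41 / 100) (t1 : 753 / 10000 ≤ t) (t2 : t ≤ 753 / 5000) :
    4 * ph (s - t) - 2 * ph s + 13 / 1000 ≤ G2 + G3 := by
  rcases le_total t (113 / 1000) with h | h
  · exact g45 R hT hb hy s1 s2 b1 b2 t1 h
  · exact g46 R hT hb hy s1 s2 b1 b2 h t2

theorem g39 {s b t k G2 G3 : ℝ} (R : RegH s b t k G2 G3) (hT : t ≤ 284 / 1000 * s) (hb : s - t + 3 / 200 ≤ b) (hy : s - t ≤ 1 / 2)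
    (s1 : 2347 / 5000 ≤ s) (s2 : s ≤ 963 / 2000)
    (b1 : 137 / 400 ≤ b) (b2 : b ≤ 73 / 200) (t1 : 113 / 1000 ≤ t) (t2 : t ≤ 153 / 1250) :
    4 * ph (s - t) - 2 * ph s + 13 / 1000 ≤ G2 + G3 := by
  rcases le_total b (1769 / 5000) with h | h
  · exact g40 R hT hb hy s1 s2 b1 h t1 t2
  · exact g41 R hT hb hy s1 s2 h b2 t1 t2

theorem g37 {s b t k G2 G3 : ℝ} (R : RegH s b t k G2 G3) (hT : t ≤ 284 / 1000 * s) (hb : s - t + 3 / 200 ≤ b) (hy : s - t ≤ 1 / 2)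
    (s1 : 4573 / 10000 ≤ s) (s2 : s ≤ 963 / 2000)
    (b1 : 137 / 400 ≤ b) (b2 : b ≤ 73 / 200) (t1 : 113 / 1000 ≤ t) (t2 : t ≤ 153 / 1250) :
    4 * ph (s - t) - 2 * ph s + 13 / 1000 ≤ G2 + G3 := by
  rcases le_total s (2347 / 5000) with h | h
  · exact g38 R hT hb hy s1 h b1 b2 t1 t2
  · exact g39 R hT hb hy h s2 b1 b2 t1 t2

theorem g35 {s b t k G2 G3 : ℝ} (R : RegH s b t k G2 G3) (hT : t ≤ 284 / 1000 * s) (hb : s - t + 3 / 200 ≤ b) (hy : s - t ≤ 1 / 2)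
    (s1 : 4573 / 10000 ≤ s) (s2 : s ≤ 963 / 2000)
    (b1 : 8 / 25 ≤ b) (b2 : b ≤ 73 / 200) (t1 : 113 / 1000 ≤ t) (t2 : t ≤ 153 / 1250) :
    4 * ph (s - t) - 2 * ph s + 13 / 1000 ≤ G2 + G3 := by
  rcases le_total b (137 / 400) with h | h
  · exact g36 R hT hb hy s1 s2 b1 h t1 t2
  · exact g37 R hT hb hy s1 s2 h b2 t1 t2

theorem g34 {s b t k G2 G3 : ℝ} (R : RegH s b t k G2 G3) (hT : t ≤ 284 / 1000 * s) (hb : s - t + 3 / 200 ≤ b) (hy : s - t ≤ 1 / 2)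
    (s1 : 4573 / 10000 ≤ s) (s2 : s ≤ 963 / 2000)
    (b1 : 8 / 25 ≤ b) (b2 : b ≤ 73 / 200) (t1 : 113 / 1000 ≤ t) (t2 : t ≤ 659 / 5000) :
    4 * ph (s - t) - 2 * ph s + 13 / 1000 ≤ G2 + G3 := by
  rcases le_total t (153 / 1250) with h | h
  · exact g35 R hT hb hy s1 s2 b1 b2 t1 h
  · exact g42 R hT hb hy s1 s2 b1 b2 h t2

theorem g33 {s b t k G2 G3 : ℝ} (R : RegH s b t k G2 G3) (hT : t ≤ 284 / 1000 * s) (hb : s - t + 3 / 200 ≤ b) (hy : s - t ≤ 1 / 2)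
    (s1 : 4573 / 10000 ≤ s) (s2 : s ≤ 963 / 2000)
    (b1 : 8 / 25 ≤ b) (b2 : b ≤ 73 / 200) (t1 : 113 / 1000 ≤ t) (t2 : t ≤ 753 / 5000) :
    4 * ph (s - t) - 2 * ph s + 13 / 1000 ≤ G2 + G3 := by
  rcases le_total t (659 / 5000) with h | h
  · exact g34 R hT hb hy s1 s2 b1 b2 t1 h
  · exact g43 R hT hb hy s1 s2 b1 b2 h t2

theorem g30 {s b t k G2 G3 : ℝ} (R : RegH s b t k G2 G3) (hT : t ≤ 284 / 1000 * s) (hb : s - t + 3 / 200 ≤ b) (hy : s - t ≤ 1 / 2)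
    (s1 : 4573 / 10000 ≤ s) (s2 : s ≤ 963 / 2000)
    (b1 : 137 / 400 ≤ b) (b2 : b ≤ 73 / 200) (t1 : 753 / 10000 ≤ t) (t2 : t ≤ 113 / 1000) :
    4 * ph (s - t) - 2 * ph s + 13 / 1000 ≤ G2 + G3 := by
  rcases le_total s (2347 / 5000) with h | h
  · exact g31 R hT hb hy s1 h b1 b2 t1 t2
  · exact g32 R hT hb hy h s2 b1 b2 t1 t2

theorem g28 {s b t k G2 G3 : ℝ} (R : RegH s b t k G2 G3) (hT : t ≤ 284 / 1000 * s) (hb : s - t + 3 / 200 ≤ b) (hy : s - t ≤ 1 / 2)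
    (s1 : 4573 / 10000 ≤ s) (s2 : s ≤ 963 / 2000)
    (b1 : 8 / 25 ≤ b) (b2 : b ≤ 73 / 200) (t1 : 753 / 10000 ≤ t) (t2 : t ≤ 113 / 1000) :
    4 * ph (s - t) - 2 * ph s + 13 / 1000 ≤ G2 + G3 := by
  rcases le_total b (137 / 400) with h | h
  · exact g29 R hT hb hy s1 s2 b1 h t1 t2
  · exact g30 R hT hb hy s1 s2 h b2 t1 t2

theorem g27 {s b t k G2 G3 : ℝ} (R : RegH s b t k G2 G3) (hT : t ≤ 284 / 1000 * s) (hb : s - t + 3 / 200 ≤ b) (hy : s - t ≤ 1 / 2)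
    (s1 : 4573 / 10000 ≤ s) (s2 : s ≤ 963 / 2000)
    (b1 : 8 / 25 ≤ b) (b2 : b ≤ 73 / 200) (t1 : 753 / 10000 ≤ t) (t2 : t ≤ 753 / 5000) :
    4 * ph (s - t) - 2 * ph s + 13 / 1000 ≤ G2 + G3 := by
  rcases le_total t (113 / 1000) with h | h
  · exact g28 R hT hb hy s1 s2 b1 b2 t1 h
  · exact g33 R hT hb hy s1 s2 b1 b2 h t2

theorem g26 {s b t k G2 G3 : ℝ} (R : RegH s b t k G2 G3) (hT : t ≤ 284 / 1000 * s) (hb : s - t + 3 / 200 ≤ b) (hy : s - t ≤ 1 / 2)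
    (s1 : 4573 / 10000 ≤ s) (s2 : s ≤ 963 / 2000)
    (b1 : 8 / 25 ≤ b) (b2 : b ≤ 41 / 100) (t1 : 753 / 10000 ≤ t) (t2 : t ≤ 753 / 5000) :
    4 * ph (s - t) - 2 * ph s + 13 / 1000 ≤ G2 + G3 := by
  rcases le_total b (73 / 200) with h | h
  · exact g27 R hT hb hy s1 s2 b1 h t1 t2
  · exact g44 R hT hb hy s1 s2 h b2 t1 t2

theorem g22 {s b t k G2 G3 : ℝ} (R : RegH s b t k G2 G3) (hT : t ≤ 284 / 1000 * s) (hb : s - t + 3 / 200 ≤ b) (hy : s - t ≤ 1 / 2)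
    (s1 : 433 / 1000 ≤ s) (s2 : s ≤ 4573 / 10000)
    (b1 : 8 / 25 ≤ b) (b2 : b ≤ 73 / 200) (t1 : 113 / 1000 ≤ t) (t2 : t ≤ 753 / 5000) :
    4 * ph (s - t) - 2 * ph s + 13 / 1000 ≤ G2 + G3 := by
  rcases le_total t (659 / 5000) with h | h
  · exact g23 R hT hb hy s1 s2 b1 b2 t1 h
  · exact g24 R hT hb hy s1 s2 b1 b2 h t2

theorem g18 {s b t k G2 G3 : ℝ} (R : RegH s b t k G2 G3) (hT : t ≤ 284 / 1000 * s) (hb : s - t + 3 / 200 ≤ b) (hy : s - t ≤ 1 / 2)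
    (s1 : 433 / 1000 ≤ s) (s2 : s ≤ 4573 / 10000)
    (b1 : 8 / 25 ≤ b) (b2 : b ≤ 137 / 400) (t1 : 753 / 10000 ≤ t) (t2 : t ≤ 113 / 1000) :
    4 * ph (s - t) - 2 * ph s + 13 / 1000 ≤ G2 + G3 := by
  rcases le_total s (1113 / 2500) with h | h
  · exact g19 R hT hb hy s1 h b1 b2 t1 t2
  · exact g20 R hT hb hy h s2 b1 b2 t1 t2

theorem g17 {s b t k G2 G3 : ℝ} (R : RegH s b t k G2 G3) (hT : t ≤ 284 / 1000 * s) (hb : s - t + 3 / 200 ≤ b) (hy : s - t ≤ 1 / 2)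
    (s1 : 433 / 1000 ≤ s) (s2 : s ≤ 4573 / 10000)
    (b1 : 8 / 25 ≤ b) (b2 : b ≤ 73 / 200) (t1 : 753 / 10000 ≤ t) (t2 : t ≤ 113 / 1000) :
    4 * ph (s - t) - 2 * ph s + 13 / 1000 ≤ G2 + G3 := by
  rcases le_total b (137 / 400) with h | h
  · exact g18 R hT hb hy s1 s2 b1 h t1 t2
  · exact g21 R hT hb hy s1 s2 h b2 t1 t2

theorem g16 {s b t k G2 G3 : ℝ} (R : RegH s b t k G2 G3) (hT : t ≤ 284 / 1000 * s) (hb : s - t + 3 / 200 ≤ b) (hy : s - t ≤ 1 / 2)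
    (s1 : 433 / 1000 ≤ s) (s2 : s ≤ 4573 / 10000)
    (b1 : 8 / 25 ≤ b) (b2 : b ≤ 73 / 200) (t1 : 753 / 10000 ≤ t) (t2 : t ≤ 753 / 5000) :
    4 * ph (s - t) - 2 * ph s + 13 / 1000 ≤ G2 + G3 := by
  rcases le_total t (113 / 1000) with h | h
  · exact g17 R hT hb hy s1 s2 b1 b2 t1 h
  · exact g22 R hT hb hy s1 s2 b1 b2 h t2

theorem g15 {s b t k G2 G3 : ℝ} (R : RegH s b t k G2 G3) (hT : t ≤ 284 / 1000 * s) (hb : s - t + 3 / 200 ≤ b) (hy : s - t ≤ 1 / 2)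
    (s1 : 433 / 1000 ≤ s) (s2 : s ≤ 4573 / 10000)
    (b1 : 8 / 25 ≤ b) (b2 : b ≤ 41 / 100) (t1 : 753 / 10000 ≤ t) (t2 : t ≤ 753 / 5000) :
    4 * ph (s - t) - 2 * ph s + 13 / 1000 ≤ G2 + G3 := by
  rcases le_total b (73 / 200) with h | h
  · exact g16 R hT hb hy s1 s2 b1 h t1 t2
  · exact g25 R hT hb hy s1 s2 h b2 t1 t2

theorem g14 {s b t k G2 G3 : ℝ} (R : RegH s b t k G2 G3) (hT : t ≤ 284 / 1000 * s) (hb : s - t + 3 / 200 ≤ b) (hy : s - t ≤ 1 / 2)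
    (s1 : 433 / 1000 ≤ s) (s2 : s ≤ 963 / 2000)
    (b1 : 8 / 25 ≤ b) (b2 : b ≤ 41 / 100) (t1 : 753 / 10000 ≤ t) (t2 : t ≤ 753 / 5000) :
    4 * ph (s - t) - 2 * ph s + 13 / 1000 ≤ G2 + G3 := by
  rcases le_total s (4573 / 10000) with h | h
  · exact g15 R hT hb hy s1 h b1 b2 t1 t2
  · exact g26 R hT hb hy h s2 b1 b2 t1 t2

theorem g13 {s b t k G2 G3 : ℝ} (R : RegH s b t k G2 G3) (hT : t ≤ 284 / 1000 * s) (hb : s - t + 3 / 200 ≤ b) (hy : s - t ≤ 1 / 2)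
    (s1 : 433 / 1000 ≤ s) (s2 : s ≤ 963 / 2000)
    (b1 : 8 / 25 ≤ b) (b2 : b ≤ 1 / 2) (t1 : 753 / 10000 ≤ t) (t2 : t ≤ 753 / 5000) :
    4 * ph (s - t) - 2 * ph s + 13 / 1000 ≤ G2 + G3 := by
  rcases le_total b (41 / 100) with h | h
  · exact g14 R hT hb hy s1 s2 b1 h t1 t2
  · exact g47 R hT hb hy s1 s2 h b2 t1 t2

theorem g9 {s b t k G2 G3 : ℝ} (R : RegH s b t k G2 G3) (hT : t ≤ 284 / 1000 * s) (hb : s - t + 3 / 200 ≤ b) (hy : s - t ≤ 1 / 2)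
    (s1 : 433 / 1000 ≤ s) (s2 : s ≤ 963 / 2000)
    (b1 : 73 / 200 ≤ b) (b2 : b ≤ 41 / 100) (t1 : 377 / 10000 ≤ t) (t2 : t ≤ 753 / 10000) :
    4 * ph (s - t) - 2 * ph s + 13 / 1000 ≤ G2 + G3 := by
  rcases le_total s (4573 / 10000) with h | h
  · exact g10 R hT hb hy s1 h b1 b2 t1 t2
  · exact g11 R hT hb hy h s2 b1 b2 t1 t2

theorem g7 {s b t k G2 G3 : ℝ} (R : RegH s b t k G2 G3) (hT : t ≤ 284 / 1000 * s) (hb : s - t + 3 / 200 ≤ b) (hy : s - t ≤ 1 / 2)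
    (s1 : 433 / 1000 ≤ s) (s2 : s ≤ 963 / 2000)
    (b1 : 8 / 25 ≤ b) (b2 : b ≤ 41 / 100) (t1 : 377 / 10000 ≤ t) (t2 : t ≤ 753 / 10000) :
    4 * ph (s - t) - 2 * ph s + 13 / 1000 ≤ G2 + G3 := by
  rcases le_total b (73 / 200) with h | h
  · exact g8 R hT hb hy s1 s2 b1 h t1 t2
  · exact g9 R hT hb hy s1 s2 h b2 t1 t2

theorem g6 {s b t k G2 G3 : ℝ} (R : RegH s b t k G2 G3) (hT : t ≤ 284 / 1000 * s) (hb : s - t + 3 / 200 ≤ b) (hy : s - t ≤ 1 / 2)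
    (s1 : 433 / 1000 ≤ s) (s2 : s ≤ 963 / 2000)
    (b1 : 8 / 25 ≤ b) (b2 : b ≤ 1 / 2) (t1 : 377 / 10000 ≤ t) (t2 : t ≤ 753 / 10000) :
    4 * ph (s - t) - 2 * ph s + 13 / 1000 ≤ G2 + G3 := by
  rcases le_total b (41 / 100) with h | h
  · exact g7 R hT hb hy s1 s2 b1 h t1 t2
  · exact g12 R hT hb hy s1 s2 h b2 t1 t2

theorem g3 {s b t k G2 G3 : ℝ} (R : RegH s b t k G2 G3) (hT : t ≤ 284 / 1000 * s) (hb : s - t + 3 / 200 ≤ b) (hy : s - t ≤ 1 / 2)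
    (s1 : 433 / 1000 ≤ s) (s2 : s ≤ 963 / 2000)
    (b1 : 8 / 25 ≤ b) (b2 : b ≤ 1 / 2) (t1 : 0 ≤ t) (t2 : t ≤ 377 / 10000) :
    4 * ph (s - t) - 2 * ph s + 13 / 1000 ≤ G2 + G3 := by
  rcases le_total b (41 / 100) with h | h
  · exact g4 R hT hb hy s1 s2 b1 h t1 t2
  · exact g5 R hT hb hy s1 s2 h b2 t1 t2

theorem g2 {s b t k G2 G3 : ℝ} (R : RegH s b t k G2 G3) (hT : t ≤ 284 / 1000 * s) (hb : s - t + 3 / 200 ≤ b) (hy : s - t ≤ 1 / 2)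
    (s1 : 433 / 1000 ≤ s) (s2 : s ≤ 963 / 2000)
    (b1 : 8 / 25 ≤ b) (b2 : b ≤ 1 / 2) (t1 : 0 ≤ t) (t2 : t ≤ 753 / 10000) :
    4 * ph (s - t) - 2 * ph s + 13 / 1000 ≤ G2 + G3 := by
  rcases le_total t (377 / 10000) with h | h
  · exact g3 R hT hb hy s1 s2 b1 b2 t1 h
  · exact g6 R hT hb hy s1 s2 b1 b2 h t2

theorem g1 {s b t k G2 G3 : ℝ} (R : RegH s b t k G2 G3) (hT : t ≤ 284 / 1000 * s) (hb : s - t + 3 / 200 ≤ b) (hy : s - t ≤ 1 / 2)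
    (s1 : 433 / 1000 ≤ s) (s2 : s ≤ 963 / 2000)
    (b1 : 8 / 25 ≤ b) (b2 : b ≤ 1 / 2) (t1 : 0 ≤ t) (t2 : t ≤ 753 / 5000) :
    4 * ph (s - t) - 2 * ph s + 13 / 1000 ≤ G2 + G3 := by
  rcases le_total t (753 / 10000) with h | h
  · exact g2 R hT hb hy s1 s2 b1 b2 t1 h
  · exact g13 R hT hb hy s1 s2 b1 b2 h t2

theorem g0 {s b t k G2 G3 : ℝ} (R : RegH s b t k G2 G3) (hT : t ≤ 284 / 1000 * s) (hb : s - t + 3 / 200 ≤ b) (hy : s - t ≤ 1 / 2)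
    (s1 : 433 / 1000 ≤ s) (s2 : s ≤ 53 / 100)
    (b1 : 8 / 25 ≤ b) (b2 : b ≤ 1 / 2) (t1 : 0 ≤ t) (t2 : t ≤ 753 / 5000) :
    4 * ph (s - t) - 2 * ph s + 13 / 1000 ≤ G2 + G3 := by
  rcases le_total s (963 / 2000) with h | h
  · exact g1 R hT hb hy s1 h b1 b2 t1 t2
  · exact g48 R hT hb hy h s2 b1 b2 t1 t2

end Pool.Agent.Strip051.FourC.LA
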