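import Pool.Agent.Strip051.FourC.Box

set_option linter.unusedVariables false

/-! # A higher upper disc, boxes 1 -/

namespace Pool.Agent.Strip051.FourC.LA

open Pool.Agent.StripNear Pool.Agent.StripSquare Pool.Agent.Strip051
open Pool.Agent.Strip051.Four.Low (ph)

theorem g4 {s b t k G2 G3 : ℝ} (R : RegH s b t k G2 G3) (hT : t ≤ 284 / 1000 * s) (hb : s - t + 3 / 200 ≤ b) (hy : s - t ≤ 1 / 2)
    (s1 : 433 / 1000 ≤ s) (s2 : s ≤ 963 / 2000)
    (b1 : 8 / 25 ≤ b) (b2 : b ≤ 41 / 100) (t1 : 0 ≤ t) (t2 : t ≤ 377 / 10000) :
    4 * ph (s - t) - 2 * ph s + 13 / 1000 ≤ G2 + G3 := by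
  exfalso
  exact absurd b2 (not_le.mpr (by linear_combination s1 + t2 + hb))

theorem g5 {s b t k G2 G3 : ℝ} (R : RegH s b t k G2 G3) (hT : t ≤ 284 / 1000 * s) (hb : s - t + 3 / 200 ≤ b) (hy : s - t ≤ 1 / 2)
    (s1 : 433 / 1000 ≤ s) (s2 : s ≤ 963 / 2000)
    (b1 : 41 / 100 ≤ b) (b2 : b ≤ 1 / 2) (t1 : 0 ≤ t) (t2 : t ≤ 377 / 10000) :
    4 * ph (s - t) - 2 * ph s + 13 / 1000 ≤ G2 + G3 := by
  have e1 := R.lo0 (242 / 1000) (by norm_num)
  have e2 := up (t1 := (206 / 1000)) (t2 := (257 / 1000)) (x := s - t) (by norm_num)
    (by linear_combination (260609 / 250000) * s1 + (260609 / 250000) * t2) (by linear_combination (1066049 / 1000000) * s2 + (1066049 / 1000000) * t1)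
  have e3 := R.lo2 (313 / 1000) (by norm_num)
  have e4 := up (t1 := (69 / 1000)) (t2 := (78 / 1000)) (x := 8 / 25 * s) (by norm_num)
    (by linear_combination (1004761 / 3125000) * s1) (by linear_combination (251521 / 781250) * s2)
  have e5 := R.lo7 (780 / 1000) (by norm_num)
  have e6 := up (t1 := (214 / 1000)) (t2 := (268 / 1000)) (x := b) (by norm_num)
    (by linear_combination (261449 / 250000) * b1) (by linear_combination (66989 / 62500) * b2)
  have e7 := up (t1 := (214 / 1000)) (t2 := (266 / 1000)) (x := s - t + 3 / 200) (by norm_num)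
    (by linear_combination (261449 / 250000) * s1 + (261449 / 250000) * t2) (by linear_combination (267689 / 250000) * s2 + (267689 / 250000) * t1)
  have e8 := R.lo16 (176 / 1000) (by norm_num)
  have e9 := R.lo15 (15 / 1000) (by norm_num)
  rcases R.k13 with c2 | c2
  · rcases R.l20 with c3 | c3
    · linear_combination (3900 / 979) * R.h1 + (50687083359625 / 9459562113729) * e6 + (2500 / 979) * e5 + (500000 / 497309) * e4 + (1000000 / 902031) * e3 + (2000000 / 473529) * e2 + (500000 / 235359) * e1 + (4130774900 / 883088349) * R.k2 + (1558829456516309386480 / 5554982103363179518941) * s2 + (10280303402677085957 / 5202759162550950000) * b2 + (379433965482700 / 139389314271207) * t2 + 2 * R.h4 + c2 + c3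
    · linear_combination (3900 / 979) * R.h1 + (15625 / 15141) * e8 + (250000 / 235769) * e7 + (769036595838250 / 171119749060897) * e6 + (2500 / 979) * e5 + (500000 / 497309) * e4 + (1000000 / 902031) * e3 + (2000000 / 473529) * e2 + (500000 / 235359) * e1 + (6409675204600 / 1485648965801) * R.k2 + (402586889819107560480676500020 / 944288346955567933312865653509) * s2 + (164704598809159641801 / 188231723966986700000) * b2 + (72732048895345856300 / 32863679236408203183) * t2 + R.h4 + c2 + c3
  · rcases R.l20 with c3 | c3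
    · linear_combination (3900 / 979) * R.h1 + (40000 / 39991) * e9 + (250000 / 235769) * e7 + (1815941579204185375 / 378297348490136439) * e6 + (2500 / 979) * e5 + (500000 / 497309) * e4 + (1000000 / 902031) * e3 + (2000000 / 473529) * e2 + (500000 / 235359) * e1 + (164134113007100 / 35315586164859) * R.k2 + (5836090219835070109956905492912 / 7482273683990512625542859193477) * s2 + (356186429791283227118887 / 416127083339150082900000) * b2 + (72732048895345856300 / 32863679236408203183) * t2 + R.h4 + c2 + c3
    · linear_combination (3900 / 979) * R.h1 + (40000 / 39991) * e9 + (15625 / 15141) * e8 + (500000 / 235769) * e7 + (357865165697742523250 / 90917462753796124173) * e6 + (2500 / 979) * e5 + (500000 / 497309) * e4 + (1000000 / 902031) * e3 + (2000000 / 473529) * e2 + (500000 / 235359) * e1 + (36363791764028200 / 8487512541621113) * R.k2 + (4993943156482862457616256760496052 / 5394719326157159603016401478496917) * s2 + (489979730288345117657 / 2000184180583514731806) * b1 + (56005331182801016300 / 32863679236408203183) * t2 + c2 +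 c3

theorem g8 {s b t k G2 G3 : ℝ} (R : RegH s b t k G2 G3) (hT : t ≤ 284 / 1000 * s) (hb : s - t + 3 / 200 ≤ b) (hy : s - t ≤ 1 / 2)
    (s1 : 433 / 1000 ≤ s) (s2 : s ≤ 963 / 2000)
    (b1 : 8 / 25 ≤ b) (b2 : b ≤ 73 / 200) (t1 : 377 / 10000 ≤ t) (t2 : t ≤ 753 / 10000) :
    4 * ph (s - t) - 2 * ph s + 13 / 1000 ≤ G2 + G3 := by
  exfalso
  exact absurd b2 (not_le.mpr (by linear_combination s1 + t2 + hb))

theorem g10 {s b t k G2 G3 : ℝ} (R : RegH s b t k G2 G3) (hT : t ≤ 284 / 1000 * s) (hb : s - t + 3 / 200 ≤ b) (hy : s - t ≤ 1 / 2)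
    (s1 : 433 / 1000 ≤ s) (s2 : s ≤ 4573 / 10000)
    (b1 : 73 / 200 ≤ b) (b2 : b ≤ 41 / 100) (t1 : 377 / 10000 ≤ t) (t2 : t ≤ 753 / 10000) :
    4 * ph (s - t) - 2 * ph s + 13 / 1000 ≤ G2 + G3 := by
  have e1 := R.lo0 (235 / 1000) (by norm_num)
  have e2 := up (t1 := (184 / 1000)) (t2 := (220 / 1000)) (x := s - t) (by norm_num)
    (by linear_combination (16154 / 15625) * s1 + (16154 / 15625) * t2) (by linear_combination (2621 / 2500) * s2 + (2621 / 2500) * t1)
  have e3 := R.lo2 (277 / 1000) (by norm_num)
  have e4 := up (t1 := (69 / 1000)) (t2 := (74 / 1000)) (x := 8 / 25 * s) (by norm_num)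
    (by linear_combination (1004761 / 3125000) * s1) (by linear_combination (251369 / 781250) * s2)
  have e5 := R.lo7 (691 / 1000) (by norm_num)
  have e6 := up (t1 := (189 / 1000)) (t2 := (215 / 1000)) (x := b) (by norm_num)
    (by linear_combination (1035721 / 1000000) * b1) (by linear_combination (41849 / 40000) * b2)
  have e7 := up (t1 := (193 / 1000)) (t2 := (229 / 1000)) (x := s - t + 3 / 200) (by norm_num)
    (by linear_combination (1037249 / 1000000) * s1 + (1037249 / 1000000) * t2) (by linear_combination (1052441 / 1000000) * s2 + (1052441 / 1000000) * t1)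
  have e8 := R.lo16 (172 / 1000) (by norm_num)
  have e9 := R.lo15 (16 / 1000) (by norm_num)
  rcases R.k13 with c2 | c2
  · rcases R.l20 with c3 | c3
    · linear_combination (1382000 / 522519) * R.h1 + (122542748019896000 / 30854882209790859) * e6 + (1000000 / 522519) * e5 + (500000 / 497447) * e4 + (1000000 / 923271) * e3 + (25000 / 5997) * e2 + (80000 / 37791) * e1 + (521812016000 / 160808879883) * R.k2 + (1563438594290586140 / 11565274206049619211) * s2 + (2644447950367216961977 / 1542744110489542950000) * b2 + (167237441459300 / 107152316962039) * t2 + 2 * R.h4 + c2 + c3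
    · linear_combination (1382000 / 522519) * R.h1 + (62500 / 60651) * e8 + (1000000 / 955803) * e7 + (1952725807174169563000 / 623793153635341796403) * e6 + (1000000 / 522519) * e5 + (500000 / 497447) * e4 + (1000000 / 923271) * e3 + (25000 / 5997) * e2 + (80000 / 37791) * e1 + (9397009888310500 / 3251073124594611) * R.k2 + (5517758876043295856142550960 / 24831246722220361667113042329) * s2 + (42760857179127927614089009 / 62379315363534179640300000) * b2 + (114627770501142859900 / 102416506009267762317) * t2 + R.h4 + c2 + c3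
  · rcases R.l20 with c3 | c3
    · linear_combination (1382000 / 522519) * R.h1 + (15625 / 15621) * e9 + (1000000 / 955803) * e7 + (549704728043017889000 / 160661371666381002813) * e6 + (1000000 / 522519) * e5 + (500000 / 497447) * e4 + (1000000 / 923271) * e3 + (25000 / 5997) * e2 + (80000 / 37791) * e1 + (2690273687331500 / 837331837550781) * R.k2 + (10868157665973679411128487060 / 19186274177563647900379523877) * s2 + (10312283622893671727214239 / 16066137166638100281300000) * b2 + (114627770501142859900 / 102416506009267762317) * t2 + R.h4 + c2 + c3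
    · linear_combination (1382000 / 522519) * R.h1 + (15625 / 15621) * e9 + (62500 / 60651) * e8 + (2000000 / 955803) * e7 + (761923509700884660730000 / 295280995543565884897311) * e6 + (1000000 / 522519) * e5 + (500000 / 497447) * e4 + (1000000 / 923271) * e3 + (25000 / 5997) * e2 + (80000 / 37791) * e1 + (48388384967667005000 / 16928337759764139477) * R.k2 + (84492709763360467752269063879840 / 129296301682601423200657611407103) * s2 + (114202201576350381172580 / 295280995543565884897311) * b1 + (69409492743162401900 / 102416506009267762317) * t2 + c2 + c3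

theorem g11 {s b t k G2 G3 : ℝ} (R : RegH s b t k G2 G3) (hT : t ≤ 284 / 1000 * s) (hb : s - t + 3 / 200 ≤ b) (hy : s - t ≤ 1 / 2)
    (s1 : 4573 / 10000 ≤ s) (s2 : s ≤ 963 / 2000)
    (b1 : 73 / 200 ≤ b) (b2 : b ≤ 41 / 100) (t1 : 377 / 10000 ≤ t) (t2 : t ≤ 753 / 10000) :
    4 * ph (s - t) - 2 * ph s + 13 / 1000 ≤ G2 + G3 := by
  have e1 := R.lo0 (249 / 1000) (by norm_num)
  have e2 := up (t1 := (198 / 1000)) (t2 := (235 / 1000)) (x := s - t) (by norm_num)
    (by linear_combination (259801 / 250000) * s1 + (259801 / 250000) * t2) (by linear_combination (42209 / 40000) * s2 + (42209 / 40000) * t1)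
  have e3 := R.lo2 (292 / 1000) (by norm_num)
  have e4 := up (t1 := (73 / 1000)) (t2 := (78 / 1000)) (x := 8 / 25 * s) (by norm_num)
    (by linear_combination (1005329 / 3125000) * s1) (by linear_combination (251521 / 781250) * s2)
  have e5 := R.lo7 (691 / 1000) (by norm_num)
  have e6 := up (t1 := (189 / 1000)) (t2 := (215 / 1000)) (x := b) (by norm_num)
    (by linear_combination (1035721 / 1000000) * b1) (by linear_combination (41849 / 40000) * b2)
  have e7 := up (t1 := (207 / 1000)) (t2 := (243 / 1000)) (x := s - t + 3 / 200) (by norm_num)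
    (by linear_combination (1042849 / 1000000) * s1 + (1042849 / 1000000) * t2) (by linear_combination (1059049 / 1000000) * s2 + (1059049 / 1000000) * t1)
  have e8 := R.lo16 (185 / 1000) (by norm_num)
  have e9 := R.lo15 (20 / 1000) (by norm_num)
  rcases R.k13 with c2 | c2
  · rcases R.l20 with c3 | c3
    · linear_combination (1382000 / 522519) * R.h1 + (134286687883000 / 33519353317087) * e6 + (1000000 / 522519) * e5 + (500000 / 497153) * e4 + (62500 / 57171) * e3 + (400000 / 95347) * e2 + (2000000 / 937999) * e1 + (573580500 / 174695519) * R.k2 + (419046200067220371980 / 2541998333294273978439) * s2 + (2864102368643785461 / 1675967665854350000) * b2 + (24431916042700 / 16656693650093) * t2 + 2 * R.h4 + c2 + c3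
    · linear_combination (1382000 / 522519) * R.h1 + (40000 / 38631) * e8 + (1000000 / 949699) * e7 + (4064939761613345800 / 1294886137992387897) * e6 + (1000000 / 522519) * e5 + (500000 / 497153) * e4 + (62500 / 57171) * e3 + (400000 / 95347) * e2 + (2000000 / 937999) * e1 + (19572494614300 / 6748662594489) * R.k2 + (2648299097876157574329521925980 / 10362264727954986926389641596699) * s2 + (88592927621254744363891 / 129488613799238789700000) * b2 + (15707454091294297300 / 15818845302799672007) * t2 + R.h4 + c2 + c3
  · rcases R.l20 with c3 | c3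
    · linear_combination (1382000 / 522519) * R.h1 + (2500 / 2499) * e9 + (1000000 / 949699) * e7 + (16994128918536800 / 4927344937611789) * e6 + (1000000 / 522519) * e5 + (500000 / 497153) * e4 + (62500 / 57171) * e3 + (400000 / 95347) * e2 + (2000000 / 937999) * e1 + (83288712800 / 25680241293) * R.k2 + (207385806889592811828336804 / 331351625998405312183270177) * s2 + (314242902387160482767 / 492734493761178900000) * b2 + (15707454091294297300 / 15818845302799672007) * t2 + R.h4 + c2 + c3
    · linear_combination (1382000 / 522519) * R.h1 + (2500 / 2499) * e9 + (40000 / 38631) * e8 + (2000000 / 949699) * e7 + (4964291620068237600 / 1922709720049303241) * e6 + (1000000 / 522519) * e5 + (500000 / 497153) * e4 + (62500 / 57171) * e3 + (400000 / 95347) * e2 + (2000000 / 937999) * e1 + (315273188115600 / 110228155709987) * R.k2 + (9172807305538146761906366305724 / 12800444663944395614951910207687) * s2 + (3720406478213187048 / 9613548600246516205) * b1 + (8211941948752447300 / 15818845302799672007) * t2 + c2 + c3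

theorem g12 {s b t k G2 G3 : ℝ} (R : RegH s b t k G2 G3) (hT : t ≤ 284 / 1000 * s) (hb : s - t + 3 / 200 ≤ b) (hy : s - t ≤ 1 / 2)
    (s1 : 433 / 1000 ≤ s) (s2 : s ≤ 963 / 2000)
    (b1 : 41 / 100 ≤ b) (b2 : b ≤ 1 / 2) (t1 : 377 / 10000 ≤ t) (t2 : t ≤ 753 / 10000) :
    4 * ph (s - t) - 2 * ph s + 13 / 1000 ≤ G2 + G3 := by
  have e1 := R.lo0 (242 / 1000) (by norm_num)
  have e2 := up (t1 := (184 / 1000)) (t2 := (235 / 1000)) (x := s - t) (by norm_num)
    (by linear_combination (16154 / 15625) * s1 + (16154 / 15625) * t2) (by linear_combination (42209 / 40000) * s2 + (42209 / 40000) * t1)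
  have e3 := R.lo2 (288 / 1000) (by norm_num)
  have e4 := up (t1 := (69 / 1000)) (t2 := (78 / 1000)) (x := 8 / 25 * s) (by norm_num)
    (by linear_combination (1004761 / 3125000) * s1) (by linear_combination (251521 / 781250) * s2)
  have e5 := R.lo7 (703 / 1000) (by norm_num)
  have e6 := up (t1 := (214 / 1000)) (t2 := (268 / 1000)) (x := b) (by norm_num)
    (by linear_combination (261449 / 250000) * b1) (by linear_combination (66989 / 62500) * b2)
  have e7 := up (t1 := (193 / 1000)) (t2 := (243 / 1000)) (x := s - t + 3 / 200) (by norm_num)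
    (by linear_combination (1037249 / 1000000) * s1 + (1037249 / 1000000) * t2) (by linear_combination (1059049 / 1000000) * s2 + (1059049 / 1000000) * t1)
  have e8 := R.lo16 (176 / 1000) (by norm_num)
  have e9 := R.lo15 (15 / 1000) (by norm_num)
  rcases R.k13 with c2 | c2
  · rcases R.l20 with c3 | c3
    · linear_combination (1406000 / 505791) * R.h1 + (325423731111250 / 77634338746419) * e6 + (1000000 / 505791) * e5 + (500000 / 497309) * e4 + (15625 / 14329) * e3 + (100000 / 23919) * e2 + (500000 / 235359) * e1 + (24698693000 / 7247479239) * R.k2 + (11854249303214660 / 83055596142990807) * s2 + (87470071768534746227 / 42698886310530450000) * b2 + (13671364654900 / 8254878853221) * t2 + 2 * R.h4 + c2 + c3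
    · linear_combination (1406000 / 505791) * R.h1 + (15625 / 15141) * e8 + (1000000 / 953101) * e7 + (186260390527163125 / 55974358236168099) * e6 + (1000000 / 505791) * e5 + (500000 / 497309) * e4 + (15625 / 14329) * e3 + (100000 / 23919) * e2 + (500000 / 235359) * e1 + (15909608328500 / 5225432531319) * R.k2 + (151939536046889117092240 / 641287955327703046109523) * s2 + (58346026919323238529667 / 61571794059784908900000) * b2 + (105967012853320100 / 88401497639143689) * t2 + R.h4 + c2 + c3
  · rcases R.l20 with c3 | c3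
    · linear_combination (1406000 / 505791) * R.h1 + (40000 / 39991) * e9 + (1000000 / 953101) * e7 + (1611663937432977250 / 443524977258291747) * e6 + (1000000 / 505791) * e5 + (500000 / 497309) * e4 + (15625 / 14329) * e3 + (100000 / 23919) * e2 + (500000 / 235359) * e1 + (139861208096600 / 41404848892407) * R.k2 + (3000957132841854790144564 / 5081384311771383498507219) * s2 + (453021448725939049769851 / 487877474984120921700000) * b2 + (105967012853320100 / 88401497639143689) * t2 + R.h4 + c2 + c3
    · linear_combination (1406000 / 505791) * R.h1 + (40000 / 39991) * e9 + (15625 / 15141) * e8 + (2000000 / 953101) * e7 + (885671205591249659125 / 319781508603228349587) * e6 + (1000000 / 505791) * e5 + (500000 / 497309) * e4 + (15625 / 14329) * e3 + (100000 / 23919) * e2 + (500000 / 235359) * e1 + (89995803946780100 / 29852896051425447) * R.k2 + (2508816060381192151220380144 / 3663678088787167502423704899) * s2 + (2425276221526869155477 / 14070386378542047381828) * b1 + (65527381617316100 / 88401497639143689) * t2 + c2 + c3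

theorem g19 {s b t k G2 G3 : ℝ} (R : RegH s b t k G2 G3) (hT : t ≤ 284 / 1000 * s) (hb : s - t + 3 / 200 ≤ b) (hy : s - t ≤ 1 / 2)
    (s1 : 433 / 1000 ≤ s) (s2 : s ≤ 1113 / 2500)
    (b1 : 8 / 25 ≤ b) (b2 : b ≤ 137 / 400) (t1 : 753 / 10000 ≤ t) (t2 : t ≤ 113 / 1000) :
    4 * ph (s - t) - 2 * ph s + 13 / 1000 ≤ G2 + G3 := by
  have e1 := R.lo0 (231 / 1000) (by norm_num)
  have e2 := up (t1 := (164 / 1000)) (t2 := (192 / 1000)) (x := s - t) (by norm_num)
    (by linear_combination (64181 / 62500) * s1 + (64181 / 62500) * t2) (by linear_combination (16201 / 15625) * s2 + (16201 / 15625) * t1)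
  have e3 := up (t1 := (69 / 1000)) (t2 := (72 / 1000)) (x := 8 / 25 * s) (by norm_num)
    (by linear_combination (1004761 / 3125000) * s1) (by linear_combination (125648 / 390625) * s2)
  have e4 := R.lo7 (609 / 1000) (by norm_num)
  have e5 := up (t1 := (164 / 1000)) (t2 := (177 / 1000)) (x := b) (by norm_num)
    (by linear_combination (64181 / 62500) * b1) (by linear_combination (1031329 / 1000000) * b2)
  have e6 := up (t1 := (172 / 1000)) (t2 := (201 / 1000)) (x := s - t + 3 / 200) (by norm_num)
    (by linear_combination (64349 / 62500) * s1 + (64349 / 62500) * t2) (by linear_combination (1040401 / 1000000) * s2 + (1040401 / 1000000) * t1)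
  have e7 := R.lo15 (19 / 1000) (by norm_num)
  rcases R.k13 with c2 | c2
  · linear_combination (1218000 / 629119) * R.h1 + (342346010000 / 152714233417) * e5 + (1000000 / 629119) * e4 + (125000 / 124379) * e3 + (62500 / 15133) * e2 + (3000000 / 946639) * e1 + (1218000 / 629119) * R.k2 + (91788337171930 / 1781789870335073) * s2 + (10116460997612451 / 15271423341700000) * b2 + (4434096250 / 9520457827) * t2 + R.h4 + c2 + R.g3
  · linear_combination (1218000 / 629119) * R.h1 + (1000000 / 999639) * e7 + (250000 / 241357) * e6 + (258434995773350000 / 152659103578736463) * e5 + (1000000 / 629119) * e4 + (125000 / 124379) * e3 + (62500 / 15133) * e2 + (3000000 / 946639) * e1 + (1193653780000 / 628891888041) * R.k2 + (183008307673119623802098380 / 429892210602220073201723979) * s2 + (56749216200557650 / 152659103578736463) * b1 + (182417476243500 / 2297829139751239) * t2 + c2 + R.g3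

theorem g20 {s b t k G2 G3 : ℝ} (R : RegH s b t k G2 G3) (hT : t ≤ 284 / 1000 * s) (hb : s - t + 3 / 200 ≤ b) (hy : s - t ≤ 1 / 2)
    (s1 : 1113 / 2500 ≤ s) (s2 : s ≤ 4573 / 10000)
    (b1 : 8 / 25 ≤ b) (b2 : b ≤ 137 / 400) (t1 : 753 / 10000 ≤ t) (t2 : t ≤ 113 / 1000) :
    4 * ph (s - t) - 2 * ph s + 13 / 1000 ≤ G2 + G3 := by
  exfalso
  exact absurd b2 (not_le.mpr (by linear_combination s1 + t2 + hb))

theorem g21 {s b t k G2 G3 : ℝ} (R : RegH s b t k G2 G3) (hT : t ≤ 284 / 1000 * s) (hb : s - t + 3 / 200 ≤ b) (hy : s - t ≤ 1 / 2)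
    (s1 : 433 / 1000 ≤ s) (s2 : s ≤ 4573 / 10000)
    (b1 : 137 / 400 ≤ b) (b2 : b ≤ 73 / 200) (t1 : 753 / 10000 ≤ t) (t2 : t ≤ 113 / 1000) :
    4 * ph (s - t) - 2 * ph s + 13 / 1000 ≤ G2 + G3 := by
  have e1 := R.lo0 (235 / 1000) (by norm_num)
  have e2 := up (t1 := (164 / 1000)) (t2 := (199 / 1000)) (x := s - t) (by norm_num)
    (by linear_combination (64181 / 62500) * s1 + (64181 / 62500) * t2) (by linear_combination (1039601 / 1000000) * s2 + (1039601 / 1000000) * t1)
  have e3 := R.lo2 (251 / 1000) (by norm_num)
  have e4 := up (t1 := (69 / 1000)) (t2 := (74 / 1000)) (x := 8 / 25 * s) (by norm_num)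
    (by linear_combination (1004761 / 3125000) * s1) (by linear_combination (251369 / 781250) * s2)
  have e5 := R.lo7 (615 / 1000) (by norm_num)
  have e6 := up (t1 := (176 / 1000)) (t2 := (190 / 1000)) (x := b) (by norm_num)
    (by linear_combination (16109 / 15625) * b1) (by linear_combination (10361 / 10000) * b2)
  have e7 := up (t1 := (172 / 1000)) (t2 := (208 / 1000)) (x := s - t + 3 / 200) (by norm_num)
    (by linear_combination (64349 / 62500) * s1 + (64349 / 62500) * t2) (by linear_combination (16301 / 15625) * s2 + (16301 / 15625) * t1)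
  have e8 := R.lo16 (175 / 1000) (by norm_num)
  have e9 := R.lo15 (18 / 1000) (by norm_num)
  rcases R.k13 with c2 | c2
  · rcases R.l20 with c3 | c3
    · linear_combination (49200 / 24871) * R.h1 + (6009820053700 / 1828312739757) * e6 + (40000 / 24871) * e5 + (500000 / 497447) * e4 + (1000000 / 936999) * e3 + (1000000 / 241841) * e2 + (80000 / 37791) * e1 + (8369370400 / 3329157447) * R.k2 + (7706801470256113880 / 473327511606191587527) * s2 + (1687503662362740181 / 1005572006866350000) * b2 + (815572753645400 / 805126766139927) * t2 + 2 * R.h4 + c2 + c3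
    · linear_combination (49200 / 24871) * R.h1 + (1600 / 1551) * e8 + (15625 / 15066) * e7 + (210210755239280 / 85930698768579) * e6 + (40000 / 24871) * e5 + (500000 / 497447) * e4 + (1000000 / 936999) * e3 + (1000000 / 241841) * e2 + (80000 / 37791) * e1 + (336865615760 / 156470400009) * R.k2 + (40410741161091279035570785 / 819290163079342717915884732) * s2 + (64741010179033846507 / 94523768645436900000) * b2 + (1668217540547951075 / 2695564413036475596) * t2 + R.h4 + c2 + c3
  · rcases R.l20 with c3 | c3
    · linear_combination (49200 / 24871) * R.h1 + (250000 / 249919) * e9 + (15625 / 15066) * e7 + (2501711206441271975 / 913860183214659366) * e6 + (40000 / 24871) * e5 + (500000 / 497447) * e4 + (1000000 / 936999) * e3 + (1000000 / 241841) * e2 + (80000 / 37791) * e1 + (2061702263974600 / 832019699996793) * R.k2 + (157966317393090352278247071955 / 396046766473164898875860727924) * s2 + (316143980981265416472839 / 502623100768062651300000) * b2 + (1668217540547951075 / 2695564413036475596) * t2 + R.h4 + c2 + c3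
    · linear_combination (49200 / 24871) * R.h1 + (250000 / 249919) * e9 + (1600 / 1551) * e8 + (15625 / 7533) * e7 + (81466737687969891265 / 42951428611088990202) * e6 + (40000 / 24871) * e5 + (500000 / 497447) * e4 + (1000000 / 936999) * e3 + (1000000 / 241841) * e2 + (80000 / 37791) * e1 + (82780884225042440 / 39104925899849271) * R.k2 + (44217061072473947233163330528815 / 102378089133313126359409998168354) * s2 + (17209423567171459780711 / 47246571472197889222200) * b1 + (302948750945551475 / 1347782206518237798) * t2 + c2 + c3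

theorem g23 {s b t k G2 G3 : ℝ} (R : RegH s b t k G2 G3) (hT : t ≤ 284 / 1000 * s) (hb : s - t + 3 / 200 ≤ b) (hy : s - t ≤ 1 / 2)
    (s1 : 433 / 1000 ≤ s) (s2 : s ≤ 4573 / 10000)
    (b1 : 8 / 25 ≤ b) (b2 : b ≤ 73 / 200) (t1 : 113 / 1000 ≤ t) (t2 : t ≤ 659 / 5000) :
    4 * ph (s - t) - 2 * ph s + 13 / 1000 ≤ G2 + G3 := by
  have e1 := R.lo0 (235 / 1000) (by norm_num)
  have e2 := up (t1 := (154 / 1000)) (t2 := (178 / 1000)) (x := s - t) (by norm_num)
    (by linear_combination (255929 / 250000) * s1 + (255929 / 250000) * t2) (by linear_combination (257921 / 250000) * s2 + (257921 / 250000) * t1)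
  have e3 := up (t1 := (69 / 1000)) (t2 := (74 / 1000)) (x := 8 / 25 * s) (by norm_num)
    (by linear_combination (1004761 / 3125000) * s1) (by linear_combination (251369 / 781250) * s2)
  have e4 := R.lo7 (572 / 1000) (by norm_num)
  have e5 := up (t1 := (164 / 1000)) (t2 := (190 / 1000)) (x := b) (by norm_num)
    (by linear_combination (64181 / 62500) * b1) (by linear_combination (10361 / 10000) * b2)
  have e6 := up (t1 := (162 / 1000)) (t2 := (186 / 1000)) (x := s - t + 3 / 200) (by norm_num)
    (by linear_combination (256561 / 250000) * s1 + (256561 / 250000) * t2) (by linear_combination (258649 / 250000) * s2 + (258649 / 250000) * t1)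
  have e7 := R.lo15 (19 / 1000) (by norm_num)
  rcases R.k13 with c2 | c2
  · linear_combination (71500 / 42051) * R.h1 + (2073666125 / 1018517271) * e5 + (62500 / 42051) * e4 + (500000 / 497447) * e3 + (1000000 / 243147) * e2 + (40000 / 12597) * e1 + (71500 / 42051) * R.k2 + (41135704471760 / 507880579232091) * s1 + (75024357045413 / 101851727100000) * b2 + (1141359500 / 3408191499) * t2 + R.h4 + c2 + R.g3
  · linear_combination (71500 / 42051) * R.h1 + (1000000 / 999639) * e7 + (250000 / 242467) * e6 + (504291076837625 / 339383195421723) * e5 + (62500 / 42051) * e4 + (500000 / 497447) * e3 + (1000000 / 243147) * e2 + (40000 / 12597) * e1 + (23292083500 / 14011939863) * R.k2 + (10900591571441352929454200 / 41033275106480441187510861) * s2 + (414238944104923 / 1357532781686892) * b1 + (19770646526500 / 826373968188033) * t1 + c2 + R.g3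

theorem g24 {s b t k G2 G3 : ℝ} (R : RegH s b t k G2 G3) (hT : t ≤ 284 / 1000 * s) (hb : s - t + 3 / 200 ≤ b) (hy : s - t ≤ 1 / 2)
    (s1 : 433 / 1000 ≤ s) (s2 : s ≤ 4573 / 10000)
    (b1 : 8 / 25 ≤ b) (b2 : b ≤ 73 / 200) (t1 : 659 / 5000 ≤ t) (t2 : t ≤ 753 / 5000) :
    4 * ph (s - t) - 2 * ph s + 13 / 1000 ≤ G2 + G3 := by
  exfalso
  exact absurd hT (not_le.mpr (by linear_combination (71 / 250) * s2 + t1))

theorem g25 {s b t k G2 G3 : ℝ} (R : RegH s b t k G2 G3) (hT : t ≤ 284 / 1000 * s) (hb : s - t + 3 / 200 ≤ b) (hy : s - t ≤ 1 / 2)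
    (s1 : 433 / 1000 ≤ s) (s2 : s ≤ 4573 / 10000)
    (b1 : 73 / 200 ≤ b) (b2 : b ≤ 41 / 100) (t1 : 753 / 10000 ≤ t) (t2 : t ≤ 753 / 5000) :
    4 * ph (s - t) - 2 * ph s + 13 / 1000 ≤ G2 + G3 := by
  have e1 := R.lo0 (235 / 1000) (by norm_num)
  have e2 := up (t1 := (144 / 1000)) (t2 := (199 / 1000)) (x := s - t) (by norm_num)
    (by linear_combination (15949 / 15625) * s1 + (15949 / 15625) * t2) (by linear_combination (1039601 / 1000000) * s2 + (1039601 / 1000000) * t1)
  have e3 := up (t1 := (69 / 1000)) (t2 := (74 / 1000)) (x := 8 / 25 * s) (by norm_num)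
    (by linear_combination (1004761 / 3125000) * s1) (by linear_combination (251369 / 781250) * s2)
  have e4 := R.lo7 (595 / 1000) (by norm_num)
  have e5 := up (t1 := (189 / 1000)) (t2 := (215 / 1000)) (x := b) (by norm_num)
    (by linear_combination (1035721 / 1000000) * b1) (by linear_combination (41849 / 40000) * b2)
  have e6 := up (t1 := (152 / 1000)) (t2 := (208 / 1000)) (x := s - t + 3 / 200) (by norm_num)
    (by linear_combination (15986 / 15625) * s1 + (15986 / 15625) * t2) (by linear_combination (16301 / 15625) * s2 + (16301 / 15625) * t1)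
  have e7 := R.lo15 (16 / 1000) (by norm_num)
  rcases R.k13 with c2 | c2
  · linear_combination (47600 / 25839) * R.h1 + (984409600 / 450709677) * e5 + (40000 / 25839) * e4 + (500000 / 497447) * e3 + (250000 / 60709) * e2 + (40000 / 12597) * e1 + (47600 / 25839) * R.k2 + (12914634516910 / 380423226500031) * s1 + (37288617997231 / 45070967700000) * b2 + (61277650 / 142605441) * t2 + R.h4 + c2 + R.g3
  · linear_combination (47600 / 25839) * R.h1 + (15625 / 15621) * e7 + (15625 / 15131) * e6 + (3834886338200 / 2346845288139) * e5 + (40000 / 25839) * e4 + (500000 / 497447) * e3 + (250000 / 60709) * e2 + (40000 / 12597) * e1 + (243546700 / 134543673) * R.k2 + (3272618415832493490745 / 9990816418591814300209) * s2 + (261272028826 / 1066747858245) * b1 + (125036516525 / 2157762927771) * t2 + c2 + R.g3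

theorem g29 {s b t k G2 G3 : ℝ} (R : RegH s b t k G2 G3) (hT : t ≤ 284 / 1000 * s) (hb : s - t + 3 / 200 ≤ b) (hy : s - t ≤ 1 / 2)
    (s1 : 4573 / 10000 ≤ s) (s2 : s ≤ 963 / 2000)
    (b1 : 8 / 25 ≤ b) (b2 : b ≤ 137 / 400) (t1 : 753 / 10000 ≤ t) (t2 : t ≤ 113 / 1000) :
    4 * ph (s - t) - 2 * ph s + 13 / 1000 ≤ G2 + G3 := by
  exfalso
  exact absurd b2 (not_le.mpr (by linear_combination s1 + t2 + hb))

theorem g31 {s b t k G2 G3 : ℝ} (R : RegH s b t k G2 G3) (hT : t ≤ 284 / 1000 * s) (hb : s - t + 3 / 200 ≤ b) (hy : s - t ≤ 1 / 2)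
    (s1 : 4573 / 10000 ≤ s) (s2 : s ≤ 2347 / 5000)
    (b1 : 137 / 400 ≤ b) (b2 : b ≤ 73 / 200) (t1 : 753 / 10000 ≤ t) (t2 : t ≤ 113 / 1000) :
    4 * ph (s - t) - 2 * ph s + 13 / 1000 ≤ G2 + G3 := by
  have e1 := R.lo0 (246 / 1000) (by norm_num)
  have e2 := up (t1 := (177 / 1000)) (t2 := (206 / 1000)) (x := s - t) (by norm_num)
    (by linear_combination (1031329 / 1000000) * s1 + (1031329 / 1000000) * t2) (by linear_combination (260609 / 250000) * s2 + (260609 / 250000) * t1)
  have e3 := R.lo2 (262 / 1000) (by norm_num)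
  have e4 := up (t1 := (73 / 1000)) (t2 := (76 / 1000)) (x := 8 / 25 * s) (by norm_num)
    (by linear_combination (1005329 / 3125000) * s1) (by linear_combination (125722 / 390625) * s2)
  have e5 := R.lo7 (615 / 1000) (by norm_num)
  have e6 := up (t1 := (176 / 1000)) (t2 := (190 / 1000)) (x := b) (by norm_num)
    (by linear_combination (16109 / 15625) * b1) (by linear_combination (10361 / 10000) * b2)
  have e7 := up (t1 := (185 / 1000)) (t2 := (214 / 1000)) (x := s - t + 3 / 200) (by norm_num)
    (by linear_combination (41369 / 40000) * s1 + (41369 / 40000) * t2) (by linear_combination (261449 / 250000) * s2 + (261449 / 250000) * t1)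
  have e8 := R.lo16 (185 / 1000) (by norm_num)
  have e9 := R.lo15 (21 / 1000) (by norm_num)
  rcases R.k13 with c2 | c2
  · rcases R.l20 with c3 | c3
    · linear_combination (49200 / 24871) * R.h1 + (21060810783175 / 6360556564278) * e6 + (40000 / 24871) * e5 + (250000 / 248613) * e4 + (250000 / 232839) * e3 + (2000000 / 481769) * e2 + (500000 / 234871) * e1 + (14713779800 / 5790938769) * R.k2 + (60950065017794310040 / 2183366050541877268431) * s2 + (2927260051780485737 / 1749153055176450000) * b2 + (2652783883412200 / 2789894779802361) * t2 + 2 * R.h4 + c2 + c3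
    · linear_combination (49200 / 24871) * R.h1 + (40000 / 38631) * e8 + (100000 / 96041) * e7 + (200715684324659575 / 81904886878207806) * e6 + (40000 / 24871) * e5 + (250000 / 248613) * e4 + (250000 / 232839) * e3 + (2000000 / 481769) * e2 + (500000 / 234871) * e1 + (160900711224200 / 74569918528413) * R.k2 + (2059380290227744388708583620 / 34179903394195066862193212373) * s2 + (30816656480008230874099 / 45047687783014293300000) * b2 + (13041746839334263300 / 24358571322454413891) * t2 + R.h4 + c2 + c3
  · rcases R.l20 with c3 | c3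
    · linear_combination (49200 / 24871) * R.h1 + (1000000 / 999559) * e9 + (100000 / 96041) * e7 + (1593028141090383575 / 577977414439377582) * e6 + (40000 / 24871) * e5 + (250000 / 248613) * e4 + (250000 / 232839) * e3 + (2000000 / 481769) * e2 + (500000 / 234871) * e1 + (1314915599528200 / 526216815000261) * R.k2 + (92043658326083549819409368780 / 214096204696154375866866686091) * s2 + (198806487088815195684203 / 317887577941657670100000) * b2 + (13041746839334263300 / 24358571322454413891) * t2 + R.h4 + c2 + c3
    · linear_combination (49200 / 24871) * R.h1 + (1000000 / 999559) * e9 + (40000 / 38631) * e8 + (200000 / 96041) * e7 + (14108578598238010717175 / 7442615165735865123414) * e6 + (40000 / 24871) * e5 + (250000 / 248613) * e4 + (250000 / 232839) * e3 + (2000000 / 481769) * e2 + (500000 / 234871) * e1 + (14336165221123343800 / 6776093926758360897) * R.k2 + (16131552403910844213614795403440 / 34897681365473163266299269832833) * s2 + (596072733285997774969069 / 1637375336461890327151080) * b1 + (2922037592596608400 / 24358571322454413891)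 * t2 + c2 + c3

theorem g32 {s b t k G2 G3 : ℝ} (R : RegH s b t k G2 G3) (hT : t ≤ 284 / 1000 * s) (hb : s - t + 3 / 200 ≤ b) (hy : s - t ≤ 1 / 2)
    (s1 : 2347 / 5000 ≤ s) (s2 : s ≤ 963 / 2000)
    (b1 : 137 / 400 ≤ b) (b2 : b ≤ 73 / 200) (t1 : 753 / 10000 ≤ t) (t2 : t ≤ 113 / 1000) :
    4 * ph (s - t) - 2 * ph s + 13 / 1000 ≤ G2 + G3 := by
  exfalso
  exact absurd b2 (not_le.mpr (by linear_combination s1 + t2 + hb))

theorem g36 {s b t k G2 G3 : ℝ} (R : RegH s b t k G2 G3) (hT : t ≤ 284 / 1000 * s) (hb : s - t + 3 / 200 ≤ b) (hy : s - t ≤ 1 / 2)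
    (s1 : 4573 / 10000 ≤ s) (s2 : s ≤ 963 / 2000)
    (b1 : 8 / 25 ≤ b) (b2 : b ≤ 137 / 400) (t1 : 113 / 1000 ≤ t) (t2 : t ≤ 153 / 1250) :
    4 * ph (s - t) - 2 * ph s + 13 / 1000 ≤ G2 + G3 := by
  exfalso
  exact absurd b2 (not_le.mpr (by linear_combination s1 + t2 + hb))

theorem g38 {s b t k G2 G3 : ℝ} (R : RegH s b t k G2 G3) (hT : t ≤ 284 / 1000 * s) (hb : s - t + 3 / 200 ≤ b) (hy : s - t ≤ 1 / 2)
    (s1 : 4573 / 10000 ≤ s) (s2 : s ≤ 2347 / 5000)
    (b1 : 137 / 400 ≤ b) (b2 : b ≤ 73 / 200) (t1 : 113 / 1000 ≤ t) (t2 : t ≤ 153 / 1250) :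
    4 * ph (s - t) - 2 * ph s + 13 / 1000 ≤ G2 + G3 := by
  have e1 := R.lo0 (246 / 1000) (by norm_num)
  have e2 := up (t1 := (172 / 1000)) (t2 := (185 / 1000)) (x := s - t) (by norm_num)
    (by linear_combination (64349 / 62500) * s1 + (64349 / 62500) * t2) (by linear_combination (41369 / 40000) * s2 + (41369 / 40000) * t1)
  have e3 := R.lo2 (248 / 1000) (by norm_num)
  have e4 := up (t1 := (73 / 1000)) (t2 := (76 / 1000)) (x := 8 / 25 * s) (by norm_num)
    (by linear_combination (1005329 / 3125000) * s1) (by linear_combination (125722 / 390625) * s2)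
  have e5 := R.lo7 (582 / 1000) (by norm_num)
  have e6 := up (t1 := (176 / 1000)) (t2 := (190 / 1000)) (x := b) (by norm_num)
    (by linear_combination (16109 / 15625) * b1) (by linear_combination (10361 / 10000) * b2)
  have e7 := up (t1 := (180 / 1000)) (t2 := (193 / 1000)) (x := s - t + 3 / 200) (by norm_num)
    (by linear_combination (2581 / 2500) * s1 + (2581 / 2500) * t2) (by linear_combination (1037249 / 1000000) * s2 + (1037249 / 1000000) * t1)
  have e8 := R.lo16 (185 / 1000) (by norm_num)
  have e9 := R.lo15 (21 / 1000) (by norm_num)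
  rcases R.k13 with c2 | c2
  · rcases R.l20 with c3 | c3
    · linear_combination (291000 / 165319) * R.h1 + (32860721463125 / 10650778651968) * e6 + (250000 / 165319) * e5 + (250000 / 248613) * e4 + (15625 / 14664) * e3 + (200000 / 48409) * e2 + (500000 / 234871) * e1 + (2774223125 / 1212118908) * R.k2 + (28170681805863335 / 531419139348959316) * s1 + (2514378422709323561 / 1464482064645600000) * b2 + (47752077226925 / 58677464217372) * t2 + 2 * R.h4 + c2 + c3
    · linear_combination (291000 / 165319) * R.h1 + (40000 / 38631) * e8 + (50000 / 48263) * e7 + (101707042246762075 / 45716692233797312) * e6 + (250000 / 165319) * e5 + (250000 / 248613) * e4 + (15625 / 14664) * e3 + (200000 / 48409) * e2 + (500000 / 234871) * e1 + (9914628189275 / 5202818392772) * R.k2 + (69255778168385236065705 / 1393534917783669408433868) * s1 + (4572883721022153264687 / 6286045182147130400000) * b2 + (1210323795549093475 / 2831950455523024836) * t2 + R.h4 + c2 + c3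
  · rcases R.l20 with c3 | c3
    · linear_combination (291000 / 165319) * R.h1 + (1000000 / 999559) * e9 + (50000 / 48263) * e7 + (2448929247415857625 / 967825605325680192) * e6 + (250000 / 165319) * e5 + (250000 / 248613) * e4 + (15625 / 14664) * e3 + (200000 / 48409) * e2 + (500000 / 234871) * e1 + (247462790769625 / 110144033051052) * R.k2 + (92167265704639066350199465 / 288051361870461186370320948) * s2 + (88997918707049909771317 / 133076020732281026400000) * b2 + (1210323795549093475 / 2831950455523024836) * t2 + R.h4 + c2 + c3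
    · linear_combination (291000 / 165319) * R.h1 + (1000000 / 999559) * e9 + (40000 / 38631) * e8 + (100000 / 48263) * e7 + (6936640824347905761175 / 4154230106592927944128) * e6 + (250000 / 165319) * e5 + (250000 / 248613) * e4 + (15625 / 14664) * e3 + (200000 / 48409) * e2 + (500000 / 234871) * e1 + (881067042340645975 / 472774904532798868) * R.k2 + (5059596051052463001586131265 / 15650790661628391126120771508) * s2 + (293065841268281401706189 / 913930623450444147708160) * b1 + (115989087895105675 / 2831950455523024836) * t2 + c2 + c3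

theorem g40 {s b t k G2 G3 : ℝ} (R : RegH s b t k G2 G3) (hT : t ≤ 284 / 1000 * s) (hb : s - t + 3 / 200 ≤ b) (hy : s - t ≤ 1 / 2)
    (s1 : 2347 / 5000 ≤ s) (s2 : s ≤ 963 / 2000)
    (b1 : 137 / 400 ≤ b) (b2 : b ≤ 1769 / 5000) (t1 : 113 / 1000 ≤ t) (t2 : t ≤ 153 / 1250) :
    4 * ph (s - t) - 2 * ph s + 13 / 1000 ≤ G2 + G3 := by
  exfalso
  exact absurd b2 (not_le.mpr (by linear_combination s1 + t2 + hb))

theorem g41 {s b t k G2 G3 : ℝ} (R : RegH s b t k G2 G3) (hT : t ≤ 284 / 1000 * s) (hb : s - t + 3 / 200 ≤ b) (hy : s - t ≤ 1 / 2)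
    (s1 : 2347 / 5000 ≤ s) (s2 : s ≤ 963 / 2000)
    (b1 : 1769 / 5000 ≤ b) (b2 : b ≤ 73 / 200) (t1 : 113 / 1000 ≤ t) (t2 : t ≤ 153 / 1250) :
    4 * ph (s - t) - 2 * ph s + 13 / 1000 ≤ G2 + G3 := by
  have e1 := R.lo0 (253 / 1000) (by norm_num)
  have e2 := up (t1 := (179 / 1000)) (t2 := (191 / 1000)) (x := s - t) (by norm_num)
    (by linear_combination (1032041 / 1000000) * s1 + (1032041 / 1000000) * t2) (by linear_combination (1036481 / 1000000) * s2 + (1036481 / 1000000) * t1)
  have e3 := R.lo2 (255 / 1000) (by norm_num)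
  have e4 := up (t1 := (75 / 1000)) (t2 := (78 / 1000)) (x := 8 / 25 * s) (by norm_num)
    (by linear_combination (1609 / 5000) * s1) (by linear_combination (251521 / 781250) * s2)
  have e5 := R.lo7 (583 / 1000) (by norm_num)
  have e6 := up (t1 := (182 / 1000)) (t2 := (190 / 1000)) (x := b) (by norm_num)
    (by linear_combination (258281 / 250000) * b1) (by linear_combination (10361 / 10000) * b2)
  have e7 := up (t1 := (187 / 1000)) (t2 := (200 / 1000)) (x := s - t + 3 / 200) (by norm_num)
    (by linear_combination (1034969 / 1000000) * s1 + (1034969 / 1000000) * t2) (by linear_combination (26 / 25) * s2 + (26 / 25) * t1)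
  have e8 := R.lo16 (191 / 1000) (by norm_num)
  have e9 := R.lo15 (23 / 1000) (by norm_num)
  rcases R.k13 with c2 | c2
  · rcases R.l20 with c3 | c3
    · linear_combination (1166000 / 660111) * R.h1 + (3705742655417600 / 1191689892011319) * e6 + (1000000 / 660111) * e5 + (20000 / 19883) * e4 + (40000 / 37399) * e3 + (4000000 / 965811) * e2 + (2000000 / 935991) * e1 + (57073498400 / 24687491289) * R.k2 + (194816197092599248 / 4325683183517608605) * s1 + (103255862076963619357 / 59584494600565950000) * b2 + (55809986352800 / 71601953901863) * t2 + 2 * R.h4 + c2 + c3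
    · linear_combination (1166000 / 660111) * R.h1 + (1000000 / 963519) * e8 + (5000 / 4813) * e7 + (855840573425272920800 / 382738617686951357187) * e6 + (1000000 / 660111) * e5 + (20000 / 19883) * e4 + (40000 / 37399) * e3 + (4000000 / 965811) * e2 + (2000000 / 935991) * e1 + (15186926144157200 / 7928955639761997) * R.k2 + (263884719043207563203120177 / 6686665500865823072580009645) * s1 + (28329176243732590980225761 / 38273861768695135718700000) * b2 + (130063683515921495 / 344620204129666619) * t2 + R.h4 + c2 + c3
  · rcases R.l20 with c3 | c3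
    · linear_combination (1166000 / 660111) * R.h1 + (1000000 / 999471) * e9 + (5000 / 4813) * e7 + (30684315947614666400 / 12030903919782272851) * e6 + (1000000 / 660111) * e5 + (20000 / 19883) * e4 + (40000 / 37399) * e3 + (4000000 / 965811) * e2 + (2000000 / 935991) * e1 + (6211964657783600 / 2741603511789791) * R.k2 + (215822774321152210416873037 / 630560595145679068287903255) * s2 + (9024170879784259643746683 / 13233994311760500136100000) * b2 + (130063683515921495 / 344620204129666619) * t2 + R.h4 + c2 + c3
    · linear_combination (1166000 / 660111) * R.h1 + (1000000 / 999471) * e9 + (1000000 / 963519) * e8 + (10000 / 4813) * e7 + (19438647341363629988873600 / 11592004513884695755122669) * e6 + (1000000 / 660111) * e5 + (20000 / 19883) * e4 + (40000 / 37399) * e3 + (4000000 / 965811) * e2 + (2000000 / 935991) * e1 + (4938053433599296326400 / 2641587074076187634529) * R.k2 + (70445040220539869722310017081826 / 202519038024723183399230752118115) * s2 + (198197218628879212856782144 / 637560248263658266531746795) * b1 + (8486097284183410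 / 344620204129666619) * t1 + c2 + c3

theorem g42 {s b t k G2 G3 : ℝ} (R : RegH s b t k G2 G3) (hT : t ≤ 284 / 1000 * s) (hb : s - t + 3 / 200 ≤ b) (hy : s - t ≤ 1 / 2)
    (s1 : 4573 / 10000 ≤ s) (s2 : s ≤ 963 / 2000)
    (b1 : 8 / 25 ≤ b) (b2 : b ≤ 73 / 200) (t1 : 153 / 1250 ≤ t) (t2 : t ≤ 659 / 5000) :
    4 * ph (s - t) - 2 * ph s + 13 / 1000 ≤ G2 + G3 := by
  have e1 := R.lo0 (249 / 1000) (by norm_num)
  have e2 := up (t1 := (167 / 1000)) (t2 := (186 / 1000)) (x := s - t) (by norm_num)
    (by linear_combination (1027889 / 1000000) * s1 + (1027889 / 1000000) * t2) (by linear_combination (258649 / 250000) * s2 + (258649 / 250000) * t1)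
  have e3 := R.lo2 (244 / 1000) (by norm_num)
  have e4 := up (t1 := (73 / 1000)) (t2 := (78 / 1000)) (x := 8 / 25 * s) (by norm_num)
    (by linear_combination (1005329 / 3125000) * s1) (by linear_combination (251521 / 781250) * s2)
  have e5 := up (t1 := (164 / 1000)) (t2 := (190 / 1000)) (x := b) (by norm_num)
    (by linear_combination (64181 / 62500) * b1) (by linear_combination (10361 / 10000) * b2)
  have e6 := up (t1 := (175 / 1000)) (t2 := (195 / 1000)) (x := s - t + 3 / 200) (by norm_num)
    (by linear_combination (1649 / 1600) * s1 + (1649 / 1600) * t2) (by linear_combination (41521 / 40000) * s2 + (41521 / 40000) * t1)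
  have e7 := R.lo15 (23 / 1000) (by norm_num)
  rcases R.k12 with c2 | c2
  · linear_combination (1395085375 / 1423686159) * e5 + (500000 / 497153) * e4 + (62500 / 58779) * e3 + (2000000 / 484469) * e2 + (2000000 / 937999) * e1 + (30500 / 58779) * R.k2 + (994171628897305001660 / 13279466443813815654297) * s1 + (135744489702877 / 142368615900000) * b2 + (26721669500 / 28476603351) * t1 + R.h4 + c2 + R.g3
  · linear_combination (1000000 / 999471) * e7 + (8000 / 7727) * e6 + (18226015666625 / 43119182697633) * e5 + (500000 / 497153) * e4 + (62500 / 58779) * e3 + (2000000 / 484469) * e2 + (2000000 / 937999) * e1 + (9260010500 / 19582635303) * R.k2 + (10032700366920445870681497668540 / 34185385430021516584239760235283) * s2 + (164685008617649 / 1897244038695852) * b1 + (290769086145460 / 220038714093177) * t1 + c2 + R.g3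

theorem g43 {s b t k G2 G3 : ℝ} (R : RegH s b t k G2 G3) (hT : t ≤ 284 / 1000 * s) (hb : s - t + 3 / 200 ≤ b) (hy : s - t ≤ 1 / 2)
    (s1 : 4573 / 10000 ≤ s) (s2 : s ≤ 963 / 2000)
    (b1 : 8 / 25 ≤ b) (b2 : b ≤ 73 / 200) (t1 : 659 / 5000 ≤ t) (t2 : t ≤ 753 / 5000) :
    4 * ph (s - t) - 2 * ph s + 13 / 1000 ≤ G2 + G3 := by
  have e1 := R.lo0 (249 / 1000) (by norm_num)
  have e2 := up (t1 := (157 / 1000)) (t2 := (181 / 1000)) (x := s - t) (by norm_num)
    (by linear_combination (1024649 / 1000000) * s1 + (1024649 / 1000000) * t2) (by linear_combination (1032761 / 1000000) * s2 + (1032761 / 1000000) * t1)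
  have e3 := R.lo2 (236 / 1000) (by norm_num)
  have e4 := up (t1 := (73 / 1000)) (t2 := (78 / 1000)) (x := 8 / 25 * s) (by norm_num)
    (by linear_combination (1005329 / 3125000) * s1) (by linear_combination (251521 / 781250) * s2)
  have e5 := up (t1 := (164 / 1000)) (t2 := (190 / 1000)) (x := b) (by norm_num)
    (by linear_combination (64181 / 62500) * b1) (by linear_combination (10361 / 10000) * b2)
  have e6 := up (t1 := (165 / 1000)) (t2 := (189 / 1000)) (x := s - t + 3 / 200) (by norm_num)
    (by linear_combination (41089 / 40000) * s1 + (41089 / 40000) * t2) (by linear_combination (1035721 / 1000000) * s2 + (1035721 / 1000000) * t1)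
  have e7 := R.lo15 (23 / 1000) (by norm_num)
  rcases R.k12 with c2 | c2
  · linear_combination (1376434625 / 1429499199) * e5 + (500000 / 497153) * e4 + (62500 / 59019) * e3 + (4000000 / 971583) * e2 + (2000000 / 937999) * e1 + (29500 / 59019) * R.k2 + (1083276935433924529940 / 8913390611632866392073) * s1 + (136798729855997 / 142949919900000) * b2 + (17043996500 / 19113952359) * t1 + R.h4 + c2 + R.g3
  · linear_combination (1000000 / 999471) * e7 + (200000 / 193763) * e6 + (2230793375000 / 3480278957991) * e5 + (500000 / 497153) * e4 + (62500 / 59019) * e3 + (4000000 / 971583) * e2 + (2000000 / 937999) * e1 + (79347259095671500 / 3480278957991) * R.k1 + (79348838497381000 / 3480278957991) * R.k2 + (43947063592906672506481459855500 / 191796852995047867603138443185581) * s2 + (4655763720846700 / 3703576750936917) * t1 + c2 + R.g3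

theorem g45 {s b t k G2 G3 : ℝ} (R : RegH s b t k G2 G3) (hT : t ≤ 284 / 1000 * s) (hb : s - t + 3 / 200 ≤ b) (hy : s - t ≤ 1 / 2)
    (s1 : 4573 / 10000 ≤ s) (s2 : s ≤ 963 / 2000)
    (b1 : 73 / 200 ≤ b) (b2 : b ≤ 41 / 100) (t1 : 753 / 10000 ≤ t) (t2 : t ≤ 113 / 1000) :
    4 * ph (s - t) - 2 * ph s + 13 / 1000 ≤ G2 + G3 := by
  have e1 := R.lo0 (249 / 1000) (by norm_num)
  have e2 := up (t1 := (177 / 1000)) (t2 := (213 / 1000)) (x := s - t) (by norm_num)
    (by linear_combination (1031329 / 1000000) * s1 + (1031329 / 1000000) * t2) (by linear_combination (1045369 / 1000000) * s2 + (1045369 / 1000000) * t1)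
  have e3 := R.lo2 (269 / 1000) (by norm_num)
  have e4 := up (t1 := (73 / 1000)) (t2 := (78 / 1000)) (x := 8 / 25 * s) (by norm_num)
    (by linear_combination (1005329 / 3125000) * s1) (by linear_combination (251521 / 781250) * s2)
  have e5 := R.lo7 (623 / 1000) (by norm_num)
  have e6 := up (t1 := (189 / 1000)) (t2 := (215 / 1000)) (x := b) (by norm_num)
    (by linear_combination (1035721 / 1000000) * b1) (by linear_combination (41849 / 40000) * b2)
  have e7 := up (t1 := (185 / 1000)) (t2 := (221 / 1000)) (x := s - t + 3 / 200) (by norm_num)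
    (by linear_combination (41369 / 40000) * s1 + (41369 / 40000) * t2) (by linear_combination (1048841 / 1000000) * s2 + (1048841 / 1000000) * t1)
  have e8 := R.lo16 (185 / 1000) (by norm_num)
  have e9 := R.lo15 (20 / 1000) (by norm_num)
  rcases R.k13 with c2 | c2
  · rcases R.l20 with c3 | c3
    · linear_combination (1246000 / 611871) * R.h1 + (123578094878984000 / 36302077559040579) * e6 + (1000000 / 611871) * e5 + (500000 / 497153) * e4 + (1000000 / 927639) * e3 + (4000000 / 962299) * e2 + (2000000 / 937999) * e1 + (495008264000 / 189198467523) * R.k2 + (893797875723922306480 / 32021238186166888729359) * s2 + (3265678323439268063137 / 1815103877952028950000) * b2 + (13938180623312000 / 14005038161455029) * t2 + 2 * R.h4 + c2 + c3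
    · linear_combination (1246000 / 611871) * R.h1 + (40000 / 38631) * e8 + (200000 / 191823) * e7 + (1186017399616085427200 / 467461852727765535783) * e6 + (1000000 / 611871) * e5 + (500000 / 497153) * e4 + (1000000 / 927639) * e3 + (4000000 / 962299) * e2 + (2000000 / 937999) * e1 + (5440842309081200 / 2436308666293671) * R.k2 + (528605852535748877999923280 / 7761339732801316657110763779) * s2 + (36201164957755675574295149 / 46746185272776553578300000) * b2 + (11910500178259142800 / 20825491746083628123) * t2 + R.h4 + c2 + c3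
  · rcases R.l20 with c3 | c3
    · linear_combination (1246000 / 611871) * R.h1 + (2500 / 2499) * e9 + (200000 / 191823) * e7 + (5063998648862832200 / 1778801800392988371) * e6 + (1000000 / 611871) * e5 + (500000 / 497153) * e4 + (1000000 / 927639) * e3 + (4000000 / 962299) * e2 + (2000000 / 937999) * e1 + (23884427548700 / 9270724908627) * R.k2 + (60170150406605676056085952 / 137244910468157530205134401) * s2 + (129496279380906637773713 / 177880180039298837100000) * b2 + (11910500178259142800 / 20825491746083628123) * t2 + R.h4 + c2 + c3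
    · linear_combination (1246000 / 611871) * R.h1 + (2500 / 2499) * e9 + (40000 / 38631) * e8 + (400000 / 191823) * e7 + (4122683811137973158200 / 2082330071241864659397) * e6 + (1000000 / 611871) * e5 + (500000 / 497153) * e4 + (1000000 / 927639) * e3 + (4000000 / 962299) * e2 + (2000000 / 937999) * e1 + (261824197328716700 / 119379124648389879) * R.k2 + (10706931295769403691625346976 / 22370920406309677423436907363) * s2 + (3089677386513307715686 / 10411650356209323296985) * b1 + (3094925769653341600 / 20825491746083628123) * t2 + c2 + c3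

theorem g46 {s b t k G2 G3 : ℝ} (R : RegH s b t k G2 G3) (hT : t ≤ 284 / 1000 * s) (hb : s - t + 3 / 200 ≤ b) (hy : s - t ≤ 1 / 2)
    (s1 : 4573 / 10000 ≤ s) (s2 : s ≤ 963 / 2000)
    (b1 : 73 / 200 ≤ b) (b2 : b ≤ 41 / 100) (t1 : 113 / 1000 ≤ t) (t2 : t ≤ 753 / 5000) :
    4 * ph (s - t) - 2 * ph s + 13 / 1000 ≤ G2 + G3 := by
  have e1 := R.lo0 (249 / 1000) (by norm_num)
  have e2 := up (t1 := (157 / 1000)) (t2 := (191 / 1000)) (x := s - t) (by norm_num)
    (by linear_combination (1024649 / 1000000) * s1 + (1024649 / 1000000) * t2) (by linear_combination (1036481 / 1000000) * s2 + (1036481 / 1000000) * t1)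
  have e3 := R.lo2 (246 / 1000) (by norm_num)
  have e4 := up (t1 := (73 / 1000)) (t2 := (78 / 1000)) (x := 8 / 25 * s) (by norm_num)
    (by linear_combination (1005329 / 3125000) * s1) (by linear_combination (251521 / 781250) * s2)
  have e5 := R.lo7 (569 / 1000) (by norm_num)
  have e6 := up (t1 := (189 / 1000)) (t2 := (215 / 1000)) (x := b) (by norm_num)
    (by linear_combination (1035721 / 1000000) * b1) (by linear_combination (41849 / 40000) * b2)
  have e7 := up (t1 := (165 / 1000)) (t2 := (200 / 1000)) (x := s - t + 3 / 200) (by norm_num)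
    (by linear_combination (41089 / 40000) * s1 + (41089 / 40000) * t2) (by linear_combination (26 / 25) * s2 + (26 / 25) * t1)
  have e8 := R.lo16 (185 / 1000) (by norm_num)
  have e9 := R.lo15 (20 / 1000) (by norm_num)
  rcases R.k13 with c2 | c2
  · rcases R.l20 with c3 | c3
    · linear_combination (1138000 / 676239) * R.h1 + (92467663851370000 / 30474983318316537) * e6 + (1000000 / 676239) * e5 + (500000 / 497153) * e4 + (250000 / 234871) * e3 + (4000000 / 970013) * e2 + (2000000 / 937999) * e1 + (350460595000 / 158828930169) * R.k2 + (10825875539307207416680 / 106242771493508291222581) * s1 + (2825973646502966053811 / 1523749165915826850000) * b2 + (118861462342487000 / 154066127040022197) * t2 + 2 * R.h4 + c2 + c3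
    · linear_combination (1138000 / 676239) * R.h1 + (40000 / 38631) * e8 + (1000 / 967) * e7 + (850465483886467907600 / 392426360189962046949) * e6 + (1000000 / 676239) * e5 + (500000 / 497153) * e4 + (250000 / 234871) * e3 + (4000000 / 970013) * e2 + (2000000 / 937999) * e1 + (3729325026314600 / 2045240133786213) * R.k2 + (2618778078535806116221925515 / 24348612128110736674099890999) * s1 + (32566266581841524328964247 / 39242636018996204694900000) * b2 + (58704897715576827095 / 148981944847701464499) * t2 + R.h4 + c2 + c3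
  · rcases R.l20 with c3 | c3
    · linear_combination (1138000 / 676239) * R.h1 + (2500 / 2499) * e9 + (1000 / 967) * e7 + (2994195713451672200 / 1208841004959889301) * e6 + (1000000 / 676239) * e5 + (500000 / 497153) * e4 + (250000 / 234871) * e3 + (4000000 / 970013) * e2 + (2000000 / 937999) * e1 + (13649494188700 / 6300214230037) * R.k2 + (9637012651501057255780771933 / 36677023332217438787568190239) * s2 + (94706294452567095014503 / 120884100495988930100000) * b2 + (58704897715576827095 / 148981944847701464499) * t2 + R.h4 + c2 + c3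
    · linear_combination (1138000 / 676239) * R.h1 + (2500 / 2499) * e9 + (40000 / 38631) * e8 + (2000 / 967) * e7 + (6834558218778576586600 / 4245339714782316689721) * e6 + (1000000 / 676239) * e5 + (500000 / 497153) * e4 + (250000 / 234871) * e3 + (4000000 / 970013) * e2 + (2000000 / 937999) * e1 + (434050439399122100 / 243383575920559347) * R.k2 + (744935944419346087513401227102 / 2897484843245177664217887028881) * s2 + (5122046934164492270818 / 21226698573911583448605) * b1 + (2470761345968725190 / 148981944847701464499) * t2 + c2 + c3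

theorem g47 {s b t k G2 G3 : ℝ} (R : RegH s b t k G2 G3) (hT : t ≤ 284 / 1000 * s) (hb : s - t + 3 / 200 ≤ b) (hy : s - t ≤ 1 / 2)
    (s1 : 433 / 1000 ≤ s) (s2 : s ≤ 963 / 2000)
    (b1 : 41 / 100 ≤ b) (b2 : b ≤ 1 / 2) (t1 : 753 / 10000 ≤ t) (t2 : t ≤ 753 / 5000) :
    4 * ph (s - t) - 2 * ph s + 13 / 1000 ≤ G2 + G3 := by
  have e1 := R.lo0 (242 / 1000) (by norm_num)
  have e2 := up (t1 := (144 / 1000)) (t2 := (213 / 1000)) (x := s - t) (by norm_num)
    (by linear_combination (15949 / 15625) * s1 + (15949 / 15625) * t2) (by linear_combination (1045369 / 1000000) * s2 + (1045369 / 1000000) * t1)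
  have e3 := up (t1 := (69 / 1000)) (t2 := (78 / 1000)) (x := 8 / 25 * s) (by norm_num)
    (by linear_combination (1004761 / 3125000) * s1) (by linear_combination (251521 / 781250) * s2)
  have e4 := R.lo7 (603 / 1000) (by norm_num)
  have e5 := up (t1 := (214 / 1000)) (t2 := (268 / 1000)) (x := b) (by norm_num)
    (by linear_combination (261449 / 250000) * b1) (by linear_combination (66989 / 62500) * b2)
  have e6 := up (t1 := (152 / 1000)) (t2 := (221 / 1000)) (x := s - t + 3 / 200) (by norm_num)
    (by linear_combination (15986 / 15625) * s1 + (15986 / 15625) * t2) (by linear_combination (1048841 / 1000000) * s2 + (1048841 / 1000000) * t1)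
  have e7 := R.lo15 (15 / 1000) (by norm_num)
  rcases R.k13 with c2 | c2
  · linear_combination (1206000 / 636391) * R.h1 + (170328460000 / 74986587921) * e5 + (1000000 / 636391) * e4 + (500000 / 497309) * e3 + (250000 / 60583) * e2 + (250000 / 78453) * e1 + (1206000 / 636391) * R.k2 + (51633444401270 / 2363668946895591) * s1 + (7598685945722363 / 7498658792100000) * b2 + (16265201250 / 38554475953) * t2 + R.h4 + c2 + R.g3
  · linear_combination (1206000 / 636391) * R.h1 + (40000 / 39991) * e7 + (125000 / 120801) * e6 + (34954529654000 / 20399922704413) * e5 + (1000000 / 636391) * e4 + (500000 / 497309) * e3 + (250000 / 60583) * e2 + (250000 / 78453) * e1 + (968683200 / 519385969) * R.k2 + (1349389035738955585146637 / 3806257698668428709014827) * s2 + (2175401729972 / 20399922704413) * b1 + (167250134892625 / 4657419249598353) * t2 + c2 + R.g3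

theorem g50 {s b t k G2 G3 : ℝ} (R : RegH s b t k G2 G3) (hT : t ≤ 284 / 1000 * s) (hb : s - t + 3 / 200 ≤ b) (hy : s - t ≤ 1 / 2)
    (s1 : 963 / 2000 ≤ s) (s2 : s ≤ 53 / 100)
    (b1 : 8 / 25 ≤ b) (b2 : b ≤ 41 / 100) (t1 : 0 ≤ t) (t2 : t ≤ 753 / 10000) :
    4 * ph (s - t) - 2 * ph s + 13 / 1000 ≤ G2 + G3 := by
  exfalso
  exact absurd b2 (not_le.mpr (by linear_combination s1 + t2 + hb))

theorem g53 {s b t k G2 G3 : ℝ} (R : RegH s b t k G2 G3) (hT : t ≤ 284 / 1000 * s) (hb : s - t + 3 / 200 ≤ b) (hy : s - t ≤ 1 / 2)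
    (s1 : 963 / 2000 ≤ s) (s2 : s ≤ 53 / 100)
    (b1 : 41 / 100 ≤ b) (b2 : b ≤ 91 / 200) (t1 : 0 ≤ t) (t2 : t ≤ 377 / 10000) :
    4 * ph (s - t) - 2 * ph s + 13 / 1000 ≤ G2 + G3 := by
  exfalso
  exact absurd b2 (not_le.mpr (by linear_combination s1 + t2 + hb))

theorem g54 {s b t k G2 G3 : ℝ} (R : RegH s b t k G2 G3) (hT : t ≤ 284 / 1000 * s) (hb : s - t + 3 / 200 ≤ b) (hy : s - t ≤ 1 / 2)
    (s1 : 963 / 2000 ≤ s) (s2 : s ≤ 53 / 100)
    (b1 : 91 / 200 ≤ b) (b2 : b ≤ 1 / 2) (t1 : 0 ≤ t) (t2 : t ≤ 377 / 10000) :
    4 * ph (s - t) - 2 * ph s + 13 / 1000 ≤ G2 + G3 := by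
  have e1 := R.lo0 (272 / 1000) (by norm_num)
  have e2 := up (t1 := (234 / 1000)) (t2 := (287 / 1000)) (x := s - t) (by norm_num)
    (by linear_combination (263689 / 250000) * s1 + (263689 / 250000) * t2) (by linear_combination (1082369 / 1000000) * s2 + (1082369 / 1000000) * t1)
  have e3 := R.lo2 (348 / 1000) (by norm_num)
  have e4 := up (t1 := (77 / 1000)) (t2 := (86 / 1000)) (x := 8 / 25 * s) (by norm_num)
    (by linear_combination (1005929 / 3125000) * s1) (by linear_combination (251849 / 781250) * s2)
  have e5 := R.lo7 (780 / 1000) (by norm_num)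
  have e6 := up (t1 := (240 / 1000)) (t2 := (268 / 1000)) (x := b) (by norm_num)
    (by linear_combination (661 / 625) * b1) (by linear_combination (66989 / 62500) * b2)
  have e7 := up (t1 := (242 / 1000)) (t2 := (297 / 1000)) (x := s - t + 3 / 200) (by norm_num)
    (by linear_combination (264641 / 250000) * s1 + (264641 / 250000) * t2) (by linear_combination (1088209 / 1000000) * s2 + (1088209 / 1000000) * t1)
  have e8 := R.lo16 (202 / 1000) (by norm_num)
  have e9 := R.lo15 (22 / 1000) (by norm_num)
  rcases R.k13 with c2 | c2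
  · rcases R.l20 with c3 | c3
    · linear_combination (3900 / 979) * R.h1 + (313851161275 / 57180094864) * e6 + (2500 / 979) * e5 + (500000 / 496689) * e4 + (62500 / 54931) * e3 + (2000000 / 466421) * e2 + (31250 / 14469) * e1 + (256817400 / 53777449) * R.k2 + (19622629592217610340 / 61375833762936662697) * s2 + (8383531501351489 / 3931131521900000) * b2 + (63748926667400 / 25082931540029) * t2 + 2 * R.h4 + c2 + c3
    · linear_combination (3900 / 979) * R.h1 + (250000 / 239799) * e8 + (500000 / 464063) * e7 + (31294375409996425 / 6855864784146168) * e6 + (2500 / 979) * e5 + (500000 / 496689) * e4 + (62500 / 54931) * e3 + (2000000 / 466421) * e2 + (31250 / 14469) * e1 + (56153033353600 / 12895778492751) * R.k2 + (155876143514493567968735102480 / 325238853213565375966722185709) * s2 + (316636377642869947931 / 314227135940032700000) * b2 + (22823668106015830700 / 11640060459260477827) * t2 + R.h4 + c2 + c3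
  · rcases R.l20 with c3 | c3
    · linear_combination (3900 / 979) * R.h1 + (250000 / 249879) * e9 + (500000 / 464063) * e7 + (2504191335725 / 509634217596) * e6 + (2500 / 979) * e5 + (500000 / 496689) * e4 + (62500 / 54931) * e3 + (2000000 / 466421) * e2 + (31250 / 14469) * e1 + (390071921200 / 82440829317) * R.k2 + (87758859238870526892828120 / 99009738508460304027834643) * s2 + (46549329994521689 / 46716469946300000) * b2 + (22823668106015830700 / 11640060459260477827) * t2 + R.h4 + c2 + c3
    · linear_combination (3900 / 979) * R.h1 + (250000 / 249879) * e9 + (250000 / 239799) * e8 + (1000000 / 464063) * e7 + (3993313670785595425 / 1000956258485340528) * e6 + (2500 / 979) * e5 + (500000 / 496689) * e4 + (62500 / 54931) * e3 + (2000000 / 466421) * e2 + (31250 / 14469) * e1 + (4057730136705800 / 941391829970823) * R.k2 + (24832688276213122868491306865380 / 23742436284590272445570719556757) * s2 + (4716563490352037217 / 36701729477795819360) * b1 + (16063818055978015200 / 11640060459260477827) * t2 + c2 + c3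

theorem g57 {s b t k G2 G3 : ℝ} (R : RegH s b t k G2 G3) (hT : t ≤ 284 / 1000 * s) (hb : s - t + 3 / 200 ≤ b) (hy : s - t ≤ 1 / 2)
    (s1 : 963 / 2000 ≤ s) (s2 : s ≤ 2529 / 5000)
    (b1 : 41 / 100 ≤ b) (b2 : b ≤ 1 / 2) (t1 : 377 / 10000 ≤ t) (t2 : t ≤ 113 / 2000) :
    4 * ph (s - t) - 2 * ph s + 13 / 1000 ≤ G2 + G3 := by
  have e1 := R.lo0 (264 / 1000) (by norm_num)
  have e2 := up (t1 := (223 / 1000)) (t2 := (249 / 1000)) (x := s - t) (by norm_num)
    (by linear_combination (1049729 / 1000000) * s1 + (1049729 / 1000000) * t2) (by linear_combination (1062001 / 1000000) * s2 + (1062001 / 1000000) * t1)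
  have e3 := R.lo2 (318 / 1000) (by norm_num)
  have e4 := up (t1 := (77 / 1000)) (t2 := (82 / 1000)) (x := 8 / 25 * s) (by norm_num)
    (by linear_combination (1005929 / 3125000) * s1) (by linear_combination (251681 / 781250) * s2)
  have e5 := R.lo7 (725 / 1000) (by norm_num)
  have e6 := up (t1 := (214 / 1000)) (t2 := (268 / 1000)) (x := b) (by norm_num)
    (by linear_combination (261449 / 250000) * b1) (by linear_combination (66989 / 62500) * b2)
  have e7 := up (t1 := (231 / 1000)) (t2 := (258 / 1000)) (x := s - t + 3 / 200) (by norm_num)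
    (by linear_combination (1053361 / 1000000) * s1 + (1053361 / 1000000) * t2) (by linear_combination (266641 / 250000) * s2 + (266641 / 250000) * t1)
  have e8 := R.lo16 (196 / 1000) (by norm_num)
  have e9 := R.lo15 (21 / 1000) (by norm_num)
  rcases R.k13 with c2 | c2
  · rcases R.l20 with c3 | c3
    · linear_combination (2320 / 759) * R.h1 + (750597278050 / 166094695431) * e6 + (1600 / 759) * e5 + (500000 / 496843) * e4 + (250000 / 224719) * e3 + (4000000 / 944473) * e2 + (15625 / 7268) * e1 + (58366280 / 15505611) * R.k2 + (79530221948981337895 / 383207004774191825194) * s2 + (185276697936574823 / 91352082487050000) * b2 + (25850782002440 / 14644630938003) * t2 + 2 * R.h4 + c2 + c3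
    · linear_combination (2320 / 759) * R.h1 + (62500 / 60099) * e8 + (500000 / 470201) * e7 + (7577578785575 / 2096644633629) * e6 + (1600 / 759) * e5 + (500000 / 496843) * e4 + (250000 / 224719) * e3 + (4000000 / 944473) * e2 + (15625 / 7268) * e1 + (656977020 / 195730249) * R.k2 + (150600879632990326481502014635 / 470821619933831190050088956322) * s2 + (2144352177198760157 / 2306309096991900000) * b2 + (8574451283987556940 / 6885920111679948603) * t2 + R.h4 + c2 + c3
  · rcases R.l20 with c3 | c3
    · linear_combination (2320 / 759) * R.h1 + (1000000 / 999559) * e9 + (500000 / 470201) * e7 + (59617825574480450 / 15092858879119539) * e6 + (1600 / 759) * e5 + (500000 / 496843) * e4 + (250000 / 224719) * e3 + (4000000 / 944473) * e2 + (15625 / 7268) * e1 + (476771114120 / 128089033269) * R.k2 + (11691801359727839928848571296995 / 16373168688008919406299859690786) * s2 + (1371745192804661126017 / 1509285887911953900000) * b2 + (8574451283987556940 / 6885920111679948603) * t2 + R.h4 + c2 + c3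
    · linear_combination (2320 / 759) * R.h1 + (1000000 / 999559) * e9 + (62500 / 60099) * e8 + (1000000 / 470201) * e7 + (27626502815636175 / 9072381010153981) * e6 + (1600 / 759) * e5 + (500000 / 496843) * e4 + (250000 / 224719) * e3 + (4000000 / 944473) * e2 + (15625 / 7268) * e1 + (5359228286580 / 1616891999671) * R.k2 + (35356488332259796579242440299989935 / 42783089781767306408661533372023818) * s2 + (34386812017271073 / 181447620203079620) * b1 + (4993839019645823440 / 6885920111679948603) * t2 + c2 + c3

theorem g58 {s b t k G2 G3 : ℝ} (R : RegH s b t k G2 G3) (hT : t ≤ 284 / 1000 * s) (hb : s - t + 3 / 200 ≤ b) (hy : s - t ≤ 1 / 2)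
    (s1 : 963 / 2000 ≤ s) (s2 : s ≤ 2529 / 5000)
    (b1 : 41 / 100 ≤ b) (b2 : b ≤ 1 / 2) (t1 : 113 / 2000 ≤ t) (t2 : t ≤ 753 / 10000) :
    4 * ph (s - t) - 2 * ph s + 13 / 1000 ≤ G2 + G3 := by
  have e1 := R.lo0 (264 / 1000) (by norm_num)
  have e2 := up (t1 := (212 / 1000)) (t2 := (238 / 1000)) (x := s - t) (by norm_num)
    (by linear_combination (65309 / 62500) * s1 + (65309 / 62500) * t2) (by linear_combination (264161 / 250000) * s2 + (264161 / 250000) * t1)
  have e3 := R.lo2 (306 / 1000) (by norm_num)
  have e4 := up (t1 := (77 / 1000)) (t2 := (82 / 1000)) (x := 8 / 25 * s) (by norm_num)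
    (by linear_combination (1005929 / 3125000) * s1) (by linear_combination (251681 / 781250) * s2)
  have e5 := R.lo7 (683 / 1000) (by norm_num)
  have e6 := up (t1 := (214 / 1000)) (t2 := (268 / 1000)) (x := b) (by norm_num)
    (by linear_combination (261449 / 250000) * b1) (by linear_combination (66989 / 62500) * b2)
  have e7 := up (t1 := (220 / 1000)) (t2 := (247 / 1000)) (x := s - t + 3 / 200) (by norm_num)
    (by linear_combination (2621 / 2500) * s1 + (2621 / 2500) * t2) (by linear_combination (1061009 / 1000000) * s2 + (1061009 / 1000000) * t1)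
  have e8 := R.lo16 (196 / 1000) (by norm_num)
  have e9 := R.lo15 (21 / 1000) (by norm_num)
  rcases R.k13 with c2 | c2
  · rcases R.l20 with c3 | c3
    · linear_combination (1366000 / 533511) * R.h1 + (5223146011246250 / 1294949739312621) * e6 + (1000000 / 533511) * e5 + (500000 / 496843) * e4 + (250000 / 226591) * e3 + (500000 / 118693) * e2 + (15625 / 7268) * e1 + (391150489000 / 120888791001) * R.k2 + (6628909965188579355 / 48559237808048391106) * s2 + (1466026530858005956093 / 712222356621941550000) * b2 + (19226847015652000 / 14348653270281693) * t2 + 2 * R.h4 + c2 + c3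
    · linear_combination (1366000 / 533511) * R.h1 + (62500 / 60099) * e8 + (50000 / 47283) * e7 + (81159397463318276875 / 25941728127649736493) * e6 + (1000000 / 533511) * e5 + (500000 / 496843) * e4 + (250000 / 226591) * e3 + (500000 / 118693) * e2 + (15625 / 7268) * e1 + (6848659286295500 / 2421765150123033) * R.k2 + (445336396422089248278670115 / 1999839030353096258775213258) * s2 + (27394440208304448798661069 / 28535900940414710142300000) * b2 + (191353984526665328150 / 226149124192909763373) * t2 + R.h4 + c2 + c3
  · rcases R.l20 with c3 | c3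
    · linear_combination (1366000 / 533511) * R.h1 + (1000000 / 999559) * e9 + (50000 / 47283) * e7 + (407664555982454796250 / 117670787861598557649) * e6 + (1000000 / 533511) * e5 + (500000 / 496843) * e4 + (250000 / 226591) * e3 + (500000 / 118693) * e2 + (15625 / 7268) * e1 + (3189261672829000 / 998640322679079) * R.k2 + (1415796101139024297842471730715 / 2295013893617348499799188735882) * s2 + (11050380230976646117326347 / 11767078786159855764900000) * b2 + (191353984526665328150 / 226149124192909763373) * t2 + R.h4 + c2 + c3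
    · linear_combination (1366000 / 533511) * R.h1 + (1000000 / 999559) * e9 + (62500 / 60099) * e8 + (100000 / 47283) * e7 + (6033513712360509738419375 / 2357298893231403905382417) * e6 + (1000000 / 533511) * e5 + (500000 / 496843) * e4 + (250000 / 226591) * e3 + (500000 / 118693) * e2 + (15625 / 7268) * e1 + (55734916456570878500 / 20005761584229989607) * R.k2 + (468472377916531955457722376268555 / 666319033780236847775031129651074) * s2 + (1501987444557343593394445 / 9429195572925615621529668) * b1 + (79673633239639484300 / 226149124192909763373) * t2 + c2 + c3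

theorem g62 {s b t k G2 G3 : ℝ} (R : RegH s b t k G2 G3) (hT : t ≤ 284 / 1000 * s) (hb : s - t + 3 / 200 ≤ b) (hy : s - t ≤ 1 / 2)
    (s1 : 2529 / 5000 ≤ s) (s2 : s ≤ 5179 / 10000)
    (b1 : 41 / 100 ≤ b) (b2 : b ≤ 91 / 200) (t1 : 377 / 10000 ≤ t) (t2 : t ≤ 113 / 2000) :
    4 * ph (s - t) - 2 * ph s + 13 / 1000 ≤ G2 + G3 := by
  exfalso
  exact absurd b2 (not_le.mpr (by linear_combination s1 + t2 + hb))

theorem g63 {s b t k G2 G3 : ℝ} (R : RegH s b t k G2 G3) (hT : t ≤ 284 / 1000 * s) (hb : s - t + 3 / 200 ≤ b) (hy : s - t ≤ 1 / 2)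
    (s1 : 2529 / 5000 ≤ s) (s2 : s ≤ 5179 / 10000)
    (b1 : 91 / 200 ≤ b) (b2 : b ≤ 1 / 2) (t1 : 377 / 10000 ≤ t) (t2 : t ≤ 113 / 2000) :
    4 * ph (s - t) - 2 * ph s + 13 / 1000 ≤ G2 + G3 := by
  have e1 := R.lo0 (275 / 1000) (by norm_num)
  have e2 := up (t1 := (237 / 1000)) (t2 := (256 / 1000)) (x := s - t) (by norm_num)
    (by linear_combination (1056169 / 1000000) * s1 + (1056169 / 1000000) * t2) (by linear_combination (16649 / 15625) * s2 + (16649 / 15625) * t1)
  have e3 := R.lo2 (332 / 1000) (by norm_num)
  have e4 := up (t1 := (81 / 1000)) (t2 := (84 / 1000)) (x := 8 / 25 * s) (by norm_num)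
    (by linear_combination (1006561 / 3125000) * s1) (by linear_combination (125882 / 390625) * s2)
  have e5 := R.lo7 (729 / 1000) (by norm_num)
  have e6 := up (t1 := (240 / 1000)) (t2 := (268 / 1000)) (x := b) (by norm_num)
    (by linear_combination (661 / 625) * b1) (by linear_combination (66989 / 62500) * b2)
  have e7 := up (t1 := (246 / 1000)) (t2 := (265 / 1000)) (x := s - t + 3 / 200) (by norm_num)
    (by linear_combination (265129 / 250000) * s1 + (265129 / 250000) * t2) (by linear_combination (42809 / 40000) * s2 + (42809 / 40000) * t1)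
  have e8 := R.lo16 (205 / 1000) (by norm_num)
  have e9 := R.lo15 (23 / 1000) (by norm_num)
  rcases R.k13 with c2 | c2
  · rcases R.l20 with c3 | c3
    · linear_combination (1458000 / 468559) * R.h1 + (2827889948477375 / 609526152170208) * e6 + (1000000 / 468559) * e5 + (250000 / 248299) * e4 + (62500 / 55611) * e3 + (62500 / 14677) * e2 + (3200 / 1479) * e1 + (100526036500 / 26057034549) * R.k2 + (43219437164456005 / 199825028832788658) * s2 + (914271831979470117 / 423282050118200000) * b2 + (103467424718375 / 58836784011642) * t2 + 2 * R.h4 + c2 + c3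
    · linear_combination (1458000 / 468559) * R.h1 + (40000 / 38319) * e8 + (100000 / 93481) * e7 + (28876263303724167475 / 7785477541670066784) * e6 + (1000000 / 468559) * e5 + (250000 / 248299) * e4 + (62500 / 55611) * e3 + (62500 / 14677) * e2 + (3200 / 1479) * e1 + (1141573942013300 / 332826502294377) * R.k2 + (79914804489350677100967065 / 238597641285020747946234954) * s2 + (5597048644386700148783 / 5406581626159768600000) * b2 + (6665678667103507175 / 5500121406192305802) * t2 + R.h4 + c2 + c3
  · rcases R.l20 with c3 | c3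
    · linear_combination (1458000 / 468559) * R.h1 + (1000000 / 999471) * e9 + (100000 / 93481) * e7 + (74997038342364990625 / 18460718570779089696) * e6 + (1000000 / 468559) * e5 + (250000 / 248299) * e4 + (62500 / 55611) * e3 + (62500 / 14677) * e2 + (3200 / 1479) * e1 + (33091411545812500 / 8681083459241193) * R.k2 + (4656249656105760211763372665 / 6223320627698556120216378186) * s2 + (144381387472001759136247 / 141019377971229157400000) * b2 + (6665678667103507175 / 5500121406192305802) * t2 + R.h4 + c2 + c3
    · linear_combination (1458000 / 468559) * R.h1 + (1000000 / 999471) * e9 + (40000 / 38319) * e8 + (200000 / 93481) * e7 + (738526784874360825697325 / 235798758304561312687008) * e6 + (1000000 / 468559) * e5 + (250000 / 248299) * e4 + (62500 / 55611) * e3 + (62500 / 14677) * e2 + (3200 / 1479) * e1 + (375220010097477874100 / 110883479024887758189) * R.k2 + (68905744422255014589450797825045 / 79490474377593657323523798569778) * s2 + (290761738024636579418831 / 2881984823722416043952320) * b1 + (3659119004108600975 / 5500121406192305802)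 * t2 + c2 + c3

theorem g66 {s b t k G2 G3 : ℝ} (R : RegH s b t k G2 G3) (hT : t ≤ 284 / 1000 * s) (hb : s - t + 3 / 200 ≤ b) (hy : s - t ≤ 1 / 2)
    (s1 : 2529 / 5000 ≤ s) (s2 : s ≤ 5179 / 10000)
    (b1 : 41 / 100 ≤ b) (b2 : b ≤ 173 / 400) (t1 : 113 / 2000 ≤ t) (t2 : t ≤ 753 / 10000) :
    4 * ph (s - t) - 2 * ph s + 13 / 1000 ≤ G2 + G3 := by
  exfalso
  exact absurd b2 (not_le.mpr (by linear_combination s1 + t2 + hb))

theorem g67 {s b t k G2 G3 : ℝ} (R : RegH s b t k G2 G3) (hT : t ≤ 284 / 1000 * s) (hb : s - t + 3 / 200 ≤ b) (hy : s - t ≤ 1 / 2)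
    (s1 : 2529 / 5000 ≤ s) (s2 : s ≤ 5179 / 10000)
    (b1 : 173 / 400 ≤ b) (b2 : b ≤ 91 / 200) (t1 : 113 / 2000 ≤ t) (t2 : t ≤ 753 / 10000) :
    4 * ph (s - t) - 2 * ph s + 13 / 1000 ≤ G2 + G3 := by
  have e1 := R.lo0 (275 / 1000) (by norm_num)
  have e2 := up (t1 := (226 / 1000)) (t2 := (245 / 1000)) (x := s - t) (by norm_num)
    (by linear_combination (262769 / 250000) * s1 + (262769 / 250000) * t2) (by linear_combination (42401 / 40000) * s2 + (42401 / 40000) * t1)
  have e3 := R.lo2 (318 / 1000) (by norm_num)
  have e4 := up (t1 := (81 / 1000)) (t2 := (84 / 1000)) (x := 8 / 25 * s) (by norm_num)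
    (by linear_combination (1006561 / 3125000) * s1) (by linear_combination (125882 / 390625) * s2)
  have e5 := R.lo7 (684 / 1000) (by norm_num)
  have e6 := up (t1 := (227 / 1000)) (t2 := (241 / 1000)) (x := b) (by norm_num)
    (by linear_combination (1051529 / 1000000) * b1) (by linear_combination (1058081 / 1000000) * b2)
  have e7 := up (t1 := (235 / 1000)) (t2 := (254 / 1000)) (x := s - t + 3 / 200) (by norm_num)
    (by linear_combination (42209 / 40000) * s1 + (42209 / 40000) * t2) (by linear_combination (266129 / 250000) * s2 + (266129 / 250000) * t1)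
  have e8 := R.lo16 (206 / 1000) (by norm_num)
  have e9 := R.lo15 (23 / 1000) (by norm_num)
  rcases R.k13 with c2 | c2
  · rcases R.l20 with c3 | c3
    · linear_combination (85500 / 33259) * R.h1 + (2608463448515000 / 642277543191523) * e6 + (62500 / 33259) * e5 + (250000 / 248299) * e4 + (250000 / 224719) * e3 + (400000 / 94463) * e2 + (3200 / 1479) * e1 + (24501655500 / 7473929221) * R.k2 + (1169715382993368920 / 7795512496135326237) * s2 + (704242188636893630059 / 353252648755337650000) * b2 + (906411618260100 / 706009776003323) * t2 + 2 * R.h4 + c2 + c3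
    · linear_combination (85500 / 33259) * R.h1 + (250000 / 239391) * e8 + (100000 / 94031) * e7 + (482508279933612875000 / 153755463342161882493) * e6 + (62500 / 33259) * e5 + (250000 / 248299) * e4 + (250000 / 224719) * e3 + (400000 / 94463) * e2 + (3200 / 1479) * e1 + (5095661102037500 / 1789191390144411) * R.k2 + (14028479522294653312070471540 / 58492783815316676436445316559) * s2 + (154023152313440884279954069 / 169131009676378070742300000) * b2 + (50706912830052968400 / 66386805247368465013) * t2 + R.h4 + c2 + c3
  · rcases R.l20 with c3 | c3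
    · linear_combination (85500 / 33259) * R.h1 + (1000000 / 999471) * e9 + (100000 / 94031) * e7 + (6570298525770985000 / 1882515479094353913) * e6 + (62500 / 33259) * e5 + (250000 / 248299) * e4 + (250000 / 224719) * e3 + (400000 / 94463) * e2 + (3200 / 1479) * e1 + (70806138944500 / 21906086546751) * R.k2 + (469345236279817780080484060 / 716160379307046541579346019) * s2 + (1829108674399832804202929 / 2070767027003789304300000) * b2 + (50706912830052968400 / 66386805247368465013) * t2 + R.h4 + c2 + c3
    · linear_combination (85500 / 33259) * R.h1 + (1000000 / 999471) * e9 + (250000 / 239391) * e8 + (200000 / 94031) * e7 + (385620209040912154315000 / 150219087685292159195661) * e6 + (62500 / 33259) * e5 + (250000 / 248299) * e4 + (250000 / 224719) * e3 + (400000 / 94463) * e2 + (3200 / 1479) * e1 + (4898008497915815500 / 1748039988171089547) * R.k2 + (42583200760598686276033040358520 / 57147449787564392878407074278143) * s2 + (329853737367551720307130 / 1652409964538213751152271) * b1 + (16183034783490473700 / 66386805247368465013)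 * t2 + c2 + c3

theorem g68 {s b t k G2 G3 : ℝ} (R : RegH s b t k G2 G3) (hT : t ≤ 284 / 1000 * s) (hb : s - t + 3 / 200 ≤ b) (hy : s - t ≤ 1 / 2)
    (s1 : 2529 / 5000 ≤ s) (s2 : s ≤ 5179 / 10000)
    (b1 : 91 / 200 ≤ b) (b2 : b ≤ 1 / 2) (t1 : 113 / 2000 ≤ t) (t2 : t ≤ 753 / 10000) :
    4 * ph (s - t) - 2 * ph s + 13 / 1000 ≤ G2 + G3 := by
  have e1 := R.lo0 (275 / 1000) (by norm_num)
  have e2 := up (t1 := (226 / 1000)) (t2 := (245 / 1000)) (x := s - t) (by norm_num)
    (by linear_combination (262769 / 250000) * s1 + (262769 / 250000) * t2) (by linear_combination (42401 / 40000) * s2 + (42401 / 40000) * t1)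
  have e3 := R.lo2 (319 / 1000) (by norm_num)
  have e4 := up (t1 := (81 / 1000)) (t2 := (84 / 1000)) (x := 8 / 25 * s) (by norm_num)
    (by linear_combination (1006561 / 3125000) * s1) (by linear_combination (125882 / 390625) * s2)
  have e5 := R.lo7 (687 / 1000) (by norm_num)
  have e6 := up (t1 := (240 / 1000)) (t2 := (268 / 1000)) (x := b) (by norm_num)
    (by linear_combination (661 / 625) * b1) (by linear_combination (66989 / 62500) * b2)
  have e7 := up (t1 := (235 / 1000)) (t2 := (254 / 1000)) (x := s - t + 3 / 200) (by norm_num)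
    (by linear_combination (42209 / 40000) * s1 + (42209 / 40000) * t2) (by linear_combination (266129 / 250000) * s2 + (266129 / 250000) * t1)
  have e8 := R.lo16 (205 / 1000) (by norm_num)
  have e9 := R.lo15 (23 / 1000) (by norm_num)
  rcases R.k13 with c2 | c2
  · rcases R.l20 with c3 | c3
    · linear_combination (1374000 / 528031) * R.h1 + (1433505261998375 / 346711865345979) * e6 + (1000000 / 528031) * e5 + (250000 / 248299) * e4 + (1000000 / 898239) * e3 + (400000 / 94463) * e2 + (3200 / 1479) * e1 + (1571064164000 / 474298037409) * R.k2 + (1530176856372001840 / 10386650808366744399) * s2 + (12575374577405514779 / 5778531089099650000) * b2 + (59049683876076400 / 44803615507766367) * t2 + 2 * R.h4 + c2 + c3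
    · linear_combination (1374000 / 528031) * R.h1 + (40000 / 38319) * e8 + (100000 / 94031) * e7 + (235508764537130075 / 73502915453347548) * e6 + (1000000 / 528031) * e5 + (250000 / 248299) * e4 + (1000000 / 898239) * e3 + (400000 / 94463) * e2 + (3200 / 1479) * e1 + (72507773010800 / 25137795982677) * R.k2 + (2986216257238143868991115020 / 12474969662289265384804599237) * s2 + (644065150942792125787 / 612524295444562900000) * b2 + (480229146603080660300 / 601846967115825607911) * t2 + R.h4 + c2 + c3
  · rcases R.l20 with c3 | c3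
    · linear_combination (1374000 / 528031) * R.h1 + (1000000 / 999471) * e9 + (100000 / 94031) * e7 + (74715801242982660625 / 21001724531467331946) * e6 + (1000000 / 528031) * e5 + (250000 / 248299) * e4 + (1000000 / 898239) * e3 + (400000 / 94463) * e2 + (3200 / 1479) * e1 + (516138453778810000 / 158015711249070213) * R.k2 + (70785549588236177970731749140 / 108461167248083321271571436311) * s2 + (4004734101488836431827303 / 3850316164102344190100000) * b2 + (480229146603080660300 / 601846967115825607911) * t2 + R.h4 + c2 + c3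
    · linear_combination (1374000 / 528031) * R.h1 + (1000000 / 999471) * e9 + (40000 / 38319) * e8 + (200000 / 94031) * e7 + (1949471740940508826425 / 742060933445179062092) * e6 + (1000000 / 528031) * e5 + (250000 / 248299) * e4 + (1000000 / 898239) * e3 + (400000 / 94463) * e2 + (3200 / 1479) * e1 + (7923675309297127200 / 2791610898733573763) * R.k2 + (3095024029119983074945391036302360 / 4156123467779304787805345868001209) * s2 + (6907652138168366443371 / 81626702678969696830120) * b1 + (167243889698827039400 / 601846967115825607911) * t2 + c2 + c3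

theorem g70 {s b t k G2 G3 : ℝ} (R : RegH s b t k G2 G3) (hT : t ≤ 284 / 1000 * s) (hb : s - t + 3 / 200 ≤ b) (hy : s - t ≤ 1 / 2)
    (s1 : 5179 / 10000 ≤ s) (s2 : s ≤ 53 / 100)
    (b1 : 41 / 100 ≤ b) (b2 : b ≤ 91 / 200) (t1 : 377 / 10000 ≤ t) (t2 : t ≤ 753 / 10000) :
    4 * ph (s - t) - 2 * ph s + 13 / 1000 ≤ G2 + G3 := by
  exfalso
  exact absurd b2 (not_le.mpr (by linear_combination s1 + t2 + hb))

theorem g72 {s b t k G2 G3 : ℝ} (R : RegH s b t k G2 G3) (hT : t ≤ 284 / 1000 * s) (hb : s - t + 3 / 200 ≤ b) (hy : s - t ≤ 1 / 2)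
    (s1 : 5179 / 10000 ≤ s) (s2 : s ≤ 53 / 100)
    (b1 : 91 / 200 ≤ b) (b2 : b ≤ 1 / 2) (t1 : 377 / 10000 ≤ t) (t2 : t ≤ 113 / 2000) :
    4 * ph (s - t) - 2 * ph s + 13 / 1000 ≤ G2 + G3 := by
  have e1 := R.lo0 (283 / 1000) (by norm_num)
  have e2 := up (t1 := (244 / 1000)) (t2 := (264 / 1000)) (x := s - t) (by norm_num)
    (by linear_combination (66221 / 62500) * s1 + (66221 / 62500) * t2) (by linear_combination (16714 / 15625) * s2 + (16714 / 15625) * t1)
  have e3 := R.lo2 (340 / 1000) (by norm_num)
  have e4 := up (t1 := (83 / 1000)) (t2 := (86 / 1000)) (x := 8 / 25 * s) (by norm_num)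
    (by linear_combination (1006889 / 3125000) * s1) (by linear_combination (251849 / 781250) * s2)
  have e5 := R.lo7 (729 / 1000) (by norm_num)
  have e6 := up (t1 := (240 / 1000)) (t2 := (268 / 1000)) (x := b) (by norm_num)
    (by linear_combination (661 / 625) * b1) (by linear_combination (66989 / 62500) * b2)
  have e7 := up (t1 := (253 / 1000)) (t2 := (273 / 1000)) (x := s - t + 3 / 200) (by norm_num)
    (by linear_combination (1064009 / 1000000) * s1 + (1064009 / 1000000) * t2) (by linear_combination (1074529 / 1000000) * s2 + (1074529 / 1000000) * t1)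
  have e8 := R.lo16 (212 / 1000) (by norm_num)
  have e9 := R.lo15 (25 / 1000) (by norm_num)
  rcases R.k13 with c2 | c2
  · rcases R.l20 with c3 | c3
    · linear_combination (1458000 / 468559) * R.h1 + (10267244596475 / 2203066957728) * e6 + (1000000 / 468559) * e5 + (500000 / 496431) * e4 + (2500 / 2211) * e3 + (125000 / 29237) * e2 + (2000000 / 919911) * e1 + (4020188300 / 1035983949) * R.k2 + (57259401903765040 / 252313445460115611) * s2 + (109015679481517201 / 50486951114600000) * b2 + (3981020351200 / 2329927901301) * t2 + 2 * R.h4 + c2 + c3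
    · linear_combination (1458000 / 468559) * R.h1 + (62500 / 59691) * e8 + (1000000 / 930931) * e7 + (6785487517957175 / 1826434302413084) * e6 + (1000000 / 468559) * e5 + (500000 / 496431) * e4 + (2500 / 2211) * e3 + (125000 / 29237) * e2 + (2000000 / 919911) * e1 + (23612831685200 / 6870990877751) * R.k2 + (1626438346803494697138865780 / 4673534861878767736032844377) * s2 + (519864005367228210043 / 502269433163598100000) * b2 + (2480513180478641200 / 2169002111086041231) * t2 + R.h4 + c2 + c3
  · rcases R.l20 with c3 | c3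
    · linear_combination (1458000 / 468559) * R.h1 + (1600 / 1599) * e9 + (1000000 / 930931) * e7 + (9448894248285 / 2316044750432) * e6 + (1000000 / 468559) * e5 + (500000 / 496431) * e4 + (2500 / 2211) * e3 + (125000 / 29237) * e2 + (2000000 / 919911) * e1 + (4171862180 / 1089111331) * R.k2 + (37363482803240728302465568 / 48151713659604331602087405) * s2 + (162935797434496591 / 159228076592200000) * b2 + (2480513180478641200 / 2169002111086041231) * t2 + R.h4 + c2 + c3
    · linear_combination (1458000 / 468559) * R.h1 + (1600 / 1599) * e9 + (62500 / 59691) * e8 + (2000000 / 930931) * e7 + (13541632278745705 / 4320219599938641) * e6 + (1000000 / 468559) * e5 + (500000 / 496431) * e4 + (2500 / 2211) * e3 + (125000 / 29237) * e2 + (2000000 / 919911) * e1 + (220161175114880 / 65010144458721) * R.k2 + (859417939729992849132569938996 / 958074646685147385886733097285) * s2 + (79971138847627341 / 792040259988750850) * b1 + (1254971104394315200 / 2169002111086041231) * t2 + c2 + c3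

theorem g74 {s b t k G2 G3 : ℝ} (R : RegH s b t k G2 G3) (hT : t ≤ 284 / 1000 * s) (hb : s - t + 3 / 200 ≤ b) (hy : s - t ≤ 1 / 2)
    (s1 : 5179 / 10000 ≤ s) (s2 : s ≤ 131 / 250)
    (b1 : 91 / 200 ≤ b) (b2 : b ≤ 1 / 2) (t1 : 113 / 2000 ≤ t) (t2 : t ≤ 753 / 10000) :
    4 * ph (s - t) - 2 * ph s + 13 / 1000 ≤ G2 + G3 := by
  have e1 := R.lo0 (281 / 1000) (by norm_num)
  have e2 := up (t1 := (233 / 1000)) (t2 := (249 / 1000)) (x := s - t) (by norm_num)
    (by linear_combination (1054289 / 1000000) * s1 + (1054289 / 1000000) * t2) (by linear_combination (1062001 / 1000000) * s2 + (1062001 / 1000000) * t1)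
  have e3 := R.lo2 (325 / 1000) (by norm_num)
  have e4 := up (t1 := (83 / 1000)) (t2 := (85 / 1000)) (x := 8 / 25 * s) (by norm_num)
    (by linear_combination (1006889 / 3125000) * s1) (by linear_combination (40289 / 125000) * s2)
  have e5 := R.lo7 (687 / 1000) (by norm_num)
  have e6 := up (t1 := (240 / 1000)) (t2 := (268 / 1000)) (x := b) (by norm_num)
    (by linear_combination (661 / 625) * b1) (by linear_combination (66989 / 62500) * b2)
  have e7 := up (t1 := (242 / 1000)) (t2 := (258 / 1000)) (x := s - t + 3 / 200) (by norm_num)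
    (by linear_combination (264641 / 250000) * s1 + (264641 / 250000) * t2) (by linear_combination (266641 / 250000) * s2 + (266641 / 250000) * t1)
  have e8 := R.lo16 (210 / 1000) (by norm_num)
  have e9 := R.lo15 (24 / 1000) (by norm_num)
  rcases R.k13 with c2 | c2
  · rcases R.l20 with c3 | c3
    · linear_combination (1374000 / 528031) * R.h1 + (9168680203835 / 2209410543564) * e6 + (1000000 / 528031) * e5 + (200000 / 198589) * e4 + (1600 / 1431) * e3 + (4000000 / 941983) * e2 + (2000000 / 921039) * e1 + (2515346240 / 755612361) * R.k2 + (1805291684507024144 / 11740770887676889023) * s2 + (6676506898268947 / 3068625754950000) * b2 + (130370395026560 / 101681999807409) * t2 + 2 * R.h4 + c2 + c3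
    · linear_combination (1374000 / 528031) * R.h1 + (10000 / 9559) * e8 + (250000 / 234391) * e7 + (24643221290818885 / 7679911049428464) * e6 + (1000000 / 528031) * e5 + (200000 / 198589) * e4 + (1600 / 1431) * e3 + (4000000 / 941983) * e2 + (2000000 / 921039) * e1 + (20870622791960 / 7222898558799) * R.k2 + (6515477965943723133566084336 / 26305708707486875050409343087) * s2 + (7709747006355530281 / 7333248397891762500) * b2 + (17847397284744299960 / 23833345616858402919) * t2 + R.h4 + c2 + c3
  · rcases R.l20 with c3 | c3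
    · linear_combination (1374000 / 528031) * R.h1 + (15625 / 15616) * e9 + (250000 / 234391) * e7 + (1971319333787616635 / 552034480772726784) * e6 + (1000000 / 528031) * e5 + (200000 / 198589) * e4 + (1600 / 1431) * e3 + (4000000 / 941983) * e2 + (2000000 / 921039) * e1 + (19356468806545 / 5899821314688) * R.k2 + (29575143395500088360822669 / 44030896466135579119839888) * s2 + (398566393265494824533 / 383357278314393600000) * b2 + (17847397284744299960 / 23833345616858402919) * t2 + R.h4 + c2 + c3
    · linear_combination (1374000 / 528031) * R.h1 + (15625 / 15616) * e9 + (10000 / 9559) * e8 + (500000 / 234391) * e7 + (1261642233453983035015 / 479717963791499575296) * e6 + (1000000 / 528031) * e5 + (200000 / 198589) * e4 + (1600 / 1431) * e3 + (4000000 / 941983) * e2 + (2000000 / 921039) * e1 + (160249235800074055 / 56396391947102592) * R.k2 + (322239088390422676679490363371 / 420891339319790000806549489392) * s2 + (2483574706276707719201 / 29316097787258307379200) * b1 + (5137147308818174960 / 23833345616858402919) * t2 + c2 + c3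

theorem g75 {s b t k G2 G3 : ℝ} (R : RegH s b t k G2 G3) (hT : t ≤ 284 / 1000 * s) (hb : s - t + 3 / 200 ≤ b) (hy : s - t ≤ 1 / 2)
    (s1 : 131 / 250 ≤ s) (s2 : s ≤ 53 / 100)
    (b1 : 91 / 200 ≤ b) (b2 : b ≤ 1 / 2) (t1 : 113 / 2000 ≤ t) (t2 : t ≤ 753 / 10000) :
    4 * ph (s - t) - 2 * ph s + 13 / 1000 ≤ G2 + G3 := by
  have e1 := R.lo0 (285 / 1000) (by norm_num)
  have e2 := up (t1 := (236 / 1000)) (t2 := (252 / 1000)) (x := s - t) (by norm_num)
    (by linear_combination (65981 / 62500) * s1 + (65981 / 62500) * t2) (by linear_combination (66469 / 62500) * s2 + (66469 / 62500) * t1)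
  have e3 := R.lo2 (329 / 1000) (by norm_num)
  have e4 := up (t1 := (84 / 1000)) (t2 := (86 / 1000)) (x := 8 / 25 * s) (by norm_num)
    (by linear_combination (125882 / 390625) * s1) (by linear_combination (251849 / 781250) * s2)
  have e5 := R.lo7 (687 / 1000) (by norm_num)
  have e6 := up (t1 := (240 / 1000)) (t2 := (268 / 1000)) (x := b) (by norm_num)
    (by linear_combination (661 / 625) * b1) (by linear_combination (66989 / 62500) * b2)
  have e7 := up (t1 := (245 / 1000)) (t2 := (261 / 1000)) (x := s - t + 3 / 200) (by norm_num)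
    (by linear_combination (42401 / 40000) * s1 + (42401 / 40000) * t2) (by linear_combination (1068121 / 1000000) * s2 + (1068121 / 1000000) * t1)
  have e8 := R.lo16 (214 / 1000) (by norm_num)
  have e9 := R.lo15 (25 / 1000) (by norm_num)
  rcases R.k13 with c2 | c2
  · rcases R.l20 with c3 | c3
    · linear_combination (1374000 / 528031) * R.h1 + (520710282042875 / 125167507586436) * e6 + (1000000 / 528031) * e5 + (125000 / 124097) * e4 + (1000000 / 891759) * e3 + (250000 / 58783) * e2 + (80000 / 36751) * e1 + (1572721264000 / 470876396529) * R.k2 + (299484260487293200 / 1975806095368301079) * s2 + (12479935554914046749 / 5736844097711650000) * b2 + (35002353685174000 / 27679527217164207) * t2 + 2 * R.h4 + c2 + c3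
    · linear_combination (1374000 / 528031) * R.h1 + (250000 / 238551) * e8 + (200000 / 187211) * e7 + (42606350516145070875 / 13270592934334175216) * e6 + (1000000 / 528031) * e5 + (125000 / 124097) * e4 + (1000000 / 891759) * e3 + (250000 / 58783) * e2 + (80000 / 36751) * e1 + (36087828424429000 / 12480892807598831) * R.k2 + (7164971816312132249025959000 / 29412752650933243472629296873) * s2 + (479570980144667335734179 / 456176632117737273050000) * b2 + (3751657481378091965600 / 5181911969852528356677) * t2 + R.h4 + c2 + c3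
  · rcases R.l20 with c3 | c3
    · linear_combination (1374000 / 528031) * R.h1 + (1600 / 1599) * e9 + (200000 / 187211) * e7 + (39799846628675265 / 11119046923928398) * e6 + (1000000 / 528031) * e5 + (125000 / 124097) * e4 + (1000000 / 891759) * e3 + (250000 / 58783) * e2 + (80000 / 36751) * e1 + (275234576601520 / 83659039783319) * R.k2 + (17089916658439346806796704 / 25275996719532992575545715) * s2 + (6356438887407653826967 / 6115475808160618900000) * b2 + (3751657481378091965600 / 5181911969852528356677) * t2 + R.h4 + c2 + c3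
    · linear_combination (1374000 / 528031) * R.h1 + (1600 / 1599) * e9 + (250000 / 238551) * e8 + (400000 / 187211) * e7 + (55805759012215456245745 / 21219678102000346170384) * e6 + (1000000 / 528031) * e5 + (125000 / 124097) * e4 + (1000000 / 891759) * e3 + (250000 / 58783) * e2 + (80000 / 36751) * e1 + (56705966226054064520 / 19956947599350530769) * R.k2 + (4631692714776267645388165908904 / 6029614293441314911889005858965) * s2 + (329565152161736663528949 / 3890274318700063464570400) * b1 + (950489327001074217200 / 5181911969852528356677) * t2 + c2 + c3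

theorem g79 {s b t k G2 G3 : ℝ} (R : RegH s b t k G2 G3) (hT : t ≤ 284 / 1000 * s) (hb : s - t + 3 / 200 ≤ b) (hy : s - t ≤ 1 / 2)
    (s1 : 963 / 2000 ≤ s) (s2 : s ≤ 53 / 100)
    (b1 : 8 / 25 ≤ b) (b2 : b ≤ 73 / 200) (t1 : 753 / 10000 ≤ t) (t2 : t ≤ 113 / 1000) :
    4 * ph (s - t) - 2 * ph s + 13 / 1000 ≤ G2 + G3 := by
  exfalso
  exact absurd b2 (not_le.mpr (by linear_combination s1 + t2 + hb))

theorem g84 {s b t k G2 G3 : ℝ} (R : RegH s b t k G2 G3) (hT : t ≤ 284 / 1000 * s) (hb : s - t + 3 / 200 ≤ b) (hy : s - t ≤ 1 / 2)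
    (s1 : 963 / 2000 ≤ s) (s2 : s ≤ 4937 / 10000)
    (b1 : 73 / 200 ≤ b) (b2 : b ≤ 1881 / 5000) (t1 : 753 / 10000 ≤ t) (t2 : t ≤ 113 / 1000) :
    4 * ph (s - t) - 2 * ph s + 13 / 1000 ≤ G2 + G3 := by
  exfalso
  exact absurd b2 (not_le.mpr (by linear_combination s1 + t2 + hb))

theorem g85 {s b t k G2 G3 : ℝ} (R : RegH s b t k G2 G3) (hT : t ≤ 284 / 1000 * s) (hb : s - t + 3 / 200 ≤ b) (hy : s - t ≤ 1 / 2)
    (s1 : 963 / 2000 ≤ s) (s2 : s ≤ 4937 / 10000)
    (b1 : 1881 / 5000 ≤ b) (b2 : b ≤ 31 / 80) (t1 : 753 / 10000 ≤ t) (t2 : t ≤ 113 / 1000) :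
    4 * ph (s - t) - 2 * ph s + 13 / 1000 ≤ G2 + G3 := by
  have e1 := R.lo0 (260 / 1000) (by norm_num)
  have e2 := up (t1 := (190 / 1000)) (t2 := (220 / 1000)) (x := s - t) (by norm_num)
    (by linear_combination (10361 / 10000) * s1 + (10361 / 10000) * t2) (by linear_combination (2621 / 2500) * s2 + (2621 / 2500) * t1)
  have e3 := R.lo2 (280 / 1000) (by norm_num)
  have e4 := up (t1 := (77 / 1000)) (t2 := (80 / 1000)) (x := 8 / 25 * s) (by norm_num)
    (by linear_combination (1005929 / 3125000) * s1) (by linear_combination (5032 / 15625) * s2)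
  have e5 := R.lo7 (622 / 1000) (by norm_num)
  have e6 := up (t1 := (195 / 1000)) (t2 := (202 / 1000)) (x := b) (by norm_num)
    (by linear_combination (41521 / 40000) * b1) (by linear_combination (260201 / 250000) * b2)
  have e7 := up (t1 := (199 / 1000)) (t2 := (228 / 1000)) (x := s - t + 3 / 200) (by norm_num)
    (by linear_combination (1039601 / 1000000) * s1 + (1039601 / 1000000) * t2) (by linear_combination (65749 / 62500) * s2 + (65749 / 62500) * t1)
  have e8 := R.lo16 (196 / 1000) (by norm_num)
  have e9 := R.lo15 (23 / 1000) (by norm_num)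
  rcases R.k13 with c2 | c2
  · rcases R.l20 with c3 | c3
    · linear_combination (311000 / 153279) * R.h1 + (1610479602275 / 471172288608) * e6 + (250000 / 153279) * e5 + (12500 / 12423) * e4 + (625 / 576) * e3 + (20000 / 4791) * e2 + (5000 / 2331) * e1 + (12932425 / 4904928) * R.k2 + (19264886299 / 493290098784) * s2 + (6952568644558729 / 3926435738400000) * b2 + (7246279525 / 7833170016) * t2 + 2 * R.h4 + c2 + c3
    · linear_combination (311000 / 153279) * R.h1 + (62500 / 60099) * e8 + (250000 / 238657) * e7 + (23880667991239075 / 9438994457684064) * e6 + (250000 / 153279) * e5 + (12500 / 12423) * e4 + (625 / 576) * e3 + (20000 / 4791) * e2 + (5000 / 2331) * e1 + (219018358025 / 98260422624) * R.k2 + (185579552059338838619 / 2358427697568343031904) * s2 + (59462635979919001841 / 78658287147367200000) * b2 + (893184433389925 / 1869440856508512) * t2 + R.h4 + c2 + c3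
  · rcases R.l20 with c3 | c3
    · linear_combination (311000 / 153279) * R.h1 + (1000000 / 999471) * e9 + (250000 / 238657) * e7 + (40756698359094925 / 14270395105070496) * e6 + (250000 / 153279) * e5 + (12500 / 12423) * e4 + (625 / 576) * e3 + (20000 / 4791) * e2 + (5000 / 2331) * e1 + (4233319019725 / 1634111097696) * R.k2 + (18497728646923277867431 / 39221619150340760718816) * s2 + (921671379654601192789 / 1308119551298128800000) * b2 + (893184433389925 / 1869440856508512) * t2 + R.h4 + c2 + c3
    · linear_combination (311000 / 153279) * R.h1 + (1000000 / 999471) * e9 + (62500 / 60099) * e8 + (500000 / 238657) * e7 + (562611187737782600525 / 285878825139877246368) * e6 + (250000 / 153279) * e5 + (12500 / 12423) * e4 + (625 / 576) * e3 + (20000 / 4791) * e2 + (5000 / 2331) * e1 + (71460839290966925 / 32736147620143968) * R.k2 + (401706458289088576222333223 / 785726696438776459480040928) * s2 + (13005023796185203662931 / 41928894353848662800640) * b1 + (56993534181925 / 1869440856508512) * t2 + c2 + c3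

theorem g86 {s b t k G2 G3 : ℝ} (R : RegH s b t k G2 G3) (hT : t ≤ 284 / 1000 * s) (hb : s - t + 3 / 200 ≤ b) (hy : s - t ≤ 1 / 2)
    (s1 : 963 / 2000 ≤ s) (s2 : s ≤ 4937 / 10000)
    (b1 : 31 / 80 ≤ b) (b2 : b ≤ 41 / 100) (t1 : 753 / 10000 ≤ t) (t2 : t ≤ 113 / 1000) :
    4 * ph (s - t) - 2 * ph s + 13 / 1000 ≤ G2 + G3 := by
  have e1 := R.lo0 (260 / 1000) (by norm_num)
  have e2 := up (t1 := (190 / 1000)) (t2 := (220 / 1000)) (x := s - t) (by norm_num)
    (by linear_combination (10361 / 10000) * s1 + (10361 / 10000) * t2) (by linear_combination (2621 / 2500) * s2 + (2621 / 2500) * t1)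
  have e3 := R.lo2 (281 / 1000) (by norm_num)
  have e4 := up (t1 := (77 / 1000)) (t2 := (80 / 1000)) (x := 8 / 25 * s) (by norm_num)
    (by linear_combination (1005929 / 3125000) * s1) (by linear_combination (5032 / 15625) * s2)
  have e5 := R.lo7 (626 / 1000) (by norm_num)
  have e6 := up (t1 := (201 / 1000)) (t2 := (215 / 1000)) (x := b) (by norm_num)
    (by linear_combination (1040401 / 1000000) * b1) (by linear_combination (41849 / 40000) * b2)
  have e7 := up (t1 := (199 / 1000)) (t2 := (228 / 1000)) (x := s - t + 3 / 200) (by norm_num)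
    (by linear_combination (1039601 / 1000000) * s1 + (1039601 / 1000000) * t2) (by linear_combination (65749 / 62500) * s2 + (65749 / 62500) * t1)
  have e8 := R.lo16 (195 / 1000) (by norm_num)
  have e9 := R.lo15 (22 / 1000) (by norm_num)
  rcases R.k13 with c2 | c2
  · rcases R.l20 with c3 | c3
    · linear_combination (313000 / 152031) * R.h1 + (936737278226000 / 270657042155087) * e6 + (250000 / 152031) * e5 + (12500 / 12423) * e4 + (1000000 / 921039) * e3 + (20000 / 4791) * e2 + (5000 / 2331) * e1 + (41525181000 / 15558497801) * R.k2 + (3526568030084 / 96585760904319) * s2 + (39072709683144399153 / 21265910455042550000) * b2 + (71367460202800 / 74540762964591) * t2 + 2 * R.h4 + c2 + c3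
    · linear_combination (313000 / 152031) * R.h1 + (40000 / 38479) * e8 + (250000 / 238657) * e7 + (3825779671105205200 / 1487801760726513239) * e6 + (250000 / 152031) * e5 + (12500 / 12423) * e4 + (1000000 / 921039) * e3 + (20000 / 4791) * e2 + (5000 / 2331) * e1 + (193590696286200 / 85525062412097) * R.k2 + (69530814292537844349002 / 886974347468726310694257) * s2 + (187965584108857673704041 / 233797419542737794700000) * b2 + (9075117503149550350 / 17789674866840394287) * t2 + R.h4 + c2 + c3
  · rcases R.l20 with c3 | c3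
    · linear_combination (313000 / 152031) * R.h1 + (250000 / 249879) * e9 + (250000 / 238657) * e7 + (28004720178327964000 / 9661644433810140639) * e6 + (250000 / 152031) * e5 + (12500 / 12423) * e4 + (1000000 / 921039) * e3 + (20000 / 4791) * e2 + (5000 / 2331) * e1 + (1457875318184000 / 555391696002297) * R.k2 + (901851354329594216901614 / 1919975943338252568846819) * s2 + (1152889844632849661964641 / 1518258411027307814700000) * b2 + (9075117503149550350 / 17789674866840394287) * t2 + R.h4 + c2 + c3
    · linear_combination (313000 / 152031) * R.h1 + (250000 / 249879) * e9 + (40000 / 38479) * e8 + (500000 / 238657) * e7 + (15242601636712779671200 / 7587151350379191870369) * e6 + (250000 / 152031) * e5 + (12500 / 12423) * e4 + (1000000 / 921039) * e3 + (20000 / 4791) * e2 + (5000 / 2331) * e1 + (968030079811557200 / 436141164703518087) * R.k2 + (771352761758223284490980744 / 1507729680075767767278709149) * s2 + (114347604508261978923944 / 417293324270855552870295) * b1 + (1117891056679461100 / 17789674866840394287) * t2 + c2 + c3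

theorem g88 {s b t k G2 G3 : ℝ} (R : RegH s b t k G2 G3) (hT : t ≤ 284 / 1000 * s) (hb : s - t + 3 / 200 ≤ b) (hy : s - t ≤ 1 / 2)
    (s1 : 4937 / 10000 ≤ s) (s2 : s ≤ 2529 / 5000)
    (b1 : 73 / 200 ≤ b) (b2 : b ≤ 31 / 80) (t1 : 753 / 10000 ≤ t) (t2 : t ≤ 113 / 1000) :
    4 * ph (s - t) - 2 * ph s + 13 / 1000 ≤ G2 + G3 := by
  exfalso
  exact absurd b2 (not_le.mpr (by linear_combination s1 + t2 + hb))

theorem g90 {s b t k G2 G3 : ℝ} (R : RegH s b t k G2 G3) (hT : t ≤ 284 / 1000 * s) (hb : s - t + 3 / 200 ≤ b) (hy : s - t ≤ 1 / 2)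
    (s1 : 4937 / 10000 ≤ s) (s2 : s ≤ 2529 / 5000)
    (b1 : 31 / 80 ≤ b) (b2 : b ≤ 41 / 100) (t1 : 753 / 10000 ≤ t) (t2 : t ≤ 471 / 5000) :
    4 * ph (s - t) - 2 * ph s + 13 / 1000 ≤ G2 + G3 := by
  exfalso
  exact absurd b2 (not_le.mpr (by linear_combination s1 + t2 + hb))

theorem g91 {s b t k G2 G3 : ℝ} (R : RegH s b t k G2 G3) (hT : t ≤ 284 / 1000 * s) (hb : s - t + 3 / 200 ≤ b) (hy : s - t ≤ 1 / 2)
    (s1 : 4937 / 10000 ≤ s) (s2 : s ≤ 2529 / 5000)
    (b1 : 31 / 80 ≤ b) (b2 : b ≤ 41 / 100) (t1 : 471 / 5000 ≤ t) (t2 : t ≤ 113 / 1000) :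
    4 * ph (s - t) - 2 * ph s + 13 / 1000 ≤ G2 + G3 := by
  have e1 := R.lo0 (268 / 1000) (by norm_num)
  have e2 := up (t1 := (197 / 1000)) (t2 := (216 / 1000)) (x := s - t) (by norm_num)
    (by linear_combination (1038809 / 1000000) * s1 + (1038809 / 1000000) * t2) (by linear_combination (16354 / 15625) * s2 + (16354 / 15625) * t1)
  have e3 := R.lo2 (283 / 1000) (by norm_num)
  have e4 := up (t1 := (79 / 1000)) (t2 := (82 / 1000)) (x := 8 / 25 * s) (by norm_num)
    (by linear_combination (1006241 / 3125000) * s1) (by linear_combination (251681 / 781250) * s2)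
  have e5 := R.lo7 (611 / 1000) (by norm_num)
  have e6 := up (t1 := (201 / 1000)) (t2 := (215 / 1000)) (x := b) (by norm_num)
    (by linear_combination (1040401 / 1000000) * b1) (by linear_combination (41849 / 40000) * b2)
  have e7 := up (t1 := (206 / 1000)) (t2 := (225 / 1000)) (x := s - t + 3 / 200) (by norm_num)
    (by linear_combination (260609 / 250000) * s1 + (260609 / 250000) * t2) (by linear_combination (1681 / 1600) * s2 + (1681 / 1600) * t1)
  have e8 := R.lo16 (201 / 1000) (by norm_num)
  have e9 := R.lo15 (24 / 1000) (by norm_num)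
  rcases R.k13 with c2 | c2
  · rcases R.l20 with c3 | c3
    · linear_combination (1222000 / 626679) * R.h1 + (123813426534112000 / 36771729167655711) * e6 + (1000000 / 626679) * e5 + (500000 / 496761) * e4 + (1000000 / 919911) * e3 + (500000 / 119681) * e2 + (125000 / 58011) * e1 + (492943852000 / 192162968523) * R.k2 + (827923328781731380 / 117507368814140205743) * s2 + (3401654915836917139733 / 1838586458382785550000) * b2 + (19314360151212500 / 22998256235801163) * t2 + 2 * R.h4 + c2 + c3
    · linear_combination (1222000 / 626679) * R.h1 + (1000000 / 959599) * e8 + (20000 / 19073) * e7 + (1426085603883397192000 / 578460894058250042949) * e6 + (1000000 / 626679) * e5 + (500000 / 496761) * e4 + (1000000 / 919911) * e3 + (500000 / 119681) * e2 + (125000 / 58011) * e1 + (395778914089102000 / 184399392431702277) * R.k2 + (86174156042178259971033646600 / 2150670595140210067816990808161) * s2 + (47343687254800302956712247 / 57846089405825004294900000) * b2 + (170137822411469987440 / 438645741185435581899) * t2 + R.h4 + c2 + c3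
  · rcases R.l20 with c3 | c3
    · linear_combination (1222000 / 626679) * R.h1 + (15625 / 15616) * e9 + (20000 / 19073) * e7 + (402106485691670034625 / 143556830670527895744) * e6 + (1000000 / 626679) * e5 + (500000 / 496761) * e4 + (1000000 / 919911) * e3 + (500000 / 119681) * e2 + (125000 / 58011) * e1 + (3776844483219875 / 1500408458227584) * R.k2 + (15908152821754020870271915 / 35859488726273538306179824) * s2 + (1386492658368195035767829 / 1794460383381598696800000) * b2 + (170137822411469987440 / 438645741185435581899) * t2 + R.h4 + c2 + c3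
    · linear_combination (1222000 / 626679) * R.h1 + (15625 / 15616) * e9 + (1000000 / 959599) * e8 + (40000 / 19073) * e7 + (261635629527335154840211375 / 137756991154607898228046656) * e6 + (1000000 / 626679) * e5 + (500000 / 496761) * e4 + (1000000 / 919911) * e3 + (500000 / 119681) * e2 + (125000 / 58011) * e1 + (3021091989045820062125 / 1439790456106731378816) * R.k2 + (16401785873073697429951741815525 / 34410729522243361085071852930576) * s2 + (142745412214355291973941897 / 551027964618431592912186624) * b1 + (28107146341136037620 / 438645741185435581899) * t1 + c2 + c3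

theorem g94 {s b t k G2 G3 : ℝ} (R : RegH s b t k G2 G3) (hT : t ≤ 284 / 1000 * s) (hb : s - t + 3 / 200 ≤ b) (hy : s - t ≤ 1 / 2)
    (s1 : 2529 / 5000 ≤ s) (s2 : s ≤ 5179 / 10000)
    (b1 : 73 / 200 ≤ b) (b2 : b ≤ 31 / 80) (t1 : 753 / 10000 ≤ t) (t2 : t ≤ 113 / 1000) :
    4 * ph (s - t) - 2 * ph s + 13 / 1000 ≤ G2 + G3 := by
  exfalso
  exact absurd b2 (not_le.mpr (by linear_combination s1 + t2 + hb))

theorem g97 {s b t k G2 G3 : ℝ} (R : RegH s b t k G2 G3) (hT : t ≤ 284 / 1000 * s) (hb : s - t + 3 / 200 ≤ b) (hy : s - t ≤ 1 / 2)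
    (s1 : 2529 / 5000 ≤ s) (s2 : s ≤ 5119 / 10000)
    (b1 : 31 / 80 ≤ b) (b2 : b ≤ 997 / 2500) (t1 : 753 / 10000 ≤ t) (t2 : t ≤ 113 / 1000) :
    4 * ph (s - t) - 2 * ph s + 13 / 1000 ≤ G2 + G3 := by
  exfalso
  exact absurd b2 (not_le.mpr (by linear_combination s1 + t2 + hb))

theorem g99 {s b t k G2 G3 : ℝ} (R : RegH s b t k G2 G3) (hT : t ≤ 284 / 1000 * s) (hb : s - t + 3 / 200 ≤ b) (hy : s - t ≤ 1 / 2)
    (s1 : 2529 / 5000 ≤ s) (s2 : s ≤ 5119 / 10000)
    (b1 : 997 / 2500 ≤ b) (b2 : b ≤ 41 / 100) (t1 : 753 / 10000 ≤ t) (t2 : t ≤ 471 / 5000) :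
    4 * ph (s - t) - 2 * ph s + 13 / 1000 ≤ G2 + G3 := by
  exfalso
  exact absurd b2 (not_le.mpr (by linear_combination s1 + t2 + hb))

theorem g100 {s b t k G2 G3 : ℝ} (R : RegH s b t k G2 G3) (hT : t ≤ 284 / 1000 * s) (hb : s - t + 3 / 200 ≤ b) (hy : s - t ≤ 1 / 2)
    (s1 : 2529 / 5000 ≤ s) (s2 : s ≤ 5119 / 10000)
    (b1 : 997 / 2500 ≤ b) (b2 : b ≤ 41 / 100) (t1 : 471 / 5000 ≤ t) (t2 : t ≤ 113 / 1000) :
    4 * ph (s - t) - 2 * ph s + 13 / 1000 ≤ G2 + G3 := by
  have e1 := R.lo0 (273 / 1000) (by norm_num)
  have e2 := up (t1 := (204 / 1000)) (t2 := (219 / 1000)) (x := s - t) (by norm_num)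
    (by linear_combination (65101 / 62500) * s1 + (65101 / 62500) * t2) (by linear_combination (1047961 / 1000000) * s2 + (1047961 / 1000000) * t1)
  have e3 := R.lo2 (289 / 1000) (by norm_num)
  have e4 := up (t1 := (81 / 1000)) (t2 := (83 / 1000)) (x := 8 / 25 * s) (by norm_num)
    (by linear_combination (1006561 / 3125000) * s1) (by linear_combination (1006889 / 3125000) * s2)
  have e5 := R.lo7 (612 / 1000) (by norm_num)
  have e6 := up (t1 := (208 / 1000)) (t2 := (215 / 1000)) (x := b) (by norm_num)
    (by linear_combination (16301 / 15625) * b1) (by linear_combination (41849 / 40000) * b2)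
  have e7 := up (t1 := (213 / 1000)) (t2 := (228 / 1000)) (x := s - t + 3 / 200) (by norm_num)
    (by linear_combination (1045369 / 1000000) * s1 + (1045369 / 1000000) * t2) (by linear_combination (65749 / 62500) * s2 + (65749 / 62500) * t1)
  have e8 := R.lo16 (206 / 1000) (by norm_num)
  have e9 := R.lo15 (25 / 1000) (by norm_num)
  rcases R.k13 with c2 | c2
  · rcases R.l20 with c3 | c3
    · linear_combination (76500 / 39091) * R.h1 + (2902790022131125 / 855598456626498) * e6 + (62500 / 39091) * e5 + (1000000 / 993277) * e4 + (1000000 / 916479) * e3 + (1000000 / 238831) * e2 + (2000000 / 925471) * e1 + (92705241500 / 35826080589) * R.k2 + (2685686530215576782920 / 201208539581914411196883) * s2 + (20035434417430725011 / 10694980707831225000) * b2 + (6986453443539500 / 8556378653151459) * t2 + 2 * R.h4 + c2 + c3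
    · linear_combination (76500 / 39091) * R.h1 + (250000 / 239391) * e8 + (250000 / 237859) * e7 + (18807524240196661375 / 7586021115936073434) * e6 + (62500 / 39091) * e5 + (1000000 / 993277) * e4 + (1000000 / 916479) * e3 + (1000000 / 238831) * e2 + (2000000 / 925471) * e1 + (685285709898500 / 317645972528937) * R.k2 + (885391158198831180731528857910 / 19000127020516588233353119218309) * s2 + (317115397936965846883601 / 379301055796803671700000) * b2 + (718450083116913575750 / 2035211670059952886281) * t2 + R.h4 + c2 + c3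
  · rcases R.l20 with c3 | c3
    · linear_combination (76500 / 39091) * R.h1 + (1600 / 1599) * e9 + (250000 / 237859) * e7 + (99062424063334565 / 35079536721686418) * e6 + (62500 / 39091) * e5 + (1000000 / 993277) * e4 + (1000000 / 916479) * e3 + (1000000 / 238831) * e2 + (2000000 / 925471) * e1 + (3727425505420 / 1468869304149) * R.k2 + (58778784597088445471582821759078 / 127544933273744855521123583669505) * s2 + (1388707430282619478777 / 1753976836084320900000) * b2 + (718450083116913575750 / 2035211670059952886281) * t2 + R.h4 + c2 + c3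
    · linear_combination (76500 / 39091) * R.h1 + (1600 / 1599) * e9 + (250000 / 239391) * e8 + (500000 / 237859) * e7 + (198069235051058654965 / 103675621917793003598) * e6 + (62500 / 39091) * e5 + (1000000 / 993277) * e4 + (1000000 / 916479) * e3 + (1000000 / 238831) * e2 + (2000000 / 925471) * e1 + (9148377541242620 / 4341161624562139) * R.k2 + (25018875761861237399200449361602716 / 50635338509676707641886062716793485) * s2 + (5091497958676062873961 / 20735124383558600719600) * b1 + (224890663393034779000 / 2035211670059952886281) * t1 + c2 + c3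

theorem g101 {s b t k G2 G3 : ℝ} (R : RegH s b t k G2 G3) (hT : t ≤ 284 / 1000 * s) (hb : s - t + 3 / 200 ≤ b) (hy : s - t ≤ 1 / 2)
    (s1 : 5119 / 10000 ≤ s) (s2 : s ≤ 5179 / 10000)
    (b1 : 31 / 80 ≤ b) (b2 : b ≤ 41 / 100) (t1 : 753 / 10000 ≤ t) (t2 : t ≤ 113 / 1000) :
    4 * ph (s - t) - 2 * ph s + 13 / 1000 ≤ G2 + G3 := by
  exfalso
  exact absurd b2 (not_le.mpr (by linear_combination s1 + t2 + hb))

theorem g102 {s b t k G2 G3 : ℝ} (R : RegH s b t k G2 G3) (hT : t ≤ 284 / 1000 * s) (hb : s - t + 3 / 200 ≤ b) (hy : s - t ≤ 1 / 2)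
    (s1 : 5179 / 10000 ≤ s) (s2 : s ≤ 53 / 100)
    (b1 : 73 / 200 ≤ b) (b2 : b ≤ 41 / 100) (t1 : 753 / 10000 ≤ t) (t2 : t ≤ 113 / 1000) :
    4 * ph (s - t) - 2 * ph s + 13 / 1000 ≤ G2 + G3 := by
  exfalso
  exact absurd b2 (not_le.mpr (by linear_combination s1 + t2 + hb))

theorem g106 {s b t k G2 G3 : ℝ} (R : RegH s b t k G2 G3) (hT : t ≤ 284 / 1000 * s) (hb : s - t + 3 / 200 ≤ b) (hy : s - t ≤ 1 / 2)
    (s1 : 963 / 2000 ≤ s) (s2 : s ≤ 53 / 100)
    (b1 : 8 / 25 ≤ b) (b2 : b ≤ 73 / 200) (t1 : 113 / 1000 ≤ t) (t2 : t ≤ 153 / 1250) :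
    4 * ph (s - t) - 2 * ph s + 13 / 1000 ≤ G2 + G3 := by
  exfalso
  exact absurd b2 (not_le.mpr (by linear_combination s1 + t2 + hb))

theorem g109 {s b t k G2 G3 : ℝ} (R : RegH s b t k G2 G3) (hT : t ≤ 284 / 1000 * s) (hb : s - t + 3 / 200 ≤ b) (hy : s - t ≤ 1 / 2)
    (s1 : 963 / 2000 ≤ s) (s2 : s ≤ 2529 / 5000)
    (b1 : 8 / 25 ≤ b) (b2 : b ≤ 73 / 200) (t1 : 153 / 1250 ≤ t) (t2 : t ≤ 1271 / 10000) :
    4 * ph (s - t) - 2 * ph s + 13 / 1000 ≤ G2 + G3 := by
  exfalso
  exact absurd b2 (not_le.mpr (by linear_combination s1 + t2 + hb))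

theorem g110 {s b t k G2 G3 : ℝ} (R : RegH s b t k G2 G3) (hT : t ≤ 284 / 1000 * s) (hb : s - t + 3 / 200 ≤ b) (hy : s - t ≤ 1 / 2)
    (s1 : 963 / 2000 ≤ s) (s2 : s ≤ 2529 / 5000)
    (b1 : 8 / 25 ≤ b) (b2 : b ≤ 73 / 200) (t1 : 1271 / 10000 ≤ t) (t2 : t ≤ 659 / 5000) :
    4 * ph (s - t) - 2 * ph s + 13 / 1000 ≤ G2 + G3 := by
  have e1 := R.lo0 (264 / 1000) (by norm_num)
  have e2 := up (t1 := (180 / 1000)) (t2 := (197 / 1000)) (x := s - t) (by norm_num)
    (by linear_combination (2581 / 2500) * s1 + (2581 / 2500) * t2) (by linear_combination (1038809 / 1000000) * s2 + (1038809 / 1000000) * t1)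
  have e3 := R.lo2 (257 / 1000) (by norm_num)
  have e4 := up (t1 := (77 / 1000)) (t2 := (82 / 1000)) (x := 8 / 25 * s) (by norm_num)
    (by linear_combination (1005929 / 3125000) * s1) (by linear_combination (251681 / 781250) * s2)
  have e5 := up (t1 := (164 / 1000)) (t2 := (190 / 1000)) (x := b) (by norm_num)
    (by linear_combination (64181 / 62500) * b1) (by linear_combination (10361 / 10000) * b2)
  have e6 := up (t1 := (188 / 1000)) (t2 := (206 / 1000)) (x := s - t + 3 / 200) (by norm_num)
    (by linear_combination (64709 / 62500) * s1 + (64709 / 62500) * t2) (by linear_combination (260609 / 250000) * s2 + (260609 / 250000) * t1)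
  have e7 := R.lo15 (27 / 1000) (by norm_num)
  rcases R.k12 with c2 | c2
  · linear_combination (22802873000 / 22621227171) * e5 + (500000 / 496843) * e4 + (1000000 / 933951) * e3 + (200000 / 48227) * e2 + (15625 / 7268) * e1 + (514000 / 933951) * R.k2 + (198598767498119695 / 2804273959115508006) * s1 + (2143808140890113 / 2262122717100000) * b2 + (1573490600 / 1553160513) * t1 + R.h4 + c2 + R.g3
  · linear_combination (1000000 / 999271) * e7 + (125000 / 120159) * e6 + (10028452894955000 / 22604736296392341) * e5 + (500000 / 496843) * e4 + (1000000 / 933951) * e3 + (200000 / 48227) * e2 + (15625 / 7268) * e1 + (463191940000 / 933270149721) * R.k2 + (445117398975188885512475 / 1383379191045230369947866) * s2 + (2059413664555930 / 22604736296392341) * b1 + (88520737423550 / 62208738027189) * t1 + c2 + R.g3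

theorem g111 {s b t k G2 G3 : ℝ} (R : RegH s b t k G2 G3) (hT : t ≤ 284 / 1000 * s) (hb : s - t + 3 / 200 ≤ b) (hy : s - t ≤ 1 / 2)
    (s1 : 2529 / 5000 ≤ s) (s2 : s ≤ 53 / 100)
    (b1 : 8 / 25 ≤ b) (b2 : b ≤ 73 / 200) (t1 : 153 / 1250 ≤ t) (t2 : t ≤ 659 / 5000) :
    4 * ph (s - t) - 2 * ph s + 13 / 1000 ≤ G2 + G3 := by
  exfalso
  exact absurd b2 (not_le.mpr (by linear_combination s1 + t2 + hb))

theorem g115 {s b t k G2 G3 : ℝ} (R : RegH s b t k G2 G3) (hT : t ≤ 284 / 1000 * s) (hb : s - t + 3 / 200 ≤ b) (hy : s - t ≤ 1 / 2)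
    (s1 : 963 / 2000 ≤ s) (s2 : s ≤ 4937 / 10000)
    (b1 : 73 / 200 ≤ b) (b2 : b ≤ 31 / 80) (t1 : 113 / 1000 ≤ t) (t2 : t ≤ 659 / 5000) :
    4 * ph (s - t) - 2 * ph s + 13 / 1000 ≤ G2 + G3 := by
  have e1 := R.lo0 (260 / 1000) (by norm_num)
  have e2 := up (t1 := (180 / 1000)) (t2 := (198 / 1000)) (x := s - t) (by norm_num)
    (by linear_combination (2581 / 2500) * s1 + (2581 / 2500) * t2) (by linear_combination (259801 / 250000) * s2 + (259801 / 250000) * t1)
  have e3 := R.lo2 (262 / 1000) (by norm_num)
  have e4 := up (t1 := (77 / 1000)) (t2 := (80 / 1000)) (x := 8 / 25 * s) (by norm_num)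
    (by linear_combination (1005929 / 3125000) * s1) (by linear_combination (5032 / 15625) * s2)
  have e5 := R.lo7 (580 / 1000) (by norm_num)
  have e6 := up (t1 := (189 / 1000)) (t2 := (202 / 1000)) (x := b) (by norm_num)
    (by linear_combination (1035721 / 1000000) * b1) (by linear_combination (260201 / 250000) * b2)
  have e7 := up (t1 := (188 / 1000)) (t2 := (207 / 1000)) (x := s - t + 3 / 200) (by norm_num)
    (by linear_combination (64709 / 62500) * s1 + (64709 / 62500) * t2) (by linear_combination (1042849 / 1000000) * s2 + (1042849 / 1000000) * t1)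
  have e8 := R.lo16 (196 / 1000) (by norm_num)
  have e9 := R.lo15 (23 / 1000) (by norm_num)
  rcases R.k13 with c2 | c2
  · rcases R.l20 with c3 | c3
    · linear_combination (2900 / 1659) * R.h1 + (193210909410500 / 61922084489937) * e6 + (2500 / 1659) * e5 + (12500 / 12423) * e4 + (250000 / 232839) * e3 + (100000 / 24109) * e2 + (5000 / 2331) * e1 + (297520700 / 128759967) * R.k2 + (2916860598292 / 48947983560903) * s1 + (264899387053085191 / 147433534499850000) * b2 + (2305799803700 / 3104274044403) * t2 + 2 * R.h4 + c2 + c3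
    · linear_combination (2900 / 1659) * R.h1 + (62500 / 60099) * e8 + (250000 / 240271) * e7 + (2770399567090339000 / 1240485118586907921) * e6 + (2500 / 1659) * e5 + (12500 / 12423) * e4 + (250000 / 232839) * e3 + (100000 / 24109) * e2 + (5000 / 2331) * e1 + (4908692452600 / 2579448418911) * R.k2 + (13254468928442046643606 / 235603724934853831175529) * s1 + (4653340285457062456303 / 5907071993270990100000) * b2 + (247469762750006450 / 745867028922753213) * t2 + R.h4 + c2 + c3
  · rcases R.l20 with c3 | c3
    · linear_combination (2900 / 1659) * R.h1 + (1000000 / 999471) * e9 + (250000 / 240271) * e7 + (4799121446302253500 / 1875434172946721919) * e6 + (2500 / 1659) * e5 + (12500 / 12423) * e4 + (250000 / 232839) * e3 + (100000 / 24109) * e2 + (5000 / 2331) * e1 + (97146784355900 / 42897284325819) * R.k2 + (439719047714038785721802 / 1306062167226095240069647) * s2 + (72131178855349644152987 / 98237028106733052900000) * b2 + (247469762750006450 / 745867028922753213) * t2 + R.h4 + c2 + c3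
    · linear_combination (2900 / 1659) * R.h1 + (1000000 / 999471) * e9 + (62500 / 60099) * e8 + (500000 / 240271) * e7 + (62819206655082449813000 / 37570572786641680203327) * e6 + (2500 / 1659) * e5 + (12500 / 12423) * e4 + (250000 / 232839) * e3 + (100000 / 24109) * e2 + (5000 / 2331) * e1 + (1595813709007556200 / 859361296899132027) * R.k2 + (26688336206293003344525723148 / 78493030188121097832945715053) * s2 + (5406513118226514914447 / 19679823840621832487457) * b1 + (59077299134789800 / 745867028922753213) * t1 + c2 + c3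

theorem g117 {s b t k G2 G3 : ℝ} (R : RegH s b t k G2 G3) (hT : t ≤ 284 / 1000 * s) (hb : s - t + 3 / 200 ≤ b) (hy : s - t ≤ 1 / 2)
    (s1 : 4937 / 10000 ≤ s) (s2 : s ≤ 2529 / 5000)
    (b1 : 73 / 200 ≤ b) (b2 : b ≤ 1881 / 5000) (t1 : 113 / 1000 ≤ t) (t2 : t ≤ 659 / 5000) :
    4 * ph (s - t) - 2 * ph s + 13 / 1000 ≤ G2 + G3 := by
  exfalso
  exact absurd b2 (not_le.mpr (by linear_combination s1 + t2 + hb))

theorem g118 {s b t k G2 G3 : ℝ} (R : RegH s b t k G2 G3) (hT : t ≤ 284 / 1000 * s) (hb : s - t + 3 / 200 ≤ b) (hy : s - t ≤ 1 / 2)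
    (s1 : 4937 / 10000 ≤ s) (s2 : s ≤ 2529 / 5000)
    (b1 : 1881 / 5000 ≤ b) (b2 : b ≤ 31 / 80) (t1 : 113 / 1000 ≤ t) (t2 : t ≤ 659 / 5000) :
    4 * ph (s - t) - 2 * ph s + 13 / 1000 ≤ G2 + G3 := by
  have e1 := R.lo0 (268 / 1000) (by norm_num)
  have e2 := up (t1 := (187 / 1000)) (t2 := (205 / 1000)) (x := s - t) (by norm_num)
    (by linear_combination (1034969 / 1000000) * s1 + (1034969 / 1000000) * t2) (by linear_combination (41681 / 40000) * s2 + (41681 / 40000) * t1)
  have e3 := R.lo2 (270 / 1000) (by norm_num)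
  have e4 := up (t1 := (79 / 1000)) (t2 := (82 / 1000)) (x := 8 / 25 * s) (by norm_num)
    (by linear_combination (1006241 / 3125000) * s1) (by linear_combination (251681 / 781250) * s2)
  have e5 := R.lo7 (581 / 1000) (by norm_num)
  have e6 := up (t1 := (195 / 1000)) (t2 := (202 / 1000)) (x := b) (by norm_num)
    (by linear_combination (41521 / 40000) * b1) (by linear_combination (260201 / 250000) * b2)
  have e7 := up (t1 := (195 / 1000)) (t2 := (214 / 1000)) (x := s - t + 3 / 200) (by norm_num)
    (by linear_combination (41521 / 40000) * s1 + (41521 / 40000) * t2) (by linear_combination (261449 / 250000) * s2 + (261449 / 250000) * t1)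
  have e8 := R.lo16 (203 / 1000) (by norm_num)
  have e9 := R.lo15 (25 / 1000) (by norm_num)
  rcases R.k13 with c2 | c2
  · rcases R.l20 with c3 | c3
    · linear_combination (1162000 / 662439) * R.h1 + (1856906534277800 / 589955938814109) * e6 + (1000000 / 662439) * e5 + (500000 / 496761) * e4 + (10000 / 9271) * e3 + (800000 / 192333) * e2 + (125000 / 58011) * e1 + (14350072600 / 6141471969) * R.k2 + (1717628604634960 / 31199284350244399) * s1 + (17829830257939203909 / 9832598980235150000) * b2 + (92669655988600 / 131245303134853) * t2 + 2 * R.h4 + c2 + c3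
    · linear_combination (1162000 / 662439) * R.h1 + (1000000 / 958791) * e8 + (100000 / 95827) * e7 + (141114076913462394200 / 62849382725724264691) * e6 + (1000000 / 662439) * e5 + (500000 / 496761) * e4 + (10000 / 9271) * e3 + (800000 / 192333) * e2 + (125000 / 58011) * e1 + (1251698093201400 / 654265338958831) * R.k2 + (148178368957594314137318620 / 2866529880383525300196305643) * s1 + (5033205419109371274774673 / 6284938272572426469100000) * b2 + (3512322226204084500 / 12576843663503558431) * t2 + R.h4 + c2 + c3
  · rcases R.l20 with c3 | c3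
    · linear_combination (1162000 / 662439) * R.h1 + (1600 / 1599) * e9 + (100000 / 95827) * e7 + (270625919181571960 / 104815505129306699) * e6 + (1000000 / 662439) * e5 + (500000 / 496761) * e4 + (10000 / 9271) * e3 + (800000 / 192333) * e2 + (125000 / 58011) * e1 + (2494938703320 / 1091134853159) * R.k2 + (8503401062217838286463556 / 23902921902339805833669135) * s2 + (7837870843240628865497 / 10481550512930669900000) * b2 + (3512322226204084500 / 12576843663503558431) * t2 + R.h4 + c2 + c3
    · linear_combination (1162000 / 662439) * R.h1 + (1600 / 1599) * e9 + (1000000 / 958791) * e8 + (200000 / 95827) * e7 + (24114283977554242655480 / 14356594711204728462987) * e6 + (1000000 / 662439) * e5 + (500000 / 496761) * e4 + (10000 / 9271) * e3 + (800000 / 192333) * e2 + (125000 / 58011) * e1 + (1949124023912332120 / 1046170276995170769) * R.k2 + (914445380986899859377125141144 / 2546434043740698308341051512865) * s2 + (31671197924878604226287 / 119638289260039403858225) * b1 + (1855610672011403200 / 12576843663503558431) * t1 + c2 + c3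

end Pool.Agent.Strip051.FourC.LA
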