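import Pool.Agent.Strip051.FourC.Box

set_option linter.unusedVariables false

/-! # Outside of the window, boxes -/

namespace Pool.Agent.Strip051.FourC.LA

open Pool.Agent.StripNear Pool.Agent.StripSquare Pool.Agent.Strip051
open Pool.Agent.Strip051.Four.Low (ph)

theorem o2 {s b t k G2 G3 : ℝ} (R : Reg s b t k G2 G3) (hT : t ≤ 284 / 1000 * s) (hb : s - t ≤ b)
    (s1 : 433 / 1000 ≤ s) (s2 : s ≤ 53 / 100)
    (b1 : 3 / 10 ≤ b) (b2 : b ≤ 1 / 2) (t1 : 0 ≤ t) (t2 : t ≤ 377 / 10000) :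
    4 * ph (s - t) - 2 * ph s - 13 / 1000 ≤ G2 + G3 := by
  have e1 := up (t1 := (153 / 1000)) (t2 := (268 / 1000)) (x := b) (by norm_num)
    (by linarith only [b1]) (by linarith only [b2])
  have e2 := R.lo0 (257 / 1000) (by norm_num)
  have e3 := up (t1 := (206 / 1000)) (t2 := (287 / 1000)) (x := s - t) (by norm_num)
    (by linarith only [s1, t2]) (by linarith only [s2, t1])
  have e4 := R.lo2 (323 / 1000) (by norm_num)
  have e5 := up (t1 := (69 / 1000)) (t2 := (86 / 1000)) (x := 8 / 25 * s) (by norm_num)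
    (by linarith only [s1]) (by linarith only [s2])
  have e6 := R.lo6 (15 / 1000) (by norm_num)
  have e7 := R.lo7 (778 / 1000) (by norm_num)
  have e8 := R.lo8 (152 / 1000) (by norm_num)
  have c2 := R.k13 (by linarith only [R.h1, R.h2, e8, e7, e6, e5, e4, e3, e2, e1, R.k1, R.k2, s1, s2, b1, b2, t1, t2])
  have c3 := R.l20 (by linarith only [R.h1, R.h2, e8, e7, e6, e5, e4, e3, e2, e1, R.k1, R.k2, s1, s2, b1, b2, t1, t2]) (by linarith only [R.h1, R.h2, e8, e7, e6, e5, e4, e3, e2, e1, R.k1, R.k2, s1, s2, b1, b2, t1, t2])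
  linarith only [R.h1, R.h2, e8, e7, e6, e5, e4, e3, e2, e1, R.k1, R.k2, s1, s2, b1, b2, t1, t2, c2, c3]

theorem o4 {s b t k G2 G3 : ℝ} (R : Reg s b t k G2 G3) (hT : t ≤ 284 / 1000 * s) (hb : s - t ≤ b)
    (s1 : 433 / 1000 ≤ s) (s2 : s ≤ 53 / 100)
    (b1 : 3 / 10 ≤ b) (b2 : b ≤ 2 / 5) (t1 : 377 / 10000 ≤ t) (t2 : t ≤ 753 / 10000) :
    4 * ph (s - t) - 2 * ph s - 13 / 1000 ≤ G2 + G3 := by
  have e1 := up (t1 := (153 / 1000)) (t2 := (209 / 1000)) (x := b) (by norm_num)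
    (by linarith only [b1]) (by linarith only [b2])
  have e2 := R.lo0 (257 / 1000) (by norm_num)
  have e3 := up (t1 := (184 / 1000)) (t2 := (264 / 1000)) (x := s - t) (by norm_num)
    (by linarith only [s1, t2]) (by linarith only [s2, t1])
  have e4 := R.lo2 (296 / 1000) (by norm_num)
  have e5 := up (t1 := (69 / 1000)) (t2 := (86 / 1000)) (x := 8 / 25 * s) (by norm_num)
    (by linarith only [s1]) (by linarith only [s2])
  have e6 := R.lo6 (20 / 1000) (by norm_num)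
  have e7 := R.lo7 (677 / 1000) (by norm_num)
  have e8 := R.lo8 (147 / 1000) (by norm_num)
  have c2 := R.k13 (by linarith only [R.h1, R.h2, e8, e7, e6, e5, e4, e3, e2, e1, R.k1, R.k2, s1, s2, b1, b2, t1, t2])
  have c3 := R.l20 (by linarith only [R.h1, R.h2, e8, e7, e6, e5, e4, e3, e2, e1, R.k1, R.k2, s1, s2, b1, b2, t1, t2]) (by linarith only [R.h1, R.h2, e8, e7, e6, e5, e4, e3, e2, e1, R.k1, R.k2, s1, s2, b1, b2, t1, t2])
  linarith only [R.h1, R.h2, e8, e7, e6, e5, e4, e3, e2, e1, R.k1, R.k2, s1, s2, b1, b2, t1, t2, c2, c3]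

theorem o6 {s b t k G2 G3 : ℝ} (R : Reg s b t k G2 G3) (hT : t ≤ 284 / 1000 * s) (hb : s - t ≤ b)
    (s1 : 433 / 1000 ≤ s) (s2 : s ≤ 963 / 2000)
    (b1 : 2 / 5 ≤ b) (b2 : b ≤ 1 / 2) (t1 : 377 / 10000 ≤ t) (t2 : t ≤ 753 / 10000) :
    4 * ph (s - t) - 2 * ph s - 13 / 1000 ≤ G2 + G3 := by
  have e1 := up (t1 := (208 / 1000)) (t2 := (268 / 1000)) (x := b) (by norm_num)
    (by linarith only [b1]) (by linarith only [b2])
  have e2 := R.lo0 (242 / 1000) (by norm_num)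
  have e3 := up (t1 := (184 / 1000)) (t2 := (235 / 1000)) (x := s - t) (by norm_num)
    (by linarith only [s1, t2]) (by linarith only [s2, t1])
  have e4 := up (t1 := (69 / 1000)) (t2 := (78 / 1000)) (x := 8 / 25 * s) (by norm_num)
    (by linarith only [s1]) (by linarith only [s2])
  have e5 := R.lo6 (-32 / 1000) (by norm_num)
  have e6 := R.lo7 (702 / 1000) (by norm_num)
  have c2 := R.k13 (by linarith only [R.h1, R.h2, e6, e5, e4, e3, e2, e1, R.k1, R.k2, s1, s2, b1, b2, t1, t2])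
  linarith only [R.h1, R.h2, e6, e5, e4, e3, e2, e1, R.k1, R.k2, s1, s2, b1, b2, t1, t2, c2, R.g3]

theorem o7 {s b t k G2 G3 : ℝ} (R : Reg s b t k G2 G3) (hT : t ≤ 284 / 1000 * s) (hb : s - t ≤ b)
    (s1 : 963 / 2000 ≤ s) (s2 : s ≤ 53 / 100)
    (b1 : 2 / 5 ≤ b) (b2 : b ≤ 1 / 2) (t1 : 377 / 10000 ≤ t) (t2 : t ≤ 753 / 10000) :
    4 * ph (s - t) - 2 * ph s - 13 / 1000 ≤ G2 + G3 := by
  have e1 := up (t1 := (208 / 1000)) (t2 := (268 / 1000)) (x := b) (by norm_num)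
    (by linarith only [b1]) (by linarith only [b2])
  have e2 := R.lo0 (272 / 1000) (by norm_num)
  have e3 := up (t1 := (212 / 1000)) (t2 := (264 / 1000)) (x := s - t) (by norm_num)
    (by linarith only [s1, t2]) (by linarith only [s2, t1])
  have e4 := R.lo2 (320 / 1000) (by norm_num)
  have e5 := up (t1 := (77 / 1000)) (t2 := (86 / 1000)) (x := 8 / 25 * s) (by norm_num)
    (by linarith only [s1]) (by linarith only [s2])
  have e6 := R.lo6 (-16 / 1000) (by norm_num)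
  have e7 := R.lo7 (702 / 1000) (by norm_num)
  have e8 := R.lo8 (195 / 1000) (by norm_num)
  have c2 := R.k13 (by linarith only [R.h1, R.h2, e8, e7, e6, e5, e4, e3, e2, e1, R.k1, R.k2, s1, s2, b1, b2, t1, t2])
  have c3 := R.l20 (by linarith only [R.h1, R.h2, e8, e7, e6, e5, e4, e3, e2, e1, R.k1, R.k2, s1, s2, b1, b2, t1, t2]) (by linarith only [R.h1, R.h2, e8, e7, e6, e5, e4, e3, e2, e1, R.k1, R.k2, s1, s2, b1, b2, t1, t2])
  linarith only [R.h1, R.h2, e8, e7, e6, e5, e4, e3, e2, e1, R.k1, R.k2, s1, s2, b1, b2, t1, t2, c2, c3]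

theorem o9 {s b t k G2 G3 : ℝ} (R : Reg s b t k G2 G3) (hT : t ≤ 284 / 1000 * s) (hb : s - t ≤ b)
    (s1 : 433 / 1000 ≤ s) (s2 : s ≤ 53 / 100)
    (b1 : 3 / 10 ≤ b) (b2 : b ≤ 2 / 5) (t1 : 753 / 10000 ≤ t) (t2 : t ≤ 753 / 5000) :
    4 * ph (s - t) - 2 * ph s - 13 / 1000 ≤ G2 + G3 := by
  have e1 := up (t1 := (153 / 1000)) (t2 := (209 / 1000)) (x := b) (by norm_num)
    (by linarith only [b1]) (by linarith only [b2])
  have e2 := R.lo0 (257 / 1000) (by norm_num)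
  have e3 := up (t1 := (144 / 1000)) (t2 := (241 / 1000)) (x := s - t) (by norm_num)
    (by linarith only [s1, t2]) (by linarith only [s2, t1])
  have e4 := up (t1 := (69 / 1000)) (t2 := (86 / 1000)) (x := 8 / 25 * s) (by norm_num)
    (by linarith only [s1]) (by linarith only [s2])
  have e5 := R.lo6 (-8 / 1000) (by norm_num)
  have e6 := R.lo7 (585 / 1000) (by norm_num)
  have c2 := R.k13 (by linarith only [R.h1, R.h2, e6, e5, e4, e3, e2, e1, R.k1, R.k2, s1, s2, b1, b2, t1, t2])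
  linarith only [R.h1, R.h2, e6, e5, e4, e3, e2, e1, R.k1, R.k2, s1, s2, b1, b2, t1, t2, c2, R.g3]

theorem o12 {s b t k G2 G3 : ℝ} (R : Reg s b t k G2 G3) (hT : t ≤ 284 / 1000 * s) (hb : s - t ≤ b)
    (s1 : 433 / 1000 ≤ s) (s2 : s ≤ 53 / 100)
    (b1 : 2 / 5 ≤ b) (b2 : b ≤ 9 / 20) (t1 : 753 / 10000 ≤ t) (t2 : t ≤ 113 / 1000) :
    4 * ph (s - t) - 2 * ph s - 13 / 1000 ≤ G2 + G3 := by
  have e1 := up (t1 := (208 / 1000)) (t2 := (238 / 1000)) (x := b) (by norm_num)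
    (by linarith only [b1]) (by linarith only [b2])
  have e2 := R.lo0 (257 / 1000) (by norm_num)
  have e3 := up (t1 := (164 / 1000)) (t2 := (241 / 1000)) (x := s - t) (by norm_num)
    (by linarith only [s1, t2]) (by linarith only [s2, t1])
  have e4 := R.lo2 (279 / 1000) (by norm_num)
  have e5 := up (t1 := (69 / 1000)) (t2 := (86 / 1000)) (x := 8 / 25 * s) (by norm_num)
    (by linarith only [s1]) (by linarith only [s2])
  have e6 := R.lo6 (-31 / 1000) (by norm_num)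
  have e7 := R.lo7 (630 / 1000) (by norm_num)
  have e8 := R.lo8 (203 / 1000) (by norm_num)
  have c2 := R.k13 (by linarith only [R.h1, R.h2, e8, e7, e6, e5, e4, e3, e2, e1, R.k1, R.k2, s1, s2, b1, b2, t1, t2])
  have c3 := R.l20 (by linarith only [R.h1, R.h2, e8, e7, e6, e5, e4, e3, e2, e1, R.k1, R.k2, s1, s2, b1, b2, t1, t2]) (by linarith only [R.h1, R.h2, e8, e7, e6, e5, e4, e3, e2, e1, R.k1, R.k2, s1, s2, b1, b2, t1, t2])
  linarith only [R.h1, R.h2, e8, e7, e6, e5, e4, e3, e2, e1, R.k1, R.k2, s1, s2, b1, b2, t1, t2, c2, c3]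

theorem o15 {s b t k G2 G3 : ℝ} (R : Reg s b t k G2 G3) (hT : t ≤ 284 / 1000 * s) (hb : s - t ≤ b)
    (s1 : 433 / 1000 ≤ s) (s2 : s ≤ 4573 / 10000)
    (b1 : 9 / 20 ≤ b) (b2 : b ≤ 1 / 2) (t1 : 753 / 10000 ≤ t) (t2 : t ≤ 113 / 1000) :
    4 * ph (s - t) - 2 * ph s - 13 / 1000 ≤ G2 + G3 := by
  have e1 := up (t1 := (237 / 1000)) (t2 := (268 / 1000)) (x := b) (by norm_num)
    (by linarith only [b1]) (by linarith only [b2])
  have e2 := R.lo0 (235 / 1000) (by norm_num)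
  have e3 := up (t1 := (164 / 1000)) (t2 := (199 / 1000)) (x := s - t) (by norm_num)
    (by linarith only [s1, t2]) (by linarith only [s2, t1])
  have e4 := R.lo7 (635 / 1000) (by norm_num)
  have e5 := R.lo8 (229 / 1000) (by norm_num)
  have c2 := R.k03 (by linarith only [R.h1, R.h2, e5, e4, e3, e2, e1, R.k1, R.k2, s1, s2, b1, b2, t1, t2])
  linarith only [R.h1, R.h2, e5, e4, e3, e2, e1, R.k1, R.k2, s1, s2, b1, b2, t1, t2, c2, R.g3]

theorem o16 {s b t k G2 G3 : ℝ} (R : Reg s b t k G2 G3) (hT : t ≤ 284 / 1000 * s) (hb : s - t ≤ b)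
    (s1 : 4573 / 10000 ≤ s) (s2 : s ≤ 963 / 2000)
    (b1 : 9 / 20 ≤ b) (b2 : b ≤ 1 / 2) (t1 : 753 / 10000 ≤ t) (t2 : t ≤ 113 / 1000) :
    4 * ph (s - t) - 2 * ph s - 13 / 1000 ≤ G2 + G3 := by
  have e1 := up (t1 := (237 / 1000)) (t2 := (268 / 1000)) (x := b) (by norm_num)
    (by linarith only [b1]) (by linarith only [b2])
  have e2 := R.lo0 (249 / 1000) (by norm_num)
  have e3 := up (t1 := (177 / 1000)) (t2 := (213 / 1000)) (x := s - t) (by norm_num)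
    (by linarith only [s1, t2]) (by linarith only [s2, t1])
  have e4 := up (t1 := (73 / 1000)) (t2 := (78 / 1000)) (x := 8 / 25 * s) (by norm_num)
    (by linarith only [s1]) (by linarith only [s2])
  have e5 := R.lo6 (-59 / 1000) (by norm_num)
  have e6 := R.lo7 (635 / 1000) (by norm_num)
  have c2 := R.k13 (by linarith only [R.h1, R.h2, e6, e5, e4, e3, e2, e1, R.k1, R.k2, s1, s2, b1, b2, t1, t2])
  linarith only [R.h1, R.h2, e6, e5, e4, e3, e2, e1, R.k1, R.k2, s1, s2, b1, b2, t1, t2, c2, R.g3]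

theorem o18 {s b t k G2 G3 : ℝ} (R : Reg s b t k G2 G3) (hT : t ≤ 284 / 1000 * s) (hb : s - t ≤ b)
    (s1 : 963 / 2000 ≤ s) (s2 : s ≤ 53 / 100)
    (b1 : 9 / 20 ≤ b) (b2 : b ≤ 19 / 40) (t1 : 753 / 10000 ≤ t) (t2 : t ≤ 113 / 1000) :
    4 * ph (s - t) - 2 * ph s - 13 / 1000 ≤ G2 + G3 := by
  have e1 := up (t1 := (237 / 1000)) (t2 := (253 / 1000)) (x := b) (by norm_num)
    (by linarith only [b1]) (by linarith only [b2])
  have e2 := R.lo0 (272 / 1000) (by norm_num)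
  have e3 := up (t1 := (190 / 1000)) (t2 := (241 / 1000)) (x := s - t) (by norm_num)
    (by linarith only [s1, t2]) (by linarith only [s2, t1])
  have e4 := R.lo2 (296 / 1000) (by norm_num)
  have e5 := up (t1 := (77 / 1000)) (t2 := (86 / 1000)) (x := 8 / 25 * s) (by norm_num)
    (by linarith only [s1]) (by linarith only [s2])
  have e6 := R.lo6 (-40 / 1000) (by norm_num)
  have e7 := R.lo7 (635 / 1000) (by norm_num)
  have e8 := R.lo8 (222 / 1000) (by norm_num)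
  have c2 := R.k13 (by linarith only [R.h1, R.h2, e8, e7, e6, e5, e4, e3, e2, e1, R.k1, R.k2, s1, s2, b1, b2, t1, t2])
  have c3 := R.l20 (by linarith only [R.h1, R.h2, e8, e7, e6, e5, e4, e3, e2, e1, R.k1, R.k2, s1, s2, b1, b2, t1, t2]) (by linarith only [R.h1, R.h2, e8, e7, e6, e5, e4, e3, e2, e1, R.k1, R.k2, s1, s2, b1, b2, t1, t2])
  linarith only [R.h1, R.h2, e8, e7, e6, e5, e4, e3, e2, e1, R.k1, R.k2, s1, s2, b1, b2, t1, t2, c2, c3]

theorem o20 {s b t k G2 G3 : ℝ} (R : Reg s b t k G2 G3) (hT : t ≤ 284 / 1000 * s) (hb : s - t ≤ b)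
    (s1 : 963 / 2000 ≤ s) (s2 : s ≤ 53 / 100)
    (b1 : 19 / 40 ≤ b) (b2 : b ≤ 1 / 2) (t1 : 753 / 10000 ≤ t) (t2 : t ≤ 471 / 5000) :
    4 * ph (s - t) - 2 * ph s - 13 / 1000 ≤ G2 + G3 := by
  have e1 := up (t1 := (252 / 1000)) (t2 := (268 / 1000)) (x := b) (by norm_num)
    (by linarith only [b1]) (by linarith only [b2])
  have e2 := R.lo0 (272 / 1000) (by norm_num)
  have e3 := up (t1 := (201 / 1000)) (t2 := (241 / 1000)) (x := s - t) (by norm_num)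
    (by linarith only [s1, t2]) (by linarith only [s2, t1])
  have e4 := R.lo2 (303 / 1000) (by norm_num)
  have e5 := up (t1 := (77 / 1000)) (t2 := (86 / 1000)) (x := 8 / 25 * s) (by norm_num)
    (by linarith only [s1]) (by linarith only [s2])
  have e6 := R.lo6 (-47 / 1000) (by norm_num)
  have e7 := R.lo7 (652 / 1000) (by norm_num)
  have e8 := R.lo8 (231 / 1000) (by norm_num)
  have c2 := R.k13 (by linarith only [R.h1, R.h2, e8, e7, e6, e5, e4, e3, e2, e1, R.k1, R.k2, s1, s2, b1, b2, t1, t2])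
  have c3 := R.l20 (by linarith only [R.h1, R.h2, e8, e7, e6, e5, e4, e3, e2, e1, R.k1, R.k2, s1, s2, b1, b2, t1, t2]) (by linarith only [R.h1, R.h2, e8, e7, e6, e5, e4, e3, e2, e1, R.k1, R.k2, s1, s2, b1, b2, t1, t2])
  linarith only [R.h1, R.h2, e8, e7, e6, e5, e4, e3, e2, e1, R.k1, R.k2, s1, s2, b1, b2, t1, t2, c2, c3]

theorem o22 {s b t k G2 G3 : ℝ} (R : Reg s b t k G2 G3) (hT : t ≤ 284 / 1000 * s) (hb : s - t ≤ b)
    (s1 : 963 / 2000 ≤ s) (s2 : s ≤ 53 / 100)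
    (b1 : 19 / 40 ≤ b) (b2 : b ≤ 39 / 80) (t1 : 471 / 5000 ≤ t) (t2 : t ≤ 113 / 1000) :
    4 * ph (s - t) - 2 * ph s - 13 / 1000 ≤ G2 + G3 := by
  have e1 := up (t1 := (252 / 1000)) (t2 := (261 / 1000)) (x := b) (by norm_num)
    (by linarith only [b1]) (by linarith only [b2])
  have e2 := R.lo0 (272 / 1000) (by norm_num)
  have e3 := up (t1 := (190 / 1000)) (t2 := (230 / 1000)) (x := s - t) (by norm_num)
    (by linarith only [s1, t2]) (by linarith only [s2, t1])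
  have e4 := R.lo2 (291 / 1000) (by norm_num)
  have e5 := up (t1 := (77 / 1000)) (t2 := (86 / 1000)) (x := 8 / 25 * s) (by norm_num)
    (by linarith only [s1]) (by linarith only [s2])
  have e6 := R.lo6 (-54 / 1000) (by norm_num)
  have e7 := R.lo7 (621 / 1000) (by norm_num)
  have e8 := R.lo8 (238 / 1000) (by norm_num)
  have c2 := R.k13 (by linarith only [R.h1, R.h2, e8, e7, e6, e5, e4, e3, e2, e1, R.k1, R.k2, s1, s2, b1, b2, t1, t2])
  have c3 := R.l20 (by linarith only [R.h1, R.h2, e8, e7, e6, e5, e4, e3, e2, e1, R.k1, R.k2, s1, s2, b1, b2, t1, t2]) (by linarith only [R.h1, R.h2, e8, e7, e6, e5, e4, e3, e2, e1, R.k1, R.k2, s1, s2, b1, b2, t1, t2])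
  linarith only [R.h1, R.h2, e8, e7, e6, e5, e4, e3, e2, e1, R.k1, R.k2, s1, s2, b1, b2, t1, t2, c2, c3]

theorem o24 {s b t k G2 G3 : ℝ} (R : Reg s b t k G2 G3) (hT : t ≤ 284 / 1000 * s) (hb : s - t ≤ b)
    (s1 : 963 / 2000 ≤ s) (s2 : s ≤ 2529 / 5000)
    (b1 : 39 / 80 ≤ b) (b2 : b ≤ 1 / 2) (t1 : 471 / 5000 ≤ t) (t2 : t ≤ 113 / 1000) :
    4 * ph (s - t) - 2 * ph s - 13 / 1000 ≤ G2 + G3 := by
  have e1 := up (t1 := (260 / 1000)) (t2 := (268 / 1000)) (x := b) (by norm_num)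
    (by linarith only [b1]) (by linarith only [b2])
  have e2 := R.lo0 (264 / 1000) (by norm_num)
  have e3 := up (t1 := (190 / 1000)) (t2 := (216 / 1000)) (x := s - t) (by norm_num)
    (by linarith only [s1, t2]) (by linarith only [s2, t1])
  have e4 := R.lo2 (283 / 1000) (by norm_num)
  have e5 := up (t1 := (77 / 1000)) (t2 := (82 / 1000)) (x := 8 / 25 * s) (by norm_num)
    (by linarith only [s1]) (by linarith only [s2])
  have e6 := R.lo6 (-64 / 1000) (by norm_num)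
  have e7 := R.lo7 (621 / 1000) (by norm_num)
  have e8 := R.lo8 (246 / 1000) (by norm_num)
  have c2 := R.k13 (by linarith only [R.h1, R.h2, e8, e7, e6, e5, e4, e3, e2, e1, R.k1, R.k2, s1, s2, b1, b2, t1, t2])
  have c3 := R.l20 (by linarith only [R.h1, R.h2, e8, e7, e6, e5, e4, e3, e2, e1, R.k1, R.k2, s1, s2, b1, b2, t1, t2]) (by linarith only [R.h1, R.h2, e8, e7, e6, e5, e4, e3, e2, e1, R.k1, R.k2, s1, s2, b1, b2, t1, t2])
  linarith only [R.h1, R.h2, e8, e7, e6, e5, e4, e3, e2, e1, R.k1, R.k2, s1, s2, b1, b2, t1, t2, c2, c3]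

theorem o25 {s b t k G2 G3 : ℝ} (R : Reg s b t k G2 G3) (hT : t ≤ 284 / 1000 * s) (hb : s - t ≤ b)
    (s1 : 2529 / 5000 ≤ s) (s2 : s ≤ 53 / 100)
    (b1 : 39 / 80 ≤ b) (b2 : b ≤ 1 / 2) (t1 : 471 / 5000 ≤ t) (t2 : t ≤ 113 / 1000) :
    4 * ph (s - t) - 2 * ph s - 13 / 1000 ≤ G2 + G3 := by
  have e1 := up (t1 := (260 / 1000)) (t2 := (268 / 1000)) (x := b) (by norm_num)
    (by linarith only [b1]) (by linarith only [b2])
  have e2 := R.lo0 (279 / 1000) (by norm_num)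
  have e3 := up (t1 := (204 / 1000)) (t2 := (230 / 1000)) (x := s - t) (by norm_num)
    (by linarith only [s1, t2]) (by linarith only [s2, t1])
  have e4 := R.lo2 (299 / 1000) (by norm_num)
  have e5 := up (t1 := (81 / 1000)) (t2 := (86 / 1000)) (x := 8 / 25 * s) (by norm_num)
    (by linarith only [s1]) (by linarith only [s2])
  have e6 := R.lo6 (-56 / 1000) (by norm_num)
  have e7 := R.lo7 (621 / 1000) (by norm_num)
  have e8 := R.lo8 (246 / 1000) (by norm_num)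
  have c2 := R.k13 (by linarith only [R.h1, R.h2, e8, e7, e6, e5, e4, e3, e2, e1, R.k1, R.k2, s1, s2, b1, b2, t1, t2])
  have c3 := R.l20 (by linarith only [R.h1, R.h2, e8, e7, e6, e5, e4, e3, e2, e1, R.k1, R.k2, s1, s2, b1, b2, t1, t2]) (by linarith only [R.h1, R.h2, e8, e7, e6, e5, e4, e3, e2, e1, R.k1, R.k2, s1, s2, b1, b2, t1, t2])
  linarith only [R.h1, R.h2, e8, e7, e6, e5, e4, e3, e2, e1, R.k1, R.k2, s1, s2, b1, b2, t1, t2, c2, c3]

theorem o27 {s b t k G2 G3 : ℝ} (R : Reg s b t k G2 G3) (hT : t ≤ 284 / 1000 * s) (hb : s - t ≤ b)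
    (s1 : 433 / 1000 ≤ s) (s2 : s ≤ 53 / 100)
    (b1 : 2 / 5 ≤ b) (b2 : b ≤ 9 / 20) (t1 : 113 / 1000 ≤ t) (t2 : t ≤ 753 / 5000) :
    4 * ph (s - t) - 2 * ph s - 13 / 1000 ≤ G2 + G3 := by
  have e1 := up (t1 := (208 / 1000)) (t2 := (238 / 1000)) (x := b) (by norm_num)
    (by linarith only [b1]) (by linarith only [b2])
  have e2 := R.lo0 (257 / 1000) (by norm_num)
  have e3 := up (t1 := (144 / 1000)) (t2 := (219 / 1000)) (x := s - t) (by norm_num)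
    (by linarith only [s1, t2]) (by linarith only [s2, t1])
  have e4 := up (t1 := (69 / 1000)) (t2 := (86 / 1000)) (x := 8 / 25 * s) (by norm_num)
    (by linarith only [s1]) (by linarith only [s2])
  have e5 := R.lo6 (-50 / 1000) (by norm_num)
  have e6 := R.lo7 (575 / 1000) (by norm_num)
  have c2 := R.k13 (by linarith only [R.h1, R.h2, e6, e5, e4, e3, e2, e1, R.k1, R.k2, s1, s2, b1, b2, t1, t2])
  linarith only [R.h1, R.h2, e6, e5, e4, e3, e2, e1, R.k1, R.k2, s1, s2, b1, b2, t1, t2, c2, R.g3]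

theorem o30 {s b t k G2 G3 : ℝ} (R : Reg s b t k G2 G3) (hT : t ≤ 284 / 1000 * s) (hb : s - t ≤ b)
    (s1 : 433 / 1000 ≤ s) (s2 : s ≤ 963 / 2000)
    (b1 : 9 / 20 ≤ b) (b2 : b ≤ 1 / 2) (t1 : 113 / 1000 ≤ t) (t2 : t ≤ 659 / 5000) :
    4 * ph (s - t) - 2 * ph s - 13 / 1000 ≤ G2 + G3 := by
  have e1 := up (t1 := (237 / 1000)) (t2 := (268 / 1000)) (x := b) (by norm_num)
    (by linarith only [b1]) (by linarith only [b2])
  have e2 := R.lo0 (242 / 1000) (by norm_num)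
  have e3 := up (t1 := (154 / 1000)) (t2 := (191 / 1000)) (x := s - t) (by norm_num)
    (by linarith only [s1, t2]) (by linarith only [s2, t1])
  have e4 := R.lo7 (592 / 1000) (by norm_num)
  have e5 := R.lo8 (246 / 1000) (by norm_num)
  have c2 := R.k03 (by linarith only [R.h1, R.h2, e5, e4, e3, e2, e1, R.k1, R.k2, s1, s2, b1, b2, t1, t2])
  linarith only [R.h1, R.h2, e5, e4, e3, e2, e1, R.k1, R.k2, s1, s2, b1, b2, t1, t2, c2, R.g3]

theorem o31 {s b t k G2 G3 : ℝ} (R : Reg s b t k G2 G3) (hT : t ≤ 284 / 1000 * s) (hb : s - t ≤ b)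
    (s1 : 433 / 1000 ≤ s) (s2 : s ≤ 963 / 2000)
    (b1 : 9 / 20 ≤ b) (b2 : b ≤ 1 / 2) (t1 : 659 / 5000 ≤ t) (t2 : t ≤ 753 / 5000) :
    4 * ph (s - t) - 2 * ph s - 13 / 1000 ≤ G2 + G3 := by
  have e1 := R.lo0 (242 / 1000) (by norm_num)
  have e2 := up (t1 := (144 / 1000)) (t2 := (181 / 1000)) (x := s - t) (by norm_num)
    (by linarith only [s1, t2]) (by linarith only [s2, t1])
  linarith only [e2, e1, R.k1, R.k2, s1, s2, b1, b2, t1, t2, R.g2, R.g3]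

theorem o33 {s b t k G2 G3 : ℝ} (R : Reg s b t k G2 G3) (hT : t ≤ 284 / 1000 * s) (hb : s - t ≤ b)
    (s1 : 963 / 2000 ≤ s) (s2 : s ≤ 53 / 100)
    (b1 : 9 / 20 ≤ b) (b2 : b ≤ 19 / 40) (t1 : 113 / 1000 ≤ t) (t2 : t ≤ 753 / 5000) :
    4 * ph (s - t) - 2 * ph s - 13 / 1000 ≤ G2 + G3 := by
  have e1 := up (t1 := (237 / 1000)) (t2 := (253 / 1000)) (x := b) (by norm_num)
    (by linarith only [b1]) (by linarith only [b2])
  have e2 := R.lo0 (272 / 1000) (by norm_num)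
  have e3 := up (t1 := (170 / 1000)) (t2 := (219 / 1000)) (x := s - t) (by norm_num)
    (by linarith only [s1, t2]) (by linarith only [s2, t1])
  have e4 := up (t1 := (77 / 1000)) (t2 := (86 / 1000)) (x := 8 / 25 * s) (by norm_num)
    (by linarith only [s1]) (by linarith only [s2])
  have e5 := R.lo6 (-59 / 1000) (by norm_num)
  have e6 := R.lo7 (579 / 1000) (by norm_num)
  have c2 := R.k13 (by linarith only [R.h1, R.h2, e6, e5, e4, e3, e2, e1, R.k1, R.k2, s1, s2, b1, b2, t1, t2])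
  linarith only [R.h1, R.h2, e6, e5, e4, e3, e2, e1, R.k1, R.k2, s1, s2, b1, b2, t1, t2, c2, R.g3]

theorem o35 {s b t k G2 G3 : ℝ} (R : Reg s b t k G2 G3) (hT : t ≤ 284 / 1000 * s) (hb : s - t ≤ b)
    (s1 : 963 / 2000 ≤ s) (s2 : s ≤ 53 / 100)
    (b1 : 19 / 40 ≤ b) (b2 : b ≤ 39 / 80) (t1 : 113 / 1000 ≤ t) (t2 : t ≤ 753 / 5000) :
    4 * ph (s - t) - 2 * ph s - 13 / 1000 ≤ G2 + G3 := by
  have e1 := up (t1 := (252 / 1000)) (t2 := (261 / 1000)) (x := b) (by norm_num)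
    (by linarith only [b1]) (by linarith only [b2])
  have e2 := R.lo0 (272 / 1000) (by norm_num)
  have e3 := up (t1 := (170 / 1000)) (t2 := (219 / 1000)) (x := s - t) (by norm_num)
    (by linarith only [s1, t2]) (by linarith only [s2, t1])
  have e4 := up (t1 := (77 / 1000)) (t2 := (86 / 1000)) (x := 8 / 25 * s) (by norm_num)
    (by linarith only [s1]) (by linarith only [s2])
  have e5 := R.lo6 (-68 / 1000) (by norm_num)
  have e6 := R.lo7 (580 / 1000) (by norm_num)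
  have c2 := R.k13 (by linarith only [R.h1, R.h2, e6, e5, e4, e3, e2, e1, R.k1, R.k2, s1, s2, b1, b2, t1, t2])
  linarith only [R.h1, R.h2, e6, e5, e4, e3, e2, e1, R.k1, R.k2, s1, s2, b1, b2, t1, t2, c2, R.g3]

theorem o37 {s b t k G2 G3 : ℝ} (R : Reg s b t k G2 G3) (hT : t ≤ 284 / 1000 * s) (hb : s - t ≤ b)
    (s1 : 963 / 2000 ≤ s) (s2 : s ≤ 2529 / 5000)
    (b1 : 39 / 80 ≤ b) (b2 : b ≤ 1 / 2) (t1 : 113 / 1000 ≤ t) (t2 : t ≤ 753 / 5000) :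
    4 * ph (s - t) - 2 * ph s - 13 / 1000 ≤ G2 + G3 := by
  have e1 := up (t1 := (260 / 1000)) (t2 := (268 / 1000)) (x := b) (by norm_num)
    (by linarith only [b1]) (by linarith only [b2])
  have e2 := R.lo0 (264 / 1000) (by norm_num)
  have e3 := up (t1 := (170 / 1000)) (t2 := (205 / 1000)) (x := s - t) (by norm_num)
    (by linarith only [s1, t2]) (by linarith only [s2, t1])
  have e4 := up (t1 := (77 / 1000)) (t2 := (82 / 1000)) (x := 8 / 25 * s) (by norm_num)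
    (by linarith only [s1]) (by linarith only [s2])
  have e5 := R.lo6 (-78 / 1000) (by norm_num)
  have e6 := R.lo7 (580 / 1000) (by norm_num)
  have c2 := R.k13 (by linarith only [R.h1, R.h2, e6, e5, e4, e3, e2, e1, R.k1, R.k2, s1, s2, b1, b2, t1, t2])
  linarith only [R.h1, R.h2, e6, e5, e4, e3, e2, e1, R.k1, R.k2, s1, s2, b1, b2, t1, t2, c2, R.g3]

theorem o39 {s b t k G2 G3 : ℝ} (R : Reg s b t k G2 G3) (hT : t ≤ 284 / 1000 * s) (hb : s - t ≤ b)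
    (s1 : 2529 / 5000 ≤ s) (s2 : s ≤ 53 / 100)
    (b1 : 39 / 80 ≤ b) (b2 : b ≤ 1 / 2) (t1 : 113 / 1000 ≤ t) (t2 : t ≤ 659 / 5000) :
    4 * ph (s - t) - 2 * ph s - 13 / 1000 ≤ G2 + G3 := by
  have e1 := up (t1 := (260 / 1000)) (t2 := (268 / 1000)) (x := b) (by norm_num)
    (by linarith only [b1]) (by linarith only [b2])
  have e2 := R.lo0 (279 / 1000) (by norm_num)
  have e3 := up (t1 := (194 / 1000)) (t2 := (219 / 1000)) (x := s - t) (by norm_num)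
    (by linarith only [s1, t2]) (by linarith only [s2, t1])
  have e4 := R.lo2 (286 / 1000) (by norm_num)
  have e5 := up (t1 := (81 / 1000)) (t2 := (86 / 1000)) (x := 8 / 25 * s) (by norm_num)
    (by linarith only [s1]) (by linarith only [s2])
  have e6 := R.lo6 (-65 / 1000) (by norm_num)
  have e7 := R.lo7 (593 / 1000) (by norm_num)
  have e8 := R.lo8 (257 / 1000) (by norm_num)
  have c2 := R.k13 (by linarith only [R.h1, R.h2, e8, e7, e6, e5, e4, e3, e2, e1, R.k1, R.k2, s1, s2, b1, b2, t1, t2])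
  have c3 := R.l20 (by linarith only [R.h1, R.h2, e8, e7, e6, e5, e4, e3, e2, e1, R.k1, R.k2, s1, s2, b1, b2, t1, t2]) (by linarith only [R.h1, R.h2, e8, e7, e6, e5, e4, e3, e2, e1, R.k1, R.k2, s1, s2, b1, b2, t1, t2])
  linarith only [R.h1, R.h2, e8, e7, e6, e5, e4, e3, e2, e1, R.k1, R.k2, s1, s2, b1, b2, t1, t2, c2, c3]

theorem o40 {s b t k G2 G3 : ℝ} (R : Reg s b t k G2 G3) (hT : t ≤ 284 / 1000 * s) (hb : s - t ≤ b)
    (s1 : 2529 / 5000 ≤ s) (s2 : s ≤ 53 / 100)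
    (b1 : 39 / 80 ≤ b) (b2 : b ≤ 1 / 2) (t1 : 659 / 5000 ≤ t) (t2 : t ≤ 753 / 5000) :
    4 * ph (s - t) - 2 * ph s - 13 / 1000 ≤ G2 + G3 := by
  have e1 := up (t1 := (260 / 1000)) (t2 := (268 / 1000)) (x := b) (by norm_num)
    (by linarith only [b1]) (by linarith only [b2])
  have e2 := R.lo0 (279 / 1000) (by norm_num)
  have e3 := up (t1 := (183 / 1000)) (t2 := (208 / 1000)) (x := s - t) (by norm_num)
    (by linarith only [s1, t2]) (by linarith only [s2, t1])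
  have e4 := up (t1 := (81 / 1000)) (t2 := (86 / 1000)) (x := 8 / 25 * s) (by norm_num)
    (by linarith only [s1]) (by linarith only [s2])
  have e5 := R.lo6 (-75 / 1000) (by norm_num)
  have e6 := R.lo7 (568 / 1000) (by norm_num)
  have c2 := R.k13 (by linarith only [R.h1, R.h2, e6, e5, e4, e3, e2, e1, R.k1, R.k2, s1, s2, b1, b2, t1, t2])
  linarith only [R.h1, R.h2, e6, e5, e4, e3, e2, e1, R.k1, R.k2, s1, s2, b1, b2, t1, t2, c2, R.g3]

theorem o38 {s b t k G2 G3 : ℝ} (R : Reg s b t k G2 G3) (hT : t ≤ 284 / 1000 * s) (hb : s - t ≤ b)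
    (s1 : 2529 / 5000 ≤ s) (s2 : s ≤ 53 / 100)
    (b1 : 39 / 80 ≤ b) (b2 : b ≤ 1 / 2) (t1 : 113 / 1000 ≤ t) (t2 : t ≤ 753 / 5000) :
    4 * ph (s - t) - 2 * ph s - 13 / 1000 ≤ G2 + G3 := by
  rcases le_total t (659 / 5000) with h | h
  · exact o39 R hT hb s1 s2 b1 b2 t1 h
  · exact o40 R hT hb s1 s2 b1 b2 h t2

theorem o36 {s b t k G2 G3 : ℝ} (R : Reg s b t k G2 G3) (hT : t ≤ 284 / 1000 * s) (hb : s - t ≤ b)
    (s1 : 963 / 2000 ≤ s) (s2 : s ≤ 53 / 100)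
    (b1 : 39 / 80 ≤ b) (b2 : b ≤ 1 / 2) (t1 : 113 / 1000 ≤ t) (t2 : t ≤ 753 / 5000) :
    4 * ph (s - t) - 2 * ph s - 13 / 1000 ≤ G2 + G3 := by
  rcases le_total s (2529 / 5000) with h | h
  · exact o37 R hT hb s1 h b1 b2 t1 t2
  · exact o38 R hT hb h s2 b1 b2 t1 t2

theorem o34 {s b t k G2 G3 : ℝ} (R : Reg s b t k G2 G3) (hT : t ≤ 284 / 1000 * s) (hb : s - t ≤ b)
    (s1 : 963 / 2000 ≤ s) (s2 : s ≤ 53 / 100)
    (b1 : 19 / 40 ≤ b) (b2 : b ≤ 1 / 2) (t1 : 113 / 1000 ≤ t) (t2 : t ≤ 753 / 5000) :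
    4 * ph (s - t) - 2 * ph s - 13 / 1000 ≤ G2 + G3 := by
  rcases le_total b (39 / 80) with h | h
  · exact o35 R hT hb s1 s2 b1 h t1 t2
  · exact o36 R hT hb s1 s2 h b2 t1 t2

theorem o32 {s b t k G2 G3 : ℝ} (R : Reg s b t k G2 G3) (hT : t ≤ 284 / 1000 * s) (hb : s - t ≤ b)
    (s1 : 963 / 2000 ≤ s) (s2 : s ≤ 53 / 100)
    (b1 : 9 / 20 ≤ b) (b2 : b ≤ 1 / 2) (t1 : 113 / 1000 ≤ t) (t2 : t ≤ 753 / 5000) :
    4 * ph (s - t) - 2 * ph s - 13 / 1000 ≤ G2 + G3 := by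
  rcases le_total b (19 / 40) with h | h
  · exact o33 R hT hb s1 s2 b1 h t1 t2
  · exact o34 R hT hb s1 s2 h b2 t1 t2

theorem o29 {s b t k G2 G3 : ℝ} (R : Reg s b t k G2 G3) (hT : t ≤ 284 / 1000 * s) (hb : s - t ≤ b)
    (s1 : 433 / 1000 ≤ s) (s2 : s ≤ 963 / 2000)
    (b1 : 9 / 20 ≤ b) (b2 : b ≤ 1 / 2) (t1 : 113 / 1000 ≤ t) (t2 : t ≤ 753 / 5000) :
    4 * ph (s - t) - 2 * ph s - 13 / 1000 ≤ G2 + G3 := by
  rcases le_total t (659 / 5000) with h | h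
  · exact o30 R hT hb s1 s2 b1 b2 t1 h
  · exact o31 R hT hb s1 s2 b1 b2 h t2

theorem o28 {s b t k G2 G3 : ℝ} (R : Reg s b t k G2 G3) (hT : t ≤ 284 / 1000 * s) (hb : s - t ≤ b)
    (s1 : 433 / 1000 ≤ s) (s2 : s ≤ 53 / 100)
    (b1 : 9 / 20 ≤ b) (b2 : b ≤ 1 / 2) (t1 : 113 / 1000 ≤ t) (t2 : t ≤ 753 / 5000) :
    4 * ph (s - t) - 2 * ph s - 13 / 1000 ≤ G2 + G3 := by
  rcases le_total s (963 / 2000) with h | h
  · exact o29 R hT hb s1 h b1 b2 t1 t2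
  · exact o32 R hT hb h s2 b1 b2 t1 t2

theorem o26 {s b t k G2 G3 : ℝ} (R : Reg s b t k G2 G3) (hT : t ≤ 284 / 1000 * s) (hb : s - t ≤ b)
    (s1 : 433 / 1000 ≤ s) (s2 : s ≤ 53 / 100)
    (b1 : 2 / 5 ≤ b) (b2 : b ≤ 1 / 2) (t1 : 113 / 1000 ≤ t) (t2 : t ≤ 753 / 5000) :
    4 * ph (s - t) - 2 * ph s - 13 / 1000 ≤ G2 + G3 := by
  rcases le_total b (9 / 20) with h | h
  · exact o27 R hT hb s1 s2 b1 h t1 t2
  · exact o28 R hT hb s1 s2 h b2 t1 t2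

theorem o23 {s b t k G2 G3 : ℝ} (R : Reg s b t k G2 G3) (hT : t ≤ 284 / 1000 * s) (hb : s - t ≤ b)
    (s1 : 963 / 2000 ≤ s) (s2 : s ≤ 53 / 100)
    (b1 : 39 / 80 ≤ b) (b2 : b ≤ 1 / 2) (t1 : 471 / 5000 ≤ t) (t2 : t ≤ 113 / 1000) :
    4 * ph (s - t) - 2 * ph s - 13 / 1000 ≤ G2 + G3 := by
  rcases le_total s (2529 / 5000) with h | h
  · exact o24 R hT hb s1 h b1 b2 t1 t2
  · exact o25 R hT hb h s2 b1 b2 t1 t2

theorem o21 {s b t k G2 G3 : ℝ} (R : Reg s b t k G2 G3) (hT : t ≤ 284 / 1000 * s) (hb : s - t ≤ b)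
    (s1 : 963 / 2000 ≤ s) (s2 : s ≤ 53 / 100)
    (b1 : 19 / 40 ≤ b) (b2 : b ≤ 1 / 2) (t1 : 471 / 5000 ≤ t) (t2 : t ≤ 113 / 1000) :
    4 * ph (s - t) - 2 * ph s - 13 / 1000 ≤ G2 + G3 := by
  rcases le_total b (39 / 80) with h | h
  · exact o22 R hT hb s1 s2 b1 h t1 t2
  · exact o23 R hT hb s1 s2 h b2 t1 t2

theorem o19 {s b t k G2 G3 : ℝ} (R : Reg s b t k G2 G3) (hT : t ≤ 284 / 1000 * s) (hb : s - t ≤ b)
    (s1 : 963 / 2000 ≤ s) (s2 : s ≤ 53 / 100)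
    (b1 : 19 / 40 ≤ b) (b2 : b ≤ 1 / 2) (t1 : 753 / 10000 ≤ t) (t2 : t ≤ 113 / 1000) :
    4 * ph (s - t) - 2 * ph s - 13 / 1000 ≤ G2 + G3 := by
  rcases le_total t (471 / 5000) with h | h
  · exact o20 R hT hb s1 s2 b1 b2 t1 h
  · exact o21 R hT hb s1 s2 b1 b2 h t2

theorem o17 {s b t k G2 G3 : ℝ} (R : Reg s b t k G2 G3) (hT : t ≤ 284 / 1000 * s) (hb : s - t ≤ b)
    (s1 : 963 / 2000 ≤ s) (s2 : s ≤ 53 / 100)
    (b1 : 9 / 20 ≤ b) (b2 : b ≤ 1 / 2) (t1 : 753 / 10000 ≤ t) (t2 : t ≤ 113 / 1000) :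
    4 * ph (s - t) - 2 * ph s - 13 / 1000 ≤ G2 + G3 := by
  rcases le_total b (19 / 40) with h | h
  · exact o18 R hT hb s1 s2 b1 h t1 t2
  · exact o19 R hT hb s1 s2 h b2 t1 t2

theorem o14 {s b t k G2 G3 : ℝ} (R : Reg s b t k G2 G3) (hT : t ≤ 284 / 1000 * s) (hb : s - t ≤ b)
    (s1 : 433 / 1000 ≤ s) (s2 : s ≤ 963 / 2000)
    (b1 : 9 / 20 ≤ b) (b2 : b ≤ 1 / 2) (t1 : 753 / 10000 ≤ t) (t2 : t ≤ 113 / 1000) :
    4 * ph (s - t) - 2 * ph s - 13 / 1000 ≤ G2 + G3 := by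
  rcases le_total s (4573 / 10000) with h | h
  · exact o15 R hT hb s1 h b1 b2 t1 t2
  · exact o16 R hT hb h s2 b1 b2 t1 t2

theorem o13 {s b t k G2 G3 : ℝ} (R : Reg s b t k G2 G3) (hT : t ≤ 284 / 1000 * s) (hb : s - t ≤ b)
    (s1 : 433 / 1000 ≤ s) (s2 : s ≤ 53 / 100)
    (b1 : 9 / 20 ≤ b) (b2 : b ≤ 1 / 2) (t1 : 753 / 10000 ≤ t) (t2 : t ≤ 113 / 1000) :
    4 * ph (s - t) - 2 * ph s - 13 / 1000 ≤ G2 + G3 := by
  rcases le_total s (963 / 2000) with h | h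
  · exact o14 R hT hb s1 h b1 b2 t1 t2
  · exact o17 R hT hb h s2 b1 b2 t1 t2

theorem o11 {s b t k G2 G3 : ℝ} (R : Reg s b t k G2 G3) (hT : t ≤ 284 / 1000 * s) (hb : s - t ≤ b)
    (s1 : 433 / 1000 ≤ s) (s2 : s ≤ 53 / 100)
    (b1 : 2 / 5 ≤ b) (b2 : b ≤ 1 / 2) (t1 : 753 / 10000 ≤ t) (t2 : t ≤ 113 / 1000) :
    4 * ph (s - t) - 2 * ph s - 13 / 1000 ≤ G2 + G3 := by
  rcases le_total b (9 / 20) with h | h
  · exact o12 R hT hb s1 s2 b1 h t1 t2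
  · exact o13 R hT hb s1 s2 h b2 t1 t2

theorem o10 {s b t k G2 G3 : ℝ} (R : Reg s b t k G2 G3) (hT : t ≤ 284 / 1000 * s) (hb : s - t ≤ b)
    (s1 : 433 / 1000 ≤ s) (s2 : s ≤ 53 / 100)
    (b1 : 2 / 5 ≤ b) (b2 : b ≤ 1 / 2) (t1 : 753 / 10000 ≤ t) (t2 : t ≤ 753 / 5000) :
    4 * ph (s - t) - 2 * ph s - 13 / 1000 ≤ G2 + G3 := by
  rcases le_total t (113 / 1000) with h | h
  · exact o11 R hT hb s1 s2 b1 b2 t1 h
  · exact o26 R hT hb s1 s2 b1 b2 h t2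

theorem o8 {s b t k G2 G3 : ℝ} (R : Reg s b t k G2 G3) (hT : t ≤ 284 / 1000 * s) (hb : s - t ≤ b)
    (s1 : 433 / 1000 ≤ s) (s2 : s ≤ 53 / 100)
    (b1 : 3 / 10 ≤ b) (b2 : b ≤ 1 / 2) (t1 : 753 / 10000 ≤ t) (t2 : t ≤ 753 / 5000) :
    4 * ph (s - t) - 2 * ph s - 13 / 1000 ≤ G2 + G3 := by
  rcases le_total b (2 / 5) with h | h
  · exact o9 R hT hb s1 s2 b1 h t1 t2
  · exact o10 R hT hb s1 s2 h b2 t1 t2

theorem o5 {s b t k G2 G3 : ℝ} (R : Reg s b t k G2 G3) (hT : t ≤ 284 / 1000 * s) (hb : s - t ≤ b)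
    (s1 : 433 / 1000 ≤ s) (s2 : s ≤ 53 / 100)
    (b1 : 2 / 5 ≤ b) (b2 : b ≤ 1 / 2) (t1 : 377 / 10000 ≤ t) (t2 : t ≤ 753 / 10000) :
    4 * ph (s - t) - 2 * ph s - 13 / 1000 ≤ G2 + G3 := by
  rcases le_total s (963 / 2000) with h | h
  · exact o6 R hT hb s1 h b1 b2 t1 t2
  · exact o7 R hT hb h s2 b1 b2 t1 t2

theorem o3 {s b t k G2 G3 : ℝ} (R : Reg s b t k G2 G3) (hT : t ≤ 284 / 1000 * s) (hb : s - t ≤ b)
    (s1 : 433 / 1000 ≤ s) (s2 : s ≤ 53 / 100)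
    (b1 : 3 / 10 ≤ b) (b2 : b ≤ 1 / 2) (t1 : 377 / 10000 ≤ t) (t2 : t ≤ 753 / 10000) :
    4 * ph (s - t) - 2 * ph s - 13 / 1000 ≤ G2 + G3 := by
  rcases le_total b (2 / 5) with h | h
  · exact o4 R hT hb s1 s2 b1 h t1 t2
  · exact o5 R hT hb s1 s2 h b2 t1 t2

theorem o1 {s b t k G2 G3 : ℝ} (R : Reg s b t k G2 G3) (hT : t ≤ 284 / 1000 * s) (hb : s - t ≤ b)
    (s1 : 433 / 1000 ≤ s) (s2 : s ≤ 53 / 100)
    (b1 : 3 / 10 ≤ b) (b2 : b ≤ 1 / 2) (t1 : 0 ≤ t) (t2 : t ≤ 753 / 10000) :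
    4 * ph (s - t) - 2 * ph s - 13 / 1000 ≤ G2 + G3 := by
  rcases le_total t (377 / 10000) with h | h
  · exact o2 R hT hb s1 s2 b1 b2 t1 h
  · exact o3 R hT hb s1 s2 b1 b2 h t2

theorem o0 {s b t k G2 G3 : ℝ} (R : Reg s b t k G2 G3) (hT : t ≤ 284 / 1000 * s) (hb : s - t ≤ b)
    (s1 : 433 / 1000 ≤ s) (s2 : s ≤ 53 / 100)
    (b1 : 3 / 10 ≤ b) (b2 : b ≤ 1 / 2) (t1 : 0 ≤ t) (t2 : t ≤ 753 / 5000) :
    4 * ph (s - t) - 2 * ph s - 13 / 1000 ≤ G2 + G3 := by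
  rcases le_total t (753 / 10000) with h | h
  · exact o1 R hT hb s1 s2 b1 b2 t1 h
  · exact o8 R hT hb s1 s2 b1 b2 h t2

end Pool.Agent.Strip051.FourC.LA
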