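import Pool.Agent.Strip051.FourC.Box

set_option linter.unusedVariables false

/-! # The rim of the window, boxes 2 -/

namespace Pool.Agent.Strip051.FourC.LA

open Pool.Agent.StripNear Pool.Agent.StripSquare Pool.Agent.Strip051
open Pool.Agent.Strip051.Four.Low (ph)

theorem m128 {s b t k G2 G3 : ℝ} (R : Reg s b t k G2 G3) (hT : t ≤ 284 / 1000 * s) (hb : s - t ≤ b) (hc : b ≤ s - t + 3 / 200) (hy : s - t ≤ 1 / 2)
    (s1 : 963 / 2000 ≤ s) (s2 : s ≤ 53 / 100)
    (b1 : 17 / 40 ≤ b) (b2 : b ≤ 9 / 20) (t1 : 753 / 10000 ≤ t) (t2 : t ≤ 53 / 625) :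
    4 * ph (s - t) - 2 * ph s + 13 / 1000 ≤ G2 + G3 := by
  have e1 := up (t1 := (223 / 1000)) (t2 := (238 / 1000)) (x := b) (by norm_num)
    (by linear_combination (1049729 / 1000000) * b1) (by linear_combination (264161 / 250000) * b2)
  have e2 := R.lo0 (272 / 1000) (by norm_num)
  have e3 := up (t1 := (206 / 1000)) (t2 := (241 / 1000)) (x := s - t) (by norm_num)
    (by linear_combination (260609 / 250000) * s1 + (260609 / 250000) * t2) (by linear_combination (1058081 / 1000000) * s2 + (1058081 / 1000000) * t1)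
  have e4 := R.lo2 (304 / 1000) (by norm_num)
  have e5 := up (t1 := (77 / 1000)) (t2 := (86 / 1000)) (x := 8 / 25 * s) (by norm_num)
    (by linear_combination (1005929 / 3125000) * s1) (by linear_combination (251849 / 781250) * s2)
  have e6 := R.lo6 (-21 / 1000) (by norm_num)
  have e7 := R.lo7 (656 / 1000) (by norm_num)
  have e8 := R.lo8 (201 / 1000) (by norm_num)
  have c2 := R.k13 (by linear_combination (500 / 461) * e1 + (7422317 / 461) * R.k1 + (7422778 / 461) * R.k2 + (17 / 25) * s1 + t2)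
  have c3 := R.l20 (by linear_combination (500 / 461) * e1 + (7422317 / 461) * R.k1 + (7422778 / 461) * R.k2 + t2) (by linear_combination (433015 / 473463) * e1 + R.k2 + s1 + (87270283 / 94692600) * b2 + t2)
  linear_combination (20500 / 8901) * R.h1 + (1000000 / 959599) * e8 + (15625 / 8901) * e7 + (1000000 / 999559) * e6 + (500000 / 496689) * e5 + (15625 / 14181) * e4 + (2000000 / 475177) * e3 + (31250 / 14469) * e2 + (7659706807677473662870000 / 1737064658309571284315031) * e1 + (101380844758542038000 / 40357348391332129707) * R.k2 + (210919069065383733505340 / 1792792375953037927256789) * s2 + (6034758118186256403740770 / 19107711241405284127465341) * b2 + (12094376207978806032668000 / 19176883736548027397783139) * t2 + c2 + c3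

theorem m130 {s b t k G2 G3 : ℝ} (R : Reg s b t k G2 G3) (hT : t ≤ 284 / 1000 * s) (hb : s - t ≤ b) (hc : b ≤ s - t + 3 / 200) (hy : s - t ≤ 1 / 2)
    (s1 : 963 / 2000 ≤ s) (s2 : s ≤ 2529 / 5000)
    (b1 : 17 / 40 ≤ b) (b2 : b ≤ 9 / 20) (t1 : 53 / 625 ≤ t) (t2 : t ≤ 471 / 5000) :
    4 * ph (s - t) - 2 * ph s + 13 / 1000 ≤ G2 + G3 := by
  have e1 := up (t1 := (223 / 1000)) (t2 := (238 / 1000)) (x := b) (by norm_num)
    (by linear_combination (1049729 / 1000000) * b1) (by linear_combination (264161 / 250000) * b2)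
  have e2 := R.lo0 (264 / 1000) (by norm_num)
  have e3 := up (t1 := (201 / 1000)) (t2 := (221 / 1000)) (x := s - t) (by norm_num)
    (by linear_combination (1040401 / 1000000) * s1 + (1040401 / 1000000) * t2) (by linear_combination (1048841 / 1000000) * s2 + (1048841 / 1000000) * t1)
  have e4 := R.lo2 (290 / 1000) (by norm_num)
  have e5 := up (t1 := (77 / 1000)) (t2 := (82 / 1000)) (x := 8 / 25 * s) (by norm_num)
    (by linear_combination (1005929 / 3125000) * s1) (by linear_combination (251681 / 781250) * s2)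
  have e6 := R.lo6 (-30 / 1000) (by norm_num)
  have e7 := R.lo7 (640 / 1000) (by norm_num)
  have e8 := R.lo8 (206 / 1000) (by norm_num)
  have c2 := R.k13 (by linear_combination (500 / 461) * e1 + (7422317 / 461) * R.k1 + (7422778 / 461) * R.k2 + (17 / 25) * s1 + t2)
  have c3 := R.l20 (by linear_combination (500 / 461) * e1 + (7422317 / 461) * R.k1 + (7422778 / 461) * R.k2 + t2) (by linear_combination (433015 / 473463) * e1 + R.k2 + s1 + (87270283 / 94692600) * b2 + t2)
  linear_combination (800 / 369) * R.h1 + (250000 / 239391) * e8 + (625 / 369) * e7 + (10000 / 9991) * e6 + (500000 / 496843) * e5 + (10000 / 9159) * e4 + (4000000 / 955579) * e3 + (15625 / 7268) * e2 + (199656963603749737000 / 47248957399688298873) * e1 + (230621481155800 / 99794402941071) * R.k2 + (14231103172930327171691 / 157880216563174881859362) * s2 + (14279736813342210257 / 47248957399688298873) * b2 + (130791164173426600 / 240205127879157897) * t2 + c2 + c3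

theorem m131 {s b t k G2 G3 : ℝ} (R : Reg s b t k G2 G3) (hT : t ≤ 284 / 1000 * s) (hb : s - t ≤ b) (hc : b ≤ s - t + 3 / 200) (hy : s - t ≤ 1 / 2)
    (s1 : 2529 / 5000 ≤ s) (s2 : s ≤ 53 / 100)
    (b1 : 17 / 40 ≤ b) (b2 : b ≤ 9 / 20) (t1 : 53 / 625 ≤ t) (t2 : t ≤ 471 / 5000) :
    4 * ph (s - t) - 2 * ph s + 13 / 1000 ≤ G2 + G3 := by
  have e1 := up (t1 := (223 / 1000)) (t2 := (238 / 1000)) (x := b) (by norm_num)
    (by linear_combination (1049729 / 1000000) * b1) (by linear_combination (264161 / 250000) * b2)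
  have e2 := R.lo0 (279 / 1000) (by norm_num)
  have e3 := up (t1 := (215 / 1000)) (t2 := (235 / 1000)) (x := s - t) (by norm_num)
    (by linear_combination (41849 / 40000) * s1 + (41849 / 40000) * t2) (by linear_combination (42209 / 40000) * s2 + (42209 / 40000) * t1)
  have e4 := R.lo2 (306 / 1000) (by norm_num)
  have e5 := up (t1 := (81 / 1000)) (t2 := (86 / 1000)) (x := 8 / 25 * s) (by norm_num)
    (by linear_combination (1006561 / 3125000) * s1) (by linear_combination (251849 / 781250) * s2)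
  have e6 := R.lo6 (-22 / 1000) (by norm_num)
  have e7 := R.lo7 (640 / 1000) (by norm_num)
  have e8 := R.lo8 (206 / 1000) (by norm_num)
  have c2 := R.k13 (by linear_combination (500 / 461) * e1 + (7422317 / 461) * R.k1 + (7422778 / 461) * R.k2 + (17 / 25) * s1 + t2)
  have c3 := R.l20 (by linear_combination (500 / 461) * e1 + (7422317 / 461) * R.k1 + (7422778 / 461) * R.k2 + t2) (by linear_combination (433015 / 473463) * e1 + R.k2 + s1 + (87270283 / 94692600) * b2 + t2)
  linear_combination (800 / 369) * R.h1 + (250000 / 239391) * e8 + (625 / 369) * e7 + (250000 / 249879) * e6 + (500000 / 496517) * e5 + (250000 / 226591) * e4 + (160000 / 37979) * e3 + (2000000 / 922159) * e2 + (13898735610367833557000 / 3248367207900885162057) * e1 + (48759517425831400 / 20582604392957117) * R.k2 + (11600721253180330235920 / 123274198689774711149739) * s2 + (3057133250903178458231 / 9745101623702655486171) * b2 + (2269265006274468200 / 4795746823559008261) * t2 + c2 + c3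

theorem m133 {s b t k G2 G3 : ℝ} (R : Reg s b t k G2 G3) (hT : t ≤ 284 / 1000 * s) (hb : s - t ≤ b) (hc : b ≤ s - t + 3 / 200) (hy : s - t ≤ 1 / 2)
    (s1 : 963 / 2000 ≤ s) (s2 : s ≤ 53 / 100)
    (b1 : 2 / 5 ≤ b) (b2 : b ≤ 17 / 40) (t1 : 471 / 5000 ≤ t) (t2 : t ≤ 113 / 1000) :
    4 * ph (s - t) - 2 * ph s + 13 / 1000 ≤ G2 + G3 := by
  have e1 := up (t1 := (208 / 1000)) (t2 := (224 / 1000)) (x := b) (by norm_num)
    (by linear_combination (16301 / 15625) * b1) (by linear_combination (16409 / 15625) * b2)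
  have e2 := R.lo0 (272 / 1000) (by norm_num)
  have e3 := up (t1 := (190 / 1000)) (t2 := (230 / 1000)) (x := s - t) (by norm_num)
    (by linear_combination (10361 / 10000) * s1 + (10361 / 10000) * t2) (by linear_combination (10529 / 10000) * s2 + (10529 / 10000) * t1)
  have e4 := R.lo2 (288 / 1000) (by norm_num)
  have e5 := up (t1 := (77 / 1000)) (t2 := (86 / 1000)) (x := 8 / 25 * s) (by norm_num)
    (by linear_combination (1005929 / 3125000) * s1) (by linear_combination (251849 / 781250) * s2)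
  have e6 := R.lo6 (-22 / 1000) (by norm_num)
  have e7 := R.lo7 (614 / 1000) (by norm_num)
  have e8 := R.lo8 (201 / 1000) (by norm_num)
  have c2 := R.k13 (by linear_combination (125 / 108) * e1 + (641119 / 27) * R.k1 + (641146 / 27) * R.k2 + (17 / 25) * s1 + t2)
  have c3 := R.l20 (by linear_combination (433015 / 476704) * e1 + R.k2 + (641119 / 5958800) * b1 + t2) (by linear_combination (433015 / 476704) * e1 + R.k2 + s1 + (5317681 / 5958800) * b2 + t2)
  linear_combination (307000 / 155751) * R.h1 + (1000000 / 959599) * e8 + (250000 / 155751) * e7 + (250000 / 249879) * e6 + (500000 / 496689) * e5 + (15625 / 14329) * e4 + (40000 / 9563) * e3 + (31250 / 14469) * e2 + (2043960080352737331505625 / 506156166262829512032484) * e1 + (18145831583744003000 / 8494263379586989193) * R.k2 + (276628001200465240 / 7643660807328539721) * s2 + (23149441448454586837235 / 108462035627749181149818) * b2 + (422259762442225784200 / 1112748502725895584283) * t2 + c2 + c3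

theorem m137 {s b t k G2 G3 : ℝ} (R : Reg s b t k G2 G3) (hT : t ≤ 284 / 1000 * s) (hb : s - t ≤ b) (hc : b ≤ s - t + 3 / 200) (hy : s - t ≤ 1 / 2)
    (s1 : 963 / 2000 ≤ s) (s2 : s ≤ 2529 / 5000)
    (b1 : 17 / 40 ≤ b) (b2 : b ≤ 7 / 16) (t1 : 471 / 5000 ≤ t) (t2 : t ≤ 259 / 2500) :
    4 * ph (s - t) - 2 * ph s + 13 / 1000 ≤ G2 + G3 := by
  have e1 := up (t1 := (223 / 1000)) (t2 := (231 / 1000)) (x := b) (by norm_num)
    (by linear_combination (1049729 / 1000000) * b1) (by linear_combination (1053361 / 1000000) * b2)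
  have e2 := R.lo0 (264 / 1000) (by norm_num)
  have e3 := up (t1 := (196 / 1000)) (t2 := (216 / 1000)) (x := s - t) (by norm_num)
    (by linear_combination (64901 / 62500) * s1 + (64901 / 62500) * t2) (by linear_combination (16354 / 15625) * s2 + (16354 / 15625) * t1)
  have e4 := R.lo2 (284 / 1000) (by norm_num)
  have e5 := up (t1 := (77 / 1000)) (t2 := (82 / 1000)) (x := 8 / 25 * s) (by norm_num)
    (by linear_combination (1005929 / 3125000) * s1) (by linear_combination (251681 / 781250) * s2)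
  have e6 := R.lo6 (-32 / 1000) (by norm_num)
  have e7 := R.lo7 (624 / 1000) (by norm_num)
  have e8 := R.lo8 (208 / 1000) (by norm_num)
  have c2 := R.k13 (by linear_combination (250 / 227) * e1 + (4053294 / 227) * R.k1 + (4053521 / 227) * R.k2 + (17 / 25) * s1 + t2)
  have c3 := R.l20 (by linear_combination (250 / 227) * e1 + (4053294 / 227) * R.k1 + (4053521 / 227) * R.k2 + t2) (by linear_combination (866030 / 948487) * e1 + R.k2 + s1 + (21685528 / 23712175) * b2 + t2)
  linear_combination (19500 / 9541) * R.h1 + (15625 / 14949) * e8 + (15625 / 9541) * e7 + (15625 / 15609) * e6 + (500000 / 496843) * e5 + (62500 / 57459) * e4 + (125000 / 29927) * e3 + (15625 / 7268) * e2 + (454947221496386945000 / 111414748634424807957) * e1 + (2794559844846500 / 1292123387013921) * R.k2 + (1012487270067541972175 / 16153966255413962649498) * s2 + (47899915454255625440 / 175080319282667555361) * b2 + (17088438045504274000 / 38669376603165613767) * t2 + c2 + c3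

theorem m138 {s b t k G2 G3 : ℝ} (R : Reg s b t k G2 G3) (hT : t ≤ 284 / 1000 * s) (hb : s - t ≤ b) (hc : b ≤ s - t + 3 / 200) (hy : s - t ≤ 1 / 2)
    (s1 : 963 / 2000 ≤ s) (s2 : s ≤ 2529 / 5000)
    (b1 : 7 / 16 ≤ b) (b2 : b ≤ 9 / 20) (t1 : 471 / 5000 ≤ t) (t2 : t ≤ 259 / 2500) :
    4 * ph (s - t) - 2 * ph s + 13 / 1000 ≤ G2 + G3 := by
  exfalso
  exact absurd b1 (not_le.mpr (by linear_combination s2 + t1 + hc))

theorem m140 {s b t k G2 G3 : ℝ} (R : Reg s b t k G2 G3) (hT : t ≤ 284 / 1000 * s) (hb : s - t ≤ b) (hc : b ≤ s - t + 3 / 200) (hy : s - t ≤ 1 / 2)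
    (s1 : 2529 / 5000 ≤ s) (s2 : s ≤ 53 / 100)
    (b1 : 17 / 40 ≤ b) (b2 : b ≤ 7 / 16) (t1 : 471 / 5000 ≤ t) (t2 : t ≤ 259 / 2500) :
    4 * ph (s - t) - 2 * ph s + 13 / 1000 ≤ G2 + G3 := by
  have e1 := up (t1 := (223 / 1000)) (t2 := (231 / 1000)) (x := b) (by norm_num)
    (by linear_combination (1049729 / 1000000) * b1) (by linear_combination (1053361 / 1000000) * b2)
  have e2 := R.lo0 (279 / 1000) (by norm_num)
  have e3 := up (t1 := (209 / 1000)) (t2 := (230 / 1000)) (x := s - t) (by norm_num)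
    (by linear_combination (1043681 / 1000000) * s1 + (1043681 / 1000000) * t2) (by linear_combination (10529 / 10000) * s2 + (10529 / 10000) * t1)
  have e4 := R.lo2 (300 / 1000) (by norm_num)
  have e5 := up (t1 := (81 / 1000)) (t2 := (86 / 1000)) (x := 8 / 25 * s) (by norm_num)
    (by linear_combination (1006561 / 3125000) * s1) (by linear_combination (251849 / 781250) * s2)
  have e6 := R.lo6 (-24 / 1000) (by norm_num)
  have e7 := R.lo7 (624 / 1000) (by norm_num)
  have e8 := R.lo8 (208 / 1000) (by norm_num)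
  have c2 := R.k13 (by linear_combination (250 / 227) * e1 + (4053294 / 227) * R.k1 + (4053521 / 227) * R.k2 + (17 / 25) * s1 + t2)
  have c3 := R.l20 (by linear_combination (250 / 227) * e1 + (4053294 / 227) * R.k1 + (4053521 / 227) * R.k2 + t2) (by linear_combination (866030 / 948487) * e1 + R.k2 + s1 + (21685528 / 23712175) * b2 + t2)
  linear_combination (19500 / 9541) * R.h1 + (15625 / 14949) * e8 + (15625 / 9541) * e7 + (15625 / 15616) * e6 + (500000 / 496517) * e5 + (100 / 91) * e4 + (400000 / 95193) * e3 + (2000000 / 922159) * e2 + (2581481341570353025 / 624162822233461056) * e1 + (32144246111885 / 14477354027136) * R.k2 + (5562040121161892665 / 90288413647405593984) * s2 + (349061392124869901 / 1226034115101441360) * b2 + (913022668366115 / 2430586881666944) * t2 + c2 + c3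

theorem m142 {s b t k G2 G3 : ℝ} (R : Reg s b t k G2 G3) (hT : t ≤ 284 / 1000 * s) (hb : s - t ≤ b) (hc : b ≤ s - t + 3 / 200) (hy : s - t ≤ 1 / 2)
    (s1 : 2529 / 5000 ≤ s) (s2 : s ≤ 53 / 100)
    (b1 : 7 / 16 ≤ b) (b2 : b ≤ 9 / 20) (t1 : 471 / 5000 ≤ t) (t2 : t ≤ 989 / 10000) :
    4 * ph (s - t) - 2 * ph s + 13 / 1000 ≤ G2 + G3 := by
  have e1 := up (t1 := (230 / 1000)) (t2 := (238 / 1000)) (x := b) (by norm_num)
    (by linear_combination (10529 / 10000) * b1) (by linear_combination (264161 / 250000) * b2)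
  have e2 := R.lo0 (279 / 1000) (by norm_num)
  have e3 := up (t1 := (212 / 1000)) (t2 := (230 / 1000)) (x := s - t) (by norm_num)
    (by linear_combination (65309 / 62500) * s1 + (65309 / 62500) * t2) (by linear_combination (10529 / 10000) * s2 + (10529 / 10000) * t1)
  have e4 := R.lo2 (302 / 1000) (by norm_num)
  have e5 := up (t1 := (81 / 1000)) (t2 := (86 / 1000)) (x := 8 / 25 * s) (by norm_num)
    (by linear_combination (1006561 / 3125000) * s1) (by linear_combination (251849 / 781250) * s2)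
  have e6 := R.lo6 (-28 / 1000) (by norm_num)
  have e7 := R.lo7 (629 / 1000) (by norm_num)
  have e8 := R.lo8 (213 / 1000) (by norm_num)
  have c2 := R.k13 (by linear_combination (125 / 117) * e1 + (1683199 / 117) * R.k1 + (1683316 / 117) * R.k2 + (17 / 25) * s1 + t2)
  have c3 := R.l20 (by linear_combination (125 / 117) * e1 + (1683199 / 117) * R.k1 + (1683316 / 117) * R.k2 + t2) (by linear_combination (86603 / 94526) * e1 + R.k2 + s1 + (21948301 / 23631500) * b2 + t2)
  linear_combination (1258000 / 604359) * R.h1 + (1000000 / 954631) * e8 + (1000000 / 604359) * e7 + (62500 / 62451) * e6 + (500000 / 496517) * e5 + (250000 / 227199) * e4 + (100000 / 23781) * e3 + (2000000 / 922159) * e2 + (1219949327285603659228250 / 292440676753074184706601) * e1 + (13883987822169585500 / 6187518286039273527) * R.k2 + (26531306748202907487980 / 350329950546455191537827) * s2 + (95946898673203517951071 / 292440676753074184706601) * b2 + (18895602052026340960700 / 49048457453433321248529)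 * t2 + c2 + c3

theorem m144 {s b t k G2 G3 : ℝ} (R : Reg s b t k G2 G3) (hT : t ≤ 284 / 1000 * s) (hb : s - t ≤ b) (hc : b ≤ s - t + 3 / 200) (hy : s - t ≤ 1 / 2)
    (s1 : 2529 / 5000 ≤ s) (s2 : s ≤ 5179 / 10000)
    (b1 : 7 / 16 ≤ b) (b2 : b ≤ 9 / 20) (t1 : 989 / 10000 ≤ t) (t2 : t ≤ 259 / 2500) :
    4 * ph (s - t) - 2 * ph s + 13 / 1000 ≤ G2 + G3 := by
  exfalso
  exact absurd b1 (not_le.mpr (by linear_combination s2 + t1 + hc))

theorem m146 {s b t k G2 G3 : ℝ} (R : Reg s b t k G2 G3) (hT : t ≤ 284 / 1000 * s) (hb : s - t ≤ b) (hc : b ≤ s - t + 3 / 200) (hy : s - t ≤ 1 / 2)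
    (s1 : 5179 / 10000 ≤ s) (s2 : s ≤ 53 / 100)
    (b1 : 7 / 16 ≤ b) (b2 : b ≤ 2219 / 5000) (t1 : 989 / 10000 ≤ t) (t2 : t ≤ 259 / 2500) :
    4 * ph (s - t) - 2 * ph s + 13 / 1000 ≤ G2 + G3 := by
  have e1 := up (t1 := (230 / 1000)) (t2 := (235 / 1000)) (x := b) (by norm_num)
    (by linear_combination (10529 / 10000) * b1) (by linear_combination (42209 / 40000) * b2)
  have e2 := R.lo0 (283 / 1000) (by norm_num)
  have e3 := up (t1 := (216 / 1000)) (t2 := (227 / 1000)) (x := s - t) (by norm_num)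
    (by linear_combination (16354 / 15625) * s1 + (16354 / 15625) * t2) (by linear_combination (1051529 / 1000000) * s2 + (1051529 / 1000000) * t1)
  have e4 := R.lo2 (303 / 1000) (by norm_num)
  have e5 := up (t1 := (83 / 1000)) (t2 := (86 / 1000)) (x := 8 / 25 * s) (by norm_num)
    (by linear_combination (1006889 / 3125000) * s1) (by linear_combination (251849 / 781250) * s2)
  have e6 := R.lo6 (-27 / 1000) (by norm_num)
  have e7 := R.lo7 (621 / 1000) (by norm_num)
  have e8 := R.lo8 (215 / 1000) (by norm_num)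
  have c2 := R.k13 (by linear_combination (100 / 93) * e1 + (1405421 / 93) * R.k1 + (1405514 / 93) * R.k2 + (17 / 25) * s1 + t2)
  have c3 := R.l20 (by linear_combination (100 / 93) * e1 + (1405421 / 93) * R.k1 + (1405514 / 93) * R.k2 + t2) (by linear_combination (86603 / 94595) * e1 + R.k2 + s1 + (17513579 / 18919000) * b2 + t2)
  linear_combination (1242000 / 614359) * R.h1 + (40000 / 38151) * e8 + (1000000 / 614359) * e7 + (1000000 / 999271) * e6 + (500000 / 496431) * e5 + (1000000 / 908191) * e4 + (500000 / 118871) * e3 + (2000000 / 919911) * e2 + (1655486305714597013064372320 / 402426717007842859154126031) * e1 + (46455948024965114847200 / 21271035308834656121049) * R.k2 + (71707189710259588022832740 / 1263212726523559785388667889) * s2 + (635870505905255001921987644 / 2012133585039214295770630155) * b2 + (810730676768751836189157700 / 2528509238196484407765215679) * t2 + c2 + c3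

theorem m148 {s b t k G2 G3 : ℝ} (R : Reg s b t k G2 G3) (hT : t ≤ 284 / 1000 * s) (hb : s - t ≤ b) (hc : b ≤ s - t + 3 / 200) (hy : s - t ≤ 1 / 2)
    (s1 : 5179 / 10000 ≤ s) (s2 : s ≤ 53 / 100)
    (b1 : 2219 / 5000 ≤ b) (b2 : b ≤ 4469 / 10000) (t1 : 989 / 10000 ≤ t) (t2 : t ≤ 259 / 2500) :
    4 * ph (s - t) - 2 * ph s + 13 / 1000 ≤ G2 + G3 := by
  have e1 := up (t1 := (234 / 1000)) (t2 := (236 / 1000)) (x := b) (by norm_num)
    (by linear_combination (263689 / 250000) * b1) (by linear_combination (65981 / 62500) * b2)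
  have e2 := R.lo0 (283 / 1000) (by norm_num)
  have e3 := up (t1 := (216 / 1000)) (t2 := (227 / 1000)) (x := s - t) (by norm_num)
    (by linear_combination (16354 / 15625) * s1 + (16354 / 15625) * t2) (by linear_combination (1051529 / 1000000) * s2 + (1051529 / 1000000) * t1)
  have e4 := R.lo2 (303 / 1000) (by norm_num)
  have e5 := up (t1 := (83 / 1000)) (t2 := (86 / 1000)) (x := 8 / 25 * s) (by norm_num)
    (by linear_combination (1006889 / 3125000) * s1) (by linear_combination (251849 / 781250) * s2)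
  have e6 := R.lo6 (-29 / 1000) (by norm_num)
  have e7 := R.lo7 (622 / 1000) (by norm_num)
  have e8 := R.lo8 (217 / 1000) (by norm_num)
  have c2 := R.k13 (by linear_combination (50 / 47) * e1 + (653539 / 47) * R.k1 + (653586 / 47) * R.k2 + (17 / 25) * s1 + t2)
  have c3 := R.l20 (by linear_combination (50 / 47) * e1 + (653539 / 47) * R.k1 + (653586 / 47) * R.k2 + t2) (by linear_combination (433015 / 472388) * e1 + R.k2 + s1 + (8794221 / 9447760) * b2 + t2)
  linear_combination (311000 / 153279) * R.h1 + (1000000 / 952911) * e8 + (250000 / 153279) * e7 + (1000000 / 999159) * e6 + (500000 / 496431) * e5 + (1000000 / 908191) * e4 + (500000 / 118871) * e3 + (2000000 / 919911) * e2 + (37891179107996755105971250 / 9201981355287043368456117) * e1 + (170076961581281059000 / 77918840912868602661) * R.k2 + (25047600203569850448563500 / 421023714494717806483978827) * s2 + (629149689807075413446825 / 1903858211438698627956438) * b2 + (102006732342347078447500 / 319389328901848402307439)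 * t2 + c2 + c3

theorem m149 {s b t k G2 G3 : ℝ} (R : Reg s b t k G2 G3) (hT : t ≤ 284 / 1000 * s) (hb : s - t ≤ b) (hc : b ≤ s - t + 3 / 200) (hy : s - t ≤ 1 / 2)
    (s1 : 5179 / 10000 ≤ s) (s2 : s ≤ 53 / 100)
    (b1 : 4469 / 10000 ≤ b) (b2 : b ≤ 9 / 20) (t1 : 989 / 10000 ≤ t) (t2 : t ≤ 259 / 2500) :
    4 * ph (s - t) - 2 * ph s + 13 / 1000 ≤ G2 + G3 := by
  exfalso
  exact absurd b1 (not_le.mpr (by linear_combination s2 + t1 + hc))

theorem m151 {s b t k G2 G3 : ℝ} (R : Reg s b t k G2 G3) (hT : t ≤ 284 / 1000 * s) (hb : s - t ≤ b) (hc : b ≤ s - t + 3 / 200) (hy : s - t ≤ 1 / 2)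
    (s1 : 963 / 2000 ≤ s) (s2 : s ≤ 2529 / 5000)
    (b1 : 17 / 40 ≤ b) (b2 : b ≤ 9 / 20) (t1 : 259 / 2500 ≤ t) (t2 : t ≤ 113 / 1000) :
    4 * ph (s - t) - 2 * ph s + 13 / 1000 ≤ G2 + G3 := by
  exfalso
  exact absurd b1 (not_le.mpr (by linear_combination s2 + t1 + hc))

theorem m153 {s b t k G2 G3 : ℝ} (R : Reg s b t k G2 G3) (hT : t ≤ 284 / 1000 * s) (hb : s - t ≤ b) (hc : b ≤ s - t + 3 / 200) (hy : s - t ≤ 1 / 2)
    (s1 : 2529 / 5000 ≤ s) (s2 : s ≤ 53 / 100)
    (b1 : 17 / 40 ≤ b) (b2 : b ≤ 7 / 16) (t1 : 259 / 2500 ≤ t) (t2 : t ≤ 113 / 1000) :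
    4 * ph (s - t) - 2 * ph s + 13 / 1000 ≤ G2 + G3 := by
  have e1 := up (t1 := (223 / 1000)) (t2 := (231 / 1000)) (x := b) (by norm_num)
    (by linear_combination (1049729 / 1000000) * b1) (by linear_combination (1053361 / 1000000) * b2)
  have e2 := R.lo0 (279 / 1000) (by norm_num)
  have e3 := up (t1 := (204 / 1000)) (t2 := (224 / 1000)) (x := s - t) (by norm_num)
    (by linear_combination (65101 / 62500) * s1 + (65101 / 62500) * t2) (by linear_combination (16409 / 15625) * s2 + (16409 / 15625) * t1)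
  have e4 := R.lo2 (294 / 1000) (by norm_num)
  have e5 := up (t1 := (81 / 1000)) (t2 := (86 / 1000)) (x := 8 / 25 * s) (by norm_num)
    (by linear_combination (1006561 / 3125000) * s1) (by linear_combination (251849 / 781250) * s2)
  have e6 := R.lo6 (-28 / 1000) (by norm_num)
  have e7 := R.lo7 (609 / 1000) (by norm_num)
  have e8 := R.lo8 (214 / 1000) (by norm_num)
  have c2 := R.k13 (by linear_combination (250 / 227) * e1 + (4053294 / 227) * R.k1 + (4053521 / 227) * R.k2 + (17 / 25) * s1 + t2)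
  have c3 := R.l20 (by linear_combination (250 / 227) * e1 + (4053294 / 227) * R.k1 + (4053521 / 227) * R.k2 + t2) (by linear_combination (866030 / 948487) * e1 + R.k2 + s1 + (21685528 / 23712175) * b2 + t2)
  linear_combination (1218000 / 629119) * R.h1 + (250000 / 238551) * e8 + (1000000 / 629119) * e7 + (62500 / 62451) * e6 + (500000 / 496517) * e5 + (250000 / 228391) * e4 + (62500 / 14911) * e3 + (2000000 / 922159) * e2 + (2709330151923887174515015000 / 676772267450461318258348041) * e1 + (1480634222526673200500 / 713528248094556191343) * R.k2 + (446076811812729606453410 / 13911278496747675808188879) * s2 + (186365368052914437351639560 / 676772267450461318258348041) * b2 + (2990856255565845974230250 / 10639419707337927369115473) * t2 + c2 + c3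

theorem m157 {s b t k G2 G3 : ℝ} (R : Reg s b t k G2 G3) (hT : t ≤ 284 / 1000 * s) (hb : s - t ≤ b) (hc : b ≤ s - t + 3 / 200) (hy : s - t ≤ 1 / 2)
    (s1 : 2529 / 5000 ≤ s) (s2 : s ≤ 5179 / 10000)
    (b1 : 7 / 16 ≤ b) (b2 : b ≤ 2219 / 5000) (t1 : 259 / 2500 ≤ t) (t2 : t ≤ 1083 / 10000) :
    4 * ph (s - t) - 2 * ph s + 13 / 1000 ≤ G2 + G3 := by
  exfalso
  exact absurd b1 (not_le.mpr (by linear_combination s2 + t1 + hc))

theorem m158 {s b t k G2 G3 : ℝ} (R : Reg s b t k G2 G3) (hT : t ≤ 284 / 1000 * s) (hb : s - t ≤ b) (hc : b ≤ s - t + 3 / 200) (hy : s - t ≤ 1 / 2)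
    (s1 : 5179 / 10000 ≤ s) (s2 : s ≤ 53 / 100)
    (b1 : 7 / 16 ≤ b) (b2 : b ≤ 2219 / 5000) (t1 : 259 / 2500 ≤ t) (t2 : t ≤ 1083 / 10000) :
    4 * ph (s - t) - 2 * ph s + 13 / 1000 ≤ G2 + G3 := by
  have e1 := up (t1 := (230 / 1000)) (t2 := (235 / 1000)) (x := b) (by norm_num)
    (by linear_combination (10529 / 10000) * b1) (by linear_combination (42209 / 40000) * b2)
  have e2 := R.lo0 (283 / 1000) (by norm_num)
  have e3 := up (t1 := (214 / 1000)) (t2 := (224 / 1000)) (x := s - t) (by norm_num)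
    (by linear_combination (261449 / 250000) * s1 + (261449 / 250000) * t2) (by linear_combination (16409 / 15625) * s2 + (16409 / 15625) * t1)
  have e4 := R.lo2 (300 / 1000) (by norm_num)
  have e5 := up (t1 := (83 / 1000)) (t2 := (86 / 1000)) (x := 8 / 25 * s) (by norm_num)
    (by linear_combination (1006889 / 3125000) * s1) (by linear_combination (251849 / 781250) * s2)
  have e6 := R.lo6 (-29 / 1000) (by norm_num)
  have e7 := R.lo7 (614 / 1000) (by norm_num)
  have e8 := R.lo8 (217 / 1000) (by norm_num)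
  have c2 := R.k13 (by linear_combination (100 / 93) * e1 + (1405421 / 93) * R.k1 + (1405514 / 93) * R.k2 + (17 / 25) * s1 + t2)
  have c3 := R.l20 (by linear_combination (100 / 93) * e1 + (1405421 / 93) * R.k1 + (1405514 / 93) * R.k2 + t2) (by linear_combination (86603 / 94595) * e1 + R.k2 + s1 + (17513579 / 18919000) * b2 + t2)
  linear_combination (307000 / 155751) * R.h1 + (1000000 / 952911) * e8 + (250000 / 155751) * e7 + (1000000 / 999159) * e6 + (500000 / 496431) * e5 + (100 / 91) * e4 + (15625 / 3719) * e3 + (2000000 / 919911) * e2 + (16421970119398333158028 / 4052442009089765935917) * e1 + (453447720722027380 / 214199588196509643) * R.k2 + (33380568235143017065 / 754193821869581482116) * s2 + (63295865143257783268651 / 202622100454488296795850) * b2 + (881774566581427827755 / 3186433074011277449268) * t2 + c2 + c3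

theorem m159 {s b t k G2 G3 : ℝ} (R : Reg s b t k G2 G3) (hT : t ≤ 284 / 1000 * s) (hb : s - t ≤ b) (hc : b ≤ s - t + 3 / 200) (hy : s - t ≤ 1 / 2)
    (s1 : 2529 / 5000 ≤ s) (s2 : s ≤ 53 / 100)
    (b1 : 7 / 16 ≤ b) (b2 : b ≤ 2219 / 5000) (t1 : 1083 / 10000 ≤ t) (t2 : t ≤ 113 / 1000) :
    4 * ph (s - t) - 2 * ph s + 13 / 1000 ≤ G2 + G3 := by
  exfalso
  exact absurd b1 (not_le.mpr (by linear_combination s2 + t1 + hc))

theorem m160 {s b t k G2 G3 : ℝ} (R : Reg s b t k G2 G3) (hT : t ≤ 284 / 1000 * s) (hb : s - t ≤ b) (hc : b ≤ s - t + 3 / 200) (hy : s - t ≤ 1 / 2)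
    (s1 : 2529 / 5000 ≤ s) (s2 : s ≤ 53 / 100)
    (b1 : 2219 / 5000 ≤ b) (b2 : b ≤ 9 / 20) (t1 : 259 / 2500 ≤ t) (t2 : t ≤ 113 / 1000) :
    4 * ph (s - t) - 2 * ph s + 13 / 1000 ≤ G2 + G3 := by
  exfalso
  exact absurd b1 (not_le.mpr (by linear_combination s2 + t1 + hc))

theorem m163 {s b t k G2 G3 : ℝ} (R : Reg s b t k G2 G3) (hT : t ≤ 284 / 1000 * s) (hb : s - t ≤ b) (hc : b ≤ s - t + 3 / 200) (hy : s - t ≤ 1 / 2)
    (s1 : 963 / 2000 ≤ s) (s2 : s ≤ 2529 / 5000)
    (b1 : 9 / 20 ≤ b) (b2 : b ≤ 19 / 40) (t1 : 753 / 10000 ≤ t) (t2 : t ≤ 113 / 1000) :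
    4 * ph (s - t) - 2 * ph s + 13 / 1000 ≤ G2 + G3 := by
  exfalso
  exact absurd b1 (not_le.mpr (by linear_combination s2 + t1 + hc))

theorem m167 {s b t k G2 G3 : ℝ} (R : Reg s b t k G2 G3) (hT : t ≤ 284 / 1000 * s) (hb : s - t ≤ b) (hc : b ≤ s - t + 3 / 200) (hy : s - t ≤ 1 / 2)
    (s1 : 2529 / 5000 ≤ s) (s2 : s ≤ 53 / 100)
    (b1 : 9 / 20 ≤ b) (b2 : b ≤ 37 / 80) (t1 : 753 / 10000 ≤ t) (t2 : t ≤ 53 / 625) :
    4 * ph (s - t) - 2 * ph s + 13 / 1000 ≤ G2 + G3 := by
  have e1 := up (t1 := (237 / 1000)) (t2 := (246 / 1000)) (x := b) (by norm_num)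
    (by linear_combination (1056169 / 1000000) * b1) (by linear_combination (265129 / 250000) * b2)
  have e2 := R.lo0 (279 / 1000) (by norm_num)
  have e3 := up (t1 := (220 / 1000)) (t2 := (241 / 1000)) (x := s - t) (by norm_num)
    (by linear_combination (2621 / 2500) * s1 + (2621 / 2500) * t2) (by linear_combination (1058081 / 1000000) * s2 + (1058081 / 1000000) * t1)
  have e4 := R.lo2 (313 / 1000) (by norm_num)
  have e5 := up (t1 := (81 / 1000)) (t2 := (86 / 1000)) (x := 8 / 25 * s) (by norm_num)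
    (by linear_combination (1006561 / 3125000) * s1) (by linear_combination (251849 / 781250) * s2)
  have e6 := R.lo6 (-26 / 1000) (by norm_num)
  have e7 := R.lo7 (659 / 1000) (by norm_num)
  have e8 := R.lo8 (211 / 1000) (by norm_num)
  have c2 := R.k13 (by linear_combination (500 / 483) * e1 + (5255651 / 483) * R.k1 + (5256134 / 483) * R.k2 + (17 / 25) * s1 + t2)
  have c3 := R.l20 (by linear_combination (500 / 483) * e1 + (5255651 / 483) * R.k1 + (5256134 / 483) * R.k2 + t2) (by linear_combination (433015 / 470849) * e1 + R.k2 + s1 + (88914149 / 94169800) * b2 + t2)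
  linear_combination (1318000 / 565719) * R.h1 + (1000000 / 955479) * e8 + (1000000 / 565719) * e7 + (250000 / 249831) * e6 + (500000 / 496517) * e5 + (1000000 / 902031) * e4 + (200000 / 47349) * e3 + (2000000 / 922159) * e2 + (122782058663219462210395000 / 27587786979655747543107591) * e1 + (1630648504785200423000 / 644507382995850523149) * R.k2 + (3418599059900927226482800 / 25849772686364242578693003) * s2 + (118625939172186477524624135 / 303465656776213222974183501) * b2 + (1976221704539670732698800 / 3390753341941169602286889) * t2 + c2 + c3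

theorem m169 {s b t k G2 G3 : ℝ} (R : Reg s b t k G2 G3) (hT : t ≤ 284 / 1000 * s) (hb : s - t ≤ b) (hc : b ≤ s - t + 3 / 200) (hy : s - t ≤ 1 / 2)
    (s1 : 2529 / 5000 ≤ s) (s2 : s ≤ 5179 / 10000)
    (b1 : 37 / 80 ≤ b) (b2 : b ≤ 19 / 40) (t1 : 753 / 10000 ≤ t) (t2 : t ≤ 53 / 625) :
    4 * ph (s - t) - 2 * ph s + 13 / 1000 ≤ G2 + G3 := by
  exfalso
  exact absurd b1 (not_le.mpr (by linear_combination s2 + t1 + hc))

theorem m172 {s b t k G2 G3 : ℝ} (R : Reg s b t k G2 G3) (hT : t ≤ 284 / 1000 * s) (hb : s - t ≤ b) (hc : b ≤ s - t + 3 / 200) (hy : s - t ≤ 1 / 2)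
    (s1 : 5179 / 10000 ≤ s) (s2 : s ≤ 53 / 100)
    (b1 : 37 / 80 ≤ b) (b2 : b ≤ 293 / 625) (t1 : 753 / 10000 ≤ t) (t2 : t ≤ 801 / 10000) :
    4 * ph (s - t) - 2 * ph s + 13 / 1000 ≤ G2 + G3 := by
  have e1 := up (t1 := (245 / 1000)) (t2 := (249 / 1000)) (x := b) (by norm_num)
    (by linear_combination (42401 / 40000) * b1) (by linear_combination (1062001 / 1000000) * b2)
  have e2 := R.lo0 (283 / 1000) (by norm_num)
  have e3 := up (t1 := (230 / 1000)) (t2 := (241 / 1000)) (x := s - t) (by norm_num)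
    (by linear_combination (10529 / 10000) * s1 + (10529 / 10000) * t2) (by linear_combination (1058081 / 1000000) * s2 + (1058081 / 1000000) * t1)
  have e4 := R.lo2 (319 / 1000) (by norm_num)
  have e5 := up (t1 := (83 / 1000)) (t2 := (86 / 1000)) (x := 8 / 25 * s) (by norm_num)
    (by linear_combination (1006889 / 3125000) * s1) (by linear_combination (251849 / 781250) * s2)
  have e6 := R.lo6 (-27 / 1000) (by norm_num)
  have e7 := R.lo7 (664 / 1000) (by norm_num)
  have e8 := R.lo8 (215 / 1000) (by norm_num)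
  have c2 := R.k13 (by linear_combination (250 / 247) * e1 + (2083934 / 247) * R.k1 + (2084181 / 247) * R.k2 + (17 / 25) * s1 + t2)
  have c3 := R.l20 (by linear_combination (250 / 247) * e1 + (2083934 / 247) * R.k1 + (2084181 / 247) * R.k2 + t2) (by linear_combination (173206 / 187799) * e1 + R.k2 + s1 + (22432908 / 23474875) * b2 + t2)
  linear_combination (10375 / 4368) * R.h1 + (40000 / 38151) * e8 + (15625 / 8736) * e7 + (1000000 / 999271) * e6 + (500000 / 496431) * e5 + (1000000 / 898239) * e4 + (400000 / 94457) * e3 + (2000000 / 919911) * e2 + (11049054255969747535975 / 2449881538316716638888) * e1 + (67329785645530325 / 26090464148549424) * R.k2 + (47964600101550134726360240 / 330923937538168263711931509) * s2 + (24738496713447660423401 / 57163902560723388240720) * b2 + (1444326117133146426925 / 2464426972079532942768) * t2 + c2 + c3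

theorem m175 {s b t k G2 G3 : ℝ} (R : Reg s b t k G2 G3) (hT : t ≤ 284 / 1000 * s) (hb : s - t ≤ b) (hc : b ≤ s - t + 3 / 200) (hy : s - t ≤ 1 / 2)
    (s1 : 5179 / 10000 ≤ s) (s2 : s ≤ 53 / 100)
    (b1 : 293 / 625 ≤ b) (b2 : b ≤ 4719 / 10000) (t1 : 753 / 10000 ≤ t) (t2 : t ≤ 777 / 10000) :
    4 * ph (s - t) - 2 * ph s + 13 / 1000 ≤ G2 + G3 := by
  have e1 := up (t1 := (248 / 1000)) (t2 := (251 / 1000)) (x := b) (by norm_num)
    (by linear_combination (16586 / 15625) * b1) (by linear_combination (1063001 / 1000000) * b2)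
  have e2 := R.lo0 (283 / 1000) (by norm_num)
  have e3 := up (t1 := (231 / 1000)) (t2 := (241 / 1000)) (x := s - t) (by norm_num)
    (by linear_combination (1053361 / 1000000) * s1 + (1053361 / 1000000) * t2) (by linear_combination (1058081 / 1000000) * s2 + (1058081 / 1000000) * t1)
  have e4 := R.lo2 (320 / 1000) (by norm_num)
  have e5 := up (t1 := (83 / 1000)) (t2 := (86 / 1000)) (x := 8 / 25 * s) (by norm_num)
    (by linear_combination (1006889 / 3125000) * s1) (by linear_combination (251849 / 781250) * s2)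
  have e6 := R.lo6 (-29 / 1000) (by norm_num)
  have e7 := R.lo7 (666 / 1000) (by norm_num)
  have e8 := R.lo8 (216 / 1000) (by norm_num)
  have c2 := R.k13 (by linear_combination (500 / 499) * e1 + (3672703 / 499) * R.k1 + (3673202 / 499) * R.k2 + (17 / 25) * s1 + t2)
  have c3 := R.l20 (by linear_combination (500 / 499) * e1 + (3672703 / 499) * R.k1 + (3673202 / 499) * R.k2 + t2) (by linear_combination (433015 / 468876) * e1 + R.k2 + s1 + (90102497 / 93775200) * b2 + t2)
  linear_combination (333000 / 139111) * R.h1 + (15625 / 14896) * e8 + (250000 / 139111) * e7 + (1000000 / 999159) * e6 + (500000 / 496431) * e5 + (625 / 561) * e4 + (4000000 / 944329) * e3 + (2000000 / 919911) * e2 + (915764903024966375 / 202162960371953952) * e1 + (12310423423675 / 4742815934472) * R.k2 + (103081081906406979341600 / 688681444833683383335561) * s2 + (8030565170820826259 / 17790340512731947776) * b2 + (2670653356972453075 / 4478778628584009288) * t2 + c2 + c3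

theorem m176 {s b t k G2 G3 : ℝ} (R : Reg s b t k G2 G3) (hT : t ≤ 284 / 1000 * s) (hb : s - t ≤ b) (hc : b ≤ s - t + 3 / 200) (hy : s - t ≤ 1 / 2)
    (s1 : 5179 / 10000 ≤ s) (s2 : s ≤ 53 / 100)
    (b1 : 293 / 625 ≤ b) (b2 : b ≤ 4719 / 10000) (t1 : 777 / 10000 ≤ t) (t2 : t ≤ 801 / 10000) :
    4 * ph (s - t) - 2 * ph s + 13 / 1000 ≤ G2 + G3 := by
  exfalso
  exact absurd b1 (not_le.mpr (by linear_combination s2 + t1 + hc))

theorem m177 {s b t k G2 G3 : ℝ} (R : Reg s b t k G2 G3) (hT : t ≤ 284 / 1000 * s) (hb : s - t ≤ b) (hc : b ≤ s - t + 3 / 200) (hy : s - t ≤ 1 / 2)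
    (s1 : 5179 / 10000 ≤ s) (s2 : s ≤ 53 / 100)
    (b1 : 4719 / 10000 ≤ b) (b2 : b ≤ 19 / 40) (t1 : 753 / 10000 ≤ t) (t2 : t ≤ 801 / 10000) :
    4 * ph (s - t) - 2 * ph s + 13 / 1000 ≤ G2 + G3 := by
  exfalso
  exact absurd b1 (not_le.mpr (by linear_combination s2 + t1 + hc))

theorem m180 {s b t k G2 G3 : ℝ} (R : Reg s b t k G2 G3) (hT : t ≤ 284 / 1000 * s) (hb : s - t ≤ b) (hc : b ≤ s - t + 3 / 200) (hy : s - t ≤ 1 / 2)
    (s1 : 5179 / 10000 ≤ s) (s2 : s ≤ 53 / 100)
    (b1 : 37 / 80 ≤ b) (b2 : b ≤ 4657 / 10000) (t1 : 801 / 10000 ≤ t) (t2 : t ≤ 53 / 625) :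
    4 * ph (s - t) - 2 * ph s + 13 / 1000 ≤ G2 + G3 := by
  have e1 := up (t1 := (245 / 1000)) (t2 := (248 / 1000)) (x := b) (by norm_num)
    (by linear_combination (42401 / 40000) * b1) (by linear_combination (16586 / 15625) * b2)
  have e2 := R.lo0 (283 / 1000) (by norm_num)
  have e3 := up (t1 := (227 / 1000)) (t2 := (238 / 1000)) (x := s - t) (by norm_num)
    (by linear_combination (1051529 / 1000000) * s1 + (1051529 / 1000000) * t2) (by linear_combination (264161 / 250000) * s2 + (264161 / 250000) * t1)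
  have e4 := R.lo2 (316 / 1000) (by norm_num)
  have e5 := up (t1 := (83 / 1000)) (t2 := (86 / 1000)) (x := 8 / 25 * s) (by norm_num)
    (by linear_combination (1006889 / 3125000) * s1) (by linear_combination (251849 / 781250) * s2)
  have e6 := R.lo6 (-29 / 1000) (by norm_num)
  have e7 := R.lo7 (655 / 1000) (by norm_num)
  have e8 := R.lo8 (216 / 1000) (by norm_num)
  have c2 := R.k13 (by linear_combination (500 / 493) * e1 + (4266721 / 493) * R.k1 + (4267214 / 493) * R.k2 + (17 / 25) * s1 + t2)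
  have c3 := R.l20 (by linear_combination (500 / 493) * e1 + (4266721 / 493) * R.k1 + (4267214 / 493) * R.k2 + t2) (by linear_combination (86603 / 93924) * e1 + R.k2 + s1 + (89657279 / 93924000) * b2 + t2)
  linear_combination (52400 / 22839) * R.h1 + (15625 / 14896) * e8 + (40000 / 22839) * e7 + (1000000 / 999159) * e6 + (500000 / 496431) * e5 + (62500 / 56259) * e4 + (2000000 / 472987) * e3 + (2000000 / 919911) * e2 + (67692585078283810325 / 15311922240432567456) * e1 + (405155314431775 / 163024596912744) * R.k2 + (23336792112480096703500 / 183025500139956155315893) * s2 + (260729192722831937609 / 612476889617302698240) * b2 + (40020321578290041925 / 77108515019968046328) * t2 + c2 + c3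

theorem m181 {s b t k G2 G3 : ℝ} (R : Reg s b t k G2 G3) (hT : t ≤ 284 / 1000 * s) (hb : s - t ≤ b) (hc : b ≤ s - t + 3 / 200) (hy : s - t ≤ 1 / 2)
    (s1 : 5179 / 10000 ≤ s) (s2 : s ≤ 53 / 100)
    (b1 : 4657 / 10000 ≤ b) (b2 : b ≤ 293 / 625) (t1 : 801 / 10000 ≤ t) (t2 : t ≤ 53 / 625) :
    4 * ph (s - t) - 2 * ph s + 13 / 1000 ≤ G2 + G3 := by
  exfalso
  exact absurd b1 (not_le.mpr (by linear_combination s2 + t1 + hc))

theorem m182 {s b t k G2 G3 : ℝ} (R : Reg s b t k G2 G3) (hT : t ≤ 284 / 1000 * s) (hb : s - t ≤ b) (hc : b ≤ s - t + 3 / 200) (hy : s - t ≤ 1 / 2)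
    (s1 : 5179 / 10000 ≤ s) (s2 : s ≤ 53 / 100)
    (b1 : 293 / 625 ≤ b) (b2 : b ≤ 19 / 40) (t1 : 801 / 10000 ≤ t) (t2 : t ≤ 53 / 625) :
    4 * ph (s - t) - 2 * ph s + 13 / 1000 ≤ G2 + G3 := by
  exfalso
  exact absurd b1 (not_le.mpr (by linear_combination s2 + t1 + hc))

theorem m185 {s b t k G2 G3 : ℝ} (R : Reg s b t k G2 G3) (hT : t ≤ 284 / 1000 * s) (hb : s - t ≤ b) (hc : b ≤ s - t + 3 / 200) (hy : s - t ≤ 1 / 2)
    (s1 : 2529 / 5000 ≤ s) (s2 : s ≤ 5179 / 10000)
    (b1 : 9 / 20 ≤ b) (b2 : b ≤ 37 / 80) (t1 : 53 / 625 ≤ t) (t2 : t ≤ 471 / 5000) :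
    4 * ph (s - t) - 2 * ph s + 13 / 1000 ≤ G2 + G3 := by
  exfalso
  exact absurd b1 (not_le.mpr (by linear_combination s2 + t1 + hc))

theorem m188 {s b t k G2 G3 : ℝ} (R : Reg s b t k G2 G3) (hT : t ≤ 284 / 1000 * s) (hb : s - t ≤ b) (hc : b ≤ s - t + 3 / 200) (hy : s - t ≤ 1 / 2)
    (s1 : 5179 / 10000 ≤ s) (s2 : s ≤ 53 / 100)
    (b1 : 9 / 20 ≤ b) (b2 : b ≤ 4563 / 10000) (t1 : 53 / 625 ≤ t) (t2 : t ≤ 179 / 2000) :
    4 * ph (s - t) - 2 * ph s + 13 / 1000 ≤ G2 + G3 := by
  have e1 := up (t1 := (237 / 1000)) (t2 := (242 / 1000)) (x := b) (by norm_num)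
    (by linear_combination (1056169 / 1000000) * b1) (by linear_combination (264641 / 250000) * b2)
  have e2 := R.lo0 (283 / 1000) (by norm_num)
  have e3 := up (t1 := (225 / 1000)) (t2 := (235 / 1000)) (x := s - t) (by norm_num)
    (by linear_combination (1681 / 1600) * s1 + (1681 / 1600) * t2) (by linear_combination (42209 / 40000) * s2 + (42209 / 40000) * t1)
  have e4 := R.lo2 (312 / 1000) (by norm_num)
  have e5 := up (t1 := (83 / 1000)) (t2 := (86 / 1000)) (x := 8 / 25 * s) (by norm_num)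
    (by linear_combination (1006889 / 3125000) * s1) (by linear_combination (251849 / 781250) * s2)
  have e6 := R.lo6 (-26 / 1000) (by norm_num)
  have e7 := R.lo7 (646 / 1000) (by norm_num)
  have e8 := R.lo8 (213 / 1000) (by norm_num)
  have c2 := R.k13 (by linear_combination (500 / 479) * e1 + (5649463 / 479) * R.k1 + (5649942 / 479) * R.k2 + (17 / 25) * s1 + t2)
  have c3 := R.l20 (by linear_combination (500 / 479) * e1 + (5649463 / 479) * R.k1 + (5649942 / 479) * R.k2 + t2) (by linear_combination (433015 / 471323) * e1 + R.k2 + s1 + (88615137 / 94264600) * b2 + t2)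
  linear_combination (323000 / 145671) * R.h1 + (1000000 / 954631) * e8 + (250000 / 145671) * e7 + (250000 / 249831) * e6 + (500000 / 496431) * e5 + (15625 / 14104) * e4 + (32000 / 7577) * e3 + (2000000 / 919911) * e2 + (166903631086570855358395625 / 38491482950960324679482292) * e1 + (196844780097730601375 / 81666888632552039004) * R.k2 + (1923123527754575968685 / 17368147802326533898284) * s2 + (38342753219505848349303845 / 102643954535894199145286112) * b2 + (289356298129338752479495 / 618790015168846799533308) * t2 + c2 + c3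

theorem m189 {s b t k G2 G3 : ℝ} (R : Reg s b t k G2 G3) (hT : t ≤ 284 / 1000 * s) (hb : s - t ≤ b) (hc : b ≤ s - t + 3 / 200) (hy : s - t ≤ 1 / 2)
    (s1 : 5179 / 10000 ≤ s) (s2 : s ≤ 53 / 100)
    (b1 : 9 / 20 ≤ b) (b2 : b ≤ 4563 / 10000) (t1 : 179 / 2000 ≤ t) (t2 : t ≤ 471 / 5000) :
    4 * ph (s - t) - 2 * ph s + 13 / 1000 ≤ G2 + G3 := by
  have e1 := up (t1 := (237 / 1000)) (t2 := (242 / 1000)) (x := b) (by norm_num)
    (by linear_combination (1056169 / 1000000) * b1) (by linear_combination (264641 / 250000) * b2)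
  have e2 := R.lo0 (283 / 1000) (by norm_num)
  have e3 := up (t1 := (222 / 1000)) (t2 := (233 / 1000)) (x := s - t) (by norm_num)
    (by linear_combination (262321 / 250000) * s1 + (262321 / 250000) * t2) (by linear_combination (1054289 / 1000000) * s2 + (1054289 / 1000000) * t1)
  have e4 := R.lo2 (309 / 1000) (by norm_num)
  have e5 := up (t1 := (83 / 1000)) (t2 := (86 / 1000)) (x := 8 / 25 * s) (by norm_num)
    (by linear_combination (1006889 / 3125000) * s1) (by linear_combination (251849 / 781250) * s2)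
  have e6 := R.lo6 (-28 / 1000) (by norm_num)
  have e7 := R.lo7 (638 / 1000) (by norm_num)
  have e8 := R.lo8 (216 / 1000) (by norm_num)
  have c2 := R.k13 (by linear_combination (500 / 479) * e1 + (5649463 / 479) * R.k1 + (5649942 / 479) * R.k2 + (17 / 25) * s1 + t2)
  have c3 := R.l20 (by linear_combination (500 / 479) * e1 + (5649463 / 479) * R.k1 + (5649942 / 479) * R.k2 + t2) (by linear_combination (433015 / 471323) * e1 + R.k2 + s1 + (88615137 / 94264600) * b2 + t2)
  linear_combination (319000 / 148239) * R.h1 + (15625 / 14896) * e8 + (250000 / 148239) * e7 + (62500 / 62451) * e6 + (500000 / 496431) * e5 + (1000000 / 904519) * e4 + (2000000 / 474137) * e3 + (2000000 / 919911) * e2 + (25805677155031445089375 / 6059636796888594456264) * e1 + (328947618950673875 / 141423195485419848) * R.k2 + (3417226934093386249310060 / 34846448932868370688675323) * s2 + (65358767330928668525945 / 177749346042065437383744) * b2 + (27271129314683597390875 / 67053969637870510471176)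 * t2 + c2 + c3

theorem m192 {s b t k G2 G3 : ℝ} (R : Reg s b t k G2 G3) (hT : t ≤ 284 / 1000 * s) (hb : s - t ≤ b) (hc : b ≤ s - t + 3 / 200) (hy : s - t ≤ 1 / 2)
    (s1 : 5179 / 10000 ≤ s) (s2 : s ≤ 131 / 250)
    (b1 : 4563 / 10000 ≤ b) (b2 : b ≤ 37 / 80) (t1 : 53 / 625 ≤ t) (t2 : t ≤ 179 / 2000) :
    4 * ph (s - t) - 2 * ph s + 13 / 1000 ≤ G2 + G3 := by
  exfalso
  exact absurd b1 (not_le.mpr (by linear_combination s2 + t1 + hc))

theorem m194 {s b t k G2 G3 : ℝ} (R : Reg s b t k G2 G3) (hT : t ≤ 284 / 1000 * s) (hb : s - t ≤ b) (hc : b ≤ s - t + 3 / 200) (hy : s - t ≤ 1 / 2)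
    (s1 : 131 / 250 ≤ s) (s2 : s ≤ 53 / 100)
    (b1 : 4563 / 10000 ≤ b) (b2 : b ≤ 2297 / 5000) (t1 : 53 / 625 ≤ t) (t2 : t ≤ 179 / 2000) :
    4 * ph (s - t) - 2 * ph s + 13 / 1000 ≤ G2 + G3 := by
  have e1 := up (t1 := (241 / 1000)) (t2 := (244 / 1000)) (x := b) (by norm_num)
    (by linear_combination (1058081 / 1000000) * b1) (by linear_combination (66221 / 62500) * b2)
  have e2 := R.lo0 (285 / 1000) (by norm_num)
  have e3 := up (t1 := (228 / 1000)) (t2 := (235 / 1000)) (x := s - t) (by norm_num)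
    (by linear_combination (65749 / 62500) * s1 + (65749 / 62500) * t2) (by linear_combination (42209 / 40000) * s2 + (42209 / 40000) * t1)
  have e4 := R.lo2 (315 / 1000) (by norm_num)
  have e5 := up (t1 := (84 / 1000)) (t2 := (86 / 1000)) (x := 8 / 25 * s) (by norm_num)
    (by linear_combination (125882 / 390625) * s1) (by linear_combination (251849 / 781250) * s2)
  have e6 := R.lo6 (-27 / 1000) (by norm_num)
  have e7 := R.lo7 (646 / 1000) (by norm_num)
  have e8 := R.lo8 (216 / 1000) (by norm_num)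
  have c2 := R.k13 (by linear_combination (100 / 97) * e1 + (1011469 / 97) * R.k1 + (1011566 / 97) * R.k2 + (17 / 25) * s1 + t2)
  have c3 := R.l20 (by linear_combination (100 / 97) * e1 + (1011469 / 97) * R.k1 + (1011566 / 97) * R.k2 + t2) (by linear_combination (433015 / 470598) * e1 + R.k2 + s1 + (17812451 / 18823920) * b2 + t2)
  linear_combination (323000 / 145671) * R.h1 + (15625 / 14896) * e8 + (250000 / 145671) * e7 + (1000000 / 999271) * e6 + (125000 / 124097) * e5 + (40000 / 36031) * e4 + (200000 / 47321) * e3 + (80000 / 36751) * e2 + (11403045885783153783991375 / 2626179495618304800759312) * e1 + (13446486272516264425 / 5580515632489523544) * R.k2 + (818732204930638802120 / 7566125019279099854581) * s2 + (8276669372826707633339935 / 21009435964946438406074496) * b2 + (1513233282698889476975 / 3342728863861224602856) * t2 + c2 + c3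

theorem m196 {s b t k G2 G3 : ℝ} (R : Reg s b t k G2 G3) (hT : t ≤ 284 / 1000 * s) (hb : s - t ≤ b) (hc : b ≤ s - t + 3 / 200) (hy : s - t ≤ 1 / 2)
    (s1 : 131 / 250 ≤ s) (s2 : s ≤ 53 / 100)
    (b1 : 2297 / 5000 ≤ b) (b2 : b ≤ 37 / 80) (t1 : 53 / 625 ≤ t) (t2 : t ≤ 109 / 1250) :
    4 * ph (s - t) - 2 * ph s + 13 / 1000 ≤ G2 + G3 := by
  have e1 := up (t1 := (243 / 1000)) (t2 := (246 / 1000)) (x := b) (by norm_num)
    (by linear_combination (1059049 / 1000000) * b1) (by linear_combination (265129 / 250000) * b2)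
  have e2 := R.lo0 (285 / 1000) (by norm_num)
  have e3 := up (t1 := (229 / 1000)) (t2 := (235 / 1000)) (x := s - t) (by norm_num)
    (by linear_combination (1052441 / 1000000) * s1 + (1052441 / 1000000) * t2) (by linear_combination (42209 / 40000) * s2 + (42209 / 40000) * t1)
  have e4 := R.lo2 (316 / 1000) (by norm_num)
  have e5 := up (t1 := (84 / 1000)) (t2 := (86 / 1000)) (x := 8 / 25 * s) (by norm_num)
    (by linear_combination (125882 / 390625) * s1) (by linear_combination (251849 / 781250) * s2)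
  have e6 := R.lo6 (-28 / 1000) (by norm_num)
  have e7 := R.lo7 (648 / 1000) (by norm_num)
  have e8 := R.lo8 (217 / 1000) (by norm_num)
  have c2 := R.k13 (by linear_combination (500 / 489) * e1 + (4662233 / 489) * R.k1 + (4662722 / 489) * R.k2 + (17 / 25) * s1 + t2)
  have c3 := R.l20 (by linear_combination (500 / 489) * e1 + (4662233 / 489) * R.k1 + (4662722 / 489) * R.k2 + t2) (by linear_combination (433015 / 470111) * e1 + R.k2 + s1 + (89359967 / 94022200) * b2 + t2)
  linear_combination (10125 / 4532) * R.h1 + (1000000 / 952911) * e8 + (15625 / 9064) * e7 + (62500 / 62451) * e6 + (125000 / 124097) * e5 + (62500 / 56259) * e4 + (800000 / 189237) * e3 + (80000 / 36751) * e2 + (11636356094204455638125 / 2668548505337038790676) * e1 + (151401852374559625 / 62440643930279076) * R.k2 + (48756975334220353520 / 436989514027845387609) * s2 + (95918505610445830666295 / 234832268469659413579488) * b2 + (1824288436961648914975 / 3938693378478073835004) * t2 + c2 + c3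

theorem m197 {s b t k G2 G3 : ℝ} (R : Reg s b t k G2 G3) (hT : t ≤ 284 / 1000 * s) (hb : s - t ≤ b) (hc : b ≤ s - t + 3 / 200) (hy : s - t ≤ 1 / 2)
    (s1 : 131 / 250 ≤ s) (s2 : s ≤ 53 / 100)
    (b1 : 2297 / 5000 ≤ b) (b2 : b ≤ 37 / 80) (t1 : 109 / 1250 ≤ t) (t2 : t ≤ 179 / 2000) :
    4 * ph (s - t) - 2 * ph s + 13 / 1000 ≤ G2 + G3 := by
  exfalso
  exact absurd b1 (not_le.mpr (by linear_combination s2 + t1 + hc))

theorem m198 {s b t k G2 G3 : ℝ} (R : Reg s b t k G2 G3) (hT : t ≤ 284 / 1000 * s) (hb : s - t ≤ b) (hc : b ≤ s - t + 3 / 200) (hy : s - t ≤ 1 / 2)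
    (s1 : 5179 / 10000 ≤ s) (s2 : s ≤ 53 / 100)
    (b1 : 4563 / 10000 ≤ b) (b2 : b ≤ 37 / 80) (t1 : 179 / 2000 ≤ t) (t2 : t ≤ 471 / 5000) :
    4 * ph (s - t) - 2 * ph s + 13 / 1000 ≤ G2 + G3 := by
  exfalso
  exact absurd b1 (not_le.mpr (by linear_combination s2 + t1 + hc))

theorem m199 {s b t k G2 G3 : ℝ} (R : Reg s b t k G2 G3) (hT : t ≤ 284 / 1000 * s) (hb : s - t ≤ b) (hc : b ≤ s - t + 3 / 200) (hy : s - t ≤ 1 / 2)
    (s1 : 2529 / 5000 ≤ s) (s2 : s ≤ 53 / 100)
    (b1 : 37 / 80 ≤ b) (b2 : b ≤ 19 / 40) (t1 : 53 / 625 ≤ t) (t2 : t ≤ 471 / 5000) :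
    4 * ph (s - t) - 2 * ph s + 13 / 1000 ≤ G2 + G3 := by
  exfalso
  exact absurd b1 (not_le.mpr (by linear_combination s2 + t1 + hc))

theorem m206 {s b t k G2 G3 : ℝ} (R : Reg s b t k G2 G3) (hT : t ≤ 284 / 1000 * s) (hb : s - t ≤ b) (hc : b ≤ s - t + 3 / 200) (hy : s - t ≤ 1 / 2)
    (s1 : 2529 / 5000 ≤ s) (s2 : s ≤ 53 / 100)
    (b1 : 9 / 20 ≤ b) (b2 : b ≤ 1133 / 2500) (t1 : 471 / 5000 ≤ t) (t2 : t ≤ 483 / 5000) :
    4 * ph (s - t) - 2 * ph s + 13 / 1000 ≤ G2 + G3 := by
  have e1 := up (t1 := (237 / 1000)) (t2 := (240 / 1000)) (x := b) (by norm_num)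
    (by linear_combination (1056169 / 1000000) * b1) (by linear_combination (661 / 625) * b2)
  have e2 := R.lo0 (279 / 1000) (by norm_num)
  have e3 := up (t1 := (213 / 1000)) (t2 := (230 / 1000)) (x := s - t) (by norm_num)
    (by linear_combination (1045369 / 1000000) * s1 + (1045369 / 1000000) * t2) (by linear_combination (10529 / 10000) * s2 + (10529 / 10000) * t1)
  have e4 := R.lo2 (303 / 1000) (by norm_num)
  have e5 := up (t1 := (81 / 1000)) (t2 := (86 / 1000)) (x := 8 / 25 * s) (by norm_num)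
    (by linear_combination (1006561 / 3125000) * s1) (by linear_combination (251849 / 781250) * s2)
  have e6 := R.lo6 (-31 / 1000) (by norm_num)
  have e7 := R.lo7 (632 / 1000) (by norm_num)
  have e8 := R.lo8 (217 / 1000) (by norm_num)
  have c2 := R.k13 (by linear_combination (500 / 477) * e1 + (5846369 / 477) * R.k1 + (5846846 / 477) * R.k2 + (17 / 25) * s1 + t2)
  have c3 := R.l20 (by linear_combination (500 / 477) * e1 + (5846369 / 477) * R.k1 + (5846846 / 477) * R.k2 + t2) (by linear_combination (86603 / 94312) * e1 + R.k2 + s1 + (88465631 / 94312000) * b2 + t2)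
  linear_combination (9875 / 4692) * R.h1 + (1000000 / 952911) * e8 + (15625 / 9384) * e7 + (1000000 / 999039) * e6 + (500000 / 496517) * e5 + (1000000 / 908191) * e4 + (400000 / 95101) * e3 + (2000000 / 922159) * e2 + (616436233768210976426375 / 147094550132121971218656) * e1 + (3516095907335267125 / 1559658899526274188) * R.k2 + (27168749245161110495172400 / 331999699226735511465850713) * s2 + (14375925248038313792243 / 40577806932999164474112) * b2 + (58012679887435452741025 / 148325121003848201552988) * t2 + c2 + c3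

theorem m207 {s b t k G2 G3 : ℝ} (R : Reg s b t k G2 G3) (hT : t ≤ 284 / 1000 * s) (hb : s - t ≤ b) (hc : b ≤ s - t + 3 / 200) (hy : s - t ≤ 1 / 2)
    (s1 : 2529 / 5000 ≤ s) (s2 : s ≤ 53 / 100)
    (b1 : 9 / 20 ≤ b) (b2 : b ≤ 1133 / 2500) (t1 : 483 / 5000 ≤ t) (t2 : t ≤ 989 / 10000) :
    4 * ph (s - t) - 2 * ph s + 13 / 1000 ≤ G2 + G3 := by
  exfalso
  exact absurd b1 (not_le.mpr (by linear_combination s2 + t1 + hc))

theorem m208 {s b t k G2 G3 : ℝ} (R : Reg s b t k G2 G3) (hT : t ≤ 284 / 1000 * s) (hb : s - t ≤ b) (hc : b ≤ s - t + 3 / 200) (hy : s - t ≤ 1 / 2)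
    (s1 : 2529 / 5000 ≤ s) (s2 : s ≤ 53 / 100)
    (b1 : 1133 / 2500 ≤ b) (b2 : b ≤ 4563 / 10000) (t1 : 471 / 5000 ≤ t) (t2 : t ≤ 989 / 10000) :
    4 * ph (s - t) - 2 * ph s + 13 / 1000 ≤ G2 + G3 := by
  exfalso
  exact absurd b1 (not_le.mpr (by linear_combination s2 + t1 + hc))

theorem m209 {s b t k G2 G3 : ℝ} (R : Reg s b t k G2 G3) (hT : t ≤ 284 / 1000 * s) (hb : s - t ≤ b) (hc : b ≤ s - t + 3 / 200) (hy : s - t ≤ 1 / 2)
    (s1 : 2529 / 5000 ≤ s) (s2 : s ≤ 53 / 100)
    (b1 : 9 / 20 ≤ b) (b2 : b ≤ 4563 / 10000) (t1 : 989 / 10000 ≤ t) (t2 : t ≤ 259 / 2500) :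
    4 * ph (s - t) - 2 * ph s + 13 / 1000 ≤ G2 + G3 := by
  exfalso
  exact absurd b1 (not_le.mpr (by linear_combination s2 + t1 + hc))

theorem m210 {s b t k G2 G3 : ℝ} (R : Reg s b t k G2 G3) (hT : t ≤ 284 / 1000 * s) (hb : s - t ≤ b) (hc : b ≤ s - t + 3 / 200) (hy : s - t ≤ 1 / 2)
    (s1 : 2529 / 5000 ≤ s) (s2 : s ≤ 53 / 100)
    (b1 : 4563 / 10000 ≤ b) (b2 : b ≤ 37 / 80) (t1 : 471 / 5000 ≤ t) (t2 : t ≤ 259 / 2500) :
    4 * ph (s - t) - 2 * ph s + 13 / 1000 ≤ G2 + G3 := by
  exfalso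
  exact absurd b1 (not_le.mpr (by linear_combination s2 + t1 + hc))

theorem m211 {s b t k G2 G3 : ℝ} (R : Reg s b t k G2 G3) (hT : t ≤ 284 / 1000 * s) (hb : s - t ≤ b) (hc : b ≤ s - t + 3 / 200) (hy : s - t ≤ 1 / 2)
    (s1 : 2529 / 5000 ≤ s) (s2 : s ≤ 53 / 100)
    (b1 : 9 / 20 ≤ b) (b2 : b ≤ 37 / 80) (t1 : 259 / 2500 ≤ t) (t2 : t ≤ 113 / 1000) :
    4 * ph (s - t) - 2 * ph s + 13 / 1000 ≤ G2 + G3 := by
  exfalso
  exact absurd b1 (not_le.mpr (by linear_combination s2 + t1 + hc))

theorem m212 {s b t k G2 G3 : ℝ} (R : Reg s b t k G2 G3) (hT : t ≤ 284 / 1000 * s) (hb : s - t ≤ b) (hc : b ≤ s - t + 3 / 200) (hy : s - t ≤ 1 / 2)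
    (s1 : 2529 / 5000 ≤ s) (s2 : s ≤ 53 / 100)
    (b1 : 37 / 80 ≤ b) (b2 : b ≤ 19 / 40) (t1 : 471 / 5000 ≤ t) (t2 : t ≤ 113 / 1000) :
    4 * ph (s - t) - 2 * ph s + 13 / 1000 ≤ G2 + G3 := by
  exfalso
  exact absurd b1 (not_le.mpr (by linear_combination s2 + t1 + hc))

theorem m213 {s b t k G2 G3 : ℝ} (R : Reg s b t k G2 G3) (hT : t ≤ 284 / 1000 * s) (hb : s - t ≤ b) (hc : b ≤ s - t + 3 / 200) (hy : s - t ≤ 1 / 2)
    (s1 : 963 / 2000 ≤ s) (s2 : s ≤ 53 / 100)
    (b1 : 19 / 40 ≤ b) (b2 : b ≤ 1 / 2) (t1 : 753 / 10000 ≤ t) (t2 : t ≤ 113 / 1000) :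
    4 * ph (s - t) - 2 * ph s + 13 / 1000 ≤ G2 + G3 := by
  exfalso
  exact absurd b1 (not_le.mpr (by linear_combination s2 + t1 + hc))

theorem m218 {s b t k G2 G3 : ℝ} (R : Reg s b t k G2 G3) (hT : t ≤ 284 / 1000 * s) (hb : s - t ≤ b) (hc : b ≤ s - t + 3 / 200) (hy : s - t ≤ 1 / 2)
    (s1 : 963 / 2000 ≤ s) (s2 : s ≤ 53 / 100)
    (b1 : 2 / 5 ≤ b) (b2 : b ≤ 17 / 40) (t1 : 113 / 1000 ≤ t) (t2 : t ≤ 153 / 1250) :
    4 * ph (s - t) - 2 * ph s + 13 / 1000 ≤ G2 + G3 := by
  have e1 := up (t1 := (208 / 1000)) (t2 := (224 / 1000)) (x := b) (by norm_num)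
    (by linear_combination (16301 / 15625) * b1) (by linear_combination (16409 / 15625) * b2)
  have e2 := R.lo0 (272 / 1000) (by norm_num)
  have e3 := up (t1 := (185 / 1000)) (t2 := (219 / 1000)) (x := s - t) (by norm_num)
    (by linear_combination (41369 / 40000) * s1 + (41369 / 40000) * t2) (by linear_combination (1047961 / 1000000) * s2 + (1047961 / 1000000) * t1)
  have e4 := R.lo2 (279 / 1000) (by norm_num)
  have e5 := up (t1 := (77 / 1000)) (t2 := (86 / 1000)) (x := 8 / 25 * s) (by norm_num)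
    (by linear_combination (1005929 / 3125000) * s1) (by linear_combination (251849 / 781250) * s2)
  have e6 := R.lo6 (-29 / 1000) (by norm_num)
  have e7 := R.lo7 (593 / 1000) (by norm_num)
  have e8 := R.lo8 (209 / 1000) (by norm_num)
  have c2 := R.k13 (by linear_combination (125 / 108) * e1 + (641119 / 27) * R.k1 + (641146 / 27) * R.k2 + (17 / 25) * s1 + t2)
  have c3 := R.l20 (by linear_combination (433015 / 476704) * e1 + R.k2 + (641119 / 5958800) * b1 + t2) (by linear_combination (433015 / 476704) * e1 + R.k2 + s1 + (5317681 / 5958800) * b2 + t2)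
  linear_combination (1186000 / 648351) * R.h1 + (1000000 / 956319) * e8 + (1000000 / 648351) * e7 + (1000000 / 999159) * e6 + (500000 / 496689) * e5 + (1000000 / 922159) * e4 + (800000 / 191897) * e3 + (31250 / 14469) * e2 + (6770510908684304580998125 / 1754368926131855996281683) * e1 + (2512123885050668956000 / 1295432515771659794529) * R.k2 + (10976910230405474361640 / 2881330445842975581138957) * s1 + (3906644319565687791845090 / 19298058187450415959098513) * b2 + (63385248072167775057759200 / 248589613479034199590731513) * t2 + c2 + c3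

theorem m221 {s b t k G2 G3 : ℝ} (R : Reg s b t k G2 G3) (hT : t ≤ 284 / 1000 * s) (hb : s - t ≤ b) (hc : b ≤ s - t + 3 / 200) (hy : s - t ≤ 1 / 2)
    (s1 : 963 / 2000 ≤ s) (s2 : s ≤ 2529 / 5000)
    (b1 : 17 / 40 ≤ b) (b2 : b ≤ 7 / 16) (t1 : 113 / 1000 ≤ t) (t2 : t ≤ 153 / 1250) :
    4 * ph (s - t) - 2 * ph s + 13 / 1000 ≤ G2 + G3 := by
  exfalso
  exact absurd b1 (not_le.mpr (by linear_combination s2 + t1 + hc))

theorem m223 {s b t k G2 G3 : ℝ} (R : Reg s b t k G2 G3) (hT : t ≤ 284 / 1000 * s) (hb : s - t ≤ b) (hc : b ≤ s - t + 3 / 200) (hy : s - t ≤ 1 / 2)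
    (s1 : 2529 / 5000 ≤ s) (s2 : s ≤ 5179 / 10000)
    (b1 : 17 / 40 ≤ b) (b2 : b ≤ 7 / 16) (t1 : 113 / 1000 ≤ t) (t2 : t ≤ 153 / 1250) :
    4 * ph (s - t) - 2 * ph s + 13 / 1000 ≤ G2 + G3 := by
  exfalso
  exact absurd b1 (not_le.mpr (by linear_combination s2 + t1 + hc))

theorem m225 {s b t k G2 G3 : ℝ} (R : Reg s b t k G2 G3) (hT : t ≤ 284 / 1000 * s) (hb : s - t ≤ b) (hc : b ≤ s - t + 3 / 200) (hy : s - t ≤ 1 / 2)
    (s1 : 5179 / 10000 ≤ s) (s2 : s ≤ 53 / 100)
    (b1 : 17 / 40 ≤ b) (b2 : b ≤ 4313 / 10000) (t1 : 113 / 1000 ≤ t) (t2 : t ≤ 153 / 1250) :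
    4 * ph (s - t) - 2 * ph s + 13 / 1000 ≤ G2 + G3 := by
  have e1 := up (t1 := (223 / 1000)) (t2 := (227 / 1000)) (x := b) (by norm_num)
    (by linear_combination (1049729 / 1000000) * b1) (by linear_combination (1051529 / 1000000) * b2)
  have e2 := R.lo0 (283 / 1000) (by norm_num)
  have e3 := up (t1 := (206 / 1000)) (t2 := (219 / 1000)) (x := s - t) (by norm_num)
    (by linear_combination (260609 / 250000) * s1 + (260609 / 250000) * t2) (by linear_combination (1047961 / 1000000) * s2 + (1047961 / 1000000) * t1)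
  have e4 := R.lo2 (291 / 1000) (by norm_num)
  have e5 := up (t1 := (83 / 1000)) (t2 := (86 / 1000)) (x := 8 / 25 * s) (by norm_num)
    (by linear_combination (1006889 / 3125000) * s1) (by linear_combination (251849 / 781250) * s2)
  have e6 := R.lo6 (-29 / 1000) (by norm_num)
  have e7 := R.lo7 (595 / 1000) (by norm_num)
  have e8 := R.lo8 (217 / 1000) (by norm_num)
  have c2 := R.k13 (by linear_combination (10 / 9) * e1 + (169952 / 9) * R.k1 + (169961 / 9) * R.k2 + (17 / 25) * s1 + t2)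
  have c3 := R.l20 (by linear_combination (866030 / 949379) * e1 + R.k2 + (84976 / 949379) * b1 + t2) (by linear_combination (866030 / 949379) * e1 + R.k2 + s1 + (864403 / 949379) * b2 + t2)
  linear_combination (47600 / 25839) * R.h1 + (1000000 / 952911) * e8 + (40000 / 25839) * e7 + (1000000 / 999159) * e6 + (500000 / 496431) * e5 + (1000000 / 915319) * e4 + (2000000 / 477443) * e3 + (2000000 / 919911) * e2 + (3225656600819952864272000 / 827368616652708943229949) * e1 + (18832574412680086400 / 9586324095203073141) * R.k2 + (13398405629851153819318000 / 1704305542193617895389148319) * s2 + (2354025619454588183089600 / 9101054783179798375529439) * b2 + (843105344390606321225200 / 4576923334986040849658463) * t2 + c2 + c3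

theorem m227 {s b t k G2 G3 : ℝ} (R : Reg s b t k G2 G3) (hT : t ≤ 284 / 1000 * s) (hb : s - t ≤ b) (hc : b ≤ s - t + 3 / 200) (hy : s - t ≤ 1 / 2)
    (s1 : 5179 / 10000 ≤ s) (s2 : s ≤ 53 / 100)
    (b1 : 4313 / 10000 ≤ b) (b2 : b ≤ 543 / 1250) (t1 : 113 / 1000 ≤ t) (t2 : t ≤ 153 / 1250) :
    4 * ph (s - t) - 2 * ph s + 13 / 1000 ≤ G2 + G3 := by
  have e1 := up (t1 := (226 / 1000)) (t2 := (229 / 1000)) (x := b) (by norm_num)
    (by linear_combination (262769 / 250000) * b1) (by linear_combination (1052441 / 1000000) * b2)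
  have e2 := R.lo0 (283 / 1000) (by norm_num)
  have e3 := up (t1 := (206 / 1000)) (t2 := (219 / 1000)) (x := s - t) (by norm_num)
    (by linear_combination (260609 / 250000) * s1 + (260609 / 250000) * t2) (by linear_combination (1047961 / 1000000) * s2 + (1047961 / 1000000) * t1)
  have e4 := R.lo2 (291 / 1000) (by norm_num)
  have e5 := up (t1 := (83 / 1000)) (t2 := (86 / 1000)) (x := 8 / 25 * s) (by norm_num)
    (by linear_combination (1006889 / 3125000) * s1) (by linear_combination (251849 / 781250) * s2)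
  have e6 := R.lo6 (-32 / 1000) (by norm_num)
  have e7 := R.lo7 (596 / 1000) (by norm_num)
  have e8 := R.lo8 (220 / 1000) (by norm_num)
  have c2 := R.k13 (by linear_combination (100 / 91) * e1 + (123199 / 7) * R.k1 + (123206 / 7) * R.k2 + (17 / 25) * s1 + t2)
  have c3 := R.l20 (by linear_combination (433015 / 474123) * e1 + R.k2 + (123199 / 1458840) * b1 + t2) (by linear_combination (433015 / 474123) * e1 + R.k2 + s1 + (1335641 / 1458840) * b2 + t2)
  linear_combination (74500 / 40299) * R.h1 + (2500 / 2379) * e8 + (62500 / 40299) * e7 + (15625 / 15609) * e6 + (500000 / 496431) * e5 + (1000000 / 915319) * e4 + (2000000 / 477443) * e3 + (2000000 / 919911) * e2 + (25566683678266232486000 / 6559822659955099341807) * e1 + (298005478018476400 / 152192678396757999) * R.k2 + (318245198707475955224840 / 26624896746263789576162769) * s2 + (1486799975771659997810 / 5550619173808160981529) * b2 + (12916852804331128695200 / 72663328951783329316557) * t2 + c2 + c3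

theorem m228 {s b t k G2 G3 : ℝ} (R : Reg s b t k G2 G3) (hT : t ≤ 284 / 1000 * s) (hb : s - t ≤ b) (hc : b ≤ s - t + 3 / 200) (hy : s - t ≤ 1 / 2)
    (s1 : 5179 / 10000 ≤ s) (s2 : s ≤ 53 / 100)
    (b1 : 543 / 1250 ≤ b) (b2 : b ≤ 7 / 16) (t1 : 113 / 1000 ≤ t) (t2 : t ≤ 153 / 1250) :
    4 * ph (s - t) - 2 * ph s + 13 / 1000 ≤ G2 + G3 := by
  exfalso
  exact absurd b1 (not_le.mpr (by linear_combination s2 + t1 + hc))

theorem m229 {s b t k G2 G3 : ℝ} (R : Reg s b t k G2 G3) (hT : t ≤ 284 / 1000 * s) (hb : s - t ≤ b) (hc : b ≤ s - t + 3 / 200) (hy : s - t ≤ 1 / 2)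
    (s1 : 963 / 2000 ≤ s) (s2 : s ≤ 53 / 100)
    (b1 : 7 / 16 ≤ b) (b2 : b ≤ 9 / 20) (t1 : 113 / 1000 ≤ t) (t2 : t ≤ 153 / 1250) :
    4 * ph (s - t) - 2 * ph s + 13 / 1000 ≤ G2 + G3 := by
  exfalso
  exact absurd b1 (not_le.mpr (by linear_combination s2 + t1 + hc))

theorem m232 {s b t k G2 G3 : ℝ} (R : Reg s b t k G2 G3) (hT : t ≤ 284 / 1000 * s) (hb : s - t ≤ b) (hc : b ≤ s - t + 3 / 200) (hy : s - t ≤ 1 / 2)
    (s1 : 963 / 2000 ≤ s) (s2 : s ≤ 2529 / 5000)
    (b1 : 2 / 5 ≤ b) (b2 : b ≤ 17 / 40) (t1 : 153 / 1250 ≤ t) (t2 : t ≤ 659 / 5000) :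
    4 * ph (s - t) - 2 * ph s + 13 / 1000 ≤ G2 + G3 := by
  exfalso
  exact absurd b1 (not_le.mpr (by linear_combination s2 + t1 + hc))

theorem m234 {s b t k G2 G3 : ℝ} (R : Reg s b t k G2 G3) (hT : t ≤ 284 / 1000 * s) (hb : s - t ≤ b) (hc : b ≤ s - t + 3 / 200) (hy : s - t ≤ 1 / 2)
    (s1 : 2529 / 5000 ≤ s) (s2 : s ≤ 53 / 100)
    (b1 : 2 / 5 ≤ b) (b2 : b ≤ 17 / 40) (t1 : 153 / 1250 ≤ t) (t2 : t ≤ 1271 / 10000) :
    4 * ph (s - t) - 2 * ph s + 13 / 1000 ≤ G2 + G3 := by
  have e1 := up (t1 := (208 / 1000)) (t2 := (224 / 1000)) (x := b) (by norm_num)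
    (by linear_combination (16301 / 15625) * b1) (by linear_combination (16409 / 15625) * b2)
  have e2 := R.lo0 (279 / 1000) (by norm_num)
  have e3 := up (t1 := (196 / 1000)) (t2 := (214 / 1000)) (x := s - t) (by norm_num)
    (by linear_combination (64901 / 62500) * s1 + (64901 / 62500) * t2) (by linear_combination (261449 / 250000) * s2 + (261449 / 250000) * t1)
  have e4 := R.lo2 (282 / 1000) (by norm_num)
  have e5 := up (t1 := (81 / 1000)) (t2 := (86 / 1000)) (x := 8 / 25 * s) (by norm_num)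
    (by linear_combination (1006561 / 3125000) * s1) (by linear_combination (251849 / 781250) * s2)
  have e6 := R.lo6 (-28 / 1000) (by norm_num)
  have e7 := R.lo7 (583 / 1000) (by norm_num)
  have e8 := R.lo8 (213 / 1000) (by norm_num)
  have c2 := R.k13 (by linear_combination (125 / 108) * e1 + (641119 / 27) * R.k1 + (641146 / 27) * R.k2 + (17 / 25) * s1 + t2)
  have c3 := R.l20 (by linear_combination (433015 / 476704) * e1 + R.k2 + (641119 / 5958800) * b1 + t2) (by linear_combination (433015 / 476704) * e1 + R.k2 + s1 + (5317681 / 5958800) * b2 + t2)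
  linear_combination (1166000 / 660111) * R.h1 + (1000000 / 954631) * e8 + (1000000 / 660111) * e7 + (62500 / 62451) * e6 + (500000 / 496517) * e5 + (250000 / 230119) * e4 + (500000 / 119757) * e3 + (2000000 / 922159) * e2 + (1367998275196206966534243125 / 359759215996664182688370168) * e1 + (5665556796517703631500 / 3018722024540714428143) * R.k2 + (720671493480573606434740 / 37524370922925171151539519) * s1 + (36336360993561157039527515 / 179879607998332091344185084) * b2 + (19884023416574725342743500 / 120504364497640779257040417) * t2 + c2 + c3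

theorem m236 {s b t k G2 G3 : ℝ} (R : Reg s b t k G2 G3) (hT : t ≤ 284 / 1000 * s) (hb : s - t ≤ b) (hc : b ≤ s - t + 3 / 200) (hy : s - t ≤ 1 / 2)
    (s1 : 2529 / 5000 ≤ s) (s2 : s ≤ 53 / 100)
    (b1 : 2 / 5 ≤ b) (b2 : b ≤ 33 / 80) (t1 : 1271 / 10000 ≤ t) (t2 : t ≤ 659 / 5000) :
    4 * ph (s - t) - 2 * ph s + 13 / 1000 ≤ G2 + G3 := by
  have e1 := up (t1 := (208 / 1000)) (t2 := (216 / 1000)) (x := b) (by norm_num)
    (by linear_combination (16301 / 15625) * b1) (by linear_combination (16354 / 15625) * b2)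
  have e2 := R.lo0 (279 / 1000) (by norm_num)
  have e3 := up (t1 := (194 / 1000)) (t2 := (211 / 1000)) (x := s - t) (by norm_num)
    (by linear_combination (259409 / 250000) * s1 + (259409 / 250000) * t2) (by linear_combination (1044521 / 1000000) * s2 + (1044521 / 1000000) * t1)
  have e4 := R.lo2 (278 / 1000) (by norm_num)
  have e5 := up (t1 := (81 / 1000)) (t2 := (86 / 1000)) (x := 8 / 25 * s) (by norm_num)
    (by linear_combination (1006561 / 3125000) * s1) (by linear_combination (251849 / 781250) * s2)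
  have e6 := R.lo6 (-28 / 1000) (by norm_num)
  have c2 := R.k12 (by linear_combination (433015 / 477536) * e1 + R.k2 + s1 + (10559159 / 11938400) * b2 + t2) (by linear_combination (125 / 106) * e1 + (1379241 / 53) * R.k1 + (1379294 / 53) * R.k2 + (17 / 25) * s1 + t2)
  linear_combination (62500 / 62451) * e6 + (500000 / 496517) * e5 + (250000 / 230679) * e4 + (2000000 / 479533) * e3 + (2000000 / 922159) * e2 + (294786931296875 / 191095769866104) * e1 + (874812500 / 1600681581) * R.k2 + (1591778484275917363474820 / 50207123335629242738048517) * s1 + (62060591555875 / 191095769866104) * b2 + (877050618047500 / 767579640581673) * t1 + c2 + R.g3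

theorem m239 {s b t k G2 G3 : ℝ} (R : Reg s b t k G2 G3) (hT : t ≤ 284 / 1000 * s) (hb : s - t ≤ b) (hc : b ≤ s - t + 3 / 200) (hy : s - t ≤ 1 / 2)
    (s1 : 2529 / 5000 ≤ s) (s2 : s ≤ 5179 / 10000)
    (b1 : 33 / 80 ≤ b) (b2 : b ≤ 1047 / 2500) (t1 : 1271 / 10000 ≤ t) (t2 : t ≤ 659 / 5000) :
    4 * ph (s - t) - 2 * ph s + 13 / 1000 ≤ G2 + G3 := by
  exfalso
  exact absurd b1 (not_le.mpr (by linear_combination s2 + t1 + hc))

theorem m240 {s b t k G2 G3 : ℝ} (R : Reg s b t k G2 G3) (hT : t ≤ 284 / 1000 * s) (hb : s - t ≤ b) (hc : b ≤ s - t + 3 / 200) (hy : s - t ≤ 1 / 2)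
    (s1 : 5179 / 10000 ≤ s) (s2 : s ≤ 53 / 100)
    (b1 : 33 / 80 ≤ b) (b2 : b ≤ 1047 / 2500) (t1 : 1271 / 10000 ≤ t) (t2 : t ≤ 659 / 5000) :
    4 * ph (s - t) - 2 * ph s + 13 / 1000 ≤ G2 + G3 := by
  have e1 := up (t1 := (215 / 1000)) (t2 := (220 / 1000)) (x := b) (by norm_num)
    (by linear_combination (41849 / 40000) * b1) (by linear_combination (2621 / 2500) * b2)
  have e2 := R.lo0 (283 / 1000) (by norm_num)
  have e3 := up (t1 := (200 / 1000)) (t2 := (211 / 1000)) (x := s - t) (by norm_num)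
    (by linear_combination (26 / 25) * s1 + (26 / 25) * t2) (by linear_combination (1044521 / 1000000) * s2 + (1044521 / 1000000) * t1)
  have e4 := R.lo2 (283 / 1000) (by norm_num)
  have e5 := up (t1 := (83 / 1000)) (t2 := (86 / 1000)) (x := 8 / 25 * s) (by norm_num)
    (by linear_combination (1006889 / 3125000) * s1) (by linear_combination (251849 / 781250) * s2)
  have e6 := R.lo6 (-30 / 1000) (by norm_num)
  have c2 := R.k12 (by linear_combination (86603 / 95270) * e1 + R.k2 + s1 + (17061461 / 19054000) * b2 + t2) (by linear_combination (100 / 87) * e1 + (1992539 / 87) * R.k1 + (1992626 / 87) * R.k2 + (17 / 25) * s1 + t2)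
  linear_combination (10000 / 9991) * e6 + (500000 / 496431) * e5 + (1000000 / 919911) * e4 + (20000 / 4789) * e3 + (2000000 / 919911) * e2 + (136101467301820 / 87561045041127) * e1 + (5102959400 / 9190830801) * R.k2 + (19100400156823052 / 560265518338533981) * s1 + (296377959161917 / 875610450411270) * b2 + (51110556617620 / 44014888705989) * t1 + c2 + R.g3

theorem m241 {s b t k G2 G3 : ℝ} (R : Reg s b t k G2 G3) (hT : t ≤ 284 / 1000 * s) (hb : s - t ≤ b) (hc : b ≤ s - t + 3 / 200) (hy : s - t ≤ 1 / 2)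
    (s1 : 2529 / 5000 ≤ s) (s2 : s ≤ 53 / 100)
    (b1 : 1047 / 2500 ≤ b) (b2 : b ≤ 17 / 40) (t1 : 1271 / 10000 ≤ t) (t2 : t ≤ 659 / 5000) :
    4 * ph (s - t) - 2 * ph s + 13 / 1000 ≤ G2 + G3 := by
  exfalso
  exact absurd b1 (not_le.mpr (by linear_combination s2 + t1 + hc))

theorem m242 {s b t k G2 G3 : ℝ} (R : Reg s b t k G2 G3) (hT : t ≤ 284 / 1000 * s) (hb : s - t ≤ b) (hc : b ≤ s - t + 3 / 200) (hy : s - t ≤ 1 / 2)
    (s1 : 963 / 2000 ≤ s) (s2 : s ≤ 53 / 100)
    (b1 : 17 / 40 ≤ b) (b2 : b ≤ 9 / 20) (t1 : 153 / 1250 ≤ t) (t2 : t ≤ 659 / 5000) :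
    4 * ph (s - t) - 2 * ph s + 13 / 1000 ≤ G2 + G3 := by
  exfalso
  exact absurd b1 (not_le.mpr (by linear_combination s2 + t1 + hc))

theorem m245 {s b t k G2 G3 : ℝ} (R : Reg s b t k G2 G3) (hT : t ≤ 284 / 1000 * s) (hb : s - t ≤ b) (hc : b ≤ s - t + 3 / 200) (hy : s - t ≤ 1 / 2)
    (s1 : 963 / 2000 ≤ s) (s2 : s ≤ 2529 / 5000)
    (b1 : 2 / 5 ≤ b) (b2 : b ≤ 17 / 40) (t1 : 659 / 5000 ≤ t) (t2 : t ≤ 753 / 5000) :
    4 * ph (s - t) - 2 * ph s + 13 / 1000 ≤ G2 + G3 := by
  exfalso
  exact absurd b1 (not_le.mpr (by linear_combination s2 + t1 + hc))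

theorem m246 {s b t k G2 G3 : ℝ} (R : Reg s b t k G2 G3) (hT : t ≤ 284 / 1000 * s) (hb : s - t ≤ b) (hc : b ≤ s - t + 3 / 200) (hy : s - t ≤ 1 / 2)
    (s1 : 2529 / 5000 ≤ s) (s2 : s ≤ 53 / 100)
    (b1 : 2 / 5 ≤ b) (b2 : b ≤ 17 / 40) (t1 : 659 / 5000 ≤ t) (t2 : t ≤ 753 / 5000) :
    4 * ph (s - t) - 2 * ph s + 13 / 1000 ≤ G2 + G3 := by
  have e1 := up (t1 := (208 / 1000)) (t2 := (224 / 1000)) (x := b) (by norm_num)
    (by linear_combination (16301 / 15625) * b1) (by linear_combination (16409 / 15625) * b2)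
  have e2 := R.lo0 (279 / 1000) (by norm_num)
  have e3 := up (t1 := (183 / 1000)) (t2 := (208 / 1000)) (x := s - t) (by norm_num)
    (by linear_combination (1033489 / 1000000) * s1 + (1033489 / 1000000) * t2) (by linear_combination (16301 / 15625) * s2 + (16301 / 15625) * t1)
  have e4 := R.lo2 (272 / 1000) (by norm_num)
  have e5 := up (t1 := (81 / 1000)) (t2 := (86 / 1000)) (x := 8 / 25 * s) (by norm_num)
    (by linear_combination (1006561 / 3125000) * s1) (by linear_combination (251849 / 781250) * s2)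
  have e6 := R.lo6 (-36 / 1000) (by norm_num)
  have c2 := R.k12 (by linear_combination (433015 / 476704) * e1 + R.k2 + s1 + (5317681 / 5958800) * b2 + t2) (by linear_combination (125 / 108) * e1 + (641119 / 27) * R.k1 + (641146 / 27) * R.k2 + (17 / 25) * s1 + t2)
  linear_combination (62500 / 62419) * e6 + (500000 / 496517) * e5 + (15625 / 14469) * e4 + (250000 / 60121) * e3 + (2000000 / 922159) * e2 + (1666116123125 / 1098292587132) * e1 + (9499000 / 18431439) * R.k2 + (4996883406105755355350 / 72481526423334169319451) * s1 + (1251492466165 / 3844024054962) * b2 + (1230583783250 / 1108116544119) * t1 + c2 + R.g3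

theorem m247 {s b t k G2 G3 : ℝ} (R : Reg s b t k G2 G3) (hT : t ≤ 284 / 1000 * s) (hb : s - t ≤ b) (hc : b ≤ s - t + 3 / 200) (hy : s - t ≤ 1 / 2)
    (s1 : 963 / 2000 ≤ s) (s2 : s ≤ 53 / 100)
    (b1 : 17 / 40 ≤ b) (b2 : b ≤ 9 / 20) (t1 : 659 / 5000 ≤ t) (t2 : t ≤ 753 / 5000) :
    4 * ph (s - t) - 2 * ph s + 13 / 1000 ≤ G2 + G3 := by
  exfalso
  exact absurd b1 (not_le.mpr (by linear_combination s2 + t1 + hc))

theorem m248 {s b t k G2 G3 : ℝ} (R : Reg s b t k G2 G3) (hT : t ≤ 284 / 1000 * s) (hb : s - t ≤ b) (hc : b ≤ s - t + 3 / 200) (hy : s - t ≤ 1 / 2)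
    (s1 : 963 / 2000 ≤ s) (s2 : s ≤ 53 / 100)
    (b1 : 9 / 20 ≤ b) (b2 : b ≤ 1 / 2) (t1 : 113 / 1000 ≤ t) (t2 : t ≤ 753 / 5000) :
    4 * ph (s - t) - 2 * ph s + 13 / 1000 ≤ G2 + G3 := by
  exfalso
  exact absurd b1 (not_le.mpr (by linear_combination s2 + t1 + hc))

end Pool.Agent.Strip051.FourC.LA
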