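import Pool.Agent.Strip051.FourC.BoxRim1
import Pool.Agent.Strip051.FourC.BoxRim2

set_option linter.unusedVariables false

/-! # The rim of the window, the subdivision -/

namespace Pool.Agent.Strip051.FourC.LA

open Pool.Agent.StripNear Pool.Agent.StripSquare Pool.Agent.Strip051
open Pool.Agent.Strip051.Four.Low (ph)

theorem m244 {s b t k G2 G3 : ℝ} (R : Reg s b t k G2 G3) (hT : t ≤ 284 / 1000 * s) (hb : s - t ≤ b) (hc : b ≤ s - t + 3 / 200) (hy : s - t ≤ 1 / 2)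
    (s1 : 963 / 2000 ≤ s) (s2 : s ≤ 53 / 100)
    (b1 : 2 / 5 ≤ b) (b2 : b ≤ 17 / 40) (t1 : 659 / 5000 ≤ t) (t2 : t ≤ 753 / 5000) :
    4 * ph (s - t) - 2 * ph s + 13 / 1000 ≤ G2 + G3 := by
  rcases le_total s (2529 / 5000) with h | h
  · exact m245 R hT hb hc hy s1 h b1 b2 t1 t2
  · exact m246 R hT hb hc hy h s2 b1 b2 t1 t2

theorem m243 {s b t k G2 G3 : ℝ} (R : Reg s b t k G2 G3) (hT : t ≤ 284 / 1000 * s) (hb : s - t ≤ b) (hc : b ≤ s - t + 3 / 200) (hy : s - t ≤ 1 / 2)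
    (s1 : 963 / 2000 ≤ s) (s2 : s ≤ 53 / 100)
    (b1 : 2 / 5 ≤ b) (b2 : b ≤ 9 / 20) (t1 : 659 / 5000 ≤ t) (t2 : t ≤ 753 / 5000) :
    4 * ph (s - t) - 2 * ph s + 13 / 1000 ≤ G2 + G3 := by
  rcases le_total b (17 / 40) with h | h
  · exact m244 R hT hb hc hy s1 s2 b1 h t1 t2
  · exact m247 R hT hb hc hy s1 s2 h b2 t1 t2

theorem m238 {s b t k G2 G3 : ℝ} (R : Reg s b t k G2 G3) (hT : t ≤ 284 / 1000 * s) (hb : s - t ≤ b) (hc : b ≤ s - t + 3 / 200) (hy : s - t ≤ 1 / 2)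
    (s1 : 2529 / 5000 ≤ s) (s2 : s ≤ 53 / 100)
    (b1 : 33 / 80 ≤ b) (b2 : b ≤ 1047 / 2500) (t1 : 1271 / 10000 ≤ t) (t2 : t ≤ 659 / 5000) :
    4 * ph (s - t) - 2 * ph s + 13 / 1000 ≤ G2 + G3 := by
  rcases le_total s (5179 / 10000) with h | h
  · exact m239 R hT hb hc hy s1 h b1 b2 t1 t2
  · exact m240 R hT hb hc hy h s2 b1 b2 t1 t2

theorem m237 {s b t k G2 G3 : ℝ} (R : Reg s b t k G2 G3) (hT : t ≤ 284 / 1000 * s) (hb : s - t ≤ b) (hc : b ≤ s - t + 3 / 200) (hy : s - t ≤ 1 / 2)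
    (s1 : 2529 / 5000 ≤ s) (s2 : s ≤ 53 / 100)
    (b1 : 33 / 80 ≤ b) (b2 : b ≤ 17 / 40) (t1 : 1271 / 10000 ≤ t) (t2 : t ≤ 659 / 5000) :
    4 * ph (s - t) - 2 * ph s + 13 / 1000 ≤ G2 + G3 := by
  rcases le_total b (1047 / 2500) with h | h
  · exact m238 R hT hb hc hy s1 s2 b1 h t1 t2
  · exact m241 R hT hb hc hy s1 s2 h b2 t1 t2

theorem m235 {s b t k G2 G3 : ℝ} (R : Reg s b t k G2 G3) (hT : t ≤ 284 / 1000 * s) (hb : s - t ≤ b) (hc : b ≤ s - t + 3 / 200) (hy : s - t ≤ 1 / 2)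
    (s1 : 2529 / 5000 ≤ s) (s2 : s ≤ 53 / 100)
    (b1 : 2 / 5 ≤ b) (b2 : b ≤ 17 / 40) (t1 : 1271 / 10000 ≤ t) (t2 : t ≤ 659 / 5000) :
    4 * ph (s - t) - 2 * ph s + 13 / 1000 ≤ G2 + G3 := by
  rcases le_total b (33 / 80) with h | h
  · exact m236 R hT hb hc hy s1 s2 b1 h t1 t2
  · exact m237 R hT hb hc hy s1 s2 h b2 t1 t2

theorem m233 {s b t k G2 G3 : ℝ} (R : Reg s b t k G2 G3) (hT : t ≤ 284 / 1000 * s) (hb : s - t ≤ b) (hc : b ≤ s - t + 3 / 200) (hy : s - t ≤ 1 / 2)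
    (s1 : 2529 / 5000 ≤ s) (s2 : s ≤ 53 / 100)
    (b1 : 2 / 5 ≤ b) (b2 : b ≤ 17 / 40) (t1 : 153 / 1250 ≤ t) (t2 : t ≤ 659 / 5000) :
    4 * ph (s - t) - 2 * ph s + 13 / 1000 ≤ G2 + G3 := by
  rcases le_total t (1271 / 10000) with h | h
  · exact m234 R hT hb hc hy s1 s2 b1 b2 t1 h
  · exact m235 R hT hb hc hy s1 s2 b1 b2 h t2

theorem m231 {s b t k G2 G3 : ℝ} (R : Reg s b t k G2 G3) (hT : t ≤ 284 / 1000 * s) (hb : s - t ≤ b) (hc : b ≤ s - t + 3 / 200) (hy : s - t ≤ 1 / 2)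
    (s1 : 963 / 2000 ≤ s) (s2 : s ≤ 53 / 100)
    (b1 : 2 / 5 ≤ b) (b2 : b ≤ 17 / 40) (t1 : 153 / 1250 ≤ t) (t2 : t ≤ 659 / 5000) :
    4 * ph (s - t) - 2 * ph s + 13 / 1000 ≤ G2 + G3 := by
  rcases le_total s (2529 / 5000) with h | h
  · exact m232 R hT hb hc hy s1 h b1 b2 t1 t2
  · exact m233 R hT hb hc hy h s2 b1 b2 t1 t2

theorem m230 {s b t k G2 G3 : ℝ} (R : Reg s b t k G2 G3) (hT : t ≤ 284 / 1000 * s) (hb : s - t ≤ b) (hc : b ≤ s - t + 3 / 200) (hy : s - t ≤ 1 / 2)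
    (s1 : 963 / 2000 ≤ s) (s2 : s ≤ 53 / 100)
    (b1 : 2 / 5 ≤ b) (b2 : b ≤ 9 / 20) (t1 : 153 / 1250 ≤ t) (t2 : t ≤ 659 / 5000) :
    4 * ph (s - t) - 2 * ph s + 13 / 1000 ≤ G2 + G3 := by
  rcases le_total b (17 / 40) with h | h
  · exact m231 R hT hb hc hy s1 s2 b1 h t1 t2
  · exact m242 R hT hb hc hy s1 s2 h b2 t1 t2

theorem m226 {s b t k G2 G3 : ℝ} (R : Reg s b t k G2 G3) (hT : t ≤ 284 / 1000 * s) (hb : s - t ≤ b) (hc : b ≤ s - t + 3 / 200) (hy : s - t ≤ 1 / 2)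
    (s1 : 5179 / 10000 ≤ s) (s2 : s ≤ 53 / 100)
    (b1 : 4313 / 10000 ≤ b) (b2 : b ≤ 7 / 16) (t1 : 113 / 1000 ≤ t) (t2 : t ≤ 153 / 1250) :
    4 * ph (s - t) - 2 * ph s + 13 / 1000 ≤ G2 + G3 := by
  rcases le_total b (543 / 1250) with h | h
  · exact m227 R hT hb hc hy s1 s2 b1 h t1 t2
  · exact m228 R hT hb hc hy s1 s2 h b2 t1 t2

theorem m224 {s b t k G2 G3 : ℝ} (R : Reg s b t k G2 G3) (hT : t ≤ 284 / 1000 * s) (hb : s - t ≤ b) (hc : b ≤ s - t + 3 / 200) (hy : s - t ≤ 1 / 2)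
    (s1 : 5179 / 10000 ≤ s) (s2 : s ≤ 53 / 100)
    (b1 : 17 / 40 ≤ b) (b2 : b ≤ 7 / 16) (t1 : 113 / 1000 ≤ t) (t2 : t ≤ 153 / 1250) :
    4 * ph (s - t) - 2 * ph s + 13 / 1000 ≤ G2 + G3 := by
  rcases le_total b (4313 / 10000) with h | h
  · exact m225 R hT hb hc hy s1 s2 b1 h t1 t2
  · exact m226 R hT hb hc hy s1 s2 h b2 t1 t2

theorem m222 {s b t k G2 G3 : ℝ} (R : Reg s b t k G2 G3) (hT : t ≤ 284 / 1000 * s) (hb : s - t ≤ b) (hc : b ≤ s - t + 3 / 200) (hy : s - t ≤ 1 / 2)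
    (s1 : 2529 / 5000 ≤ s) (s2 : s ≤ 53 / 100)
    (b1 : 17 / 40 ≤ b) (b2 : b ≤ 7 / 16) (t1 : 113 / 1000 ≤ t) (t2 : t ≤ 153 / 1250) :
    4 * ph (s - t) - 2 * ph s + 13 / 1000 ≤ G2 + G3 := by
  rcases le_total s (5179 / 10000) with h | h
  · exact m223 R hT hb hc hy s1 h b1 b2 t1 t2
  · exact m224 R hT hb hc hy h s2 b1 b2 t1 t2

theorem m220 {s b t k G2 G3 : ℝ} (R : Reg s b t k G2 G3) (hT : t ≤ 284 / 1000 * s) (hb : s - t ≤ b) (hc : b ≤ s - t + 3 / 200) (hy : s - t ≤ 1 / 2)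
    (s1 : 963 / 2000 ≤ s) (s2 : s ≤ 53 / 100)
    (b1 : 17 / 40 ≤ b) (b2 : b ≤ 7 / 16) (t1 : 113 / 1000 ≤ t) (t2 : t ≤ 153 / 1250) :
    4 * ph (s - t) - 2 * ph s + 13 / 1000 ≤ G2 + G3 := by
  rcases le_total s (2529 / 5000) with h | h
  · exact m221 R hT hb hc hy s1 h b1 b2 t1 t2
  · exact m222 R hT hb hc hy h s2 b1 b2 t1 t2

theorem m219 {s b t k G2 G3 : ℝ} (R : Reg s b t k G2 G3) (hT : t ≤ 284 / 1000 * s) (hb : s - t ≤ b) (hc : b ≤ s - t + 3 / 200) (hy : s - t ≤ 1 / 2)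
    (s1 : 963 / 2000 ≤ s) (s2 : s ≤ 53 / 100)
    (b1 : 17 / 40 ≤ b) (b2 : b ≤ 9 / 20) (t1 : 113 / 1000 ≤ t) (t2 : t ≤ 153 / 1250) :
    4 * ph (s - t) - 2 * ph s + 13 / 1000 ≤ G2 + G3 := by
  rcases le_total b (7 / 16) with h | h
  · exact m220 R hT hb hc hy s1 s2 b1 h t1 t2
  · exact m229 R hT hb hc hy s1 s2 h b2 t1 t2

theorem m217 {s b t k G2 G3 : ℝ} (R : Reg s b t k G2 G3) (hT : t ≤ 284 / 1000 * s) (hb : s - t ≤ b) (hc : b ≤ s - t + 3 / 200) (hy : s - t ≤ 1 / 2)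
    (s1 : 963 / 2000 ≤ s) (s2 : s ≤ 53 / 100)
    (b1 : 2 / 5 ≤ b) (b2 : b ≤ 9 / 20) (t1 : 113 / 1000 ≤ t) (t2 : t ≤ 153 / 1250) :
    4 * ph (s - t) - 2 * ph s + 13 / 1000 ≤ G2 + G3 := by
  rcases le_total b (17 / 40) with h | h
  · exact m218 R hT hb hc hy s1 s2 b1 h t1 t2
  · exact m219 R hT hb hc hy s1 s2 h b2 t1 t2

theorem m216 {s b t k G2 G3 : ℝ} (R : Reg s b t k G2 G3) (hT : t ≤ 284 / 1000 * s) (hb : s - t ≤ b) (hc : b ≤ s - t + 3 / 200) (hy : s - t ≤ 1 / 2)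
    (s1 : 963 / 2000 ≤ s) (s2 : s ≤ 53 / 100)
    (b1 : 2 / 5 ≤ b) (b2 : b ≤ 9 / 20) (t1 : 113 / 1000 ≤ t) (t2 : t ≤ 659 / 5000) :
    4 * ph (s - t) - 2 * ph s + 13 / 1000 ≤ G2 + G3 := by
  rcases le_total t (153 / 1250) with h | h
  · exact m217 R hT hb hc hy s1 s2 b1 b2 t1 h
  · exact m230 R hT hb hc hy s1 s2 b1 b2 h t2

theorem m215 {s b t k G2 G3 : ℝ} (R : Reg s b t k G2 G3) (hT : t ≤ 284 / 1000 * s) (hb : s - t ≤ b) (hc : b ≤ s - t + 3 / 200) (hy : s - t ≤ 1 / 2)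
    (s1 : 963 / 2000 ≤ s) (s2 : s ≤ 53 / 100)
    (b1 : 2 / 5 ≤ b) (b2 : b ≤ 9 / 20) (t1 : 113 / 1000 ≤ t) (t2 : t ≤ 753 / 5000) :
    4 * ph (s - t) - 2 * ph s + 13 / 1000 ≤ G2 + G3 := by
  rcases le_total t (659 / 5000) with h | h
  · exact m216 R hT hb hc hy s1 s2 b1 b2 t1 h
  · exact m243 R hT hb hc hy s1 s2 b1 b2 h t2

theorem m214 {s b t k G2 G3 : ℝ} (R : Reg s b t k G2 G3) (hT : t ≤ 284 / 1000 * s) (hb : s - t ≤ b) (hc : b ≤ s - t + 3 / 200) (hy : s - t ≤ 1 / 2)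
    (s1 : 963 / 2000 ≤ s) (s2 : s ≤ 53 / 100)
    (b1 : 2 / 5 ≤ b) (b2 : b ≤ 1 / 2) (t1 : 113 / 1000 ≤ t) (t2 : t ≤ 753 / 5000) :
    4 * ph (s - t) - 2 * ph s + 13 / 1000 ≤ G2 + G3 := by
  rcases le_total b (9 / 20) with h | h
  · exact m215 R hT hb hc hy s1 s2 b1 h t1 t2
  · exact m248 R hT hb hc hy s1 s2 h b2 t1 t2

theorem m205 {s b t k G2 G3 : ℝ} (R : Reg s b t k G2 G3) (hT : t ≤ 284 / 1000 * s) (hb : s - t ≤ b) (hc : b ≤ s - t + 3 / 200) (hy : s - t ≤ 1 / 2)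
    (s1 : 2529 / 5000 ≤ s) (s2 : s ≤ 53 / 100)
    (b1 : 9 / 20 ≤ b) (b2 : b ≤ 1133 / 2500) (t1 : 471 / 5000 ≤ t) (t2 : t ≤ 989 / 10000) :
    4 * ph (s - t) - 2 * ph s + 13 / 1000 ≤ G2 + G3 := by
  rcases le_total t (483 / 5000) with h | h
  · exact m206 R hT hb hc hy s1 s2 b1 b2 t1 h
  · exact m207 R hT hb hc hy s1 s2 b1 b2 h t2

theorem m204 {s b t k G2 G3 : ℝ} (R : Reg s b t k G2 G3) (hT : t ≤ 284 / 1000 * s) (hb : s - t ≤ b) (hc : b ≤ s - t + 3 / 200) (hy : s - t ≤ 1 / 2)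
    (s1 : 2529 / 5000 ≤ s) (s2 : s ≤ 53 / 100)
    (b1 : 9 / 20 ≤ b) (b2 : b ≤ 4563 / 10000) (t1 : 471 / 5000 ≤ t) (t2 : t ≤ 989 / 10000) :
    4 * ph (s - t) - 2 * ph s + 13 / 1000 ≤ G2 + G3 := by
  rcases le_total b (1133 / 2500) with h | h
  · exact m205 R hT hb hc hy s1 s2 b1 h t1 t2
  · exact m208 R hT hb hc hy s1 s2 h b2 t1 t2

theorem m203 {s b t k G2 G3 : ℝ} (R : Reg s b t k G2 G3) (hT : t ≤ 284 / 1000 * s) (hb : s - t ≤ b) (hc : b ≤ s - t + 3 / 200) (hy : s - t ≤ 1 / 2)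
    (s1 : 2529 / 5000 ≤ s) (s2 : s ≤ 53 / 100)
    (b1 : 9 / 20 ≤ b) (b2 : b ≤ 4563 / 10000) (t1 : 471 / 5000 ≤ t) (t2 : t ≤ 259 / 2500) :
    4 * ph (s - t) - 2 * ph s + 13 / 1000 ≤ G2 + G3 := by
  rcases le_total t (989 / 10000) with h | h
  · exact m204 R hT hb hc hy s1 s2 b1 b2 t1 h
  · exact m209 R hT hb hc hy s1 s2 b1 b2 h t2

theorem m202 {s b t k G2 G3 : ℝ} (R : Reg s b t k G2 G3) (hT : t ≤ 284 / 1000 * s) (hb : s - t ≤ b) (hc : b ≤ s - t + 3 / 200) (hy : s - t ≤ 1 / 2)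
    (s1 : 2529 / 5000 ≤ s) (s2 : s ≤ 53 / 100)
    (b1 : 9 / 20 ≤ b) (b2 : b ≤ 37 / 80) (t1 : 471 / 5000 ≤ t) (t2 : t ≤ 259 / 2500) :
    4 * ph (s - t) - 2 * ph s + 13 / 1000 ≤ G2 + G3 := by
  rcases le_total b (4563 / 10000) with h | h
  · exact m203 R hT hb hc hy s1 s2 b1 h t1 t2
  · exact m210 R hT hb hc hy s1 s2 h b2 t1 t2

theorem m201 {s b t k G2 G3 : ℝ} (R : Reg s b t k G2 G3) (hT : t ≤ 284 / 1000 * s) (hb : s - t ≤ b) (hc : b ≤ s - t + 3 / 200) (hy : s - t ≤ 1 / 2)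
    (s1 : 2529 / 5000 ≤ s) (s2 : s ≤ 53 / 100)
    (b1 : 9 / 20 ≤ b) (b2 : b ≤ 37 / 80) (t1 : 471 / 5000 ≤ t) (t2 : t ≤ 113 / 1000) :
    4 * ph (s - t) - 2 * ph s + 13 / 1000 ≤ G2 + G3 := by
  rcases le_total t (259 / 2500) with h | h
  · exact m202 R hT hb hc hy s1 s2 b1 b2 t1 h
  · exact m211 R hT hb hc hy s1 s2 b1 b2 h t2

theorem m200 {s b t k G2 G3 : ℝ} (R : Reg s b t k G2 G3) (hT : t ≤ 284 / 1000 * s) (hb : s - t ≤ b) (hc : b ≤ s - t + 3 / 200) (hy : s - t ≤ 1 / 2)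
    (s1 : 2529 / 5000 ≤ s) (s2 : s ≤ 53 / 100)
    (b1 : 9 / 20 ≤ b) (b2 : b ≤ 19 / 40) (t1 : 471 / 5000 ≤ t) (t2 : t ≤ 113 / 1000) :
    4 * ph (s - t) - 2 * ph s + 13 / 1000 ≤ G2 + G3 := by
  rcases le_total b (37 / 80) with h | h
  · exact m201 R hT hb hc hy s1 s2 b1 h t1 t2
  · exact m212 R hT hb hc hy s1 s2 h b2 t1 t2

theorem m195 {s b t k G2 G3 : ℝ} (R : Reg s b t k G2 G3) (hT : t ≤ 284 / 1000 * s) (hb : s - t ≤ b) (hc : b ≤ s - t + 3 / 200) (hy : s - t ≤ 1 / 2)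
    (s1 : 131 / 250 ≤ s) (s2 : s ≤ 53 / 100)
    (b1 : 2297 / 5000 ≤ b) (b2 : b ≤ 37 / 80) (t1 : 53 / 625 ≤ t) (t2 : t ≤ 179 / 2000) :
    4 * ph (s - t) - 2 * ph s + 13 / 1000 ≤ G2 + G3 := by
  rcases le_total t (109 / 1250) with h | h
  · exact m196 R hT hb hc hy s1 s2 b1 b2 t1 h
  · exact m197 R hT hb hc hy s1 s2 b1 b2 h t2

theorem m193 {s b t k G2 G3 : ℝ} (R : Reg s b t k G2 G3) (hT : t ≤ 284 / 1000 * s) (hb : s - t ≤ b) (hc : b ≤ s - t + 3 / 200) (hy : s - t ≤ 1 / 2)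
    (s1 : 131 / 250 ≤ s) (s2 : s ≤ 53 / 100)
    (b1 : 4563 / 10000 ≤ b) (b2 : b ≤ 37 / 80) (t1 : 53 / 625 ≤ t) (t2 : t ≤ 179 / 2000) :
    4 * ph (s - t) - 2 * ph s + 13 / 1000 ≤ G2 + G3 := by
  rcases le_total b (2297 / 5000) with h | h
  · exact m194 R hT hb hc hy s1 s2 b1 h t1 t2
  · exact m195 R hT hb hc hy s1 s2 h b2 t1 t2

theorem m191 {s b t k G2 G3 : ℝ} (R : Reg s b t k G2 G3) (hT : t ≤ 284 / 1000 * s) (hb : s - t ≤ b) (hc : b ≤ s - t + 3 / 200) (hy : s - t ≤ 1 / 2)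
    (s1 : 5179 / 10000 ≤ s) (s2 : s ≤ 53 / 100)
    (b1 : 4563 / 10000 ≤ b) (b2 : b ≤ 37 / 80) (t1 : 53 / 625 ≤ t) (t2 : t ≤ 179 / 2000) :
    4 * ph (s - t) - 2 * ph s + 13 / 1000 ≤ G2 + G3 := by
  rcases le_total s (131 / 250) with h | h
  · exact m192 R hT hb hc hy s1 h b1 b2 t1 t2
  · exact m193 R hT hb hc hy h s2 b1 b2 t1 t2

theorem m190 {s b t k G2 G3 : ℝ} (R : Reg s b t k G2 G3) (hT : t ≤ 284 / 1000 * s) (hb : s - t ≤ b) (hc : b ≤ s - t + 3 / 200) (hy : s - t ≤ 1 / 2)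
    (s1 : 5179 / 10000 ≤ s) (s2 : s ≤ 53 / 100)
    (b1 : 4563 / 10000 ≤ b) (b2 : b ≤ 37 / 80) (t1 : 53 / 625 ≤ t) (t2 : t ≤ 471 / 5000) :
    4 * ph (s - t) - 2 * ph s + 13 / 1000 ≤ G2 + G3 := by
  rcases le_total t (179 / 2000) with h | h
  · exact m191 R hT hb hc hy s1 s2 b1 b2 t1 h
  · exact m198 R hT hb hc hy s1 s2 b1 b2 h t2

theorem m187 {s b t k G2 G3 : ℝ} (R : Reg s b t k G2 G3) (hT : t ≤ 284 / 1000 * s) (hb : s - t ≤ b) (hc : b ≤ s - t + 3 / 200) (hy : s - t ≤ 1 / 2)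
    (s1 : 5179 / 10000 ≤ s) (s2 : s ≤ 53 / 100)
    (b1 : 9 / 20 ≤ b) (b2 : b ≤ 4563 / 10000) (t1 : 53 / 625 ≤ t) (t2 : t ≤ 471 / 5000) :
    4 * ph (s - t) - 2 * ph s + 13 / 1000 ≤ G2 + G3 := by
  rcases le_total t (179 / 2000) with h | h
  · exact m188 R hT hb hc hy s1 s2 b1 b2 t1 h
  · exact m189 R hT hb hc hy s1 s2 b1 b2 h t2

theorem m186 {s b t k G2 G3 : ℝ} (R : Reg s b t k G2 G3) (hT : t ≤ 284 / 1000 * s) (hb : s - t ≤ b) (hc : b ≤ s - t + 3 / 200) (hy : s - t ≤ 1 / 2)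
    (s1 : 5179 / 10000 ≤ s) (s2 : s ≤ 53 / 100)
    (b1 : 9 / 20 ≤ b) (b2 : b ≤ 37 / 80) (t1 : 53 / 625 ≤ t) (t2 : t ≤ 471 / 5000) :
    4 * ph (s - t) - 2 * ph s + 13 / 1000 ≤ G2 + G3 := by
  rcases le_total b (4563 / 10000) with h | h
  · exact m187 R hT hb hc hy s1 s2 b1 h t1 t2
  · exact m190 R hT hb hc hy s1 s2 h b2 t1 t2

theorem m184 {s b t k G2 G3 : ℝ} (R : Reg s b t k G2 G3) (hT : t ≤ 284 / 1000 * s) (hb : s - t ≤ b) (hc : b ≤ s - t + 3 / 200) (hy : s - t ≤ 1 / 2)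
    (s1 : 2529 / 5000 ≤ s) (s2 : s ≤ 53 / 100)
    (b1 : 9 / 20 ≤ b) (b2 : b ≤ 37 / 80) (t1 : 53 / 625 ≤ t) (t2 : t ≤ 471 / 5000) :
    4 * ph (s - t) - 2 * ph s + 13 / 1000 ≤ G2 + G3 := by
  rcases le_total s (5179 / 10000) with h | h
  · exact m185 R hT hb hc hy s1 h b1 b2 t1 t2
  · exact m186 R hT hb hc hy h s2 b1 b2 t1 t2

theorem m183 {s b t k G2 G3 : ℝ} (R : Reg s b t k G2 G3) (hT : t ≤ 284 / 1000 * s) (hb : s - t ≤ b) (hc : b ≤ s - t + 3 / 200) (hy : s - t ≤ 1 / 2)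
    (s1 : 2529 / 5000 ≤ s) (s2 : s ≤ 53 / 100)
    (b1 : 9 / 20 ≤ b) (b2 : b ≤ 19 / 40) (t1 : 53 / 625 ≤ t) (t2 : t ≤ 471 / 5000) :
    4 * ph (s - t) - 2 * ph s + 13 / 1000 ≤ G2 + G3 := by
  rcases le_total b (37 / 80) with h | h
  · exact m184 R hT hb hc hy s1 s2 b1 h t1 t2
  · exact m199 R hT hb hc hy s1 s2 h b2 t1 t2

theorem m179 {s b t k G2 G3 : ℝ} (R : Reg s b t k G2 G3) (hT : t ≤ 284 / 1000 * s) (hb : s - t ≤ b) (hc : b ≤ s - t + 3 / 200) (hy : s - t ≤ 1 / 2)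
    (s1 : 5179 / 10000 ≤ s) (s2 : s ≤ 53 / 100)
    (b1 : 37 / 80 ≤ b) (b2 : b ≤ 293 / 625) (t1 : 801 / 10000 ≤ t) (t2 : t ≤ 53 / 625) :
    4 * ph (s - t) - 2 * ph s + 13 / 1000 ≤ G2 + G3 := by
  rcases le_total b (4657 / 10000) with h | h
  · exact m180 R hT hb hc hy s1 s2 b1 h t1 t2
  · exact m181 R hT hb hc hy s1 s2 h b2 t1 t2

theorem m178 {s b t k G2 G3 : ℝ} (R : Reg s b t k G2 G3) (hT : t ≤ 284 / 1000 * s) (hb : s - t ≤ b) (hc : b ≤ s - t + 3 / 200) (hy : s - t ≤ 1 / 2)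
    (s1 : 5179 / 10000 ≤ s) (s2 : s ≤ 53 / 100)
    (b1 : 37 / 80 ≤ b) (b2 : b ≤ 19 / 40) (t1 : 801 / 10000 ≤ t) (t2 : t ≤ 53 / 625) :
    4 * ph (s - t) - 2 * ph s + 13 / 1000 ≤ G2 + G3 := by
  rcases le_total b (293 / 625) with h | h
  · exact m179 R hT hb hc hy s1 s2 b1 h t1 t2
  · exact m182 R hT hb hc hy s1 s2 h b2 t1 t2

theorem m174 {s b t k G2 G3 : ℝ} (R : Reg s b t k G2 G3) (hT : t ≤ 284 / 1000 * s) (hb : s - t ≤ b) (hc : b ≤ s - t + 3 / 200) (hy : s - t ≤ 1 / 2)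
    (s1 : 5179 / 10000 ≤ s) (s2 : s ≤ 53 / 100)
    (b1 : 293 / 625 ≤ b) (b2 : b ≤ 4719 / 10000) (t1 : 753 / 10000 ≤ t) (t2 : t ≤ 801 / 10000) :
    4 * ph (s - t) - 2 * ph s + 13 / 1000 ≤ G2 + G3 := by
  rcases le_total t (777 / 10000) with h | h
  · exact m175 R hT hb hc hy s1 s2 b1 b2 t1 h
  · exact m176 R hT hb hc hy s1 s2 b1 b2 h t2

theorem m173 {s b t k G2 G3 : ℝ} (R : Reg s b t k G2 G3) (hT : t ≤ 284 / 1000 * s) (hb : s - t ≤ b) (hc : b ≤ s - t + 3 / 200) (hy : s - t ≤ 1 / 2)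
    (s1 : 5179 / 10000 ≤ s) (s2 : s ≤ 53 / 100)
    (b1 : 293 / 625 ≤ b) (b2 : b ≤ 19 / 40) (t1 : 753 / 10000 ≤ t) (t2 : t ≤ 801 / 10000) :
    4 * ph (s - t) - 2 * ph s + 13 / 1000 ≤ G2 + G3 := by
  rcases le_total b (4719 / 10000) with h | h
  · exact m174 R hT hb hc hy s1 s2 b1 h t1 t2
  · exact m177 R hT hb hc hy s1 s2 h b2 t1 t2

theorem m171 {s b t k G2 G3 : ℝ} (R : Reg s b t k G2 G3) (hT : t ≤ 284 / 1000 * s) (hb : s - t ≤ b) (hc : b ≤ s - t + 3 / 200) (hy : s - t ≤ 1 / 2)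
    (s1 : 5179 / 10000 ≤ s) (s2 : s ≤ 53 / 100)
    (b1 : 37 / 80 ≤ b) (b2 : b ≤ 19 / 40) (t1 : 753 / 10000 ≤ t) (t2 : t ≤ 801 / 10000) :
    4 * ph (s - t) - 2 * ph s + 13 / 1000 ≤ G2 + G3 := by
  rcases le_total b (293 / 625) with h | h
  · exact m172 R hT hb hc hy s1 s2 b1 h t1 t2
  · exact m173 R hT hb hc hy s1 s2 h b2 t1 t2

theorem m170 {s b t k G2 G3 : ℝ} (R : Reg s b t k G2 G3) (hT : t ≤ 284 / 1000 * s) (hb : s - t ≤ b) (hc : b ≤ s - t + 3 / 200) (hy : s - t ≤ 1 / 2)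
    (s1 : 5179 / 10000 ≤ s) (s2 : s ≤ 53 / 100)
    (b1 : 37 / 80 ≤ b) (b2 : b ≤ 19 / 40) (t1 : 753 / 10000 ≤ t) (t2 : t ≤ 53 / 625) :
    4 * ph (s - t) - 2 * ph s + 13 / 1000 ≤ G2 + G3 := by
  rcases le_total t (801 / 10000) with h | h
  · exact m171 R hT hb hc hy s1 s2 b1 b2 t1 h
  · exact m178 R hT hb hc hy s1 s2 b1 b2 h t2

theorem m168 {s b t k G2 G3 : ℝ} (R : Reg s b t k G2 G3) (hT : t ≤ 284 / 1000 * s) (hb : s - t ≤ b) (hc : b ≤ s - t + 3 / 200) (hy : s - t ≤ 1 / 2)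
    (s1 : 2529 / 5000 ≤ s) (s2 : s ≤ 53 / 100)
    (b1 : 37 / 80 ≤ b) (b2 : b ≤ 19 / 40) (t1 : 753 / 10000 ≤ t) (t2 : t ≤ 53 / 625) :
    4 * ph (s - t) - 2 * ph s + 13 / 1000 ≤ G2 + G3 := by
  rcases le_total s (5179 / 10000) with h | h
  · exact m169 R hT hb hc hy s1 h b1 b2 t1 t2
  · exact m170 R hT hb hc hy h s2 b1 b2 t1 t2

theorem m166 {s b t k G2 G3 : ℝ} (R : Reg s b t k G2 G3) (hT : t ≤ 284 / 1000 * s) (hb : s - t ≤ b) (hc : b ≤ s - t + 3 / 200) (hy : s - t ≤ 1 / 2)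
    (s1 : 2529 / 5000 ≤ s) (s2 : s ≤ 53 / 100)
    (b1 : 9 / 20 ≤ b) (b2 : b ≤ 19 / 40) (t1 : 753 / 10000 ≤ t) (t2 : t ≤ 53 / 625) :
    4 * ph (s - t) - 2 * ph s + 13 / 1000 ≤ G2 + G3 := by
  rcases le_total b (37 / 80) with h | h
  · exact m167 R hT hb hc hy s1 s2 b1 h t1 t2
  · exact m168 R hT hb hc hy s1 s2 h b2 t1 t2

theorem m165 {s b t k G2 G3 : ℝ} (R : Reg s b t k G2 G3) (hT : t ≤ 284 / 1000 * s) (hb : s - t ≤ b) (hc : b ≤ s - t + 3 / 200) (hy : s - t ≤ 1 / 2)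
    (s1 : 2529 / 5000 ≤ s) (s2 : s ≤ 53 / 100)
    (b1 : 9 / 20 ≤ b) (b2 : b ≤ 19 / 40) (t1 : 753 / 10000 ≤ t) (t2 : t ≤ 471 / 5000) :
    4 * ph (s - t) - 2 * ph s + 13 / 1000 ≤ G2 + G3 := by
  rcases le_total t (53 / 625) with h | h
  · exact m166 R hT hb hc hy s1 s2 b1 b2 t1 h
  · exact m183 R hT hb hc hy s1 s2 b1 b2 h t2

theorem m164 {s b t k G2 G3 : ℝ} (R : Reg s b t k G2 G3) (hT : t ≤ 284 / 1000 * s) (hb : s - t ≤ b) (hc : b ≤ s - t + 3 / 200) (hy : s - t ≤ 1 / 2)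
    (s1 : 2529 / 5000 ≤ s) (s2 : s ≤ 53 / 100)
    (b1 : 9 / 20 ≤ b) (b2 : b ≤ 19 / 40) (t1 : 753 / 10000 ≤ t) (t2 : t ≤ 113 / 1000) :
    4 * ph (s - t) - 2 * ph s + 13 / 1000 ≤ G2 + G3 := by
  rcases le_total t (471 / 5000) with h | h
  · exact m165 R hT hb hc hy s1 s2 b1 b2 t1 h
  · exact m200 R hT hb hc hy s1 s2 b1 b2 h t2

theorem m162 {s b t k G2 G3 : ℝ} (R : Reg s b t k G2 G3) (hT : t ≤ 284 / 1000 * s) (hb : s - t ≤ b) (hc : b ≤ s - t + 3 / 200) (hy : s - t ≤ 1 / 2)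
    (s1 : 963 / 2000 ≤ s) (s2 : s ≤ 53 / 100)
    (b1 : 9 / 20 ≤ b) (b2 : b ≤ 19 / 40) (t1 : 753 / 10000 ≤ t) (t2 : t ≤ 113 / 1000) :
    4 * ph (s - t) - 2 * ph s + 13 / 1000 ≤ G2 + G3 := by
  rcases le_total s (2529 / 5000) with h | h
  · exact m163 R hT hb hc hy s1 h b1 b2 t1 t2
  · exact m164 R hT hb hc hy h s2 b1 b2 t1 t2

theorem m161 {s b t k G2 G3 : ℝ} (R : Reg s b t k G2 G3) (hT : t ≤ 284 / 1000 * s) (hb : s - t ≤ b) (hc : b ≤ s - t + 3 / 200) (hy : s - t ≤ 1 / 2)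
    (s1 : 963 / 2000 ≤ s) (s2 : s ≤ 53 / 100)
    (b1 : 9 / 20 ≤ b) (b2 : b ≤ 1 / 2) (t1 : 753 / 10000 ≤ t) (t2 : t ≤ 113 / 1000) :
    4 * ph (s - t) - 2 * ph s + 13 / 1000 ≤ G2 + G3 := by
  rcases le_total b (19 / 40) with h | h
  · exact m162 R hT hb hc hy s1 s2 b1 h t1 t2
  · exact m213 R hT hb hc hy s1 s2 h b2 t1 t2

theorem m156 {s b t k G2 G3 : ℝ} (R : Reg s b t k G2 G3) (hT : t ≤ 284 / 1000 * s) (hb : s - t ≤ b) (hc : b ≤ s - t + 3 / 200) (hy : s - t ≤ 1 / 2)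
    (s1 : 2529 / 5000 ≤ s) (s2 : s ≤ 53 / 100)
    (b1 : 7 / 16 ≤ b) (b2 : b ≤ 2219 / 5000) (t1 : 259 / 2500 ≤ t) (t2 : t ≤ 1083 / 10000) :
    4 * ph (s - t) - 2 * ph s + 13 / 1000 ≤ G2 + G3 := by
  rcases le_total s (5179 / 10000) with h | h
  · exact m157 R hT hb hc hy s1 h b1 b2 t1 t2
  · exact m158 R hT hb hc hy h s2 b1 b2 t1 t2

theorem m155 {s b t k G2 G3 : ℝ} (R : Reg s b t k G2 G3) (hT : t ≤ 284 / 1000 * s) (hb : s - t ≤ b) (hc : b ≤ s - t + 3 / 200) (hy : s - t ≤ 1 / 2)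
    (s1 : 2529 / 5000 ≤ s) (s2 : s ≤ 53 / 100)
    (b1 : 7 / 16 ≤ b) (b2 : b ≤ 2219 / 5000) (t1 : 259 / 2500 ≤ t) (t2 : t ≤ 113 / 1000) :
    4 * ph (s - t) - 2 * ph s + 13 / 1000 ≤ G2 + G3 := by
  rcases le_total t (1083 / 10000) with h | h
  · exact m156 R hT hb hc hy s1 s2 b1 b2 t1 h
  · exact m159 R hT hb hc hy s1 s2 b1 b2 h t2

theorem m154 {s b t k G2 G3 : ℝ} (R : Reg s b t k G2 G3) (hT : t ≤ 284 / 1000 * s) (hb : s - t ≤ b) (hc : b ≤ s - t + 3 / 200) (hy : s - t ≤ 1 / 2)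
    (s1 : 2529 / 5000 ≤ s) (s2 : s ≤ 53 / 100)
    (b1 : 7 / 16 ≤ b) (b2 : b ≤ 9 / 20) (t1 : 259 / 2500 ≤ t) (t2 : t ≤ 113 / 1000) :
    4 * ph (s - t) - 2 * ph s + 13 / 1000 ≤ G2 + G3 := by
  rcases le_total b (2219 / 5000) with h | h
  · exact m155 R hT hb hc hy s1 s2 b1 h t1 t2
  · exact m160 R hT hb hc hy s1 s2 h b2 t1 t2

theorem m152 {s b t k G2 G3 : ℝ} (R : Reg s b t k G2 G3) (hT : t ≤ 284 / 1000 * s) (hb : s - t ≤ b) (hc : b ≤ s - t + 3 / 200) (hy : s - t ≤ 1 / 2)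
    (s1 : 2529 / 5000 ≤ s) (s2 : s ≤ 53 / 100)
    (b1 : 17 / 40 ≤ b) (b2 : b ≤ 9 / 20) (t1 : 259 / 2500 ≤ t) (t2 : t ≤ 113 / 1000) :
    4 * ph (s - t) - 2 * ph s + 13 / 1000 ≤ G2 + G3 := by
  rcases le_total b (7 / 16) with h | h
  · exact m153 R hT hb hc hy s1 s2 b1 h t1 t2
  · exact m154 R hT hb hc hy s1 s2 h b2 t1 t2

theorem m150 {s b t k G2 G3 : ℝ} (R : Reg s b t k G2 G3) (hT : t ≤ 284 / 1000 * s) (hb : s - t ≤ b) (hc : b ≤ s - t + 3 / 200) (hy : s - t ≤ 1 / 2)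
    (s1 : 963 / 2000 ≤ s) (s2 : s ≤ 53 / 100)
    (b1 : 17 / 40 ≤ b) (b2 : b ≤ 9 / 20) (t1 : 259 / 2500 ≤ t) (t2 : t ≤ 113 / 1000) :
    4 * ph (s - t) - 2 * ph s + 13 / 1000 ≤ G2 + G3 := by
  rcases le_total s (2529 / 5000) with h | h
  · exact m151 R hT hb hc hy s1 h b1 b2 t1 t2
  · exact m152 R hT hb hc hy h s2 b1 b2 t1 t2

theorem m147 {s b t k G2 G3 : ℝ} (R : Reg s b t k G2 G3) (hT : t ≤ 284 / 1000 * s) (hb : s - t ≤ b) (hc : b ≤ s - t + 3 / 200) (hy : s - t ≤ 1 / 2)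
    (s1 : 5179 / 10000 ≤ s) (s2 : s ≤ 53 / 100)
    (b1 : 2219 / 5000 ≤ b) (b2 : b ≤ 9 / 20) (t1 : 989 / 10000 ≤ t) (t2 : t ≤ 259 / 2500) :
    4 * ph (s - t) - 2 * ph s + 13 / 1000 ≤ G2 + G3 := by
  rcases le_total b (4469 / 10000) with h | h
  · exact m148 R hT hb hc hy s1 s2 b1 h t1 t2
  · exact m149 R hT hb hc hy s1 s2 h b2 t1 t2

theorem m145 {s b t k G2 G3 : ℝ} (R : Reg s b t k G2 G3) (hT : t ≤ 284 / 1000 * s) (hb : s - t ≤ b) (hc : b ≤ s - t + 3 / 200) (hy : s - t ≤ 1 / 2)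
    (s1 : 5179 / 10000 ≤ s) (s2 : s ≤ 53 / 100)
    (b1 : 7 / 16 ≤ b) (b2 : b ≤ 9 / 20) (t1 : 989 / 10000 ≤ t) (t2 : t ≤ 259 / 2500) :
    4 * ph (s - t) - 2 * ph s + 13 / 1000 ≤ G2 + G3 := by
  rcases le_total b (2219 / 5000) with h | h
  · exact m146 R hT hb hc hy s1 s2 b1 h t1 t2
  · exact m147 R hT hb hc hy s1 s2 h b2 t1 t2

theorem m143 {s b t k G2 G3 : ℝ} (R : Reg s b t k G2 G3) (hT : t ≤ 284 / 1000 * s) (hb : s - t ≤ b) (hc : b ≤ s - t + 3 / 200) (hy : s - t ≤ 1 / 2)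
    (s1 : 2529 / 5000 ≤ s) (s2 : s ≤ 53 / 100)
    (b1 : 7 / 16 ≤ b) (b2 : b ≤ 9 / 20) (t1 : 989 / 10000 ≤ t) (t2 : t ≤ 259 / 2500) :
    4 * ph (s - t) - 2 * ph s + 13 / 1000 ≤ G2 + G3 := by
  rcases le_total s (5179 / 10000) with h | h
  · exact m144 R hT hb hc hy s1 h b1 b2 t1 t2
  · exact m145 R hT hb hc hy h s2 b1 b2 t1 t2

theorem m141 {s b t k G2 G3 : ℝ} (R : Reg s b t k G2 G3) (hT : t ≤ 284 / 1000 * s) (hb : s - t ≤ b) (hc : b ≤ s - t + 3 / 200) (hy : s - t ≤ 1 / 2)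
    (s1 : 2529 / 5000 ≤ s) (s2 : s ≤ 53 / 100)
    (b1 : 7 / 16 ≤ b) (b2 : b ≤ 9 / 20) (t1 : 471 / 5000 ≤ t) (t2 : t ≤ 259 / 2500) :
    4 * ph (s - t) - 2 * ph s + 13 / 1000 ≤ G2 + G3 := by
  rcases le_total t (989 / 10000) with h | h
  · exact m142 R hT hb hc hy s1 s2 b1 b2 t1 h
  · exact m143 R hT hb hc hy s1 s2 b1 b2 h t2

theorem m139 {s b t k G2 G3 : ℝ} (R : Reg s b t k G2 G3) (hT : t ≤ 284 / 1000 * s) (hb : s - t ≤ b) (hc : b ≤ s - t + 3 / 200) (hy : s - t ≤ 1 / 2)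
    (s1 : 2529 / 5000 ≤ s) (s2 : s ≤ 53 / 100)
    (b1 : 17 / 40 ≤ b) (b2 : b ≤ 9 / 20) (t1 : 471 / 5000 ≤ t) (t2 : t ≤ 259 / 2500) :
    4 * ph (s - t) - 2 * ph s + 13 / 1000 ≤ G2 + G3 := by
  rcases le_total b (7 / 16) with h | h
  · exact m140 R hT hb hc hy s1 s2 b1 h t1 t2
  · exact m141 R hT hb hc hy s1 s2 h b2 t1 t2

theorem m136 {s b t k G2 G3 : ℝ} (R : Reg s b t k G2 G3) (hT : t ≤ 284 / 1000 * s) (hb : s - t ≤ b) (hc : b ≤ s - t + 3 / 200) (hy : s - t ≤ 1 / 2)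
    (s1 : 963 / 2000 ≤ s) (s2 : s ≤ 2529 / 5000)
    (b1 : 17 / 40 ≤ b) (b2 : b ≤ 9 / 20) (t1 : 471 / 5000 ≤ t) (t2 : t ≤ 259 / 2500) :
    4 * ph (s - t) - 2 * ph s + 13 / 1000 ≤ G2 + G3 := by
  rcases le_total b (7 / 16) with h | h
  · exact m137 R hT hb hc hy s1 s2 b1 h t1 t2
  · exact m138 R hT hb hc hy s1 s2 h b2 t1 t2

theorem m135 {s b t k G2 G3 : ℝ} (R : Reg s b t k G2 G3) (hT : t ≤ 284 / 1000 * s) (hb : s - t ≤ b) (hc : b ≤ s - t + 3 / 200) (hy : s - t ≤ 1 / 2)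
    (s1 : 963 / 2000 ≤ s) (s2 : s ≤ 53 / 100)
    (b1 : 17 / 40 ≤ b) (b2 : b ≤ 9 / 20) (t1 : 471 / 5000 ≤ t) (t2 : t ≤ 259 / 2500) :
    4 * ph (s - t) - 2 * ph s + 13 / 1000 ≤ G2 + G3 := by
  rcases le_total s (2529 / 5000) with h | h
  · exact m136 R hT hb hc hy s1 h b1 b2 t1 t2
  · exact m139 R hT hb hc hy h s2 b1 b2 t1 t2

theorem m134 {s b t k G2 G3 : ℝ} (R : Reg s b t k G2 G3) (hT : t ≤ 284 / 1000 * s) (hb : s - t ≤ b) (hc : b ≤ s - t + 3 / 200) (hy : s - t ≤ 1 / 2)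
    (s1 : 963 / 2000 ≤ s) (s2 : s ≤ 53 / 100)
    (b1 : 17 / 40 ≤ b) (b2 : b ≤ 9 / 20) (t1 : 471 / 5000 ≤ t) (t2 : t ≤ 113 / 1000) :
    4 * ph (s - t) - 2 * ph s + 13 / 1000 ≤ G2 + G3 := by
  rcases le_total t (259 / 2500) with h | h
  · exact m135 R hT hb hc hy s1 s2 b1 b2 t1 h
  · exact m150 R hT hb hc hy s1 s2 b1 b2 h t2

theorem m132 {s b t k G2 G3 : ℝ} (R : Reg s b t k G2 G3) (hT : t ≤ 284 / 1000 * s) (hb : s - t ≤ b) (hc : b ≤ s - t + 3 / 200) (hy : s - t ≤ 1 / 2)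
    (s1 : 963 / 2000 ≤ s) (s2 : s ≤ 53 / 100)
    (b1 : 2 / 5 ≤ b) (b2 : b ≤ 9 / 20) (t1 : 471 / 5000 ≤ t) (t2 : t ≤ 113 / 1000) :
    4 * ph (s - t) - 2 * ph s + 13 / 1000 ≤ G2 + G3 := by
  rcases le_total b (17 / 40) with h | h
  · exact m133 R hT hb hc hy s1 s2 b1 h t1 t2
  · exact m134 R hT hb hc hy s1 s2 h b2 t1 t2

theorem m129 {s b t k G2 G3 : ℝ} (R : Reg s b t k G2 G3) (hT : t ≤ 284 / 1000 * s) (hb : s - t ≤ b) (hc : b ≤ s - t + 3 / 200) (hy : s - t ≤ 1 / 2)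
    (s1 : 963 / 2000 ≤ s) (s2 : s ≤ 53 / 100)
    (b1 : 17 / 40 ≤ b) (b2 : b ≤ 9 / 20) (t1 : 53 / 625 ≤ t) (t2 : t ≤ 471 / 5000) :
    4 * ph (s - t) - 2 * ph s + 13 / 1000 ≤ G2 + G3 := by
  rcases le_total s (2529 / 5000) with h | h
  · exact m130 R hT hb hc hy s1 h b1 b2 t1 t2
  · exact m131 R hT hb hc hy h s2 b1 b2 t1 t2

theorem m127 {s b t k G2 G3 : ℝ} (R : Reg s b t k G2 G3) (hT : t ≤ 284 / 1000 * s) (hb : s - t ≤ b) (hc : b ≤ s - t + 3 / 200) (hy : s - t ≤ 1 / 2)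
    (s1 : 963 / 2000 ≤ s) (s2 : s ≤ 53 / 100)
    (b1 : 17 / 40 ≤ b) (b2 : b ≤ 9 / 20) (t1 : 753 / 10000 ≤ t) (t2 : t ≤ 471 / 5000) :
    4 * ph (s - t) - 2 * ph s + 13 / 1000 ≤ G2 + G3 := by
  rcases le_total t (53 / 625) with h | h
  · exact m128 R hT hb hc hy s1 s2 b1 b2 t1 h
  · exact m129 R hT hb hc hy s1 s2 b1 b2 h t2

theorem m125 {s b t k G2 G3 : ℝ} (R : Reg s b t k G2 G3) (hT : t ≤ 284 / 1000 * s) (hb : s - t ≤ b) (hc : b ≤ s - t + 3 / 200) (hy : s - t ≤ 1 / 2)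
    (s1 : 963 / 2000 ≤ s) (s2 : s ≤ 53 / 100)
    (b1 : 2 / 5 ≤ b) (b2 : b ≤ 9 / 20) (t1 : 753 / 10000 ≤ t) (t2 : t ≤ 471 / 5000) :
    4 * ph (s - t) - 2 * ph s + 13 / 1000 ≤ G2 + G3 := by
  rcases le_total b (17 / 40) with h | h
  · exact m126 R hT hb hc hy s1 s2 b1 h t1 t2
  · exact m127 R hT hb hc hy s1 s2 h b2 t1 t2

theorem m124 {s b t k G2 G3 : ℝ} (R : Reg s b t k G2 G3) (hT : t ≤ 284 / 1000 * s) (hb : s - t ≤ b) (hc : b ≤ s - t + 3 / 200) (hy : s - t ≤ 1 / 2)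
    (s1 : 963 / 2000 ≤ s) (s2 : s ≤ 53 / 100)
    (b1 : 2 / 5 ≤ b) (b2 : b ≤ 9 / 20) (t1 : 753 / 10000 ≤ t) (t2 : t ≤ 113 / 1000) :
    4 * ph (s - t) - 2 * ph s + 13 / 1000 ≤ G2 + G3 := by
  rcases le_total t (471 / 5000) with h | h
  · exact m125 R hT hb hc hy s1 s2 b1 b2 t1 h
  · exact m132 R hT hb hc hy s1 s2 b1 b2 h t2

theorem m123 {s b t k G2 G3 : ℝ} (R : Reg s b t k G2 G3) (hT : t ≤ 284 / 1000 * s) (hb : s - t ≤ b) (hc : b ≤ s - t + 3 / 200) (hy : s - t ≤ 1 / 2)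
    (s1 : 963 / 2000 ≤ s) (s2 : s ≤ 53 / 100)
    (b1 : 2 / 5 ≤ b) (b2 : b ≤ 1 / 2) (t1 : 753 / 10000 ≤ t) (t2 : t ≤ 113 / 1000) :
    4 * ph (s - t) - 2 * ph s + 13 / 1000 ≤ G2 + G3 := by
  rcases le_total b (9 / 20) with h | h
  · exact m124 R hT hb hc hy s1 s2 b1 h t1 t2
  · exact m161 R hT hb hc hy s1 s2 h b2 t1 t2

theorem m122 {s b t k G2 G3 : ℝ} (R : Reg s b t k G2 G3) (hT : t ≤ 284 / 1000 * s) (hb : s - t ≤ b) (hc : b ≤ s - t + 3 / 200) (hy : s - t ≤ 1 / 2)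
    (s1 : 963 / 2000 ≤ s) (s2 : s ≤ 53 / 100)
    (b1 : 2 / 5 ≤ b) (b2 : b ≤ 1 / 2) (t1 : 753 / 10000 ≤ t) (t2 : t ≤ 753 / 5000) :
    4 * ph (s - t) - 2 * ph s + 13 / 1000 ≤ G2 + G3 := by
  rcases le_total t (113 / 1000) with h | h
  · exact m123 R hT hb hc hy s1 s2 b1 b2 t1 h
  · exact m214 R hT hb hc hy s1 s2 b1 b2 h t2

theorem m117 {s b t k G2 G3 : ℝ} (R : Reg s b t k G2 G3) (hT : t ≤ 284 / 1000 * s) (hb : s - t ≤ b) (hc : b ≤ s - t + 3 / 200) (hy : s - t ≤ 1 / 2)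
    (s1 : 2529 / 5000 ≤ s) (s2 : s ≤ 53 / 100)
    (b1 : 19 / 40 ≤ b) (b2 : b ≤ 39 / 80) (t1 : 659 / 10000 ≤ t) (t2 : t ≤ 353 / 5000) :
    4 * ph (s - t) - 2 * ph s + 13 / 1000 ≤ G2 + G3 := by
  rcases le_total b (4813 / 10000) with h | h
  · exact m118 R hT hb hc hy s1 s2 b1 h t1 t2
  · exact m119 R hT hb hc hy s1 s2 h b2 t1 t2

theorem m116 {s b t k G2 G3 : ℝ} (R : Reg s b t k G2 G3) (hT : t ≤ 284 / 1000 * s) (hb : s - t ≤ b) (hc : b ≤ s - t + 3 / 200) (hy : s - t ≤ 1 / 2)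
    (s1 : 2529 / 5000 ≤ s) (s2 : s ≤ 53 / 100)
    (b1 : 19 / 40 ≤ b) (b2 : b ≤ 39 / 80) (t1 : 659 / 10000 ≤ t) (t2 : t ≤ 753 / 10000) :
    4 * ph (s - t) - 2 * ph s + 13 / 1000 ≤ G2 + G3 := by
  rcases le_total t (353 / 5000) with h | h
  · exact m117 R hT hb hc hy s1 s2 b1 b2 t1 h
  · exact m120 R hT hb hc hy s1 s2 b1 b2 h t2

theorem m115 {s b t k G2 G3 : ℝ} (R : Reg s b t k G2 G3) (hT : t ≤ 284 / 1000 * s) (hb : s - t ≤ b) (hc : b ≤ s - t + 3 / 200) (hy : s - t ≤ 1 / 2)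
    (s1 : 2529 / 5000 ≤ s) (s2 : s ≤ 53 / 100)
    (b1 : 19 / 40 ≤ b) (b2 : b ≤ 1 / 2) (t1 : 659 / 10000 ≤ t) (t2 : t ≤ 753 / 10000) :
    4 * ph (s - t) - 2 * ph s + 13 / 1000 ≤ G2 + G3 := by
  rcases le_total b (39 / 80) with h | h
  · exact m116 R hT hb hc hy s1 s2 b1 h t1 t2
  · exact m121 R hT hb hc hy s1 s2 h b2 t1 t2

theorem m111 {s b t k G2 G3 : ℝ} (R : Reg s b t k G2 G3) (hT : t ≤ 284 / 1000 * s) (hb : s - t ≤ b) (hc : b ≤ s - t + 3 / 200) (hy : s - t ≤ 1 / 2)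
    (s1 : 2529 / 5000 ≤ s) (s2 : s ≤ 53 / 100)
    (b1 : 39 / 80 ≤ b) (b2 : b ≤ 1 / 2) (t1 : 113 / 2000 ≤ t) (t2 : t ≤ 153 / 2500) :
    4 * ph (s - t) - 2 * ph s + 13 / 1000 ≤ G2 + G3 := by
  rcases le_total b (2469 / 5000) with h | h
  · exact m112 R hT hb hc hy s1 s2 b1 h t1 t2
  · exact m113 R hT hb hc hy s1 s2 h b2 t1 t2

theorem m110 {s b t k G2 G3 : ℝ} (R : Reg s b t k G2 G3) (hT : t ≤ 284 / 1000 * s) (hb : s - t ≤ b) (hc : b ≤ s - t + 3 / 200) (hy : s - t ≤ 1 / 2)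
    (s1 : 2529 / 5000 ≤ s) (s2 : s ≤ 53 / 100)
    (b1 : 39 / 80 ≤ b) (b2 : b ≤ 1 / 2) (t1 : 113 / 2000 ≤ t) (t2 : t ≤ 659 / 10000) :
    4 * ph (s - t) - 2 * ph s + 13 / 1000 ≤ G2 + G3 := by
  rcases le_total t (153 / 2500) with h | h
  · exact m111 R hT hb hc hy s1 s2 b1 b2 t1 h
  · exact m114 R hT hb hc hy s1 s2 b1 b2 h t2

theorem m107 {s b t k G2 G3 : ℝ} (R : Reg s b t k G2 G3) (hT : t ≤ 284 / 1000 * s) (hb : s - t ≤ b) (hc : b ≤ s - t + 3 / 200) (hy : s - t ≤ 1 / 2)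
    (s1 : 2529 / 5000 ≤ s) (s2 : s ≤ 53 / 100)
    (b1 : 19 / 40 ≤ b) (b2 : b ≤ 39 / 80) (t1 : 113 / 2000 ≤ t) (t2 : t ≤ 659 / 10000) :
    4 * ph (s - t) - 2 * ph s + 13 / 1000 ≤ G2 + G3 := by
  rcases le_total t (153 / 2500) with h | h
  · exact m108 R hT hb hc hy s1 s2 b1 b2 t1 h
  · exact m109 R hT hb hc hy s1 s2 b1 b2 h t2

theorem m106 {s b t k G2 G3 : ℝ} (R : Reg s b t k G2 G3) (hT : t ≤ 284 / 1000 * s) (hb : s - t ≤ b) (hc : b ≤ s - t + 3 / 200) (hy : s - t ≤ 1 / 2)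
    (s1 : 2529 / 5000 ≤ s) (s2 : s ≤ 53 / 100)
    (b1 : 19 / 40 ≤ b) (b2 : b ≤ 1 / 2) (t1 : 113 / 2000 ≤ t) (t2 : t ≤ 659 / 10000) :
    4 * ph (s - t) - 2 * ph s + 13 / 1000 ≤ G2 + G3 := by
  rcases le_total b (39 / 80) with h | h
  · exact m107 R hT hb hc hy s1 s2 b1 h t1 t2
  · exact m110 R hT hb hc hy s1 s2 h b2 t1 t2

theorem m105 {s b t k G2 G3 : ℝ} (R : Reg s b t k G2 G3) (hT : t ≤ 284 / 1000 * s) (hb : s - t ≤ b) (hc : b ≤ s - t + 3 / 200) (hy : s - t ≤ 1 / 2)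
    (s1 : 2529 / 5000 ≤ s) (s2 : s ≤ 53 / 100)
    (b1 : 19 / 40 ≤ b) (b2 : b ≤ 1 / 2) (t1 : 113 / 2000 ≤ t) (t2 : t ≤ 753 / 10000) :
    4 * ph (s - t) - 2 * ph s + 13 / 1000 ≤ G2 + G3 := by
  rcases le_total t (659 / 10000) with h | h
  · exact m106 R hT hb hc hy s1 s2 b1 b2 t1 h
  · exact m115 R hT hb hc hy s1 s2 b1 b2 h t2

theorem m103 {s b t k G2 G3 : ℝ} (R : Reg s b t k G2 G3) (hT : t ≤ 284 / 1000 * s) (hb : s - t ≤ b) (hc : b ≤ s - t + 3 / 200) (hy : s - t ≤ 1 / 2)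
    (s1 : 963 / 2000 ≤ s) (s2 : s ≤ 53 / 100)
    (b1 : 19 / 40 ≤ b) (b2 : b ≤ 1 / 2) (t1 : 113 / 2000 ≤ t) (t2 : t ≤ 753 / 10000) :
    4 * ph (s - t) - 2 * ph s + 13 / 1000 ≤ G2 + G3 := by
  rcases le_total s (2529 / 5000) with h | h
  · exact m104 R hT hb hc hy s1 h b1 b2 t1 t2
  · exact m105 R hT hb hc hy h s2 b1 b2 t1 t2

theorem m100 {s b t k G2 G3 : ℝ} (R : Reg s b t k G2 G3) (hT : t ≤ 284 / 1000 * s) (hb : s - t ≤ b) (hc : b ≤ s - t + 3 / 200) (hy : s - t ≤ 1 / 2)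
    (s1 : 2529 / 5000 ≤ s) (s2 : s ≤ 53 / 100)
    (b1 : 37 / 80 ≤ b) (b2 : b ≤ 19 / 40) (t1 : 659 / 10000 ≤ t) (t2 : t ≤ 753 / 10000) :
    4 * ph (s - t) - 2 * ph s + 13 / 1000 ≤ G2 + G3 := by
  rcases le_total t (353 / 5000) with h | h
  · exact m101 R hT hb hc hy s1 s2 b1 b2 t1 h
  · exact m102 R hT hb hc hy s1 s2 b1 b2 h t2

theorem m98 {s b t k G2 G3 : ℝ} (R : Reg s b t k G2 G3) (hT : t ≤ 284 / 1000 * s) (hb : s - t ≤ b) (hc : b ≤ s - t + 3 / 200) (hy : s - t ≤ 1 / 2)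
    (s1 : 2529 / 5000 ≤ s) (s2 : s ≤ 53 / 100)
    (b1 : 9 / 20 ≤ b) (b2 : b ≤ 19 / 40) (t1 : 659 / 10000 ≤ t) (t2 : t ≤ 753 / 10000) :
    4 * ph (s - t) - 2 * ph s + 13 / 1000 ≤ G2 + G3 := by
  rcases le_total b (37 / 80) with h | h
  · exact m99 R hT hb hc hy s1 s2 b1 h t1 t2
  · exact m100 R hT hb hc hy s1 s2 h b2 t1 t2

theorem m96 {s b t k G2 G3 : ℝ} (R : Reg s b t k G2 G3) (hT : t ≤ 284 / 1000 * s) (hb : s - t ≤ b) (hc : b ≤ s - t + 3 / 200) (hy : s - t ≤ 1 / 2)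
    (s1 : 963 / 2000 ≤ s) (s2 : s ≤ 53 / 100)
    (b1 : 9 / 20 ≤ b) (b2 : b ≤ 19 / 40) (t1 : 659 / 10000 ≤ t) (t2 : t ≤ 753 / 10000) :
    4 * ph (s - t) - 2 * ph s + 13 / 1000 ≤ G2 + G3 := by
  rcases le_total s (2529 / 5000) with h | h
  · exact m97 R hT hb hc hy s1 h b1 b2 t1 t2
  · exact m98 R hT hb hc hy h s2 b1 b2 t1 t2

theorem m94 {s b t k G2 G3 : ℝ} (R : Reg s b t k G2 G3) (hT : t ≤ 284 / 1000 * s) (hb : s - t ≤ b) (hc : b ≤ s - t + 3 / 200) (hy : s - t ≤ 1 / 2)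
    (s1 : 963 / 2000 ≤ s) (s2 : s ≤ 53 / 100)
    (b1 : 9 / 20 ≤ b) (b2 : b ≤ 19 / 40) (t1 : 113 / 2000 ≤ t) (t2 : t ≤ 753 / 10000) :
    4 * ph (s - t) - 2 * ph s + 13 / 1000 ≤ G2 + G3 := by
  rcases le_total t (659 / 10000) with h | h
  · exact m95 R hT hb hc hy s1 s2 b1 b2 t1 h
  · exact m96 R hT hb hc hy s1 s2 b1 b2 h t2

theorem m93 {s b t k G2 G3 : ℝ} (R : Reg s b t k G2 G3) (hT : t ≤ 284 / 1000 * s) (hb : s - t ≤ b) (hc : b ≤ s - t + 3 / 200) (hy : s - t ≤ 1 / 2)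
    (s1 : 963 / 2000 ≤ s) (s2 : s ≤ 53 / 100)
    (b1 : 9 / 20 ≤ b) (b2 : b ≤ 1 / 2) (t1 : 113 / 2000 ≤ t) (t2 : t ≤ 753 / 10000) :
    4 * ph (s - t) - 2 * ph s + 13 / 1000 ≤ G2 + G3 := by
  rcases le_total b (19 / 40) with h | h
  · exact m94 R hT hb hc hy s1 s2 b1 h t1 t2
  · exact m103 R hT hb hc hy s1 s2 h b2 t1 t2

theorem m90 {s b t k G2 G3 : ℝ} (R : Reg s b t k G2 G3) (hT : t ≤ 284 / 1000 * s) (hb : s - t ≤ b) (hc : b ≤ s - t + 3 / 200) (hy : s - t ≤ 1 / 2)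
    (s1 : 963 / 2000 ≤ s) (s2 : s ≤ 53 / 100)
    (b1 : 19 / 40 ≤ b) (b2 : b ≤ 1 / 2) (t1 : 471 / 10000 ≤ t) (t2 : t ≤ 113 / 2000) :
    4 * ph (s - t) - 2 * ph s + 13 / 1000 ≤ G2 + G3 := by
  rcases le_total s (2529 / 5000) with h | h
  · exact m91 R hT hb hc hy s1 h b1 b2 t1 t2
  · exact m92 R hT hb hc hy h s2 b1 b2 t1 t2

theorem m88 {s b t k G2 G3 : ℝ} (R : Reg s b t k G2 G3) (hT : t ≤ 284 / 1000 * s) (hb : s - t ≤ b) (hc : b ≤ s - t + 3 / 200) (hy : s - t ≤ 1 / 2)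
    (s1 : 963 / 2000 ≤ s) (s2 : s ≤ 53 / 100)
    (b1 : 19 / 40 ≤ b) (b2 : b ≤ 1 / 2) (t1 : 377 / 10000 ≤ t) (t2 : t ≤ 113 / 2000) :
    4 * ph (s - t) - 2 * ph s + 13 / 1000 ≤ G2 + G3 := by
  rcases le_total t (471 / 10000) with h | h
  · exact m89 R hT hb hc hy s1 s2 b1 b2 t1 h
  · exact m90 R hT hb hc hy s1 s2 b1 b2 h t2

theorem m86 {s b t k G2 G3 : ℝ} (R : Reg s b t k G2 G3) (hT : t ≤ 284 / 1000 * s) (hb : s - t ≤ b) (hc : b ≤ s - t + 3 / 200) (hy : s - t ≤ 1 / 2)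
    (s1 : 963 / 2000 ≤ s) (s2 : s ≤ 53 / 100)
    (b1 : 9 / 20 ≤ b) (b2 : b ≤ 1 / 2) (t1 : 377 / 10000 ≤ t) (t2 : t ≤ 113 / 2000) :
    4 * ph (s - t) - 2 * ph s + 13 / 1000 ≤ G2 + G3 := by
  rcases le_total b (19 / 40) with h | h
  · exact m87 R hT hb hc hy s1 s2 b1 h t1 t2
  · exact m88 R hT hb hc hy s1 s2 h b2 t1 t2

theorem m85 {s b t k G2 G3 : ℝ} (R : Reg s b t k G2 G3) (hT : t ≤ 284 / 1000 * s) (hb : s - t ≤ b) (hc : b ≤ s - t + 3 / 200) (hy : s - t ≤ 1 / 2)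
    (s1 : 963 / 2000 ≤ s) (s2 : s ≤ 53 / 100)
    (b1 : 9 / 20 ≤ b) (b2 : b ≤ 1 / 2) (t1 : 377 / 10000 ≤ t) (t2 : t ≤ 753 / 10000) :
    4 * ph (s - t) - 2 * ph s + 13 / 1000 ≤ G2 + G3 := by
  rcases le_total t (113 / 2000) with h | h
  · exact m86 R hT hb hc hy s1 s2 b1 b2 t1 h
  · exact m93 R hT hb hc hy s1 s2 b1 b2 h t2

theorem m83 {s b t k G2 G3 : ℝ} (R : Reg s b t k G2 G3) (hT : t ≤ 284 / 1000 * s) (hb : s - t ≤ b) (hc : b ≤ s - t + 3 / 200) (hy : s - t ≤ 1 / 2)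
    (s1 : 963 / 2000 ≤ s) (s2 : s ≤ 53 / 100)
    (b1 : 2 / 5 ≤ b) (b2 : b ≤ 1 / 2) (t1 : 377 / 10000 ≤ t) (t2 : t ≤ 753 / 10000) :
    4 * ph (s - t) - 2 * ph s + 13 / 1000 ≤ G2 + G3 := by
  rcases le_total b (9 / 20) with h | h
  · exact m84 R hT hb hc hy s1 s2 b1 h t1 t2
  · exact m85 R hT hb hc hy s1 s2 h b2 t1 t2

theorem m81 {s b t k G2 G3 : ℝ} (R : Reg s b t k G2 G3) (hT : t ≤ 284 / 1000 * s) (hb : s - t ≤ b) (hc : b ≤ s - t + 3 / 200) (hy : s - t ≤ 1 / 2)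
    (s1 : 963 / 2000 ≤ s) (s2 : s ≤ 53 / 100)
    (b1 : 2 / 5 ≤ b) (b2 : b ≤ 1 / 2) (t1 : 0 ≤ t) (t2 : t ≤ 753 / 10000) :
    4 * ph (s - t) - 2 * ph s + 13 / 1000 ≤ G2 + G3 := by
  rcases le_total t (377 / 10000) with h | h
  · exact m82 R hT hb hc hy s1 s2 b1 b2 t1 h
  · exact m83 R hT hb hc hy s1 s2 b1 b2 h t2

theorem m80 {s b t k G2 G3 : ℝ} (R : Reg s b t k G2 G3) (hT : t ≤ 284 / 1000 * s) (hb : s - t ≤ b) (hc : b ≤ s - t + 3 / 200) (hy : s - t ≤ 1 / 2)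
    (s1 : 963 / 2000 ≤ s) (s2 : s ≤ 53 / 100)
    (b1 : 2 / 5 ≤ b) (b2 : b ≤ 1 / 2) (t1 : 0 ≤ t) (t2 : t ≤ 753 / 5000) :
    4 * ph (s - t) - 2 * ph s + 13 / 1000 ≤ G2 + G3 := by
  rcases le_total t (753 / 10000) with h | h
  · exact m81 R hT hb hc hy s1 s2 b1 b2 t1 h
  · exact m122 R hT hb hc hy s1 s2 b1 b2 h t2

theorem m75 {s b t k G2 G3 : ℝ} (R : Reg s b t k G2 G3) (hT : t ≤ 284 / 1000 * s) (hb : s - t ≤ b) (hc : b ≤ s - t + 3 / 200) (hy : s - t ≤ 1 / 2)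
    (s1 : 4573 / 10000 ≤ s) (s2 : s ≤ 963 / 2000)
    (b1 : 2 / 5 ≤ b) (b2 : b ≤ 9 / 20) (t1 : 753 / 10000 ≤ t) (t2 : t ≤ 113 / 1000) :
    4 * ph (s - t) - 2 * ph s + 13 / 1000 ≤ G2 + G3 := by
  rcases le_total b (17 / 40) with h | h
  · exact m76 R hT hb hc hy s1 s2 b1 h t1 t2
  · exact m77 R hT hb hc hy s1 s2 h b2 t1 t2

theorem m74 {s b t k G2 G3 : ℝ} (R : Reg s b t k G2 G3) (hT : t ≤ 284 / 1000 * s) (hb : s - t ≤ b) (hc : b ≤ s - t + 3 / 200) (hy : s - t ≤ 1 / 2)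
    (s1 : 4573 / 10000 ≤ s) (s2 : s ≤ 963 / 2000)
    (b1 : 2 / 5 ≤ b) (b2 : b ≤ 9 / 20) (t1 : 753 / 10000 ≤ t) (t2 : t ≤ 753 / 5000) :
    4 * ph (s - t) - 2 * ph s + 13 / 1000 ≤ G2 + G3 := by
  rcases le_total t (113 / 1000) with h | h
  · exact m75 R hT hb hc hy s1 s2 b1 b2 t1 h
  · exact m78 R hT hb hc hy s1 s2 b1 b2 h t2

theorem m73 {s b t k G2 G3 : ℝ} (R : Reg s b t k G2 G3) (hT : t ≤ 284 / 1000 * s) (hb : s - t ≤ b) (hc : b ≤ s - t + 3 / 200) (hy : s - t ≤ 1 / 2)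
    (s1 : 4573 / 10000 ≤ s) (s2 : s ≤ 963 / 2000)
    (b1 : 2 / 5 ≤ b) (b2 : b ≤ 1 / 2) (t1 : 753 / 10000 ≤ t) (t2 : t ≤ 753 / 5000) :
    4 * ph (s - t) - 2 * ph s + 13 / 1000 ≤ G2 + G3 := by
  rcases le_total b (9 / 20) with h | h
  · exact m74 R hT hb hc hy s1 s2 b1 h t1 t2
  · exact m79 R hT hb hc hy s1 s2 h b2 t1 t2

theorem m70 {s b t k G2 G3 : ℝ} (R : Reg s b t k G2 G3) (hT : t ≤ 284 / 1000 * s) (hb : s - t ≤ b) (hc : b ≤ s - t + 3 / 200) (hy : s - t ≤ 1 / 2)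
    (s1 : 4573 / 10000 ≤ s) (s2 : s ≤ 963 / 2000)
    (b1 : 9 / 20 ≤ b) (b2 : b ≤ 1 / 2) (t1 : 377 / 10000 ≤ t) (t2 : t ≤ 753 / 10000) :
    4 * ph (s - t) - 2 * ph s + 13 / 1000 ≤ G2 + G3 := by
  rcases le_total t (113 / 2000) with h | h
  · exact m71 R hT hb hc hy s1 s2 b1 b2 t1 h
  · exact m72 R hT hb hc hy s1 s2 b1 b2 h t2

theorem m68 {s b t k G2 G3 : ℝ} (R : Reg s b t k G2 G3) (hT : t ≤ 284 / 1000 * s) (hb : s - t ≤ b) (hc : b ≤ s - t + 3 / 200) (hy : s - t ≤ 1 / 2)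
    (s1 : 4573 / 10000 ≤ s) (s2 : s ≤ 963 / 2000)
    (b1 : 2 / 5 ≤ b) (b2 : b ≤ 1 / 2) (t1 : 377 / 10000 ≤ t) (t2 : t ≤ 753 / 10000) :
    4 * ph (s - t) - 2 * ph s + 13 / 1000 ≤ G2 + G3 := by
  rcases le_total b (9 / 20) with h | h
  · exact m69 R hT hb hc hy s1 s2 b1 h t1 t2
  · exact m70 R hT hb hc hy s1 s2 h b2 t1 t2

theorem m66 {s b t k G2 G3 : ℝ} (R : Reg s b t k G2 G3) (hT : t ≤ 284 / 1000 * s) (hb : s - t ≤ b) (hc : b ≤ s - t + 3 / 200) (hy : s - t ≤ 1 / 2)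
    (s1 : 4573 / 10000 ≤ s) (s2 : s ≤ 963 / 2000)
    (b1 : 2 / 5 ≤ b) (b2 : b ≤ 1 / 2) (t1 : 0 ≤ t) (t2 : t ≤ 753 / 10000) :
    4 * ph (s - t) - 2 * ph s + 13 / 1000 ≤ G2 + G3 := by
  rcases le_total t (377 / 10000) with h | h
  · exact m67 R hT hb hc hy s1 s2 b1 b2 t1 h
  · exact m68 R hT hb hc hy s1 s2 b1 b2 h t2

theorem m65 {s b t k G2 G3 : ℝ} (R : Reg s b t k G2 G3) (hT : t ≤ 284 / 1000 * s) (hb : s - t ≤ b) (hc : b ≤ s - t + 3 / 200) (hy : s - t ≤ 1 / 2)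
    (s1 : 4573 / 10000 ≤ s) (s2 : s ≤ 963 / 2000)
    (b1 : 2 / 5 ≤ b) (b2 : b ≤ 1 / 2) (t1 : 0 ≤ t) (t2 : t ≤ 753 / 5000) :
    4 * ph (s - t) - 2 * ph s + 13 / 1000 ≤ G2 + G3 := by
  rcases le_total t (753 / 10000) with h | h
  · exact m66 R hT hb hc hy s1 s2 b1 b2 t1 h
  · exact m73 R hT hb hc hy s1 s2 b1 b2 h t2

theorem m61 {s b t k G2 G3 : ℝ} (R : Reg s b t k G2 G3) (hT : t ≤ 284 / 1000 * s) (hb : s - t ≤ b) (hc : b ≤ s - t + 3 / 200) (hy : s - t ≤ 1 / 2)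
    (s1 : 433 / 1000 ≤ s) (s2 : s ≤ 4573 / 10000)
    (b1 : 2 / 5 ≤ b) (b2 : b ≤ 1 / 2) (t1 : 377 / 10000 ≤ t) (t2 : t ≤ 753 / 10000) :
    4 * ph (s - t) - 2 * ph s + 13 / 1000 ≤ G2 + G3 := by
  rcases le_total b (9 / 20) with h | h
  · exact m62 R hT hb hc hy s1 s2 b1 h t1 t2
  · exact m63 R hT hb hc hy s1 s2 h b2 t1 t2

theorem m59 {s b t k G2 G3 : ℝ} (R : Reg s b t k G2 G3) (hT : t ≤ 284 / 1000 * s) (hb : s - t ≤ b) (hc : b ≤ s - t + 3 / 200) (hy : s - t ≤ 1 / 2)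
    (s1 : 433 / 1000 ≤ s) (s2 : s ≤ 4573 / 10000)
    (b1 : 2 / 5 ≤ b) (b2 : b ≤ 1 / 2) (t1 : 0 ≤ t) (t2 : t ≤ 753 / 10000) :
    4 * ph (s - t) - 2 * ph s + 13 / 1000 ≤ G2 + G3 := by
  rcases le_total t (377 / 10000) with h | h
  · exact m60 R hT hb hc hy s1 s2 b1 b2 t1 h
  · exact m61 R hT hb hc hy s1 s2 b1 b2 h t2

theorem m58 {s b t k G2 G3 : ℝ} (R : Reg s b t k G2 G3) (hT : t ≤ 284 / 1000 * s) (hb : s - t ≤ b) (hc : b ≤ s - t + 3 / 200) (hy : s - t ≤ 1 / 2)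
    (s1 : 433 / 1000 ≤ s) (s2 : s ≤ 4573 / 10000)
    (b1 : 2 / 5 ≤ b) (b2 : b ≤ 1 / 2) (t1 : 0 ≤ t) (t2 : t ≤ 753 / 5000) :
    4 * ph (s - t) - 2 * ph s + 13 / 1000 ≤ G2 + G3 := by
  rcases le_total t (753 / 10000) with h | h
  · exact m59 R hT hb hc hy s1 s2 b1 b2 t1 h
  · exact m64 R hT hb hc hy s1 s2 b1 b2 h t2

theorem m57 {s b t k G2 G3 : ℝ} (R : Reg s b t k G2 G3) (hT : t ≤ 284 / 1000 * s) (hb : s - t ≤ b) (hc : b ≤ s - t + 3 / 200) (hy : s - t ≤ 1 / 2)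
    (s1 : 433 / 1000 ≤ s) (s2 : s ≤ 963 / 2000)
    (b1 : 2 / 5 ≤ b) (b2 : b ≤ 1 / 2) (t1 : 0 ≤ t) (t2 : t ≤ 753 / 5000) :
    4 * ph (s - t) - 2 * ph s + 13 / 1000 ≤ G2 + G3 := by
  rcases le_total s (4573 / 10000) with h | h
  · exact m58 R hT hb hc hy s1 h b1 b2 t1 t2
  · exact m65 R hT hb hc hy h s2 b1 b2 t1 t2

theorem m56 {s b t k G2 G3 : ℝ} (R : Reg s b t k G2 G3) (hT : t ≤ 284 / 1000 * s) (hb : s - t ≤ b) (hc : b ≤ s - t + 3 / 200) (hy : s - t ≤ 1 / 2)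
    (s1 : 433 / 1000 ≤ s) (s2 : s ≤ 53 / 100)
    (b1 : 2 / 5 ≤ b) (b2 : b ≤ 1 / 2) (t1 : 0 ≤ t) (t2 : t ≤ 753 / 5000) :
    4 * ph (s - t) - 2 * ph s + 13 / 1000 ≤ G2 + G3 := by
  rcases le_total s (963 / 2000) with h | h
  · exact m57 R hT hb hc hy s1 h b1 b2 t1 t2
  · exact m80 R hT hb hc hy h s2 b1 b2 t1 t2

theorem m53 {s b t k G2 G3 : ℝ} (R : Reg s b t k G2 G3) (hT : t ≤ 284 / 1000 * s) (hb : s - t ≤ b) (hc : b ≤ s - t + 3 / 200) (hy : s - t ≤ 1 / 2)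
    (s1 : 433 / 1000 ≤ s) (s2 : s ≤ 53 / 100)
    (b1 : 3 / 10 ≤ b) (b2 : b ≤ 2 / 5) (t1 : 659 / 5000 ≤ t) (t2 : t ≤ 753 / 5000) :
    4 * ph (s - t) - 2 * ph s + 13 / 1000 ≤ G2 + G3 := by
  rcases le_total s (963 / 2000) with h | h
  · exact m54 R hT hb hc hy s1 h b1 b2 t1 t2
  · exact m55 R hT hb hc hy h s2 b1 b2 t1 t2

theorem m49 {s b t k G2 G3 : ℝ} (R : Reg s b t k G2 G3) (hT : t ≤ 284 / 1000 * s) (hb : s - t ≤ b) (hc : b ≤ s - t + 3 / 200) (hy : s - t ≤ 1 / 2)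
    (s1 : 963 / 2000 ≤ s) (s2 : s ≤ 53 / 100)
    (b1 : 31 / 80 ≤ b) (b2 : b ≤ 2 / 5) (t1 : 153 / 1250 ≤ t) (t2 : t ≤ 1271 / 10000) :
    4 * ph (s - t) - 2 * ph s + 13 / 1000 ≤ G2 + G3 := by
  rcases le_total t (78 / 625) with h | h
  · exact m50 R hT hb hc hy s1 s2 b1 b2 t1 h
  · exact m51 R hT hb hc hy s1 s2 b1 b2 h t2

theorem m47 {s b t k G2 G3 : ℝ} (R : Reg s b t k G2 G3) (hT : t ≤ 284 / 1000 * s) (hb : s - t ≤ b) (hc : b ≤ s - t + 3 / 200) (hy : s - t ≤ 1 / 2)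
    (s1 : 963 / 2000 ≤ s) (s2 : s ≤ 53 / 100)
    (b1 : 3 / 8 ≤ b) (b2 : b ≤ 2 / 5) (t1 : 153 / 1250 ≤ t) (t2 : t ≤ 1271 / 10000) :
    4 * ph (s - t) - 2 * ph s + 13 / 1000 ≤ G2 + G3 := by
  rcases le_total b (31 / 80) with h | h
  · exact m48 R hT hb hc hy s1 s2 b1 h t1 t2
  · exact m49 R hT hb hc hy s1 s2 h b2 t1 t2

theorem m46 {s b t k G2 G3 : ℝ} (R : Reg s b t k G2 G3) (hT : t ≤ 284 / 1000 * s) (hb : s - t ≤ b) (hc : b ≤ s - t + 3 / 200) (hy : s - t ≤ 1 / 2)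
    (s1 : 963 / 2000 ≤ s) (s2 : s ≤ 53 / 100)
    (b1 : 3 / 8 ≤ b) (b2 : b ≤ 2 / 5) (t1 : 153 / 1250 ≤ t) (t2 : t ≤ 659 / 5000) :
    4 * ph (s - t) - 2 * ph s + 13 / 1000 ≤ G2 + G3 := by
  rcases le_total t (1271 / 10000) with h | h
  · exact m47 R hT hb hc hy s1 s2 b1 b2 t1 h
  · exact m52 R hT hb hc hy s1 s2 b1 b2 h t2

theorem m44 {s b t k G2 G3 : ℝ} (R : Reg s b t k G2 G3) (hT : t ≤ 284 / 1000 * s) (hb : s - t ≤ b) (hc : b ≤ s - t + 3 / 200) (hy : s - t ≤ 1 / 2)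
    (s1 : 963 / 2000 ≤ s) (s2 : s ≤ 53 / 100)
    (b1 : 7 / 20 ≤ b) (b2 : b ≤ 2 / 5) (t1 : 153 / 1250 ≤ t) (t2 : t ≤ 659 / 5000) :
    4 * ph (s - t) - 2 * ph s + 13 / 1000 ≤ G2 + G3 := by
  rcases le_total b (3 / 8) with h | h
  · exact m45 R hT hb hc hy s1 s2 b1 h t1 t2
  · exact m46 R hT hb hc hy s1 s2 h b2 t1 t2

theorem m39 {s b t k G2 G3 : ℝ} (R : Reg s b t k G2 G3) (hT : t ≤ 284 / 1000 * s) (hb : s - t ≤ b) (hc : b ≤ s - t + 3 / 200) (hy : s - t ≤ 1 / 2)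
    (s1 : 963 / 2000 ≤ s) (s2 : s ≤ 2529 / 5000)
    (b1 : 7 / 20 ≤ b) (b2 : b ≤ 3 / 8) (t1 : 113 / 1000 ≤ t) (t2 : t ≤ 153 / 1250) :
    4 * ph (s - t) - 2 * ph s + 13 / 1000 ≤ G2 + G3 := by
  rcases le_total t (1177 / 10000) with h | h
  · exact m40 R hT hb hc hy s1 s2 b1 b2 t1 h
  · exact m41 R hT hb hc hy s1 s2 b1 b2 h t2

theorem m38 {s b t k G2 G3 : ℝ} (R : Reg s b t k G2 G3) (hT : t ≤ 284 / 1000 * s) (hb : s - t ≤ b) (hc : b ≤ s - t + 3 / 200) (hy : s - t ≤ 1 / 2)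
    (s1 : 963 / 2000 ≤ s) (s2 : s ≤ 53 / 100)
    (b1 : 7 / 20 ≤ b) (b2 : b ≤ 3 / 8) (t1 : 113 / 1000 ≤ t) (t2 : t ≤ 153 / 1250) :
    4 * ph (s - t) - 2 * ph s + 13 / 1000 ≤ G2 + G3 := by
  rcases le_total s (2529 / 5000) with h | h
  · exact m39 R hT hb hc hy s1 h b1 b2 t1 t2
  · exact m42 R hT hb hc hy h s2 b1 b2 t1 t2

theorem m37 {s b t k G2 G3 : ℝ} (R : Reg s b t k G2 G3) (hT : t ≤ 284 / 1000 * s) (hb : s - t ≤ b) (hc : b ≤ s - t + 3 / 200) (hy : s - t ≤ 1 / 2)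
    (s1 : 963 / 2000 ≤ s) (s2 : s ≤ 53 / 100)
    (b1 : 7 / 20 ≤ b) (b2 : b ≤ 2 / 5) (t1 : 113 / 1000 ≤ t) (t2 : t ≤ 153 / 1250) :
    4 * ph (s - t) - 2 * ph s + 13 / 1000 ≤ G2 + G3 := by
  rcases le_total b (3 / 8) with h | h
  · exact m38 R hT hb hc hy s1 s2 b1 h t1 t2
  · exact m43 R hT hb hc hy s1 s2 h b2 t1 t2

theorem m36 {s b t k G2 G3 : ℝ} (R : Reg s b t k G2 G3) (hT : t ≤ 284 / 1000 * s) (hb : s - t ≤ b) (hc : b ≤ s - t + 3 / 200) (hy : s - t ≤ 1 / 2)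
    (s1 : 963 / 2000 ≤ s) (s2 : s ≤ 53 / 100)
    (b1 : 7 / 20 ≤ b) (b2 : b ≤ 2 / 5) (t1 : 113 / 1000 ≤ t) (t2 : t ≤ 659 / 5000) :
    4 * ph (s - t) - 2 * ph s + 13 / 1000 ≤ G2 + G3 := by
  rcases le_total t (153 / 1250) with h | h
  · exact m37 R hT hb hc hy s1 s2 b1 b2 t1 h
  · exact m44 R hT hb hc hy s1 s2 b1 b2 h t2

theorem m33 {s b t k G2 G3 : ℝ} (R : Reg s b t k G2 G3) (hT : t ≤ 284 / 1000 * s) (hb : s - t ≤ b) (hc : b ≤ s - t + 3 / 200) (hy : s - t ≤ 1 / 2)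
    (s1 : 433 / 1000 ≤ s) (s2 : s ≤ 963 / 2000)
    (b1 : 7 / 20 ≤ b) (b2 : b ≤ 2 / 5) (t1 : 153 / 1250 ≤ t) (t2 : t ≤ 659 / 5000) :
    4 * ph (s - t) - 2 * ph s + 13 / 1000 ≤ G2 + G3 := by
  rcases le_total b (3 / 8) with h | h
  · exact m34 R hT hb hc hy s1 s2 b1 h t1 t2
  · exact m35 R hT hb hc hy s1 s2 h b2 t1 t2

theorem m29 {s b t k G2 G3 : ℝ} (R : Reg s b t k G2 G3) (hT : t ≤ 284 / 1000 * s) (hb : s - t ≤ b) (hc : b ≤ s - t + 3 / 200) (hy : s - t ≤ 1 / 2)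
    (s1 : 433 / 1000 ≤ s) (s2 : s ≤ 963 / 2000)
    (b1 : 7 / 20 ≤ b) (b2 : b ≤ 3 / 8) (t1 : 113 / 1000 ≤ t) (t2 : t ≤ 153 / 1250) :
    4 * ph (s - t) - 2 * ph s + 13 / 1000 ≤ G2 + G3 := by
  rcases le_total t (1177 / 10000) with h | h
  · exact m30 R hT hb hc hy s1 s2 b1 b2 t1 h
  · exact m31 R hT hb hc hy s1 s2 b1 b2 h t2

theorem m28 {s b t k G2 G3 : ℝ} (R : Reg s b t k G2 G3) (hT : t ≤ 284 / 1000 * s) (hb : s - t ≤ b) (hc : b ≤ s - t + 3 / 200) (hy : s - t ≤ 1 / 2)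
    (s1 : 433 / 1000 ≤ s) (s2 : s ≤ 963 / 2000)
    (b1 : 7 / 20 ≤ b) (b2 : b ≤ 2 / 5) (t1 : 113 / 1000 ≤ t) (t2 : t ≤ 153 / 1250) :
    4 * ph (s - t) - 2 * ph s + 13 / 1000 ≤ G2 + G3 := by
  rcases le_total b (3 / 8) with h | h
  · exact m29 R hT hb hc hy s1 s2 b1 h t1 t2
  · exact m32 R hT hb hc hy s1 s2 h b2 t1 t2

theorem m27 {s b t k G2 G3 : ℝ} (R : Reg s b t k G2 G3) (hT : t ≤ 284 / 1000 * s) (hb : s - t ≤ b) (hc : b ≤ s - t + 3 / 200) (hy : s - t ≤ 1 / 2)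
    (s1 : 433 / 1000 ≤ s) (s2 : s ≤ 963 / 2000)
    (b1 : 7 / 20 ≤ b) (b2 : b ≤ 2 / 5) (t1 : 113 / 1000 ≤ t) (t2 : t ≤ 659 / 5000) :
    4 * ph (s - t) - 2 * ph s + 13 / 1000 ≤ G2 + G3 := by
  rcases le_total t (153 / 1250) with h | h
  · exact m28 R hT hb hc hy s1 s2 b1 b2 t1 h
  · exact m33 R hT hb hc hy s1 s2 b1 b2 h t2

theorem m26 {s b t k G2 G3 : ℝ} (R : Reg s b t k G2 G3) (hT : t ≤ 284 / 1000 * s) (hb : s - t ≤ b) (hc : b ≤ s - t + 3 / 200) (hy : s - t ≤ 1 / 2)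
    (s1 : 433 / 1000 ≤ s) (s2 : s ≤ 53 / 100)
    (b1 : 7 / 20 ≤ b) (b2 : b ≤ 2 / 5) (t1 : 113 / 1000 ≤ t) (t2 : t ≤ 659 / 5000) :
    4 * ph (s - t) - 2 * ph s + 13 / 1000 ≤ G2 + G3 := by
  rcases le_total s (963 / 2000) with h | h
  · exact m27 R hT hb hc hy s1 h b1 b2 t1 t2
  · exact m36 R hT hb hc hy h s2 b1 b2 t1 t2

theorem m23 {s b t k G2 G3 : ℝ} (R : Reg s b t k G2 G3) (hT : t ≤ 284 / 1000 * s) (hb : s - t ≤ b) (hc : b ≤ s - t + 3 / 200) (hy : s - t ≤ 1 / 2)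
    (s1 : 433 / 1000 ≤ s) (s2 : s ≤ 53 / 100)
    (b1 : 3 / 10 ≤ b) (b2 : b ≤ 7 / 20) (t1 : 113 / 1000 ≤ t) (t2 : t ≤ 659 / 5000) :
    4 * ph (s - t) - 2 * ph s + 13 / 1000 ≤ G2 + G3 := by
  rcases le_total s (963 / 2000) with h | h
  · exact m24 R hT hb hc hy s1 h b1 b2 t1 t2
  · exact m25 R hT hb hc hy h s2 b1 b2 t1 t2

theorem m22 {s b t k G2 G3 : ℝ} (R : Reg s b t k G2 G3) (hT : t ≤ 284 / 1000 * s) (hb : s - t ≤ b) (hc : b ≤ s - t + 3 / 200) (hy : s - t ≤ 1 / 2)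
    (s1 : 433 / 1000 ≤ s) (s2 : s ≤ 53 / 100)
    (b1 : 3 / 10 ≤ b) (b2 : b ≤ 2 / 5) (t1 : 113 / 1000 ≤ t) (t2 : t ≤ 659 / 5000) :
    4 * ph (s - t) - 2 * ph s + 13 / 1000 ≤ G2 + G3 := by
  rcases le_total b (7 / 20) with h | h
  · exact m23 R hT hb hc hy s1 s2 b1 h t1 t2
  · exact m26 R hT hb hc hy s1 s2 h b2 t1 t2

theorem m21 {s b t k G2 G3 : ℝ} (R : Reg s b t k G2 G3) (hT : t ≤ 284 / 1000 * s) (hb : s - t ≤ b) (hc : b ≤ s - t + 3 / 200) (hy : s - t ≤ 1 / 2)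
    (s1 : 433 / 1000 ≤ s) (s2 : s ≤ 53 / 100)
    (b1 : 3 / 10 ≤ b) (b2 : b ≤ 2 / 5) (t1 : 113 / 1000 ≤ t) (t2 : t ≤ 753 / 5000) :
    4 * ph (s - t) - 2 * ph s + 13 / 1000 ≤ G2 + G3 := by
  rcases le_total t (659 / 5000) with h | h
  · exact m22 R hT hb hc hy s1 s2 b1 b2 t1 h
  · exact m53 R hT hb hc hy s1 s2 b1 b2 h t2

theorem m18 {s b t k G2 G3 : ℝ} (R : Reg s b t k G2 G3) (hT : t ≤ 284 / 1000 * s) (hb : s - t ≤ b) (hc : b ≤ s - t + 3 / 200) (hy : s - t ≤ 1 / 2)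
    (s1 : 433 / 1000 ≤ s) (s2 : s ≤ 53 / 100)
    (b1 : 7 / 20 ≤ b) (b2 : b ≤ 2 / 5) (t1 : 471 / 5000 ≤ t) (t2 : t ≤ 113 / 1000) :
    4 * ph (s - t) - 2 * ph s + 13 / 1000 ≤ G2 + G3 := by
  rcases le_total s (963 / 2000) with h | h
  · exact m19 R hT hb hc hy s1 h b1 b2 t1 t2
  · exact m20 R hT hb hc hy h s2 b1 b2 t1 t2

theorem m13 {s b t k G2 G3 : ℝ} (R : Reg s b t k G2 G3) (hT : t ≤ 284 / 1000 * s) (hb : s - t ≤ b) (hc : b ≤ s - t + 3 / 200) (hy : s - t ≤ 1 / 2)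
    (s1 : 433 / 1000 ≤ s) (s2 : s ≤ 963 / 2000)
    (b1 : 3 / 10 ≤ b) (b2 : b ≤ 13 / 40) (t1 : 259 / 2500 ≤ t) (t2 : t ≤ 113 / 1000) :
    4 * ph (s - t) - 2 * ph s + 13 / 1000 ≤ G2 + G3 := by
  rcases le_total s (4573 / 10000) with h | h
  · exact m14 R hT hb hc hy s1 h b1 b2 t1 t2
  · exact m15 R hT hb hc hy h s2 b1 b2 t1 t2

theorem m12 {s b t k G2 G3 : ℝ} (R : Reg s b t k G2 G3) (hT : t ≤ 284 / 1000 * s) (hb : s - t ≤ b) (hc : b ≤ s - t + 3 / 200) (hy : s - t ≤ 1 / 2)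
    (s1 : 433 / 1000 ≤ s) (s2 : s ≤ 963 / 2000)
    (b1 : 3 / 10 ≤ b) (b2 : b ≤ 7 / 20) (t1 : 259 / 2500 ≤ t) (t2 : t ≤ 113 / 1000) :
    4 * ph (s - t) - 2 * ph s + 13 / 1000 ≤ G2 + G3 := by
  rcases le_total b (13 / 40) with h | h
  · exact m13 R hT hb hc hy s1 s2 b1 h t1 t2
  · exact m16 R hT hb hc hy s1 s2 h b2 t1 t2

theorem m10 {s b t k G2 G3 : ℝ} (R : Reg s b t k G2 G3) (hT : t ≤ 284 / 1000 * s) (hb : s - t ≤ b) (hc : b ≤ s - t + 3 / 200) (hy : s - t ≤ 1 / 2)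
    (s1 : 433 / 1000 ≤ s) (s2 : s ≤ 963 / 2000)
    (b1 : 3 / 10 ≤ b) (b2 : b ≤ 7 / 20) (t1 : 471 / 5000 ≤ t) (t2 : t ≤ 113 / 1000) :
    4 * ph (s - t) - 2 * ph s + 13 / 1000 ≤ G2 + G3 := by
  rcases le_total t (259 / 2500) with h | h
  · exact m11 R hT hb hc hy s1 s2 b1 b2 t1 h
  · exact m12 R hT hb hc hy s1 s2 b1 b2 h t2

theorem m9 {s b t k G2 G3 : ℝ} (R : Reg s b t k G2 G3) (hT : t ≤ 284 / 1000 * s) (hb : s - t ≤ b) (hc : b ≤ s - t + 3 / 200) (hy : s - t ≤ 1 / 2)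
    (s1 : 433 / 1000 ≤ s) (s2 : s ≤ 53 / 100)
    (b1 : 3 / 10 ≤ b) (b2 : b ≤ 7 / 20) (t1 : 471 / 5000 ≤ t) (t2 : t ≤ 113 / 1000) :
    4 * ph (s - t) - 2 * ph s + 13 / 1000 ≤ G2 + G3 := by
  rcases le_total s (963 / 2000) with h | h
  · exact m10 R hT hb hc hy s1 h b1 b2 t1 t2
  · exact m17 R hT hb hc hy h s2 b1 b2 t1 t2

theorem m8 {s b t k G2 G3 : ℝ} (R : Reg s b t k G2 G3) (hT : t ≤ 284 / 1000 * s) (hb : s - t ≤ b) (hc : b ≤ s - t + 3 / 200) (hy : s - t ≤ 1 / 2)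
    (s1 : 433 / 1000 ≤ s) (s2 : s ≤ 53 / 100)
    (b1 : 3 / 10 ≤ b) (b2 : b ≤ 2 / 5) (t1 : 471 / 5000 ≤ t) (t2 : t ≤ 113 / 1000) :
    4 * ph (s - t) - 2 * ph s + 13 / 1000 ≤ G2 + G3 := by
  rcases le_total b (7 / 20) with h | h
  · exact m9 R hT hb hc hy s1 s2 b1 h t1 t2
  · exact m18 R hT hb hc hy s1 s2 h b2 t1 t2

theorem m6 {s b t k G2 G3 : ℝ} (R : Reg s b t k G2 G3) (hT : t ≤ 284 / 1000 * s) (hb : s - t ≤ b) (hc : b ≤ s - t + 3 / 200) (hy : s - t ≤ 1 / 2)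
    (s1 : 433 / 1000 ≤ s) (s2 : s ≤ 53 / 100)
    (b1 : 3 / 10 ≤ b) (b2 : b ≤ 2 / 5) (t1 : 753 / 10000 ≤ t) (t2 : t ≤ 113 / 1000) :
    4 * ph (s - t) - 2 * ph s + 13 / 1000 ≤ G2 + G3 := by
  rcases le_total t (471 / 5000) with h | h
  · exact m7 R hT hb hc hy s1 s2 b1 b2 t1 h
  · exact m8 R hT hb hc hy s1 s2 b1 b2 h t2

theorem m5 {s b t k G2 G3 : ℝ} (R : Reg s b t k G2 G3) (hT : t ≤ 284 / 1000 * s) (hb : s - t ≤ b) (hc : b ≤ s - t + 3 / 200) (hy : s - t ≤ 1 / 2)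
    (s1 : 433 / 1000 ≤ s) (s2 : s ≤ 53 / 100)
    (b1 : 3 / 10 ≤ b) (b2 : b ≤ 2 / 5) (t1 : 753 / 10000 ≤ t) (t2 : t ≤ 753 / 5000) :
    4 * ph (s - t) - 2 * ph s + 13 / 1000 ≤ G2 + G3 := by
  rcases le_total t (113 / 1000) with h | h
  · exact m6 R hT hb hc hy s1 s2 b1 b2 t1 h
  · exact m21 R hT hb hc hy s1 s2 b1 b2 h t2

theorem m2 {s b t k G2 G3 : ℝ} (R : Reg s b t k G2 G3) (hT : t ≤ 284 / 1000 * s) (hb : s - t ≤ b) (hc : b ≤ s - t + 3 / 200) (hy : s - t ≤ 1 / 2)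
    (s1 : 433 / 1000 ≤ s) (s2 : s ≤ 53 / 100)
    (b1 : 3 / 10 ≤ b) (b2 : b ≤ 2 / 5) (t1 : 0 ≤ t) (t2 : t ≤ 753 / 10000) :
    4 * ph (s - t) - 2 * ph s + 13 / 1000 ≤ G2 + G3 := by
  rcases le_total s (963 / 2000) with h | h
  · exact m3 R hT hb hc hy s1 h b1 b2 t1 t2
  · exact m4 R hT hb hc hy h s2 b1 b2 t1 t2

theorem m1 {s b t k G2 G3 : ℝ} (R : Reg s b t k G2 G3) (hT : t ≤ 284 / 1000 * s) (hb : s - t ≤ b) (hc : b ≤ s - t + 3 / 200) (hy : s - t ≤ 1 / 2)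
    (s1 : 433 / 1000 ≤ s) (s2 : s ≤ 53 / 100)
    (b1 : 3 / 10 ≤ b) (b2 : b ≤ 2 / 5) (t1 : 0 ≤ t) (t2 : t ≤ 753 / 5000) :
    4 * ph (s - t) - 2 * ph s + 13 / 1000 ≤ G2 + G3 := by
  rcases le_total t (753 / 10000) with h | h
  · exact m2 R hT hb hc hy s1 s2 b1 b2 t1 h
  · exact m5 R hT hb hc hy s1 s2 b1 b2 h t2

theorem m0 {s b t k G2 G3 : ℝ} (R : Reg s b t k G2 G3) (hT : t ≤ 284 / 1000 * s) (hb : s - t ≤ b) (hc : b ≤ s - t + 3 / 200) (hy : s - t ≤ 1 / 2)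
    (s1 : 433 / 1000 ≤ s) (s2 : s ≤ 53 / 100)
    (b1 : 3 / 10 ≤ b) (b2 : b ≤ 1 / 2) (t1 : 0 ≤ t) (t2 : t ≤ 753 / 5000) :
    4 * ph (s - t) - 2 * ph s + 13 / 1000 ≤ G2 + G3 := by
  rcases le_total b (2 / 5) with h | h
  · exact m1 R hT hb hc hy s1 s2 b1 h t1 t2
  · exact m56 R hT hb hc hy s1 s2 h b2 t1 t2

end Pool.Agent.Strip051.FourC.LA
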