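import Pool.Agent.Strip051.FourC.Box

set_option linter.unusedVariables false

/-! # The rim of the window, boxes 1 -/

namespace Pool.Agent.Strip051.FourC.LA

open Pool.Agent.StripNear Pool.Agent.StripSquare Pool.Agent.Strip051
open Pool.Agent.Strip051.Four.Low (ph)

theorem m3 {s b t k G2 G3 : ℝ} (R : Reg s b t k G2 G3) (hT : t ≤ 284 / 1000 * s) (hb : s - t ≤ b) (hc : b ≤ s - t + 3 / 200) (hy : s - t ≤ 1 / 2)
    (s1 : 433 / 1000 ≤ s) (s2 : s ≤ 963 / 2000)
    (b1 : 3 / 10 ≤ b) (b2 : b ≤ 2 / 5) (t1 : 0 ≤ t) (t2 : t ≤ 753 / 10000) :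
    4 * ph (s - t) - 2 * ph s + 13 / 1000 ≤ G2 + G3 := by
  have e1 := up (t1 := (153 / 1000)) (t2 := (209 / 1000)) (x := b) (by norm_num)
    (by linear_combination (1023409 / 1000000) * b1) (by linear_combination (1043681 / 1000000) * b2)
  have e2 := R.lo0 (242 / 1000) (by norm_num)
  have e3 := up (t1 := (184 / 1000)) (t2 := (257 / 1000)) (x := s - t) (by norm_num)
    (by linear_combination (16154 / 15625) * s1 + (16154 / 15625) * t2) (by linear_combination (1066049 / 1000000) * s2 + (1066049 / 1000000) * t1)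
  have e4 := R.lo2 (292 / 1000) (by norm_num)
  have e5 := R.lo3 (95 / 1000) (by norm_num)
  have e6 := up (t1 := (69 / 1000)) (t2 := (78 / 1000)) (x := 8 / 25 * s) (by norm_num)
    (by linear_combination (1004761 / 3125000) * s1) (by linear_combination (251521 / 781250) * s2)
  have e7 := R.lo7 (717 / 1000) (by norm_num)
  have e8 := R.lo8 (137 / 1000) (by norm_num)
  have c2 := R.k23 (by linear_combination (250 / 181) * e1 + (8525432 / 181) * R.k1 + (8525613 / 181) * R.k2 + s1 + t2)
  have c3 := R.l20 (by linear_combination (250 / 181) * e1 + (8525432 / 181) * R.k1 + (8525613 / 181) * R.k2 + t2) (by linear_combination (866030 / 968023) * e1 + R.k2 + s1 + (19937859 / 24200575) * b2 + t2)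
  linear_combination (1434000 / 485911) * R.h1 + (1000000 / 981231) * e8 + (1000000 / 485911) * e7 + (1000000 / 497309) * e6 + (40000 / 39639) * e5 + (62500 / 57171) * e4 + (500000 / 119089) * e3 + (500000 / 235359) * e2 + (35542999906149435923621000 / 6836293735952568751381539) * e1 + (24732124369948380700 / 7062119119021519893) * R.k2 + (308032512655049927116040 / 3509819208791188732384119) * s2 + (17510849321107879990256 / 402134925644268750081267) * b2 + (1388126693348537572775800 / 841020703765153782537477) * t2 + c2 + c3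

theorem m4 {s b t k G2 G3 : ℝ} (R : Reg s b t k G2 G3) (hT : t ≤ 284 / 1000 * s) (hb : s - t ≤ b) (hc : b ≤ s - t + 3 / 200) (hy : s - t ≤ 1 / 2)
    (s1 : 963 / 2000 ≤ s) (s2 : s ≤ 53 / 100)
    (b1 : 3 / 10 ≤ b) (b2 : b ≤ 2 / 5) (t1 : 0 ≤ t) (t2 : t ≤ 753 / 10000) :
    4 * ph (s - t) - 2 * ph s + 13 / 1000 ≤ G2 + G3 := by
  exfalso
  exact absurd b2 (not_le.mpr (by linear_combination s1 + t2 + hb))

theorem m7 {s b t k G2 G3 : ℝ} (R : Reg s b t k G2 G3) (hT : t ≤ 284 / 1000 * s) (hb : s - t ≤ b) (hc : b ≤ s - t + 3 / 200) (hy : s - t ≤ 1 / 2)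
    (s1 : 433 / 1000 ≤ s) (s2 : s ≤ 53 / 100)
    (b1 : 3 / 10 ≤ b) (b2 : b ≤ 2 / 5) (t1 : 753 / 10000 ≤ t) (t2 : t ≤ 471 / 5000) :
    4 * ph (s - t) - 2 * ph s + 13 / 1000 ≤ G2 + G3 := by
  have e1 := up (t1 := (153 / 1000)) (t2 := (209 / 1000)) (x := b) (by norm_num)
    (by linear_combination (1023409 / 1000000) * b1) (by linear_combination (1043681 / 1000000) * b2)
  have e2 := R.lo0 (257 / 1000) (by norm_num)
  have e3 := up (t1 := (174 / 1000)) (t2 := (241 / 1000)) (x := s - t) (by norm_num)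
    (by linear_combination (257569 / 250000) * s1 + (257569 / 250000) * t2) (by linear_combination (1058081 / 1000000) * s2 + (1058081 / 1000000) * t1)
  have e4 := R.lo2 (278 / 1000) (by norm_num)
  have e5 := up (t1 := (69 / 1000)) (t2 := (86 / 1000)) (x := 8 / 25 * s) (by norm_num)
    (by linear_combination (1004761 / 3125000) * s1) (by linear_combination (251849 / 781250) * s2)
  have e6 := R.lo6 (6 / 1000) (by norm_num)
  have e7 := R.lo7 (627 / 1000) (by norm_num)
  have e8 := R.lo8 (162 / 1000) (by norm_num)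
  have c2 := R.k13 (by linear_combination (250 / 181) * e1 + (8525432 / 181) * R.k1 + (8525613 / 181) * R.k2 + (17 / 25) * s1 + t2)
  have c3 := R.l20 (by linear_combination (866030 / 968023) * e1 + R.k2 + (4262716 / 24200575) * b1 + t2) (by linear_combination (866030 / 968023) * e1 + R.k2 + s1 + (19937859 / 24200575) * b2 + t2)
  linear_combination (1254000 / 606871) * R.h1 + (250000 / 243439) * e8 + (1000000 / 606871) * e7 + (250000 / 249991) * e6 + (500000 / 497033) * e5 + (250000 / 230679) * e4 + (2000000 / 479033) * e3 + (2000000 / 933951) * e2 + (9877708745823579317530000 / 2370556011977444887568217) * e1 + (5750357513566451000 / 2448863314174812879) * R.k2 + (4281968713802344297786720 / 60204309339251876044661667) * s2 + (32178721404798707677360 / 2370556011977444887568217) * b2 + (722054460031183032313000 / 1173086339979103137866007) * t2 + c2 + c3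

theorem m11 {s b t k G2 G3 : ℝ} (R : Reg s b t k G2 G3) (hT : t ≤ 284 / 1000 * s) (hb : s - t ≤ b) (hc : b ≤ s - t + 3 / 200) (hy : s - t ≤ 1 / 2)
    (s1 : 433 / 1000 ≤ s) (s2 : s ≤ 963 / 2000)
    (b1 : 3 / 10 ≤ b) (b2 : b ≤ 7 / 20) (t1 : 471 / 5000 ≤ t) (t2 : t ≤ 259 / 2500) :
    4 * ph (s - t) - 2 * ph s + 13 / 1000 ≤ G2 + G3 := by
  have e1 := up (t1 := (153 / 1000)) (t2 := (181 / 1000)) (x := b) (by norm_num)
    (by linear_combination (1023409 / 1000000) * b1) (by linear_combination (1032761 / 1000000) * b2)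
  have e2 := R.lo0 (242 / 1000) (by norm_num)
  have e3 := up (t1 := (169 / 1000)) (t2 := (202 / 1000)) (x := s - t) (by norm_num)
    (by linear_combination (1028561 / 1000000) * s1 + (1028561 / 1000000) * t2) (by linear_combination (260201 / 250000) * s2 + (260201 / 250000) * t1)
  have e4 := R.lo2 (252 / 1000) (by norm_num)
  have e5 := up (t1 := (69 / 1000)) (t2 := (78 / 1000)) (x := 8 / 25 * s) (by norm_num)
    (by linear_combination (1004761 / 3125000) * s1) (by linear_combination (251521 / 781250) * s2)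
  have e6 := R.lo6 (1 / 1000) (by norm_num)
  have e7 := R.lo7 (600 / 1000) (by norm_num)
  have e8 := R.lo8 (158 / 1000) (by norm_num)
  have c2 := R.k13 (by linear_combination (250 / 167) * e1 + (9844974 / 167) * R.k1 + (9845141 / 167) * R.k2 + (17 / 25) * s1 + t2)
  have c3 := R.l20 (by linear_combination (866030 / 972307) * e1 + R.k2 + (4922487 / 24307675) * b1 + t2) (by linear_combination (866030 / 972307) * e1 + R.k2 + s1 + (19385188 / 24307675) * b2 + t2)
  linear_combination (15 / 8) * R.h1 + (250000 / 243759) * e8 + (25 / 16) * e7 + (1000000 / 999999) * e6 + (500000 / 497309) * e5 + (62500 / 58531) * e4 + (2000000 / 482931) * e3 + (500000 / 235359) * e2 + (1182583858620475625 / 288807649476061716) * e1 + (132986688289471377055 / 7805612148001668) * R.k1 + (1093580308504952393945 / 64179477661347048) * R.k2 + (95629288955823790660 / 5979411176514936179019) * s2 + (102937016463132140495 / 185594367224383181064) * t2 + c2 + c3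

theorem m14 {s b t k G2 G3 : ℝ} (R : Reg s b t k G2 G3) (hT : t ≤ 284 / 1000 * s) (hb : s - t ≤ b) (hc : b ≤ s - t + 3 / 200) (hy : s - t ≤ 1 / 2)
    (s1 : 433 / 1000 ≤ s) (s2 : s ≤ 4573 / 10000)
    (b1 : 3 / 10 ≤ b) (b2 : b ≤ 13 / 40) (t1 : 259 / 2500 ≤ t) (t2 : t ≤ 113 / 1000) :
    4 * ph (s - t) - 2 * ph s + 13 / 1000 ≤ G2 + G3 := by
  have e1 := up (t1 := (153 / 1000)) (t2 := (168 / 1000)) (x := b) (by norm_num)
    (by linear_combination (1023409 / 1000000) * b1) (by linear_combination (16066 / 15625) * b2)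
  have e2 := R.lo0 (235 / 1000) (by norm_num)
  have e3 := up (t1 := (164 / 1000)) (t2 := (183 / 1000)) (x := s - t) (by norm_num)
    (by linear_combination (64181 / 62500) * s1 + (64181 / 62500) * t2) (by linear_combination (1033489 / 1000000) * s2 + (1033489 / 1000000) * t1)
  have e4 := R.lo2 (238 / 1000) (by norm_num)
  have e5 := up (t1 := (69 / 1000)) (t2 := (74 / 1000)) (x := 8 / 25 * s) (by norm_num)
    (by linear_combination (1004761 / 3125000) * s1) (by linear_combination (251369 / 781250) * s2)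
  have e6 := R.lo6 (-3 / 1000) (by norm_num)
  have c2 := R.k12 (by linear_combination (433015 / 487148) * e1 + R.k2 + s1 + (76514363 / 97429600) * b2 + t2) (by linear_combination (500 / 321) * e1 + (20915237 / 321) * R.k1 + (20915558 / 321) * R.k2 + (17 / 25) * s1 + t2)
  linear_combination (1000000 / 999991) * e6 + (500000 / 497447) * e5 + (250000 / 235839) * e4 + (1000000 / 242497) * e3 + (80000 / 37791) * e2 + (42208507254481250 / 28721865793881363) * e1 + (117583895000 / 235836877449) * R.k2 + (20533596291779991644320 / 1109505627407925203016249) * s1 + (24866012690991925 / 114887463175525452) * b2 + (53321654688988000 / 57189735270750153) * t1 + c2 + R.g3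

theorem m15 {s b t k G2 G3 : ℝ} (R : Reg s b t k G2 G3) (hT : t ≤ 284 / 1000 * s) (hb : s - t ≤ b) (hc : b ≤ s - t + 3 / 200) (hy : s - t ≤ 1 / 2)
    (s1 : 4573 / 10000 ≤ s) (s2 : s ≤ 963 / 2000)
    (b1 : 3 / 10 ≤ b) (b2 : b ≤ 13 / 40) (t1 : 259 / 2500 ≤ t) (t2 : t ≤ 113 / 1000) :
    4 * ph (s - t) - 2 * ph s + 13 / 1000 ≤ G2 + G3 := by
  exfalso
  exact absurd b2 (not_le.mpr (by linear_combination s1 + t2 + hb))

theorem m16 {s b t k G2 G3 : ℝ} (R : Reg s b t k G2 G3) (hT : t ≤ 284 / 1000 * s) (hb : s - t ≤ b) (hc : b ≤ s - t + 3 / 200) (hy : s - t ≤ 1 / 2)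
    (s1 : 433 / 1000 ≤ s) (s2 : s ≤ 963 / 2000)
    (b1 : 13 / 40 ≤ b) (b2 : b ≤ 7 / 20) (t1 : 259 / 2500 ≤ t) (t2 : t ≤ 113 / 1000) :
    4 * ph (s - t) - 2 * ph s + 13 / 1000 ≤ G2 + G3 := by
  have e1 := up (t1 := (167 / 1000)) (t2 := (181 / 1000)) (x := b) (by norm_num)
    (by linear_combination (1027889 / 1000000) * b1) (by linear_combination (1032761 / 1000000) * b2)
  have e2 := R.lo0 (242 / 1000) (by norm_num)
  have e3 := up (t1 := (164 / 1000)) (t2 := (197 / 1000)) (x := s - t) (by norm_num)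
    (by linear_combination (64181 / 62500) * s1 + (64181 / 62500) * t2) (by linear_combination (1038809 / 1000000) * s2 + (1038809 / 1000000) * t1)
  have e4 := R.lo2 (248 / 1000) (by norm_num)
  have e5 := up (t1 := (69 / 1000)) (t2 := (78 / 1000)) (x := 8 / 25 * s) (by norm_num)
    (by linear_combination (1004761 / 3125000) * s1) (by linear_combination (251521 / 781250) * s2)
  have e6 := R.lo6 (-9 / 1000) (by norm_num)
  have e7 := R.lo7 (590 / 1000) (by norm_num)
  have e8 := R.lo8 (169 / 1000) (by norm_num)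
  have c2 := R.k13 (by linear_combination (125 / 87) * e1 + (9175403 / 174) * R.k1 + (9175577 / 174) * R.k2 + (17 / 25) * s1 + t2)
  have c3 := R.l20 (by linear_combination (866030 / 969773) * e1 + R.k2 + (9175403 / 48488650) * b1 + t2) (by linear_combination (866030 / 969773) * e1 + R.k2 + s1 + (39313247 / 48488650) * b2 + t2)
  linear_combination (11800 / 6519) * R.h1 + (1000000 / 971439) * e8 + (10000 / 6519) * e7 + (1000000 / 999919) * e6 + (500000 / 497309) * e5 + (15625 / 14664) * e4 + (1000000 / 241923) * e3 + (500000 / 235359) * e2 + (581330453263373771875 / 149602648259440498668) * e1 + (1794943534694137356089525 / 299205296518880997336) * R.k1 + (598511254990429213257325 / 99735098839626999112) * R.k2 + (114773359725246464884685 / 23066359477620689113353756) * s1 + (66622925853854481362175 / 138667898371144152334324) * t2 + c2 + c3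

theorem m17 {s b t k G2 G3 : ℝ} (R : Reg s b t k G2 G3) (hT : t ≤ 284 / 1000 * s) (hb : s - t ≤ b) (hc : b ≤ s - t + 3 / 200) (hy : s - t ≤ 1 / 2)
    (s1 : 963 / 2000 ≤ s) (s2 : s ≤ 53 / 100)
    (b1 : 3 / 10 ≤ b) (b2 : b ≤ 7 / 20) (t1 : 471 / 5000 ≤ t) (t2 : t ≤ 113 / 1000) :
    4 * ph (s - t) - 2 * ph s + 13 / 1000 ≤ G2 + G3 := by
  exfalso
  exact absurd b2 (not_le.mpr (by linear_combination s1 + t2 + hb))

theorem m19 {s b t k G2 G3 : ℝ} (R : Reg s b t k G2 G3) (hT : t ≤ 284 / 1000 * s) (hb : s - t ≤ b) (hc : b ≤ s - t + 3 / 200) (hy : s - t ≤ 1 / 2)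
    (s1 : 433 / 1000 ≤ s) (s2 : s ≤ 963 / 2000)
    (b1 : 7 / 20 ≤ b) (b2 : b ≤ 2 / 5) (t1 : 471 / 5000 ≤ t) (t2 : t ≤ 113 / 1000) :
    4 * ph (s - t) - 2 * ph s + 13 / 1000 ≤ G2 + G3 := by
  have e1 := up (t1 := (180 / 1000)) (t2 := (209 / 1000)) (x := b) (by norm_num)
    (by linear_combination (2581 / 2500) * b1) (by linear_combination (1043681 / 1000000) * b2)
  have e2 := R.lo0 (242 / 1000) (by norm_num)
  have e3 := up (t1 := (164 / 1000)) (t2 := (202 / 1000)) (x := s - t) (by norm_num)
    (by linear_combination (64181 / 62500) * s1 + (64181 / 62500) * t2) (by linear_combination (260201 / 250000) * s2 + (260201 / 250000) * t1)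
  have e4 := R.lo2 (254 / 1000) (by norm_num)
  have e5 := up (t1 := (69 / 1000)) (t2 := (78 / 1000)) (x := 8 / 25 * s) (by norm_num)
    (by linear_combination (1004761 / 3125000) * s1) (by linear_combination (251521 / 781250) * s2)
  have e6 := R.lo6 (-22 / 1000) (by norm_num)
  have e7 := R.lo7 (606 / 1000) (by norm_num)
  have e8 := R.lo8 (183 / 1000) (by norm_num)
  have c2 := R.k13 (by linear_combination (500 / 389) * e1 + (14430433 / 389) * R.k1 + (14430822 / 389) * R.k2 + (17 / 25) * s1 + t2)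
  have c3 := R.l20 (by linear_combination (86603 / 96238) * e1 + R.k2 + (14430433 / 96238000) * b1 + t2) (by linear_combination (86603 / 96238) * e1 + R.k2 + s1 + (81807567 / 96238000) * b2 + t2)
  linear_combination (303000 / 158191) * R.h1 + (1000000 / 966511) * e8 + (250000 / 158191) * e7 + (250000 / 249879) * e6 + (500000 / 497309) * e5 + (250000 / 233871) * e4 + (500000 / 120859) * e3 + (500000 / 235359) * e2 + (22714314271330977500 / 5809127077387083853) * e1 + (2703390253035000 / 1327966039428457) * R.k2 + (97362135835679629299400 / 4834439693769403981138491) * s2 + (30848667512021951335 / 383402387107547534298) * b2 + (4405855651376286000 / 8447191976804414977) * t2 + c2 + c3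

theorem m20 {s b t k G2 G3 : ℝ} (R : Reg s b t k G2 G3) (hT : t ≤ 284 / 1000 * s) (hb : s - t ≤ b) (hc : b ≤ s - t + 3 / 200) (hy : s - t ≤ 1 / 2)
    (s1 : 963 / 2000 ≤ s) (s2 : s ≤ 53 / 100)
    (b1 : 7 / 20 ≤ b) (b2 : b ≤ 2 / 5) (t1 : 471 / 5000 ≤ t) (t2 : t ≤ 113 / 1000) :
    4 * ph (s - t) - 2 * ph s + 13 / 1000 ≤ G2 + G3 := by
  have e1 := up (t1 := (180 / 1000)) (t2 := (209 / 1000)) (x := b) (by norm_num)
    (by linear_combination (2581 / 2500) * b1) (by linear_combination (1043681 / 1000000) * b2)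
  have e2 := R.lo0 (272 / 1000) (by norm_num)
  have e3 := up (t1 := (190 / 1000)) (t2 := (230 / 1000)) (x := s - t) (by norm_num)
    (by linear_combination (10361 / 10000) * s1 + (10361 / 10000) * t2) (by linear_combination (10529 / 10000) * s2 + (10529 / 10000) * t1)
  have e4 := R.lo2 (284 / 1000) (by norm_num)
  have e5 := up (t1 := (77 / 1000)) (t2 := (86 / 1000)) (x := 8 / 25 * s) (by norm_num)
    (by linear_combination (1005929 / 3125000) * s1) (by linear_combination (251849 / 781250) * s2)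
  have e6 := R.lo6 (-5 / 1000) (by norm_num)
  have e7 := R.lo7 (606 / 1000) (by norm_num)
  have e8 := R.lo8 (183 / 1000) (by norm_num)
  have c2 := R.k13 (by linear_combination (500 / 389) * e1 + (14430433 / 389) * R.k1 + (14430822 / 389) * R.k2 + (17 / 25) * s1 + t2)
  have c3 := R.l20 (by linear_combination (86603 / 96238) * e1 + R.k2 + (14430433 / 96238000) * b1 + t2) (by linear_combination (86603 / 96238) * e1 + R.k2 + s1 + (81807567 / 96238000) * b2 + t2)
  linear_combination (303000 / 158191) * R.h1 + (1000000 / 966511) * e8 + (250000 / 158191) * e7 + (40000 / 39999) * e6 + (500000 / 496689) * e5 + (62500 / 57459) * e4 + (40000 / 9563) * e3 + (31250 / 14469) * e2 + (684555000044138220253150 / 170795792804805761095321) * e1 + (83731842633149103100 / 39043906167062145349) * R.k2 + (136430611439811619972 / 5850064405364624661489) * s2 + (11065618382907407321310731 / 112725223251171802322911860) * b2 + (1983424486221381247700 / 5114751707885141040719) * t2 + c2 + c3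

theorem m24 {s b t k G2 G3 : ℝ} (R : Reg s b t k G2 G3) (hT : t ≤ 284 / 1000 * s) (hb : s - t ≤ b) (hc : b ≤ s - t + 3 / 200) (hy : s - t ≤ 1 / 2)
    (s1 : 433 / 1000 ≤ s) (s2 : s ≤ 963 / 2000)
    (b1 : 3 / 10 ≤ b) (b2 : b ≤ 7 / 20) (t1 : 113 / 1000 ≤ t) (t2 : t ≤ 659 / 5000) :
    4 * ph (s - t) - 2 * ph s + 13 / 1000 ≤ G2 + G3 := by
  have e1 := up (t1 := (153 / 1000)) (t2 := (181 / 1000)) (x := b) (by norm_num)
    (by linear_combination (1023409 / 1000000) * b1) (by linear_combination (1032761 / 1000000) * b2)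
  have e2 := R.lo0 (242 / 1000) (by norm_num)
  have e3 := up (t1 := (154 / 1000)) (t2 := (191 / 1000)) (x := s - t) (by norm_num)
    (by linear_combination (255929 / 250000) * s1 + (255929 / 250000) * t2) (by linear_combination (1036481 / 1000000) * s2 + (1036481 / 1000000) * t1)
  have e4 := R.lo2 (238 / 1000) (by norm_num)
  have e5 := up (t1 := (69 / 1000)) (t2 := (78 / 1000)) (x := 8 / 25 * s) (by norm_num)
    (by linear_combination (1004761 / 3125000) * s1) (by linear_combination (251521 / 781250) * s2)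
  have e6 := R.lo6 (-11 / 1000) (by norm_num)
  have c2 := R.k12 (by linear_combination (866030 / 972307) * e1 + R.k2 + s1 + (19385188 / 24307675) * b2 + t2) (by linear_combination (250 / 167) * e1 + (9844974 / 167) * R.k1 + (9845141 / 167) * R.k2 + (17 / 25) * s1 + t2)
  linear_combination (1000000 / 999879) * e6 + (500000 / 497309) * e5 + (250000 / 235839) * e4 + (2000000 / 485293) * e3 + (500000 / 235359) * e2 + (37151355914810000 / 25475573812868963) * e1 + (12644127000 / 26201162609) * R.k2 + (3152555605881562471861720 / 64707389959726480125802689) * s1 + (17103107495954120 / 76426721438606889) * b2 + (11942695875999000 / 12715240806009437) * t1 + c2 + R.g3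

theorem m25 {s b t k G2 G3 : ℝ} (R : Reg s b t k G2 G3) (hT : t ≤ 284 / 1000 * s) (hb : s - t ≤ b) (hc : b ≤ s - t + 3 / 200) (hy : s - t ≤ 1 / 2)
    (s1 : 963 / 2000 ≤ s) (s2 : s ≤ 53 / 100)
    (b1 : 3 / 10 ≤ b) (b2 : b ≤ 7 / 20) (t1 : 113 / 1000 ≤ t) (t2 : t ≤ 659 / 5000) :
    4 * ph (s - t) - 2 * ph s + 13 / 1000 ≤ G2 + G3 := by
  have e1 := up (t1 := (153 / 1000)) (t2 := (181 / 1000)) (x := b) (by norm_num)
    (by linear_combination (1023409 / 1000000) * b1) (by linear_combination (1032761 / 1000000) * b2)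
  have e2 := R.lo0 (272 / 1000) (by norm_num)
  have e3 := up (t1 := (180 / 1000)) (t2 := (219 / 1000)) (x := s - t) (by norm_num)
    (by linear_combination (2581 / 2500) * s1 + (2581 / 2500) * t2) (by linear_combination (1047961 / 1000000) * s2 + (1047961 / 1000000) * t1)
  have e4 := R.lo2 (267 / 1000) (by norm_num)
  have e5 := up (t1 := (77 / 1000)) (t2 := (86 / 1000)) (x := 8 / 25 * s) (by norm_num)
    (by linear_combination (1005929 / 3125000) * s1) (by linear_combination (251849 / 781250) * s2)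
  have e6 := R.lo6 (6 / 1000) (by norm_num)
  have c2 := R.k12 (by linear_combination (866030 / 972307) * e1 + R.k2 + s1 + (19385188 / 24307675) * b2 + t2) (by linear_combination (250 / 167) * e1 + (9844974 / 167) * R.k1 + (9845141 / 167) * R.k2 + (17 / 25) * s1 + t2)
  linear_combination (250000 / 249991) * e6 + (500000 / 496689) * e5 + (1000000 / 928711) * e4 + (200000 / 48029) * e3 + (31250 / 14469) * e2 + (50027587031830000 / 32248560662770501) * e1 + (19468761000 / 33167055943) * R.k2 + (24026084139229250509240 / 545147759515607945702187) * s1 + (7631404427650720 / 32248560662770501) * b2 + (1711665942182400 / 1592980529886347) * t1 + c2 + R.g3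

theorem m30 {s b t k G2 G3 : ℝ} (R : Reg s b t k G2 G3) (hT : t ≤ 284 / 1000 * s) (hb : s - t ≤ b) (hc : b ≤ s - t + 3 / 200) (hy : s - t ≤ 1 / 2)
    (s1 : 433 / 1000 ≤ s) (s2 : s ≤ 963 / 2000)
    (b1 : 7 / 20 ≤ b) (b2 : b ≤ 3 / 8) (t1 : 113 / 1000 ≤ t) (t2 : t ≤ 1177 / 10000) :
    4 * ph (s - t) - 2 * ph s + 13 / 1000 ≤ G2 + G3 := by
  have e1 := up (t1 := (180 / 1000)) (t2 := (195 / 1000)) (x := b) (by norm_num)
    (by linear_combination (2581 / 2500) * b1) (by linear_combination (41521 / 40000) * b2)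
  have e2 := R.lo0 (242 / 1000) (by norm_num)
  have e3 := up (t1 := (161 / 1000)) (t2 := (191 / 1000)) (x := s - t) (by norm_num)
    (by linear_combination (1025921 / 1000000) * s1 + (1025921 / 1000000) * t2) (by linear_combination (1036481 / 1000000) * s2 + (1036481 / 1000000) * t1)
  have e4 := R.lo2 (246 / 1000) (by norm_num)
  have e5 := up (t1 := (69 / 1000)) (t2 := (78 / 1000)) (x := 8 / 25 * s) (by norm_num)
    (by linear_combination (1004761 / 3125000) * s1) (by linear_combination (251521 / 781250) * s2)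
  have e6 := R.lo6 (-22 / 1000) (by norm_num)
  have e7 := R.lo7 (587 / 1000) (by norm_num)
  have e8 := R.lo8 (184 / 1000) (by norm_num)
  have c2 := R.k13 (by linear_combination (4 / 3) * e1 + (126151 / 3) * R.k1 + (126154 / 3) * R.k2 + (17 / 25) * s1 + t2)
  have c3 := R.l20 (by linear_combination (86603 / 96490) * e1 + R.k2 + (126151 / 771920) * b1 + t2) (by linear_combination (86603 / 96490) * e1 + R.k2 + s1 + (645769 / 771920) * b2 + t2)
  linear_combination (1174000 / 655431) * R.h1 + (15625 / 15096) * e8 + (1000000 / 655431) * e7 + (250000 / 249879) * e6 + (500000 / 497309) * e5 + (250000 / 234871) * e4 + (4000000 / 969249) * e3 + (500000 / 235359) * e2 + (47887767294183233052325 / 12705499359209324935176) * e1 + (1244321621727428875 / 658384255322278212) * R.k2 + (2325912052322449411829200 / 105684451392533130098443917) * s1 + (1473791753467460313325 / 33881331624558199827136) * b2 + (31005828449324554129875 / 70904253454095870522532) * t2 + c2 + c3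

theorem m31 {s b t k G2 G3 : ℝ} (R : Reg s b t k G2 G3) (hT : t ≤ 284 / 1000 * s) (hb : s - t ≤ b) (hc : b ≤ s - t + 3 / 200) (hy : s - t ≤ 1 / 2)
    (s1 : 433 / 1000 ≤ s) (s2 : s ≤ 963 / 2000)
    (b1 : 7 / 20 ≤ b) (b2 : b ≤ 3 / 8) (t1 : 1177 / 10000 ≤ t) (t2 : t ≤ 153 / 1250) :
    4 * ph (s - t) - 2 * ph s + 13 / 1000 ≤ G2 + G3 := by
  have e1 := up (t1 := (180 / 1000)) (t2 := (195 / 1000)) (x := b) (by norm_num)
    (by linear_combination (2581 / 2500) * b1) (by linear_combination (41521 / 40000) * b2)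
  have e2 := R.lo0 (242 / 1000) (by norm_num)
  have e3 := up (t1 := (159 / 1000)) (t2 := (189 / 1000)) (x := s - t) (by norm_num)
    (by linear_combination (1025281 / 1000000) * s1 + (1025281 / 1000000) * t2) (by linear_combination (1035721 / 1000000) * s2 + (1035721 / 1000000) * t1)
  have e4 := R.lo2 (243 / 1000) (by norm_num)
  have e5 := up (t1 := (69 / 1000)) (t2 := (78 / 1000)) (x := 8 / 25 * s) (by norm_num)
    (by linear_combination (1004761 / 3125000) * s1) (by linear_combination (251521 / 781250) * s2)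
  have e6 := R.lo6 (-25 / 1000) (by norm_num)
  have c2 := R.k12 (by linear_combination (86603 / 96490) * e1 + R.k2 + s1 + (645769 / 771920) * b2 + t2) (by linear_combination (4 / 3) * e1 + (126151 / 3) * R.k1 + (126154 / 3) * R.k2 + (17 / 25) * s1 + t2)
  linear_combination (1600 / 1599) * e6 + (500000 / 497309) * e5 + (1000000 / 940951) * e4 + (4000000 / 969949) * e3 + (500000 / 235359) * e2 + (1920357584416 / 1319790789291) * e1 + (701837920 / 1504580649) * R.k2 + (8048832908832022017200944 / 284688713710001996409971385) * s1 + (3809119094756 / 14517698682201) * b2 + (1413629274741920 / 1459366495916901) * t1 + c2 + R.g3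

theorem m32 {s b t k G2 G3 : ℝ} (R : Reg s b t k G2 G3) (hT : t ≤ 284 / 1000 * s) (hb : s - t ≤ b) (hc : b ≤ s - t + 3 / 200) (hy : s - t ≤ 1 / 2)
    (s1 : 433 / 1000 ≤ s) (s2 : s ≤ 963 / 2000)
    (b1 : 3 / 8 ≤ b) (b2 : b ≤ 2 / 5) (t1 : 113 / 1000 ≤ t) (t2 : t ≤ 153 / 1250) :
    4 * ph (s - t) - 2 * ph s + 13 / 1000 ≤ G2 + G3 := by
  have e1 := up (t1 := (194 / 1000)) (t2 := (209 / 1000)) (x := b) (by norm_num)
    (by linear_combination (259409 / 250000) * b1) (by linear_combination (1043681 / 1000000) * b2)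
  have e2 := R.lo0 (242 / 1000) (by norm_num)
  have e3 := up (t1 := (159 / 1000)) (t2 := (191 / 1000)) (x := s - t) (by norm_num)
    (by linear_combination (1025281 / 1000000) * s1 + (1025281 / 1000000) * t2) (by linear_combination (1036481 / 1000000) * s2 + (1036481 / 1000000) * t1)
  have e4 := R.lo2 (247 / 1000) (by norm_num)
  have e5 := up (t1 := (69 / 1000)) (t2 := (78 / 1000)) (x := 8 / 25 * s) (by norm_num)
    (by linear_combination (1004761 / 3125000) * s1) (by linear_combination (251521 / 781250) * s2)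
  have e6 := R.lo6 (-34 / 1000) (by norm_num)
  have e7 := R.lo7 (589 / 1000) (by norm_num)
  have e8 := R.lo8 (197 / 1000) (by norm_num)
  have c2 := R.k13 (by linear_combination (500 / 403) * e1 + (13071691 / 403) * R.k1 + (13072094 / 403) * R.k2 + (17 / 25) * s1 + t2)
  have c3 := R.l20 (by linear_combination (433015 / 479727) * e1 + R.k2 + (13071691 / 95945400) * b1 + t2) (by linear_combination (433015 / 479727) * e1 + R.k2 + s1 + (82873709 / 95945400) * b2 + t2)
  linear_combination (1178000 / 653079) * R.h1 + (1000000 / 961191) * e8 + (1000000 / 653079) * e7 + (250000 / 249711) * e6 + (500000 / 497309) * e5 + (1000000 / 938991) * e4 + (4000000 / 969631) * e3 + (500000 / 235359) * e2 + (1656751255631027888575000 / 441086195358764532366741) * e1 + (18729804225849755000 / 10113977635084975113) * R.k2 + (2169616258174866433795480 / 128556008287496222173663923) * s1 + (532614637386006883879475 / 4851948148946409856034151) * b2 + (4001430112195958632205000 / 9806826248285079503793303) * t2 + c2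 + c3

theorem m34 {s b t k G2 G3 : ℝ} (R : Reg s b t k G2 G3) (hT : t ≤ 284 / 1000 * s) (hb : s - t ≤ b) (hc : b ≤ s - t + 3 / 200) (hy : s - t ≤ 1 / 2)
    (s1 : 433 / 1000 ≤ s) (s2 : s ≤ 963 / 2000)
    (b1 : 7 / 20 ≤ b) (b2 : b ≤ 3 / 8) (t1 : 153 / 1250 ≤ t) (t2 : t ≤ 659 / 5000) :
    4 * ph (s - t) - 2 * ph s + 13 / 1000 ≤ G2 + G3 := by
  have e1 := up (t1 := (180 / 1000)) (t2 := (195 / 1000)) (x := b) (by norm_num)
    (by linear_combination (2581 / 2500) * b1) (by linear_combination (41521 / 40000) * b2)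
  have e2 := R.lo0 (242 / 1000) (by norm_num)
  have e3 := up (t1 := (154 / 1000)) (t2 := (186 / 1000)) (x := s - t) (by norm_num)
    (by linear_combination (255929 / 250000) * s1 + (255929 / 250000) * t2) (by linear_combination (258649 / 250000) * s2 + (258649 / 250000) * t1)
  have e4 := R.lo2 (239 / 1000) (by norm_num)
  have e5 := up (t1 := (69 / 1000)) (t2 := (78 / 1000)) (x := 8 / 25 * s) (by norm_num)
    (by linear_combination (1004761 / 3125000) * s1) (by linear_combination (251521 / 781250) * s2)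
  have e6 := R.lo6 (-28 / 1000) (by norm_num)
  have c2 := R.k12 (by linear_combination (86603 / 96490) * e1 + R.k2 + s1 + (645769 / 771920) * b2 + t2) (by linear_combination (4 / 3) * e1 + (126151 / 3) * R.k1 + (126154 / 3) * R.k2 + (17 / 25) * s1 + t2)
  linear_combination (62500 / 62451) * e6 + (500000 / 497309) * e5 + (1000000 / 942879) * e4 + (1000000 / 242839) * e3 + (500000 / 235359) * e2 + (272927110910150 / 189389724267807) * e1 + (8850500500 / 19627912143) * R.k2 + (1026218523394848969500540 / 20662644609714453804403281) * s1 + (196137123518225 / 757558897071228) * b2 + (4524243437700500 / 4766422556893977) * t1 + c2 + R.g3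

theorem m35 {s b t k G2 G3 : ℝ} (R : Reg s b t k G2 G3) (hT : t ≤ 284 / 1000 * s) (hb : s - t ≤ b) (hc : b ≤ s - t + 3 / 200) (hy : s - t ≤ 1 / 2)
    (s1 : 433 / 1000 ≤ s) (s2 : s ≤ 963 / 2000)
    (b1 : 3 / 8 ≤ b) (b2 : b ≤ 2 / 5) (t1 : 153 / 1250 ≤ t) (t2 : t ≤ 659 / 5000) :
    4 * ph (s - t) - 2 * ph s + 13 / 1000 ≤ G2 + G3 := by
  exfalso
  exact absurd b1 (not_le.mpr (by linear_combination s2 + t1 + hc))

theorem m40 {s b t k G2 G3 : ℝ} (R : Reg s b t k G2 G3) (hT : t ≤ 284 / 1000 * s) (hb : s - t ≤ b) (hc : b ≤ s - t + 3 / 200) (hy : s - t ≤ 1 / 2)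
    (s1 : 963 / 2000 ≤ s) (s2 : s ≤ 2529 / 5000)
    (b1 : 7 / 20 ≤ b) (b2 : b ≤ 3 / 8) (t1 : 113 / 1000 ≤ t) (t2 : t ≤ 1177 / 10000) :
    4 * ph (s - t) - 2 * ph s + 13 / 1000 ≤ G2 + G3 := by
  have e1 := up (t1 := (180 / 1000)) (t2 := (195 / 1000)) (x := b) (by norm_num)
    (by linear_combination (2581 / 2500) * b1) (by linear_combination (41521 / 40000) * b2)
  have e2 := R.lo0 (264 / 1000) (by norm_num)
  have e3 := up (t1 := (188 / 1000)) (t2 := (205 / 1000)) (x := s - t) (by norm_num)
    (by linear_combination (64709 / 62500) * s1 + (64709 / 62500) * t2) (by linear_combination (41681 / 40000) * s2 + (41681 / 40000) * t1)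
  have e4 := R.lo2 (268 / 1000) (by norm_num)
  have e5 := up (t1 := (77 / 1000)) (t2 := (82 / 1000)) (x := 8 / 25 * s) (by norm_num)
    (by linear_combination (1005929 / 3125000) * s1) (by linear_combination (251681 / 781250) * s2)
  have e6 := R.lo6 (-10 / 1000) (by norm_num)
  have e7 := R.lo7 (587 / 1000) (by norm_num)
  have e8 := R.lo8 (184 / 1000) (by norm_num)
  have c2 := R.k13 (by linear_combination (4 / 3) * e1 + (126151 / 3) * R.k1 + (126154 / 3) * R.k2 + (17 / 25) * s1 + t2)
  have c3 := R.l20 (by linear_combination (86603 / 96490) * e1 + R.k2 + (126151 / 771920) * b1 + t2) (by linear_combination (86603 / 96490) * e1 + R.k2 + s1 + (645769 / 771920) * b2 + t2)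
  linear_combination (1174000 / 655431) * R.h1 + (15625 / 15096) * e8 + (1000000 / 655431) * e7 + (10000 / 9999) * e6 + (500000 / 496843) * e5 + (62500 / 58011) * e4 + (200000 / 48073) * e3 + (15625 / 7268) * e2 + (715792810420973769145 / 186458266803936126888) * e1 + (209139309493519325 / 106282564765431516) * R.k2 + (214333793442656090953 / 16782281023460046421338) * s1 + (899222031595642757185 / 16408327478746379166144) * b2 + (1700144434719037353125 / 5109321735968589268668) * t2 + c2 + c3

theorem m41 {s b t k G2 G3 : ℝ} (R : Reg s b t k G2 G3) (hT : t ≤ 284 / 1000 * s) (hb : s - t ≤ b) (hc : b ≤ s - t + 3 / 200) (hy : s - t ≤ 1 / 2)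
    (s1 : 963 / 2000 ≤ s) (s2 : s ≤ 2529 / 5000)
    (b1 : 7 / 20 ≤ b) (b2 : b ≤ 3 / 8) (t1 : 1177 / 10000 ≤ t) (t2 : t ≤ 153 / 1250) :
    4 * ph (s - t) - 2 * ph s + 13 / 1000 ≤ G2 + G3 := by
  have e1 := up (t1 := (180 / 1000)) (t2 := (195 / 1000)) (x := b) (by norm_num)
    (by linear_combination (2581 / 2500) * b1) (by linear_combination (41521 / 40000) * b2)
  have e2 := R.lo0 (264 / 1000) (by norm_num)
  have e3 := up (t1 := (185 / 1000)) (t2 := (202 / 1000)) (x := s - t) (by norm_num)
    (by linear_combination (41369 / 40000) * s1 + (41369 / 40000) * t2) (by linear_combination (260201 / 250000) * s2 + (260201 / 250000) * t1)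
  have e4 := R.lo2 (265 / 1000) (by norm_num)
  have e5 := up (t1 := (77 / 1000)) (t2 := (82 / 1000)) (x := 8 / 25 * s) (by norm_num)
    (by linear_combination (1005929 / 3125000) * s1) (by linear_combination (251681 / 781250) * s2)
  have e6 := R.lo6 (-12 / 1000) (by norm_num)
  have c2 := R.k12 (by linear_combination (86603 / 96490) * e1 + R.k2 + s1 + (645769 / 771920) * b2 + t2) (by linear_combination (4 / 3) * e1 + (126151 / 3) * R.k1 + (126154 / 3) * R.k2 + (17 / 25) * s1 + t2)
  linear_combination (62500 / 62491) * e6 + (500000 / 496843) * e5 + (40000 / 37191) * e4 + (400000 / 96263) * e3 + (15625 / 7268) * e2 + (12300088070 / 8057947443) * e1 + (5015900 / 9186177) * R.k2 + (2049424616906859575 / 69417738930267621894) * s1 + (97644196955 / 354549687492) * b2 + (939174617900 / 884288956551) * t1 + c2 + R.g3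

theorem m42 {s b t k G2 G3 : ℝ} (R : Reg s b t k G2 G3) (hT : t ≤ 284 / 1000 * s) (hb : s - t ≤ b) (hc : b ≤ s - t + 3 / 200) (hy : s - t ≤ 1 / 2)
    (s1 : 2529 / 5000 ≤ s) (s2 : s ≤ 53 / 100)
    (b1 : 7 / 20 ≤ b) (b2 : b ≤ 3 / 8) (t1 : 113 / 1000 ≤ t) (t2 : t ≤ 153 / 1250) :
    4 * ph (s - t) - 2 * ph s + 13 / 1000 ≤ G2 + G3 := by
  exfalso
  exact absurd b2 (not_le.mpr (by linear_combination s1 + t2 + hb))

theorem m43 {s b t k G2 G3 : ℝ} (R : Reg s b t k G2 G3) (hT : t ≤ 284 / 1000 * s) (hb : s - t ≤ b) (hc : b ≤ s - t + 3 / 200) (hy : s - t ≤ 1 / 2)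
    (s1 : 963 / 2000 ≤ s) (s2 : s ≤ 53 / 100)
    (b1 : 3 / 8 ≤ b) (b2 : b ≤ 2 / 5) (t1 : 113 / 1000 ≤ t) (t2 : t ≤ 153 / 1250) :
    4 * ph (s - t) - 2 * ph s + 13 / 1000 ≤ G2 + G3 := by
  have e1 := up (t1 := (194 / 1000)) (t2 := (209 / 1000)) (x := b) (by norm_num)
    (by linear_combination (259409 / 250000) * b1) (by linear_combination (1043681 / 1000000) * b2)
  have e2 := R.lo0 (272 / 1000) (by norm_num)
  have e3 := up (t1 := (185 / 1000)) (t2 := (219 / 1000)) (x := s - t) (by norm_num)
    (by linear_combination (41369 / 40000) * s1 + (41369 / 40000) * t2) (by linear_combination (1047961 / 1000000) * s2 + (1047961 / 1000000) * t1)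
  have e4 := R.lo2 (277 / 1000) (by norm_num)
  have e5 := up (t1 := (77 / 1000)) (t2 := (86 / 1000)) (x := 8 / 25 * s) (by norm_num)
    (by linear_combination (1005929 / 3125000) * s1) (by linear_combination (251849 / 781250) * s2)
  have e6 := R.lo6 (-18 / 1000) (by norm_num)
  have e7 := R.lo7 (589 / 1000) (by norm_num)
  have e8 := R.lo8 (197 / 1000) (by norm_num)
  have c2 := R.k13 (by linear_combination (500 / 403) * e1 + (13071691 / 403) * R.k1 + (13072094 / 403) * R.k2 + (17 / 25) * s1 + t2)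
  have c3 := R.l20 (by linear_combination (433015 / 479727) * e1 + R.k2 + (13071691 / 95945400) * b1 + t2) (by linear_combination (433015 / 479727) * e1 + R.k2 + s1 + (82873709 / 95945400) * b2 + t2)
  linear_combination (1178000 / 653079) * R.h1 + (1000000 / 961191) * e8 + (1000000 / 653079) * e7 + (250000 / 249919) * e6 + (500000 / 496689) * e5 + (1000000 / 923271) * e4 + (800000 / 191897) * e3 + (31250 / 14469) * e2 + (55172920312968965759315000 / 14324081101571302163309997) * e1 + (643061157933547231000 / 328446996140063669121) * R.k2 + (161861656372209801124800 / 11785715376406025062935199) * s1 + (140513462204947382126919265 / 1102954244820990266574869769) * b2 + (17247437871505335127299800 / 63027993218289797913312537) * t2 + c2 + c3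

theorem m45 {s b t k G2 G3 : ℝ} (R : Reg s b t k G2 G3) (hT : t ≤ 284 / 1000 * s) (hb : s - t ≤ b) (hc : b ≤ s - t + 3 / 200) (hy : s - t ≤ 1 / 2)
    (s1 : 963 / 2000 ≤ s) (s2 : s ≤ 53 / 100)
    (b1 : 7 / 20 ≤ b) (b2 : b ≤ 3 / 8) (t1 : 153 / 1250 ≤ t) (t2 : t ≤ 659 / 5000) :
    4 * ph (s - t) - 2 * ph s + 13 / 1000 ≤ G2 + G3 := by
  have e1 := up (t1 := (180 / 1000)) (t2 := (195 / 1000)) (x := b) (by norm_num)
    (by linear_combination (2581 / 2500) * b1) (by linear_combination (41521 / 40000) * b2)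
  have e2 := R.lo0 (272 / 1000) (by norm_num)
  have e3 := up (t1 := (180 / 1000)) (t2 := (214 / 1000)) (x := s - t) (by norm_num)
    (by linear_combination (2581 / 2500) * s1 + (2581 / 2500) * t2) (by linear_combination (261449 / 250000) * s2 + (261449 / 250000) * t1)
  have e4 := R.lo2 (269 / 1000) (by norm_num)
  have e5 := up (t1 := (77 / 1000)) (t2 := (86 / 1000)) (x := 8 / 25 * s) (by norm_num)
    (by linear_combination (1005929 / 3125000) * s1) (by linear_combination (251849 / 781250) * s2)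
  have e6 := R.lo6 (-12 / 1000) (by norm_num)
  have c2 := R.k12 (by linear_combination (86603 / 96490) * e1 + R.k2 + s1 + (645769 / 771920) * b2 + t2) (by linear_combination (4 / 3) * e1 + (126151 / 3) * R.k1 + (126154 / 3) * R.k2 + (17 / 25) * s1 + t2)
  linear_combination (62500 / 62491) * e6 + (500000 / 496689) * e5 + (1000000 / 927639) * e4 + (100000 / 24037) * e3 + (31250 / 14469) * e2 + (78072826706350 / 50849430667191) * e1 + (32228699500 / 57969088749) * R.k2 + (24859354952375140 / 529790642371989999) * s1 + (612547465437775 / 2237374949356404) * b2 + (2700001514900 / 2492670816207) * t1 + c2 + R.g3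

theorem m48 {s b t k G2 G3 : ℝ} (R : Reg s b t k G2 G3) (hT : t ≤ 284 / 1000 * s) (hb : s - t ≤ b) (hc : b ≤ s - t + 3 / 200) (hy : s - t ≤ 1 / 2)
    (s1 : 963 / 2000 ≤ s) (s2 : s ≤ 53 / 100)
    (b1 : 3 / 8 ≤ b) (b2 : b ≤ 31 / 80) (t1 : 153 / 1250 ≤ t) (t2 : t ≤ 1271 / 10000) :
    4 * ph (s - t) - 2 * ph s + 13 / 1000 ≤ G2 + G3 := by
  have e1 := up (t1 := (194 / 1000)) (t2 := (202 / 1000)) (x := b) (by norm_num)
    (by linear_combination (259409 / 250000) * b1) (by linear_combination (260201 / 250000) * b2)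
  have e2 := R.lo0 (272 / 1000) (by norm_num)
  have e3 := up (t1 := (183 / 1000)) (t2 := (214 / 1000)) (x := s - t) (by norm_num)
    (by linear_combination (1033489 / 1000000) * s1 + (1033489 / 1000000) * t2) (by linear_combination (261449 / 250000) * s2 + (261449 / 250000) * t1)
  have e4 := R.lo2 (272 / 1000) (by norm_num)
  have e5 := up (t1 := (77 / 1000)) (t2 := (86 / 1000)) (x := 8 / 25 * s) (by norm_num)
    (by linear_combination (1005929 / 3125000) * s1) (by linear_combination (251849 / 781250) * s2)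
  have e6 := R.lo6 (-18 / 1000) (by norm_num)
  have c2 := R.k12 (by linear_combination (433015 / 480406) * e1 + R.k2 + s1 + (20583847 / 24020300) * b2 + t2) (by linear_combination (125 / 99) * e1 + (3436453 / 99) * R.k1 + (3436552 / 99) * R.k2 + (17 / 25) * s1 + t2)
  linear_combination (250000 / 249919) * e6 + (500000 / 496689) * e5 + (15625 / 14469) * e4 + (2000000 / 480419) * e3 + (31250 / 14469) * e2 + (1335755051678750 / 868592786476233) * e1 + (1994090500 / 3616078011) * R.k2 + (9396287027740549100 / 287621437968137685867) * s1 + (258186265416035 / 868592786476233) * b2 + (1913166976814500 / 1737232581966609) * t1 + c2 + R.g3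

theorem m50 {s b t k G2 G3 : ℝ} (R : Reg s b t k G2 G3) (hT : t ≤ 284 / 1000 * s) (hb : s - t ≤ b) (hc : b ≤ s - t + 3 / 200) (hy : s - t ≤ 1 / 2)
    (s1 : 963 / 2000 ≤ s) (s2 : s ≤ 53 / 100)
    (b1 : 31 / 80 ≤ b) (b2 : b ≤ 2 / 5) (t1 : 153 / 1250 ≤ t) (t2 : t ≤ 78 / 625) :
    4 * ph (s - t) - 2 * ph s + 13 / 1000 ≤ G2 + G3 := by
  have e1 := up (t1 := (201 / 1000)) (t2 := (209 / 1000)) (x := b) (by norm_num)
    (by linear_combination (1040401 / 1000000) * b1) (by linear_combination (1043681 / 1000000) * b2)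
  have e2 := R.lo0 (272 / 1000) (by norm_num)
  have e3 := up (t1 := (184 / 1000)) (t2 := (214 / 1000)) (x := s - t) (by norm_num)
    (by linear_combination (16154 / 15625) * s1 + (16154 / 15625) * t2) (by linear_combination (261449 / 250000) * s2 + (261449 / 250000) * t1)
  have e4 := R.lo2 (274 / 1000) (by norm_num)
  have e5 := up (t1 := (77 / 1000)) (t2 := (86 / 1000)) (x := 8 / 25 * s) (by norm_num)
    (by linear_combination (1005929 / 3125000) * s1) (by linear_combination (251849 / 781250) * s2)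
  have e6 := R.lo6 (-23 / 1000) (by norm_num)
  have e7 := R.lo7 (582 / 1000) (by norm_num)
  have e8 := R.lo8 (203 / 1000) (by norm_num)
  have c2 := R.k13 (by linear_combination (50 / 41) * e1 + (1239232 / 41) * R.k1 + (1239273 / 41) * R.k2 + (17 / 25) * s1 + t2)
  have c3 := R.l20 (by linear_combination (866030 / 957991) * e1 + R.k2 + (619616 / 4789955) * b1 + t2) (by linear_combination (866030 / 957991) * e1 + R.k2 + s1 + (4170339 / 4789955) * b2 + t2)
  linear_combination (291000 / 165319) * R.h1 + (1000000 / 958791) * e8 + (250000 / 165319) * e7 + (1000000 / 999471) * e6 + (500000 / 496689) * e5 + (250000 / 231231) * e4 + (250000 / 60039) * e3 + (31250 / 14469) * e2 + (528740371572247034320000 / 139503319731391386291521) * e1 + (3016626091218384000 / 1601827696758430141) * R.k2 + (4628896909225258700 / 175693472720578009197) * s1 + (657729906468283666777600 / 4603609551135915747620193) * b2 + (3104765437599536849500 / 13738876155097055319357) * t2 + c2 + c3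

theorem m51 {s b t k G2 G3 : ℝ} (R : Reg s b t k G2 G3) (hT : t ≤ 284 / 1000 * s) (hb : s - t ≤ b) (hc : b ≤ s - t + 3 / 200) (hy : s - t ≤ 1 / 2)
    (s1 : 963 / 2000 ≤ s) (s2 : s ≤ 53 / 100)
    (b1 : 31 / 80 ≤ b) (b2 : b ≤ 2 / 5) (t1 : 78 / 625 ≤ t) (t2 : t ≤ 1271 / 10000) :
    4 * ph (s - t) - 2 * ph s + 13 / 1000 ≤ G2 + G3 := by
  have e1 := up (t1 := (201 / 1000)) (t2 := (209 / 1000)) (x := b) (by norm_num)
    (by linear_combination (1040401 / 1000000) * b1) (by linear_combination (1043681 / 1000000) * b2)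
  have e2 := R.lo0 (272 / 1000) (by norm_num)
  have e3 := up (t1 := (183 / 1000)) (t2 := (212 / 1000)) (x := s - t) (by norm_num)
    (by linear_combination (1033489 / 1000000) * s1 + (1033489 / 1000000) * t2) (by linear_combination (65309 / 62500) * s2 + (65309 / 62500) * t1)
  have e4 := R.lo2 (272 / 1000) (by norm_num)
  have e5 := up (t1 := (77 / 1000)) (t2 := (86 / 1000)) (x := 8 / 25 * s) (by norm_num)
    (by linear_combination (1005929 / 3125000) * s1) (by linear_combination (251849 / 781250) * s2)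
  have e6 := R.lo6 (-24 / 1000) (by norm_num)
  have c2 := R.k12 (by linear_combination (866030 / 957991) * e1 + R.k2 + s1 + (4170339 / 4789955) * b2 + t2) (by linear_combination (50 / 41) * e1 + (1239232 / 41) * R.k1 + (1239273 / 41) * R.k2 + (17 / 25) * s1 + t2)
  linear_combination (15625 / 15616) * e6 + (500000 / 496689) * e5 + (15625 / 14469) * e4 + (1000000 / 240301) * e3 + (31250 / 14469) * e2 + (82875830256875 / 54114014625216) * e1 + (60942125 / 112973952) * R.k2 + (150347698783880795 / 4494663535825147776) * s1 + (33569237758075 / 108228029250432) * b2 + (29980257460375 / 27147753639552) * t1 + c2 + R.g3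

theorem m52 {s b t k G2 G3 : ℝ} (R : Reg s b t k G2 G3) (hT : t ≤ 284 / 1000 * s) (hb : s - t ≤ b) (hc : b ≤ s - t + 3 / 200) (hy : s - t ≤ 1 / 2)
    (s1 : 963 / 2000 ≤ s) (s2 : s ≤ 53 / 100)
    (b1 : 3 / 8 ≤ b) (b2 : b ≤ 2 / 5) (t1 : 1271 / 10000 ≤ t) (t2 : t ≤ 659 / 5000) :
    4 * ph (s - t) - 2 * ph s + 13 / 1000 ≤ G2 + G3 := by
  have e1 := up (t1 := (194 / 1000)) (t2 := (209 / 1000)) (x := b) (by norm_num)
    (by linear_combination (259409 / 250000) * b1) (by linear_combination (1043681 / 1000000) * b2)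
  have e2 := R.lo0 (272 / 1000) (by norm_num)
  have e3 := up (t1 := (180 / 1000)) (t2 := (211 / 1000)) (x := s - t) (by norm_num)
    (by linear_combination (2581 / 2500) * s1 + (2581 / 2500) * t2) (by linear_combination (1044521 / 1000000) * s2 + (1044521 / 1000000) * t1)
  have e4 := R.lo2 (269 / 1000) (by norm_num)
  have e5 := up (t1 := (77 / 1000)) (t2 := (86 / 1000)) (x := 8 / 25 * s) (by norm_num)
    (by linear_combination (1005929 / 3125000) * s1) (by linear_combination (251849 / 781250) * s2)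
  have e6 := R.lo6 (-24 / 1000) (by norm_num)
  have c2 := R.k12 (by linear_combination (433015 / 479727) * e1 + R.k2 + s1 + (82873709 / 95945400) * b2 + t2) (by linear_combination (500 / 403) * e1 + (13071691 / 403) * R.k1 + (13072094 / 403) * R.k2 + (17 / 25) * s1 + t2)
  linear_combination (15625 / 15616) * e6 + (500000 / 496689) * e5 + (1000000 / 927639) * e4 + (200000 / 48101) * e3 + (31250 / 14469) * e2 + (5289839897965625 / 3474665209309824) * e1 + (3852839375 / 7243005312) * R.k2 + (42336436818874798615 / 962621628582559300992) * s1 + (489774065175275 / 1635136569086976) * b2 + (381077588621525 / 348395798512512) * t1 + c2 + R.g3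

theorem m54 {s b t k G2 G3 : ℝ} (R : Reg s b t k G2 G3) (hT : t ≤ 284 / 1000 * s) (hb : s - t ≤ b) (hc : b ≤ s - t + 3 / 200) (hy : s - t ≤ 1 / 2)
    (s1 : 433 / 1000 ≤ s) (s2 : s ≤ 963 / 2000)
    (b1 : 3 / 10 ≤ b) (b2 : b ≤ 2 / 5) (t1 : 659 / 5000 ≤ t) (t2 : t ≤ 753 / 5000) :
    4 * ph (s - t) - 2 * ph s + 13 / 1000 ≤ G2 + G3 := by
  have e1 := up (t1 := (153 / 1000)) (t2 := (209 / 1000)) (x := b) (by norm_num)
    (by linear_combination (1023409 / 1000000) * b1) (by linear_combination (1043681 / 1000000) * b2)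
  have e2 := R.lo0 (242 / 1000) (by norm_num)
  have e3 := up (t1 := (144 / 1000)) (t2 := (181 / 1000)) (x := s - t) (by norm_num)
    (by linear_combination (15949 / 15625) * s1 + (15949 / 15625) * t2) (by linear_combination (1032761 / 1000000) * s2 + (1032761 / 1000000) * t1)
  have e4 := R.lo2 (229 / 1000) (by norm_num)
  have e5 := up (t1 := (69 / 1000)) (t2 := (78 / 1000)) (x := 8 / 25 * s) (by norm_num)
    (by linear_combination (1004761 / 3125000) * s1) (by linear_combination (251521 / 781250) * s2)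
  have e6 := R.lo6 (-31 / 1000) (by norm_num)
  have c2 := R.k12 (by linear_combination (866030 / 968023) * e1 + R.k2 + s1 + (19937859 / 24200575) * b2 + t2) (by linear_combination (250 / 181) * e1 + (8525432 / 181) * R.k1 + (8525613 / 181) * R.k2 + (17 / 25) * s1 + t2)
  linear_combination (1000000 / 999039) * e6 + (500000 / 497309) * e5 + (1000000 / 947559) * e4 + (250000 / 60871) * e3 + (500000 / 235359) * e2 + (143558984755680000 / 101819713338719047) * e1 + (44312356000 / 105183155089) * R.k2 + (3847447591709897720944010 / 44082360107821392607245717) * s1 + (3821331773789920 / 16076796842955639) * b2 + (5848793928905250 / 6402603833422519) * t1 + c2 + R.g3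

theorem m55 {s b t k G2 G3 : ℝ} (R : Reg s b t k G2 G3) (hT : t ≤ 284 / 1000 * s) (hb : s - t ≤ b) (hc : b ≤ s - t + 3 / 200) (hy : s - t ≤ 1 / 2)
    (s1 : 963 / 2000 ≤ s) (s2 : s ≤ 53 / 100)
    (b1 : 3 / 10 ≤ b) (b2 : b ≤ 2 / 5) (t1 : 659 / 5000 ≤ t) (t2 : t ≤ 753 / 5000) :
    4 * ph (s - t) - 2 * ph s + 13 / 1000 ≤ G2 + G3 := by
  have e1 := up (t1 := (153 / 1000)) (t2 := (209 / 1000)) (x := b) (by norm_num)
    (by linear_combination (1023409 / 1000000) * b1) (by linear_combination (1043681 / 1000000) * b2)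
  have e2 := R.lo0 (272 / 1000) (by norm_num)
  have e3 := up (t1 := (170 / 1000)) (t2 := (208 / 1000)) (x := s - t) (by norm_num)
    (by linear_combination (10289 / 10000) * s1 + (10289 / 10000) * t2) (by linear_combination (16301 / 15625) * s2 + (16301 / 15625) * t1)
  have e4 := R.lo2 (258 / 1000) (by norm_num)
  have e5 := up (t1 := (77 / 1000)) (t2 := (86 / 1000)) (x := 8 / 25 * s) (by norm_num)
    (by linear_combination (1005929 / 3125000) * s1) (by linear_combination (251849 / 781250) * s2)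
  have e6 := R.lo6 (-14 / 1000) (by norm_num)
  have c2 := R.k12 (by linear_combination (866030 / 968023) * e1 + R.k2 + s1 + (19937859 / 24200575) * b2 + t2) (by linear_combination (250 / 181) * e1 + (8525432 / 181) * R.k1 + (8525613 / 181) * R.k2 + (17 / 25) * s1 + t2)
  linear_combination (250000 / 249951) * e6 + (500000 / 496689) * e5 + (250000 / 233359) * e4 + (25000 / 6029) * e3 + (31250 / 14469) * e2 + (4990449262940000 / 3321361815715671) * e1 + (1800598000 / 3431077377) * R.k2 + (5959640446601630 / 67153539354093829) * s1 + (280672044086760 / 1107120605238557) * b2 + (21567875870650 / 20685965505933) * t1 + c2 + R.g3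

theorem m60 {s b t k G2 G3 : ℝ} (R : Reg s b t k G2 G3) (hT : t ≤ 284 / 1000 * s) (hb : s - t ≤ b) (hc : b ≤ s - t + 3 / 200) (hy : s - t ≤ 1 / 2)
    (s1 : 433 / 1000 ≤ s) (s2 : s ≤ 4573 / 10000)
    (b1 : 2 / 5 ≤ b) (b2 : b ≤ 1 / 2) (t1 : 0 ≤ t) (t2 : t ≤ 377 / 10000) :
    4 * ph (s - t) - 2 * ph s + 13 / 1000 ≤ G2 + G3 := by
  have e1 := up (t1 := (208 / 1000)) (t2 := (268 / 1000)) (x := b) (by norm_num)
    (by linear_combination (16301 / 15625) * b1) (by linear_combination (66989 / 62500) * b2)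
  have e2 := R.lo0 (235 / 1000) (by norm_num)
  have e3 := up (t1 := (206 / 1000)) (t2 := (243 / 1000)) (x := s - t) (by norm_num)
    (by linear_combination (260609 / 250000) * s1 + (260609 / 250000) * t2) (by linear_combination (1059049 / 1000000) * s2 + (1059049 / 1000000) * t1)
  have e4 := R.lo2 (304 / 1000) (by norm_num)
  have e5 := up (t1 := (69 / 1000)) (t2 := (74 / 1000)) (x := 8 / 25 * s) (by norm_num)
    (by linear_combination (1004761 / 3125000) * s1) (by linear_combination (251369 / 781250) * s2)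
  have e6 := R.lo6 (-18 / 1000) (by norm_num)
  have e7 := R.lo7 (780 / 1000) (by norm_num)
  have e8 := R.lo8 (174 / 1000) (by norm_num)
  have c2 := R.k13 (by linear_combination (125 / 119) * e1 + (1497443 / 119) * R.k1 + (1497562 / 119) * R.k2 + (17 / 25) * s1 + t2)
  have c3 := R.l20 (by linear_combination (125 / 119) * e1 + (1497443 / 119) * R.k1 + (1497562 / 119) * R.k2 + t2) (by linear_combination (433015 / 472128) * e1 + R.k2 + s1 + (22108957 / 23606400) * b2 + t2)
  linear_combination (3900 / 979) * R.h1 + (250000 / 242431) * e8 + (2500 / 979) * e7 + (250000 / 249919) * e6 + (500000 / 497447) * e5 + (15625 / 14181) * e4 + (2000000 / 474971) * e3 + (80000 / 37791) * e2 + (3398174305014082156000 / 564110358422649959277) * e1 + (3582226665775601600 / 841156831049091711) * R.k2 + (3125159640447974801496820 / 10548414107571648902310171) * s2 + (2129503420663468531216 / 6205213942649149552047) * b2 + (19308060150775896144400 / 8153573493882002838069) * t2 + c2 + c3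

theorem m62 {s b t k G2 G3 : ℝ} (R : Reg s b t k G2 G3) (hT : t ≤ 284 / 1000 * s) (hb : s - t ≤ b) (hc : b ≤ s - t + 3 / 200) (hy : s - t ≤ 1 / 2)
    (s1 : 433 / 1000 ≤ s) (s2 : s ≤ 4573 / 10000)
    (b1 : 2 / 5 ≤ b) (b2 : b ≤ 9 / 20) (t1 : 377 / 10000 ≤ t) (t2 : t ≤ 753 / 10000) :
    4 * ph (s - t) - 2 * ph s + 13 / 1000 ≤ G2 + G3 := by
  have e1 := up (t1 := (208 / 1000)) (t2 := (238 / 1000)) (x := b) (by norm_num)
    (by linear_combination (16301 / 15625) * b1) (by linear_combination (264161 / 250000) * b2)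
  have e2 := R.lo0 (235 / 1000) (by norm_num)
  have e3 := up (t1 := (184 / 1000)) (t2 := (220 / 1000)) (x := s - t) (by norm_num)
    (by linear_combination (16154 / 15625) * s1 + (16154 / 15625) * t2) (by linear_combination (2621 / 2500) * s2 + (2621 / 2500) * t1)
  have e4 := R.lo2 (280 / 1000) (by norm_num)
  have e5 := up (t1 := (69 / 1000)) (t2 := (74 / 1000)) (x := 8 / 25 * s) (by norm_num)
    (by linear_combination (1004761 / 3125000) * s1) (by linear_combination (251369 / 781250) * s2)
  have e6 := R.lo6 (-24 / 1000) (by norm_num)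
  have e7 := R.lo7 (700 / 1000) (by norm_num)
  have e8 := R.lo8 (182 / 1000) (by norm_num)
  have c2 := R.k13 (by linear_combination (250 / 223) * e1 + (4449931 / 223) * R.k1 + (4450154 / 223) * R.k2 + (17 / 25) * s1 + t2)
  have c3 := R.l20 (by linear_combination (250 / 223) * e1 + (4449931 / 223) * R.k1 + (4450154 / 223) * R.k2 + t2) (by linear_combination (433015 / 475248) * e1 + R.k2 + s1 + (43074869 / 47524800) * b2 + t2)
  linear_combination (140 / 51) * R.h1 + (250000 / 241719) * e8 + (100 / 51) * e7 + (15625 / 15616) * e6 + (500000 / 497447) * e5 + (625 / 576) * e4 + (25000 / 5997) * e3 + (80000 / 37791) * e2 + (218302319767616575 / 45744729888208896) * e1 + (281856010105 / 96254439552) * R.k2 + (47018677284707125 / 293418706969574784) * s2 + (219370839983609449 / 914894597764177920) * b2 + (239373551041495 / 192412624664448) * t2 + c2 + c3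

theorem m63 {s b t k G2 G3 : ℝ} (R : Reg s b t k G2 G3) (hT : t ≤ 284 / 1000 * s) (hb : s - t ≤ b) (hc : b ≤ s - t + 3 / 200) (hy : s - t ≤ 1 / 2)
    (s1 : 433 / 1000 ≤ s) (s2 : s ≤ 4573 / 10000)
    (b1 : 9 / 20 ≤ b) (b2 : b ≤ 1 / 2) (t1 : 377 / 10000 ≤ t) (t2 : t ≤ 753 / 10000) :
    4 * ph (s - t) - 2 * ph s + 13 / 1000 ≤ G2 + G3 := by
  exfalso
  exact absurd b1 (not_le.mpr (by linear_combination s2 + t1 + hc))

theorem m64 {s b t k G2 G3 : ℝ} (R : Reg s b t k G2 G3) (hT : t ≤ 284 / 1000 * s) (hb : s - t ≤ b) (hc : b ≤ s - t + 3 / 200) (hy : s - t ≤ 1 / 2)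
    (s1 : 433 / 1000 ≤ s) (s2 : s ≤ 4573 / 10000)
    (b1 : 2 / 5 ≤ b) (b2 : b ≤ 1 / 2) (t1 : 753 / 10000 ≤ t) (t2 : t ≤ 753 / 5000) :
    4 * ph (s - t) - 2 * ph s + 13 / 1000 ≤ G2 + G3 := by
  exfalso
  exact absurd b1 (not_le.mpr (by linear_combination s2 + t1 + hc))

theorem m67 {s b t k G2 G3 : ℝ} (R : Reg s b t k G2 G3) (hT : t ≤ 284 / 1000 * s) (hb : s - t ≤ b) (hc : b ≤ s - t + 3 / 200) (hy : s - t ≤ 1 / 2)
    (s1 : 4573 / 10000 ≤ s) (s2 : s ≤ 963 / 2000)
    (b1 : 2 / 5 ≤ b) (b2 : b ≤ 1 / 2) (t1 : 0 ≤ t) (t2 : t ≤ 377 / 10000) :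
    4 * ph (s - t) - 2 * ph s + 13 / 1000 ≤ G2 + G3 := by
  have e1 := up (t1 := (208 / 1000)) (t2 := (268 / 1000)) (x := b) (by norm_num)
    (by linear_combination (16301 / 15625) * b1) (by linear_combination (66989 / 62500) * b2)
  have e2 := R.lo0 (249 / 1000) (by norm_num)
  have e3 := up (t1 := (219 / 1000)) (t2 := (257 / 1000)) (x := s - t) (by norm_num)
    (by linear_combination (1047961 / 1000000) * s1 + (1047961 / 1000000) * t2) (by linear_combination (1066049 / 1000000) * s2 + (1066049 / 1000000) * t1)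
  have e4 := R.lo2 (321 / 1000) (by norm_num)
  have e5 := up (t1 := (73 / 1000)) (t2 := (78 / 1000)) (x := 8 / 25 * s) (by norm_num)
    (by linear_combination (1005329 / 3125000) * s1) (by linear_combination (251521 / 781250) * s2)
  have e6 := R.lo6 (-9 / 1000) (by norm_num)
  have e7 := R.lo7 (780 / 1000) (by norm_num)
  have e8 := R.lo8 (174 / 1000) (by norm_num)
  have c2 := R.k13 (by linear_combination (125 / 119) * e1 + (1497443 / 119) * R.k1 + (1497562 / 119) * R.k2 + (17 / 25) * s1 + t2)
  have c3 := R.l20 (by linear_combination (125 / 119) * e1 + (1497443 / 119) * R.k1 + (1497562 / 119) * R.k2 + t2) (by linear_combination (433015 / 472128) * e1 + R.k2 + s1 + (22108957 / 23606400) * b2 + t2)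
  linear_combination (3900 / 979) * R.h1 + (250000 / 242431) * e8 + (2500 / 979) * e7 + (1000000 / 999919) * e6 + (500000 / 497153) * e5 + (1000000 / 896959) * e4 + (4000000 / 943717) * e3 + (2000000 / 937999) * e2 + (283532231994144407502875 / 46614309808303673987952) * e1 + (18778089767110055100 / 4344223667237193421) * R.k2 + (118729001533369343541147566720 / 394704093841327918205985349979) * s2 + (2563763363889281761656349 / 7178603710478765794144608) * b2 + (9449800678328183595222700 / 4099717726574082463685857) * t2 + c2 + c3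

theorem m69 {s b t k G2 G3 : ℝ} (R : Reg s b t k G2 G3) (hT : t ≤ 284 / 1000 * s) (hb : s - t ≤ b) (hc : b ≤ s - t + 3 / 200) (hy : s - t ≤ 1 / 2)
    (s1 : 4573 / 10000 ≤ s) (s2 : s ≤ 963 / 2000)
    (b1 : 2 / 5 ≤ b) (b2 : b ≤ 9 / 20) (t1 : 377 / 10000 ≤ t) (t2 : t ≤ 753 / 10000) :
    4 * ph (s - t) - 2 * ph s + 13 / 1000 ≤ G2 + G3 := by
  have e1 := up (t1 := (208 / 1000)) (t2 := (238 / 1000)) (x := b) (by norm_num)
    (by linear_combination (16301 / 15625) * b1) (by linear_combination (264161 / 250000) * b2)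
  have e2 := R.lo0 (249 / 1000) (by norm_num)
  have e3 := up (t1 := (198 / 1000)) (t2 := (235 / 1000)) (x := s - t) (by norm_num)
    (by linear_combination (259801 / 250000) * s1 + (259801 / 250000) * t2) (by linear_combination (42209 / 40000) * s2 + (42209 / 40000) * t1)
  have e4 := R.lo2 (295 / 1000) (by norm_num)
  have e5 := up (t1 := (73 / 1000)) (t2 := (78 / 1000)) (x := 8 / 25 * s) (by norm_num)
    (by linear_combination (1005329 / 3125000) * s1) (by linear_combination (251521 / 781250) * s2)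
  have e6 := R.lo6 (-16 / 1000) (by norm_num)
  have e7 := R.lo7 (700 / 1000) (by norm_num)
  have e8 := R.lo8 (182 / 1000) (by norm_num)
  have c2 := R.k13 (by linear_combination (250 / 223) * e1 + (4449931 / 223) * R.k1 + (4450154 / 223) * R.k2 + (17 / 25) * s1 + t2)
  have c3 := R.l20 (by linear_combination (250 / 223) * e1 + (4449931 / 223) * R.k1 + (4450154 / 223) * R.k2 + t2) (by linear_combination (433015 / 475248) * e1 + R.k2 + s1 + (43074869 / 47524800) * b2 + t2)
  linear_combination (140 / 51) * R.h1 + (250000 / 241719) * e8 + (100 / 51) * e7 + (15625 / 15621) * e6 + (500000 / 497153) * e5 + (40000 / 36519) * e4 + (400000 / 95347) * e3 + (2000000 / 937999) * e2 + (74610165441474103975 / 15473024772723339318) * e1 + (776922278258120 / 260462323211853) * R.k2 + (215974712038569442451660 / 1207835770269436528801371) * s2 + (77576301246546620257 / 309460495454466786360) * b2 + (4137876297826289720 / 3547757304468649713) * t2 + c2 + c3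

theorem m71 {s b t k G2 G3 : ℝ} (R : Reg s b t k G2 G3) (hT : t ≤ 284 / 1000 * s) (hb : s - t ≤ b) (hc : b ≤ s - t + 3 / 200) (hy : s - t ≤ 1 / 2)
    (s1 : 4573 / 10000 ≤ s) (s2 : s ≤ 963 / 2000)
    (b1 : 9 / 20 ≤ b) (b2 : b ≤ 1 / 2) (t1 : 377 / 10000 ≤ t) (t2 : t ≤ 113 / 2000) :
    4 * ph (s - t) - 2 * ph s + 13 / 1000 ≤ G2 + G3 := by
  have e1 := up (t1 := (237 / 1000)) (t2 := (268 / 1000)) (x := b) (by norm_num)
    (by linear_combination (1056169 / 1000000) * b1) (by linear_combination (66989 / 62500) * b2)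
  have e2 := R.lo0 (249 / 1000) (by norm_num)
  have e3 := up (t1 := (209 / 1000)) (t2 := (235 / 1000)) (x := s - t) (by norm_num)
    (by linear_combination (1043681 / 1000000) * s1 + (1043681 / 1000000) * t2) (by linear_combination (42209 / 40000) * s2 + (42209 / 40000) * t1)
  have e4 := R.lo2 (303 / 1000) (by norm_num)
  have e5 := up (t1 := (73 / 1000)) (t2 := (78 / 1000)) (x := 8 / 25 * s) (by norm_num)
    (by linear_combination (1005329 / 3125000) * s1) (by linear_combination (251521 / 781250) * s2)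
  have e6 := R.lo6 (-35 / 1000) (by norm_num)
  have e7 := R.lo7 (729 / 1000) (by norm_num)
  have e8 := R.lo8 (202 / 1000) (by norm_num)
  have c2 := R.k13 (by linear_combination (100 / 101) * e1 + (617937 / 101) * R.k1 + (618038 / 101) * R.k2 + (17 / 25) * s1 + t2)
  have c3 := R.l20 (by linear_combination (100 / 101) * e1 + (617937 / 101) * R.k1 + (618038 / 101) * R.k2 + t2) (by linear_combination (433015 / 468242) * e1 + R.k2 + s1 + (18111743 / 18729680) * b2 + t2)
  linear_combination (1458000 / 468559) * R.h1 + (250000 / 239799) * e8 + (1000000 / 468559) * e7 + (40000 / 39951) * e6 + (500000 / 497153) * e5 + (1000000 / 908191) * e4 + (800000 / 190177) * e3 + (2000000 / 937999) * e2 + (651661061444719556396500 / 125901346227193825436421) * e1 + (1767976294567146200 / 537761867697446301) * R.k2 + (755833722659426059167138496 / 3217772089235968703982362079) * s2 + (2290520277825840972218635 / 4784251156633365366583998) * b2 + (11170416335827941289400 / 7866918362545941937329) * t2 + c2 + c3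

theorem m72 {s b t k G2 G3 : ℝ} (R : Reg s b t k G2 G3) (hT : t ≤ 284 / 1000 * s) (hb : s - t ≤ b) (hc : b ≤ s - t + 3 / 200) (hy : s - t ≤ 1 / 2)
    (s1 : 4573 / 10000 ≤ s) (s2 : s ≤ 963 / 2000)
    (b1 : 9 / 20 ≤ b) (b2 : b ≤ 1 / 2) (t1 : 113 / 2000 ≤ t) (t2 : t ≤ 753 / 10000) :
    4 * ph (s - t) - 2 * ph s + 13 / 1000 ≤ G2 + G3 := by
  exfalso
  exact absurd b1 (not_le.mpr (by linear_combination s2 + t1 + hc))

theorem m76 {s b t k G2 G3 : ℝ} (R : Reg s b t k G2 G3) (hT : t ≤ 284 / 1000 * s) (hb : s - t ≤ b) (hc : b ≤ s - t + 3 / 200) (hy : s - t ≤ 1 / 2)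
    (s1 : 4573 / 10000 ≤ s) (s2 : s ≤ 963 / 2000)
    (b1 : 2 / 5 ≤ b) (b2 : b ≤ 17 / 40) (t1 : 753 / 10000 ≤ t) (t2 : t ≤ 113 / 1000) :
    4 * ph (s - t) - 2 * ph s + 13 / 1000 ≤ G2 + G3 := by
  have e1 := up (t1 := (208 / 1000)) (t2 := (224 / 1000)) (x := b) (by norm_num)
    (by linear_combination (16301 / 15625) * b1) (by linear_combination (16409 / 15625) * b2)
  have e2 := R.lo0 (249 / 1000) (by norm_num)
  have e3 := up (t1 := (177 / 1000)) (t2 := (213 / 1000)) (x := s - t) (by norm_num)
    (by linear_combination (1031329 / 1000000) * s1 + (1031329 / 1000000) * t2) (by linear_combination (1045369 / 1000000) * s2 + (1045369 / 1000000) * t1)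
  have e4 := R.lo2 (271 / 1000) (by norm_num)
  have e5 := up (t1 := (73 / 1000)) (t2 := (78 / 1000)) (x := 8 / 25 * s) (by norm_num)
    (by linear_combination (1005329 / 3125000) * s1) (by linear_combination (251521 / 781250) * s2)
  have e6 := R.lo6 (-29 / 1000) (by norm_num)
  have e7 := R.lo7 (628 / 1000) (by norm_num)
  have e8 := R.lo8 (196 / 1000) (by norm_num)
  have c2 := R.k13 (by linear_combination (125 / 108) * e1 + (641119 / 27) * R.k1 + (641146 / 27) * R.k2 + (17 / 25) * s1 + t2)
  have c3 := R.l20 (by linear_combination (433015 / 476704) * e1 + R.k2 + (641119 / 5958800) * b1 + t2) (by linear_combination (433015 / 476704) * e1 + R.k2 + s1 + (5317681 / 5958800) * b2 + t2)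
  linear_combination (78500 / 37851) * R.h1 + (62500 / 60099) * e8 + (62500 / 37851) * e7 + (1000000 / 999159) * e6 + (500000 / 497153) * e5 + (1000000 / 926559) * e4 + (4000000 / 962299) * e3 + (2000000 / 937999) * e2 + (27872548961354494360625 / 6814954448674083819198) * e1 + (5518226409089098000 / 2516093808666675237) * R.k2 + (664630083822866840754470560 / 10652353026398862405284230587) * s2 + (7666826806574304410345 / 37482249467707461005589) * b2 + (106544416440001272814000 / 186248811998933301068451) * t2 + c2 + c3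

theorem m77 {s b t k G2 G3 : ℝ} (R : Reg s b t k G2 G3) (hT : t ≤ 284 / 1000 * s) (hb : s - t ≤ b) (hc : b ≤ s - t + 3 / 200) (hy : s - t ≤ 1 / 2)
    (s1 : 4573 / 10000 ≤ s) (s2 : s ≤ 963 / 2000)
    (b1 : 17 / 40 ≤ b) (b2 : b ≤ 9 / 20) (t1 : 753 / 10000 ≤ t) (t2 : t ≤ 113 / 1000) :
    4 * ph (s - t) - 2 * ph s + 13 / 1000 ≤ G2 + G3 := by
  exfalso
  exact absurd b1 (not_le.mpr (by linear_combination s2 + t1 + hc))

theorem m78 {s b t k G2 G3 : ℝ} (R : Reg s b t k G2 G3) (hT : t ≤ 284 / 1000 * s) (hb : s - t ≤ b) (hc : b ≤ s - t + 3 / 200) (hy : s - t ≤ 1 / 2)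
    (s1 : 4573 / 10000 ≤ s) (s2 : s ≤ 963 / 2000)
    (b1 : 2 / 5 ≤ b) (b2 : b ≤ 9 / 20) (t1 : 113 / 1000 ≤ t) (t2 : t ≤ 753 / 5000) :
    4 * ph (s - t) - 2 * ph s + 13 / 1000 ≤ G2 + G3 := by
  exfalso
  exact absurd b1 (not_le.mpr (by linear_combination s2 + t1 + hc))

theorem m79 {s b t k G2 G3 : ℝ} (R : Reg s b t k G2 G3) (hT : t ≤ 284 / 1000 * s) (hb : s - t ≤ b) (hc : b ≤ s - t + 3 / 200) (hy : s - t ≤ 1 / 2)
    (s1 : 4573 / 10000 ≤ s) (s2 : s ≤ 963 / 2000)
    (b1 : 9 / 20 ≤ b) (b2 : b ≤ 1 / 2) (t1 : 753 / 10000 ≤ t) (t2 : t ≤ 753 / 5000) :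
    4 * ph (s - t) - 2 * ph s + 13 / 1000 ≤ G2 + G3 := by
  exfalso
  exact absurd b1 (not_le.mpr (by linear_combination s2 + t1 + hc))

theorem m82 {s b t k G2 G3 : ℝ} (R : Reg s b t k G2 G3) (hT : t ≤ 284 / 1000 * s) (hb : s - t ≤ b) (hc : b ≤ s - t + 3 / 200) (hy : s - t ≤ 1 / 2)
    (s1 : 963 / 2000 ≤ s) (s2 : s ≤ 53 / 100)
    (b1 : 2 / 5 ≤ b) (b2 : b ≤ 1 / 2) (t1 : 0 ≤ t) (t2 : t ≤ 377 / 10000) :
    4 * ph (s - t) - 2 * ph s + 13 / 1000 ≤ G2 + G3 := by
  have e1 := up (t1 := (208 / 1000)) (t2 := (268 / 1000)) (x := b) (by norm_num)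
    (by linear_combination (16301 / 15625) * b1) (by linear_combination (66989 / 62500) * b2)
  have e2 := R.lo0 (272 / 1000) (by norm_num)
  have e3 := up (t1 := (234 / 1000)) (t2 := (287 / 1000)) (x := s - t) (by norm_num)
    (by linear_combination (263689 / 250000) * s1 + (263689 / 250000) * t2) (by linear_combination (1082369 / 1000000) * s2 + (1082369 / 1000000) * t1)
  have e4 := R.lo2 (346 / 1000) (by norm_num)
  have e5 := up (t1 := (77 / 1000)) (t2 := (86 / 1000)) (x := 8 / 25 * s) (by norm_num)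
    (by linear_combination (1005929 / 3125000) * s1) (by linear_combination (251849 / 781250) * s2)
  have e6 := R.lo6 (3 / 1000) (by norm_num)
  have e7 := R.lo7 (780 / 1000) (by norm_num)
  have e8 := R.lo8 (174 / 1000) (by norm_num)
  have c2 := R.k13 (by linear_combination (125 / 119) * e1 + (1497443 / 119) * R.k1 + (1497562 / 119) * R.k2 + (17 / 25) * s1 + t2)
  have c3 := R.l20 (by linear_combination (125 / 119) * e1 + (1497443 / 119) * R.k1 + (1497562 / 119) * R.k2 + t2) (by linear_combination (433015 / 472128) * e1 + R.k2 + s1 + (22108957 / 23606400) * b2 + t2)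
  linear_combination (3900 / 979) * R.h1 + (250000 / 242431) * e8 + (2500 / 979) * e7 + (1000000 / 999991) * e6 + (500000 / 496689) * e5 + (250000 / 220071) * e4 + (2000000 / 466421) * e3 + (31250 / 14469) * e2 + (58600811843701366070375 / 9499151675756151983952) * e1 + (3910168599656253100 / 885274064942707671) * R.k2 + (1549703435647175470126880 / 4821349689208395811816257) * s2 + (78400494026811864005767 / 208981336866635343646944) * b2 + (901329172749967833973100 / 412910414644642654615491) * t2 + c2 + c3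

theorem m84 {s b t k G2 G3 : ℝ} (R : Reg s b t k G2 G3) (hT : t ≤ 284 / 1000 * s) (hb : s - t ≤ b) (hc : b ≤ s - t + 3 / 200) (hy : s - t ≤ 1 / 2)
    (s1 : 963 / 2000 ≤ s) (s2 : s ≤ 53 / 100)
    (b1 : 2 / 5 ≤ b) (b2 : b ≤ 9 / 20) (t1 : 377 / 10000 ≤ t) (t2 : t ≤ 753 / 10000) :
    4 * ph (s - t) - 2 * ph s + 13 / 1000 ≤ G2 + G3 := by
  have e1 := up (t1 := (208 / 1000)) (t2 := (238 / 1000)) (x := b) (by norm_num)
    (by linear_combination (16301 / 15625) * b1) (by linear_combination (264161 / 250000) * b2)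
  have e2 := R.lo0 (272 / 1000) (by norm_num)
  have e3 := up (t1 := (212 / 1000)) (t2 := (264 / 1000)) (x := s - t) (by norm_num)
    (by linear_combination (65309 / 62500) * s1 + (65309 / 62500) * t2) (by linear_combination (16714 / 15625) * s2 + (16714 / 15625) * t1)
  have e4 := R.lo2 (319 / 1000) (by norm_num)
  have e5 := up (t1 := (77 / 1000)) (t2 := (86 / 1000)) (x := 8 / 25 * s) (by norm_num)
    (by linear_combination (1005929 / 3125000) * s1) (by linear_combination (251849 / 781250) * s2)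
  have e6 := R.lo6 (-4 / 1000) (by norm_num)
  have e7 := R.lo7 (700 / 1000) (by norm_num)
  have e8 := R.lo8 (182 / 1000) (by norm_num)
  have c2 := R.k13 (by linear_combination (250 / 223) * e1 + (4449931 / 223) * R.k1 + (4450154 / 223) * R.k2 + (17 / 25) * s1 + t2)
  have c3 := R.l20 (by linear_combination (250 / 223) * e1 + (4449931 / 223) * R.k1 + (4450154 / 223) * R.k2 + t2) (by linear_combination (433015 / 475248) * e1 + R.k2 + s1 + (43074869 / 47524800) * b2 + t2)
  linear_combination (140 / 51) * R.h1 + (250000 / 241719) * e8 + (100 / 51) * e7 + (62500 / 62499) * e6 + (500000 / 496689) * e5 + (1000000 / 898239) * e4 + (125000 / 29501) * e3 + (31250 / 14469) * e2 + (3732254409857419828325 / 761346739330150271301) * e1 + (78713414775280880 / 25631981258800467) * R.k2 + (27863362733528423580480 / 146939904519132698048621) * s2 + (4057159150603309312259 / 15226934786603005426020) * b2 + (797021564386933454380 / 756169079115872576967) * t2 + c2 + c3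

theorem m87 {s b t k G2 G3 : ℝ} (R : Reg s b t k G2 G3) (hT : t ≤ 284 / 1000 * s) (hb : s - t ≤ b) (hc : b ≤ s - t + 3 / 200) (hy : s - t ≤ 1 / 2)
    (s1 : 963 / 2000 ≤ s) (s2 : s ≤ 53 / 100)
    (b1 : 9 / 20 ≤ b) (b2 : b ≤ 19 / 40) (t1 : 377 / 10000 ≤ t) (t2 : t ≤ 113 / 2000) :
    4 * ph (s - t) - 2 * ph s + 13 / 1000 ≤ G2 + G3 := by
  have e1 := up (t1 := (237 / 1000)) (t2 := (253 / 1000)) (x := b) (by norm_num)
    (by linear_combination (1056169 / 1000000) * b1) (by linear_combination (1064009 / 1000000) * b2)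
  have e2 := R.lo0 (272 / 1000) (by norm_num)
  have e3 := up (t1 := (223 / 1000)) (t2 := (264 / 1000)) (x := s - t) (by norm_num)
    (by linear_combination (1049729 / 1000000) * s1 + (1049729 / 1000000) * t2) (by linear_combination (16714 / 15625) * s2 + (16714 / 15625) * t1)
  have e4 := R.lo2 (328 / 1000) (by norm_num)
  have e5 := up (t1 := (77 / 1000)) (t2 := (86 / 1000)) (x := 8 / 25 * s) (by norm_num)
    (by linear_combination (1005929 / 3125000) * s1) (by linear_combination (251849 / 781250) * s2)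
  have e6 := R.lo6 (-16 / 1000) (by norm_num)
  have e7 := R.lo7 (729 / 1000) (by norm_num)
  have e8 := R.lo8 (196 / 1000) (by norm_num)
  have c2 := R.k13 (by linear_combination (50 / 49) * e1 + (456648 / 49) * R.k1 + (456697 / 49) * R.k2 + (17 / 25) * s1 + t2)
  have c3 := R.l20 (by linear_combination (50 / 49) * e1 + (456648 / 49) * R.k1 + (456697 / 49) * R.k2 + t2) (by linear_combination (866030 / 940039) * e1 + R.k2 + s1 + (4471871 / 4700195) * b2 + t2)
  linear_combination (1458000 / 468559) * R.h1 + (62500 / 60099) * e8 + (1000000 / 468559) * e7 + (15625 / 15621) * e6 + (500000 / 496689) * e5 + (15625 / 13944) * e4 + (500000 / 117641) * e3 + (31250 / 14469) * e2 + (3089751356817574376875 / 586689695482453641442) * e1 + (4252802320950125 / 1248224159811356) * R.k2 + (114058199275365674855 / 487176322502979147948) * s2 + (384868423498546900925 / 880034543223680462163) * b2 + (196361334924828469125 / 146842338384367731196) * t2 + c2 + c3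

theorem m89 {s b t k G2 G3 : ℝ} (R : Reg s b t k G2 G3) (hT : t ≤ 284 / 1000 * s) (hb : s - t ≤ b) (hc : b ≤ s - t + 3 / 200) (hy : s - t ≤ 1 / 2)
    (s1 : 963 / 2000 ≤ s) (s2 : s ≤ 53 / 100)
    (b1 : 19 / 40 ≤ b) (b2 : b ≤ 1 / 2) (t1 : 377 / 10000 ≤ t) (t2 : t ≤ 471 / 10000) :
    4 * ph (s - t) - 2 * ph s + 13 / 1000 ≤ G2 + G3 := by
  have e1 := up (t1 := (252 / 1000)) (t2 := (268 / 1000)) (x := b) (by norm_num)
    (by linear_combination (66469 / 62500) * b1) (by linear_combination (66989 / 62500) * b2)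
  have e2 := R.lo0 (272 / 1000) (by norm_num)
  have e3 := up (t1 := (228 / 1000)) (t2 := (264 / 1000)) (x := s - t) (by norm_num)
    (by linear_combination (65749 / 62500) * s1 + (65749 / 62500) * t2) (by linear_combination (16714 / 15625) * s2 + (16714 / 15625) * t1)
  have e4 := R.lo2 (331 / 1000) (by norm_num)
  have e5 := up (t1 := (77 / 1000)) (t2 := (86 / 1000)) (x := 8 / 25 * s) (by norm_num)
    (by linear_combination (1005929 / 3125000) * s1) (by linear_combination (251849 / 781250) * s2)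
  have e6 := R.lo6 (-26 / 1000) (by norm_num)
  have e7 := R.lo7 (743 / 1000) (by norm_num)
  have e8 := R.lo8 (207 / 1000) (by norm_num)
  have c2 := R.k13 (by linear_combination (25 / 26) * e1 + 3057 * R.k1 + 3058 * R.k2 + (17 / 25) * s1 + t2)
  have c3 := R.l20 (by linear_combination (25 / 26) * e1 + 3057 * R.k1 + 3058 * R.k2 + t2) (by linear_combination (433015 / 466232) * e1 + R.k2 + s1 + (176263 / 179320) * b2 + t2)
  linear_combination (1486000 / 447951) * R.h1 + (1000000 / 957151) * e8 + (1000000 / 447951) * e7 + (250000 / 249831) * e6 + (500000 / 496689) * e5 + (1000000 / 890439) * e4 + (125000 / 29369) * e3 + (31250 / 14469) * e2 + (306923411617884123603319375 / 56148526551536515940432589) * e1 + (37900260247435884007000 / 10597879031330353563801) * R.k2 + (458325226168474614750980 / 1738997482329943808915943) * s2 + (1424782225414901758710475 / 2500541668287051317185257) * b2 + (461323182780127733227821500 / 311249109271141153815271569) * t2 + c2 + c3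

theorem m91 {s b t k G2 G3 : ℝ} (R : Reg s b t k G2 G3) (hT : t ≤ 284 / 1000 * s) (hb : s - t ≤ b) (hc : b ≤ s - t + 3 / 200) (hy : s - t ≤ 1 / 2)
    (s1 : 963 / 2000 ≤ s) (s2 : s ≤ 2529 / 5000)
    (b1 : 19 / 40 ≤ b) (b2 : b ≤ 1 / 2) (t1 : 471 / 10000 ≤ t) (t2 : t ≤ 113 / 2000) :
    4 * ph (s - t) - 2 * ph s + 13 / 1000 ≤ G2 + G3 := by
  exfalso
  exact absurd b1 (not_le.mpr (by linear_combination s2 + t1 + hc))

theorem m92 {s b t k G2 G3 : ℝ} (R : Reg s b t k G2 G3) (hT : t ≤ 284 / 1000 * s) (hb : s - t ≤ b) (hc : b ≤ s - t + 3 / 200) (hy : s - t ≤ 1 / 2)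
    (s1 : 2529 / 5000 ≤ s) (s2 : s ≤ 53 / 100)
    (b1 : 19 / 40 ≤ b) (b2 : b ≤ 1 / 2) (t1 : 471 / 10000 ≤ t) (t2 : t ≤ 113 / 2000) :
    4 * ph (s - t) - 2 * ph s + 13 / 1000 ≤ G2 + G3 := by
  have e1 := up (t1 := (252 / 1000)) (t2 := (268 / 1000)) (x := b) (by norm_num)
    (by linear_combination (66469 / 62500) * b1) (by linear_combination (66989 / 62500) * b2)
  have e2 := R.lo0 (279 / 1000) (by norm_num)
  have e3 := up (t1 := (237 / 1000)) (t2 := (258 / 1000)) (x := s - t) (by norm_num)
    (by linear_combination (1056169 / 1000000) * s1 + (1056169 / 1000000) * t2) (by linear_combination (266641 / 250000) * s2 + (266641 / 250000) * t1)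
  have e4 := R.lo2 (333 / 1000) (by norm_num)
  have e5 := up (t1 := (81 / 1000)) (t2 := (86 / 1000)) (x := 8 / 25 * s) (by norm_num)
    (by linear_combination (1006561 / 3125000) * s1) (by linear_combination (251849 / 781250) * s2)
  have e6 := R.lo6 (-27 / 1000) (by norm_num)
  have e7 := R.lo7 (719 / 1000) (by norm_num)
  have e8 := R.lo8 (212 / 1000) (by norm_num)
  have c2 := R.k13 (by linear_combination (25 / 26) * e1 + 3057 * R.k1 + 3058 * R.k2 + (17 / 25) * s1 + t2)
  have c3 := R.l20 (by linear_combination (25 / 26) * e1 + 3057 * R.k1 + 3058 * R.k2 + t2) (by linear_combination (433015 / 466232) * e1 + R.k2 + s1 + (176263 / 179320) * b2 + t2)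
  linear_combination (1438000 / 483039) * R.h1 + (62500 / 59691) * e8 + (1000000 / 483039) * e7 + (1000000 / 999271) * e6 + (500000 / 496517) * e5 + (1000000 / 889111) * e4 + (2000000 / 469427) * e3 + (2000000 / 922159) * e2 + (5118720328771137680386365625 / 995293460475038711020577634) * e1 + (27564497776971466997500 / 8539040310189250939623) * R.k2 + (133756726071580052877970960 / 556740921961585125568858327) * s2 + (4783372705635519005598125 / 8506781713461869324962202) * b2 + (640838512980432344001237500 / 572636582241601357262058003) * t2 + c2 + c3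

theorem m95 {s b t k G2 G3 : ℝ} (R : Reg s b t k G2 G3) (hT : t ≤ 284 / 1000 * s) (hb : s - t ≤ b) (hc : b ≤ s - t + 3 / 200) (hy : s - t ≤ 1 / 2)
    (s1 : 963 / 2000 ≤ s) (s2 : s ≤ 53 / 100)
    (b1 : 9 / 20 ≤ b) (b2 : b ≤ 19 / 40) (t1 : 113 / 2000 ≤ t) (t2 : t ≤ 659 / 10000) :
    4 * ph (s - t) - 2 * ph s + 13 / 1000 ≤ G2 + G3 := by
  have e1 := up (t1 := (237 / 1000)) (t2 := (253 / 1000)) (x := b) (by norm_num)
    (by linear_combination (1056169 / 1000000) * b1) (by linear_combination (1064009 / 1000000) * b2)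
  have e2 := R.lo0 (272 / 1000) (by norm_num)
  have e3 := up (t1 := (217 / 1000)) (t2 := (252 / 1000)) (x := s - t) (by norm_num)
    (by linear_combination (1047089 / 1000000) * s1 + (1047089 / 1000000) * t2) (by linear_combination (66469 / 62500) * s2 + (66469 / 62500) * t1)
  have e4 := R.lo2 (318 / 1000) (by norm_num)
  have e5 := up (t1 := (77 / 1000)) (t2 := (86 / 1000)) (x := 8 / 25 * s) (by norm_num)
    (by linear_combination (1005929 / 3125000) * s1) (by linear_combination (251849 / 781250) * s2)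
  have e6 := R.lo6 (-23 / 1000) (by norm_num)
  have e7 := R.lo7 (696 / 1000) (by norm_num)
  have e8 := R.lo8 (203 / 1000) (by norm_num)
  have c2 := R.k13 (by linear_combination (50 / 49) * e1 + (456648 / 49) * R.k1 + (456697 / 49) * R.k2 + (17 / 25) * s1 + t2)
  have c3 := R.l20 (by linear_combination (50 / 49) * e1 + (456648 / 49) * R.k1 + (456697 / 49) * R.k2 + t2) (by linear_combination (866030 / 940039) * e1 + R.k2 + s1 + (4471871 / 4700195) * b2 + t2)
  linear_combination (10875 / 4028) * R.h1 + (1000000 / 958791) * e8 + (15625 / 8056) * e7 + (1000000 / 999471) * e6 + (500000 / 496689) * e5 + (250000 / 224719) * e4 + (1000000 / 236329) * e3 + (31250 / 14469) * e2 + (175143987465951625679375 / 36230218976199121472838) * e1 + (2491086327312839875 / 847906116104098524) * R.k2 + (7700059205573625186200 / 41431620853883151014123) * s2 + (1617884862973778674925 / 3759739705077267322653) * b2 + (191047972194693927062875 / 200384804512765500078396) * t2 + c2 + c3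

theorem m97 {s b t k G2 G3 : ℝ} (R : Reg s b t k G2 G3) (hT : t ≤ 284 / 1000 * s) (hb : s - t ≤ b) (hc : b ≤ s - t + 3 / 200) (hy : s - t ≤ 1 / 2)
    (s1 : 963 / 2000 ≤ s) (s2 : s ≤ 2529 / 5000)
    (b1 : 9 / 20 ≤ b) (b2 : b ≤ 19 / 40) (t1 : 659 / 10000 ≤ t) (t2 : t ≤ 753 / 10000) :
    4 * ph (s - t) - 2 * ph s + 13 / 1000 ≤ G2 + G3 := by
  have e1 := up (t1 := (237 / 1000)) (t2 := (253 / 1000)) (x := b) (by norm_num)
    (by linear_combination (1056169 / 1000000) * b1) (by linear_combination (1064009 / 1000000) * b2)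
  have e2 := R.lo0 (264 / 1000) (by norm_num)
  have e3 := up (t1 := (212 / 1000)) (t2 := (232 / 1000)) (x := s - t) (by norm_num)
    (by linear_combination (65309 / 62500) * s1 + (65309 / 62500) * t2) (by linear_combination (16466 / 15625) * s2 + (16466 / 15625) * t1)
  have e4 := R.lo2 (304 / 1000) (by norm_num)
  have e5 := up (t1 := (77 / 1000)) (t2 := (82 / 1000)) (x := 8 / 25 * s) (by norm_num)
    (by linear_combination (1005929 / 3125000) * s1) (by linear_combination (251681 / 781250) * s2)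
  have e6 := R.lo6 (-32 / 1000) (by norm_num)
  have e7 := R.lo7 (677 / 1000) (by norm_num)
  have e8 := R.lo8 (209 / 1000) (by norm_num)
  have c2 := R.k13 (by linear_combination (50 / 49) * e1 + (456648 / 49) * R.k1 + (456697 / 49) * R.k2 + (17 / 25) * s1 + t2)
  have c3 := R.l20 (by linear_combination (50 / 49) * e1 + (456648 / 49) * R.k1 + (456697 / 49) * R.k2 + t2) (by linear_combination (866030 / 940039) * e1 + R.k2 + s1 + (4471871 / 4700195) * b2 + t2)
  linear_combination (1354000 / 541671) * R.h1 + (1000000 / 956319) * e8 + (1000000 / 541671) * e7 + (15625 / 15609) * e6 + (500000 / 496843) * e5 + (15625 / 14181) * e4 + (125000 / 29713) * e3 + (15625 / 7268) * e2 + (992435607122577875000 / 216409672020297706951) * e1 + (6757380912787500 / 2532348543223499) * R.k2 + (14508997616845953725 / 92054034796834333806) * s2 + (980116714072203419000 / 2380506392223274776461) * b2 + (1400853835180251000 / 1749852843367437809) * t2 + c2 + c3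

theorem m99 {s b t k G2 G3 : ℝ} (R : Reg s b t k G2 G3) (hT : t ≤ 284 / 1000 * s) (hb : s - t ≤ b) (hc : b ≤ s - t + 3 / 200) (hy : s - t ≤ 1 / 2)
    (s1 : 2529 / 5000 ≤ s) (s2 : s ≤ 53 / 100)
    (b1 : 9 / 20 ≤ b) (b2 : b ≤ 37 / 80) (t1 : 659 / 10000 ≤ t) (t2 : t ≤ 753 / 10000) :
    4 * ph (s - t) - 2 * ph s + 13 / 1000 ≤ G2 + G3 := by
  have e1 := up (t1 := (237 / 1000)) (t2 := (246 / 1000)) (x := b) (by norm_num)
    (by linear_combination (1056169 / 1000000) * b1) (by linear_combination (265129 / 250000) * b2)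
  have e2 := R.lo0 (279 / 1000) (by norm_num)
  have e3 := up (t1 := (226 / 1000)) (t2 := (247 / 1000)) (x := s - t) (by norm_num)
    (by linear_combination (262769 / 250000) * s1 + (262769 / 250000) * t2) (by linear_combination (1061009 / 1000000) * s2 + (1061009 / 1000000) * t1)
  have e4 := R.lo2 (320 / 1000) (by norm_num)
  have e5 := up (t1 := (81 / 1000)) (t2 := (86 / 1000)) (x := 8 / 25 * s) (by norm_num)
    (by linear_combination (1006561 / 3125000) * s1) (by linear_combination (251849 / 781250) * s2)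
  have e6 := R.lo6 (-21 / 1000) (by norm_num)
  have e7 := R.lo7 (676 / 1000) (by norm_num)
  have e8 := R.lo8 (205 / 1000) (by norm_num)
  have c2 := R.k13 (by linear_combination (500 / 483) * e1 + (5255651 / 483) * R.k1 + (5256134 / 483) * R.k2 + (17 / 25) * s1 + t2)
  have c3 := R.l20 (by linear_combination (500 / 483) * e1 + (5255651 / 483) * R.k1 + (5256134 / 483) * R.k2 + t2) (by linear_combination (433015 / 470849) * e1 + R.k2 + s1 + (88914149 / 94169800) * b2 + t2)
  linear_combination (84500 / 33939) * R.h1 + (40000 / 38319) * e8 + (62500 / 33939) * e7 + (1000000 / 999559) * e6 + (500000 / 496517) * e5 + (625 / 561) * e4 + (2000000 / 472089) * e3 + (2000000 / 922159) * e2 + (1462096337259065609500 / 315310386236258522619) * e1 + (1830035550247300 / 669663493468731) * R.k2 + (28514912682467142495600 / 174904858556137375978081) * s2 + (2797519555751759427047 / 6936828497197687497618) * b2 + (76812662686426027900 / 105380256322719916353) * t2 + c2 + c3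

theorem m101 {s b t k G2 G3 : ℝ} (R : Reg s b t k G2 G3) (hT : t ≤ 284 / 1000 * s) (hb : s - t ≤ b) (hc : b ≤ s - t + 3 / 200) (hy : s - t ≤ 1 / 2)
    (s1 : 2529 / 5000 ≤ s) (s2 : s ≤ 53 / 100)
    (b1 : 37 / 80 ≤ b) (b2 : b ≤ 19 / 40) (t1 : 659 / 10000 ≤ t) (t2 : t ≤ 353 / 5000) :
    4 * ph (s - t) - 2 * ph s + 13 / 1000 ≤ G2 + G3 := by
  have e1 := up (t1 := (245 / 1000)) (t2 := (253 / 1000)) (x := b) (by norm_num)
    (by linear_combination (42401 / 40000) * b1) (by linear_combination (1064009 / 1000000) * b2)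
  have e2 := R.lo0 (279 / 1000) (by norm_num)
  have e3 := up (t1 := (229 / 1000)) (t2 := (247 / 1000)) (x := s - t) (by norm_num)
    (by linear_combination (1052441 / 1000000) * s1 + (1052441 / 1000000) * t2) (by linear_combination (1061009 / 1000000) * s2 + (1061009 / 1000000) * t1)
  have e4 := R.lo2 (322 / 1000) (by norm_num)
  have e5 := up (t1 := (81 / 1000)) (t2 := (86 / 1000)) (x := 8 / 25 * s) (by norm_num)
    (by linear_combination (1006561 / 3125000) * s1) (by linear_combination (251849 / 781250) * s2)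
  have e6 := R.lo6 (-26 / 1000) (by norm_num)
  have e7 := R.lo7 (682 / 1000) (by norm_num)
  have e8 := R.lo8 (211 / 1000) (by norm_num)
  have c2 := R.k13 (by linear_combination (250 / 249) * e1 + (1886228 / 249) * R.k1 + (1886477 / 249) * R.k2 + (17 / 25) * s1 + t2)
  have c3 := R.l20 (by linear_combination (250 / 249) * e1 + (1886228 / 249) * R.k1 + (1886477 / 249) * R.k2 + t2) (by linear_combination (173206 / 187603) * e1 + R.k2 + s1 + (22507261 / 23450375) * b2 + t2)
  linear_combination (341000 / 133719) * R.h1 + (1000000 / 955479) * e8 + (250000 / 133719) * e7 + (250000 / 249831) * e6 + (500000 / 496517) * e5 + (250000 / 224079) * e4 + (4000000 / 943437) * e3 + (2000000 / 922159) * e2 + (233288323804634155988954000 / 49697868810854161845690561) * e1 + (735103940874142559000 / 264909776553968549787) * R.k2 + (606859348014649655432800 / 3396888779540268471586281) * s2 + (3241138755859294037765656 / 7099695544407737406527223) * b2 + (557923428046378509265000 / 737243908149694474057221) *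 t2 + c2 + c3

theorem m102 {s b t k G2 G3 : ℝ} (R : Reg s b t k G2 G3) (hT : t ≤ 284 / 1000 * s) (hb : s - t ≤ b) (hc : b ≤ s - t + 3 / 200) (hy : s - t ≤ 1 / 2)
    (s1 : 2529 / 5000 ≤ s) (s2 : s ≤ 53 / 100)
    (b1 : 37 / 80 ≤ b) (b2 : b ≤ 19 / 40) (t1 : 353 / 5000 ≤ t) (t2 : t ≤ 753 / 10000) :
    4 * ph (s - t) - 2 * ph s + 13 / 1000 ≤ G2 + G3 := by
  have e1 := up (t1 := (245 / 1000)) (t2 := (253 / 1000)) (x := b) (by norm_num)
    (by linear_combination (42401 / 40000) * b1) (by linear_combination (1064009 / 1000000) * b2)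
  have e2 := R.lo0 (279 / 1000) (by norm_num)
  have e3 := up (t1 := (226 / 1000)) (t2 := (244 / 1000)) (x := s - t) (by norm_num)
    (by linear_combination (262769 / 250000) * s1 + (262769 / 250000) * t2) (by linear_combination (66221 / 62500) * s2 + (66221 / 62500) * t1)
  have e4 := R.lo2 (318 / 1000) (by norm_num)
  have e5 := up (t1 := (81 / 1000)) (t2 := (86 / 1000)) (x := 8 / 25 * s) (by norm_num)
    (by linear_combination (1006561 / 3125000) * s1) (by linear_combination (251849 / 781250) * s2)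
  have e6 := R.lo6 (-28 / 1000) (by norm_num)
  have e7 := R.lo7 (673 / 1000) (by norm_num)
  have e8 := R.lo8 (214 / 1000) (by norm_num)
  have c2 := R.k13 (by linear_combination (250 / 249) * e1 + (1886228 / 249) * R.k1 + (1886477 / 249) * R.k2 + (17 / 25) * s1 + t2)
  have c3 := R.l20 (by linear_combination (250 / 249) * e1 + (1886228 / 249) * R.k1 + (1886477 / 249) * R.k2 + t2) (by linear_combination (173206 / 187603) * e1 + R.k2 + s1 + (22507261 / 23450375) * b2 + t2)
  linear_combination (1346000 / 547071) * R.h1 + (250000 / 238551) * e8 + (1000000 / 547071) * e7 + (62500 / 62451) * e6 + (500000 / 496517) * e5 + (250000 / 224719) * e4 + (500000 / 118107) * e3 + (2000000 / 922159) * e2 + (15934068055204921903259000 / 3470633144618335565759253) * e1 + (541986264479973941500 / 203498689204339436061) * R.k2 + (179481519958910084889220 / 1095119534929919485348593) * s2 + (17184163541643080075944052 / 38176964590801691223351783) * b2 + (163537169453702170044500 / 242773936220776947220773) * t2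 + c2 + c3

theorem m104 {s b t k G2 G3 : ℝ} (R : Reg s b t k G2 G3) (hT : t ≤ 284 / 1000 * s) (hb : s - t ≤ b) (hc : b ≤ s - t + 3 / 200) (hy : s - t ≤ 1 / 2)
    (s1 : 963 / 2000 ≤ s) (s2 : s ≤ 2529 / 5000)
    (b1 : 19 / 40 ≤ b) (b2 : b ≤ 1 / 2) (t1 : 113 / 2000 ≤ t) (t2 : t ≤ 753 / 10000) :
    4 * ph (s - t) - 2 * ph s + 13 / 1000 ≤ G2 + G3 := by
  exfalso
  exact absurd b1 (not_le.mpr (by linear_combination s2 + t1 + hc))

theorem m108 {s b t k G2 G3 : ℝ} (R : Reg s b t k G2 G3) (hT : t ≤ 284 / 1000 * s) (hb : s - t ≤ b) (hc : b ≤ s - t + 3 / 200) (hy : s - t ≤ 1 / 2)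
    (s1 : 2529 / 5000 ≤ s) (s2 : s ≤ 53 / 100)
    (b1 : 19 / 40 ≤ b) (b2 : b ≤ 39 / 80) (t1 : 113 / 2000 ≤ t) (t2 : t ≤ 153 / 2500) :
    4 * ph (s - t) - 2 * ph s + 13 / 1000 ≤ G2 + G3 := by
  have e1 := up (t1 := (252 / 1000)) (t2 := (261 / 1000)) (x := b) (by norm_num)
    (by linear_combination (66469 / 62500) * b1) (by linear_combination (1068121 / 1000000) * b2)
  have e2 := R.lo0 (279 / 1000) (by norm_num)
  have e3 := up (t1 := (234 / 1000)) (t2 := (252 / 1000)) (x := s - t) (by norm_num)
    (by linear_combination (263689 / 250000) * s1 + (263689 / 250000) * t2) (by linear_combination (66469 / 62500) * s2 + (66469 / 62500) * t1)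
  have e4 := R.lo2 (328 / 1000) (by norm_num)
  have e5 := up (t1 := (81 / 1000)) (t2 := (86 / 1000)) (x := 8 / 25 * s) (by norm_num)
    (by linear_combination (1006561 / 3125000) * s1) (by linear_combination (251849 / 781250) * s2)
  have e6 := R.lo6 (-27 / 1000) (by norm_num)
  have e7 := R.lo7 (703 / 1000) (by norm_num)
  have e8 := R.lo8 (212 / 1000) (by norm_num)
  have c2 := R.k13 (by linear_combination (500 / 513) * e1 + (2284061 / 513) * R.k1 + (2284574 / 513) * R.k2 + (17 / 25) * s1 + t2)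
  have c3 := R.l20 (by linear_combination (500 / 513) * e1 + (2284061 / 513) * R.k1 + (2284574 / 513) * R.k2 + t2) (by linear_combination (433015 / 467114) * e1 + R.k2 + s1 + (91138739 / 93422800) * b2 + t2)
  linear_combination (1406000 / 505791) * R.h1 + (62500 / 59691) * e8 + (1000000 / 505791) * e7 + (1000000 / 999271) * e6 + (500000 / 496517) * e5 + (15625 / 13944) * e4 + (500000 / 117629) * e3 + (2000000 / 922159) * e2 + (4142170077797134038125 / 838925815714997638824) * e1 + (59601002746719625 / 19755742651397676) * R.k2 + (230926046236772924706965 / 1093958580675119753247108) * s2 + (505280743406225257417495 / 959731133177957298814656) * b2 + (2210160887804247501125 / 2323848252341257230204) * t2 + c2 + c3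

theorem m109 {s b t k G2 G3 : ℝ} (R : Reg s b t k G2 G3) (hT : t ≤ 284 / 1000 * s) (hb : s - t ≤ b) (hc : b ≤ s - t + 3 / 200) (hy : s - t ≤ 1 / 2)
    (s1 : 2529 / 5000 ≤ s) (s2 : s ≤ 53 / 100)
    (b1 : 19 / 40 ≤ b) (b2 : b ≤ 39 / 80) (t1 : 153 / 2500 ≤ t) (t2 : t ≤ 659 / 10000) :
    4 * ph (s - t) - 2 * ph s + 13 / 1000 ≤ G2 + G3 := by
  have e1 := up (t1 := (252 / 1000)) (t2 := (261 / 1000)) (x := b) (by norm_num)
    (by linear_combination (66469 / 62500) * b1) (by linear_combination (1068121 / 1000000) * b2)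
  have e2 := R.lo0 (279 / 1000) (by norm_num)
  have e3 := up (t1 := (231 / 1000)) (t2 := (249 / 1000)) (x := s - t) (by norm_num)
    (by linear_combination (1053361 / 1000000) * s1 + (1053361 / 1000000) * t2) (by linear_combination (1062001 / 1000000) * s2 + (1062001 / 1000000) * t1)
  have e4 := R.lo2 (325 / 1000) (by norm_num)
  have e5 := up (t1 := (81 / 1000)) (t2 := (86 / 1000)) (x := 8 / 25 * s) (by norm_num)
    (by linear_combination (1006561 / 3125000) * s1) (by linear_combination (251849 / 781250) * s2)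
  have e6 := R.lo6 (-29 / 1000) (by norm_num)
  have e7 := R.lo7 (693 / 1000) (by norm_num)
  have e8 := R.lo8 (215 / 1000) (by norm_num)
  have c2 := R.k13 (by linear_combination (500 / 513) * e1 + (2284061 / 513) * R.k1 + (2284574 / 513) * R.k2 + (17 / 25) * s1 + t2)
  have c3 := R.l20 (by linear_combination (500 / 513) * e1 + (2284061 / 513) * R.k1 + (2284574 / 513) * R.k2 + t2) (by linear_combination (433015 / 467114) * e1 + R.k2 + s1 + (91138739 / 93422800) * b2 + t2)
  linear_combination (1386000 / 519751) * R.h1 + (40000 / 38151) * e8 + (1000000 / 519751) * e7 + (1000000 / 999159) * e6 + (500000 / 496517) * e5 + (1600 / 1431) * e4 + (4000000 / 942481) * e3 + (2000000 / 922159) * e2 + (393603705539003195333200 / 81749172891696394659813) * e1 + (1009640151732505760 / 350018080775555409) * R.k2 + (116023095328337809800640 / 599613496018849948492143) * s2 + (212065958297519530310858 / 408745864458481973299065) * b2 + (279531944755937375910560 / 329885390787426237429729) * t2 + c2 + c3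

theorem m112 {s b t k G2 G3 : ℝ} (R : Reg s b t k G2 G3) (hT : t ≤ 284 / 1000 * s) (hb : s - t ≤ b) (hc : b ≤ s - t + 3 / 200) (hy : s - t ≤ 1 / 2)
    (s1 : 2529 / 5000 ≤ s) (s2 : s ≤ 53 / 100)
    (b1 : 39 / 80 ≤ b) (b2 : b ≤ 2469 / 5000) (t1 : 113 / 2000 ≤ t) (t2 : t ≤ 153 / 2500) :
    4 * ph (s - t) - 2 * ph s + 13 / 1000 ≤ G2 + G3 := by
  have e1 := up (t1 := (260 / 1000)) (t2 := (265 / 1000)) (x := b) (by norm_num)
    (by linear_combination (2669 / 2500) * b1) (by linear_combination (42809 / 40000) * b2)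
  have e2 := R.lo0 (279 / 1000) (by norm_num)
  have e3 := up (t1 := (234 / 1000)) (t2 := (252 / 1000)) (x := s - t) (by norm_num)
    (by linear_combination (263689 / 250000) * s1 + (263689 / 250000) * t2) (by linear_combination (66469 / 62500) * s2 + (66469 / 62500) * t1)
  have e4 := R.lo2 (328 / 1000) (by norm_num)
  have e5 := up (t1 := (81 / 1000)) (t2 := (86 / 1000)) (x := 8 / 25 * s) (by norm_num)
    (by linear_combination (1006561 / 3125000) * s1) (by linear_combination (251849 / 781250) * s2)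
  have e6 := R.lo6 (-32 / 1000) (by norm_num)
  have e7 := R.lo7 (703 / 1000) (by norm_num)
  have e8 := R.lo8 (218 / 1000) (by norm_num)
  have c2 := R.k13 (by linear_combination (20 / 21) * e1 + (43537 / 21) * R.k1 + (43558 / 21) * R.k2 + (17 / 25) * s1 + t2)
  have c3 := R.l20 (by linear_combination (20 / 21) * e1 + (43537 / 21) * R.k1 + (43558 / 21) * R.k2 + t2) (by linear_combination (86603 / 93110) * e1 + R.k2 + s1 + (3680863 / 3724400) * b2 + t2)
  linear_combination (1406000 / 505791) * R.h1 + (250000 / 238119) * e8 + (1000000 / 505791) * e7 + (15625 / 15609) * e6 + (500000 / 496517) * e5 + (15625 / 13944) * e4 + (500000 / 117629) * e3 + (2000000 / 922159) * e2 + (52636920130701464975 / 10672760262846577896) * e1 + (18869467281332875 / 6304390661116548) * R.k2 + (2896178129989222169605 / 13290710750393215498436) * s2 + (41244772928577576065 / 72246377163884527296) * b2 + (687629636184583589375 / 741579169076478424692) * t2 + c2 + c3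

theorem m113 {s b t k G2 G3 : ℝ} (R : Reg s b t k G2 G3) (hT : t ≤ 284 / 1000 * s) (hb : s - t ≤ b) (hc : b ≤ s - t + 3 / 200) (hy : s - t ≤ 1 / 2)
    (s1 : 2529 / 5000 ≤ s) (s2 : s ≤ 53 / 100)
    (b1 : 2469 / 5000 ≤ b) (b2 : b ≤ 1 / 2) (t1 : 113 / 2000 ≤ t) (t2 : t ≤ 153 / 2500) :
    4 * ph (s - t) - 2 * ph s + 13 / 1000 ≤ G2 + G3 := by
  exfalso
  exact absurd b1 (not_le.mpr (by linear_combination s2 + t1 + hc))

theorem m114 {s b t k G2 G3 : ℝ} (R : Reg s b t k G2 G3) (hT : t ≤ 284 / 1000 * s) (hb : s - t ≤ b) (hc : b ≤ s - t + 3 / 200) (hy : s - t ≤ 1 / 2)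
    (s1 : 2529 / 5000 ≤ s) (s2 : s ≤ 53 / 100)
    (b1 : 39 / 80 ≤ b) (b2 : b ≤ 1 / 2) (t1 : 153 / 2500 ≤ t) (t2 : t ≤ 659 / 10000) :
    4 * ph (s - t) - 2 * ph s + 13 / 1000 ≤ G2 + G3 := by
  exfalso
  exact absurd b1 (not_le.mpr (by linear_combination s2 + t1 + hc))

theorem m118 {s b t k G2 G3 : ℝ} (R : Reg s b t k G2 G3) (hT : t ≤ 284 / 1000 * s) (hb : s - t ≤ b) (hc : b ≤ s - t + 3 / 200) (hy : s - t ≤ 1 / 2)
    (s1 : 2529 / 5000 ≤ s) (s2 : s ≤ 53 / 100)
    (b1 : 19 / 40 ≤ b) (b2 : b ≤ 4813 / 10000) (t1 : 659 / 10000 ≤ t) (t2 : t ≤ 353 / 5000) :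
    4 * ph (s - t) - 2 * ph s + 13 / 1000 ≤ G2 + G3 := by
  have e1 := up (t1 := (252 / 1000)) (t2 := (257 / 1000)) (x := b) (by norm_num)
    (by linear_combination (66469 / 62500) * b1) (by linear_combination (1066049 / 1000000) * b2)
  have e2 := R.lo0 (279 / 1000) (by norm_num)
  have e3 := up (t1 := (229 / 1000)) (t2 := (247 / 1000)) (x := s - t) (by norm_num)
    (by linear_combination (1052441 / 1000000) * s1 + (1052441 / 1000000) * t2) (by linear_combination (1061009 / 1000000) * s2 + (1061009 / 1000000) * t1)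
  have e4 := R.lo2 (322 / 1000) (by norm_num)
  have e5 := up (t1 := (81 / 1000)) (t2 := (86 / 1000)) (x := 8 / 25 * s) (by norm_num)
    (by linear_combination (1006561 / 3125000) * s1) (by linear_combination (251849 / 781250) * s2)
  have e6 := R.lo6 (-30 / 1000) (by norm_num)
  have e7 := R.lo7 (683 / 1000) (by norm_num)
  have e8 := R.lo8 (216 / 1000) (by norm_num)
  have c2 := R.k13 (by linear_combination (500 / 509) * e1 + (2680873 / 509) * R.k1 + (2681382 / 509) * R.k2 + (17 / 25) * s1 + t2)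
  have c3 := R.l20 (by linear_combination (500 / 509) * e1 + (2680873 / 509) * R.k1 + (2681382 / 509) * R.k2 + t2) (by linear_combination (433015 / 467618) * e1 + R.k2 + s1 + (90842727 / 93523600) * b2 + t2)
  linear_combination (1366000 / 533511) * R.h1 + (15625 / 14896) * e8 + (1000000 / 533511) * e7 + (10000 / 9991) * e6 + (500000 / 496517) * e5 + (250000 / 224079) * e4 + (4000000 / 943437) * e3 + (2000000 / 922159) * e2 + (592414426840583879209625 / 126058008878182182593232) * e1 + (8201185558231958725 / 2965322330748611064) * R.k2 + (728437091391126669968 / 3956653236973066293741) * s2 + (5502403919503881205985723 / 11093104781280032068204416) * b2 + (560828152790648693425 / 750226549679398599192) * t2 + c2 + c3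

theorem m119 {s b t k G2 G3 : ℝ} (R : Reg s b t k G2 G3) (hT : t ≤ 284 / 1000 * s) (hb : s - t ≤ b) (hc : b ≤ s - t + 3 / 200) (hy : s - t ≤ 1 / 2)
    (s1 : 2529 / 5000 ≤ s) (s2 : s ≤ 53 / 100)
    (b1 : 4813 / 10000 ≤ b) (b2 : b ≤ 39 / 80) (t1 : 659 / 10000 ≤ t) (t2 : t ≤ 353 / 5000) :
    4 * ph (s - t) - 2 * ph s + 13 / 1000 ≤ G2 + G3 := by
  exfalso
  exact absurd b1 (not_le.mpr (by linear_combination s2 + t1 + hc))

theorem m120 {s b t k G2 G3 : ℝ} (R : Reg s b t k G2 G3) (hT : t ≤ 284 / 1000 * s) (hb : s - t ≤ b) (hc : b ≤ s - t + 3 / 200) (hy : s - t ≤ 1 / 2)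
    (s1 : 2529 / 5000 ≤ s) (s2 : s ≤ 53 / 100)
    (b1 : 19 / 40 ≤ b) (b2 : b ≤ 39 / 80) (t1 : 353 / 5000 ≤ t) (t2 : t ≤ 753 / 10000) :
    4 * ph (s - t) - 2 * ph s + 13 / 1000 ≤ G2 + G3 := by
  exfalso
  exact absurd b1 (not_le.mpr (by linear_combination s2 + t1 + hc))

theorem m121 {s b t k G2 G3 : ℝ} (R : Reg s b t k G2 G3) (hT : t ≤ 284 / 1000 * s) (hb : s - t ≤ b) (hc : b ≤ s - t + 3 / 200) (hy : s - t ≤ 1 / 2)
    (s1 : 2529 / 5000 ≤ s) (s2 : s ≤ 53 / 100)
    (b1 : 39 / 80 ≤ b) (b2 : b ≤ 1 / 2) (t1 : 659 / 10000 ≤ t) (t2 : t ≤ 753 / 10000) :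
    4 * ph (s - t) - 2 * ph s + 13 / 1000 ≤ G2 + G3 := by
  exfalso
  exact absurd b1 (not_le.mpr (by linear_combination s2 + t1 + hc))

theorem m126 {s b t k G2 G3 : ℝ} (R : Reg s b t k G2 G3) (hT : t ≤ 284 / 1000 * s) (hb : s - t ≤ b) (hc : b ≤ s - t + 3 / 200) (hy : s - t ≤ 1 / 2)
    (s1 : 963 / 2000 ≤ s) (s2 : s ≤ 53 / 100)
    (b1 : 2 / 5 ≤ b) (b2 : b ≤ 17 / 40) (t1 : 753 / 10000 ≤ t) (t2 : t ≤ 471 / 5000) :
    4 * ph (s - t) - 2 * ph s + 13 / 1000 ≤ G2 + G3 := by
  have e1 := up (t1 := (208 / 1000)) (t2 := (224 / 1000)) (x := b) (by norm_num)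
    (by linear_combination (16301 / 15625) * b1) (by linear_combination (16409 / 15625) * b2)
  have e2 := R.lo0 (272 / 1000) (by norm_num)
  have e3 := up (t1 := (201 / 1000)) (t2 := (241 / 1000)) (x := s - t) (by norm_num)
    (by linear_combination (1040401 / 1000000) * s1 + (1040401 / 1000000) * t2) (by linear_combination (1058081 / 1000000) * s2 + (1058081 / 1000000) * t1)
  have e4 := R.lo2 (300 / 1000) (by norm_num)
  have e5 := up (t1 := (77 / 1000)) (t2 := (86 / 1000)) (x := 8 / 25 * s) (by norm_num)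
    (by linear_combination (1005929 / 3125000) * s1) (by linear_combination (251849 / 781250) * s2)
  have e6 := R.lo6 (-12 / 1000) (by norm_num)
  have e7 := R.lo7 (644 / 1000) (by norm_num)
  have e8 := R.lo8 (191 / 1000) (by norm_num)
  have c2 := R.k13 (by linear_combination (125 / 108) * e1 + (641119 / 27) * R.k1 + (641146 / 27) * R.k2 + (17 / 25) * s1 + t2)
  have c3 := R.l20 (by linear_combination (125 / 108) * e1 + (641119 / 27) * R.k1 + (641146 / 27) * R.k2 + t2) (by linear_combination (433015 / 476704) * e1 + R.k2 + s1 + (5317681 / 5958800) * b2 + t2)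
  linear_combination (80500 / 36579) * R.h1 + (1000000 / 963519) * e8 + (62500 / 36579) * e7 + (62500 / 62491) * e6 + (500000 / 496689) * e5 + (100 / 91) * e4 + (4000000 / 951559) * e3 + (31250 / 14469) * e2 + (240180019544149856525 / 55677854397336926664) * e1 + (12537277254071140 / 5139091749770979) * R.k2 + (144900852363068440 / 1565357748020539473) * s2 + (113955475985704833239 / 510380331975588494420) * b2 + (406292113287369862180 / 698592715188617572323) * t2 + c2 + c3

end Pool.Agent.Strip051.FourC.LA
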