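import Pool.Agent.Strip051.FourC.Box

set_option linter.unusedVariables false

/-! # The window, boxes -/

namespace Pool.Agent.Strip051.FourC.LA

open Pool.Agent.StripNear Pool.Agent.StripSquare Pool.Agent.Strip051
open Pool.Agent.Strip051.Four.Low (ph)

theorem w3 {s b t k G2 G3 : ℝ} (R : Reg s b t k G2 G3) (hT : t ≤ 284 / 1000 * s) (hb : b ≤ s - t)
    (s1 : 433 / 1000 ≤ s) (s2 : s ≤ 53 / 100)
    (b1 : 3 / 25 ≤ b) (b2 : b ≤ 31 / 100) (t1 : 0 ≤ t) (t2 : t ≤ 377 / 10000) :
    4 * ph (s - t) - 2 * ph s ≤ G2 + G3 := by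
  have e1 := up (t1 := (60 / 1000)) (t2 := (159 / 1000)) (x := b) (by norm_num)
    (by linear_combination (2509 / 2500) * b1) (by linear_combination (1025281 / 1000000) * b2)
  have e2 := R.lo0 (257 / 1000) (by norm_num)
  have e3 := up (t1 := (206 / 1000)) (t2 := (287 / 1000)) (x := s - t) (by norm_num)
    (by linear_combination (260609 / 250000) * s1 + (260609 / 250000) * t2) (by linear_combination (1082369 / 1000000) * s2 + (1082369 / 1000000) * t1)
  have e4 := R.lo2 (297 / 1000) (by norm_num)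
  have e5 := R.lo3 (170 / 1000) (by norm_num)
  have e6 := up (t1 := (69 / 1000)) (t2 := (86 / 1000)) (x := 8 / 25 * s) (by norm_num)
    (by linear_combination (1004761 / 3125000) * s1) (by linear_combination (251849 / 781250) * s2)
  have e7 := R.lo5 (2 / 1000) (by norm_num)
  have e8 := R.lo7 (680 / 1000) (by norm_num)
  have c2 := R.k23 (by linear_combination (500 / 219) * e1 + (30556943 / 219) * R.k1 + (30557162 / 219) * R.k2 + s1 + t2)
  have c3 := R.l10 (by linear_combination (500 / 219) * e1 + (30556943 / 219) * R.k1 + (30557162 / 219) * R.k2 + (8 / 25) * s1 + t2) (by linear_combination (86603 / 99046) * e1 + R.k2 + s1 + (68489057 / 99046000) * b2 + t2)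
  linear_combination (425 / 168) * R.h1 + (625 / 336) * e8 + (250000 / 249999) * e7 + (500000 / 497033) * e6 + (10000 / 9711) * e5 + (1000000 / 911791) * e4 + (2000000 / 470439) * e3 + (2000000 / 933951) * e2 + (20915199174509666097125 / 4092618283772130757008) * e1 + (146081813832607375 / 41320379255821848) * R.k2 + (1509751695775468819723119880 / 35736224724597400672133972169) * s2 + (741359662502549618249 / 2518534328475157388928) * b1 + (18616559195846732375 / 12933278707072238424) * t2 + c2 + c3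

theorem w6 {s b t k G2 G3 : ℝ} (R : Reg s b t k G2 G3) (hT : t ≤ 284 / 1000 * s) (hb : b ≤ s - t)
    (s1 : 433 / 1000 ≤ s) (s2 : s ≤ 53 / 100)
    (b1 : 3 / 25 ≤ b) (b2 : b ≤ 43 / 200) (t1 : 377 / 10000 ≤ t) (t2 : t ≤ 113 / 2000) :
    4 * ph (s - t) - 2 * ph s ≤ G2 + G3 := by
  have e1 := up (t1 := (60 / 1000)) (t2 := (109 / 1000)) (x := b) (by norm_num)
    (by linear_combination (2509 / 2500) * b1) (by linear_combination (1011881 / 1000000) * b2)
  have e2 := R.lo0 (257 / 1000) (by norm_num)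
  have e3 := up (t1 := (195 / 1000)) (t2 := (264 / 1000)) (x := s - t) (by norm_num)
    (by linear_combination (41521 / 40000) * s1 + (41521 / 40000) * t2) (by linear_combination (16714 / 15625) * s2 + (16714 / 15625) * t1)
  have e4 := R.lo2 (271 / 1000) (by norm_num)
  have e5 := R.lo3 (174 / 1000) (by norm_num)
  have e6 := up (t1 := (69 / 1000)) (t2 := (86 / 1000)) (x := 8 / 25 * s) (by norm_num)
    (by linear_combination (1004761 / 3125000) * s1) (by linear_combination (251849 / 781250) * s2)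
  have e7 := R.lo5 (5 / 1000) (by norm_num)
  have e8 := R.lo7 (610 / 1000) (by norm_num)
  have c2 := R.k23 (by linear_combination (500 / 169) * e1 + (2695161 / 13) * R.k1 + (2695174 / 13) * R.k2 + s1 + t2)
  have c3 := R.l10 (by linear_combination (500 / 169) * e1 + (2695161 / 13) * R.k1 + (2695174 / 13) * R.k2 + (8 / 25) * s1 + t2) (by linear_combination (86603 / 99346) * e1 + R.k2 + s1 + (4946839 / 7642000) * b2 + t2)
  linear_combination (12200 / 6279) * R.h1 + (10000 / 6279) * e8 + (40000 / 39999) * e7 + (500000 / 497033) * e6 + (250000 / 242431) * e5 + (1000000 / 926559) * e4 + (100000 / 23713) * e3 + (2000000 / 933951) * e2 + (28839381160511531970400 / 6354518511521475521577) * e1 + (370580230962793600 / 127927012894761249) * R.k2 + (683327473303698704209896201772 / 10989139161921999435952290670401) * s1 + (1782396944211837784156 / 5702773023160298545005) * b1 + (126770396737007969900 / 131892750294498847719) * t2 + c2 + c3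

theorem w8 {s b t k G2 G3 : ℝ} (R : Reg s b t k G2 G3) (hT : t ≤ 284 / 1000 * s) (hb : b ≤ s - t)
    (s1 : 433 / 1000 ≤ s) (s2 : s ≤ 53 / 100)
    (b1 : 3 / 25 ≤ b) (b2 : b ≤ 67 / 400) (t1 : 113 / 2000 ≤ t) (t2 : t ≤ 753 / 10000) :
    4 * ph (s - t) - 2 * ph s ≤ G2 + G3 := by
  have e1 := up (t1 := (60 / 1000)) (t2 := (85 / 1000)) (x := b) (by norm_num)
    (by linear_combination (2509 / 2500) * b1) (by linear_combination (40289 / 40000) * b2)
  have e2 := R.lo0 (257 / 1000) (by norm_num)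
  have e3 := up (t1 := (184 / 1000)) (t2 := (252 / 1000)) (x := s - t) (by norm_num)
    (by linear_combination (16154 / 15625) * s1 + (16154 / 15625) * t2) (by linear_combination (66469 / 62500) * s2 + (66469 / 62500) * t1)
  have e4 := R.lo2 (255 / 1000) (by norm_num)
  have e5 := R.lo3 (172 / 1000) (by norm_num)
  have e6 := up (t1 := (69 / 1000)) (t2 := (86 / 1000)) (x := 8 / 25 * s) (by norm_num)
    (by linear_combination (1004761 / 3125000) * s1) (by linear_combination (251849 / 781250) * s2)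
  have c2 := R.k22 (by linear_combination (86603 / 99490) * e1 + R.k2 + s1 + (12460487 / 19898000) * b2 + t2)
  linear_combination (1000000 / 497033) * e6 + (62500 / 60651) * e5 + (40000 / 37399) * e4 + (125000 / 29801) * e3 + (2000000 / 933951) * e2 + (40361647971670 / 22567184865801) * e1 + (2041358900 / 2268286749) * R.k2 + (753790515216467514797600 / 10459642815382582458681489) * s1 + (73949522086843 / 451343697316020) * b2 + (62787091241600 / 67597213406949) * t1 + c2 + R.g3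

theorem w9 {s b t k G2 G3 : ℝ} (R : Reg s b t k G2 G3) (hT : t ≤ 284 / 1000 * s) (hb : b ≤ s - t)
    (s1 : 433 / 1000 ≤ s) (s2 : s ≤ 53 / 100)
    (b1 : 67 / 400 ≤ b) (b2 : b ≤ 43 / 200) (t1 : 113 / 2000 ≤ t) (t2 : t ≤ 753 / 10000) :
    4 * ph (s - t) - 2 * ph s ≤ G2 + G3 := by
  have e1 := up (t1 := (84 / 1000)) (t2 := (109 / 1000)) (x := b) (by norm_num)
    (by linear_combination (62941 / 62500) * b1) (by linear_combination (1011881 / 1000000) * b2)
  have e2 := R.lo0 (257 / 1000) (by norm_num)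
  have e3 := up (t1 := (184 / 1000)) (t2 := (252 / 1000)) (x := s - t) (by norm_num)
    (by linear_combination (16154 / 15625) * s1 + (16154 / 15625) * t2) (by linear_combination (66469 / 62500) * s2 + (66469 / 62500) * t1)
  have e4 := R.lo2 (265 / 1000) (by norm_num)
  have e5 := R.lo3 (156 / 1000) (by norm_num)
  have e6 := up (t1 := (69 / 1000)) (t2 := (86 / 1000)) (x := 8 / 25 * s) (by norm_num)
    (by linear_combination (1004761 / 3125000) * s1) (by linear_combination (251849 / 781250) * s2)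
  have e7 := R.lo5 (-12 / 1000) (by norm_num)
  have e8 := R.lo7 (596 / 1000) (by norm_num)
  have c2 := R.k23 (by linear_combination (500 / 193) * e1 + (32827821 / 193) * R.k1 + (32828014 / 193) * R.k2 + s1 + t2)
  have c3 := R.l10 (by linear_combination (500 / 193) * e1 + (32827821 / 193) * R.k1 + (32828014 / 193) * R.k2 + (8 / 25) * s1 + t2) (by linear_combination (433015 / 495422) * e1 + R.k2 + s1 + (66256579 / 99084400) * b2 + t2)
  linear_combination (74500 / 40299) * R.h1 + (62500 / 40299) * e8 + (62500 / 62491) * e7 + (500000 / 497033) * e6 + (62500 / 60979) * e5 + (40000 / 37191) * e4 + (125000 / 29801) * e3 + (2000000 / 933951) * e2 + (5594430959406373250 / 1274057674996243683) * e1 + (153576500794100 / 56576552615583) * R.k2 + (15823179744543642226286480 / 151944534962590982023050639) * s1 + (3998781499482560187 / 18686179233278240684) * b1 + (87841834271511800 / 99178696735116999) * t2 + c2 + c3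

theorem w10 {s b t k G2 G3 : ℝ} (R : Reg s b t k G2 G3) (hT : t ≤ 284 / 1000 * s) (hb : b ≤ s - t)
    (s1 : 433 / 1000 ≤ s) (s2 : s ≤ 53 / 100)
    (b1 : 43 / 200 ≤ b) (b2 : b ≤ 31 / 100) (t1 : 377 / 10000 ≤ t) (t2 : t ≤ 753 / 10000) :
    4 * ph (s - t) - 2 * ph s ≤ G2 + G3 := by
  have e1 := up (t1 := (108 / 1000)) (t2 := (159 / 1000)) (x := b) (by norm_num)
    (by linear_combination (63229 / 62500) * b1) (by linear_combination (1025281 / 1000000) * b2)
  have e2 := R.lo0 (257 / 1000) (by norm_num)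
  have e3 := up (t1 := (184 / 1000)) (t2 := (264 / 1000)) (x := s - t) (by norm_num)
    (by linear_combination (16154 / 15625) * s1 + (16154 / 15625) * t2) (by linear_combination (16714 / 15625) * s2 + (16714 / 15625) * t1)
  have e4 := R.lo2 (283 / 1000) (by norm_num)
  have e5 := R.lo3 (133 / 1000) (by norm_num)
  have e6 := up (t1 := (69 / 1000)) (t2 := (86 / 1000)) (x := 8 / 25 * s) (by norm_num)
    (by linear_combination (1004761 / 3125000) * s1) (by linear_combination (251849 / 781250) * s2)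
  have e7 := R.lo7 (642 / 1000) (by norm_num)
  have e8 := R.lo8 (111 / 1000) (by norm_num)
  have c2 := R.k23 (by linear_combination (500 / 267) * e1 + (26018399 / 267) * R.k1 + (26018666 / 267) * R.k2 + s1 + t2)
  have c3 := R.l20 (by linear_combination (39365 / 44674) * e1 + R.k2 + (2365309 / 8934800) * b1 + t2) (by linear_combination (39365 / 44674) * e1 + R.k2 + s1 + (6569491 / 8934800) * b2 + t2)
  linear_combination (321000 / 146959) * R.h1 + (1000000 / 987679) * e8 + (250000 / 146959) * e7 + (1000000 / 497033) * e6 + (1000000 / 982311) * e5 + (1000000 / 919911) * e4 + (31250 / 7433) * e3 + (2000000 / 933951) * e2 + (5472101208111656754500000 / 1061216878802242430533419) * e1 + (5822567194120571344734769000 / 96474261709294766412129) * R.k1 + (64051258913090574961794506000 / 1061216878802242430533419) * R.k2 + (1206422775381298368182800 / 346438188007750614685203591) * s1 + (9474371808660970589485000 / 9847721673079985001441827) * t2 + c2 + c3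

theorem w13 {s b t k G2 G3 : ℝ} (R : Reg s b t k G2 G3) (hT : t ≤ 284 / 1000 * s) (hb : b ≤ s - t)
    (s1 : 433 / 1000 ≤ s) (s2 : s ≤ 53 / 100)
    (b1 : 3 / 25 ≤ b) (b2 : b ≤ 43 / 200) (t1 : 753 / 10000 ≤ t) (t2 : t ≤ 113 / 1000) :
    4 * ph (s - t) - 2 * ph s ≤ G2 + G3 := by
  have e1 := up (t1 := (60 / 1000)) (t2 := (109 / 1000)) (x := b) (by norm_num)
    (by linear_combination (2509 / 2500) * b1) (by linear_combination (1011881 / 1000000) * b2)
  have e2 := R.lo0 (257 / 1000) (by norm_num)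
  have e3 := up (t1 := (164 / 1000)) (t2 := (241 / 1000)) (x := s - t) (by norm_num)
    (by linear_combination (64181 / 62500) * s1 + (64181 / 62500) * t2) (by linear_combination (1058081 / 1000000) * s2 + (1058081 / 1000000) * t1)
  have e4 := R.lo2 (242 / 1000) (by norm_num)
  have e5 := R.lo3 (148 / 1000) (by norm_num)
  have e6 := up (t1 := (69 / 1000)) (t2 := (86 / 1000)) (x := 8 / 25 * s) (by norm_num)
    (by linear_combination (1004761 / 3125000) * s1) (by linear_combination (251849 / 781250) * s2)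
  have c2 := R.k22 (by linear_combination (86603 / 99346) * e1 + R.k2 + s1 + (4946839 / 7642000) * b2 + t2)
  linear_combination (1000000 / 497033) * e6 + (62500 / 61131) * e5 + (250000 / 235359) * e4 + (1000000 / 240119) * e3 + (2000000 / 933951) * e2 + (409407384396250 / 238227254467839) * e1 + (3916997500 / 4795910343) * R.k2 + (23339681644683169622619100 / 178190949737034961844600637) * s1 + (4512796218535 / 24433564560804) * b2 + (1001798166212500 / 1151589195650817) * t1 + c2 + R.g3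

theorem w15 {s b t k G2 G3 : ℝ} (R : Reg s b t k G2 G3) (hT : t ≤ 284 / 1000 * s) (hb : b ≤ s - t)
    (s1 : 433 / 1000 ≤ s) (s2 : s ≤ 53 / 100)
    (b1 : 43 / 200 ≤ b) (b2 : b ≤ 31 / 100) (t1 : 753 / 10000 ≤ t) (t2 : t ≤ 471 / 5000) :
    4 * ph (s - t) - 2 * ph s ≤ G2 + G3 := by
  have e1 := up (t1 := (108 / 1000)) (t2 := (159 / 1000)) (x := b) (by norm_num)
    (by linear_combination (63229 / 62500) * b1) (by linear_combination (1025281 / 1000000) * b2)
  have e2 := R.lo0 (257 / 1000) (by norm_num)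
  have e3 := up (t1 := (174 / 1000)) (t2 := (241 / 1000)) (x := s - t) (by norm_num)
    (by linear_combination (257569 / 250000) * s1 + (257569 / 250000) * t2) (by linear_combination (1058081 / 1000000) * s2 + (1058081 / 1000000) * t1)
  have e4 := R.lo2 (266 / 1000) (by norm_num)
  have e5 := R.lo3 (119 / 1000) (by norm_num)
  have e6 := up (t1 := (69 / 1000)) (t2 := (86 / 1000)) (x := 8 / 25 * s) (by norm_num)
    (by linear_combination (1004761 / 3125000) * s1) (by linear_combination (251849 / 781250) * s2)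
  have e7 := R.lo5 (-47 / 1000) (by norm_num)
  have e8 := R.lo7 (598 / 1000) (by norm_num)
  have c2 := R.k23 (by linear_combination (500 / 267) * e1 + (26018399 / 267) * R.k1 + (26018666 / 267) * R.k2 + s1 + t2)
  have c3 := R.l10 (by linear_combination (500 / 267) * e1 + (26018399 / 267) * R.k1 + (26018666 / 267) * R.k2 + (8 / 25) * s1 + t2) (by linear_combination (39365 / 44674) * e1 + R.k2 + s1 + (6569491 / 8934800) * b2 + t2)
  linear_combination (299000 / 160599) * R.h1 + (250000 / 160599) * e8 + (1000000 / 997791) * e7 + (500000 / 497033) * e6 + (1000000 / 985839) * e5 + (250000 / 232311) * e4 + (2000000 / 479033) * e3 + (2000000 / 933951) * e2 + (479770803713205744075540000 / 111324486034987601252374267) * e1 + (1169620923949086272000 / 453078203042597896081) * R.k2 + (191830244731143291062448593317960 / 1882029105583893213066347813966523) * s1 + (794927571287683897753180 / 111324486034987601252374267) * b2 + (184232111536746390387746000 / 217039410838104797953369673)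 * t2 + c2 + c3

theorem w17 {s b t k G2 G3 : ℝ} (R : Reg s b t k G2 G3) (hT : t ≤ 284 / 1000 * s) (hb : b ≤ s - t)
    (s1 : 433 / 1000 ≤ s) (s2 : s ≤ 963 / 2000)
    (b1 : 43 / 200 ≤ b) (b2 : b ≤ 31 / 100) (t1 : 471 / 5000 ≤ t) (t2 : t ≤ 113 / 1000) :
    4 * ph (s - t) - 2 * ph s ≤ G2 + G3 := by
  have e1 := up (t1 := (108 / 1000)) (t2 := (159 / 1000)) (x := b) (by norm_num)
    (by linear_combination (63229 / 62500) * b1) (by linear_combination (1025281 / 1000000) * b2)
  have e2 := R.lo0 (242 / 1000) (by norm_num)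
  have e3 := up (t1 := (164 / 1000)) (t2 := (202 / 1000)) (x := s - t) (by norm_num)
    (by linear_combination (64181 / 62500) * s1 + (64181 / 62500) * t2) (by linear_combination (260201 / 250000) * s2 + (260201 / 250000) * t1)
  have e4 := R.lo2 (240 / 1000) (by norm_num)
  have e5 := up (t1 := (69 / 1000)) (t2 := (78 / 1000)) (x := 8 / 25 * s) (by norm_num)
    (by linear_combination (1004761 / 3125000) * s1) (by linear_combination (251521 / 781250) * s2)
  have e6 := R.lo6 (22 / 1000) (by norm_num)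
  have c2 := R.k12 (by linear_combination (39365 / 44674) * e1 + R.k2 + s1 + (6569491 / 8934800) * b2 + t2) (by linear_combination (500 / 267) * e1 + (26018399 / 267) * R.k1 + (26018666 / 267) * R.k2 + (17 / 25) * s1 + t2)
  linear_combination (250000 / 249879) * e6 + (500000 / 497309) * e5 + (625 / 589) * e4 + (500000 / 120859) * e3 + (500000 / 235359) * e2 + (54427638120250 / 36162844457817) * e1 + (81442700 / 147178731) * R.k2 + (220368945677491219780 / 36526354010931397371507) * s1 + (24474377146627 / 144651377831268) * b2 + (899506552300 / 936203907891) * t1 + c2 + R.g3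

theorem w18 {s b t k G2 G3 : ℝ} (R : Reg s b t k G2 G3) (hT : t ≤ 284 / 1000 * s) (hb : b ≤ s - t)
    (s1 : 963 / 2000 ≤ s) (s2 : s ≤ 53 / 100)
    (b1 : 43 / 200 ≤ b) (b2 : b ≤ 31 / 100) (t1 : 471 / 5000 ≤ t) (t2 : t ≤ 113 / 1000) :
    4 * ph (s - t) - 2 * ph s ≤ G2 + G3 := by
  have e1 := up (t1 := (108 / 1000)) (t2 := (159 / 1000)) (x := b) (by norm_num)
    (by linear_combination (63229 / 62500) * b1) (by linear_combination (1025281 / 1000000) * b2)
  have e2 := R.lo0 (272 / 1000) (by norm_num)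
  have e3 := up (t1 := (190 / 1000)) (t2 := (230 / 1000)) (x := s - t) (by norm_num)
    (by linear_combination (10361 / 10000) * s1 + (10361 / 10000) * t2) (by linear_combination (10529 / 10000) * s2 + (10529 / 10000) * t1)
  have e4 := R.lo2 (269 / 1000) (by norm_num)
  have e5 := R.lo3 (121 / 1000) (by norm_num)
  have e6 := up (t1 := (77 / 1000)) (t2 := (86 / 1000)) (x := 8 / 25 * s) (by norm_num)
    (by linear_combination (1005929 / 3125000) * s1) (by linear_combination (251849 / 781250) * s2)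
  have c2 := R.k22 (by linear_combination (39365 / 44674) * e1 + R.k2 + s1 + (6569491 / 8934800) * b2 + t2)
  linear_combination (1000000 / 496689) * e6 + (1000000 / 985359) * e5 + (1000000 / 927639) * e4 + (40000 / 9563) * e3 + (31250 / 14469) * e2 + (18661593776600000 / 10694776703404167) * e1 + (251537260000 / 304685812467) * R.k2 + (18982842641018143668520 / 136860466355869901809437) * s1 + (3194632750868200 / 10694776703404167) * b2 + (2713270832065600 / 2913710424621921) * t1 + c2 + R.g3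

theorem w19 {s b t k G2 G3 : ℝ} (R : Reg s b t k G2 G3) (hT : t ≤ 284 / 1000 * s) (hb : b ≤ s - t)
    (s1 : 433 / 1000 ≤ s) (s2 : s ≤ 53 / 100)
    (b1 : 3 / 25 ≤ b) (b2 : b ≤ 31 / 100) (t1 : 113 / 1000 ≤ t) (t2 : t ≤ 753 / 5000) :
    4 * ph (s - t) - 2 * ph s ≤ G2 + G3 := by
  have e1 := up (t1 := (60 / 1000)) (t2 := (159 / 1000)) (x := b) (by norm_num)
    (by linear_combination (2509 / 2500) * b1) (by linear_combination (1025281 / 1000000) * b2)
  have e2 := R.lo0 (257 / 1000) (by norm_num)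
  have e3 := up (t1 := (144 / 1000)) (t2 := (219 / 1000)) (x := s - t) (by norm_num)
    (by linear_combination (15949 / 15625) * s1 + (15949 / 15625) * t2) (by linear_combination (1047961 / 1000000) * s2 + (1047961 / 1000000) * t1)
  have e4 := R.lo2 (228 / 1000) (by norm_num)
  have e5 := up (t1 := (69 / 1000)) (t2 := (86 / 1000)) (x := 8 / 25 * s) (by norm_num)
    (by linear_combination (1004761 / 3125000) * s1) (by linear_combination (251849 / 781250) * s2)
  have e6 := R.lo6 (32 / 1000) (by norm_num)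
  have c2 := R.k12 (by linear_combination (86603 / 99046) * e1 + R.k2 + s1 + (68489057 / 99046000) * b2 + t2) (by linear_combination (500 / 219) * e1 + (30556943 / 219) * R.k1 + (30557162 / 219) * R.k2 + (17 / 25) * s1 + t2)
  linear_combination (15625 / 15609) * e6 + (500000 / 497033) * e5 + (62500 / 59251) * e4 + (250000 / 60529) * e3 + (2000000 / 933951) * e2 + (6188277623750 / 4163753640387) * e1 + (504107500 / 924848859) * R.k2 + (2146951490696327312510 / 28215253047015423811653) * s1 + (21437560829455 / 183205160177028) * b2 + (53416911086750 / 55980176586411) * t1 + c2 + R.g3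

theorem w23 {s b t k G2 G3 : ℝ} (R : Reg s b t k G2 G3) (hT : t ≤ 284 / 1000 * s) (hb : b ≤ s - t)
    (s1 : 433 / 1000 ≤ s) (s2 : s ≤ 53 / 100)
    (b1 : 31 / 100 ≤ b) (b2 : b ≤ 81 / 200) (t1 : 0 ≤ t) (t2 : t ≤ 377 / 10000) :
    4 * ph (s - t) - 2 * ph s ≤ G2 + G3 := by
  have e1 := up (t1 := (158 / 1000)) (t2 := (212 / 1000)) (x := b) (by norm_num)
    (by linear_combination (256241 / 250000) * b1) (by linear_combination (65309 / 62500) * b2)
  have e2 := R.lo0 (257 / 1000) (by norm_num)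
  have e3 := up (t1 := (206 / 1000)) (t2 := (287 / 1000)) (x := s - t) (by norm_num)
    (by linear_combination (260609 / 250000) * s1 + (260609 / 250000) * t2) (by linear_combination (1082369 / 1000000) * s2 + (1082369 / 1000000) * t1)
  have e4 := R.lo2 (322 / 1000) (by norm_num)
  have e5 := R.lo3 (114 / 1000) (by norm_num)
  have e6 := up (t1 := (69 / 1000)) (t2 := (86 / 1000)) (x := 8 / 25 * s) (by norm_num)
    (by linear_combination (1004761 / 3125000) * s1) (by linear_combination (251849 / 781250) * s2)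
  have e7 := R.lo7 (772 / 1000) (by norm_num)
  have e8 := R.lo8 (130 / 1000) (by norm_num)
  have c2 := R.k23 (by linear_combination (50 / 37) * e1 + (1628209 / 37) * R.k1 + (1628246 / 37) * R.k2 + s1 + t2)
  have c3 := R.l20 (by linear_combination (50 / 37) * e1 + (1628209 / 37) * R.k1 + (1628246 / 37) * R.k2 + t2) (by linear_combination (39365 / 43932) * e1 + R.k2 + s1 + (730621 / 878640) * b2 + t2)
  linear_combination (96500 / 25251) * R.h1 + (10000 / 9831) * e8 + (62500 / 25251) * e7 + (1000000 / 497033) * e6 + (250000 / 246751) * e5 + (250000 / 224079) * e4 + (2000000 / 470439) * e3 + (2000000 / 933951) * e2 + (6966896735495000 / 1127232241186323) * e1 + (2653041952786439300 / 375744080395441) * R.k1 + (2654735303602418200 / 375744080395441) * R.k2 + (195216728168287972188226400 / 1341622099511202847419345897) * s2 + (11517151385091700300 / 4777423498301374827) * t2 + c2 + c3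

theorem w24 {s b t k G2 G3 : ℝ} (R : Reg s b t k G2 G3) (hT : t ≤ 284 / 1000 * s) (hb : b ≤ s - t)
    (s1 : 433 / 1000 ≤ s) (s2 : s ≤ 53 / 100)
    (b1 : 31 / 100 ≤ b) (b2 : b ≤ 81 / 200) (t1 : 377 / 10000 ≤ t) (t2 : t ≤ 753 / 10000) :
    4 * ph (s - t) - 2 * ph s ≤ G2 + G3 := by
  have e1 := up (t1 := (158 / 1000)) (t2 := (212 / 1000)) (x := b) (by norm_num)
    (by linear_combination (256241 / 250000) * b1) (by linear_combination (65309 / 62500) * b2)
  have e2 := R.lo0 (257 / 1000) (by norm_num)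
  have e3 := up (t1 := (184 / 1000)) (t2 := (264 / 1000)) (x := s - t) (by norm_num)
    (by linear_combination (16154 / 15625) * s1 + (16154 / 15625) * t2) (by linear_combination (16714 / 15625) * s2 + (16714 / 15625) * t1)
  have e4 := R.lo2 (297 / 1000) (by norm_num)
  have e5 := R.lo3 (95 / 1000) (by norm_num)
  have e6 := up (t1 := (69 / 1000)) (t2 := (86 / 1000)) (x := 8 / 25 * s) (by norm_num)
    (by linear_combination (1004761 / 3125000) * s1) (by linear_combination (251849 / 781250) * s2)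
  have e7 := R.lo7 (680 / 1000) (by norm_num)
  have e8 := R.lo8 (150 / 1000) (by norm_num)
  have c2 := R.k23 (by linear_combination (50 / 37) * e1 + (1628209 / 37) * R.k1 + (1628246 / 37) * R.k2 + s1 + t2)
  have c3 := R.l20 (by linear_combination (50 / 37) * e1 + (1628209 / 37) * R.k1 + (1628246 / 37) * R.k2 + t2) (by linear_combination (39365 / 43932) * e1 + R.k2 + s1 + (730621 / 878640) * b2 + t2)
  linear_combination (425 / 168) * R.h1 + (400 / 391) * e8 + (625 / 336) * e7 + (1000000 / 497033) * e6 + (40000 / 39639) * e5 + (1000000 / 911791) * e4 + (31250 / 7433) * e3 + (2000000 / 933951) * e2 + (1842043151913116857675 / 382433946606498856608) * e1 + (2426399395664845 / 791375817599304) * R.k2 + (545789347331425500105200 / 13856352715816513777134079) * s2 + (204911817565998688039 / 1529735786425995426432) * b2 + (6956165261586536885 / 5882296452215626632) * t2 + c2 + c3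

theorem w27 {s b t k G2 G3 : ℝ} (R : Reg s b t k G2 G3) (hT : t ≤ 284 / 1000 * s) (hb : b ≤ s - t)
    (s1 : 433 / 1000 ≤ s) (s2 : s ≤ 53 / 100)
    (b1 : 31 / 100 ≤ b) (b2 : b ≤ 81 / 200) (t1 : 753 / 10000 ≤ t) (t2 : t ≤ 471 / 5000) :
    4 * ph (s - t) - 2 * ph s ≤ G2 + G3 := by
  have e1 := up (t1 := (158 / 1000)) (t2 := (212 / 1000)) (x := b) (by norm_num)
    (by linear_combination (256241 / 250000) * b1) (by linear_combination (65309 / 62500) * b2)
  have e2 := R.lo0 (257 / 1000) (by norm_num)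
  have e3 := up (t1 := (174 / 1000)) (t2 := (241 / 1000)) (x := s - t) (by norm_num)
    (by linear_combination (257569 / 250000) * s1 + (257569 / 250000) * t2) (by linear_combination (1058081 / 1000000) * s2 + (1058081 / 1000000) * t1)
  have e4 := R.lo2 (279 / 1000) (by norm_num)
  have e5 := up (t1 := (69 / 1000)) (t2 := (86 / 1000)) (x := 8 / 25 * s) (by norm_num)
    (by linear_combination (1004761 / 3125000) * s1) (by linear_combination (251849 / 781250) * s2)
  have e6 := R.lo6 (3 / 1000) (by norm_num)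
  have e7 := R.lo7 (629 / 1000) (by norm_num)
  have e8 := R.lo8 (165 / 1000) (by norm_num)
  have c2 := R.k13 (by linear_combination (50 / 37) * e1 + (1628209 / 37) * R.k1 + (1628246 / 37) * R.k2 + (17 / 25) * s1 + t2)
  have c3 := R.l20 (by linear_combination (39365 / 43932) * e1 + R.k2 + (148019 / 878640) * b1 + t2) (by linear_combination (39365 / 43932) * e1 + R.k2 + s1 + (730621 / 878640) * b2 + t2)
  linear_combination (1258000 / 604359) * R.h1 + (40000 / 38911) * e8 + (1000000 / 604359) * e7 + (1000000 / 999991) * e6 + (500000 / 497033) * e5 + (1000000 / 922159) * e4 + (2000000 / 479033) * e3 + (2000000 / 933951) * e2 + (1563726892794492385684789000 / 374269912259215651189921179) * e1 + (7290694535616739530400 / 3097927476837887074983) * R.k2 + (876579733562615439857184560 / 12062233389707098595722669623) * s2 + (13453537982275383856583530 / 374269912259215651189921179) * b2 + (921203469704647315230213200 / 1484009493012083559190331439) * t2 + c2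 + c3

theorem w29 {s b t k G2 G3 : ℝ} (R : Reg s b t k G2 G3) (hT : t ≤ 284 / 1000 * s) (hb : b ≤ s - t)
    (s1 : 433 / 1000 ≤ s) (s2 : s ≤ 53 / 100)
    (b1 : 31 / 100 ≤ b) (b2 : b ≤ 81 / 200) (t1 : 471 / 5000 ≤ t) (t2 : t ≤ 259 / 2500) :
    4 * ph (s - t) - 2 * ph s ≤ G2 + G3 := by
  have e1 := up (t1 := (158 / 1000)) (t2 := (212 / 1000)) (x := b) (by norm_num)
    (by linear_combination (256241 / 250000) * b1) (by linear_combination (65309 / 62500) * b2)
  have e2 := R.lo0 (257 / 1000) (by norm_num)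
  have e3 := up (t1 := (169 / 1000)) (t2 := (230 / 1000)) (x := s - t) (by norm_num)
    (by linear_combination (1028561 / 1000000) * s1 + (1028561 / 1000000) * t2) (by linear_combination (10529 / 10000) * s2 + (10529 / 10000) * t1)
  have e4 := R.lo2 (270 / 1000) (by norm_num)
  have e5 := up (t1 := (69 / 1000)) (t2 := (86 / 1000)) (x := 8 / 25 * s) (by norm_num)
    (by linear_combination (1004761 / 3125000) * s1) (by linear_combination (251849 / 781250) * s2)
  have e6 := R.lo6 (-4 / 1000) (by norm_num)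
  have e7 := R.lo7 (607 / 1000) (by norm_num)
  have e8 := R.lo8 (173 / 1000) (by norm_num)
  have c2 := R.k13 (by linear_combination (50 / 37) * e1 + (1628209 / 37) * R.k1 + (1628246 / 37) * R.k2 + (17 / 25) * s1 + t2)
  have c3 := R.l20 (by linear_combination (39365 / 43932) * e1 + R.k2 + (148019 / 878640) * b1 + t2) (by linear_combination (39365 / 43932) * e1 + R.k2 + s1 + (730621 / 878640) * b2 + t2)
  linear_combination (1214000 / 631551) * R.h1 + (1000000 / 970071) * e8 + (1000000 / 631551) * e7 + (62500 / 62499) * e6 + (500000 / 497033) * e5 + (10000 / 9271) * e4 + (400000 / 96113) * e3 + (2000000 / 933951) * e2 + (18998360225524837857859625 / 4765217826349891356235713) * e1 + (84409357991809715900 / 39442922751275867301) * R.k2 + (281957058702715751230820 / 8617272840576020902251297) * s2 + (771053369068821855852845 / 19060871305399565424942852) * b2 + (1817746153563178803057100 / 3790977634393377433901013) * t2 + c2 + c3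

theorem w32 {s b t k G2 G3 : ℝ} (R : Reg s b t k G2 G3) (hT : t ≤ 284 / 1000 * s) (hb : b ≤ s - t)
    (s1 : 433 / 1000 ≤ s) (s2 : s ≤ 53 / 100)
    (b1 : 31 / 100 ≤ b) (b2 : b ≤ 1669 / 5000) (t1 : 259 / 2500 ≤ t) (t2 : t ≤ 113 / 1000) :
    4 * ph (s - t) - 2 * ph s ≤ G2 + G3 := by
  have e1 := up (t1 := (158 / 1000)) (t2 := (172 / 1000)) (x := b) (by norm_num)
    (by linear_combination (256241 / 250000) * b1) (by linear_combination (64349 / 62500) * b2)
  have e2 := R.lo0 (257 / 1000) (by norm_num)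
  have e3 := up (t1 := (164 / 1000)) (t2 := (224 / 1000)) (x := s - t) (by norm_num)
    (by linear_combination (64181 / 62500) * s1 + (64181 / 62500) * t2) (by linear_combination (16409 / 15625) * s2 + (16409 / 15625) * t1)
  have e4 := R.lo2 (261 / 1000) (by norm_num)
  have e5 := up (t1 := (69 / 1000)) (t2 := (86 / 1000)) (x := 8 / 25 * s) (by norm_num)
    (by linear_combination (1004761 / 3125000) * s1) (by linear_combination (251849 / 781250) * s2)
  have e6 := R.lo6 (6 / 1000) (by norm_num)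
  have c2 := R.k12 (by linear_combination (433015 / 486412) * e1 + R.k2 + s1 + (7722019 / 9728240) * b2 + t2) (by linear_combination (50 / 33) * e1 + (2006221 / 33) * R.k1 + (2006254 / 33) * R.k2 + (17 / 25) * s1 + t2)
  linear_combination (250000 / 249991) * e6 + (500000 / 497033) * e5 + (1000000 / 931879) * e4 + (62500 / 15051) * e3 + (2000000 / 933951) * e2 + (43549414373896250 / 28328800635711667) * e1 + (133290939000 / 232961363089) * R.k2 + (4304724855072311589873110 / 542546936360784900781078479) * s1 + (13213951123776525 / 56657601271423334) * b2 + (3643151132019250 / 3506301475852539) * t1 + c2 + R.g3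

theorem w33 {s b t k G2 G3 : ℝ} (R : Reg s b t k G2 G3) (hT : t ≤ 284 / 1000 * s) (hb : b ≤ s - t)
    (s1 : 433 / 1000 ≤ s) (s2 : s ≤ 53 / 100)
    (b1 : 1669 / 5000 ≤ b) (b2 : b ≤ 143 / 400) (t1 : 259 / 2500 ≤ t) (t2 : t ≤ 113 / 1000) :
    4 * ph (s - t) - 2 * ph s ≤ G2 + G3 := by
  have e1 := up (t1 := (171 / 1000)) (t2 := (185 / 1000)) (x := b) (by norm_num)
    (by linear_combination (1029241 / 1000000) * b1) (by linear_combination (41369 / 40000) * b2)
  have e2 := R.lo0 (257 / 1000) (by norm_num)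
  have e3 := up (t1 := (164 / 1000)) (t2 := (224 / 1000)) (x := s - t) (by norm_num)
    (by linear_combination (64181 / 62500) * s1 + (64181 / 62500) * t2) (by linear_combination (16409 / 15625) * s2 + (16409 / 15625) * t1)
  have e4 := R.lo2 (263 / 1000) (by norm_num)
  have e5 := up (t1 := (69 / 1000)) (t2 := (86 / 1000)) (x := 8 / 25 * s) (by norm_num)
    (by linear_combination (1004761 / 3125000) * s1) (by linear_combination (251849 / 781250) * s2)
  have e6 := R.lo6 (-4 / 1000) (by norm_num)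
  have e7 := R.lo7 (593 / 1000) (by norm_num)
  have e8 := R.lo8 (172 / 1000) (by norm_num)
  have c2 := R.k13 (by linear_combination (125 / 89) * e1 + (8793791 / 178) * R.k1 + (8793969 / 178) * R.k2 + (17 / 25) * s1 + t2)
  have c3 := R.l20 (by linear_combination (173206 / 193673) * e1 + R.k2 + (8793791 / 48418250) * b1 + t2) (by linear_combination (173206 / 193673) * e1 + R.k2 + s1 + (39624459 / 48418250) * b2 + t2)
  linear_combination (1186000 / 648351) * R.h1 + (62500 / 60651) * e8 + (1000000 / 648351) * e7 + (62500 / 62499) * e6 + (500000 / 497033) * e5 + (1000000 / 930831) * e4 + (62500 / 15051) * e3 + (2000000 / 933951) * e2 + (175508762746068118604000 / 45205444968868616713137) * e1 + (5216835236777374000 / 2567523065463718659) * R.k2 + (11112729226418689084510 / 15054100612055478433638651) * s2 + (1861864937364550780264 / 497259894657554783844507) * b2 + (5418717603747026197750 / 12881263219431476512203) * t2 + c2 + c3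

theorem w34 {s b t k G2 G3 : ℝ} (R : Reg s b t k G2 G3) (hT : t ≤ 284 / 1000 * s) (hb : b ≤ s - t)
    (s1 : 433 / 1000 ≤ s) (s2 : s ≤ 53 / 100)
    (b1 : 143 / 400 ≤ b) (b2 : b ≤ 81 / 200) (t1 : 259 / 2500 ≤ t) (t2 : t ≤ 113 / 1000) :
    4 * ph (s - t) - 2 * ph s ≤ G2 + G3 := by
  have e1 := up (t1 := (184 / 1000)) (t2 := (212 / 1000)) (x := b) (by norm_num)
    (by linear_combination (16154 / 15625) * b1) (by linear_combination (65309 / 62500) * b2)
  have e2 := R.lo0 (257 / 1000) (by norm_num)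
  have e3 := up (t1 := (164 / 1000)) (t2 := (224 / 1000)) (x := s - t) (by norm_num)
    (by linear_combination (64181 / 62500) * s1 + (64181 / 62500) * t2) (by linear_combination (16409 / 15625) * s2 + (16409 / 15625) * t1)
  have e4 := R.lo2 (267 / 1000) (by norm_num)
  have e5 := up (t1 := (69 / 1000)) (t2 := (86 / 1000)) (x := 8 / 25 * s) (by norm_num)
    (by linear_combination (1004761 / 3125000) * s1) (by linear_combination (251849 / 781250) * s2)
  have e6 := R.lo6 (-19 / 1000) (by norm_num)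
  have e7 := R.lo7 (600 / 1000) (by norm_num)
  have e8 := R.lo8 (189 / 1000) (by norm_num)
  have c2 := R.k13 (by linear_combination (125 / 99) * e1 + (3438703 / 99) * R.k1 + (3438802 / 99) * R.k2 + (17 / 25) * s1 + t2)
  have c3 := R.l20 (by linear_combination (433015 / 480496) * e1 + R.k2 + (3438703 / 24024800) * b1 + t2) (by linear_combination (433015 / 480496) * e1 + R.k2 + s1 + (20586097 / 24024800) * b2 + t2)
  linear_combination (15 / 8) * R.h1 + (1000000 / 964279) * e8 + (25 / 16) * e7 + (1000000 / 999639) * e6 + (500000 / 497033) * e5 + (1000000 / 928711) * e4 + (62500 / 15051) * e3 + (2000000 / 933951) * e2 + (13425899915691264991322975 / 3441170992718808374594688) * e1 + (14466459845947051865 / 7161705805498502328) * R.k2 + (8103144117622468114375430 / 720702357844080665510564373) * s2 + (3613581789664735363893781 / 34411709927188083745946880) * b2 + (506474958138050530645 / 1238975104351240902744) * t2 + c2 + c3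

theorem w37 {s b t k G2 G3 : ℝ} (R : Reg s b t k G2 G3) (hT : t ≤ 284 / 1000 * s) (hb : b ≤ s - t)
    (s1 : 433 / 1000 ≤ s) (s2 : s ≤ 53 / 100)
    (b1 : 31 / 100 ≤ b) (b2 : b ≤ 143 / 400) (t1 : 113 / 1000 ≤ t) (t2 : t ≤ 659 / 5000) :
    4 * ph (s - t) - 2 * ph s ≤ G2 + G3 := by
  have e1 := up (t1 := (158 / 1000)) (t2 := (185 / 1000)) (x := b) (by norm_num)
    (by linear_combination (256241 / 250000) * b1) (by linear_combination (41369 / 40000) * b2)
  have e2 := R.lo0 (257 / 1000) (by norm_num)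
  have e3 := up (t1 := (154 / 1000)) (t2 := (219 / 1000)) (x := s - t) (by norm_num)
    (by linear_combination (255929 / 250000) * s1 + (255929 / 250000) * t2) (by linear_combination (1047961 / 1000000) * s2 + (1047961 / 1000000) * t1)
  have e4 := R.lo2 (253 / 1000) (by norm_num)
  have e5 := up (t1 := (69 / 1000)) (t2 := (86 / 1000)) (x := 8 / 25 * s) (by norm_num)
    (by linear_combination (1004761 / 3125000) * s1) (by linear_combination (251849 / 781250) * s2)
  have e6 := R.lo6 (-6 / 1000) (by norm_num)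
  have c2 := R.k12 (by linear_combination (86603 / 97077) * e1 + R.k2 + s1 + (78243329 / 97077000) * b2 + t2) (by linear_combination (500 / 343) * e1 + (18833671 / 343) * R.k1 + (18834014 / 343) * R.k2 + (17 / 25) * s1 + t2)
  linear_combination (250000 / 249991) * e6 + (500000 / 497033) * e5 + (1000000 / 935991) * e4 + (2000000 / 483137) * e3 + (2000000 / 933951) * e2 + (4872948404617000 / 3244997401137891) * e1 + (17669639000 / 33427046583) * R.k2 + (97888012481028365193562760 / 2498943090147190464661533531) * s1 + (774822159479131 / 3244997401137891) * b2 + (16399720373375000 / 16149843004970871) * t1 + c2 + R.g3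

theorem w40 {s b t k G2 G3 : ℝ} (R : Reg s b t k G2 G3) (hT : t ≤ 284 / 1000 * s) (hb : b ≤ s - t)
    (s1 : 433 / 1000 ≤ s) (s2 : s ≤ 963 / 2000)
    (b1 : 143 / 400 ≤ b) (b2 : b ≤ 3813 / 10000) (t1 : 113 / 1000 ≤ t) (t2 : t ≤ 659 / 5000) :
    4 * ph (s - t) - 2 * ph s ≤ G2 + G3 := by
  have e1 := up (t1 := (184 / 1000)) (t2 := (199 / 1000)) (x := b) (by norm_num)
    (by linear_combination (16154 / 15625) * b1) (by linear_combination (1039601 / 1000000) * b2)
  have e2 := R.lo0 (242 / 1000) (by norm_num)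
  have e3 := up (t1 := (154 / 1000)) (t2 := (191 / 1000)) (x := s - t) (by norm_num)
    (by linear_combination (255929 / 250000) * s1 + (255929 / 250000) * t2) (by linear_combination (1036481 / 1000000) * s2 + (1036481 / 1000000) * t1)
  have e4 := R.lo2 (243 / 1000) (by norm_num)
  have e5 := up (t1 := (69 / 1000)) (t2 := (78 / 1000)) (x := 8 / 25 * s) (by norm_num)
    (by linear_combination (1004761 / 3125000) * s1) (by linear_combination (251521 / 781250) * s2)
  have e6 := R.lo6 (-29 / 1000) (by norm_num)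
  have c2 := R.k12 (by linear_combination (433015 / 481692) * e1 + R.k2 + s1 + (81338149 / 96338400) * b2 + t2) (by linear_combination (500 / 383) * e1 + (15000251 / 383) * R.k1 + (15000634 / 383) * R.k2 + (17 / 25) * s1 + t2)
  linear_combination (1000000 / 999159) * e6 + (500000 / 497309) * e5 + (1000000 / 940951) * e4 + (2000000 / 485293) * e3 + (500000 / 235359) * e2 + (14925369853960000 / 10292440614668037) * e1 + (431016116000 / 940159660209) * R.k2 + (643074840311802202762473440 / 17800881705187812622762227549) * s1 + (30356352074365480 / 113216846761348407) * b2 + (439541061562222000 / 456252901981806237) * t1 + c2 + R.g3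

theorem w41 {s b t k G2 G3 : ℝ} (R : Reg s b t k G2 G3) (hT : t ≤ 284 / 1000 * s) (hb : b ≤ s - t)
    (s1 : 433 / 1000 ≤ s) (s2 : s ≤ 963 / 2000)
    (b1 : 3813 / 10000 ≤ b) (b2 : b ≤ 81 / 200) (t1 : 113 / 1000 ≤ t) (t2 : t ≤ 659 / 5000) :
    4 * ph (s - t) - 2 * ph s ≤ G2 + G3 := by
  exfalso
  exact absurd b1 (not_le.mpr (by linear_combination s2 + t1 + hb))

theorem w44 {s b t k G2 G3 : ℝ} (R : Reg s b t k G2 G3) (hT : t ≤ 284 / 1000 * s) (hb : b ≤ s - t)
    (s1 : 963 / 2000 ≤ s) (s2 : s ≤ 53 / 100)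
    (b1 : 143 / 400 ≤ b) (b2 : b ≤ 3813 / 10000) (t1 : 113 / 1000 ≤ t) (t2 : t ≤ 153 / 1250) :
    4 * ph (s - t) - 2 * ph s ≤ G2 + G3 := by
  have e1 := up (t1 := (184 / 1000)) (t2 := (199 / 1000)) (x := b) (by norm_num)
    (by linear_combination (16154 / 15625) * b1) (by linear_combination (1039601 / 1000000) * b2)
  have e2 := R.lo0 (272 / 1000) (by norm_num)
  have e3 := up (t1 := (185 / 1000)) (t2 := (219 / 1000)) (x := s - t) (by norm_num)
    (by linear_combination (41369 / 40000) * s1 + (41369 / 40000) * t2) (by linear_combination (1047961 / 1000000) * s2 + (1047961 / 1000000) * t1)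
  have e4 := R.lo2 (275 / 1000) (by norm_num)
  have e5 := up (t1 := (77 / 1000)) (t2 := (86 / 1000)) (x := 8 / 25 * s) (by norm_num)
    (by linear_combination (1005929 / 3125000) * s1) (by linear_combination (251849 / 781250) * s2)
  have e6 := R.lo6 (-10 / 1000) (by norm_num)
  have c2 := R.k12 (by linear_combination (433015 / 481692) * e1 + R.k2 + s1 + (81338149 / 96338400) * b2 + t2) (by linear_combination (500 / 383) * e1 + (15000251 / 383) * R.k1 + (15000634 / 383) * R.k2 + (17 / 25) * s1 + t2)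
  linear_combination (10000 / 9999) * e6 + (500000 / 496689) * e5 + (1600 / 1479) * e4 + (800000 / 191897) * e3 + (31250 / 14469) * e2 + (83911557650 / 53966001951) * e1 + (2834440 / 4929507) * R.k2 + (869833510121831168 / 44432761007722550463) * s1 + (3419596010389 / 11872520429220) * b2 + (1049296129720 / 945957604779) * t1 + c2 + R.g3

theorem w45 {s b t k G2 G3 : ℝ} (R : Reg s b t k G2 G3) (hT : t ≤ 284 / 1000 * s) (hb : b ≤ s - t)
    (s1 : 963 / 2000 ≤ s) (s2 : s ≤ 53 / 100)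
    (b1 : 3813 / 10000 ≤ b) (b2 : b ≤ 81 / 200) (t1 : 113 / 1000 ≤ t) (t2 : t ≤ 153 / 1250) :
    4 * ph (s - t) - 2 * ph s ≤ G2 + G3 := by
  have e1 := up (t1 := (198 / 1000)) (t2 := (212 / 1000)) (x := b) (by norm_num)
    (by linear_combination (259801 / 250000) * b1) (by linear_combination (65309 / 62500) * b2)
  have e2 := R.lo0 (272 / 1000) (by norm_num)
  have e3 := up (t1 := (185 / 1000)) (t2 := (219 / 1000)) (x := s - t) (by norm_num)
    (by linear_combination (41369 / 40000) * s1 + (41369 / 40000) * t2) (by linear_combination (1047961 / 1000000) * s2 + (1047961 / 1000000) * t1)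
  have e4 := R.lo2 (277 / 1000) (by norm_num)
  have e5 := up (t1 := (77 / 1000)) (t2 := (86 / 1000)) (x := 8 / 25 * s) (by norm_num)
    (by linear_combination (1005929 / 3125000) * s1) (by linear_combination (251849 / 781250) * s2)
  have e6 := R.lo6 (-20 / 1000) (by norm_num)
  have e7 := R.lo7 (590 / 1000) (by norm_num)
  have e8 := R.lo8 (200 / 1000) (by norm_num)
  have c2 := R.k13 (by linear_combination (50 / 41) * e1 + (1239397 / 41) * R.k1 + (1239438 / 41) * R.k2 + (17 / 25) * s1 + t2)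
  have c3 := R.l20 (by linear_combination (433015 / 479012) * e1 + R.k2 + (1239397 / 9580240) * b1 + t2) (by linear_combination (433015 / 479012) * e1 + R.k2 + s1 + (8340843 / 9580240) * b2 + t2)
  linear_combination (11800 / 6519) * R.h1 + (25 / 24) * e8 + (10000 / 6519) * e7 + (2500 / 2499) * e6 + (500000 / 496689) * e5 + (1000000 / 923271) * e4 + (800000 / 191897) * e3 + (31250 / 14469) * e2 + (12339453054980833525 / 3202139935383757872) * e1 + (13058597205235 / 6684884586156) * R.k2 + (10904191083239880668 / 990320955607723007541) * s1 + (268115168612771003 / 1829794248790718784) * b2 + (345350929647361595 / 1282809297429577932) * t2 + c2 + c3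

theorem w46 {s b t k G2 G3 : ℝ} (R : Reg s b t k G2 G3) (hT : t ≤ 284 / 1000 * s) (hb : b ≤ s - t)
    (s1 : 963 / 2000 ≤ s) (s2 : s ≤ 53 / 100)
    (b1 : 143 / 400 ≤ b) (b2 : b ≤ 81 / 200) (t1 : 153 / 1250 ≤ t) (t2 : t ≤ 659 / 5000) :
    4 * ph (s - t) - 2 * ph s ≤ G2 + G3 := by
  have e1 := up (t1 := (184 / 1000)) (t2 := (212 / 1000)) (x := b) (by norm_num)
    (by linear_combination (16154 / 15625) * b1) (by linear_combination (65309 / 62500) * b2)
  have e2 := R.lo0 (272 / 1000) (by norm_num)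
  have e3 := up (t1 := (180 / 1000)) (t2 := (214 / 1000)) (x := s - t) (by norm_num)
    (by linear_combination (2581 / 2500) * s1 + (2581 / 2500) * t2) (by linear_combination (261449 / 250000) * s2 + (261449 / 250000) * t1)
  have e4 := R.lo2 (270 / 1000) (by norm_num)
  have e5 := up (t1 := (77 / 1000)) (t2 := (86 / 1000)) (x := 8 / 25 * s) (by norm_num)
    (by linear_combination (1005929 / 3125000) * s1) (by linear_combination (251849 / 781250) * s2)
  have e6 := R.lo6 (-20 / 1000) (by norm_num)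
  have c2 := R.k12 (by linear_combination (433015 / 480496) * e1 + R.k2 + s1 + (20586097 / 24024800) * b2 + t2) (by linear_combination (125 / 99) * e1 + (3438703 / 99) * R.k1 + (3438802 / 99) * R.k2 + (17 / 25) * s1 + t2)
  linear_combination (2500 / 2499) * e6 + (500000 / 496689) * e5 + (10000 / 9271) * e4 + (100000 / 24037) * e3 + (31250 / 14469) * e2 + (4256507628125 / 2783060340396) * e1 + (12567500 / 23168229) * R.k2 + (11075156110484068 / 287450677182386991) * s1 + (234108821525 / 795160097256) * b2 + (610743225100 / 556894720473) * t1 + c2 + R.g3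

theorem w47 {s b t k G2 G3 : ℝ} (R : Reg s b t k G2 G3) (hT : t ≤ 284 / 1000 * s) (hb : b ≤ s - t)
    (s1 : 433 / 1000 ≤ s) (s2 : s ≤ 53 / 100)
    (b1 : 31 / 100 ≤ b) (b2 : b ≤ 81 / 200) (t1 : 659 / 5000 ≤ t) (t2 : t ≤ 753 / 5000) :
    4 * ph (s - t) - 2 * ph s ≤ G2 + G3 := by
  have e1 := up (t1 := (158 / 1000)) (t2 := (212 / 1000)) (x := b) (by norm_num)
    (by linear_combination (256241 / 250000) * b1) (by linear_combination (65309 / 62500) * b2)
  have e2 := R.lo0 (257 / 1000) (by norm_num)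
  have e3 := up (t1 := (144 / 1000)) (t2 := (208 / 1000)) (x := s - t) (by norm_num)
    (by linear_combination (15949 / 15625) * s1 + (15949 / 15625) * t2) (by linear_combination (16301 / 15625) * s2 + (16301 / 15625) * t1)
  have e4 := R.lo2 (244 / 1000) (by norm_num)
  have e5 := up (t1 := (69 / 1000)) (t2 := (86 / 1000)) (x := 8 / 25 * s) (by norm_num)
    (by linear_combination (1004761 / 3125000) * s1) (by linear_combination (251849 / 781250) * s2)
  have e6 := R.lo6 (-25 / 1000) (by norm_num)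
  have c2 := R.k12 (by linear_combination (39365 / 43932) * e1 + R.k2 + s1 + (730621 / 878640) * b2 + t2) (by linear_combination (50 / 37) * e1 + (1628209 / 37) * R.k1 + (1628246 / 37) * R.k2 + (17 / 25) * s1 + t2)
  linear_combination (1600 / 1599) * e6 + (500000 / 497033) * e5 + (62500 / 58779) * e4 + (62500 / 15157) * e3 + (2000000 / 933951) * e2 + (5506296703975 / 3784975485291) * e1 + (14689060 / 31329207) * R.k2 + (30934146405732887519908 / 367384405861315182990195) * s1 + (3842591795443 / 15139901941164) * b2 + (466600471580 / 474856790499) * t1 + c2 + R.g3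

theorem w52 {s b t k G2 G3 : ℝ} (R : Reg s b t k G2 G3) (hT : t ≤ 284 / 1000 * s) (hb : b ≤ s - t)
    (s1 : 433 / 1000 ≤ s) (s2 : s ≤ 4573 / 10000)
    (b1 : 81 / 200 ≤ b) (b2 : b ≤ 1 / 2) (t1 : 0 ≤ t) (t2 : t ≤ 377 / 10000) :
    4 * ph (s - t) - 2 * ph s ≤ G2 + G3 := by
  have e1 := up (t1 := (211 / 1000)) (t2 := (268 / 1000)) (x := b) (by norm_num)
    (by linear_combination (1044521 / 1000000) * b1) (by linear_combination (66989 / 62500) * b2)
  have e2 := R.lo0 (235 / 1000) (by norm_num)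
  have e3 := up (t1 := (206 / 1000)) (t2 := (243 / 1000)) (x := s - t) (by norm_num)
    (by linear_combination (260609 / 250000) * s1 + (260609 / 250000) * t2) (by linear_combination (1059049 / 1000000) * s2 + (1059049 / 1000000) * t1)
  have e4 := R.lo2 (305 / 1000) (by norm_num)
  have e5 := up (t1 := (69 / 1000)) (t2 := (74 / 1000)) (x := 8 / 25 * s) (by norm_num)
    (by linear_combination (1004761 / 3125000) * s1) (by linear_combination (251369 / 781250) * s2)
  have e6 := R.lo6 (-19 / 1000) (by norm_num)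
  have e7 := R.lo7 (780 / 1000) (by norm_num)
  have e8 := R.lo8 (175 / 1000) (by norm_num)
  have c2 := R.k13 (by linear_combination (500 / 479) * e1 + (5689763 / 479) * R.k1 + (5690242 / 479) * R.k2 + (17 / 25) * s1 + t2)
  have c3 := R.l20 (by linear_combination (500 / 479) * e1 + (5689763 / 479) * R.k1 + (5690242 / 479) * R.k2 + t2) (by linear_combination (433015 / 471726) * e1 + R.k2 + s1 + (88655437 / 94345200) * b2 + t2)
  linear_combination (3900 / 979) * R.h1 + (1600 / 1551) * e8 + (2500 / 979) * e7 + (1000000 / 999639) * e6 + (500000 / 497447) * e5 + (40000 / 36279) * e4 + (2000000 / 474971) * e3 + (80000 / 37791) * e2 + (23963673132164026850 / 3975609065633853561) * e1 + (71756775927580 / 16855585936047) * R.k2 + (1179235266251109698562800 / 3997751309818260761069667) * s2 + (314526191317319184853 / 874633994439447783420) * b2 + (18946071448528394180 / 8005914507630179637) * t2 + c2 + c3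

theorem w54 {s b t k G2 G3 : ℝ} (R : Reg s b t k G2 G3) (hT : t ≤ 284 / 1000 * s) (hb : b ≤ s - t)
    (s1 : 433 / 1000 ≤ s) (s2 : s ≤ 4573 / 10000)
    (b1 : 81 / 200 ≤ b) (b2 : b ≤ 181 / 400) (t1 : 377 / 10000 ≤ t) (t2 : t ≤ 753 / 10000) :
    4 * ph (s - t) - 2 * ph s ≤ G2 + G3 := by
  have e1 := up (t1 := (211 / 1000)) (t2 := (240 / 1000)) (x := b) (by norm_num)
    (by linear_combination (1044521 / 1000000) * b1) (by linear_combination (661 / 625) * b2)
  have e2 := R.lo0 (235 / 1000) (by norm_num)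
  have e3 := up (t1 := (184 / 1000)) (t2 := (220 / 1000)) (x := s - t) (by norm_num)
    (by linear_combination (16154 / 15625) * s1 + (16154 / 15625) * t2) (by linear_combination (2621 / 2500) * s2 + (2621 / 2500) * t1)
  have e4 := R.lo2 (280 / 1000) (by norm_num)
  have e5 := up (t1 := (69 / 1000)) (t2 := (74 / 1000)) (x := 8 / 25 * s) (by norm_num)
    (by linear_combination (1004761 / 3125000) * s1) (by linear_combination (251369 / 781250) * s2)
  have e6 := R.lo6 (-26 / 1000) (by norm_num)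
  have e7 := R.lo7 (701 / 1000) (by norm_num)
  have e8 := R.lo8 (183 / 1000) (by norm_num)
  have c2 := R.k13 (by linear_combination (500 / 451) * e1 + (8410047 / 451) * R.k1 + (8410498 / 451) * R.k2 + (17 / 25) * s1 + t2)
  have c3 := R.l20 (by linear_combination (500 / 451) * e1 + (8410047 / 451) * R.k1 + (8410498 / 451) * R.k2 + t2) (by linear_combination (86603 / 94936) * e1 + R.k2 + s1 + (86525953 / 94936000) * b2 + t2)
  linear_combination (1402000 / 508599) * R.h1 + (1000000 / 966511) * e8 + (1000000 / 508599) * e7 + (250000 / 249831) * e6 + (500000 / 497447) * e5 + (625 / 576) * e4 + (25000 / 5997) * e3 + (80000 / 37791) * e2 + (38222985794308940425 / 7991913591732784896) * e1 + (246949437268475 / 84182118392736) * R.k2 + (286321720187681755 / 1756904634764544096) * s2 + (27654918497495691089 / 106558847889770465280) * b2 + (210238793177470325 / 168280054667079264) * t2 + c2 + c3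

theorem w55 {s b t k G2 G3 : ℝ} (R : Reg s b t k G2 G3) (hT : t ≤ 284 / 1000 * s) (hb : b ≤ s - t)
    (s1 : 433 / 1000 ≤ s) (s2 : s ≤ 4573 / 10000)
    (b1 : 181 / 400 ≤ b) (b2 : b ≤ 1 / 2) (t1 : 377 / 10000 ≤ t) (t2 : t ≤ 753 / 10000) :
    4 * ph (s - t) - 2 * ph s ≤ G2 + G3 := by
  exfalso
  exact absurd b1 (not_le.mpr (by linear_combination s2 + t1 + hb))

theorem w56 {s b t k G2 G3 : ℝ} (R : Reg s b t k G2 G3) (hT : t ≤ 284 / 1000 * s) (hb : b ≤ s - t)
    (s1 : 433 / 1000 ≤ s) (s2 : s ≤ 4573 / 10000)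
    (b1 : 81 / 200 ≤ b) (b2 : b ≤ 1 / 2) (t1 : 753 / 10000 ≤ t) (t2 : t ≤ 753 / 5000) :
    4 * ph (s - t) - 2 * ph s ≤ G2 + G3 := by
  exfalso
  exact absurd b1 (not_le.mpr (by linear_combination s2 + t1 + hb))

theorem w59 {s b t k G2 G3 : ℝ} (R : Reg s b t k G2 G3) (hT : t ≤ 284 / 1000 * s) (hb : b ≤ s - t)
    (s1 : 4573 / 10000 ≤ s) (s2 : s ≤ 963 / 2000)
    (b1 : 81 / 200 ≤ b) (b2 : b ≤ 1 / 2) (t1 : 0 ≤ t) (t2 : t ≤ 377 / 10000) :
    4 * ph (s - t) - 2 * ph s ≤ G2 + G3 := by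
  have e1 := up (t1 := (211 / 1000)) (t2 := (268 / 1000)) (x := b) (by norm_num)
    (by linear_combination (1044521 / 1000000) * b1) (by linear_combination (66989 / 62500) * b2)
  have e2 := R.lo0 (249 / 1000) (by norm_num)
  have e3 := up (t1 := (219 / 1000)) (t2 := (257 / 1000)) (x := s - t) (by norm_num)
    (by linear_combination (1047961 / 1000000) * s1 + (1047961 / 1000000) * t2) (by linear_combination (1066049 / 1000000) * s2 + (1066049 / 1000000) * t1)
  have e4 := R.lo2 (321 / 1000) (by norm_num)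
  have e5 := up (t1 := (73 / 1000)) (t2 := (78 / 1000)) (x := 8 / 25 * s) (by norm_num)
    (by linear_combination (1005329 / 3125000) * s1) (by linear_combination (251521 / 781250) * s2)
  have e6 := R.lo6 (-11 / 1000) (by norm_num)
  have e7 := R.lo7 (780 / 1000) (by norm_num)
  have e8 := R.lo8 (175 / 1000) (by norm_num)
  have c2 := R.k13 (by linear_combination (500 / 479) * e1 + (5689763 / 479) * R.k1 + (5690242 / 479) * R.k2 + (17 / 25) * s1 + t2)
  have c3 := R.l20 (by linear_combination (500 / 479) * e1 + (5689763 / 479) * R.k1 + (5690242 / 479) * R.k2 + t2) (by linear_combination (433015 / 471726) * e1 + R.k2 + s1 + (88655437 / 94345200) * b2 + t2)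
  linear_combination (3900 / 979) * R.h1 + (1600 / 1551) * e8 + (2500 / 979) * e7 + (1000000 / 999879) * e6 + (500000 / 497153) * e5 + (1000000 / 896959) * e4 + (4000000 / 943717) * e3 + (2000000 / 937999) * e2 + (5381645231487302547650 / 884846060770958789769) * e1 + (16192891598429020 / 3751525507480863) * R.k2 + (119798127370527860327947121440 / 394688304398629406509809720339) * s2 + (72425517733705716061957 / 194666133369610933749180) * b2 + (8138602514351076315340 / 3540378397343317587771) * t2 + c2 + c3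

theorem w61 {s b t k G2 G3 : ℝ} (R : Reg s b t k G2 G3) (hT : t ≤ 284 / 1000 * s) (hb : b ≤ s - t)
    (s1 : 4573 / 10000 ≤ s) (s2 : s ≤ 963 / 2000)
    (b1 : 81 / 200 ≤ b) (b2 : b ≤ 181 / 400) (t1 : 377 / 10000 ≤ t) (t2 : t ≤ 753 / 10000) :
    4 * ph (s - t) - 2 * ph s ≤ G2 + G3 := by
  have e1 := up (t1 := (211 / 1000)) (t2 := (240 / 1000)) (x := b) (by norm_num)
    (by linear_combination (1044521 / 1000000) * b1) (by linear_combination (661 / 625) * b2)
  have e2 := R.lo0 (249 / 1000) (by norm_num)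
  have e3 := up (t1 := (198 / 1000)) (t2 := (235 / 1000)) (x := s - t) (by norm_num)
    (by linear_combination (259801 / 250000) * s1 + (259801 / 250000) * t2) (by linear_combination (42209 / 40000) * s2 + (42209 / 40000) * t1)
  have e4 := R.lo2 (295 / 1000) (by norm_num)
  have e5 := up (t1 := (73 / 1000)) (t2 := (78 / 1000)) (x := 8 / 25 * s) (by norm_num)
    (by linear_combination (1005329 / 3125000) * s1) (by linear_combination (251521 / 781250) * s2)
  have e6 := R.lo6 (-18 / 1000) (by norm_num)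
  have e7 := R.lo7 (701 / 1000) (by norm_num)
  have e8 := R.lo8 (183 / 1000) (by norm_num)
  have c2 := R.k13 (by linear_combination (500 / 451) * e1 + (8410047 / 451) * R.k1 + (8410498 / 451) * R.k2 + (17 / 25) * s1 + t2)
  have c3 := R.l20 (by linear_combination (500 / 451) * e1 + (8410047 / 451) * R.k1 + (8410498 / 451) * R.k2 + t2) (by linear_combination (86603 / 94936) * e1 + R.k2 + s1 + (86525953 / 94936000) * b2 + t2)
  linear_combination (1402000 / 508599) * R.h1 + (1000000 / 966511) * e8 + (1000000 / 508599) * e7 + (250000 / 249919) * e6 + (500000 / 497153) * e5 + (40000 / 36519) * e4 + (400000 / 95347) * e3 + (2000000 / 937999) * e2 + (19233477740922521058425 / 3979996311520527401259) * e1 + (1002172171685595800 / 335383526714462577) * R.k2 + (10523902304353629390189800 / 57972173587472115967257507) * s2 + (100560312891959576071303 / 371466322408582557450840) * b2 + (37465683226761584406200 / 31977813121643863329219) * t2 + c2 + c3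

theorem w62 {s b t k G2 G3 : ℝ} (R : Reg s b t k G2 G3) (hT : t ≤ 284 / 1000 * s) (hb : b ≤ s - t)
    (s1 : 4573 / 10000 ≤ s) (s2 : s ≤ 963 / 2000)
    (b1 : 181 / 400 ≤ b) (b2 : b ≤ 1 / 2) (t1 : 377 / 10000 ≤ t) (t2 : t ≤ 753 / 10000) :
    4 * ph (s - t) - 2 * ph s ≤ G2 + G3 := by
  exfalso
  exact absurd b1 (not_le.mpr (by linear_combination s2 + t1 + hb))

theorem w64 {s b t k G2 G3 : ℝ} (R : Reg s b t k G2 G3) (hT : t ≤ 284 / 1000 * s) (hb : b ≤ s - t)
    (s1 : 4573 / 10000 ≤ s) (s2 : s ≤ 2347 / 5000)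
    (b1 : 81 / 200 ≤ b) (b2 : b ≤ 1 / 2) (t1 : 753 / 10000 ≤ t) (t2 : t ≤ 753 / 5000) :
    4 * ph (s - t) - 2 * ph s ≤ G2 + G3 := by
  exfalso
  exact absurd b1 (not_le.mpr (by linear_combination s2 + t1 + hb))

theorem w66 {s b t k G2 G3 : ℝ} (R : Reg s b t k G2 G3) (hT : t ≤ 284 / 1000 * s) (hb : b ≤ s - t)
    (s1 : 2347 / 5000 ≤ s) (s2 : s ≤ 951 / 2000)
    (b1 : 81 / 200 ≤ b) (b2 : b ≤ 1 / 2) (t1 : 753 / 10000 ≤ t) (t2 : t ≤ 753 / 5000) :
    4 * ph (s - t) - 2 * ph s ≤ G2 + G3 := by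
  exfalso
  exact absurd b1 (not_le.mpr (by linear_combination s2 + t1 + hb))

theorem w69 {s b t k G2 G3 : ℝ} (R : Reg s b t k G2 G3) (hT : t ≤ 284 / 1000 * s) (hb : b ≤ s - t)
    (s1 : 951 / 2000 ≤ s) (s2 : s ≤ 963 / 2000)
    (b1 : 81 / 200 ≤ b) (b2 : b ≤ 181 / 400) (t1 : 753 / 10000 ≤ t) (t2 : t ≤ 113 / 1000) :
    4 * ph (s - t) - 2 * ph s ≤ G2 + G3 := by
  have e1 := up (t1 := (211 / 1000)) (t2 := (240 / 1000)) (x := b) (by norm_num)
    (by linear_combination (1044521 / 1000000) * b1) (by linear_combination (661 / 625) * b2)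
  have e2 := R.lo0 (255 / 1000) (by norm_num)
  have e3 := up (t1 := (187 / 1000)) (t2 := (213 / 1000)) (x := s - t) (by norm_num)
    (by linear_combination (1034969 / 1000000) * s1 + (1034969 / 1000000) * t2) (by linear_combination (1045369 / 1000000) * s2 + (1045369 / 1000000) * t1)
  have e4 := R.lo2 (277 / 1000) (by norm_num)
  have e5 := up (t1 := (76 / 1000)) (t2 := (78 / 1000)) (x := 8 / 25 * s) (by norm_num)
    (by linear_combination (125722 / 390625) * s1) (by linear_combination (251521 / 781250) * s2)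
  have e6 := R.lo6 (-34 / 1000) (by norm_num)
  have e7 := R.lo7 (630 / 1000) (by norm_num)
  have e8 := R.lo8 (204 / 1000) (by norm_num)
  have c2 := R.k13 (by linear_combination (500 / 451) * e1 + (8410047 / 451) * R.k1 + (8410498 / 451) * R.k2 + (17 / 25) * s1 + t2)
  have c3 := R.l20 (by linear_combination (86603 / 94936) * e1 + R.k2 + (8410047 / 94936000) * b1 + t2) (by linear_combination (86603 / 94936) * e1 + R.k2 + s1 + (86525953 / 94936000) * b2 + t2)
  linear_combination (12600 / 6031) * R.h1 + (62500 / 59899) * e8 + (10000 / 6031) * e7 + (250000 / 249711) * e6 + (125000 / 124259) * e5 + (1000000 / 923271) * e4 + (4000000 / 960169) * e3 + (80000 / 37399) * e2 + (11721814076159277571225 / 2852419996149607086182) * e1 + (2902411321056651300 / 1322011458567695203) * R.k2 + (3490926590036701868747000 / 48987254273619580877619969) * s2 + (985845159708757125289667 / 3765194394917481353760240) * b2 + (95941006002761642467100 / 181336345737355047909901)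 * t2 + c2 + c3

theorem w70 {s b t k G2 G3 : ℝ} (R : Reg s b t k G2 G3) (hT : t ≤ 284 / 1000 * s) (hb : b ≤ s - t)
    (s1 : 951 / 2000 ≤ s) (s2 : s ≤ 963 / 2000)
    (b1 : 81 / 200 ≤ b) (b2 : b ≤ 181 / 400) (t1 : 113 / 1000 ≤ t) (t2 : t ≤ 753 / 5000) :
    4 * ph (s - t) - 2 * ph s ≤ G2 + G3 := by
  exfalso
  exact absurd b1 (not_le.mpr (by linear_combination s2 + t1 + hb))

theorem w71 {s b t k G2 G3 : ℝ} (R : Reg s b t k G2 G3) (hT : t ≤ 284 / 1000 * s) (hb : b ≤ s - t)
    (s1 : 951 / 2000 ≤ s) (s2 : s ≤ 963 / 2000)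
    (b1 : 181 / 400 ≤ b) (b2 : b ≤ 1 / 2) (t1 : 753 / 10000 ≤ t) (t2 : t ≤ 753 / 5000) :
    4 * ph (s - t) - 2 * ph s ≤ G2 + G3 := by
  exfalso
  exact absurd b1 (not_le.mpr (by linear_combination s2 + t1 + hb))

theorem w74 {s b t k G2 G3 : ℝ} (R : Reg s b t k G2 G3) (hT : t ≤ 284 / 1000 * s) (hb : b ≤ s - t)
    (s1 : 963 / 2000 ≤ s) (s2 : s ≤ 53 / 100)
    (b1 : 81 / 200 ≤ b) (b2 : b ≤ 1 / 2) (t1 : 0 ≤ t) (t2 : t ≤ 377 / 10000) :
    4 * ph (s - t) - 2 * ph s ≤ G2 + G3 := by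
  have e1 := up (t1 := (211 / 1000)) (t2 := (268 / 1000)) (x := b) (by norm_num)
    (by linear_combination (1044521 / 1000000) * b1) (by linear_combination (66989 / 62500) * b2)
  have e2 := R.lo0 (272 / 1000) (by norm_num)
  have e3 := up (t1 := (234 / 1000)) (t2 := (287 / 1000)) (x := s - t) (by norm_num)
    (by linear_combination (263689 / 250000) * s1 + (263689 / 250000) * t2) (by linear_combination (1082369 / 1000000) * s2 + (1082369 / 1000000) * t1)
  have e4 := R.lo2 (346 / 1000) (by norm_num)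
  have e5 := up (t1 := (77 / 1000)) (t2 := (86 / 1000)) (x := 8 / 25 * s) (by norm_num)
    (by linear_combination (1005929 / 3125000) * s1) (by linear_combination (251849 / 781250) * s2)
  have e6 := R.lo6 (2 / 1000) (by norm_num)
  have e7 := R.lo7 (780 / 1000) (by norm_num)
  have e8 := R.lo8 (175 / 1000) (by norm_num)
  have c2 := R.k13 (by linear_combination (500 / 479) * e1 + (5689763 / 479) * R.k1 + (5690242 / 479) * R.k2 + (17 / 25) * s1 + t2)
  have c3 := R.l20 (by linear_combination (500 / 479) * e1 + (5689763 / 479) * R.k1 + (5690242 / 479) * R.k2 + t2) (by linear_combination (433015 / 471726) * e1 + R.k2 + s1 + (88655437 / 94345200) * b2 + t2)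
  linear_combination (3900 / 979) * R.h1 + (1600 / 1551) * e8 + (2500 / 979) * e7 + (250000 / 249999) * e6 + (500000 / 496689) * e5 + (250000 / 220071) * e4 + (2000000 / 466421) * e3 + (31250 / 14469) * e2 + (111646598228756601950 / 18093705461551903347) * e1 + (338511184508260 / 76712775897669) * R.k2 + (2204713534341973898177800 / 6830279544579556435171347) * s2 + (1561361554811359021291 / 3980615201541418736340) * b2 + (77954012704156039460 / 35780449646966672649) * t2 + c2 + c3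

theorem w76 {s b t k G2 G3 : ℝ} (R : Reg s b t k G2 G3) (hT : t ≤ 284 / 1000 * s) (hb : b ≤ s - t)
    (s1 : 963 / 2000 ≤ s) (s2 : s ≤ 53 / 100)
    (b1 : 81 / 200 ≤ b) (b2 : b ≤ 181 / 400) (t1 : 377 / 10000 ≤ t) (t2 : t ≤ 753 / 10000) :
    4 * ph (s - t) - 2 * ph s ≤ G2 + G3 := by
  have e1 := up (t1 := (211 / 1000)) (t2 := (240 / 1000)) (x := b) (by norm_num)
    (by linear_combination (1044521 / 1000000) * b1) (by linear_combination (661 / 625) * b2)
  have e2 := R.lo0 (272 / 1000) (by norm_num)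
  have e3 := up (t1 := (212 / 1000)) (t2 := (264 / 1000)) (x := s - t) (by norm_num)
    (by linear_combination (65309 / 62500) * s1 + (65309 / 62500) * t2) (by linear_combination (16714 / 15625) * s2 + (16714 / 15625) * t1)
  have e4 := R.lo2 (319 / 1000) (by norm_num)
  have e5 := up (t1 := (77 / 1000)) (t2 := (86 / 1000)) (x := 8 / 25 * s) (by norm_num)
    (by linear_combination (1005929 / 3125000) * s1) (by linear_combination (251849 / 781250) * s2)
  have e6 := R.lo6 (-5 / 1000) (by norm_num)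
  have e7 := R.lo7 (701 / 1000) (by norm_num)
  have e8 := R.lo8 (183 / 1000) (by norm_num)
  have c2 := R.k13 (by linear_combination (500 / 451) * e1 + (8410047 / 451) * R.k1 + (8410498 / 451) * R.k2 + (17 / 25) * s1 + t2)
  have c3 := R.l20 (by linear_combination (500 / 451) * e1 + (8410047 / 451) * R.k1 + (8410498 / 451) * R.k2 + t2) (by linear_combination (86603 / 94936) * e1 + R.k2 + s1 + (86525953 / 94936000) * b2 + t2)
  linear_combination (1402000 / 508599) * R.h1 + (1000000 / 966511) * e8 + (1000000 / 508599) * e7 + (40000 / 39999) * e6 + (500000 / 496689) * e5 + (1000000 / 898239) * e4 + (125000 / 29501) * e3 + (31250 / 14469) * e2 + (1257696749634160150161400 / 255905950779740148748497) * e1 + (66379611602466150400 / 21564502467324525891) * R.k2 + (53880884392836249760124 / 282122077514558094813363) * s2 + (123152987055705732735319 / 426509917966233581247495) * b2 + (675177025078544612435900 / 636174387288540838310391) * t2 + c2 + c3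

theorem w78 {s b t k G2 G3 : ℝ} (R : Reg s b t k G2 G3) (hT : t ≤ 284 / 1000 * s) (hb : b ≤ s - t)
    (s1 : 963 / 2000 ≤ s) (s2 : s ≤ 53 / 100)
    (b1 : 181 / 400 ≤ b) (b2 : b ≤ 1 / 2) (t1 : 377 / 10000 ≤ t) (t2 : t ≤ 113 / 2000) :
    4 * ph (s - t) - 2 * ph s ≤ G2 + G3 := by
  have e1 := up (t1 := (239 / 1000)) (t2 := (268 / 1000)) (x := b) (by norm_num)
    (by linear_combination (1057121 / 1000000) * b1) (by linear_combination (66989 / 62500) * b2)
  have e2 := R.lo0 (272 / 1000) (by norm_num)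
  have e3 := up (t1 := (223 / 1000)) (t2 := (264 / 1000)) (x := s - t) (by norm_num)
    (by linear_combination (1049729 / 1000000) * s1 + (1049729 / 1000000) * t2) (by linear_combination (16714 / 15625) * s2 + (16714 / 15625) * t1)
  have e4 := R.lo2 (328 / 1000) (by norm_num)
  have e5 := up (t1 := (77 / 1000)) (t2 := (86 / 1000)) (x := 8 / 25 * s) (by norm_num)
    (by linear_combination (1005929 / 3125000) * s1) (by linear_combination (251849 / 781250) * s2)
  have e6 := R.lo6 (-23 / 1000) (by norm_num)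
  have e7 := R.lo7 (729 / 1000) (by norm_num)
  have e8 := R.lo8 (203 / 1000) (by norm_num)
  have c2 := R.k13 (by linear_combination (500 / 507) * e1 + (222283 / 39) * R.k1 + (222322 / 39) * R.k2 + (17 / 25) * s1 + t2)
  have c3 := R.l20 (by linear_combination (500 / 507) * e1 + (222283 / 39) * R.k1 + (222322 / 39) * R.k2 + t2) (by linear_combination (433015 / 467974) * e1 + R.k2 + s1 + (6977317 / 7199600) * b2 + t2)
  linear_combination (1458000 / 468559) * R.h1 + (1000000 / 958791) * e8 + (1000000 / 468559) * e7 + (1000000 / 999471) * e6 + (500000 / 496689) * e5 + (15625 / 13944) * e4 + (500000 / 117641) * e3 + (31250 / 14469) * e2 + (3707848254941552637326875 / 704665557006476826947368) * e1 + (55939767964114881375 / 16563572179375873652) * R.k2 + (7594819530148329264325 / 31170770515868066831748) * s2 + (7293129606165538708302505 / 14310131311516144793392704) * b2 + (2547580417388413525574375 / 1948555194753957152294932) * t2 + c2 + c3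

theorem w80 {s b t k G2 G3 : ℝ} (R : Reg s b t k G2 G3) (hT : t ≤ 284 / 1000 * s) (hb : b ≤ s - t)
    (s1 : 963 / 2000 ≤ s) (s2 : s ≤ 53 / 100)
    (b1 : 181 / 400 ≤ b) (b2 : b ≤ 4763 / 10000) (t1 : 113 / 2000 ≤ t) (t2 : t ≤ 753 / 10000) :
    4 * ph (s - t) - 2 * ph s ≤ G2 + G3 := by
  have e1 := up (t1 := (239 / 1000)) (t2 := (254 / 1000)) (x := b) (by norm_num)
    (by linear_combination (1057121 / 1000000) * b1) (by linear_combination (266129 / 250000) * b2)
  have e2 := R.lo0 (272 / 1000) (by norm_num)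
  have e3 := up (t1 := (212 / 1000)) (t2 := (252 / 1000)) (x := s - t) (by norm_num)
    (by linear_combination (65309 / 62500) * s1 + (65309 / 62500) * t2) (by linear_combination (66469 / 62500) * s2 + (66469 / 62500) * t1)
  have e4 := R.lo2 (315 / 1000) (by norm_num)
  have e5 := up (t1 := (77 / 1000)) (t2 := (86 / 1000)) (x := 8 / 25 * s) (by norm_num)
    (by linear_combination (1005929 / 3125000) * s1) (by linear_combination (251849 / 781250) * s2)
  have e6 := R.lo6 (-27 / 1000) (by norm_num)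
  have e7 := R.lo7 (686 / 1000) (by norm_num)
  have e8 := R.lo8 (207 / 1000) (by norm_num)
  have c2 := R.k13 (by linear_combination (500 / 493) * e1 + (4269421 / 493) * R.k1 + (4269914 / 493) * R.k2 + (17 / 25) * s1 + t2)
  have c3 := R.l20 (by linear_combination (500 / 493) * e1 + (4269421 / 493) * R.k1 + (4269914 / 493) * R.k2 + t2) (by linear_combination (433015 / 469647) * e1 + R.k2 + s1 + (89659979 / 93929400) * b2 + t2)
  linear_combination (343000 / 132351) * R.h1 + (1000000 / 957151) * e8 + (250000 / 132351) * e7 + (1000000 / 999271) * e6 + (500000 / 496689) * e5 + (40000 / 36031) * e4 + (250000 / 59161) * e3 + (31250 / 14469) * e2 + (776910899349268237049701000 / 164776579806388529415946419) * e1 + (983935705332114033400 / 350851979904882878877) * R.k2 + (9851068303725038909080 / 56073222735066156566037) * s2 + (71790007834349041531825693 / 164776579806388529415946419) * b2 + (17511790594186784380245400 / 20756753983152775997242197) * t2 + c2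 + c3

theorem w81 {s b t k G2 G3 : ℝ} (R : Reg s b t k G2 G3) (hT : t ≤ 284 / 1000 * s) (hb : b ≤ s - t)
    (s1 : 963 / 2000 ≤ s) (s2 : s ≤ 53 / 100)
    (b1 : 4763 / 10000 ≤ b) (b2 : b ≤ 1 / 2) (t1 : 113 / 2000 ≤ t) (t2 : t ≤ 753 / 10000) :
    4 * ph (s - t) - 2 * ph s ≤ G2 + G3 := by
  exfalso
  exact absurd b1 (not_le.mpr (by linear_combination s2 + t1 + hb))

theorem w84 {s b t k G2 G3 : ℝ} (R : Reg s b t k G2 G3) (hT : t ≤ 284 / 1000 * s) (hb : b ≤ s - t)
    (s1 : 963 / 2000 ≤ s) (s2 : s ≤ 53 / 100)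
    (b1 : 81 / 200 ≤ b) (b2 : b ≤ 181 / 400) (t1 : 753 / 10000 ≤ t) (t2 : t ≤ 113 / 1000) :
    4 * ph (s - t) - 2 * ph s ≤ G2 + G3 := by
  have e1 := up (t1 := (211 / 1000)) (t2 := (240 / 1000)) (x := b) (by norm_num)
    (by linear_combination (1044521 / 1000000) * b1) (by linear_combination (661 / 625) * b2)
  have e2 := R.lo0 (272 / 1000) (by norm_num)
  have e3 := up (t1 := (190 / 1000)) (t2 := (241 / 1000)) (x := s - t) (by norm_num)
    (by linear_combination (10361 / 10000) * s1 + (10361 / 10000) * t2) (by linear_combination (1058081 / 1000000) * s2 + (1058081 / 1000000) * t1)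
  have e4 := R.lo2 (295 / 1000) (by norm_num)
  have e5 := up (t1 := (77 / 1000)) (t2 := (86 / 1000)) (x := 8 / 25 * s) (by norm_num)
    (by linear_combination (1005929 / 3125000) * s1) (by linear_combination (251849 / 781250) * s2)
  have e6 := R.lo6 (-24 / 1000) (by norm_num)
  have e7 := R.lo7 (630 / 1000) (by norm_num)
  have e8 := R.lo8 (204 / 1000) (by norm_num)
  have c2 := R.k13 (by linear_combination (500 / 451) * e1 + (8410047 / 451) * R.k1 + (8410498 / 451) * R.k2 + (17 / 25) * s1 + t2)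
  have c3 := R.l20 (by linear_combination (86603 / 94936) * e1 + R.k2 + (8410047 / 94936000) * b1 + t2) (by linear_combination (86603 / 94936) * e1 + R.k2 + s1 + (86525953 / 94936000) * b2 + t2)
  linear_combination (12600 / 6031) * R.h1 + (62500 / 59899) * e8 + (10000 / 6031) * e7 + (15625 / 15616) * e6 + (500000 / 496689) * e5 + (40000 / 36519) * e4 + (400000 / 95421) * e3 + (31250 / 14469) * e2 + (157441948188820221875 / 37757110170521828352) * e1 + (899503583565625 / 397711196706432) * R.k2 + (614940578012682235 / 8693945992701220992) * s2 + (27790579452547412175 / 100685627121391542272) * b2 + (5755373711742208775 / 12650000033641482624) * t2 + c2 + c3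

theorem w87 {s b t k G2 G3 : ℝ} (R : Reg s b t k G2 G3) (hT : t ≤ 284 / 1000 * s) (hb : b ≤ s - t)
    (s1 : 963 / 2000 ≤ s) (s2 : s ≤ 53 / 100)
    (b1 : 181 / 400 ≤ b) (b2 : b ≤ 4763 / 10000) (t1 : 753 / 10000 ≤ t) (t2 : t ≤ 471 / 5000) :
    4 * ph (s - t) - 2 * ph s ≤ G2 + G3 := by
  have e1 := up (t1 := (239 / 1000)) (t2 := (254 / 1000)) (x := b) (by norm_num)
    (by linear_combination (1057121 / 1000000) * b1) (by linear_combination (266129 / 250000) * b2)
  have e2 := R.lo0 (272 / 1000) (by norm_num)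
  have e3 := up (t1 := (201 / 1000)) (t2 := (241 / 1000)) (x := s - t) (by norm_num)
    (by linear_combination (1040401 / 1000000) * s1 + (1040401 / 1000000) * t2) (by linear_combination (1058081 / 1000000) * s2 + (1058081 / 1000000) * t1)
  have e4 := R.lo2 (302 / 1000) (by norm_num)
  have e5 := up (t1 := (77 / 1000)) (t2 := (86 / 1000)) (x := 8 / 25 * s) (by norm_num)
    (by linear_combination (1005929 / 3125000) * s1) (by linear_combination (251849 / 781250) * s2)
  have e6 := R.lo6 (-36 / 1000) (by norm_num)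
  have e7 := R.lo7 (651 / 1000) (by norm_num)
  have e8 := R.lo8 (218 / 1000) (by norm_num)
  have c2 := R.k13 (by linear_combination (500 / 493) * e1 + (4269421 / 493) * R.k1 + (4269914 / 493) * R.k2 + (17 / 25) * s1 + t2)
  have c3 := R.l20 (by linear_combination (500 / 493) * e1 + (4269421 / 493) * R.k1 + (4269914 / 493) * R.k2 + t2) (by linear_combination (433015 / 469647) * e1 + R.k2 + s1 + (89659979 / 93929400) * b2 + t2)
  linear_combination (1302000 / 576199) * R.h1 + (250000 / 238119) * e8 + (1000000 / 576199) * e7 + (62500 / 62419) * e6 + (500000 / 496689) * e5 + (250000 / 227199) * e4 + (4000000 / 951559) * e3 + (31250 / 14469) * e2 + (77249934936571132052500 / 17812241029520514675189) * e1 + (90812244995303500 / 37926870669929787) * R.k2 + (1256555826068615809540 / 10471867001457160325299) * s2 + (1126398906649777469405 / 2740344773772386873106) * b2 + (2765500241578591391500 / 5155665018258245455419) * t2 + c2 + c3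

theorem w88 {s b t k G2 G3 : ℝ} (R : Reg s b t k G2 G3) (hT : t ≤ 284 / 1000 * s) (hb : b ≤ s - t)
    (s1 : 963 / 2000 ≤ s) (s2 : s ≤ 53 / 100)
    (b1 : 181 / 400 ≤ b) (b2 : b ≤ 4763 / 10000) (t1 : 471 / 5000 ≤ t) (t2 : t ≤ 113 / 1000) :
    4 * ph (s - t) - 2 * ph s ≤ G2 + G3 := by
  exfalso
  exact absurd b1 (not_le.mpr (by linear_combination s2 + t1 + hb))

theorem w89 {s b t k G2 G3 : ℝ} (R : Reg s b t k G2 G3) (hT : t ≤ 284 / 1000 * s) (hb : b ≤ s - t)
    (s1 : 963 / 2000 ≤ s) (s2 : s ≤ 53 / 100)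
    (b1 : 4763 / 10000 ≤ b) (b2 : b ≤ 1 / 2) (t1 : 753 / 10000 ≤ t) (t2 : t ≤ 113 / 1000) :
    4 * ph (s - t) - 2 * ph s ≤ G2 + G3 := by
  exfalso
  exact absurd b1 (not_le.mpr (by linear_combination s2 + t1 + hb))

theorem w93 {s b t k G2 G3 : ℝ} (R : Reg s b t k G2 G3) (hT : t ≤ 284 / 1000 * s) (hb : b ≤ s - t)
    (s1 : 963 / 2000 ≤ s) (s2 : s ≤ 2529 / 5000)
    (b1 : 81 / 200 ≤ b) (b2 : b ≤ 268 / 625) (t1 : 113 / 1000 ≤ t) (t2 : t ≤ 753 / 5000) :
    4 * ph (s - t) - 2 * ph s ≤ G2 + G3 := by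
  exfalso
  exact absurd b1 (not_le.mpr (by linear_combination s2 + t1 + hb))

theorem w96 {s b t k G2 G3 : ℝ} (R : Reg s b t k G2 G3) (hT : t ≤ 284 / 1000 * s) (hb : b ≤ s - t)
    (s1 : 2529 / 5000 ≤ s) (s2 : s ≤ 5179 / 10000)
    (b1 : 81 / 200 ≤ b) (b2 : b ≤ 268 / 625) (t1 : 113 / 1000 ≤ t) (t2 : t ≤ 659 / 5000) :
    4 * ph (s - t) - 2 * ph s ≤ G2 + G3 := by
  exfalso
  exact absurd b1 (not_le.mpr (by linear_combination s2 + t1 + hb))

theorem w98 {s b t k G2 G3 : ℝ} (R : Reg s b t k G2 G3) (hT : t ≤ 284 / 1000 * s) (hb : b ≤ s - t)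
    (s1 : 5179 / 10000 ≤ s) (s2 : s ≤ 53 / 100)
    (b1 : 81 / 200 ≤ b) (b2 : b ≤ 268 / 625) (t1 : 113 / 1000 ≤ t) (t2 : t ≤ 153 / 1250) :
    4 * ph (s - t) - 2 * ph s ≤ G2 + G3 := by
  have e1 := up (t1 := (211 / 1000)) (t2 := (226 / 1000)) (x := b) (by norm_num)
    (by linear_combination (1044521 / 1000000) * b1) (by linear_combination (262769 / 250000) * b2)
  have e2 := R.lo0 (283 / 1000) (by norm_num)
  have e3 := up (t1 := (206 / 1000)) (t2 := (219 / 1000)) (x := s - t) (by norm_num)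
    (by linear_combination (260609 / 250000) * s1 + (260609 / 250000) * t2) (by linear_combination (1047961 / 1000000) * s2 + (1047961 / 1000000) * t1)
  have e4 := R.lo2 (290 / 1000) (by norm_num)
  have e5 := up (t1 := (83 / 1000)) (t2 := (86 / 1000)) (x := 8 / 25 * s) (by norm_num)
    (by linear_combination (1006889 / 3125000) * s1) (by linear_combination (251849 / 781250) * s2)
  have e6 := R.lo6 (-24 / 1000) (by norm_num)
  have e7 := R.lo7 (594 / 1000) (by norm_num)
  have e8 := R.lo8 (212 / 1000) (by norm_num)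
  have c2 := R.k13 (by linear_combination (500 / 437) * e1 + (9770189 / 437) * R.k1 + (9770626 / 437) * R.k2 + (17 / 25) * s1 + t2)
  have c3 := R.l20 (by linear_combination (39365 / 43287) * e1 + R.k2 + (888199 / 8657400) * b1 + t2) (by linear_combination (39365 / 43287) * e1 + R.k2 + s1 + (7769201 / 8657400) * b2 + t2)
  linear_combination (297000 / 161791) * R.h1 + (62500 / 59691) * e8 + (250000 / 161791) * e7 + (15625 / 15616) * e6 + (500000 / 496431) * e5 + (10000 / 9159) * e4 + (2000000 / 477443) * e3 + (2000000 / 919911) * e2 + (427289362803770338261375 / 109617526033646708423808) * e1 + (455125975220282425 / 230212988643759744) * R.k2 + (484313234247002888375 / 133268723478979355783808) * s2 + (195520288835967818839867 / 876940208269173667390464) * b2 + (21615670639901519439275 / 109913579937042583454592) * t2 + c2 + c3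

theorem w99 {s b t k G2 G3 : ℝ} (R : Reg s b t k G2 G3) (hT : t ≤ 284 / 1000 * s) (hb : b ≤ s - t)
    (s1 : 5179 / 10000 ≤ s) (s2 : s ≤ 53 / 100)
    (b1 : 81 / 200 ≤ b) (b2 : b ≤ 268 / 625) (t1 : 153 / 1250 ≤ t) (t2 : t ≤ 659 / 5000) :
    4 * ph (s - t) - 2 * ph s ≤ G2 + G3 := by
  have e1 := up (t1 := (211 / 1000)) (t2 := (226 / 1000)) (x := b) (by norm_num)
    (by linear_combination (1044521 / 1000000) * b1) (by linear_combination (262769 / 250000) * b2)
  have e2 := R.lo0 (283 / 1000) (by norm_num)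
  have e3 := up (t1 := (200 / 1000)) (t2 := (214 / 1000)) (x := s - t) (by norm_num)
    (by linear_combination (26 / 25) * s1 + (26 / 25) * t2) (by linear_combination (261449 / 250000) * s2 + (261449 / 250000) * t1)
  have e4 := R.lo2 (284 / 1000) (by norm_num)
  have e5 := up (t1 := (83 / 1000)) (t2 := (86 / 1000)) (x := 8 / 25 * s) (by norm_num)
    (by linear_combination (1006889 / 3125000) * s1) (by linear_combination (251849 / 781250) * s2)
  have e6 := R.lo6 (-29 / 1000) (by norm_num)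
  have c2 := R.k12 (by linear_combination (39365 / 43287) * e1 + R.k2 + s1 + (7769201 / 8657400) * b2 + t2) (by linear_combination (500 / 437) * e1 + (9770189 / 437) * R.k1 + (9770626 / 437) * R.k2 + (17 / 25) * s1 + t2)
  linear_combination (1000000 / 999159) * e6 + (500000 / 496431) * e5 + (62500 / 57459) * e4 + (10000 / 2393) * e3 + (2000000 / 919911) * e2 + (14207122598612500 / 9112165239747339) * e1 + (10712507500 / 19136892327) * R.k2 + (4360958810177130093560 / 178744610465755627266603) * s1 + (6258288855073825 / 18224330479494678) * b2 + (53591703786280 / 45794583338511) * t1 + c2 + R.g3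

theorem w100 {s b t k G2 G3 : ℝ} (R : Reg s b t k G2 G3) (hT : t ≤ 284 / 1000 * s) (hb : b ≤ s - t)
    (s1 : 2529 / 5000 ≤ s) (s2 : s ≤ 53 / 100)
    (b1 : 81 / 200 ≤ b) (b2 : b ≤ 268 / 625) (t1 : 659 / 5000 ≤ t) (t2 : t ≤ 753 / 5000) :
    4 * ph (s - t) - 2 * ph s ≤ G2 + G3 := by
  exfalso
  exact absurd b1 (not_le.mpr (by linear_combination s2 + t1 + hb))

theorem w101 {s b t k G2 G3 : ℝ} (R : Reg s b t k G2 G3) (hT : t ≤ 284 / 1000 * s) (hb : b ≤ s - t)
    (s1 : 963 / 2000 ≤ s) (s2 : s ≤ 53 / 100)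
    (b1 : 268 / 625 ≤ b) (b2 : b ≤ 181 / 400) (t1 : 113 / 1000 ≤ t) (t2 : t ≤ 753 / 5000) :
    4 * ph (s - t) - 2 * ph s ≤ G2 + G3 := by
  exfalso
  exact absurd b1 (not_le.mpr (by linear_combination s2 + t1 + hb))

theorem w102 {s b t k G2 G3 : ℝ} (R : Reg s b t k G2 G3) (hT : t ≤ 284 / 1000 * s) (hb : b ≤ s - t)
    (s1 : 963 / 2000 ≤ s) (s2 : s ≤ 53 / 100)
    (b1 : 181 / 400 ≤ b) (b2 : b ≤ 1 / 2) (t1 : 113 / 1000 ≤ t) (t2 : t ≤ 753 / 5000) :
    4 * ph (s - t) - 2 * ph s ≤ G2 + G3 := by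
  exfalso
  exact absurd b1 (not_le.mpr (by linear_combination s2 + t1 + hb))

theorem w97 {s b t k G2 G3 : ℝ} (R : Reg s b t k G2 G3) (hT : t ≤ 284 / 1000 * s) (hb : b ≤ s - t)
    (s1 : 5179 / 10000 ≤ s) (s2 : s ≤ 53 / 100)
    (b1 : 81 / 200 ≤ b) (b2 : b ≤ 268 / 625) (t1 : 113 / 1000 ≤ t) (t2 : t ≤ 659 / 5000) :
    4 * ph (s - t) - 2 * ph s ≤ G2 + G3 := by
  rcases le_total t (153 / 1250) with h | h
  · exact w98 R hT hb s1 s2 b1 b2 t1 h
  · exact w99 R hT hb s1 s2 b1 b2 h t2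

theorem w95 {s b t k G2 G3 : ℝ} (R : Reg s b t k G2 G3) (hT : t ≤ 284 / 1000 * s) (hb : b ≤ s - t)
    (s1 : 2529 / 5000 ≤ s) (s2 : s ≤ 53 / 100)
    (b1 : 81 / 200 ≤ b) (b2 : b ≤ 268 / 625) (t1 : 113 / 1000 ≤ t) (t2 : t ≤ 659 / 5000) :
    4 * ph (s - t) - 2 * ph s ≤ G2 + G3 := by
  rcases le_total s (5179 / 10000) with h | h
  · exact w96 R hT hb s1 h b1 b2 t1 t2
  · exact w97 R hT hb h s2 b1 b2 t1 t2

theorem w94 {s b t k G2 G3 : ℝ} (R : Reg s b t k G2 G3) (hT : t ≤ 284 / 1000 * s) (hb : b ≤ s - t)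
    (s1 : 2529 / 5000 ≤ s) (s2 : s ≤ 53 / 100)
    (b1 : 81 / 200 ≤ b) (b2 : b ≤ 268 / 625) (t1 : 113 / 1000 ≤ t) (t2 : t ≤ 753 / 5000) :
    4 * ph (s - t) - 2 * ph s ≤ G2 + G3 := by
  rcases le_total t (659 / 5000) with h | h
  · exact w95 R hT hb s1 s2 b1 b2 t1 h
  · exact w100 R hT hb s1 s2 b1 b2 h t2

theorem w92 {s b t k G2 G3 : ℝ} (R : Reg s b t k G2 G3) (hT : t ≤ 284 / 1000 * s) (hb : b ≤ s - t)
    (s1 : 963 / 2000 ≤ s) (s2 : s ≤ 53 / 100)
    (b1 : 81 / 200 ≤ b) (b2 : b ≤ 268 / 625) (t1 : 113 / 1000 ≤ t) (t2 : t ≤ 753 / 5000) :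
    4 * ph (s - t) - 2 * ph s ≤ G2 + G3 := by
  rcases le_total s (2529 / 5000) with h | h
  · exact w93 R hT hb s1 h b1 b2 t1 t2
  · exact w94 R hT hb h s2 b1 b2 t1 t2

theorem w91 {s b t k G2 G3 : ℝ} (R : Reg s b t k G2 G3) (hT : t ≤ 284 / 1000 * s) (hb : b ≤ s - t)
    (s1 : 963 / 2000 ≤ s) (s2 : s ≤ 53 / 100)
    (b1 : 81 / 200 ≤ b) (b2 : b ≤ 181 / 400) (t1 : 113 / 1000 ≤ t) (t2 : t ≤ 753 / 5000) :
    4 * ph (s - t) - 2 * ph s ≤ G2 + G3 := by
  rcases le_total b (268 / 625) with h | h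
  · exact w92 R hT hb s1 s2 b1 h t1 t2
  · exact w101 R hT hb s1 s2 h b2 t1 t2

theorem w90 {s b t k G2 G3 : ℝ} (R : Reg s b t k G2 G3) (hT : t ≤ 284 / 1000 * s) (hb : b ≤ s - t)
    (s1 : 963 / 2000 ≤ s) (s2 : s ≤ 53 / 100)
    (b1 : 81 / 200 ≤ b) (b2 : b ≤ 1 / 2) (t1 : 113 / 1000 ≤ t) (t2 : t ≤ 753 / 5000) :
    4 * ph (s - t) - 2 * ph s ≤ G2 + G3 := by
  rcases le_total b (181 / 400) with h | h
  · exact w91 R hT hb s1 s2 b1 h t1 t2
  · exact w102 R hT hb s1 s2 h b2 t1 t2

theorem w86 {s b t k G2 G3 : ℝ} (R : Reg s b t k G2 G3) (hT : t ≤ 284 / 1000 * s) (hb : b ≤ s - t)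
    (s1 : 963 / 2000 ≤ s) (s2 : s ≤ 53 / 100)
    (b1 : 181 / 400 ≤ b) (b2 : b ≤ 4763 / 10000) (t1 : 753 / 10000 ≤ t) (t2 : t ≤ 113 / 1000) :
    4 * ph (s - t) - 2 * ph s ≤ G2 + G3 := by
  rcases le_total t (471 / 5000) with h | h
  · exact w87 R hT hb s1 s2 b1 b2 t1 h
  · exact w88 R hT hb s1 s2 b1 b2 h t2

theorem w85 {s b t k G2 G3 : ℝ} (R : Reg s b t k G2 G3) (hT : t ≤ 284 / 1000 * s) (hb : b ≤ s - t)
    (s1 : 963 / 2000 ≤ s) (s2 : s ≤ 53 / 100)
    (b1 : 181 / 400 ≤ b) (b2 : b ≤ 1 / 2) (t1 : 753 / 10000 ≤ t) (t2 : t ≤ 113 / 1000) :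
    4 * ph (s - t) - 2 * ph s ≤ G2 + G3 := by
  rcases le_total b (4763 / 10000) with h | h
  · exact w86 R hT hb s1 s2 b1 h t1 t2
  · exact w89 R hT hb s1 s2 h b2 t1 t2

theorem w83 {s b t k G2 G3 : ℝ} (R : Reg s b t k G2 G3) (hT : t ≤ 284 / 1000 * s) (hb : b ≤ s - t)
    (s1 : 963 / 2000 ≤ s) (s2 : s ≤ 53 / 100)
    (b1 : 81 / 200 ≤ b) (b2 : b ≤ 1 / 2) (t1 : 753 / 10000 ≤ t) (t2 : t ≤ 113 / 1000) :
    4 * ph (s - t) - 2 * ph s ≤ G2 + G3 := by
  rcases le_total b (181 / 400) with h | h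
  · exact w84 R hT hb s1 s2 b1 h t1 t2
  · exact w85 R hT hb s1 s2 h b2 t1 t2

theorem w82 {s b t k G2 G3 : ℝ} (R : Reg s b t k G2 G3) (hT : t ≤ 284 / 1000 * s) (hb : b ≤ s - t)
    (s1 : 963 / 2000 ≤ s) (s2 : s ≤ 53 / 100)
    (b1 : 81 / 200 ≤ b) (b2 : b ≤ 1 / 2) (t1 : 753 / 10000 ≤ t) (t2 : t ≤ 753 / 5000) :
    4 * ph (s - t) - 2 * ph s ≤ G2 + G3 := by
  rcases le_total t (113 / 1000) with h | h
  · exact w83 R hT hb s1 s2 b1 b2 t1 h
  · exact w90 R hT hb s1 s2 b1 b2 h t2

theorem w79 {s b t k G2 G3 : ℝ} (R : Reg s b t k G2 G3) (hT : t ≤ 284 / 1000 * s) (hb : b ≤ s - t)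
    (s1 : 963 / 2000 ≤ s) (s2 : s ≤ 53 / 100)
    (b1 : 181 / 400 ≤ b) (b2 : b ≤ 1 / 2) (t1 : 113 / 2000 ≤ t) (t2 : t ≤ 753 / 10000) :
    4 * ph (s - t) - 2 * ph s ≤ G2 + G3 := by
  rcases le_total b (4763 / 10000) with h | h
  · exact w80 R hT hb s1 s2 b1 h t1 t2
  · exact w81 R hT hb s1 s2 h b2 t1 t2

theorem w77 {s b t k G2 G3 : ℝ} (R : Reg s b t k G2 G3) (hT : t ≤ 284 / 1000 * s) (hb : b ≤ s - t)
    (s1 : 963 / 2000 ≤ s) (s2 : s ≤ 53 / 100)
    (b1 : 181 / 400 ≤ b) (b2 : b ≤ 1 / 2) (t1 : 377 / 10000 ≤ t) (t2 : t ≤ 753 / 10000) :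
    4 * ph (s - t) - 2 * ph s ≤ G2 + G3 := by
  rcases le_total t (113 / 2000) with h | h
  · exact w78 R hT hb s1 s2 b1 b2 t1 h
  · exact w79 R hT hb s1 s2 b1 b2 h t2

theorem w75 {s b t k G2 G3 : ℝ} (R : Reg s b t k G2 G3) (hT : t ≤ 284 / 1000 * s) (hb : b ≤ s - t)
    (s1 : 963 / 2000 ≤ s) (s2 : s ≤ 53 / 100)
    (b1 : 81 / 200 ≤ b) (b2 : b ≤ 1 / 2) (t1 : 377 / 10000 ≤ t) (t2 : t ≤ 753 / 10000) :
    4 * ph (s - t) - 2 * ph s ≤ G2 + G3 := by
  rcases le_total b (181 / 400) with h | h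
  · exact w76 R hT hb s1 s2 b1 h t1 t2
  · exact w77 R hT hb s1 s2 h b2 t1 t2

theorem w73 {s b t k G2 G3 : ℝ} (R : Reg s b t k G2 G3) (hT : t ≤ 284 / 1000 * s) (hb : b ≤ s - t)
    (s1 : 963 / 2000 ≤ s) (s2 : s ≤ 53 / 100)
    (b1 : 81 / 200 ≤ b) (b2 : b ≤ 1 / 2) (t1 : 0 ≤ t) (t2 : t ≤ 753 / 10000) :
    4 * ph (s - t) - 2 * ph s ≤ G2 + G3 := by
  rcases le_total t (377 / 10000) with h | h
  · exact w74 R hT hb s1 s2 b1 b2 t1 h
  · exact w75 R hT hb s1 s2 b1 b2 h t2

theorem w72 {s b t k G2 G3 : ℝ} (R : Reg s b t k G2 G3) (hT : t ≤ 284 / 1000 * s) (hb : b ≤ s - t)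
    (s1 : 963 / 2000 ≤ s) (s2 : s ≤ 53 / 100)
    (b1 : 81 / 200 ≤ b) (b2 : b ≤ 1 / 2) (t1 : 0 ≤ t) (t2 : t ≤ 753 / 5000) :
    4 * ph (s - t) - 2 * ph s ≤ G2 + G3 := by
  rcases le_total t (753 / 10000) with h | h
  · exact w73 R hT hb s1 s2 b1 b2 t1 h
  · exact w82 R hT hb s1 s2 b1 b2 h t2

theorem w68 {s b t k G2 G3 : ℝ} (R : Reg s b t k G2 G3) (hT : t ≤ 284 / 1000 * s) (hb : b ≤ s - t)
    (s1 : 951 / 2000 ≤ s) (s2 : s ≤ 963 / 2000)
    (b1 : 81 / 200 ≤ b) (b2 : b ≤ 181 / 400) (t1 : 753 / 10000 ≤ t) (t2 : t ≤ 753 / 5000) :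
    4 * ph (s - t) - 2 * ph s ≤ G2 + G3 := by
  rcases le_total t (113 / 1000) with h | h
  · exact w69 R hT hb s1 s2 b1 b2 t1 h
  · exact w70 R hT hb s1 s2 b1 b2 h t2

theorem w67 {s b t k G2 G3 : ℝ} (R : Reg s b t k G2 G3) (hT : t ≤ 284 / 1000 * s) (hb : b ≤ s - t)
    (s1 : 951 / 2000 ≤ s) (s2 : s ≤ 963 / 2000)
    (b1 : 81 / 200 ≤ b) (b2 : b ≤ 1 / 2) (t1 : 753 / 10000 ≤ t) (t2 : t ≤ 753 / 5000) :
    4 * ph (s - t) - 2 * ph s ≤ G2 + G3 := by
  rcases le_total b (181 / 400) with h | h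
  · exact w68 R hT hb s1 s2 b1 h t1 t2
  · exact w71 R hT hb s1 s2 h b2 t1 t2

theorem w65 {s b t k G2 G3 : ℝ} (R : Reg s b t k G2 G3) (hT : t ≤ 284 / 1000 * s) (hb : b ≤ s - t)
    (s1 : 2347 / 5000 ≤ s) (s2 : s ≤ 963 / 2000)
    (b1 : 81 / 200 ≤ b) (b2 : b ≤ 1 / 2) (t1 : 753 / 10000 ≤ t) (t2 : t ≤ 753 / 5000) :
    4 * ph (s - t) - 2 * ph s ≤ G2 + G3 := by
  rcases le_total s (951 / 2000) with h | h
  · exact w66 R hT hb s1 h b1 b2 t1 t2
  · exact w67 R hT hb h s2 b1 b2 t1 t2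

theorem w63 {s b t k G2 G3 : ℝ} (R : Reg s b t k G2 G3) (hT : t ≤ 284 / 1000 * s) (hb : b ≤ s - t)
    (s1 : 4573 / 10000 ≤ s) (s2 : s ≤ 963 / 2000)
    (b1 : 81 / 200 ≤ b) (b2 : b ≤ 1 / 2) (t1 : 753 / 10000 ≤ t) (t2 : t ≤ 753 / 5000) :
    4 * ph (s - t) - 2 * ph s ≤ G2 + G3 := by
  rcases le_total s (2347 / 5000) with h | h
  · exact w64 R hT hb s1 h b1 b2 t1 t2
  · exact w65 R hT hb h s2 b1 b2 t1 t2

theorem w60 {s b t k G2 G3 : ℝ} (R : Reg s b t k G2 G3) (hT : t ≤ 284 / 1000 * s) (hb : b ≤ s - t)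
    (s1 : 4573 / 10000 ≤ s) (s2 : s ≤ 963 / 2000)
    (b1 : 81 / 200 ≤ b) (b2 : b ≤ 1 / 2) (t1 : 377 / 10000 ≤ t) (t2 : t ≤ 753 / 10000) :
    4 * ph (s - t) - 2 * ph s ≤ G2 + G3 := by
  rcases le_total b (181 / 400) with h | h
  · exact w61 R hT hb s1 s2 b1 h t1 t2
  · exact w62 R hT hb s1 s2 h b2 t1 t2

theorem w58 {s b t k G2 G3 : ℝ} (R : Reg s b t k G2 G3) (hT : t ≤ 284 / 1000 * s) (hb : b ≤ s - t)
    (s1 : 4573 / 10000 ≤ s) (s2 : s ≤ 963 / 2000)
    (b1 : 81 / 200 ≤ b) (b2 : b ≤ 1 / 2) (t1 : 0 ≤ t) (t2 : t ≤ 753 / 10000) :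
    4 * ph (s - t) - 2 * ph s ≤ G2 + G3 := by
  rcases le_total t (377 / 10000) with h | h
  · exact w59 R hT hb s1 s2 b1 b2 t1 h
  · exact w60 R hT hb s1 s2 b1 b2 h t2

theorem w57 {s b t k G2 G3 : ℝ} (R : Reg s b t k G2 G3) (hT : t ≤ 284 / 1000 * s) (hb : b ≤ s - t)
    (s1 : 4573 / 10000 ≤ s) (s2 : s ≤ 963 / 2000)
    (b1 : 81 / 200 ≤ b) (b2 : b ≤ 1 / 2) (t1 : 0 ≤ t) (t2 : t ≤ 753 / 5000) :
    4 * ph (s - t) - 2 * ph s ≤ G2 + G3 := by
  rcases le_total t (753 / 10000) with h | h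
  · exact w58 R hT hb s1 s2 b1 b2 t1 h
  · exact w63 R hT hb s1 s2 b1 b2 h t2

theorem w53 {s b t k G2 G3 : ℝ} (R : Reg s b t k G2 G3) (hT : t ≤ 284 / 1000 * s) (hb : b ≤ s - t)
    (s1 : 433 / 1000 ≤ s) (s2 : s ≤ 4573 / 10000)
    (b1 : 81 / 200 ≤ b) (b2 : b ≤ 1 / 2) (t1 : 377 / 10000 ≤ t) (t2 : t ≤ 753 / 10000) :
    4 * ph (s - t) - 2 * ph s ≤ G2 + G3 := by
  rcases le_total b (181 / 400) with h | h
  · exact w54 R hT hb s1 s2 b1 h t1 t2
  · exact w55 R hT hb s1 s2 h b2 t1 t2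

theorem w51 {s b t k G2 G3 : ℝ} (R : Reg s b t k G2 G3) (hT : t ≤ 284 / 1000 * s) (hb : b ≤ s - t)
    (s1 : 433 / 1000 ≤ s) (s2 : s ≤ 4573 / 10000)
    (b1 : 81 / 200 ≤ b) (b2 : b ≤ 1 / 2) (t1 : 0 ≤ t) (t2 : t ≤ 753 / 10000) :
    4 * ph (s - t) - 2 * ph s ≤ G2 + G3 := by
  rcases le_total t (377 / 10000) with h | h
  · exact w52 R hT hb s1 s2 b1 b2 t1 h
  · exact w53 R hT hb s1 s2 b1 b2 h t2

theorem w50 {s b t k G2 G3 : ℝ} (R : Reg s b t k G2 G3) (hT : t ≤ 284 / 1000 * s) (hb : b ≤ s - t)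
    (s1 : 433 / 1000 ≤ s) (s2 : s ≤ 4573 / 10000)
    (b1 : 81 / 200 ≤ b) (b2 : b ≤ 1 / 2) (t1 : 0 ≤ t) (t2 : t ≤ 753 / 5000) :
    4 * ph (s - t) - 2 * ph s ≤ G2 + G3 := by
  rcases le_total t (753 / 10000) with h | h
  · exact w51 R hT hb s1 s2 b1 b2 t1 h
  · exact w56 R hT hb s1 s2 b1 b2 h t2

theorem w49 {s b t k G2 G3 : ℝ} (R : Reg s b t k G2 G3) (hT : t ≤ 284 / 1000 * s) (hb : b ≤ s - t)
    (s1 : 433 / 1000 ≤ s) (s2 : s ≤ 963 / 2000)
    (b1 : 81 / 200 ≤ b) (b2 : b ≤ 1 / 2) (t1 : 0 ≤ t) (t2 : t ≤ 753 / 5000) :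
    4 * ph (s - t) - 2 * ph s ≤ G2 + G3 := by
  rcases le_total s (4573 / 10000) with h | h
  · exact w50 R hT hb s1 h b1 b2 t1 t2
  · exact w57 R hT hb h s2 b1 b2 t1 t2

theorem w48 {s b t k G2 G3 : ℝ} (R : Reg s b t k G2 G3) (hT : t ≤ 284 / 1000 * s) (hb : b ≤ s - t)
    (s1 : 433 / 1000 ≤ s) (s2 : s ≤ 53 / 100)
    (b1 : 81 / 200 ≤ b) (b2 : b ≤ 1 / 2) (t1 : 0 ≤ t) (t2 : t ≤ 753 / 5000) :
    4 * ph (s - t) - 2 * ph s ≤ G2 + G3 := by
  rcases le_total s (963 / 2000) with h | h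
  · exact w49 R hT hb s1 h b1 b2 t1 t2
  · exact w72 R hT hb h s2 b1 b2 t1 t2

theorem w43 {s b t k G2 G3 : ℝ} (R : Reg s b t k G2 G3) (hT : t ≤ 284 / 1000 * s) (hb : b ≤ s - t)
    (s1 : 963 / 2000 ≤ s) (s2 : s ≤ 53 / 100)
    (b1 : 143 / 400 ≤ b) (b2 : b ≤ 81 / 200) (t1 : 113 / 1000 ≤ t) (t2 : t ≤ 153 / 1250) :
    4 * ph (s - t) - 2 * ph s ≤ G2 + G3 := by
  rcases le_total b (3813 / 10000) with h | h
  · exact w44 R hT hb s1 s2 b1 h t1 t2
  · exact w45 R hT hb s1 s2 h b2 t1 t2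

theorem w42 {s b t k G2 G3 : ℝ} (R : Reg s b t k G2 G3) (hT : t ≤ 284 / 1000 * s) (hb : b ≤ s - t)
    (s1 : 963 / 2000 ≤ s) (s2 : s ≤ 53 / 100)
    (b1 : 143 / 400 ≤ b) (b2 : b ≤ 81 / 200) (t1 : 113 / 1000 ≤ t) (t2 : t ≤ 659 / 5000) :
    4 * ph (s - t) - 2 * ph s ≤ G2 + G3 := by
  rcases le_total t (153 / 1250) with h | h
  · exact w43 R hT hb s1 s2 b1 b2 t1 h
  · exact w46 R hT hb s1 s2 b1 b2 h t2

theorem w39 {s b t k G2 G3 : ℝ} (R : Reg s b t k G2 G3) (hT : t ≤ 284 / 1000 * s) (hb : b ≤ s - t)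
    (s1 : 433 / 1000 ≤ s) (s2 : s ≤ 963 / 2000)
    (b1 : 143 / 400 ≤ b) (b2 : b ≤ 81 / 200) (t1 : 113 / 1000 ≤ t) (t2 : t ≤ 659 / 5000) :
    4 * ph (s - t) - 2 * ph s ≤ G2 + G3 := by
  rcases le_total b (3813 / 10000) with h | h
  · exact w40 R hT hb s1 s2 b1 h t1 t2
  · exact w41 R hT hb s1 s2 h b2 t1 t2

theorem w38 {s b t k G2 G3 : ℝ} (R : Reg s b t k G2 G3) (hT : t ≤ 284 / 1000 * s) (hb : b ≤ s - t)
    (s1 : 433 / 1000 ≤ s) (s2 : s ≤ 53 / 100)
    (b1 : 143 / 400 ≤ b) (b2 : b ≤ 81 / 200) (t1 : 113 / 1000 ≤ t) (t2 : t ≤ 659 / 5000) :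
    4 * ph (s - t) - 2 * ph s ≤ G2 + G3 := by
  rcases le_total s (963 / 2000) with h | h
  · exact w39 R hT hb s1 h b1 b2 t1 t2
  · exact w42 R hT hb h s2 b1 b2 t1 t2

theorem w36 {s b t k G2 G3 : ℝ} (R : Reg s b t k G2 G3) (hT : t ≤ 284 / 1000 * s) (hb : b ≤ s - t)
    (s1 : 433 / 1000 ≤ s) (s2 : s ≤ 53 / 100)
    (b1 : 31 / 100 ≤ b) (b2 : b ≤ 81 / 200) (t1 : 113 / 1000 ≤ t) (t2 : t ≤ 659 / 5000) :
    4 * ph (s - t) - 2 * ph s ≤ G2 + G3 := by
  rcases le_total b (143 / 400) with h | h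
  · exact w37 R hT hb s1 s2 b1 h t1 t2
  · exact w38 R hT hb s1 s2 h b2 t1 t2

theorem w35 {s b t k G2 G3 : ℝ} (R : Reg s b t k G2 G3) (hT : t ≤ 284 / 1000 * s) (hb : b ≤ s - t)
    (s1 : 433 / 1000 ≤ s) (s2 : s ≤ 53 / 100)
    (b1 : 31 / 100 ≤ b) (b2 : b ≤ 81 / 200) (t1 : 113 / 1000 ≤ t) (t2 : t ≤ 753 / 5000) :
    4 * ph (s - t) - 2 * ph s ≤ G2 + G3 := by
  rcases le_total t (659 / 5000) with h | h
  · exact w36 R hT hb s1 s2 b1 b2 t1 h
  · exact w47 R hT hb s1 s2 b1 b2 h t2

theorem w31 {s b t k G2 G3 : ℝ} (R : Reg s b t k G2 G3) (hT : t ≤ 284 / 1000 * s) (hb : b ≤ s - t)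
    (s1 : 433 / 1000 ≤ s) (s2 : s ≤ 53 / 100)
    (b1 : 31 / 100 ≤ b) (b2 : b ≤ 143 / 400) (t1 : 259 / 2500 ≤ t) (t2 : t ≤ 113 / 1000) :
    4 * ph (s - t) - 2 * ph s ≤ G2 + G3 := by
  rcases le_total b (1669 / 5000) with h | h
  · exact w32 R hT hb s1 s2 b1 h t1 t2
  · exact w33 R hT hb s1 s2 h b2 t1 t2

theorem w30 {s b t k G2 G3 : ℝ} (R : Reg s b t k G2 G3) (hT : t ≤ 284 / 1000 * s) (hb : b ≤ s - t)
    (s1 : 433 / 1000 ≤ s) (s2 : s ≤ 53 / 100)
    (b1 : 31 / 100 ≤ b) (b2 : b ≤ 81 / 200) (t1 : 259 / 2500 ≤ t) (t2 : t ≤ 113 / 1000) :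
    4 * ph (s - t) - 2 * ph s ≤ G2 + G3 := by
  rcases le_total b (143 / 400) with h | h
  · exact w31 R hT hb s1 s2 b1 h t1 t2
  · exact w34 R hT hb s1 s2 h b2 t1 t2

theorem w28 {s b t k G2 G3 : ℝ} (R : Reg s b t k G2 G3) (hT : t ≤ 284 / 1000 * s) (hb : b ≤ s - t)
    (s1 : 433 / 1000 ≤ s) (s2 : s ≤ 53 / 100)
    (b1 : 31 / 100 ≤ b) (b2 : b ≤ 81 / 200) (t1 : 471 / 5000 ≤ t) (t2 : t ≤ 113 / 1000) :
    4 * ph (s - t) - 2 * ph s ≤ G2 + G3 := by
  rcases le_total t (259 / 2500) with h | h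
  · exact w29 R hT hb s1 s2 b1 b2 t1 h
  · exact w30 R hT hb s1 s2 b1 b2 h t2

theorem w26 {s b t k G2 G3 : ℝ} (R : Reg s b t k G2 G3) (hT : t ≤ 284 / 1000 * s) (hb : b ≤ s - t)
    (s1 : 433 / 1000 ≤ s) (s2 : s ≤ 53 / 100)
    (b1 : 31 / 100 ≤ b) (b2 : b ≤ 81 / 200) (t1 : 753 / 10000 ≤ t) (t2 : t ≤ 113 / 1000) :
    4 * ph (s - t) - 2 * ph s ≤ G2 + G3 := by
  rcases le_total t (471 / 5000) with h | h
  · exact w27 R hT hb s1 s2 b1 b2 t1 h
  · exact w28 R hT hb s1 s2 b1 b2 h t2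

theorem w25 {s b t k G2 G3 : ℝ} (R : Reg s b t k G2 G3) (hT : t ≤ 284 / 1000 * s) (hb : b ≤ s - t)
    (s1 : 433 / 1000 ≤ s) (s2 : s ≤ 53 / 100)
    (b1 : 31 / 100 ≤ b) (b2 : b ≤ 81 / 200) (t1 : 753 / 10000 ≤ t) (t2 : t ≤ 753 / 5000) :
    4 * ph (s - t) - 2 * ph s ≤ G2 + G3 := by
  rcases le_total t (113 / 1000) with h | h
  · exact w26 R hT hb s1 s2 b1 b2 t1 h
  · exact w35 R hT hb s1 s2 b1 b2 h t2

theorem w22 {s b t k G2 G3 : ℝ} (R : Reg s b t k G2 G3) (hT : t ≤ 284 / 1000 * s) (hb : b ≤ s - t)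
    (s1 : 433 / 1000 ≤ s) (s2 : s ≤ 53 / 100)
    (b1 : 31 / 100 ≤ b) (b2 : b ≤ 81 / 200) (t1 : 0 ≤ t) (t2 : t ≤ 753 / 10000) :
    4 * ph (s - t) - 2 * ph s ≤ G2 + G3 := by
  rcases le_total t (377 / 10000) with h | h
  · exact w23 R hT hb s1 s2 b1 b2 t1 h
  · exact w24 R hT hb s1 s2 b1 b2 h t2

theorem w21 {s b t k G2 G3 : ℝ} (R : Reg s b t k G2 G3) (hT : t ≤ 284 / 1000 * s) (hb : b ≤ s - t)
    (s1 : 433 / 1000 ≤ s) (s2 : s ≤ 53 / 100)
    (b1 : 31 / 100 ≤ b) (b2 : b ≤ 81 / 200) (t1 : 0 ≤ t) (t2 : t ≤ 753 / 5000) :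
    4 * ph (s - t) - 2 * ph s ≤ G2 + G3 := by
  rcases le_total t (753 / 10000) with h | h
  · exact w22 R hT hb s1 s2 b1 b2 t1 h
  · exact w25 R hT hb s1 s2 b1 b2 h t2

theorem w20 {s b t k G2 G3 : ℝ} (R : Reg s b t k G2 G3) (hT : t ≤ 284 / 1000 * s) (hb : b ≤ s - t)
    (s1 : 433 / 1000 ≤ s) (s2 : s ≤ 53 / 100)
    (b1 : 31 / 100 ≤ b) (b2 : b ≤ 1 / 2) (t1 : 0 ≤ t) (t2 : t ≤ 753 / 5000) :
    4 * ph (s - t) - 2 * ph s ≤ G2 + G3 := by
  rcases le_total b (81 / 200) with h | h
  · exact w21 R hT hb s1 s2 b1 h t1 t2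
  · exact w48 R hT hb s1 s2 h b2 t1 t2

theorem w16 {s b t k G2 G3 : ℝ} (R : Reg s b t k G2 G3) (hT : t ≤ 284 / 1000 * s) (hb : b ≤ s - t)
    (s1 : 433 / 1000 ≤ s) (s2 : s ≤ 53 / 100)
    (b1 : 43 / 200 ≤ b) (b2 : b ≤ 31 / 100) (t1 : 471 / 5000 ≤ t) (t2 : t ≤ 113 / 1000) :
    4 * ph (s - t) - 2 * ph s ≤ G2 + G3 := by
  rcases le_total s (963 / 2000) with h | h
  · exact w17 R hT hb s1 h b1 b2 t1 t2
  · exact w18 R hT hb h s2 b1 b2 t1 t2

theorem w14 {s b t k G2 G3 : ℝ} (R : Reg s b t k G2 G3) (hT : t ≤ 284 / 1000 * s) (hb : b ≤ s - t)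
    (s1 : 433 / 1000 ≤ s) (s2 : s ≤ 53 / 100)
    (b1 : 43 / 200 ≤ b) (b2 : b ≤ 31 / 100) (t1 : 753 / 10000 ≤ t) (t2 : t ≤ 113 / 1000) :
    4 * ph (s - t) - 2 * ph s ≤ G2 + G3 := by
  rcases le_total t (471 / 5000) with h | h
  · exact w15 R hT hb s1 s2 b1 b2 t1 h
  · exact w16 R hT hb s1 s2 b1 b2 h t2

theorem w12 {s b t k G2 G3 : ℝ} (R : Reg s b t k G2 G3) (hT : t ≤ 284 / 1000 * s) (hb : b ≤ s - t)
    (s1 : 433 / 1000 ≤ s) (s2 : s ≤ 53 / 100)
    (b1 : 3 / 25 ≤ b) (b2 : b ≤ 31 / 100) (t1 : 753 / 10000 ≤ t) (t2 : t ≤ 113 / 1000) :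
    4 * ph (s - t) - 2 * ph s ≤ G2 + G3 := by
  rcases le_total b (43 / 200) with h | h
  · exact w13 R hT hb s1 s2 b1 h t1 t2
  · exact w14 R hT hb s1 s2 h b2 t1 t2

theorem w11 {s b t k G2 G3 : ℝ} (R : Reg s b t k G2 G3) (hT : t ≤ 284 / 1000 * s) (hb : b ≤ s - t)
    (s1 : 433 / 1000 ≤ s) (s2 : s ≤ 53 / 100)
    (b1 : 3 / 25 ≤ b) (b2 : b ≤ 31 / 100) (t1 : 753 / 10000 ≤ t) (t2 : t ≤ 753 / 5000) :
    4 * ph (s - t) - 2 * ph s ≤ G2 + G3 := by
  rcases le_total t (113 / 1000) with h | h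
  · exact w12 R hT hb s1 s2 b1 b2 t1 h
  · exact w19 R hT hb s1 s2 b1 b2 h t2

theorem w7 {s b t k G2 G3 : ℝ} (R : Reg s b t k G2 G3) (hT : t ≤ 284 / 1000 * s) (hb : b ≤ s - t)
    (s1 : 433 / 1000 ≤ s) (s2 : s ≤ 53 / 100)
    (b1 : 3 / 25 ≤ b) (b2 : b ≤ 43 / 200) (t1 : 113 / 2000 ≤ t) (t2 : t ≤ 753 / 10000) :
    4 * ph (s - t) - 2 * ph s ≤ G2 + G3 := by
  rcases le_total b (67 / 400) with h | h
  · exact w8 R hT hb s1 s2 b1 h t1 t2
  · exact w9 R hT hb s1 s2 h b2 t1 t2

theorem w5 {s b t k G2 G3 : ℝ} (R : Reg s b t k G2 G3) (hT : t ≤ 284 / 1000 * s) (hb : b ≤ s - t)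
    (s1 : 433 / 1000 ≤ s) (s2 : s ≤ 53 / 100)
    (b1 : 3 / 25 ≤ b) (b2 : b ≤ 43 / 200) (t1 : 377 / 10000 ≤ t) (t2 : t ≤ 753 / 10000) :
    4 * ph (s - t) - 2 * ph s ≤ G2 + G3 := by
  rcases le_total t (113 / 2000) with h | h
  · exact w6 R hT hb s1 s2 b1 b2 t1 h
  · exact w7 R hT hb s1 s2 b1 b2 h t2

theorem w4 {s b t k G2 G3 : ℝ} (R : Reg s b t k G2 G3) (hT : t ≤ 284 / 1000 * s) (hb : b ≤ s - t)
    (s1 : 433 / 1000 ≤ s) (s2 : s ≤ 53 / 100)
    (b1 : 3 / 25 ≤ b) (b2 : b ≤ 31 / 100) (t1 : 377 / 10000 ≤ t) (t2 : t ≤ 753 / 10000) :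
    4 * ph (s - t) - 2 * ph s ≤ G2 + G3 := by
  rcases le_total b (43 / 200) with h | h
  · exact w5 R hT hb s1 s2 b1 h t1 t2
  · exact w10 R hT hb s1 s2 h b2 t1 t2

theorem w2 {s b t k G2 G3 : ℝ} (R : Reg s b t k G2 G3) (hT : t ≤ 284 / 1000 * s) (hb : b ≤ s - t)
    (s1 : 433 / 1000 ≤ s) (s2 : s ≤ 53 / 100)
    (b1 : 3 / 25 ≤ b) (b2 : b ≤ 31 / 100) (t1 : 0 ≤ t) (t2 : t ≤ 753 / 10000) :
    4 * ph (s - t) - 2 * ph s ≤ G2 + G3 := by
  rcases le_total t (377 / 10000) with h | h
  · exact w3 R hT hb s1 s2 b1 b2 t1 h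
  · exact w4 R hT hb s1 s2 b1 b2 h t2

theorem w1 {s b t k G2 G3 : ℝ} (R : Reg s b t k G2 G3) (hT : t ≤ 284 / 1000 * s) (hb : b ≤ s - t)
    (s1 : 433 / 1000 ≤ s) (s2 : s ≤ 53 / 100)
    (b1 : 3 / 25 ≤ b) (b2 : b ≤ 31 / 100) (t1 : 0 ≤ t) (t2 : t ≤ 753 / 5000) :
    4 * ph (s - t) - 2 * ph s ≤ G2 + G3 := by
  rcases le_total t (753 / 10000) with h | h
  · exact w2 R hT hb s1 s2 b1 b2 t1 h
  · exact w11 R hT hb s1 s2 b1 b2 h t2

theorem w0 {s b t k G2 G3 : ℝ} (R : Reg s b t k G2 G3) (hT : t ≤ 284 / 1000 * s) (hb : b ≤ s - t)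
    (s1 : 433 / 1000 ≤ s) (s2 : s ≤ 53 / 100)
    (b1 : 3 / 25 ≤ b) (b2 : b ≤ 1 / 2) (t1 : 0 ≤ t) (t2 : t ≤ 753 / 5000) :
    4 * ph (s - t) - 2 * ph s ≤ G2 + G3 := by
  rcases le_total b (31 / 100) with h | h
  · exact w1 R hT hb s1 s2 b1 h t1 t2
  · exact w20 R hT hb s1 s2 h b2 t1 t2

theorem z2 {s b t k G2 G3 : ℝ} (R : Reg s b t k G2 G3) (hT : t ≤ 284 / 1000 * s) (hb : 8 / 25 * s ≤ t + b / 2 + k)
    (s1 : 433 / 1000 ≤ s) (s2 : s ≤ 53 / 100)
    (b1 : 0 ≤ b) (b2 : b ≤ 3 / 25) (t1 : 0 ≤ t) (t2 : t ≤ 377 / 10000) :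
    4 * ph (s - t) - 2 * ph s ≤ G2 + G3 := by
  have e1 := up (t1 := (0 / 1000)) (t2 := (61 / 1000)) (x := b) (by norm_num)
    (by linear_combination b1) (by linear_combination (1003721 / 1000000) * b2)
  exfalso
  exact absurd b2 (not_le.mpr (by linear_combination (86603000 / 55282783) * e1 + (100000000 / 55282783) * R.k2 + (32000000 / 55282783) * s1 + (100000000 / 55282783) * t2 + (100000000 / 55282783) * hb))

theorem z4 {s b t k G2 G3 : ℝ} (R : Reg s b t k G2 G3) (hT : t ≤ 284 / 1000 * s) (hb : 8 / 25 * s ≤ t + b / 2 + k)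
    (s1 : 433 / 1000 ≤ s) (s2 : s ≤ 53 / 100)
    (b1 : 0 ≤ b) (b2 : b ≤ 3 / 25) (t1 : 377 / 10000 ≤ t) (t2 : t ≤ 113 / 2000) :
    4 * ph (s - t) - 2 * ph s ≤ G2 + G3 := by
  have e1 := up (t1 := (0 / 1000)) (t2 := (61 / 1000)) (x := b) (by norm_num)
    (by linear_combination b1) (by linear_combination (1003721 / 1000000) * b2)
  exfalso
  exact absurd b2 (not_le.mpr (by linear_combination (86603000 / 55282783) * e1 + (100000000 / 55282783) * R.k2 + (32000000 / 55282783) * s1 + (100000000 / 55282783) * t2 + (100000000 / 55282783) * hb))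

theorem z5 {s b t k G2 G3 : ℝ} (R : Reg s b t k G2 G3) (hT : t ≤ 284 / 1000 * s) (hb : 8 / 25 * s ≤ t + b / 2 + k)
    (s1 : 433 / 1000 ≤ s) (s2 : s ≤ 53 / 100)
    (b1 : 0 ≤ b) (b2 : b ≤ 3 / 25) (t1 : 113 / 2000 ≤ t) (t2 : t ≤ 753 / 10000) :
    4 * ph (s - t) - 2 * ph s ≤ G2 + G3 := by
  have e1 := up (t1 := (0 / 1000)) (t2 := (61 / 1000)) (x := b) (by norm_num)
    (by linear_combination b1) (by linear_combination (1003721 / 1000000) * b2)
  have e2 := R.lo0 (257 / 1000) (by norm_num)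
  have e3 := up (t1 := (184 / 1000)) (t2 := (252 / 1000)) (x := s - t) (by norm_num)
    (by linear_combination (16154 / 15625) * s1 + (16154 / 15625) * t2) (by linear_combination (66469 / 62500) * s2 + (66469 / 62500) * t1)
  have e4 := R.lo2 (233 / 1000) (by norm_num)
  have e5 := R.lo3 (199 / 1000) (by norm_num)
  have e6 := up (t1 := (69 / 1000)) (t2 := (86 / 1000)) (x := 8 / 25 * s) (by norm_num)
    (by linear_combination (1004761 / 3125000) * s1) (by linear_combination (251849 / 781250) * s2)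
  have c2 := R.k22 (by linear_combination (86603 / 100000) * e1 + R.k2 + s1 + (55282783 / 100000000) * b2 + t2)
  linear_combination (1000000 / 497033) * e6 + (1000000 / 960399) * e5 + (1000000 / 945711) * e4 + (125000 / 29801) * e3 + (2000000 / 933951) * e2 + (136516474297 / 76452853425) * e1 + (30516256000 / 33639255507) * R.k2 + (4098884457104825827922700 / 51706366392128423278269109) * s1 + (175984112759861 / 2522944163025000) * b2 + (923924480075500 / 1002483453364107) * t1 + c2 + R.g3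

theorem z6 {s b t k G2 G3 : ℝ} (R : Reg s b t k G2 G3) (hT : t ≤ 284 / 1000 * s) (hb : 8 / 25 * s ≤ t + b / 2 + k)
    (s1 : 433 / 1000 ≤ s) (s2 : s ≤ 53 / 100)
    (b1 : 0 ≤ b) (b2 : b ≤ 3 / 25) (t1 : 753 / 10000 ≤ t) (t2 : t ≤ 753 / 5000) :
    4 * ph (s - t) - 2 * ph s ≤ G2 + G3 := by
  have e1 := up (t1 := (0 / 1000)) (t2 := (61 / 1000)) (x := b) (by norm_num)
    (by linear_combination b1) (by linear_combination (1003721 / 1000000) * b2)
  have e2 := R.lo0 (257 / 1000) (by norm_num)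
  have e3 := up (t1 := (144 / 1000)) (t2 := (241 / 1000)) (x := s - t) (by norm_num)
    (by linear_combination (15949 / 15625) * s1 + (15949 / 15625) * t2) (by linear_combination (1058081 / 1000000) * s2 + (1058081 / 1000000) * t1)
  have e4 := R.lo2 (206 / 1000) (by norm_num)
  have e5 := R.lo3 (173 / 1000) (by norm_num)
  have e6 := up (t1 := (69 / 1000)) (t2 := (86 / 1000)) (x := 8 / 25 * s) (by norm_num)
    (by linear_combination (1004761 / 3125000) * s1) (by linear_combination (251849 / 781250) * s2)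
  have c2 := R.k22 (by linear_combination (86603 / 100000) * e1 + R.k2 + s1 + (55282783 / 100000000) * b2 + t2)
  linear_combination (1000000 / 497033) * e6 + (1000000 / 970071) * e5 + (250000 / 239391) * e4 + (250000 / 60331) * e3 + (2000000 / 933951) * e2 + (13016343463099 / 7740875558700) * e1 + (60915533000 / 77408755587) * R.k2 + (139089633536569282790514850 / 722634464908320749420329917) * s1 + (56577389027671 / 860097284300000) * b2 + (3775497703825750 / 4670147633319297) * t1 + c2 + R.g3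

theorem z3 {s b t k G2 G3 : ℝ} (R : Reg s b t k G2 G3) (hT : t ≤ 284 / 1000 * s) (hb : 8 / 25 * s ≤ t + b / 2 + k)
    (s1 : 433 / 1000 ≤ s) (s2 : s ≤ 53 / 100)
    (b1 : 0 ≤ b) (b2 : b ≤ 3 / 25) (t1 : 377 / 10000 ≤ t) (t2 : t ≤ 753 / 10000) :
    4 * ph (s - t) - 2 * ph s ≤ G2 + G3 := by
  rcases le_total t (113 / 2000) with h | h
  · exact z4 R hT hb s1 s2 b1 b2 t1 h
  · exact z5 R hT hb s1 s2 b1 b2 h t2

theorem z1 {s b t k G2 G3 : ℝ} (R : Reg s b t k G2 G3) (hT : t ≤ 284 / 1000 * s) (hb : 8 / 25 * s ≤ t + b / 2 + k)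
    (s1 : 433 / 1000 ≤ s) (s2 : s ≤ 53 / 100)
    (b1 : 0 ≤ b) (b2 : b ≤ 3 / 25) (t1 : 0 ≤ t) (t2 : t ≤ 753 / 10000) :
    4 * ph (s - t) - 2 * ph s ≤ G2 + G3 := by
  rcases le_total t (377 / 10000) with h | h
  · exact z2 R hT hb s1 s2 b1 b2 t1 h
  · exact z3 R hT hb s1 s2 b1 b2 h t2

theorem z0 {s b t k G2 G3 : ℝ} (R : Reg s b t k G2 G3) (hT : t ≤ 284 / 1000 * s) (hb : 8 / 25 * s ≤ t + b / 2 + k)
    (s1 : 433 / 1000 ≤ s) (s2 : s ≤ 53 / 100)
    (b1 : 0 ≤ b) (b2 : b ≤ 3 / 25) (t1 : 0 ≤ t) (t2 : t ≤ 753 / 5000) :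
    4 * ph (s - t) - 2 * ph s ≤ G2 + G3 := by
  rcases le_total t (753 / 10000) with h | h
  · exact z1 R hT hb s1 s2 b1 b2 t1 h
  · exact z6 R hT hb s1 s2 b1 b2 h t2

end Pool.Agent.Strip051.FourC.LA
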