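import Pool.Agent.Strip051.FourC.Box

/-! # The corner of the window -/

namespace Pool.Agent.Strip051.FourC.LA

open Pool.Agent.StripNear Pool.Agent.StripSquare Pool.Agent.Strip051
open Pool.Agent.Strip051.Four.Low (ph ph_nonneg ph_neg ph_zero ph_mono ph_abs ph_quad)

/-- The tangent of the arc. -/
theorem tan_low {x v : ℝ} (hx : x ^ 2 ≤ 1) (hv : v ^ 2 ≤ 1) :
    x * (v - x) ≤ g x * (ph v - ph x) := by
  have e1 := g_sq hx
  have e2 := g_sq hv
  unfold Four.Low.ph
  linear_combination (1 / 2) * (sq_nonneg (x - v)) + (1 / 2) * (sq_nonneg (g x - g v)) - (1 / 2) * e1 +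
    (1 / 2) * e2

/-- The difference of two values. -/
theorem ph_diff {x z : ℝ} (hx : x ^ 2 ≤ 1) (hz : z ^ 2 ≤ 1) :
    (g x + g z) * (ph x - ph z) = x ^ 2 - z ^ 2 := by
  have e1 := g_sq hx
  have e2 := g_sq hz
  unfold Four.Low.ph
  linear_combination e2 - e1

theorem ph_b {b : ℝ} (h0' : 0 ≤ b) (h1 : b ≤ 3 / 25) : ph b ≤ 5019 / 10000 * b ^ 2 := by
  have e := ph_quad (x := b) (by linear_combination (3 / 25) * h1 + (mul_nonneg (sub_nonneg.mpr h0') (sub_nonneg.mpr h1)))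
  have n := ph_nonneg b
  have h : ph b ≤ 75 / 10000 := by
    have := ph_mono h0' h1
    have h2 : (9925 : ℝ) / 10000 ≤ g (3 / 25) := by
      unfold g
      exact Real.le_sqrt_of_sq_le (by norm_num)
    unfold Four.Low.ph at *
    linear_combination this + h2
  have : ph b ^ 2 ≤ 75 / 10000 * ph b := by linear_combination -(3 / 800) * e + (1 / 4) * (mul_nonneg (sub_nonneg.mpr (sq_nonneg (ph b))) (sub_nonneg.mpr (le_of_eq e))) +
    (1 / 2) * (mul_nonneg (sub_nonneg.mpr (sq_nonneg (ph b))) (sub_nonneg.mpr h)) + (1 / 4) * (mul_nonneg (sub_nonneg.mpr (sq_nonneg (b))) (sub_nonneg.mpr (le_of_eq e))) +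
    (1 / 2) * (mul_nonneg (sub_nonneg.mpr (sq_nonneg (b))) (sub_nonneg.mpr h)) + (1 / 4) * (mul_nonneg (sub_nonneg.mpr (ge_of_eq e)) (sub_nonneg.mpr (le_of_eq e)))
  linear_combination (5019 / 10000) * e + (143 / 4000000) * n + (5019 / 10000) * this

section

variable {s b t k G2 G3 : ℝ}

theorem corner1 (R : Reg s b t k G2 G3) (hb : b ≤ 3 / 25) (hE : t + b / 2 + k ≤ 8 / 25 * s)
    (h : -t + b / 2 - k ≤ 0) : 4 * ph (s - t) - 2 * ph s ≤ G2 + G3 := by
  have s1 := R.s1
  have s2 := R.s2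
  have b1 := R.b1
  have t1 := R.t1
  have t2 := R.t2
  have k3 := R.k3
  have k2 := R.k2
  have c2 := R.k22 (by linear_combination hE + (17 / 25) * s1)
  have c3 := R.l11 (by linear_combination hE)
  have pb := ph_b b1 hb
  have pb0 := ph_nonneg b
  have gs1 := g_le_one (s - t)
  have y2 : (s - t) ^ 2 ≤ 2809 / 10000 := by linear_combination (46018366564813 / 15000000000000) * (sq_nonneg (b)) + (1897 / 5000) * h +
    (20611 / 25000) * s2 + (2997 / 5000) * k2 + (259549191 / 500000000) * pb + (434660457 / 320000000) * (mul_nonneg (sub_nonneg.mpr (sq_nonneg (b))) (sub_nonneg.mpr h)) +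
    (434660457 / 500000000) * (mul_nonneg (sub_nonneg.mpr (sq_nonneg (b))) (sub_nonneg.mpr s2)) +
    (434660457 / 160000000) * (mul_nonneg (sub_nonneg.mpr (sq_nonneg (b))) (sub_nonneg.mpr b1)) +
    (4547 / 1200) * (mul_nonneg (sub_nonneg.mpr hb) (sub_nonneg.mpr b1)) + (25 / 4) * (mul_nonneg (sub_nonneg.mpr hb) (sub_nonneg.mpr k3)) +
    (25 / 8) * (mul_nonneg (sub_nonneg.mpr hE) (sub_nonneg.mpr h)) + (mul_nonneg (sub_nonneg.mpr hE) (sub_nonneg.mpr s2)) +
    (25 / 4) * (mul_nonneg (sub_nonneg.mpr hE) (sub_nonneg.mpr k2)) + (86603 / 16000) * (mul_nonneg (sub_nonneg.mpr hE) (sub_nonneg.mpr pb)) +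
    (25 / 16) * (mul_nonneg (sub_nonneg.mpr h) (sub_nonneg.mpr b1)) + (25 / 8) * (mul_nonneg (sub_nonneg.mpr h) (sub_nonneg.mpr t1)) +
    (25 / 8) * (mul_nonneg (sub_nonneg.mpr h) (sub_nonneg.mpr k2)) + (86603 / 32000) * (mul_nonneg (sub_nonneg.mpr h) (sub_nonneg.mpr pb)) +
    (17 / 25) * (mul_nonneg (sub_nonneg.mpr s1) (sub_nonneg.mpr s2)) + (mul_nonneg (sub_nonneg.mpr t1) (sub_nonneg.mpr t2))
  have gy : 8479 / 10000 ≤ g (s - t) := by
    have := g_sq (r := s - t) (by linear_combination y2)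
    have := g_nonneg (s - t)
    exact not_lt.mp (fun hg__ => absurd y2 (not_le.mpr (by linear_combination (8479 / 10000) * hg__ - (‹g (s - t) ^ 2 = 1 - (s - t) ^ 2›) + (mul_nonneg (sub_nonneg.mpr (le_of_lt hg__)) (sub_nonneg.mpr this)))))
  have z2 : (8 / 25 * s - t) ^ 2 ≤ 288 / 10000 := by linear_combination (19 / 1000) * h + (848 / 15625) * s2 + (8993067921947 / 125000000000000) * b1 +
    (447 / 5000) * k2 + (38711541 / 500000000) * pb + (434660457 / 1000000000) * (mul_nonneg (sub_nonneg.mpr (sq_nonneg (b))) (sub_nonneg.mpr h)) +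
    (434660457 / 1562500000) * (mul_nonneg (sub_nonneg.mpr (sq_nonneg (b))) (sub_nonneg.mpr s2)) +
    (434660457 / 500000000) * (mul_nonneg (sub_nonneg.mpr (sq_nonneg (b))) (sub_nonneg.mpr b1)) +
    (931477359351 / 5000000000000) * (mul_nonneg (sub_nonneg.mpr hb) (sub_nonneg.mpr b1)) +
    2 * (mul_nonneg (sub_nonneg.mpr hb) (sub_nonneg.mpr k3)) + (mul_nonneg (sub_nonneg.mpr hE) (sub_nonneg.mpr h)) +
    (8 / 25) * (mul_nonneg (sub_nonneg.mpr hE) (sub_nonneg.mpr s2)) + 2 * (mul_nonneg (sub_nonneg.mpr hE) (sub_nonneg.mpr k2)) +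
    (86603 / 50000) * (mul_nonneg (sub_nonneg.mpr hE) (sub_nonneg.mpr pb)) + (1 / 2) * (mul_nonneg (sub_nonneg.mpr h) (sub_nonneg.mpr b1)) +
    (mul_nonneg (sub_nonneg.mpr h) (sub_nonneg.mpr t1)) + (mul_nonneg (sub_nonneg.mpr h) (sub_nonneg.mpr k2)) +
    (86603 / 100000) * (mul_nonneg (sub_nonneg.mpr h) (sub_nonneg.mpr pb)) + (mul_nonneg (sub_nonneg.mpr t1) (sub_nonneg.mpr t2))
  have gz : 985 / 1000 ≤ g (8 / 25 * s - t) := by
    have := g_sq (r := 8 / 25 * s - t) (by linear_combination z2)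
    have := g_nonneg (8 / 25 * s - t)
    exact not_lt.mp (fun hg__ => absurd t1 (not_le.mpr (by linear_combination (3078125 / 166447) * hg__ + (320000 / 166447) * y2 - (3125000 / 166447) * (‹g (8 / 25 * s - t) ^ 2 = 1 - (8 / 25 * s - t) ^ 2›) + (80000 / 9791) * (mul_nonneg (sub_nonneg.mpr s1) (sub_nonneg.mpr t1)) + (165000 / 9791) * (mul_nonneg (sub_nonneg.mpr t1) (sub_nonneg.mpr t2)) + (3125000 / 166447) * (mul_nonneg (sub_nonneg.mpr (le_of_lt hg__)) (sub_nonneg.mpr this)))))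
  have gd : 985 / 1000 ≤ g (8 / 25 * s) := by
    have := g_sq (r := 8 / 25 * s) (by linear_combination (64 / 289) * (sq_nonneg (8 / 25 * s - t)) + (33920 / 125137) * y2 +
      (50000 / 7361) * (mul_nonneg (sub_nonneg.mpr (sq_nonneg (8 / 25 * s))) (sub_nonneg.mpr hE)) +
      (1000 / 433) * (mul_nonneg (sub_nonneg.mpr (sq_nonneg (8 / 25 * s))) (sub_nonneg.mpr s1)) +
      (25000 / 7361) * (mul_nonneg (sub_nonneg.mpr (sq_nonneg (8 / 25 * s))) (sub_nonneg.mpr b1)) +
      (50000 / 7361) * (mul_nonneg (sub_nonneg.mpr (sq_nonneg (8 / 25 * s))) (sub_nonneg.mpr k3)) +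
      (64000 / 125137) * (mul_nonneg (sub_nonneg.mpr (sq_nonneg (s - t))) (sub_nonneg.mpr s2)) +
      (64000 / 125137) * (mul_nonneg (sub_nonneg.mpr (sq_nonneg (8 / 25 * s - t))) (sub_nonneg.mpr s1)))
    have := g_nonneg (8 / 25 * s)
    exact not_lt.mp (fun hg__ => absurd s2 (not_le.mpr (by linear_combination (615625 / 61632) * hg__ - (78125 / 7704) * (‹g (8 / 25 * s) ^ 2 = 1 - (8 / 25 * s) ^ 2›) + (1000 / 963) * (mul_nonneg (sub_nonneg.mpr s1) (sub_nonneg.mpr s2)) + (78125 / 7704) * (mul_nonneg (sub_nonneg.mpr (le_of_lt hg__)) (sub_nonneg.mpr this)))))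
  have gs : g s ≤ 9015 / 10000 := by
    have := g_sq (r := s) (by linear_combination (625 / 289) * (sq_nonneg (8 / 25 * s - t)) + (331250 / 125137) * y2 +
      (50000 / 7361) * (mul_nonneg (sub_nonneg.mpr (sq_nonneg (s))) (sub_nonneg.mpr hE)) +
      (1000 / 433) * (mul_nonneg (sub_nonneg.mpr (sq_nonneg (s))) (sub_nonneg.mpr s1)) + (25000 / 7361) * (mul_nonneg (sub_nonneg.mpr (sq_nonneg (s))) (sub_nonneg.mpr b1)) +
      (50000 / 7361) * (mul_nonneg (sub_nonneg.mpr (sq_nonneg (s))) (sub_nonneg.mpr k3)) +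
      (625000 / 125137) * (mul_nonneg (sub_nonneg.mpr (sq_nonneg (s - t))) (sub_nonneg.mpr s2)) +
      (625000 / 125137) * (mul_nonneg (sub_nonneg.mpr (sq_nonneg (8 / 25 * s - t))) (sub_nonneg.mpr s1)))
    have := g_nonneg s
    exact not_lt.mp (fun hg__ => absurd s1 (not_le.mpr (by linear_combination (1803 / 866) * hg__ + (500 / 433) * (‹g s ^ 2 = 1 - s ^ 2›) + (500 / 433) * (mul_nonneg (sub_nonneg.mpr s1) (sub_nonneg.mpr s1)) + (500 / 433) * (mul_pos (sub_pos.mpr hg__) (sub_pos.mpr hg__)))))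
  have gs0 := g_nonneg s
  -- the two sums
  have p1 := tan_low (x := s - t) (v := s - t - b / 2 - k) (by linear_combination y2)
    (by linear_combination (963 / 1250) * h + (133 / 200) * s2 + (8393 / 8000) * b1 + (mul_nonneg (sub_nonneg.mpr hb) (sub_nonneg.mpr h)) +
      (9 / 8) * (mul_nonneg (sub_nonneg.mpr hb) (sub_nonneg.mpr s1)) + (mul_nonneg (sub_nonneg.mpr hb) (sub_nonneg.mpr b1)) +
      (mul_nonneg (sub_nonneg.mpr hE) (sub_nonneg.mpr h)) + (25 / 8) * (mul_nonneg (sub_nonneg.mpr hE) (sub_nonneg.mpr s2)) +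
      (289 / 200) * (mul_nonneg (sub_nonneg.mpr h) (sub_nonneg.mpr s2)))
  have p2 := tan_low (x := s - t) (v := s - t + b / 2 - k) (by linear_combination y2)
    (by linear_combination (88337 / 24000) * (sq_nonneg (b)) + (1263 / 1250) * h + (181 / 200) * s2 +
      (mul_nonneg (sub_nonneg.mpr hb) (sub_nonneg.mpr hE)) + (561 / 200) * (mul_nonneg (sub_nonneg.mpr hb) (sub_nonneg.mpr s1)) +
      (112337 / 24000) * (mul_nonneg (sub_nonneg.mpr hb) (sub_nonneg.mpr b1)) + (mul_nonneg (sub_nonneg.mpr hE) (sub_nonneg.mpr h)) +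
      (25 / 8) * (mul_nonneg (sub_nonneg.mpr hE) (sub_nonneg.mpr s2)) + (289 / 200) * (mul_nonneg (sub_nonneg.mpr h) (sub_nonneg.mpr s2)))
  have q1 : ph (s - t - b / 2 - k) + ph (s - t + b / 2 - k) - 2 * ph (s - t) ≥
      -(12504 / 10000) * k := by
    have e : g (s - t) * (ph (s - t - b / 2 - k) + ph (s - t + b / 2 - k) - 2 * ph (s - t)) ≥
        -(2 * k * (s - t)) := by linear_combination p1 + p2
    by_contra hc
    push Not at hc
    have h1 : g (s - t) * (ph (s - t - b / 2 - k) + ph (s - t + b / 2 - k) - 2 * ph (s - t)) ≤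
        g (s - t) * (-(12504 / 10000) * k) := mul_le_mul_of_nonneg_left hc.le (by linear_combination gy)
    have h2 : g (s - t) * (ph (s - t - b / 2 - k) + ph (s - t + b / 2 - k) - 2 * ph (s - t)) <
        g (s - t) * (-(12504 / 10000) * k) := mul_lt_mul_of_pos_left hc (by linear_combination gy)
    have h3 : k * (2 * (s - t)) ≤ k * (12504 / 10000 * g (s - t)) :=
      mul_le_mul_of_nonneg_left (by linear_combination 2 * s2 + 2 * t1 + (1563 / 1250) * gy) k3
    exact absurd h2 (not_lt.mpr (by linear_combination p1 + p2 + h3))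
  have p3 := tan_low (x := 8 / 25 * s - t) (v := 8 / 25 * s - t - b / 2 - k) (by linear_combination z2)
    (by linear_combination (31 / 625) * h + (248 / 15625) * s2 + (137 / 625) * b1 + (mul_nonneg (sub_nonneg.mpr hb) (sub_nonneg.mpr h)) +
      (8 / 25) * (mul_nonneg (sub_nonneg.mpr hb) (sub_nonneg.mpr s2)) + (mul_nonneg (sub_nonneg.mpr hb) (sub_nonneg.mpr b1)) +
      (mul_nonneg (sub_nonneg.mpr hE) (sub_nonneg.mpr h)) + (8 / 25) * (mul_nonneg (sub_nonneg.mpr hE) (sub_nonneg.mpr s2)))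
  have p4 := tan_low (x := 8 / 25 * s - t) (v := 8 / 25 * s - t + b / 2 - k) (by linear_combination z2)
    (by linear_combination (181 / 625) * h + (1448 / 15625) * s2 + (106 / 625) * b1 + (mul_nonneg (sub_nonneg.mpr hb) (sub_nonneg.mpr hE)) +
      (mul_nonneg (sub_nonneg.mpr hb) (sub_nonneg.mpr b1)) + (mul_nonneg (sub_nonneg.mpr hE) (sub_nonneg.mpr h)) +
      (8 / 25) * (mul_nonneg (sub_nonneg.mpr hE) (sub_nonneg.mpr s2)))
  have q2 : ph (8 / 25 * s - t - b / 2 - k) + ph (8 / 25 * s - t + b / 2 - k) -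
      2 * ph (8 / 25 * s - t) ≥ -(3450 / 10000) * k := by
    have e : g (8 / 25 * s - t) * (ph (8 / 25 * s - t - b / 2 - k) +
        ph (8 / 25 * s - t + b / 2 - k) - 2 * ph (8 / 25 * s - t)) ≥
        -(2 * k * (8 / 25 * s - t)) := by linear_combination p3 + p4
    by_contra hc
    push Not at hc
    have h2 : g (8 / 25 * s - t) * (ph (8 / 25 * s - t - b / 2 - k) +
        ph (8 / 25 * s - t + b / 2 - k) - 2 * ph (8 / 25 * s - t)) <
        g (8 / 25 * s - t) * (-(3450 / 10000) * k) := mul_lt_mul_of_pos_left hc (by linear_combination gz)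
    have h3 : k * (2 * (8 / 25 * s - t)) ≤ k * (3450 / 10000 * g (8 / 25 * s - t)) :=
      mul_le_mul_of_nonneg_left (by linear_combination (16 / 25) * s2 + 2 * t1 + (69 / 200) * gz) k3
    exact absurd h2 (not_lt.mpr (by linear_combination p3 + p4 + h3))
  have d1 := ph_diff (x := s) (z := s - t) (by linear_combination (625 / 289) * (sq_nonneg (8 / 25 * s - t)) + (331250 / 125137) * y2 +
    (50000 / 7361) * (mul_nonneg (sub_nonneg.mpr (sq_nonneg (s))) (sub_nonneg.mpr hE)) +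
    (1000 / 433) * (mul_nonneg (sub_nonneg.mpr (sq_nonneg (s))) (sub_nonneg.mpr s1)) + (25000 / 7361) * (mul_nonneg (sub_nonneg.mpr (sq_nonneg (s))) (sub_nonneg.mpr b1)) +
    (50000 / 7361) * (mul_nonneg (sub_nonneg.mpr (sq_nonneg (s))) (sub_nonneg.mpr k3)) +
    (625000 / 125137) * (mul_nonneg (sub_nonneg.mpr (sq_nonneg (s - t))) (sub_nonneg.mpr s2)) +
    (625000 / 125137) * (mul_nonneg (sub_nonneg.mpr (sq_nonneg (8 / 25 * s - t))) (sub_nonneg.mpr s1))) (by linear_combination y2)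
  have d2 := ph_diff (x := 8 / 25 * s) (z := 8 / 25 * s - t) (by linear_combination (64 / 289) * (sq_nonneg (8 / 25 * s - t)) + (33920 / 125137) * y2 +
    (50000 / 7361) * (mul_nonneg (sub_nonneg.mpr (sq_nonneg (8 / 25 * s))) (sub_nonneg.mpr hE)) +
    (1000 / 433) * (mul_nonneg (sub_nonneg.mpr (sq_nonneg (8 / 25 * s))) (sub_nonneg.mpr s1)) +
    (25000 / 7361) * (mul_nonneg (sub_nonneg.mpr (sq_nonneg (8 / 25 * s))) (sub_nonneg.mpr b1)) +
    (50000 / 7361) * (mul_nonneg (sub_nonneg.mpr (sq_nonneg (8 / 25 * s))) (sub_nonneg.mpr k3)) +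
    (64000 / 125137) * (mul_nonneg (sub_nonneg.mpr (sq_nonneg (s - t))) (sub_nonneg.mpr s2)) +
    (64000 / 125137) * (mul_nonneg (sub_nonneg.mpr (sq_nonneg (8 / 25 * s - t))) (sub_nonneg.mpr s1))) (by linear_combination z2)
  have X1 : 0 ≤ ph s - ph (s - t) := by
    have := ph_mono (a := s - t) (b := s) (by linear_combination s1 + t2) (by linear_combination t1)
    linear_combination this
  have X2 : 0 ≤ ph (8 / 25 * s) - ph (8 / 25 * s - t) := by
    have := ph_mono (a := 8 / 25 * s - t) (b := 8 / 25 * s) (by linear_combination hE + (1 / 2) * b1 + k3) (by linear_combination t1)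
    linear_combination this
  have f1 : t * (2 * s - t) ≤ 19015 / 10000 * (ph s - ph (s - t)) := by
    have := mul_le_mul_of_nonneg_right (show g s + g (s - t) ≤ 19015 / 10000 by linear_combination gs1 + gs) X1
    linear_combination -d1 + this
  have f2 : 1970 / 1000 * (ph (8 / 25 * s) - ph (8 / 25 * s - t)) ≤ t * (16 / 25 * s - t) := by
    have := mul_le_mul_of_nonneg_right
      (show 1970 / 1000 ≤ g (8 / 25 * s) + g (8 / 25 * s - t) by linear_combination gz + gd) X2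
    linear_combination d2 + this
  have f3 : 62 / 100 * t ≤ 2 * (ph s - ph (s - t)) -
      2 * (ph (8 / 25 * s) - ph (8 / 25 * s - t)) := by
    have m1 : 433 / 1000 * t ≤ s * t := mul_le_mul_of_nonneg_right s1 t1
    have m2 : t * t ≤ 1506 / 10000 * t := mul_le_mul_of_nonneg_right t2 t1
    linear_combination (751417 / 12028889) * X2 + (4000 / 3803) * f1 + (12593500 / 12028889) * f2 +
      (17244160 / 12028889) * m1 + (58500 / 12028889) * m2
  have f4 : 0 ≤ b * (3 / 25 - b) := mul_nonneg b1 (by linear_combination hb)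
  linear_combination (31 / 50) * h + (9248798353433 / 125000000000000) * b1 + (11077 / 5000) * k2 +
    c2 + c3 + (1959301431 / 500000000) * pb + q1 + q2 + f3 + (9833733882189 / 5000000000000) * f4

theorem corner2 (R : Reg s b t k G2 G3) (hb : b ≤ 3 / 25) (hE : t + b / 2 + k ≤ 8 / 25 * s)
    (h : 0 ≤ -t + b / 2 - k) : 4 * ph (s - t) - 2 * ph s ≤ G2 + G3 := by
  have s1 := R.s1
  have s2 := R.s2
  have b1 := R.b1
  have t1 := R.t1
  have t2 := R.t2
  have k3 := R.k3
  have k2 := R.k2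
  have hl := R.h1
  have c2 := R.k23 (by linear_combination h + s1)
  have c3 := R.l10 (by linear_combination h + (8 / 25) * s1) (by linear_combination hE + (17 / 25) * s1)
  have pb := ph_b b1 hb
  have pb0 := ph_nonneg b
  have gs : g s ≤ 9015 / 10000 := by
    have := g_sq (r := s) (by linear_combination (97 / 320) * h + (181 / 200) * s2 + (97 / 160) * t1 + (97 / 160) * k3 +
      (25 / 8) * (mul_nonneg (sub_nonneg.mpr hb) (sub_nonneg.mpr s1)) + (25 / 8) * (mul_nonneg (sub_nonneg.mpr hE) (sub_nonneg.mpr s2)) +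
      (25 / 8) * (mul_nonneg (sub_nonneg.mpr h) (sub_nonneg.mpr s1)))
    have := g_nonneg s
    exact not_lt.mp (fun hg__ => absurd s1 (not_le.mpr (by linear_combination (1803 / 866) * hg__ + (500 / 433) * (‹g s ^ 2 = 1 - s ^ 2›) + (500 / 433) * (mul_nonneg (sub_nonneg.mpr s1) (sub_nonneg.mpr s1)) + (500 / 433) * (mul_pos (sub_pos.mpr hg__) (sub_pos.mpr hg__)))))
  have gs' : 8479 / 10000 ≤ g s := by
    have := g_sq (r := s) (by linear_combination (97 / 320) * h + (181 / 200) * s2 + (97 / 160) * t1 + (97 / 160) * k3 +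
      (25 / 8) * (mul_nonneg (sub_nonneg.mpr hb) (sub_nonneg.mpr s1)) + (25 / 8) * (mul_nonneg (sub_nonneg.mpr hE) (sub_nonneg.mpr s2)) +
      (25 / 8) * (mul_nonneg (sub_nonneg.mpr h) (sub_nonneg.mpr s1)))
    have := g_nonneg s
    exact not_lt.mp (fun hg__ => absurd s2 (not_le.mpr (by linear_combination (8479 / 9630) * hg__ - (1000 / 963) * (‹g s ^ 2 = 1 - s ^ 2›) + (1000 / 963) * (mul_nonneg (sub_nonneg.mpr s1) (sub_nonneg.mpr s2)) + (1000 / 963) * (mul_nonneg (sub_nonneg.mpr (le_of_lt hg__)) (sub_nonneg.mpr this)))))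
  have gd : g s ≤ g (8 / 25 * s) := g_anti (by linear_combination (8 / 25) * s1) (by linear_combination (17 / 25) * s1)
  obtain ⟨m, hm⟩ : ∃ m, m = s / g s := ⟨_, rfl⟩
  have hmg : m * g s = s := by
    rw [hm]
    exact div_mul_cancel₀ _ (by linarith)
  have m1 : 480 / 1000 ≤ m := by
    by_contra hc
    push Not at hc
    exact absurd gs (not_le.mpr (by linear_combination (25 / 12) * s1 - (25 / 12) * hmg + (8479 / 4800) * hc + (25 / 12) * (mul_nonneg (sub_nonneg.mpr gs') (sub_nonneg.mpr (le_of_lt hc)))))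
  have m2 : m ≤ 626 / 1000 := by
    by_contra hc
    push Not at hc
    exact absurd hc (not_lt.mpr (by linear_combination (10000 / 8479) * s2 + (4800 / 8479) * gs' + (10000 / 8479) * hmg + (10000 / 8479) * (mul_nonneg (sub_nonneg.mpr gs') (sub_nonneg.mpr m1))))
  -- tangents
  have p1 := tan_low (x := s) (v := s - t - b / 2 - k) (by linear_combination (97 / 320) * h + (181 / 200) * s2 + (97 / 160) * t1 + (97 / 160) * k3 +
    (25 / 8) * (mul_nonneg (sub_nonneg.mpr hb) (sub_nonneg.mpr s1)) + (25 / 8) * (mul_nonneg (sub_nonneg.mpr hE) (sub_nonneg.mpr s2)) +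
    (25 / 8) * (mul_nonneg (sub_nonneg.mpr h) (sub_nonneg.mpr s1))) (by linear_combination (3421 / 5000) * s2 + (8873 / 16000) * b1 + (194113 / 200000) * t1 +
    (194113 / 200000) * k3 + (257 / 200) * (mul_nonneg (sub_nonneg.mpr hb) (sub_nonneg.mpr s1)) +
    (1 / 4) * (mul_nonneg (sub_nonneg.mpr hb) (sub_nonneg.mpr b1)) + (1 / 2) * (mul_nonneg (sub_nonneg.mpr hb) (sub_nonneg.mpr t1)) +
    (1 / 2) * (mul_nonneg (sub_nonneg.mpr hb) (sub_nonneg.mpr k3)) + (25 / 8) * (mul_nonneg (sub_nonneg.mpr hE) (sub_nonneg.mpr s2)) +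
    (mul_nonneg (sub_nonneg.mpr hE) (sub_nonneg.mpr t1)) + (mul_nonneg (sub_nonneg.mpr hE) (sub_nonneg.mpr k3)) +
    (289 / 200) * (mul_nonneg (sub_nonneg.mpr h) (sub_nonneg.mpr s1)))
  have p2 := tan_low (x := s) (v := s - t + b / 2 - k) (by linear_combination (97 / 320) * h + (181 / 200) * s2 + (97 / 160) * t1 + (97 / 160) * k3 +
    (25 / 8) * (mul_nonneg (sub_nonneg.mpr hb) (sub_nonneg.mpr s1)) + (25 / 8) * (mul_nonneg (sub_nonneg.mpr hE) (sub_nonneg.mpr s2)) +
    (25 / 8) * (mul_nonneg (sub_nonneg.mpr h) (sub_nonneg.mpr s1))) (by linear_combination (96863 / 400000) * hb + (4621 / 5000) * s2 + (242113 / 200000) * t1 +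
    (242113 / 200000) * k3 + (1 / 2) * (mul_nonneg (sub_nonneg.mpr hb) (sub_nonneg.mpr hE)) +
    (mul_nonneg (sub_nonneg.mpr hb) (sub_nonneg.mpr h)) + (25 / 8) * (mul_nonneg (sub_nonneg.mpr hb) (sub_nonneg.mpr s1)) +
    (25 / 8) * (mul_nonneg (sub_nonneg.mpr hE) (sub_nonneg.mpr s2)) + (mul_nonneg (sub_nonneg.mpr hE) (sub_nonneg.mpr t1)) +
    (mul_nonneg (sub_nonneg.mpr hE) (sub_nonneg.mpr k3)) + (289 / 200) * (mul_nonneg (sub_nonneg.mpr h) (sub_nonneg.mpr s1)))
  have p3 := tan_low (x := 8 / 25 * s) (v := 8 / 25 * s - t - b / 2 - k) (by linear_combination (97 / 3125) * h + (1448 / 15625) * s2 + (194 / 3125) * t1 + (194 / 3125) * k3 +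
    (8 / 25) * (mul_nonneg (sub_nonneg.mpr hb) (sub_nonneg.mpr s1)) + (8 / 25) * (mul_nonneg (sub_nonneg.mpr hE) (sub_nonneg.mpr s2)) +
    (8 / 25) * (mul_nonneg (sub_nonneg.mpr h) (sub_nonneg.mpr s1)))
    (by linear_combination (548 / 15625) * s2 + (349 / 2500) * b1 + (137 / 1250) * t1 + (137 / 1250) * k3 +
      (4 / 25) * (mul_nonneg (sub_nonneg.mpr hb) (sub_nonneg.mpr s2)) + (1 / 4) * (mul_nonneg (sub_nonneg.mpr hb) (sub_nonneg.mpr b1)) +
      (1 / 2) * (mul_nonneg (sub_nonneg.mpr hb) (sub_nonneg.mpr t1)) + (1 / 2) * (mul_nonneg (sub_nonneg.mpr hb) (sub_nonneg.mpr k3)) +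
      (8 / 25) * (mul_nonneg (sub_nonneg.mpr hE) (sub_nonneg.mpr s2)) + (mul_nonneg (sub_nonneg.mpr hE) (sub_nonneg.mpr t1)) +
      (mul_nonneg (sub_nonneg.mpr hE) (sub_nonneg.mpr k3)))
  have hq0 := h0_sq
  have hz := R.hz
  have p4 := tan_low (x := h0) (v := h0 - t + b / 2 - k) (by linear_combination hq0) (by linear_combination hb + 2 * t1 + 2 * k3 + hq0 + (mul_nonneg (sub_nonneg.mpr h) (sub_nonneg.mpr h)) +
    2 * (mul_nonneg (sub_nonneg.mpr h) (sub_nonneg.mpr hz)))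
  have p5 := tan_low (x := s) (v := s - t) (by linear_combination (97 / 320) * h + (181 / 200) * s2 + (97 / 160) * t1 + (97 / 160) * k3 +
    (25 / 8) * (mul_nonneg (sub_nonneg.mpr hb) (sub_nonneg.mpr s1)) + (25 / 8) * (mul_nonneg (sub_nonneg.mpr hE) (sub_nonneg.mpr s2)) +
    (25 / 8) * (mul_nonneg (sub_nonneg.mpr h) (sub_nonneg.mpr s1))) (by linear_combination (1823 / 8000) * h + (181 / 200) * s2 + (41433 / 20000) * t1 + (5889 / 4000) * k3 +
    (25 / 8) * (mul_nonneg (sub_nonneg.mpr hb) (sub_nonneg.mpr hE)) + (25 / 8) * (mul_nonneg (sub_nonneg.mpr hb) (sub_nonneg.mpr h)) +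
    (17 / 8) * (mul_nonneg (sub_nonneg.mpr hb) (sub_nonneg.mpr s1)) + (25 / 4) * (mul_nonneg (sub_nonneg.mpr hb) (sub_nonneg.mpr k3)) +
    (25 / 8) * (mul_nonneg (sub_nonneg.mpr hE) (sub_nonneg.mpr s2)) + (25 / 4) * (mul_nonneg (sub_nonneg.mpr hE) (sub_nonneg.mpr t1)) +
    (25 / 8) * (mul_nonneg (sub_nonneg.mpr h) (sub_nonneg.mpr s1)) + (25 / 4) * (mul_nonneg (sub_nonneg.mpr h) (sub_nonneg.mpr t2)) +
    (mul_nonneg (sub_nonneg.mpr t1) (sub_nonneg.mpr t2)))
  rw [g_h0] at p4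
  have ph0 : ph h0 = 1 / 2 := by
    unfold Four.Low.ph
    rw [g_h0]
    norm_num
  rw [ph0] at p4
  have hp : 0 < g s := by linear_combination gs'
  have dv : ∀ {A B : ℝ}, g s * A ≤ g s * B → A ≤ B := fun {A B} h => le_of_mul_le_mul_left h hp
  have q1 : -(m * (t + b / 2 + k)) ≤ ph (s - t - b / 2 - k) - ph s := dv (by
    have : g s * -(m * (t + b / 2 + k)) = -(m * g s * (t + b / 2 + k)) := by ring
    rw [this, hmg]
    linear_combination p1)
  have q2 : m * (-t + b / 2 - k) ≤ ph (s - t + b / 2 - k) - ph s := dv (by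
    have : g s * (m * (-t + b / 2 - k)) = m * g s * (-t + b / 2 - k) := by ring
    rw [this, hmg]
    linear_combination p2)
  have q5 : -(m * t) ≤ ph (s - t) - ph s := dv (by
    have : g s * -(m * t) = -(m * g s * t) := by ring
    rw [this, hmg]
    linear_combination p5)
  have W0 : 0 ≤ t + b / 2 + k := by linear_combination (1 / 2) * b1 + t1 + k3
  have q3 : -(8 / 25 * m * (t + b / 2 + k)) ≤
      ph (8 / 25 * s - t - b / 2 - k) - ph (8 / 25 * s) := by
    by_contra hc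
    push Not at hc
    have e1 : g (8 / 25 * s) * (ph (8 / 25 * s - t - b / 2 - k) - ph (8 / 25 * s)) <
        g (8 / 25 * s) * -(8 / 25 * m * (t + b / 2 + k)) :=
      mul_lt_mul_of_pos_left hc (by linear_combination gd + hp)
    have e2 : g s * (8 / 25 * m * (t + b / 2 + k)) ≤
        g (8 / 25 * s) * (8 / 25 * m * (t + b / 2 + k)) :=
      mul_le_mul_of_nonneg_right gd (mul_nonneg (by linear_combination (8 / 25) * m1) W0)
    have e3 : g s * (8 / 25 * m * (t + b / 2 + k)) = 8 / 25 * (m * g s) * (t + b / 2 + k) := by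
      ring
    rw [hmg] at e3
    exact absurd e1 (not_lt.mpr (by linear_combination p3 + e2 - e3))
  -- the difference
  have d1 := ph_diff (x := s) (z := s - t) (by linear_combination (1605 / 128) * (sq_nonneg (b)) + (181 / 200) * s2 + (97 / 320) * t1 +
    (97 / 320) * k3 + (625 / 64) * (mul_nonneg (sub_nonneg.mpr hb) (sub_nonneg.mpr hE)) +
    (1115 / 64) * (mul_nonneg (sub_nonneg.mpr hb) (sub_nonneg.mpr b1)) + (625 / 64) * (mul_nonneg (sub_nonneg.mpr hb) (sub_nonneg.mpr t1)) +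
    (625 / 64) * (mul_nonneg (sub_nonneg.mpr hb) (sub_nonneg.mpr k3)) + (25 / 8) * (mul_nonneg (sub_nonneg.mpr hE) (sub_nonneg.mpr s2)) +
    (25 / 8) * (mul_nonneg (sub_nonneg.mpr h) (sub_nonneg.mpr s1))) (by linear_combination (45575 / 103424) * (sq_nonneg (b)) + (181 / 200) * s2 + (73751 / 40000) * t1 +
    (1991 / 1600) * k3 + (277625 / 103424) * (mul_nonneg (sub_nonneg.mpr hb) (sub_nonneg.mpr hE)) +
    (368775 / 103424) * (mul_nonneg (sub_nonneg.mpr hb) (sub_nonneg.mpr h)) + (29295 / 12928) * (mul_nonneg (sub_nonneg.mpr hb) (sub_nonneg.mpr s1)) +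
    (25 / 4) * (mul_nonneg (sub_nonneg.mpr hb) (sub_nonneg.mpr k3)) + (25 / 8) * (mul_nonneg (sub_nonneg.mpr hE) (sub_nonneg.mpr s2)) +
    (25 / 4) * (mul_nonneg (sub_nonneg.mpr hE) (sub_nonneg.mpr t1)) + (25 / 8) * (mul_nonneg (sub_nonneg.mpr h) (sub_nonneg.mpr s1)) +
    (25 / 4) * (mul_nonneg (sub_nonneg.mpr h) (sub_nonneg.mpr t2)) + (mul_nonneg (sub_nonneg.mpr t1) (sub_nonneg.mpr t2)))
  have X1 : 0 ≤ ph s - ph (s - t) := by
    have := ph_mono (a := s - t) (b := s) (by linear_combination s1 + t2) (by linear_combination t1)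
    linear_combination this
  have q6 : m * t - 83 / 100 * t ^ 2 ≤ ph s - ph (s - t) := by
    have e1 : g (s - t) ≤ g s + m * t := by
      unfold Four.Low.ph at q5
      linear_combination q5
    have e2 : t * (2 * s - t) ≤ (2 * g s + m * t) * (ph s - ph (s - t)) := by
      have := mul_le_mul_of_nonneg_right
        (show g s + g (s - t) ≤ 2 * g s + m * t by linear_combination e1) X1
      linear_combination -d1 + this
    have e3 : (2 * g s + m * t) * (m * t - 83 / 100 * t ^ 2) ≤ t * (2 * s - t) := by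
      have e4 : (2 * g s + m * t) * (m * t - 83 / 100 * t ^ 2) = 2 * (m * g s) * t +
          t ^ 2 * (m ^ 2 - 166 / 100 * g s) - 83 / 100 * m * t ^ 3 := by ring
      rw [e4, hmg]
      have e5 : m ^ 2 - 166 / 100 * g s ≤ -1 := by linear_combination (6260 / 8479) * s2 + (83 / 50) * gs' + (4800 / 8479) * hmg + (4330 / 8479) * m2 +
        (10000 / 8479) * (mul_nonneg (sub_nonneg.mpr (sq_nonneg (m))) (sub_nonneg.mpr gs')) +
        (10000 / 8479) * (mul_nonneg (sub_nonneg.mpr s1) (sub_nonneg.mpr m2)) + (10000 / 8479) * (mul_nonneg (sub_nonneg.mpr (le_of_eq hmg)) (sub_nonneg.mpr m1))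
      have e6 := mul_le_mul_of_nonneg_left e5 (sq_nonneg t)
      have e7 : 0 ≤ 83 / 100 * m * t ^ 3 := by positivity
      linear_combination e6 + e7
    exact le_of_mul_le_mul_left (e3.trans e2) (by linear_combination 2 * hp + q5 + X1)
  have r1 : t ^ 2 ≤ t * (b / 2) := by linear_combination (mul_nonneg (sub_nonneg.mpr h) (sub_nonneg.mpr t1)) + (mul_nonneg (sub_nonneg.mpr t1) (sub_nonneg.mpr k3))
  have r2 : h0 * (-t + b / 2 - k) ≥ 86602 / 100000 * (-t + b / 2 - k) :=
    mul_le_mul_of_nonneg_right hl h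
  have r3 : m * (-t + b / 2 - k) ≤ 626 / 1000 * (-t + b / 2 - k) :=
    mul_le_mul_of_nonneg_right m2 h
  -- the main inequality
  have F : 4 * ph (s - t) - 2 * ph s + (t * (136 / 100 * m - 166 / 100 * b) +
      (-t + b / 2 - k) * (173204 / 100000 - 8 / 25 * m) - 2 * ph b - 264 / 100 * m * k) ≤
        G2 + G3 := by linear_combination c2 + c3 + 2 * p4 + q1 + q2 + q3 + 4 * q6 + (83 / 25) * r1 + 2 * r2
  have F2 : (b / 2 - k) * (136 / 100 * m - 166 / 100 * b) ≤ t * (136 / 100 * m - 166 / 100 * b) +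
      (-t + b / 2 - k) * (173204 / 100000 - 8 / 25 * m) := by
    have := mul_nonneg h (show 0 ≤ (173204 / 100000 - 8 / 25 * m) -
      (136 / 100 * m - 166 / 100 * b) by linear_combination (83 / 50) * b1 + (42 / 25) * m2)
    linear_combination this
  have k5 : k ≤ 4347 / 10000 * b ^ 2 := by linear_combination (1883 / 20698117) * k3 + (20700000 / 20698117) * k2 + (207 / 239) * pb
  have F3 : 480 / 1000 * (68 / 100 * b - 4 * k) ≤ m * (68 / 100 * b - 4 * k) :=
    mul_le_mul_of_nonneg_right m1 (by linear_combination (2946018629 / 750000000) * (sq_nonneg (b)) + 4 * k2 + (86603 / 25000) * pb +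
      (17 / 3) * (mul_nonneg (sub_nonneg.mpr hb) (sub_nonneg.mpr b1)))
  have f4 : 0 ≤ b * (3 / 25 - b) := mul_nonneg b1 (by linear_combination hb)
  have f5 : 0 ≤ b * k := mul_nonneg b1 k3
  linear_combination (3873894192 / 279900465725) * h + (3873894192 / 279900465725) * t1 +
    (21341400000 / 11196018629) * k2 + c2 + c3 + (40874329900 / 11196018629) * pb + 2 * p4 +
    q1 + q2 + q3 + 4 * q6 + (83 / 25) * r1 + 2 * r2 + F2 + F3 + (745188040972 / 279900465725) * f4 +
    (83 / 50) * f5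

/-- The corner of the window. -/
theorem corner (R : Reg s b t k G2 G3) (hb : b ≤ 3 / 25) (hE : t + b / 2 + k ≤ 8 / 25 * s) :
    4 * ph (s - t) - 2 * ph s ≤ G2 + G3 := by
  rcases le_total (-t + b / 2 - k) 0 with h | h
  · exact corner1 R hb hE h
  · exact corner2 R hb hE h

end

end Pool.Agent.Strip051.FourC.LA
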