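import Pool.Agent.Strip051.Two.Main
import Pool.Agent.Strip051.Four.Gain

/-! # Six probes of equal weight for the strip of height `2 h0 + s`, `433 / 1000 ≤ s ≤ 53 / 100`

The probes are the point of the floor, a unit arc at the floor, a body of four unit arcs and their
mirror images. -/

namespace Pool.Agent.Strip051.FourC

open Pool.Agent.StripNear Pool.Agent.StripSquare Pool.Agent.Strip051
open Pool.Agent.Strip051.Four (mirP j1 gn mirP_ok mirP_val mirP_gn mirP_mirP gam_neg arc_sub le_gn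
  gn_nonneg adm_low g_le_of_abs ext_facts)

/-- The body of the middle probe: four unit arcs. -/
noncomputable def a2 (s z : ℝ) : ℝ :=
  min (min (g (z - (h0 + s)) + (g (8 / 25 * s) - g s)) (g (z - (h0 + 8 / 25 * s))))
    (min (g (z - h0) + (1 - g (8 / 25 * s))) (g (z - s) + (g s + 1 / 2 - g (8 / 25 * s))))

/-- The middle probe. -/
noncomputable def j2 (s : ℝ) : Probe := ⟨s, s + 1, a2 s⟩

/-- The mirror image of the middle probe. -/
noncomputable def j3 (s : ℝ) : Probe := mirP (2 * h0 + s) (j2 s)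

/-- The point of the floor. -/
noncomputable def k0 : Probe := ⟨0, 0, fun _ => 0⟩

/-- The mirror image of the lower wall probe. -/
noncomputable def j4 (s t : ℝ) : Probe := mirP (2 * h0 + s) (j1 t)

/-- The point of the ceiling. -/
noncomputable def k5 (s : ℝ) : Probe := mirP (2 * h0 + s) k0

/-- The parameters. -/
structure Par (s t : ℝ) : Prop where
  s0 : 433 / 1000 ≤ s
  s1 : s ≤ 53 / 100
  t0 : 0 ≤ t
  ts : t ≤ s
  gt : 2 * g t = 1 + g s

/-- The gain of the probe `j` at the height `y` before the front `γ`. -/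
noncomputable def ga (j : Probe) (γ : ℝ → ℝ) (y : ℝ) : ℝ :=
  j.val (fun z => max (γ (z - y)) (g (z - y))) - j.val (fun z => γ (z - y))

theorem gn_eq (j : Probe) (r q y : ℝ) : gn j r q y = ga j (gam r q) y := rfl

theorem par_exists {s : ℝ} (h1 : 433 / 1000 ≤ s) (h2 : s ≤ 53 / 100) : ∃ t, Par s t := by
  have hc0 := g_nonneg s
  have hc1 := g_le_one s
  have hc := g_sq (r := s) (by linear_combination (963 / 1000) * h2 + (mul_nonneg (sub_nonneg.mpr h1) (sub_nonneg.mpr h2)))
  have hu := g_sq (r := (1 + g s) / 2) (by linear_combination (1 / 4) * (sq_nonneg (s)) + (1 / 2) * hc1 + (1 / 4) * hc)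
  refine ⟨g ((1 + g s) / 2), h1, h2, g_nonneg _, ?_, ?_⟩
  · apply abs_le_of_sq_le_sq' _ (by linear_combination h1) |>.2
    linear_combination -(9 / 8) * hc + hu + (mul_nonneg (sub_nonneg.mpr (sq_nonneg (g ((1 + g s) / 2)))) (sub_nonneg.mpr hc0)) +
      (1 / 2) * (mul_nonneg (sub_nonneg.mpr (sq_nonneg (g ((1 + g s) / 2)))) (sub_nonneg.mpr (le_of_eq hc))) +
      (1 / 4) * (mul_nonneg (sub_nonneg.mpr (sq_nonneg (s))) (sub_nonneg.mpr hc1)) + (1 / 2) * (mul_nonneg (sub_nonneg.mpr (sq_nonneg (s))) (sub_nonneg.mpr (ge_of_eq hu))) +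
      (1 / 8) * (mul_nonneg (sub_nonneg.mpr (sq_nonneg (g s))) (sub_nonneg.mpr (le_of_eq hc))) +
      (mul_nonneg (sub_nonneg.mpr (sq_nonneg (g s))) (sub_nonneg.mpr (ge_of_eq hu))) + 2 * (mul_nonneg (sub_nonneg.mpr (sq_nonneg ((1 + g s) / 2))) (sub_nonneg.mpr (le_of_eq hu)))
  · unfold g at *
    rw [show 1 - (√(1 - ((1 + √(1 - s ^ 2)) / 2) ^ 2)) ^ 2 = ((1 + √(1 - s ^ 2)) / 2) ^ 2 by
      rw [hu]; ring, Real.sqrt_sq (by positivity)]
    ring

/-! ### Mirror images -/

theorem mirP_ga (H : ℝ) (j : Probe) (γ : ℝ → ℝ) (y : ℝ) :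
    ga (mirP H j) γ y = ga j (fun v => γ (-v)) (H - y) := by
  unfold ga
  rw [mirP_val, mirP_val]
  have e1 : ∀ z, γ (H - z - y) = γ (-(z - (H - y))) := fun z => by
    congr 1
    ring
  have e2 : ∀ z, g (H - z - y) = g (z - (H - y)) := by
    intro z
    rw [← g_neg, show -(H - z - y) = z - (H - y) by ring]
  simp only [e1, e2]

theorem j2_gn (s r q y : ℝ) : gn (j3 s) r q y = gn (j2 s) q r (2 * h0 + s - y) :=
  mirP_gn _ _ _ _ _

theorem j3_gn (s r q y : ℝ) : gn (j2 s) r q y = gn (j3 s) q r (2 * h0 + s - y) := by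
  rw [j2_gn, sub_sub_cancel]

/-! ### The body -/

section

variable {s t z : ℝ}

theorem a2_le1 : a2 s z ≤ g (z - (h0 + s)) + (g (8 / 25 * s) - g s) :=
  (min_le_left _ _).trans (min_le_left _ _)

theorem a2_le2 : a2 s z ≤ g (z - (h0 + 8 / 25 * s)) :=
  (min_le_left _ _).trans (min_le_right _ _)

theorem a2_le3 : a2 s z ≤ g (z - h0) + (1 - g (8 / 25 * s)) :=
  (min_le_right _ _).trans (min_le_left _ _)

theorem a2_le4 : a2 s z ≤ g (z - s) + (g s + 1 / 2 - g (8 / 25 * s)) :=
  (min_le_right _ _).trans (min_le_right _ _)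

theorem arc12 (P : Par s t) (h1 : s ≤ z) (h2 : z ≤ h0) :
    g (z - (h0 + s)) + (g (8 / 25 * s) - g s) ≤ g (z - (h0 + 8 / 25 * s)) := by
  have hh := h0_lt
  have hg := h0_gt
  have := P.s0
  have := P.s1
  have e1 := arc_sub (a := h0 + 8 / 25 * s) (b := h0 + s) (x := z) (y := h0) (by linear_combination (17 / 25) * (‹433 / 1000 ≤ s›)) h2
    (by linear_combination h1 + hh) (by linear_combination (8 / 25) * (‹433 / 1000 ≤ s›))
  rw [show h0 - (h0 + 8 / 25 * s) = -(8 / 25 * s) by ring, show h0 - (h0 + s) = -s by ring,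
    g_neg, g_neg] at e1
  linear_combination e1

theorem arc21 (P : Par s t) (h1 : h0 ≤ z) (h2 : z ≤ s + 1) :
    g (z - (h0 + 8 / 25 * s)) ≤ g (z - (h0 + s)) + (g (8 / 25 * s) - g s) := by
  have hh := h0_lt
  have hg := h0_gt
  have := P.s0
  have := P.s1
  have e1 := arc_sub (a := h0 + 8 / 25 * s) (b := h0 + s) (x := h0) (y := z) (by linear_combination (17 / 25) * (‹433 / 1000 ≤ s›)) h1
    (by linear_combination this) (by linear_combination h2 + hg + (17 / 25) * this)
  rw [show h0 - (h0 + 8 / 25 * s) = -(8 / 25 * s) by ring, show h0 - (h0 + s) = -s by ring,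
    g_neg, g_neg] at e1
  linear_combination e1

theorem arc23 (P : Par s t) (h1 : s ≤ z) (h2 : z ≤ h0 + 8 / 25 * s) :
    g (z - (h0 + 8 / 25 * s)) ≤ g (z - h0) + (1 - g (8 / 25 * s)) := by
  have hh := h0_lt
  have hg := h0_gt
  have := P.s0
  have := P.s1
  have e1 := arc_sub (a := h0) (b := h0 + 8 / 25 * s) (x := z) (y := h0 + 8 / 25 * s)
    (by linear_combination (8 / 25) * (‹433 / 1000 ≤ s›)) h2 (by linear_combination h1 + hh + (17 / 25) * (‹433 / 1000 ≤ s›)) (by linear_combination (8 / 17) * h1 + (8 / 17) * h2 + (8 / 17) * hh)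
  rw [add_sub_cancel_left, sub_self, g_zero] at e1
  linear_combination e1

theorem arc32 (P : Par s t) (h1 : h0 + 8 / 25 * s ≤ z) (h2 : z ≤ s + 1) :
    g (z - h0) + (1 - g (8 / 25 * s)) ≤ g (z - (h0 + 8 / 25 * s)) := by
  have hh := h0_lt
  have hg := h0_gt
  have := P.s0
  have := P.s1
  have e1 := arc_sub (a := h0) (b := h0 + 8 / 25 * s) (x := h0 + 8 / 25 * s) (y := z)
    (by linear_combination (8 / 25) * (‹433 / 1000 ≤ s›)) h1 (by linear_combination) (by linear_combination h2 + hg + this)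
  rw [add_sub_cancel_left, sub_self, g_zero] at e1
  linear_combination e1

theorem arc34 (P : Par s t) (h1 : s ≤ z) (h2 : z ≤ h0 + s) :
    g (z - h0) + (1 - g (8 / 25 * s)) ≤ g (z - s) + (g s + 1 / 2 - g (8 / 25 * s)) := by
  have hh := h0_lt
  have hg := h0_gt
  have := P.s0
  have := P.s1
  have e1 := arc_sub (a := s) (b := h0) (x := z) (y := h0 + s) (by linear_combination hg + this) h2
    (by linear_combination h1 + hh + (‹433 / 1000 ≤ s›)) (by linear_combination hh)
  rw [add_sub_cancel_left, add_sub_cancel_right, g_h0] at e1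
  linear_combination e1

theorem arc43 (P : Par s t) (h1 : h0 + s ≤ z) (h2 : z ≤ s + 1) :
    g (z - s) + (g s + 1 / 2 - g (8 / 25 * s)) ≤ g (z - h0) + (1 - g (8 / 25 * s)) := by
  have hh := h0_lt
  have hg := h0_gt
  have := P.s0
  have := P.s1
  have e1 := arc_sub (a := s) (b := h0) (x := h0 + s) (y := z) (by linear_combination hg + this) h1
    (by linear_combination (‹433 / 1000 ≤ s›)) (by linear_combination h2)
  rw [add_sub_cancel_left, add_sub_cancel_right, g_h0] at e1
  linear_combination e1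

/-- The cell `[s, h0]`. -/
theorem a2_eq1 (P : Par s t) (h1 : s ≤ z) (h2 : z ≤ h0) :
    a2 s z = g (z - (h0 + s)) + (g (8 / 25 * s) - g s) := by
  have := P.s0
  have e1 := arc12 P h1 h2
  have e2 := arc23 P h1 (by linear_combination h2 + (8 / 25) * this)
  have e3 := arc34 P h1 (by linear_combination h2 + this)
  unfold a2
  rw [min_eq_left e1, min_eq_left e3, min_eq_left (by linear_combination e1 + e2)]

/-- The cell `[h0, h0 + 8 / 25 s]`. -/
theorem a2_eq2 (P : Par s t) (h1 : h0 ≤ z) (h2 : z ≤ h0 + 8 / 25 * s) :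
    a2 s z = g (z - (h0 + 8 / 25 * s)) := by
  have hh := h0_lt
  have hg := h0_gt
  have := P.s0
  have := P.s1
  have e1 := arc21 P h1 (by linear_combination (17 / 8) * h1 + (25 / 8) * h2 + hh)
  have e2 := arc23 P (by linear_combination h1 + hg + this) h2
  have e3 := arc34 P (z := z) (by linear_combination h1 + hg + this) (by linear_combination (17 / 8) * h1 + (25 / 8) * h2)
  unfold a2
  rw [min_eq_right e1, min_eq_left e3, min_eq_left (by linarith)]

/-- The cell `[h0 + 8 / 25 s, h0 + s]`. -/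
theorem a2_eq3 (P : Par s t) (h1 : h0 + 8 / 25 * s ≤ z) (h2 : z ≤ h0 + s) :
    a2 s z = g (z - h0) + (1 - g (8 / 25 * s)) := by
  have hh := h0_lt
  have hg := h0_gt
  have := P.s0
  have := P.s1
  have e1 := arc21 P (by linarith) (by linarith)
  have e2 := arc32 P h1 (by linear_combination h2 + hh)
  have e3 := arc34 P (by linear_combination h1 + hg + (17 / 25) * this) h2
  unfold a2
  rw [min_eq_right e1, min_eq_left e3, min_eq_right (by linarith)]

/-- The cell `[h0 + s, s + 1]`. -/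
theorem a2_eq4 (P : Par s t) (h1 : h0 + s ≤ z) (h2 : z ≤ s + 1) :
    a2 s z = g (z - s) + (g s + 1 / 2 - g (8 / 25 * s)) := by
  have hh := h0_lt
  have := P.s0
  have := P.s1
  have e1 := arc21 P (z := z) (by linear_combination h1 + (‹433 / 1000 ≤ s›)) (by linear_combination h2)
  have e2 := arc32 P (z := z) (by linear_combination h1 + (17 / 25) * (‹433 / 1000 ≤ s›)) (by linear_combination h2)
  have e3 := arc43 P h1 h2
  unfold a2
  rw [min_eq_right e1, min_eq_right e3, min_eq_right (by linear_combination e2 + e3)]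

end

/-! ### The probes lie in the strip -/

section

variable {s t : ℝ}

theorem k0_ok (P : Par s t) : k0.Ok (2 * h0 + s) := by
  have hh := h0_pos
  have := P.s0
  refine ⟨le_rfl, le_rfl, by simp only [k0]; linear_combination 2 * hh + this, 0, fun z _ _ => le_rfl⟩

theorem j1_ok (P : Par s t) : (j1 t).Ok (2 * h0 + s) := by
  have hh := h0_pos
  have := P.s0
  have := P.t0
  have := P.ts
  refine ⟨le_rfl, P.t0, by simp only [j1]; linear_combination 2 * hh + this, 1, fun z _ _ => g_le_one _⟩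

theorem j2_ok (P : Par s t) : (j2 s).Ok (2 * h0 + s) := by
  have hh := h0_gt
  have := P.s0
  refine ⟨by simp only [j2]; linear_combination this, by simp only [j2]; linear_combination, by simp only [j2]; linear_combination 2 * hh, 1,
    fun z _ _ => ?_⟩
  exact a2_le2.trans (g_le_one _)

theorem j3_ok (P : Par s t) : (j3 s).Ok (2 * h0 + s) := mirP_ok (j2_ok P)

theorem j4_ok (P : Par s t) : (j4 s t).Ok (2 * h0 + s) := mirP_ok (j1_ok P)

theorem k5_ok (P : Par s t) : (k5 s).Ok (2 * h0 + s) := mirP_ok (k0_ok P)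

/-- A lower bound for the gain of a probe. -/
theorem le_ga {j : Probe} {γ : ℝ → ℝ} {H y z0 v : ℝ} (hj : j.Ok H) (hγ : ∀ v, 0 ≤ γ v)
    (h1 : j.lo ≤ z0) (h2 : z0 ≤ j.hi)
    (h : ∀ z, j.lo ≤ z → z ≤ j.hi → j.a z + v ≤ γ (z - y) ∨ j.a z + v ≤ g (z - y)) :
    v - (γ (z0 - y) - j.a z0) ≤ ga j γ y := by
  have h3 := Probe.val_le hj (f := fun z => γ (z - y)) (m := 0) (fun z => hγ _) h1 h2
  have h3' : j.val (fun z => γ (z - y)) ≤ γ (z0 - y) - j.a z0 := h3
  have h4 : v ≤ j.val (fun z => max (γ (z - y)) (g (z - y))) := by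
    apply Probe.le_val hj
    intro z k1 k2
    rcases h z k1 k2 with k3 | k3
    · exact k3.trans (le_max_left _ _)
    · exact k3.trans (le_max_right _ _)
  unfold ga
  linear_combination h3 + h4

theorem ga_nonneg {j : Probe} {γ : ℝ → ℝ} {H y : ℝ} (hj : j.Ok H) (hγ : ∀ v, 0 ≤ γ v) :
    0 ≤ ga j γ y := by
  have := Probe.mono hj (f := fun z => γ (z - y)) (f' := fun z => max (γ (z - y)) (g (z - y)))
    (m := 0) (fun z => hγ _) (fun z _ _ => le_max_left _ _)
  unfold ga
  linear_combination this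

/-- The comparison of two fronts: `γ` is above `f` where it is below the new arc, and below `f`
where it is above the new arc. -/
theorem ga_mono {j : Probe} {f γ : ℝ → ℝ} {H y : ℝ} (hj : j.Ok H) (hf : ∀ v, 0 ≤ f v)
    (hγ : ∀ v, 0 ≤ γ v)
    (h : ∀ v, -y ≤ v → v ≤ H - y → (f v ≤ γ v ∧ γ v ≤ g v) ∨ (γ v ≤ f v ∧ g v ≤ γ v)) :
    ga j γ y ≤ ga j f y :=
  Probe.gain hj (f := fun z => f (z - y)) (γ := fun z => γ (z - y)) (p := fun z => g (z - y))
    (m := 0) (fun z => hf _) (fun z => hγ _) fun z h1 h2 => h (z - y) (by linear_combination h1) (by linear_combination h2)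

/-- The two lower wall probes when the new point is not above `t`. -/
theorem wall_low (P : Par s t) {γ : ℝ → ℝ} {y : ℝ} (hγ : ∀ v, 0 ≤ γ v) (h0' : γ 0 = 0)
    (h1 : 0 ≤ y) (h2 : y ≤ t) (h3 : γ (-y) ≤ 1 - g y) :
    1 + g s ≤ ga k0 γ y + ga (j1 t) γ y := by
  have hs0 := P.s0
  have hs1 := P.s1
  have ht0 := P.t0
  have hts := P.ts
  have hgt := P.gt
  have a1 := le_ga (y := y) (z0 := 0) (v := g y) (k0_ok P) hγ le_rfl le_rfl (by
    intro z k1 k2
    simp only [k0] at k1 k2 ⊢
    right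
    rw [show z = 0 by exact le_antisymm (by linear_combination k2) (by linear_combination k1), zero_sub, g_neg]
    linear_combination)
  have a2 := le_ga (y := y) (z0 := y) (v := g (t - y) - 1) (j1_ok P) hγ h1 h2 (by
    intro z k1 k2
    simp only [j1] at k1 k2 ⊢
    right
    have := arc_sub (a := y) (b := t) (x := z) (y := t) h2 k2 (by linear_combination hs1 + hts + k1) (by linear_combination h1 + hs1 + hts)
    rw [sub_self, g_zero] at this
    linear_combination this)
  simp only [k0, zero_sub] at a1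
  simp only [j1, sub_self, h0'] at a2
  have a3 : g (y - t) = g (t - y) := by rw [← g_neg, neg_sub]
  have a4 := four (x := 0) (y := y) (z := t - y) (w := t) (by linear_combination) (by linear_combination hs1 + hts)
    (by linear_combination h1) (by linear_combination h2) (by ring)
  rw [g_zero] at a4
  rw [a3] at a2
  simp only [j1, k0]
  linear_combination h3 - hgt + a1 + a2 + 2 * a4

/-- The two lower wall probes when the new point is between `t` and `h0`. -/
theorem wall_high (P : Par s t) {γ : ℝ → ℝ} {y A B : ℝ} (hγ : ∀ v, 0 ≤ γ v)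
    (h1 : t ≤ y) (h2 : y ≤ h0) (h3 : γ (-y) ≤ A) (h4 : γ (t - y) ≤ B) :
    1 + 2 * g y - g t - A - B ≤ ga k0 γ y + ga (j1 t) γ y := by
  have hh := h0_lt
  have hs0 := P.s0
  have hs1 := P.s1
  have ht0 := P.t0
  have hts := P.ts
  have a1 := le_ga (y := y) (z0 := 0) (v := g y) (k0_ok P) hγ le_rfl le_rfl (by
    intro z k1 k2
    simp only [k0] at k1 k2 ⊢
    right
    rw [show z = 0 by exact le_antisymm (by linear_combination k2) (by linear_combination k1), zero_sub, g_neg]
    linear_combination)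
  have a2 := le_ga (y := y) (z0 := t) (v := g y - g t) (j1_ok P) hγ P.t0 le_rfl (by
    intro z k1 k2
    simp only [j1] at k1 k2 ⊢
    right
    have := arc_sub (a := t) (b := y) (x := 0) (y := z) h1 k1 (by linear_combination h2 + hh) (by linear_combination k2)
    rw [zero_sub, zero_sub, g_neg, g_neg] at this
    linear_combination this)
  simp only [k0, zero_sub] at a1
  simp only [j1, sub_self, g_zero] at a2
  simp only [j1, k0]
  linear_combination h3 + h4 + a1 + a2

/-- The front of the disc on the floor. -/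
theorem vir_floor (y : ℝ) : vir y y = 1 - g y := by
  unfold vir
  rw [sub_self, g_zero]
  exact max_eq_right (by linear_combination (g_le_one y))

theorem vir_floor_le {t y : ℝ} (ht : 0 ≤ t) (h1 : t ≤ y) : vir y (y - t) ≤ g t - g y := by
  unfold vir
  apply max_le
  · have := g_anti ht h1
    linear_combination this
  · rw [show y - t - y = -t by ring, g_neg]

/-! ### What remains to be proved -/

/-- The new point is between `t` and `s`, the window. -/
def Win (s t : ℝ) : Prop := ∀ y r : ℝ, t ≤ y → y ≤ s → 1 / 2 ≤ r → r ≤ 1 → ext r - r ≤ y →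
  r - ext r ≤ y → 2 * (1 + g s - 2 * g y) ≤ gn (j2 s) r y y + gn (j3 s) r y y

/-- The new point is between `t` and `s`, a bound for all virtual discs. -/
def Out (s t : ℝ) : Prop := ∀ y r : ℝ, t ≤ y → y ≤ s → 1 / 2 ≤ r → r ≤ 1 →
  2 * (1 + g s - 2 * g y) - 13 / 1000 ≤ gn (j2 s) r y y + gn (j3 s) r y y

/-- The new point is between `t` and `s`, the virtual disc is just outside of the window. -/
def Rim (s t : ℝ) : Prop := ∀ y r : ℝ, t ≤ y → y ≤ s → y < 1 / 2 → 1 / 2 ≤ r →
  r < h0 * g y - y / 2 → ext r - y - 3 / 200 < r →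
  2 * (1 + g s - 2 * g y) + 13 / 1000 ≤ gn (j2 s) r y y + gn (j3 s) r y y

/-- The new point is between `t` and `s`, the virtual disc is outside of the window and there is a
disc below: the upper disc is higher. -/
def High (s t : ℝ) : Prop := ∀ y r : ℝ, t ≤ y → y ≤ s → y < 1 / 2 → 1 / 2 ≤ r →
  r < h0 * g y - y / 2 → r ≤ ext r - y - 3 / 200 →
  2 * (1 + g s - 2 * g y) + 13 / 1000 ≤
    ga (j2 s) (gamH (ext r) (ext r - y - 3 / 200) y) y +
      ga (j3 s) (gamH (ext r) (ext r - y - 3 / 200) y) y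

/-- The new point is between `s` and `h0`. -/
def MidB (s : ℝ) : Prop := ∀ y r : ℝ, s ≤ y → y ≤ h0 → 1 / 2 ≤ r → r ≤ 1 →
  r ≤ 2 * h0 + s - y → ext r ≤ 2 * h0 + s - y →
  2 * (1 + g s - 2 * g y) ≤ gn (j2 s) r y y + gn (j3 s) r y y

/-- The new point is between `h0` and `h0 + s / 2`. -/
def HighC (s t : ℝ) : Prop := ∀ y r q : ℝ, h0 ≤ y → y ≤ h0 + s / 2 → 1 / 2 ≤ r → r ≤ 1 →
  r ≤ 2 * h0 + s - y → ext r ≤ 2 * h0 + s - y → 1 / 2 ≤ q → q ≤ 1 → q ≤ y → ext q ≤ y →
  1 + g s ≤ gn (j1 t) r q y + gn (j2 s) r q y + gn (j3 s) r q y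

end

end Pool.Agent.Strip051.FourC
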