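import Pool.Agent.Strip051.FourC.Defs

/-! # The comparison of the fronts of the double sweep -/

namespace Pool.Agent.Strip051.FourC

open Pool.Agent.StripNear Pool.Agent.StripSquare Pool.Agent.Strip051
open Pool.Agent.Strip051.Four (mirP j1 gn arc_sub le_gn gn_nonneg adm_low g_le_of_abs ext_facts)

theorem gam_zero' (r q : ℝ) : gam r q 0 = 0 := by
  unfold gam
  rw [if_pos le_rfl, vir_zero]

/-- The height of the higher upper disc. -/
noncomputable def ww (y r : ℝ) : ℝ :=
  if r ≤ ext r - y - 3 / 200 then ext r - y - 3 / 200 else r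

/-- The height `ext r - 3 / 200` above the floor is possible for the upper disc. -/
theorem ext_w {r : ℝ} (h1 : 1 / 2 ≤ r) (h2 : r ≤ h0) : ext r - 3 / 200 ≤ g (1 - g r) := by
  have hh := h0_sq
  have hp := h0_pos
  have hl := h0_lt
  have hg := h0_gt
  have c0 := g_nonneg r
  have cs := g_sq (r := r) (by linear_combination (13661 / 10000) * h2 + (13661 / 10000) * hl + (mul_nonneg (sub_nonneg.mpr h1) (sub_nonneg.mpr h2)) +
    (mul_nonneg (sub_nonneg.mpr h1) (sub_nonneg.mpr (le_of_lt hl))))
  have c1 : 1 / 2 ≤ g r := by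
    rw [← g_h0]
    exact g_anti (by linear_combination h1) h2
  have c2 : g r ≤ h0 := by
    apply abs_le_of_sq_le_sq' _ hp.le |>.2
    linear_combination h1 - hh + cs + (mul_nonneg (sub_nonneg.mpr h1) (sub_nonneg.mpr h1))
  obtain ⟨c, hc⟩ : ∃ c, c = g r := ⟨_, rfl⟩
  rw [← hc] at c0 cs c1 c2 ⊢
  have e : ext r = r / 2 + h0 * c := by rw [hc]; rfl
  rw [e]
  have k1 : 0 ≤ 1 - (1 - c) ^ 2 := by linear_combination (sq_nonneg (r)) + 2 * c1 + cs
  have k2 : (r / 2 + h0 * c - 3 / 200) ^ 2 ≤ 1 - (1 - c) ^ 2 := by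
    have hh1 : 8660 / 10000 ≤ h0 := by linear_combination hg
    have hh2 : h0 ≤ 8661 / 10000 := by linear_combination hl
    have e2 : (r / 2 + h0 * c - 3 / 200) ^ 2 = 1 / 4 + c ^ 2 / 2 + h0 * (r * c) -
        3 / 100 * (r / 2 + h0 * c) + 9 / 40000 := by
      have : (r / 2 + h0 * c - 3 / 200) ^ 2 = r ^ 2 / 4 + h0 ^ 2 * c ^ 2 + h0 * (r * c) -
        3 / 100 * (r / 2 + h0 * c) + 9 / 40000 := by ring
      rw [this, hh]
      linear_combination (1 / 4) * cs
    rw [e2]
    have m1 : h0 * (r * c) ≤ 8661 / 10000 * (r * c) :=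
      mul_le_mul_of_nonneg_right hh2 (mul_nonneg (by linear_combination h1) c0)
    have m2 : 8660 / 10000 * c ≤ h0 * c := mul_le_mul_of_nonneg_right hh1 c0
    rcases le_total c (13 / 20) with h | h
    · have m3 : r * c ≤ c * (1 - c ^ 2 + 16 / 25) / (8 / 5) := by
        have : r ≤ (1 - c ^ 2 + 16 / 25) / (8 / 5) := by linear_combination (5 / 8) * (sq_nonneg (r - 4 / 5)) + (5 / 8) * cs
        have := mul_le_mul_of_nonneg_left this c0
        linear_combination this
      have m4 : 0 ≤ (c - 1 / 2) * (13 / 20 - c) := mul_nonneg (by linear_combination c1) (by linear_combination h)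
      linear_combination (265447 / 1800000) * (mul_nonneg m4 c0) + (3 / 200) * hg + m1 + (9947353 / 72000000) * h +
        (8361 / 10000) * m3 + (3 / 200) * (mul_nonneg (sub_nonneg.mpr (sq_nonneg (c))) (sub_nonneg.mpr h2)) +
        (3 / 200) * (mul_nonneg (sub_nonneg.mpr (sq_nonneg (1 - c))) (sub_nonneg.mpr h1)) +
        (3 / 200) * (mul_nonneg (sub_nonneg.mpr (sq_nonneg (1 - c))) (sub_nonneg.mpr (le_of_lt hl))) +
        (2412119 / 3600000) * (mul_nonneg (sub_nonneg.mpr (sq_nonneg (1 - c))) (sub_nonneg.mpr c1))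
    · have m3 : r * c ≤ c * (1 - c ^ 2 + 9 / 25) / (6 / 5) := by
        have : r ≤ (1 - c ^ 2 + 9 / 25) / (6 / 5) := by linear_combination (5 / 6) * (sq_nonneg (r - 3 / 5)) + (5 / 6) * cs
        have := mul_le_mul_of_nonneg_left this c0
        linear_combination this
      have m4 : 0 ≤ c * (c - 4 / 5) ^ 2 := mul_nonneg c0 (sq_nonneg _)
      linear_combination (98062958 / 9186731625) * h2 + (390394693 / 24497951000) * hg - (651052 / 220481559) * e2 +
        (219830507 / 220481559) * m1 + (202125161783 / 244979510000) * m3 + (266443031 / 22048155900) * (mul_nonneg (sub_nonneg.mpr (sq_nonneg (c))) (sub_nonneg.mpr (sq_nonneg (c - 4 / 5)))) +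
        (813815 / 220481559) * (mul_nonneg (sub_nonneg.mpr (sq_nonneg (c))) (sub_nonneg.mpr (le_of_eq e2))) +
        (813815 / 220481559) * (mul_nonneg (sub_nonneg.mpr (sq_nonneg (c))) (sub_nonneg.mpr m1)) +
        (162763 / 293975412) * (mul_nonneg (sub_nonneg.mpr (sq_nonneg (c))) (sub_nonneg.mpr m2)) +
        (469896781 / 29397541200) * (mul_nonneg (sub_nonneg.mpr (sq_nonneg (c))) (sub_nonneg.mpr m3)) +
        (469896781 / 35277049440) * (mul_nonneg (sub_nonneg.mpr (sq_nonneg (c))) (sub_nonneg.mpr m4)) +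
        (633310833 / 24497951000) * (mul_nonneg (sub_nonneg.mpr (sq_nonneg (1 - c))) (sub_nonneg.mpr h1)) +
        (14177929 / 195983608) * (mul_nonneg (sub_nonneg.mpr (sq_nonneg (1 - c))) (sub_nonneg.mpr (le_of_lt hl))) +
        (3255260 / 220481559) * (mul_nonneg (sub_nonneg.mpr (sq_nonneg (1 - c))) (sub_nonneg.mpr (le_of_eq e2))) +
        (3255260 / 220481559) * (mul_nonneg (sub_nonneg.mpr (sq_nonneg (1 - c))) (sub_nonneg.mpr m1)) +
        (73060582007 / 881926236000) * (mul_nonneg (sub_nonneg.mpr (sq_nonneg (1 - c))) (sub_nonneg.mpr h)) +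
        (4069075 / 220481559) * (mul_nonneg (sub_nonneg.mpr (sq_nonneg (c - 4 / 5))) (sub_nonneg.mpr (sq_nonneg (r / 2 + h0 * c - 3 / 200)))) +
        (210064727 / 2939754120) * (mul_nonneg (sub_nonneg.mpr (sq_nonneg (c - 4 / 5))) (sub_nonneg.mpr (le_of_lt hg))) +
        (3602108777 / 5879508240) * (mul_nonneg (sub_nonneg.mpr (sq_nonneg (c - 4 / 5))) (sub_nonneg.mpr c1))
  unfold g
  exact Real.le_sqrt_of_sq_le k2

theorem ww_ok : WOk ww := by
  intro y r h1 h2 h3 h4
  unfold ww
  split
  · next h =>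
    right
    have hp := h0_pos
    have h5 : r ≤ h0 := by
      have := g_le_one y
      linear_combination (1 / 2) * h1 + h4 + (mul_nonneg (sub_nonneg.mpr (le_of_lt hp)) (sub_nonneg.mpr this))
    have := ext_w h3 h5
    exact ⟨h, by linear_combination this, by linear_combination h1⟩
  · left
    rfl

/-- The comparison of the virtual disc and of a higher disc through the exit. -/
theorem hi_cmp {r w v : ℝ} (h1 : 1 / 2 ≤ r) (h2 : r ≤ 1) (h3 : r ≤ w) (h4 : w ≤ ext r)
    (h5 : 0 ≤ v) : (hi (ext r) w v ≤ vir r v ∧ vir r v ≤ g v) ∨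
      (vir r v ≤ hi (ext r) w v ∧ g v ≤ vir r v) := by
  obtain ⟨a1, a2, a3, a4, a5⟩ := ext_facts h1 h2
  have hg0 := g_nonneg r
  rcases le_total v (ext r) with hv | hv
  · left
    constructor
    · unfold hi vir
      apply max_le_max le_rfl
      have := arc_sub (a := r) (b := w) (x := v) (y := ext r) h3 hv (by linear_combination h4 + h5 + a2) (by linear_combination h1 + a2)
      linear_combination -a3 + this
    · unfold vir
      apply max_le (g_nonneg v)
      have := arc_sub (a := 0) (b := r) (x := v) (y := ext r) (by linear_combination h1) hv (by linear_combination h2 + h5)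
        (by linear_combination a2)
      rw [sub_zero, sub_zero] at this
      linear_combination a3 + this
  · right
    constructor
    · rcases le_total (v - r) 1 with h | h
      · unfold hi vir
        apply max_le_max le_rfl
        have := arc_sub (a := r) (b := w) (x := ext r) (y := v) h3 hv (by linear_combination h4) h
        linear_combination a3 + this
      · have e : g (v - r) = 0 := g_far (h.trans (le_abs_self _))
        unfold vir
        rw [e]
        exact (max_le le_rfl (by linear_combination hg0)).trans (le_max_left _ _)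
    · rcases le_total v 1 with h | h
      · unfold vir
        refine le_trans ?_ (le_max_right _ _)
        have := arc_sub (a := 0) (b := r) (x := ext r) (y := v) (by linear_combination h1) hv (by linear_combination h3 + h4)
          (by linear_combination h)
        rw [sub_zero, sub_zero] at this
        linear_combination -a3 + this
      · rw [g_far (h.trans (le_abs_self _))]
        exact vir_nonneg _ _

theorem hi_zero {r w : ℝ} (h1 : 1 / 2 ≤ r) (h2 : r ≤ 1) (h3 : r ≤ w) (h4 : w ≤ ext r) :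
    hi (ext r) w 0 = 0 := by
  obtain ⟨a1, a2, a3, a4, a5⟩ := ext_facts h1 h2
  apply le_antisymm _ (le_max_left _ _)
  rcases hi_cmp h1 h2 h3 h4 (v := 0) le_rfl with h | h
  · have := h.1
    rwa [vir_zero] at this
  · have := h.2
    rw [g_zero, vir_zero] at this
    exact absurd this (not_le.mpr (by linear_combination))

/-- The lower virtual disc on the floor is below the new arc. -/
theorem vir_floor_arc {y u : ℝ} (h1 : y ≤ h0) (h2 : 0 ≤ u) (h3 : u ≤ y) : vir y u ≤ g u := by
  have hh := h0_lt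
  unfold vir
  apply max_le (g_nonneg u)
  have h4 := arc_sub (a := 0) (b := y) (x := u) (y := y) (by linear_combination h2 + h3) h3 (by linear_combination h1 + h2 + hh)
    (by linear_combination h1 + hh)
  rw [sub_zero, sub_zero, sub_self, g_zero] at h4
  have h5 : 1 / 2 ≤ g y := by
    rw [← g_h0]
    exact g_anti (by linear_combination h2 + h3) h1
  linear_combination h4 + 2 * h5

theorem vir_zero_disc (u : ℝ) : vir 0 u = 0 := by
  unfold vir
  rw [sub_zero, g_zero]
  exact max_eq_left (by linear_combination (g_le_one u))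

/-- The gain before the front without a lower disc. -/
theorem ga_line {j : Probe} {H r y : ℝ} (hj : j.Ok H) (h2 : y ≤ h0)
    (hr1 : 1 / 2 ≤ r) (hr2 : r ≤ 1) : gn j r y y ≤ ga j (gam r 0) y := by
  rw [gn_eq]
  obtain ⟨a1, a2, a3, a4, a5⟩ := ext_facts hr1 hr2
  apply ga_mono hj (fun v => gam_nonneg _ _ _) (fun v => gam_nonneg _ _ _)
  intro v hv _
  unfold gam
  rcases le_or_gt 0 v with h | h
  · rw [if_pos h, if_pos h]
    rcases le_total (vir r v) (g v) with h3 | h3
    · exact Or.inl ⟨le_rfl, h3⟩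
    · exact Or.inr ⟨le_rfl, h3⟩
  · rw [if_neg (by exact not_le.mpr (by linear_combination h)), if_neg (by exact not_le.mpr (by linear_combination h)), vir_zero_disc]
    left
    refine ⟨vir_nonneg _ _, ?_⟩
    rw [← g_neg v]
    exact vir_floor_arc h2 (by linear_combination h) (by linear_combination hv)

/-- The gain before the front with a higher upper disc. -/
theorem ga_high {j : Probe} {H r w y : ℝ} (hj : j.Ok H) (h2 : y ≤ h0)
    (hr1 : 1 / 2 ≤ r) (hr2 : r ≤ 1) (h3 : r ≤ w) (h4 : w ≤ ext r) :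
    gn j r y y ≤ ga j (gamH (ext r) w y) y := by
  rw [gn_eq]
  apply ga_mono hj (fun v => gamH_nonneg _ _ _ _) (fun v => gam_nonneg _ _ _)
  intro v hv _
  unfold gam gamH
  rcases le_or_gt 0 v with h | h
  · rw [if_pos h, if_pos h]
    exact hi_cmp hr1 hr2 h3 h4 h
  · rw [if_neg (by exact not_le.mpr (by linear_combination h)), if_neg (by exact not_le.mpr (by linear_combination h))]
    left
    refine ⟨le_rfl, ?_⟩
    rw [← g_neg v]
    exact vir_floor_arc h2 (by linear_combination h) (by linear_combination hv)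

theorem gamH_self {r y : ℝ} (hr1 : 1 / 2 ≤ r) (hr2 : r ≤ 1) : gamH (ext r) r y = gam r y := by
  obtain ⟨a1, a2, a3, a4, a5⟩ := ext_facts hr1 hr2
  funext v
  unfold gamH gam hi vir
  rw [a3]
  congr 1
  congr 1
  ring

/-! ### The window -/

/-- The lower end of the window. -/
theorem ext_window {y : ℝ} (h1 : 0 ≤ y) (h2 : y ≤ 1 / 2) :
    ext (h0 * g y - y / 2) = h0 * g y + y / 2 ∧ 1 / 2 ≤ h0 * g y - y / 2 := by
  have hh := h0_sq
  have hp := h0_pos
  have gy := g_sq (r := y) (by linear_combination (1 / 2) * h2 + (mul_nonneg (sub_nonneg.mpr h1) (sub_nonneg.mpr h2)))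
  have gy0 := g_nonneg y
  have e : g (h0 * g y - y / 2) = h0 * y + g y / 2 := by
    have : 1 - (h0 * g y - y / 2) ^ 2 = (h0 * y + g y / 2) ^ 2 := by
      have : (h0 * g y - y / 2) ^ 2 + (h0 * y + g y / 2) ^ 2 =
        (h0 ^ 2 + 1 / 4) * (y ^ 2 + g y ^ 2) := by ring
      rw [hh, gy] at this
      linear_combination -this
    have e2 : g (h0 * g y - y / 2) = √(1 - (h0 * g y - y / 2) ^ 2) := rfl
    rw [e2, this, Real.sqrt_sq (by positivity)]
  constructor
  · unfold ext
    rw [e]
    have : (h0 * g y - y / 2) / 2 + h0 * (h0 * y + g y / 2) = h0 * g y - y / 4 + h0 ^ 2 * y := by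
      ring
    rw [this, hh]
    ring
  · have h3 : h0 ≤ g y := by
      apply abs_le_of_sq_le_sq' _ gy0 |>.2
      linear_combination (1 / 2) * h2 + hh - gy + (mul_nonneg (sub_nonneg.mpr h1) (sub_nonneg.mpr h2))
    linear_combination (1 / 2) * h2 - hh + (mul_nonneg (sub_nonneg.mpr (le_of_lt hp)) (sub_nonneg.mpr h3))

/-- Two real sides lie in the window. -/
theorem window {y r r' : ℝ} (h1 : 0 ≤ y) (h2 : y ≤ 1 / 2) (hr1 : 1 / 2 ≤ r) (hr2 : r ≤ 1)
    (hr2' : r' ≤ 1) (hr : h0 * g y - y / 2 ≤ r)
    (hr' : h0 * g y - y / 2 ≤ r') (c1 : r ≤ ext r') :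
    ext r - r ≤ y ∧ r - ext r ≤ y := by
  obtain ⟨e1, e2⟩ := ext_window h1 h2
  have a1 := ext_anti e2 hr hr2
  have a2 := ext_anti e2 hr' hr2'
  rw [e1] at a1 a2
  have e3 : ext (h0 * g y + y / 2) = h0 * g y - y / 2 := by
    rw [← e1]
    exact (ext_facts e2 (by linear_combination hr2 + hr)).2.2.2.2
  have a3 := ext_anti hr1 (c1.trans a2) (by
    rw [← e1]
    exact (ext_facts e2 (by linear_combination hr2 + hr)).2.1)
  rw [e3] at a3
  exact ⟨by linear_combination hr + a1, by linear_combination c1 + a2 + a3⟩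

end Pool.Agent.Strip051.FourC
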