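import Pool.Agent.Strip051.FourC.Touch
import Pool.Agent.Strip051.FourC.BoxHigh

/-! # The new point between `t` and `s`: higher upper disc -/

namespace Pool.Agent.Strip051.FourC.LA

open Pool.Agent.StripNear Pool.Agent.StripSquare Pool.Agent.Strip051
open Pool.Agent.Strip051.Four (mirP j1 gn mirP_ok mirP_val arc_sub le_gn gn_nonneg adm_low
  g_le_of_abs ext_facts gain_ge)
open Pool.Agent.Strip051.Four.Low (ph ph_nonneg ph_neg ph_zero ph_mono ph_abs ph_quad)

/-- The gain before a front with a higher upper disc. -/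
theorem high_ge {j : Probe} {H y r w x1 x2 α1 α2 : ℝ} (hj : j.Ok H) (h1 : 1 / 2 ≤ r)
    (h2 : r ≤ 1) (hw : r ≤ w) (hw2 : w ≤ ext r) (T1 : Tch j x1 α1)
    (T2 : Tch j x2 α2) (a1 : y ≤ x1) (a3 : y ≤ x2) (a4 : x2 ≤ y + w) :
    g (ext r) - g (y + ext r - x2) - α2 -
      max 0 (g (x1 - y - w) - (g (ext r - w) - g (ext r))) + 1 - α1 ≤
        ga j (gamH (ext r) w y) y := by
  obtain ⟨e1, e2, e3, e4, e5⟩ := ext_facts h1 h2
  have h4 : g (ext r) ≤ g (y + ext r - x2) := g_le_of_abs (by linear_combination a3) (by linear_combination h1 + hw + 2 * hw2 + a4)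
  have h3 := le_ga (y := y) (z0 := x1)
    (v := g (ext r) - g (y + ext r - x2) - α2) hj
    (fun v => gamH_nonneg (ext r) w y v) T1.lo T1.hi (by
      intro z hz1 hz2
      have h3 := T2.le z hz1 hz2
      have hg0 := g_nonneg (z - y)
      rcases le_total (z - y) (ext r) with hz | hz
      · right
        rcases le_total (-1) (z - x2) with h5 | h5
        · have := four (x := z - x2) (y := z - y) (z := y + ext r - x2) (w := ext r) h5
            (by linear_combination e2) (by linear_combination a3) (by linear_combination hz) (by ring)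
          linear_combination h3 + this
        · have : g (z - x2) = 0 := g_far (by rw [abs_of_nonpos (by linear_combination h5)]; linear_combination h5)
          linear_combination h4 + h3 + hg0 + this
      · left
        unfold gamH
        rw [if_pos (by linear_combination h1 + hw + hw2 + hz)]
        unfold hi
        rcases le_total (z - x2) 1 with h5 | h5
        · refine le_trans ?_ (le_max_right _ _)
          have := four (x := ext r - w) (y := z - y - w) (z := y + ext r - x2) (w := z - x2)
            (by linear_combination hw2) (by linear_combination h5) (by linear_combination hz) (by linear_combination a4) (by ring)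
          linear_combination h3 + this
        · have : g (z - x2) = 0 := g_far (h5.trans (le_abs_self _))
          refine le_trans ?_ (le_max_left _ _)
          linear_combination h4 + h3 + this)
  have h5 : gamH (ext r) w y (x1 - y) =
      max 0 (g (x1 - y - w) - (g (ext r - w) - g (ext r))) := by
    unfold gamH
    rw [if_pos (by linear_combination a1)]
    rfl
  rw [h5] at h3
  linear_combination T1.top + h3

theorem k_le {b : ℝ} (b0 : 0 ≤ b) (b1 : b ≤ 1 / 2) : h0 * ph b ≤ 24 / 100 * b := by
  have hu := h0_up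
  have e := ph_quad (x := b) (by linear_combination (1 / 2) * b1 + (mul_nonneg (sub_nonneg.mpr b0) (sub_nonneg.mpr b1)))
  have n := ph_nonneg b
  have m : ph b ≤ 134 / 1000 := by
    have := ph_mono b0 b1
    have e : ph (1 / 2) = 1 - h0 := by
      unfold Four.Low.ph g
      rw [show (1 : ℝ) - (1 / 2) ^ 2 = h0 ^ 2 by rw [h0_sq]; norm_num,
        Real.sqrt_sq h0_pos.le]
    have hl := h0_lo
    linear_combination this + e + hl
  have k1 := mul_le_mul_of_nonneg_right m n
  have k2 := mul_le_mul_of_nonneg_right b1 b0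
  have k3 := mul_le_mul_of_nonneg_right hu n
  linear_combination (593 / 74640) * b0 + (86603 / 186600) * e + (86603 / 186600) * k1 +
    (86603 / 186600) * k2 + k3

section

variable {s t : ℝ}

theorem regH {y r : ℝ} (P : Par s t) (h1 : t ≤ y) (h2 : y ≤ s) (hr1 : 1 / 2 ≤ r)
    (hr2 : r ≤ 1) (hw : r ≤ ext r - y - 3 / 200) :
    RegH s |ext r - r| (s - y) (h0 * ph |ext r - r|)
      (ga (j2 s) (gamH (ext r) (ext r - y - 3 / 200) y) y)
      (ga (j3 s) (gamH (ext r) (ext r - y - 3 / 200) y) y) := by
  have N := num P h1 h2 hr1 hr2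
  obtain ⟨b0, b1⟩ := b_facts hr1 hr2
  obtain ⟨f1, f2, f3, f4, f5⟩ := ext_facts hr1 hr2
  have ht := t_low P
  have hs0 := P.s0
  have hs1 := P.s1
  have hl := h0_lo
  have hu := h0_up
  have hb0 : ext r - r = |ext r - r| := (abs_of_nonneg (by linear_combination P.t0 + h1 + hw)).symm
  have k1 : ext r = r / 2 + h0 * g r := rfl
  have k2 : ext r / 2 + h0 * g (ext r) = r := f5
  have k3' : r + ext r = 2 * (h0 * g (ext r - r)) := by
    rw [f3]
    linear_combination 2 * k1 - 2 * k2
  obtain ⟨b, hb⟩ : ∃ b, b = |ext r - r| := ⟨_, rfl⟩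
  rw [← hb] at b0 b1 N hb0 ⊢
  rw [hb0] at k3' f3
  obtain ⟨k, hk⟩ : ∃ k, k = h0 * ph b := ⟨_, rfl⟩
  have hgb : g b = 1 - ph b := by
    unfold Four.Low.ph
    ring
  have eX : ext r = h0 - k + b / 2 := by
    rw [hk]
    have : h0 * g b = h0 - h0 * ph b := by
      rw [hgb]
      ring
    linear_combination (1 / 2) * k3' + (1 / 2) * hb0 + this
  have er : r = h0 - k - b / 2 := by linear_combination -hb0 + eX
  have gX : g (ext r) = (1 - ph b) / 2 - h0 * b := by
    have hp := h0_pos
    have hq := h0_sq
    have e1 : h0 * g (ext r) = h0 * ((1 - ph b) / 2 - h0 * b) := by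
      have : h0 * ((1 - ph b) / 2 - h0 * b) = (h0 - h0 * ph b) / 2 - h0 ^ 2 * b := by ring
      rw [this, hq]
      linear_combination k2 - hb0 - (1 / 2) * hk + (1 / 2) * eX
    exact mul_left_cancel₀ hp.ne' e1
  rw [← hk] at N ⊢
  obtain ⟨u, hu'⟩ : ∃ u, u = s - y := ⟨_, rfl⟩
  rw [← hu'] at N ⊢
  have hy : y = s - u := by linear_combination hu'
  have ges : g s = 1 - ph s := by
    unfold Four.Low.ph
    ring
  have ged : g (8 / 25 * s) = 1 - ph (8 / 25 * s) := by
    unfold Four.Low.ph
    ring
  have t1 := N.t1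
  have t2 := N.t2
  have k3 := N.k3
  have k4 := N.k4
  have cv : ∀ {x A : ℝ}, x = A → g x = 1 - ph A := by
    intro x A h
    rw [h]
    unfold Four.Low.ph
    ring
  have a3 : g (y + ext r - s) = 1 - ph (h0 - u + b / 2 - k) := cv (by rw [eX, hy]; ring)
  have a2 : g (y + ext r - h0) = 1 - ph (s - u + b / 2 - k) := cv (by rw [eX, hy]; ring)
  have hW : g (ext r - (ext r - y - 3 / 200)) = 1 - ph (s - u + 3 / 200) :=
    cv (by rw [hy]; ring)
  have d1 : g (h0 + 8 / 25 * s - y - (ext r - y - 3 / 200)) =
      1 - ph (8 / 25 * s + k - b / 2 + 3 / 200) := cv (by rw [eX]; ring)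
  have d0 : g (h0 + s - y - (ext r - y - 3 / 200)) =
      1 - ph (s + k - b / 2 + 3 / 200) := cv (by rw [eX]; ring)
  have hkb : k ≤ 24 / 100 * b := by
    rw [hk]
    exact k_le b0 b1
  have hbl : 32 / 100 ≤ b := by linear_combination h1 + hw + ht + (179 / 250) * hs0 + hb0
  have g2 := ga_nonneg (y := y) (j2_ok P)
    (fun v => gamH_nonneg (ext r) (ext r - y - 3 / 200) y v)
  have g3 := ga_nonneg (y := y) (j3_ok P)
    (fun v => gamH_nonneg (ext r) (ext r - y - 3 / 200) y v)
  have hy0 : 0 ≤ y := by linear_combination P.t0 + h1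
  refine ⟨N, g2, g3, ?_, ?_, ?_⟩
  · have := high_ge (j2_ok P) hr1 hr2 hw (by linear_combination (250 / 71) * h1 + (179 / 71) * h2 + (250 / 71) * ht) (t2d P) (t2h P) (y := y) (by linear_combination (8 / 25) * h2 + (17 / 25) * hr1 + (17 / 25) * hw + (17 / 25) * f2 + hl)
      (by linear_combination hr1 + hw + f2 + hl) (by linear_combination (1 / 2) * h1 + (1 / 2) * hw + (1 / 2) * ht + (179 / 500) * hs0 +
        (1 / 2) * hb0 - eX + k4)
    rw [a2, hW, d1, gX, ged] at this
    rcases le_total 0 (1 - ph (8 / 25 * s + k - b / 2 + 3 / 200) -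
      (1 - ph (s - u + 3 / 200) - ((1 - ph b) / 2 - h0 * b))) with h | h
    · right
      rw [max_eq_right h] at this
      linear_combination this
    · left
      rw [max_eq_left h] at this
      linear_combination this
  · have := high_ge (j2_ok P) hr1 hr2 hw (by linear_combination (250 / 71) * h1 + (179 / 71) * h2 + (250 / 71) * ht) (t2d P) (t2s P) (y := y) (by linear_combination (8 / 25) * h2 + (17 / 25) * hr1 + (17 / 25) * hw + (17 / 25) * f2 + hl)
      (by linear_combination h2) (by linear_combination (250 / 179) * h1 + (250 / 179) * hr1 + (250 / 179) * hw + (71 / 179) * f2 +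
        (250 / 179) * ht)
    rw [a3, hW, d1, gX, ged, ges] at this
    rcases le_total 0 (1 - ph (8 / 25 * s + k - b / 2 + 3 / 200) -
      (1 - ph (s - u + 3 / 200) - ((1 - ph b) / 2 - h0 * b))) with h | h
    · right
      rw [max_eq_right h] at this
      linear_combination this
    · left
      rw [max_eq_left h] at this
      linear_combination this
  · have := high_ge (j3_ok P) hr1 hr2 hw (by linear_combination (250 / 71) * h1 + (179 / 71) * h2 + (250 / 71) * ht) (t3t P) (t3h P) (y := y) (by linear_combination h2 + hl)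
      (by linear_combination hr1 + hw + f2 + hl) (by linear_combination (1 / 2) * h1 + (1 / 2) * hw + (1 / 2) * ht + (179 / 500) * hs0 +
        (1 / 2) * hb0 - eX + k4)
    rw [a2, hW, d0, gX, ged, ges] at this
    rcases le_total 0 (1 - ph (s + k - b / 2 + 3 / 200) -
      (1 - ph (s - u + 3 / 200) - ((1 - ph b) / 2 - h0 * b))) with h | h
    · right
      rw [max_eq_right h] at this
      linear_combination this
    · left
      rw [max_eq_left h] at this
      linear_combination this

theorem high (P : Par s t) : High s t := by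
  intro y r h1 h2 hy hr1 hr3 hr4
  have ht := t_low P
  have hs0 := P.s0
  have hs1 := P.s1
  have hy0 : 0 ≤ y := by linear_combination P.t0 + h1
  have hr2 : r ≤ 1 := by
    have := g_le_one y
    have := h0_lt
    have := h0_pos
    linear_combination (125 / 71) * h1 + (179 / 142) * h2 + hr3 + (125 / 71) * ht + (‹h0 < 0.8661›) +
      (mul_nonneg (sub_nonneg.mpr (le_of_lt this)) (sub_nonneg.mpr ‹g y ≤ 1›))
  have R := regH P h1 h2 hr1 hr2 hr4
  have R1 := R.toNum
  have hb : |ext r - r| = ext r - r := abs_of_nonneg (by linear_combination (250 / 71) * h1 + (179 / 71) * h2 + hr4 + (250 / 71) * ht)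
  have ee : 2 * (1 + g s - 2 * g y) = 4 * ph (s - (s - y)) - 2 * ph s := by
    rw [sub_sub_cancel]
    unfold Four.Low.ph
    ring
  rw [ee]
  exact g0 R (by linear_combination h1 + ht) (by linear_combination hr4 - hb) (by linear_combination hy) hs0 hs1 (by linear_combination h1 + hr4 + ht + (179 / 250) * hs0 - hb)
    R1.b2 R1.t1 (by linear_combination h1 + ht + (71 / 250) * hs1)

end

end Pool.Agent.Strip051.FourC.LA
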