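import Pool.Agent.Strip051.FourC.Touch
import Pool.Agent.Strip051.FourC.Corner
import Pool.Agent.Strip051.FourC.BoxWin
import Pool.Agent.Strip051.FourC.BoxOut
import Pool.Agent.Strip051.FourC.BoxRim

/-! # The new point between `t` and `s`: window, no lower disc, rim of the window -/

namespace Pool.Agent.Strip051.FourC.LA

open Pool.Agent.StripNear Pool.Agent.StripSquare Pool.Agent.Strip051
open Pool.Agent.Strip051.Four (mirP j1 gn mirP_ok mirP_val arc_sub le_gn gn_nonneg adm_low
  g_le_of_abs ext_facts gain_ge)
open Pool.Agent.Strip051.Four.Low (ph ph_nonneg ph_neg ph_zero ph_mono ph_abs ph_quad)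

section

variable {s t : ℝ}

theorem target (s y : ℝ) : 2 * (1 + g s - 2 * g y) = 4 * ph (s - (s - y)) - 2 * ph s := by
  rw [sub_sub_cancel]
  unfold Four.Low.ph
  ring

theorem win (P : Par s t) : Win s t := by
  intro y r h1 h2 hr1 hr2 e1 e2
  have R := reg P h1 h2 hr1 hr2
  have ht := t_low P
  have hs0 := P.s0
  have hs1 := P.s1
  have hb : |ext r - r| ≤ y := abs_le.2 ⟨by linear_combination e2, e1⟩
  have R1 := R.toNum
  rw [target]
  rcases le_total (3 / 25) |ext r - r| with h | h
  · exact w0 R (by linear_combination h1 + ht) (by linear_combination hb) hs0 hs1 h R1.b2 R1.t1 (by linear_combination h1 + ht + (71 / 250) * hs1)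
  · rcases le_total (8 / 25 * s) (s - y + |ext r - r| / 2 + h0 * ph |ext r - r|) with h3 | h3
    · exact z0 R (by linear_combination h1 + ht) h3 hs0 hs1 R1.b1 h R1.t1 (by linear_combination h1 + ht + (71 / 250) * hs1)
    · exact corner R h h3

theorem out (P : Par s t) : Out s t := by
  intro y r h1 h2 hr1 hr2
  have R := reg P h1 h2 hr1 hr2
  have ht := t_low P
  have hs0 := P.s0
  have hs1 := P.s1
  have R1 := R.toNum
  rcases le_total y |ext r - r| with h | h
  · rw [target]
    exact o0 R (by linear_combination h1 + ht) (by linear_combination h) hs0 hs1 (by linear_combination h1 + ht + (179 / 250) * hs0 + h) R1.b2 R1.t1 (by linear_combination h1 + ht + (71 / 250) * hs1)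
  · have := win P y r h1 h2 hr1 hr2 ((le_abs_self _).trans h) (by
      have := neg_abs_le (ext r - r)
      linear_combination h + this)
    linear_combination this

theorem rim (P : Par s t) : Rim s t := by
  intro y r h1 h2 hy hr1 hr3 hr4
  have ht := t_low P
  have hs0 := P.s0
  have hs1 := P.s1
  have hy0 : 0 ≤ y := by linear_combination P.t0 + h1
  have hr2 : r ≤ 1 := by
    have := g_le_one y
    have := h0_lt
    have := h0_pos
    linear_combination (125 / 71) * h1 + (179 / 142) * h2 + hr3 + (125 / 71) * ht + (‹h0 < 0.8661›) +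
      (mul_nonneg (sub_nonneg.mpr (le_of_lt this)) (sub_nonneg.mpr ‹g y ≤ 1›))
  obtain ⟨w1, w2⟩ := ext_window hy0 hy.le
  have hx : h0 * g y + y / 2 ≤ ext r := by
    rw [← w1]
    exact ext_anti hr1 hr3.le (by
      have := g_le_one y
      have := h0_lt
      have := h0_pos
      linear_combination (125 / 71) * h1 + (179 / 142) * h2 + (125 / 71) * ht + (‹h0 < 0.8661›) +
        (mul_nonneg (sub_nonneg.mpr (le_of_lt this)) (sub_nonneg.mpr ‹g y ≤ 1›)))
  have R := reg P h1 h2 hr1 hr2
  have R1 := R.toNum
  have hb : |ext r - r| = ext r - r := abs_of_nonneg (by linear_combination h1 + hr3 + ht + (179 / 250) * hs0 + hx)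
  rw [target]
  exact m0 R (by linear_combination h1 + ht) (by linear_combination hr3 + hx - hb) (by linear_combination hr4 + hb) (by linear_combination hy) hs0 hs1 (by linear_combination h1 + hr3 + ht + (179 / 250) * hs0 + hx - hb)
    R1.b2 R1.t1 (by linear_combination h1 + ht + (71 / 250) * hs1)

end

end Pool.Agent.Strip051.FourC.LA
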