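import Pool.Agent.Strip051.FourC.Fronts

/-! # The assembly of the six probes -/

namespace Pool.Agent.Strip051.FourC

open Pool.Agent.StripNear Pool.Agent.StripSquare Pool.Agent.Strip051
open Pool.Agent.Strip051.Four (mirP j1 gn mirP_ok mirP_val arc_sub le_gn gn_nonneg adm_low
  g_le_of_abs ext_facts)

/-- The six probes. -/
noncomputable def probes (s t : ℝ) : Fin 6 → Probe := ![k0, j1 t, j2 s, j3 s, j4 s t, k5 s]

/-- The weights. -/
noncomputable def weights (s : ℝ) : Fin 6 → ℝ := fun _ => 1 / (1 + g s)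

/-- The sum of the six gains. -/
noncomputable def tot (s t : ℝ) (γ : ℝ → ℝ) (y : ℝ) : ℝ :=
  ga k0 γ y + ga (j1 t) γ y + ga (j2 s) γ y + ga (j3 s) γ y + ga (j4 s t) γ y + ga (k5 s) γ y

theorem pg_eq (s t : ℝ) (γ : ℝ → ℝ) (y : ℝ) :
    pg (weights s) (probes s t) y γ = 1 / (1 + g s) * tot s t γ y := by
  unfold pg tot ga weights probes
  rw [Fin.sum_univ_six]
  simp
  ring

section

variable {s t y r q w : ℝ} {γ γ' : ℝ → ℝ}

theorem tot_ge (P : Par s t) (hγ : ∀ v, 0 ≤ γ v) :
    ga k0 γ y + ga (j1 t) γ y + ga (j2 s) γ y + ga (j3 s) γ y ≤ tot s t γ y := by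
  have k4 := ga_nonneg (y := y) (j4_ok P) hγ
  have k5 := ga_nonneg (y := y) (k5_ok P) hγ
  unfold tot
  linear_combination k4 + k5

theorem s_lt (P : Par s t) : g s ≤ 91 / 100 := by
  have h0' := P.s0
  have h1 := P.s1
  have := g_sq (r := s) (by linear_combination (963 / 1000) * h1 + (mul_nonneg (sub_nonneg.mpr h0') (sub_nonneg.mpr h1)))
  have g0 := g_nonneg s
  exact not_lt.mp (fun hg__ => absurd h0' (not_le.mpr (by linear_combination (910 / 433) * hg__ + (500 / 433) * this + (500 / 433) * (mul_nonneg (sub_nonneg.mpr h0') (sub_nonneg.mpr h0')) + (500 / 433) * (mul_pos (sub_pos.mpr hg__) (sub_pos.mpr hg__)))))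

/-- The new point is not above `t`. -/
theorem low (P : Par s t) (hγ : ∀ v, 0 ≤ γ v) (h0' : γ 0 = 0) (h1 : 0 ≤ y) (h2 : y ≤ t)
    (h3 : γ (-y) ≤ 1 - g y) : 1 + g s ≤ tot s t γ y := by
  have k1 := wall_low P hγ h0' h1 h2 h3
  have k2 := ga_nonneg (y := y) (j2_ok P) hγ
  have k3 := ga_nonneg (y := y) (j3_ok P) hγ
  have := tot_ge (y := y) P hγ
  linear_combination k1 + k2 + k3 + this

/-- A front with a lower disc on the floor. -/
theorem mid_real (P : Par s t) (hγ : ∀ v, 0 ≤ γ v) (h1 : t ≤ y) (h2 : y ≤ h0)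
    (h3 : ∀ v, v ≤ 0 → γ v = vir y (-v)) {x : ℝ}
    (h4 : 2 * (1 + g s - 2 * g y) + x ≤ ga (j2 s) γ y + ga (j3 s) γ y) :
    1 + g s + x ≤ tot s t γ y := by
  have ht := P.t0
  have hgt := P.gt
  have k1 := wall_high (A := 1 - g y) (B := g t - g y) P hγ h1 h2
    (by rw [h3 _ (by linear_combination h1 + ht), neg_neg, vir_floor])
    (by
      rw [h3 _ (by linear_combination h1), neg_sub]
      exact vir_floor_le ht h1)
  have := tot_ge (y := y) P hγ
  linear_combination h4 + hgt + k1 + this

/-- A front without lower disc. -/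
theorem mid_line (P : Par s t) (h1 : t ≤ y) (h2 : y ≤ h0)
    (h4 : 2 * (1 + g s - 2 * g y) - 13 / 1000 ≤ ga (j2 s) (gam r 0) y + ga (j3 s) (gam r 0) y) :
    1 + g s + 13 / 1000 ≤ tot s t (gam r 0) y := by
  have ht := P.t0
  have hgt := P.gt
  have hz : ∀ v, v ≤ 0 → gam r 0 v = 0 := by
    intro v hv
    rcases hv.eq_or_lt with h | h
    · rw [h]
      exact gam_zero' _ _
    · unfold gam
      rw [if_neg (not_le.2 h)]
      exact vir_zero_disc _
  have k1 := wall_high (A := 0) (B := 0) P (fun v => gam_nonneg r 0 v) h1 h2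
    (hz _ (by linear_combination h1 + ht)).le (hz _ (by linear_combination h1)).le
  have := tot_ge (y := y) P (fun v => gam_nonneg r 0 v)
  have k2 := g_anti ht h1
  have k3 := s_lt P
  linear_combination h4 + (3 / 2) * hgt + k1 + this + 2 * k2 + (1 / 2) * k3

theorem real_floor (r y v : ℝ) (hv : v ≤ 0) : gam r y v = vir y (-v) := by
  rcases hv.eq_or_lt with h | h
  · rw [h, gam_zero', neg_zero, vir_zero]
  · unfold gam
    rw [if_neg (not_le.2 h)]

theorem high_floor (hr1 : 1 / 2 ≤ r) (hr2 : r ≤ 1) (h3 : r ≤ w) (h4 : w ≤ ext r) (v : ℝ)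
    (hv : v ≤ 0) : gamH (ext r) w y v = vir y (-v) := by
  unfold gamH
  rcases hv.eq_or_lt with h | h
  · rw [h, if_pos le_rfl, hi_zero hr1 hr2 h3 h4, neg_zero, vir_zero]
  · rw [if_neg (not_le.2 h)]

/-- One real side. -/
theorem side_real (P : Par s t) (hW : Win s t) (hB : MidB s) (hC : HighC s t)
    (h1 : 0 ≤ y) (h2 : y ≤ h0 + s / 2) (hr : Adm (2 * h0 + s - y) r) (hq : Adm y q)
    (hw : t ≤ y → y ≤ s → ext r - r ≤ y ∧ r - ext r ≤ y) : 1 + g s ≤ tot s t (gam r q) y := by
  have hh := h0_lt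
  have hg := h0_gt
  have hs0 := P.s0
  have hs1 := P.s1
  have ht0 := P.t0
  have hts := P.ts
  have hγ := fun v => gam_nonneg r q v
  have hr' : 1 / 2 ≤ r ∧ r ≤ 1 ∧ r ≤ 2 * h0 + s - y ∧ ext r ≤ 2 * h0 + s - y := by
    rcases hr with hr | ⟨-, -, hr⟩
    · exact hr
    · exact absurd h2 (not_le.mpr (by linear_combination (1 / 2) * hs0 + hr))
  obtain ⟨r1, r2, r3, r4⟩ := hr'
  rcases le_total y h0 with h3 | h3
  · have hqy := adm_low h3 hq
    subst hqy
    rcases le_total q t with h4 | h4
    · exact low P hγ (gam_zero' _ _) h1 h4 (by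
        rw [real_floor _ _ _ (by linear_combination h1), neg_neg, vir_floor])
    · have key : 2 * (1 + g s - 2 * g q) ≤ gn (j2 s) r q q + gn (j3 s) r q q := by
        rcases le_total q s with h5 | h5
        · obtain ⟨w1, w2⟩ := hw h4 h5
          exact hW q r h4 h5 r1 r2 w1 w2
        · exact hB q r h5 h3 r1 r2 r3 r4
      rw [gn_eq, gn_eq] at key
      have := mid_real (x := 0) P hγ h4 h3 (fun v hv => real_floor _ _ v hv) (by linear_combination key)
      linear_combination this
  · have hq' : 1 / 2 ≤ q ∧ q ≤ 1 ∧ q ≤ y ∧ ext q ≤ y := by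
      rcases hq with hq | ⟨-, -, hq⟩
      · exact hq
      · exact absurd h3 (not_le.mpr (by linear_combination hq))
    obtain ⟨q1, q2, q3, q4⟩ := hq'
    have k := hC y r q h3 h2 r1 r2 r3 r4 q1 q2 q3 q4
    have k0 := ga_nonneg (y := y) (k0_ok P) hγ
    have k1 := tot_ge (y := y) P hγ
    rw [gn_eq, gn_eq, gn_eq] at k
    linear_combination k + k0 + k1

/-- One crude side. -/
theorem side_crude (P : Par s t) (hO : Out s t) (hR : Rim s t) (hH : High s t)
    (hB : MidB s) (h1 : 0 ≤ y) (hy : y < 1 / 2) (hr1 : 1 / 2 ≤ r) (hr2 : r < h0 * g y - y / 2)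
    (hγ : γ = gam r 0 ∨ γ = gamH (ext r) (ww y r) y) :
    1 + g s ≤ tot s t γ y ∧ (t ≤ y → y ≤ s → 1 + g s + 13 / 1000 ≤ tot s t γ y) := by
  have hh := h0_lt
  have hg := h0_gt
  have hs0 := P.s0
  have hs1 := P.s1
  have ht0 := P.t0
  have hts := P.ts
  have gy := g_le_one y
  have r1 : r ≤ 1 := by linear_combination (1 / 2) * h1 + (433 / 500) * gy + 10000 * (mul_pos (sub_pos.mpr hr2) (sub_pos.mpr hh)) +
    10000 * (mul_pos (sub_pos.mpr hr2) (sub_pos.mpr hg)) + 10000 * (mul_pos (sub_pos.mpr hh) (sub_pos.mpr hh)) +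
    10000 * (mul_pos (sub_pos.mpr hh) (sub_pos.mpr hg)) + (mul_nonneg (sub_nonneg.mpr (le_of_lt hg)) (sub_nonneg.mpr gy))
  have yh : y ≤ h0 := by linear_combination hy + hg
  obtain ⟨e1, e2, -, -, -⟩ := ext_facts hr1 r1
  have hww : r ≤ ww y r ∧ ww y r ≤ ext r := by
    have hh0 : r ≤ h0 := by linear_combination (1 / 2) * h1 + hr2 + (mul_nonneg (sub_nonneg.mpr (le_of_lt h0_pos)) (sub_nonneg.mpr gy))
    unfold ww
    split
    · next h => exact ⟨h, by linear_combination h1⟩
    · refine ⟨le_rfl, ?_⟩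
      -- `r ≤ h0` gives `r ≤ ext r`
      have h5 : 1 / 2 ≤ g r := by
        rw [← g_h0]
        exact g_anti (by linear_combination hr1) hh0
      unfold ext
      have := h0_pos
      have hsq := h0_sq
      have h6 : h0 * (1 / 2) ≤ h0 * g r := mul_le_mul_of_nonneg_left h5 (by linear_combination hg)
      linear_combination (1 / 2) * hh0 + h6
  -- the nonnegativity and the lower part
  have nn : ∀ v, 0 ≤ γ v := by
    rcases hγ with h | h <;> rw [h]
    · exact gam_nonneg _ _
    · exact gamH_nonneg _ _ _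
  have z0 : γ 0 = 0 := by
    rcases hγ with h | h <;> rw [h]
    · exact gam_zero' _ _
    · unfold gamH
      rw [if_pos le_rfl]
      exact hi_zero hr1 r1 hww.1 hww.2
  have fl : γ (-y) ≤ 1 - g y := by
    rcases hγ with h | h <;> rw [h]
    · rcases h1.eq_or_lt with h3 | h3
      · rw [← h3, neg_zero, gam_zero', g_zero]
        norm_num
      · unfold gam
        rw [if_neg (by exact not_le.mpr (by linear_combination h3)), vir_zero_disc]
        linear_combination gy
    · rw [high_floor hr1 r1 hww.1 hww.2 _ (by linear_combination h1), neg_neg, vir_floor]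
  -- the bounds by the real side
  have real2 : ∀ {x : ℝ}, x ≤ gn (j2 s) r y y + gn (j3 s) r y y →
      x ≤ ga (j2 s) γ y + ga (j3 s) γ y := by
    intro x hx
    rcases hγ with h | h <;> rw [h]
    · have := ga_line (j2_ok P) yh hr1 r1
      have := ga_line (j3_ok P) yh hr1 r1
      linear_combination hx + this + (‹gn (j2 s) r y y ≤ ga (j2 s) (gam r 0) y›)
    · have := ga_high (j2_ok P) yh hr1 r1 hww.1 hww.2
      have := ga_high (j3_ok P) yh hr1 r1 hww.1 hww.2
      linear_combination hx + this + (‹gn (j2 s) r y y ≤ ga (j2 s) (gamH (ext r) (ww y r) y) y›)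
  have strong : t ≤ y → y ≤ s → 1 + g s + 13 / 1000 ≤ tot s t γ y := by
    intro h3 h4
    rcases hγ with h | h
    · rw [h]
      apply mid_line P h3 yh
      have k1 := hO y r h3 h4 hr1 r1
      have := ga_line (j2_ok P) yh hr1 r1
      have := ga_line (j3_ok P) yh hr1 r1
      linear_combination k1 + this + (‹gn (j2 s) r y y ≤ ga (j2 s) (gam r 0) y›)
    · rw [h]
      apply mid_real P (gamH_nonneg _ _ _) h3 yh (high_floor hr1 r1 hww.1 hww.2)
      by_cases h5 : r ≤ ext r - y - 3 / 200
      · have e : ww y r = ext r - y - 3 / 200 := by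
          unfold ww
          rw [if_pos h5]
        rw [e]
        exact hH y r h3 h4 hy hr1 hr2 h5
      · have k1 := hR y r h3 h4 hy hr1 hr2 (not_le.1 h5)
        have := ga_high (j2_ok P) yh hr1 r1 hww.1 hww.2
        have := ga_high (j3_ok P) yh hr1 r1 hww.1 hww.2
        linear_combination k1 + this + (‹gn (j2 s) r y y ≤ ga (j2 s) (gamH (ext r) (ww y r) y) y›)
  refine ⟨?_, strong⟩
  rcases le_total y t with h3 | h3
  · exact low P nn z0 h1 h3 fl
  · rcases le_total y s with h4 | h4
    · have := strong h3 h4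
      linear_combination this
    · have k := hB y r h4 yh hr1 r1 (by linear_combination hy + 2 * hg + hs0 + r1) (by linear_combination hy + 2 * hg + hs0 + e2)
      have k2 := real2 k
      -- the walls
      rcases hγ with h | h
      · rw [h] at k2 ⊢
        have := mid_line (r := r) P h3 yh (by linear_combination k2)
        linear_combination this
      · rw [h] at k2 ⊢
        have := mid_real (x := 0) P (gamH_nonneg _ _ _) h3 yh (high_floor hr1 r1 hww.1 hww.2)
          (by linear_combination k2)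
        linear_combination this

end

/-- The certificate. -/
theorem cert {s t : ℝ} (P : Par s t) (hW : Win s t) (hO : Out s t) (hR : Rim s t) (hH : High s t)
    (hB : MidB s) (hC : HighC s t) :
    ProbeCert2 (2 * h0 + s) (weights s) (probes s t) ww := by
  have hh := h0_lt
  have hg := h0_gt
  have hs0 := P.s0
  have hs1 := P.s1
  have ht0 := P.t0
  have hts := P.ts
  have hc : 0 < 1 + g s := by linear_combination (g_nonneg s)
  refine ⟨by linear_combination hg + hs0, ww_ok, ?_, ?_, ?_, ?_⟩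
  · intro i
    unfold weights
    positivity
  · intro i
    fin_cases i
    · exact k0_ok P
    · exact j1_ok P
    · exact j2_ok P
    · exact j3_ok P
    · exact j4_ok P
    · exact k5_ok P
  · intro f
    unfold pot weights probes
    rw [Fin.sum_univ_six, Fin.sum_univ_six]
    simp only [Matrix.cons_val_zero, Matrix.cons_val_one, Matrix.cons_val]
    unfold j3 j4 k5
    rw [mirP_val, mirP_val, mirP_val, mirP_val, mirP_val, mirP_val]
    simp only [sub_sub_cancel]
    ring
  · intro y r q γ r' q' γ' hy0 hy1 h h' c1 c2 c3 c4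
    rw [pg_eq, pg_eq]
    have hy2 : y ≤ h0 + s / 2 := by linear_combination hy1
    suffices h3 : 2 * (1 + g s) ≤ tot s t γ y + tot s t γ' y by
      calc (2 : ℝ) = 1 / (1 + g s) * (2 * (1 + g s)) := by field_simp
        _ ≤ 1 / (1 + g s) * (tot s t γ y + tot s t γ' y) :=
          mul_le_mul_of_nonneg_left h3 (by positivity)
        _ = _ := by ring
    -- a real side together with a real side
    have rr : ∀ {r q r' : ℝ}, Adm (2 * h0 + s - y) r → Adm y q →
        (y < 1 / 2 → h0 * g y - y / 2 ≤ r) → Adm (2 * h0 + s - y) r' →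
        (y < 1 / 2 → h0 * g y - y / 2 ≤ r') → r ≤ ext r' → 1 + g s ≤ tot s t (gam r q) y := by
      intro r q r' hr hq hc hr' hc' c
      apply side_real P hW hB hC hy0 hy2 hr hq
      intro h4 h5
      have hr1 : 1 / 2 ≤ r ∧ r ≤ 1 := by
        rcases hr with hr | ⟨-, -, hr⟩
        · exact ⟨hr.1, hr.2.1⟩
        · exact absurd hr (not_lt.mpr (by linear_combination (1 / 2) * hs0 + hy1))
      have hr1' : 1 / 2 ≤ r' ∧ r' ≤ 1 := by
        rcases hr' with hr | ⟨-, -, hr⟩
        · exact ⟨hr.1, hr.2.1⟩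
        · exact absurd hr (not_lt.mpr (by linear_combination (1 / 2) * hs0 + hy1))
      rcases lt_or_ge y (1 / 2) with h6 | h6
      · exact window hy0 h6.le hr1.1 hr1.2 hr1'.2 (hc h6) (hc' h6) c
      · obtain ⟨e1, e2, -, -, -⟩ := ext_facts hr1.1 hr1.2
        exact ⟨by linear_combination hr1.1 + h6 + e2, by linear_combination hr1.2 + h6 + e1⟩
    -- a real side together with a crude side
    have rc : ∀ {r q : ℝ} {γ' : ℝ → ℝ}, Adm (2 * h0 + s - y) r → Adm y q →
        (y < 1 / 2 → h0 * g y - y / 2 ≤ r) → y < 1 / 2 → 1 + g s ≤ tot s t γ' y →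
        (t ≤ y → y ≤ s → 1 + g s + 13 / 1000 ≤ tot s t γ' y) →
        2 * (1 + g s) ≤ tot s t (gam r q) y + tot s t γ' y := by
      intro r q γ' hr hq hc h6 k1 k2
      have hr1 : 1 / 2 ≤ r ∧ r ≤ 1 := by
        rcases hr with hr | ⟨-, -, hr⟩
        · exact ⟨hr.1, hr.2.1⟩
        · exact absurd hr (not_lt.mpr (by linear_combination (1 / 2) * hs0 + hy1))
      have e1 : ext r - r ≤ y := by
        obtain ⟨w1, w2⟩ := ext_window hy0 h6.le
        have := ext_anti w2 (hc h6) hr1.2
        rw [w1] at this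
        have := hc h6
        linear_combination this + (‹ext r ≤ h0 * g y + y / 2›)
      by_cases h4 : t ≤ y ∧ y ≤ s ∧ y < r - ext r
      · obtain ⟨h4, h5, h7⟩ := h4
        have k3 := k2 h4 h5
        have yh : y ≤ h0 := by linear_combination hg + h6
        have hqy := adm_low yh hq
        subst hqy
        have k4 := hO q r h4 h5 hr1.1 hr1.2
        rw [gn_eq, gn_eq] at k4
        have k5 := mid_real (x := -(13 / 1000)) P (fun v => gam_nonneg r q v) h4 yh
          (fun v hv => real_floor _ _ v hv) (by linear_combination k4)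
        linear_combination k3 + k5
      · have k3 := side_real P hW hB hC hy0 hy2 hr hq (by
          intro h5 h7
          refine ⟨e1, ?_⟩
          by_contra hcon
          exact h4 ⟨h5, h7, not_le.1 hcon⟩)
        linear_combination k1 + k3
    have inv : ∀ {r q : ℝ} {γ : ℝ → ℝ}, Sd (2 * h0 + s) ww y r q γ →
        (γ = gam r q ∧ Adm (2 * h0 + s - y) r ∧ Adm y q ∧ (y < 1 / 2 → h0 * g y - y / 2 ≤ r)) ∨
          (y < 1 / 2 ∧ 1 + g s ≤ tot s t γ y ∧
            (t ≤ y → y ≤ s → 1 + g s + 13 / 1000 ≤ tot s t γ y)) := by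
      intro r q γ h
      cases h with
      | real _ hr hq hc => exact Or.inl ⟨rfl, hr, hq, hc⟩
      | line hy a1 a2 =>
        exact Or.inr ⟨hy, side_crude P hO hR hH hB hy0 hy a1 a2 (Or.inl rfl)⟩
      | high hy a1 a2 =>
        exact Or.inr ⟨hy, side_crude P hO hR hH hB hy0 hy a1 a2 (Or.inr rfl)⟩
    rcases inv h with ⟨rfl, hr, hq, hc1⟩ | ⟨hy, k1, k2⟩
    · rcases inv h' with ⟨rfl, hr', hq', hc1'⟩ | ⟨hy, k1, k2⟩
      · have k1 := rr hr hq hc1 hr' hc1' c2
        have k2 := rr hr' hq' hc1' hr hc1 c1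
        linear_combination k1 + k2
      · exact rc hr hq hc1 hy k1 k2
    · rcases inv h' with ⟨rfl, hr', hq', hc1'⟩ | ⟨_, k3, -⟩
      · have := rc hr' hq' hc1' hy k1 k2
        linear_combination this
      · linear_combination k1 + k3

theorem count {s t : ℝ} (P : Par s t) (hW : Win s t) (hO : Out s t) (hR : Rim s t)
    (hH : High s t) (hB : MidB s) (hC : HighC s t) : CountBound 2 s := by
  have hc : 0 < 1 + g s := by linear_combination (g_nonneg s)
  have hp := h0_gt
  have hs0 := P.s0
  have hs1 := P.s1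
  apply countBound_of_probe2 (by linear_combination hs0) (by linear_combination hp + hs1) (c := weights s) (j := probes s t)
    (w := ww)
  · have := cert P hW hO hR hH hB hC
    push_cast
    exact this
  · simp only [Fin.sum_univ_six, weights]
    apply le_of_eq
    push_cast
    field_simp
    ring

end Pool.Agent.Strip051.FourC
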