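import Pool.Agent.Strip051.FourC.Defs
import Pool.Agent.Strip051.FourB.Box

/-! # The real inequality for `s ≤ y ≤ h0`: notation for the boxes -/

namespace Pool.Agent.Strip051.FourC.MB

open Pool.Agent.StripNear Pool.Agent.StripSquare Pool.Agent.Strip051
open Pool.Agent.Strip051.Four.Low (ph)
open Pool.Agent.Strip051.FourB (lo up)

/-- The sum of the gains minus the claim. -/
noncomputable def U3 (s b t k : ℝ) : ℝ :=
  1 / 2 + h0 * b - 3 / 2 * ph b - ph (h0 - t) - ph (8 / 25 * s) + ph (s + t - b / 2 - k) +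
    ph (s + t + b / 2 - k) + ph (8 / 25 * s + t - b / 2 - k) + 2 * ph s - 4 * ph (s + t)

/-- The constraints: `s + t` is the height of the new point, `b` is the height between the exit and
the virtual disc. -/
structure Reg (s b t k : ℝ) : Prop where
  k1 : 86602 / 100000 * ph b ≤ k
  k2 : k ≤ 86603 / 100000 * ph b
  h1 : 86602 / 100000 ≤ h0
  h2 : h0 ≤ 86603 / 100000
  h3 : 86602 / 100000 * b ≤ h0 * b
  h4 : 0 ≤ k
  h5 : k ≤ 1161 / 10000
  s1 : 433 / 1000 ≤ s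
  s2 : s ≤ 53 / 100
  b1 : 0 ≤ b
  b2 : b ≤ 1 / 2
  t1 : 0 ≤ t
  t2 : t ≤ 1831 / 5000
  hz : s + t + b / 2 - k ≤ h0

section

variable {s b t k : ℝ}

theorem Reg.lo1 (R : Reg s b t k) (u : ℝ) (hu : u ^ 2 < 1) :
    2 * u * (s + t - b / 2 - k) - 2 * u ^ 2 ≤ (1 - u ^ 2) * ph (s + t - b / 2 - k) :=
  lo hu (by linear_combination R.s1 + R.t1 + (1 / 2) * R.b2 + R.h5) (by linear_combination R.s2 + R.t2 + (1 / 2) * R.b1 + R.h4)

theorem Reg.lo2 (R : Reg s b t k) (u : ℝ) (hu : u ^ 2 < 1) :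
    2 * u * (s + t + b / 2 - k) - 2 * u ^ 2 ≤ (1 - u ^ 2) * ph (s + t + b / 2 - k) :=
  lo hu (by linear_combination R.s1 + R.t1 + (1 / 2) * R.b1 + R.h5) (by linear_combination R.hz + R.h2)

theorem Reg.lo5 (R : Reg s b t k) (u : ℝ) (hu : u ^ 2 < 1) :
    2 * u * (8 / 25 * s + t - b / 2 - k) - 2 * u ^ 2 ≤
      (1 - u ^ 2) * ph (8 / 25 * s + t - b / 2 - k) :=
  lo hu (by linear_combination (8 / 25) * R.s1 + R.t1 + (1 / 2) * R.b2 + R.h5) (by linear_combination (8 / 25) * R.s2 + R.t2 + (1 / 2) * R.b1 + R.h4)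

theorem Reg.lo8 (R : Reg s b t k) (u : ℝ) (hu : u ^ 2 < 1) :
    2 * u * s - 2 * u ^ 2 ≤ (1 - u ^ 2) * ph s :=
  lo hu (by linear_combination R.s1) (by linear_combination R.s2)

theorem Reg.lo9 (R : Reg s b t k) (u : ℝ) (hu : u ^ 2 < 1) :
    2 * u * b - 2 * u ^ 2 ≤ (1 - u ^ 2) * ph b :=
  lo hu (by linear_combination R.b1) (by linear_combination R.b2)

end

end Pool.Agent.Strip051.FourC.MB
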