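import Pool.Agent.Strip051.FourC.Defs
import Pool.Agent.Strip051.Four.MidGainMid

/-! # Gains when the new point is between `s` and `h0` -/

namespace Pool.Agent.Strip051.FourC

open Pool.Agent.StripNear Pool.Agent.StripSquare Pool.Agent.Strip051
open Pool.Agent.Strip051.Four (mirP j1 gn mirP_ok mirP_val mirP_gn mirP_mirP gam_neg arc_sub le_gn
  gn_nonneg adm_low g_le_of_abs ext_facts gain_ge h0_le_of_ext corner h0_le_max)

section

variable {s t y r q : ℝ}

/-- The arc with centre between `s` and `h0` which touches the body of the second probe at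
`h0 + s`. -/
theorem a2_touch (P : Par s t) (h1 : s ≤ y) (h2 : y ≤ h0) {z : ℝ} (k1 : s ≤ z) (k2 : z ≤ s + 1) :
    a2 s z ≤ g (z - y) + (g s + 1 - g (8 / 25 * s) - g (h0 + s - y)) := by
  have hh := h0_lt
  have hg := h0_gt
  have hs0 := P.s0
  have hs1 := P.s1
  rcases le_total z (h0 + s) with h | h
  · have e1 := a2_le3 (s := s) (z := z)
    have e2 := arc_sub (a := y) (b := h0) (x := z) (y := h0 + s) h2 h (by linear_combination k1 + hh + hs0) (by linear_combination h1 + hh)
    rw [add_sub_cancel_left] at e2
    linear_combination e1 + e2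
  · have e1 := a2_le4 (s := s) (z := z)
    have e2 := arc_sub (a := s) (b := y) (x := h0 + s) (y := z) h1 h (by linear_combination h2 + hs0) (by linear_combination k2)
    rw [add_sub_cancel_right, g_h0] at e2
    linear_combination e1 + e2

/-- The second probe. -/
theorem mc2 (P : Par s t) (h1 : s ≤ y) (h2 : y ≤ h0) (r1 : 1 / 2 ≤ r) (r2 : r ≤ 1) :
    g (min r (ext r)) + g (h0 + s - y) - g s - 1 + 2 * g (8 / 25 * s)
      - g (y + min r (ext r) - h0) ≤ gn (j2 s) r y y := by
  have hh := h0_lt
  have hg := h0_gt
  have hs0 := P.s0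
  have hs1 := P.s1
  obtain ⟨e1, e2, e3, e4, e5⟩ := ext_facts r1 r2
  rcases le_total r (ext r) with h | h
  · rw [min_eq_left h]
    have h3 := gain_ge (y := y) (r := r) (q := y) (C := y)
      (α := g s + 1 - g (8 / 25 * s) - g (h0 + s - y)) (z0 := h0) (β := g (8 / 25 * s))
      (j2_ok P) r1 r2 le_rfl (by linear_combination r1)
      (fun z k1 k2 => a2_touch P h1 h2 (by simpa [j2] using k1) (by simpa [j2] using k2))
      (by simp only [j2]; linear_combination h1 + h2) (by simp only [j2]; linear_combination hh + hs0) h2 (by linear_combination h1 + 2 * r1 + hh + hs0)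
      (by
        simp only [j2]
        rw [a2_eq2 P le_rfl (by linear_combination (8 / 25) * hs0), show h0 - (h0 + 8 / 25 * s) = -(8 / 25 * s) by ring,
          g_neg])
    rw [show y + ext r - y = ext r by ring] at h3
    linear_combination -e3 + h3
  · rw [min_eq_right h]
    have hr := h0_le_of_ext r1 r2 h
    have h3 := gain_ge (y := y) (r := r) (q := y) (C := h0)
      (α := 1 - g (8 / 25 * s)) (z0 := y) (β := g (y - (h0 + s)) + (g (8 / 25 * s) - g s))
      (j2_ok P) r1 r2 h2 (by linear_combination h1 + r1 + hh + hs0)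
      (fun z k1 k2 => a2_le3)
      (by simp only [j2]; linear_combination h1) (by simp only [j2]; linear_combination h2 + hh + hs0) (by linear_combination) (by linear_combination 2 * r1)
      (by
        simp only [j2]
        rw [a2_eq1 P h1 h2])
    rw [show y + r - y = r by ring, show y - (h0 + s) = -(h0 + s - y) by ring, g_neg] at h3
    linear_combination -e3 + h3

/-- The third probe, far corner below `2 h0`. -/
theorem mc3 (P : Par s t) (h1 : s ≤ y) (h2 : y ≤ h0) (r1 : 1 / 2 ≤ r) (r2 : r ≤ 1) :
    g (ext r - r) - g (y + max r (ext r) - h0) - g (8 / 25 * s) + g s + 1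
      - g (y + min r (ext r) - (h0 + s - 8 / 25 * s)) ≤ gn (j3 s) r y y := by
  have hh := h0_lt
  have hg := h0_gt
  have hs0 := P.s0
  have hs1 := P.s1
  obtain ⟨e1, e2, e3, e4, e5⟩ := ext_facts r1 r2
  rcases le_total r (ext r) with h | h
  · rw [min_eq_left h, max_eq_right h]
    have h3 := gain_ge (y := y) (r := r) (q := y) (C := h0)
      (α := g (8 / 25 * s) - g s) (z0 := h0 + s - 8 / 25 * s) (β := 1)
      (j3_ok P) r1 r2 h2 (by linear_combination h1 + r1 + hh + hs0)
      (fun z k1 k2 => by
        have := a2_le1 (s := s) (z := 2 * h0 + s - z)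
        rw [show 2 * h0 + s - z - (h0 + s) = -(z - h0) by ring, g_neg] at this
        exact this)
      (by simp only [j3, mirP, j2]; linear_combination hh + (17 / 25) * hs0) (by simp only [j3, mirP, j2]; linear_combination (17 / 25) * h1 + (17 / 25) * h2 + (8 / 25) * hg)
      (by linear_combination h2 + (17 / 25) * hs0) (by linear_combination h1 + 2 * r1 + hh + (8 / 25) * hs0)
      (by
        simp only [j3, mirP, j2]
        rw [show 2 * h0 + s - (h0 + s - 8 / 25 * s) = h0 + 8 / 25 * s by ring,
          a2_eq2 P (by linear_combination (8 / 25) * hs0) le_rfl, sub_self, g_zero])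
    linear_combination h3
  · rw [min_eq_right h, max_eq_left h]
    have hr := h0_le_of_ext r1 r2 h
    have h3 := gain_ge (y := y) (r := r) (q := y) (C := h0 + s - 8 / 25 * s)
      (α := 0) (z0 := h0) (β := g s + (1 - g (8 / 25 * s)))
      (j3_ok P) r1 r2 (by linear_combination h2 + (17 / 25) * hs0) (by linear_combination h1 + (8 / 25) * hs0 + hr)
      (fun z k1 k2 => by
        have := a2_le2 (s := s) (z := 2 * h0 + s - z)
        rw [show 2 * h0 + s - z - (h0 + 8 / 25 * s) = -(z - (h0 + s - 8 / 25 * s)) by ring,
          g_neg] at this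
        rw [add_zero]
        exact this)
      (by simp only [j3, mirP, j2]; linear_combination hh) (by simp only [j3, mirP, j2]; linear_combination hg)
      (by linear_combination h2) (by linear_combination h1 + 2 * r1 + hh + hs0)
      (by
        simp only [j3, mirP, j2]
        rw [show 2 * h0 + s - h0 = h0 + s by ring, a2_eq3 P (by linear_combination (17 / 25) * hs0) le_rfl,
          add_sub_cancel_left])
    linear_combination h3

/-- The third probe, far corner above `2 h0`. -/
theorem mc3' (P : Par s t) (h1 : s ≤ y) (h2 : y ≤ h0) (r1 : 1 / 2 ≤ r) (r2 : r ≤ 1)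
    (hc2 : 2 * h0 ≤ y + max r (ext r)) :
    g (min r (ext r)) + g (2 * h0 - y) + g s + 1 / 2 - g (8 / 25 * s)
      - g (y + min r (ext r) - (h0 + s - 8 / 25 * s)) ≤ gn (j3 s) r y y := by
  have hh := h0_lt
  have hg := h0_gt
  have hs0 := P.s0
  have hs1 := P.s1
  obtain ⟨e1, e2, e3, e4, e5⟩ := ext_facts r1 r2
  have hy : 2 * h0 - 1 ≤ y := by
    have : max r (ext r) ≤ 1 := max_le r2 e2
    linear_combination hc2 + this
  rcases le_total r (ext r) with h | h
  · rw [min_eq_left h]
    rw [max_eq_right h] at hc2
    have h3 := gain_ge (y := y) (r := r) (q := y) (C := y)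
      (α := 1 / 2 + g (8 / 25 * s) - g s - g (2 * h0 - y)) (z0 := h0 + s - 8 / 25 * s) (β := 1)
      (j3_ok P) r1 r2 le_rfl (by linear_combination r1)
      (fun z k1 k2 => by
        simp only [j3, mirP, j2] at k1 k2
        have k3 := a2_le1 (s := s) (z := 2 * h0 + s - z)
        rw [show 2 * h0 + s - z - (h0 + s) = -(z - h0) by ring, g_neg] at k3
        have k4 := arc_sub (a := y) (b := h0) (x := z) (y := 2 * h0) h2 (by linear_combination k2)
          (by linear_combination hg + k1) (by linear_combination hc2 + e2)
        rw [show 2 * h0 - h0 = h0 by ring, g_h0] at k4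
        simp only [j3, mirP, j2]
        linear_combination k3 + k4)
      (by simp only [j3, mirP, j2]; linear_combination hh + (17 / 25) * hs0) (by simp only [j3, mirP, j2]; linear_combination (17 / 25) * h1 + (17 / 25) * h2 + (8 / 25) * hg)
      (by linear_combination h2 + (17 / 25) * hs0) (by linear_combination h1 + 2 * r1 + hh + (8 / 25) * hs0)
      (by
        simp only [j3, mirP, j2]
        rw [show 2 * h0 + s - (h0 + s - 8 / 25 * s) = h0 + 8 / 25 * s by ring,
          a2_eq2 P (by linear_combination (8 / 25) * hs0) le_rfl, sub_self, g_zero])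
    rw [show y + ext r - y = ext r by ring] at h3
    linear_combination -e3 + h3
  · rw [min_eq_right h]
    rw [max_eq_left h] at hc2
    have hr := h0_le_of_ext r1 r2 h
    have h3 := gain_ge (y := y) (r := r) (q := y) (C := h0 + s - 8 / 25 * s)
      (α := 0) (z0 := y) (β := g (2 * h0 - y) + (g s + 1 / 2 - g (8 / 25 * s)))
      (j3_ok P) r1 r2 (by linear_combination h2 + (17 / 25) * hs0) (by linear_combination (17 / 25) * h1 + (9 / 25) * h2 + (8 / 25) * r1 + (17 / 25) * hc2)
      (fun z k1 k2 => by
        have := a2_le2 (s := s) (z := 2 * h0 + s - z)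
        rw [show 2 * h0 + s - z - (h0 + 8 / 25 * s) = -(z - (h0 + s - 8 / 25 * s)) by ring,
          g_neg] at this
        rw [add_zero]
        exact this)
      (by simp only [j3, mirP, j2]; linear_combination r2 + hc2) (by simp only [j3, mirP, j2]; linear_combination h2 + hg)
      (by linear_combination) (by linear_combination 2 * r1)
      (by
        simp only [j3, mirP, j2]
        rw [a2_eq4 P (by linear_combination h2) (by linear_combination r2 + hc2), show 2 * h0 + s - y - s = 2 * h0 - y by ring])
    rw [show y + r - y = r by ring] at h3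
    linear_combination -e3 + h3

end

end Pool.Agent.Strip051.FourC
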