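import Pool.Agent.Strip051.FourC.Box
import Pool.Agent.Strip051.FourC.Fronts

/-! # Gains from two touching arcs -/

namespace Pool.Agent.Strip051.FourC.LA

open Pool.Agent.StripNear Pool.Agent.StripSquare Pool.Agent.Strip051
open Pool.Agent.Strip051.Four (mirP j1 gn mirP_ok mirP_val arc_sub le_gn gn_nonneg adm_low
  g_le_of_abs ext_facts gain_ge)
open Pool.Agent.Strip051.Four.Low (ph ph_nonneg ph_neg ph_zero ph_mono ph_abs ph_quad)

/-- A unit arc above the body of the probe which touches it above its centre. -/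
structure Tch (j : Probe) (x α : ℝ) : Prop where
  le : ∀ z, j.lo ≤ z → z ≤ j.hi → j.a z ≤ g (z - x) + α
  lo : j.lo ≤ x
  hi : x ≤ j.hi
  top : 1 - α ≤ j.a x

theorem Tch.mir {j : Probe} {x α : ℝ} (T : Tch j x α) (H : ℝ) : Tch (mirP H j) (H - x) α := by
  refine ⟨fun z h1 h2 => ?_, ?_, ?_, ?_⟩
  · simp only [mirP] at h1 h2 ⊢
    have := T.le (H - z) (by linear_combination h2) (by linear_combination h1)
    rwa [show H - z - x = -(z - (H - x)) by ring, g_neg] at this
  · simp only [mirP]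
    linear_combination T.hi
  · simp only [mirP]
    linear_combination T.lo
  · simp only [mirP]
    rw [sub_sub_cancel]
    exact T.top

section

variable {s t : ℝ}

theorem t2s (P : Par s t) : Tch (j2 s) s (g s + 1 / 2 - g (8 / 25 * s)) := by
  have hh := h0_gt
  have := P.s0
  have := P.s1
  refine ⟨fun z _ _ => a2_le4, le_rfl, by simp only [j2]; linear_combination, ?_⟩
  simp only [j2]
  rw [a2_eq1 P le_rfl (by linear_combination hh + this), show s - (h0 + s) = -h0 by ring, g_neg, g_h0]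
  linear_combination

theorem t2h (P : Par s t) : Tch (j2 s) h0 (1 - g (8 / 25 * s)) := by
  have hh := h0_gt
  have hl := h0_lt
  have := P.s0
  have := P.s1
  refine ⟨fun z _ _ => a2_le3, by simp only [j2]; linear_combination hh + this, by simp only [j2]; linear_combination hl + (‹433 / 1000 ≤ s›), ?_⟩
  simp only [j2]
  rw [a2_eq2 P le_rfl (by linear_combination (8 / 25) * (‹433 / 1000 ≤ s›)), show h0 - (h0 + 8 / 25 * s) = -(8 / 25 * s) by ring, g_neg]
  linear_combination

theorem t2d (P : Par s t) : Tch (j2 s) (h0 + 8 / 25 * s) 0 := by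
  have hh := h0_gt
  have hl := h0_lt
  have := P.s0
  have := P.s1
  refine ⟨fun z _ _ => by rw [add_zero]; exact a2_le2, by simp only [j2]; linear_combination hh + (17 / 25) * this,
    by simp only [j2]; linear_combination hl + (17 / 25) * (‹433 / 1000 ≤ s›), ?_⟩
  simp only [j2]
  rw [a2_eq2 P (by linear_combination (8 / 25) * (‹433 / 1000 ≤ s›)) le_rfl, sub_self, g_zero]
  linear_combination

theorem t2t (P : Par s t) : Tch (j2 s) (h0 + s) (g (8 / 25 * s) - g s) := by
  have hh := h0_gt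
  have hl := h0_lt
  have := P.s0
  have := P.s1
  refine ⟨fun z _ _ => a2_le1, by simp only [j2]; linear_combination hh,
    by simp only [j2]; linear_combination hl, ?_⟩
  simp only [j2]
  rw [a2_eq3 P (by linear_combination (17 / 25) * (‹433 / 1000 ≤ s›)) le_rfl, show h0 + s - h0 = s by ring]
  linear_combination

theorem t3h (P : Par s t) : Tch (j3 s) h0 (g (8 / 25 * s) - g s) := by
  have := (t2t P).mir (2 * h0 + s)
  rwa [show 2 * h0 + s - (h0 + s) = h0 by ring] at this

theorem t3d (P : Par s t) : Tch (j3 s) (h0 + 17 / 25 * s) 0 := by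
  have := (t2d P).mir (2 * h0 + s)
  rwa [show 2 * h0 + s - (h0 + 8 / 25 * s) = h0 + 17 / 25 * s by ring] at this

theorem t3t (P : Par s t) : Tch (j3 s) (h0 + s) (1 - g (8 / 25 * s)) := by
  have := (t2h P).mir (2 * h0 + s)
  rwa [show 2 * h0 + s - h0 = h0 + s by ring] at this

end

/-- The gain from two touching arcs. -/
theorem two_ge {j : Probe} {H y r q p p' x1 x2 α1 α2 : ℝ} (hj : j.Ok H) (h1 : 1 / 2 ≤ r)
    (h2 : r ≤ 1) (h : (p = r ∧ p' = ext r) ∨ (p = ext r ∧ p' = r)) (T1 : Tch j x1 α1)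
    (T2 : Tch j x2 α2) (a1 : y ≤ x1) (a2 : x1 ≤ y + p') (a3 : y ≤ x2) (a4 : x2 ≤ y + p) :
    g (p' - p) + 1 - g (y + p - x1) - g (y + p' - x2) - α1 - α2 ≤ gn j r q y := by
  obtain ⟨e1, e2, e3, e4, e5⟩ := ext_facts h1 h2
  obtain ⟨f1, f2, f3, f4, f5⟩ := ext_facts e1 e2
  rw [e5] at f4
  rcases h with ⟨rfl, rfl⟩ | ⟨rfl, rfl⟩
  · have := gain_ge (q := q) (β := 1 - α1) hj h1 h2 a3 a4 T2.le T1.lo T1.hi a1 (by linear_combination 2 * h1 + e2 + a2) T1.top
    linear_combination this
  · have := gain_ge (q := q) (β := 1 - α2) hj h1 h2 a1 a2 T1.le T2.lo T2.hi a3 (by linear_combination 2 * h1 + e2 + a4) T2.top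
    rw [show p' - ext p' = -(ext p' - p') by ring, g_neg]
    linear_combination this

/-- The two sides in terms of `b = |ext r - r|`. -/
theorem sides {r : ℝ} (h1 : 1 / 2 ≤ r) (h2 : r ≤ 1) : ∃ p p' : ℝ,
    ((p = r ∧ p' = ext r) ∨ (p = ext r ∧ p' = r)) ∧ 1 / 2 ≤ p ∧ p' ≤ 1 ∧
      p = h0 - |ext r - r| / 2 - h0 * ph |ext r - r| ∧
      p' = h0 + |ext r - r| / 2 - h0 * ph |ext r - r| := by
  obtain ⟨e1, e2, e3, e4, e5⟩ := ext_facts h1 h2
  have k1 : ext r = r / 2 + h0 * g r := rfl
  have k2 : ext r / 2 + h0 * g (ext r) = r := e5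
  have k3 : r + ext r = 2 * (h0 * g (ext r - r)) := by
    rw [e3]
    linear_combination 2 * k1 - 2 * k2
  rcases le_total r (ext r) with h | h
  · refine ⟨r, ext r, Or.inl ⟨rfl, rfl⟩, h1, e2, ?_, ?_⟩ <;>
    · rw [abs_of_nonneg (by linear_combination h)]
      unfold Four.Low.ph
      linear_combination (1 / 2) * k3
  · refine ⟨ext r, r, Or.inr ⟨rfl, rfl⟩, e1, h2, ?_, ?_⟩ <;>
    · rw [abs_of_nonpos (by linear_combination h)]
      unfold Four.Low.ph
      rw [g_neg]
      linear_combination (1 / 2) * k3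

theorem h0_lo : 86602 / 100000 ≤ h0 := by
  have := h0_sq
  have := h0_pos
  exact not_lt.mp (fun hg__ => absurd hg__ (not_lt.mpr (by linear_combination -(50000 / 43301) * (‹h0 ^ 2 = 3 / 4›) + (50000 / 43301) * (mul_pos (sub_pos.mpr hg__) (sub_pos.mpr this)))))

theorem h0_up : h0 ≤ 86603 / 100000 := by
  have := h0_sq
  have := h0_pos
  exact not_lt.mp (fun hg__ => absurd hg__ (not_lt.mpr (by linear_combination (50000 / 86603) * (‹h0 ^ 2 = 3 / 4›) + (50000 / 86603) * (mul_pos (sub_pos.mpr hg__) (sub_pos.mpr hg__)))))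

theorem t_low {s t : ℝ} (P : Par s t) : 716 / 1000 * s ≤ t := by
  have hs0 := P.s0
  have hs1 := P.s1
  have ht0 := P.t0
  have hts := P.ts
  have hgt := P.gt
  have c0 := g_nonneg s
  have cs := g_sq (r := s) (by linear_combination (963 / 1000) * hs1 + (mul_nonneg (sub_nonneg.mpr hs0) (sub_nonneg.mpr hs1)))
  have ct := g_sq (r := t) (by linear_combination (sq_nonneg (g s)) + (433 / 1000) * hts + cs + (mul_nonneg (sub_nonneg.mpr hs0) (sub_nonneg.mpr hts)) +
    (mul_nonneg (sub_nonneg.mpr ht0) (sub_nonneg.mpr hts)))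
  have c1 : g s ≤ 9035 / 10000 := by exact not_lt.mp (fun hg__ => absurd hs0 (not_le.mpr (by linear_combination (1807 / 866) * hg__ + (500 / 433) * cs + (500 / 433) * (mul_nonneg (sub_nonneg.mpr hs0) (sub_nonneg.mpr hs0)) + (500 / 433) * (mul_pos (sub_pos.mpr hg__) (sub_pos.mpr hg__)))))
  have e : g t = (1 + g s) / 2 := by linear_combination (1 / 2) * hgt
  rw [e] at ct
  apply abs_le_of_sq_le_sq' _ ht0 |>.2
  have : 0 ≤ (1 - g s) * (9035 / 10000 - g s) := mul_nonneg (by linear_combination c1) (by linear_combination c1)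
  linear_combination (32041 / 62500) * cs - ct + (67 / 1953125) * c1 + (4104 / 15625) * this

theorem b_facts {r : ℝ} (hr1 : 1 / 2 ≤ r) (hr2 : r ≤ 1) :
    0 ≤ |ext r - r| ∧ |ext r - r| ≤ 1 / 2 := by
  obtain ⟨e1, e2, e3, e4, e5⟩ := ext_facts hr1 hr2
  exact ⟨abs_nonneg _, abs_le.2 ⟨by linear_combination hr2 + e1, by linear_combination hr1 + e2⟩⟩

/-- The numbers. -/
theorem num {s t y r : ℝ} (P : Par s t) (h1 : t ≤ y) (h2 : y ≤ s) (hr1 : 1 / 2 ≤ r)
    (hr2 : r ≤ 1) : Num s |ext r - r| (s - y) (h0 * ph |ext r - r|) := by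
  obtain ⟨p, p', -, hp, hp', e1, e2⟩ := sides hr1 hr2
  obtain ⟨b0, b1⟩ := b_facts hr1 hr2
  have ht := t_low P
  have hs0 := P.s0
  have hs1 := P.s1
  have hl := h0_lo
  have hu := h0_up
  obtain ⟨b, hb⟩ : ∃ b, b = |ext r - r| := ⟨_, rfl⟩
  rw [← hb] at b0 b1 e1 e2 ⊢
  have n := ph_nonneg b
  have m : ph b ≤ 134 / 1000 := by
    have := ph_mono b0 b1
    have e : ph (1 / 2) = 1 - h0 := by
      unfold Four.Low.ph g
      rw [show (1 : ℝ) - (1 / 2) ^ 2 = h0 ^ 2 by rw [h0_sq]; norm_num,
        Real.sqrt_sq h0_pos.le]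
    linear_combination hl + this + e
  refine ⟨mul_le_mul_of_nonneg_right hl n, mul_le_mul_of_nonneg_right hu n, hl, hu,
    mul_le_mul_of_nonneg_right hl b0, mul_le_mul_of_nonneg_right hu b0, hs0, hs1, b0, b1,
    by linear_combination h2, by linear_combination h1 + ht + (71 / 250) * hs1, mul_nonneg h0_pos.le n, ?_, by linear_combination h2 + hp' - e2⟩
  have := mul_le_mul hu m n (by norm_num)
  linear_combination this

/-- The gains of the two bodies before the front of the virtual disc. -/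
theorem reg {s t y r : ℝ} (P : Par s t) (h1 : t ≤ y) (h2 : y ≤ s) (hr1 : 1 / 2 ≤ r)
    (hr2 : r ≤ 1) : Reg s |ext r - r| (s - y) (h0 * ph |ext r - r|) (gn (j2 s) r y y)
      (gn (j3 s) r y y) := by
  have N := num P h1 h2 hr1 hr2
  obtain ⟨p, p', hpp, hp, hp', e1, e2⟩ := sides hr1 hr2
  obtain ⟨b0, b1⟩ := b_facts hr1 hr2
  have ht := t_low P
  have hs0 := P.s0
  have hs1 := P.s1
  have hl := h0_lo
  have hu := h0_up
  obtain ⟨b, hb⟩ : ∃ b, b = |ext r - r| := ⟨_, rfl⟩
  rw [← hb] at b0 b1 e1 e2 N ⊢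
  obtain ⟨k, hk⟩ : ∃ k, k = h0 * ph b := ⟨_, rfl⟩
  rw [← hk] at e1 e2 N ⊢
  obtain ⟨u, hu'⟩ : ∃ u, u = s - y := ⟨_, rfl⟩
  rw [← hu'] at N ⊢
  have hy : y = s - u := by linear_combination hu'
  have gb : g (p' - p) = 1 - ph b := by
    rw [e1, e2, show h0 + b / 2 - k - (h0 - b / 2 - k) = b by ring]
    unfold Four.Low.ph
    ring
  have ges : g s = 1 - ph s := by
    unfold Four.Low.ph
    ring
  have ged : g (8 / 25 * s) = 1 - ph (8 / 25 * s) := by
    unfold Four.Low.ph
    ring
  have t1 := N.t1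
  have t2 := N.t2
  have k3 := N.k3
  have k4 := N.k4
  have cv : ∀ {x A : ℝ}, y + p - x = A → g (y + p - x) = 1 - ph A := by
    intro x A h
    rw [h]
    unfold Four.Low.ph
    ring
  have cv' : ∀ {x A : ℝ}, y + p' - x = A → g (y + p' - x) = 1 - ph A := by
    intro x A h
    rw [h]
    unfold Four.Low.ph
    ring
  have a3 : g (y + p' - s) = 1 - ph (h0 - u + b / 2 - k) := cv' (by rw [e2, hy]; ring)
  have a2 : g (y + p' - h0) = 1 - ph (s - u + b / 2 - k) := cv' (by rw [e2, hy]; ring)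
  have d2 : g (y + p - h0) = 1 - ph (s - u - b / 2 - k) := cv (by rw [e1, hy]; ring)
  have d1 : g (y + p - (h0 + 8 / 25 * s)) = 1 - ph (17 / 25 * s - u - b / 2 - k) :=
    cv (by rw [e1, hy]; ring)
  have d0 : g (y + p - (h0 + s)) = 1 - ph (u + b / 2 + k) := by
    rw [← ph_neg]
    exact cv (by rw [e1, hy]; ring)
  have c1 : g (y + p - (h0 + 17 / 25 * s)) = 1 - ph (8 / 25 * s - u - b / 2 - k) :=
    cv (by rw [e1, hy]; ring)
  have c1' : g (y + p' - (h0 + 17 / 25 * s)) = 1 - ph (8 / 25 * s - u + b / 2 - k) :=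
    cv' (by rw [e2, hy]; ring)
  refine ⟨N, gn_nonneg (j2_ok P), gn_nonneg (j3_ok P), ?_, ?_, ?_, ?_, ?_, ?_, ?_, ?_⟩
  · intro h3
    have := two_ge (q := y) (j2_ok P) hr1 hr2 hpp (t2h P) (t2h P) (y := y) (by linear_combination h2 + hs1 + hl)
      (by linear_combination h1 + ht + (179 / 250) * hs0 + (1 / 2) * b0 - e2 + k4) (by linear_combination h2 + hs1 + hl) (by linear_combination -e1 - hu' + h3)
    rw [gb, d2, a2, ged] at this
    linear_combination this
  · intro h3 h4
    have := two_ge (q := y) (j2_ok P) hr1 hr2 hpp (t2d P) (t2h P) (y := y) (by linear_combination h2 + (17 / 25) * hs1 + hl)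
      (by linear_combination h1 + ht + (99 / 250) * hs0 + (1 / 2) * b0 - e2 + k4) (by linear_combination h2 + hs1 + hl) (by linear_combination -e1 - hu' + h3)
    rw [gb, d1, a2, ged] at this
    linear_combination this
  · intro h3
    have := two_ge (q := y) (j2_ok P) hr1 hr2 hpp (t2d P) (t2s P) (y := y) (by linear_combination h2 + (17 / 25) * hs1 + hl)
      (by linear_combination h1 + ht + (99 / 250) * hs0 + (1 / 2) * b0 - e2 + k4) (by linear_combination h2) (by linear_combination h1 + hp + ht + (71 / 250) * hs1)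
    rw [gb, d1, a3, ged, ges] at this
    linear_combination this
  · intro h3
    have := two_ge (q := y) (j2_ok P) hr1 hr2 hpp (t2h P) (t2s P) (y := y) (by linear_combination h2 + hs1 + hl)
      (by linear_combination h1 + ht + (179 / 250) * hs0 + (1 / 2) * b0 - e2 + k4) (by linear_combination h2) (by linear_combination h1 + hp + ht + (71 / 250) * hs1)
    rw [gb, d2, a3, ged, ges] at this
    linear_combination this
  · intro h3
    have := two_ge (q := y) (j2_ok P) hr1 hr2 hpp (t2t P) (t2s P) (y := y) (by linear_combination h2 + hl)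
      (by linear_combination -e2 - hu' + h3) (by linear_combination h2) (by linear_combination h1 + hp + ht + (71 / 250) * hs1)
    rw [gb, d0, a3, ged, ges] at this
    linear_combination this
  · intro h3
    have := two_ge (q := y) (j3_ok P) hr1 hr2 hpp (t3d P) (t3d P) (y := y) (by linear_combination h2 + (8 / 25) * hs1 + hl)
      (by linear_combination b0 - e2 - hu' + h3) (by linear_combination h2 + (8 / 25) * hs1 + hl) (by linear_combination -e1 - hu' + h3)
    rw [gb, c1, c1'] at this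
    linear_combination this
  · intro h3 h4
    have := two_ge (q := y) (j3_ok P) hr1 hr2 hpp (t3d P) (t3h P) (y := y) (by linear_combination h2 + (8 / 25) * hs1 + hl)
      (by linear_combination -e2 - hu' + h3) (by linear_combination h2 + hs1 + hl) (by linear_combination -e1 - hu' + h4)
    rw [gb, c1, a2, ged, ges] at this
    linear_combination this
  · intro h3 h4
    have := two_ge (q := y) (j3_ok P) hr1 hr2 hpp (t3t P) (t3h P) (y := y) (by linear_combination h2 + hl)
      (by linear_combination -e2 - hu' + h3) (by linear_combination h2 + hs1 + hl) (by linear_combination -e1 - hu' + h4)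
    rw [gb, d0, a2, ged, ges] at this
    linear_combination this

end Pool.Agent.Strip051.FourC.LA
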